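import Pool.Agent.H63.TV.Defs

/-!
# TV-03: second derivatives at critical points

`hess_symm`: `ContDiffAt.isSymmSndFDerivAt`.
`hess_nonneg`: for `v ∈ P` let `φ t = F (p + t v)`.  `φ` is twice differentiable at `0`, `φ' (0) = 0`,
`φ'' (0) = hess F p v v`, and `φ t ≥ φ 0` for small `t`.  If `φ'' (0) < 0`, then `φ' t < 0` for small
`t > 0`, so `φ` is strictly decreasing on a small interval `[0, t₀]`, a contradiction
(Mathlib may have: second derivative test, `isLocalMax_of_deriv_deriv_neg`).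
`hess_nonpos`: apply `hess_nonneg` to `-F`.
`crit_comp`: chain rule; `D² (F ∘ φ) (v, w) = D² F (Dφ v, Dφ w) + DF (D² φ (v, w))`, and the last term
vanishes.  (Differentiate `fderiv (F ∘ φ) x = (fderiv F (φ x)).comp (fderiv φ x)`, valid for `x` near `p`.)
-/

open scoped ContDiff

namespace Pool.Agent.H63.TV

variable {E E' : Type*} [NormedAddCommGroup E] [NormedSpace ℝ E] [NormedAddCommGroup E']
  [NormedSpace ℝ E']

theorem hess_symm {F : E → ℝ} {p : E} (hF : ContDiffAt ℝ 2 F p) (v w : E) :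
    hess F p v w = hess F p w v :=
  (hF.isSymmSndFDerivAt (by simp)) v w

private theorem calc_ev {F : E → E'} {p : E} (hF : ContDiffAt ℝ 2 F p) :
    (∀ᶠ x in nhds p, HasFDerivAt F (fderiv ℝ F x) x) ∧
      HasFDerivAt (fderiv ℝ F) (fderiv ℝ (fderiv ℝ F) p) p := by
  constructor
  · obtain ⟨u, hu, hF'⟩ : ∃ u ∈ nhds p, ContDiffOn ℝ 2 F u :=
      hF.contDiffOn (m := 2) le_rfl (by simp)
    rcases mem_nhds_iff.1 hu with ⟨v, vu, v_open, xv⟩
    filter_upwards [v_open.mem_nhds xv] with y hy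
    have h1 : ContDiffAt ℝ 2 F y := (hF'.mono vu y hy).contDiffAt (v_open.mem_nhds hy)
    exact (h1.differentiableAt two_ne_zero).hasFDerivAt
  · have h1 : ContDiffAt ℝ 1 (fderiv ℝ F) p := hF.fderiv_right (m := 1) (by norm_num)
    exact (h1.differentiableAt one_ne_zero).hasFDerivAt

private theorem calc_line {F : E → ℝ} {p : E} (hF : ContDiffAt ℝ 2 F p) (v : E) :
    deriv (fun t : ℝ => F (p + t • v)) 0 = fderiv ℝ F p v ∧
      deriv (deriv (fun t : ℝ => F (p + t • v))) 0 = hess F p v v ∧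
      ContinuousAt (fun t : ℝ => F (p + t • v)) 0 ∧
      Filter.Tendsto (fun t : ℝ => t • v) (nhds 0) (nhds 0) := by
  obtain ⟨h1, h2⟩ := calc_ev hF
  have hl : ∀ t : ℝ, HasDerivAt (fun t : ℝ => p + t • v) v t := by
    intro t
    have h3 := ((hasDerivAt_id t).smul_const v).const_add p
    rw [one_smul] at h3
    exact h3
  have hp : p + (0 : ℝ) • v = p := by rw [zero_smul, add_zero]
  have ht : Filter.Tendsto (fun t : ℝ => p + t • v) (nhds 0) (nhds p) := by
    have h3 : Filter.Tendsto (fun t : ℝ => p + t • v) (nhds 0) (nhds (p + (0 : ℝ) • v)) :=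
      (hl 0).continuousAt
    rw [hp] at h3
    exact h3
  have hd : ∀ᶠ t in nhds (0 : ℝ), HasDerivAt (fun t : ℝ => F (p + t • v))
      (fderiv ℝ F (p + t • v) v) t := by
    filter_upwards [ht.eventually h1] with t h3
    exact h3.comp_hasDerivAt t (hl t)
  have hd0 := hd.self_of_nhds
  refine ⟨?_, ?_, hd0.continuousAt, ?_⟩
  · have h3 := hd0.deriv
    rw [hp] at h3
    exact h3
  · have hev : deriv (fun t : ℝ => F (p + t • v)) =ᶠ[nhds 0]
        (fun t : ℝ => fderiv ℝ F (p + t • v) v) := by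
      filter_upwards [hd] with t h3
      exact h3.deriv
    rw [hev.deriv_eq]
    have h2' : HasFDerivAt (fderiv ℝ F) (fderiv ℝ (fderiv ℝ F) p) (p + (0 : ℝ) • v) := by
      rw [hp]
      exact h2
    have h3 : HasDerivAt (fun t : ℝ => fderiv ℝ F (p + t • v))
        (fderiv ℝ (fderiv ℝ F) p v) 0 := h2'.comp_hasDerivAt (0 : ℝ) (hl 0)
    exact (h3.clm_apply (hasDerivAt_const (0 : ℝ) v)).deriv.trans (by simp [hess])
  · have h3 : Filter.Tendsto (fun t : ℝ => t • v) (nhds 0) (nhds ((0 : ℝ) • v)) :=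
      (continuous_id.smul continuous_const).tendsto 0
    rw [zero_smul] at h3
    exact h3

theorem hess_nonneg {F : E → ℝ} {p : E} (hF : ContDiffAt ℝ 2 F p) (hc : Crit F p)
    {P : Submodule ℝ E} {δ : ℝ} (hδ : 0 < δ) (hP : ∀ v ∈ P, ‖v‖ < δ → F p ≤ F (p + v)) :
    ∀ v ∈ P, 0 ≤ hess F p v v := by
  intro v hv
  obtain ⟨h1, h2, h3, h4⟩ := calc_line hF v
  by_contra hneg
  rw [not_le, ← h2] at hneg
  have hc' : fderiv ℝ F p = 0 := hc
  have hmax := isLocalMax_of_deriv_deriv_neg hneg (by rw [h1, hc']; rfl) h3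
  have hev : (fun t : ℝ => F (p + t • v)) =ᶠ[nhds 0] fun _ => F (p + (0 : ℝ) • v) := by
    filter_upwards [hmax, h4.eventually (Metric.ball_mem_nhds (0 : E) hδ)] with t h5 h6
    rw [dist_zero_right] at h6
    refine le_antisymm h5 ?_
    rw [zero_smul, add_zero]
    exact hP _ (P.smul_mem t hv) h6
  have h7 : deriv (fun t : ℝ => F (p + t • v)) =ᶠ[nhds 0] deriv fun _ => F (p + (0 : ℝ) • v) :=
    hev.deriv
  rw [h7.deriv_eq] at hneg
  simp at hneg

theorem hess_nonpos {F : E → ℝ} {p : E} (hF : ContDiffAt ℝ 2 F p) (hc : Crit F p)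
    {P : Submodule ℝ E} {δ : ℝ} (hδ : 0 < δ) (hP : ∀ v ∈ P, ‖v‖ < δ → F (p + v) ≤ F p) :
    ∀ v ∈ P, hess F p v v ≤ 0 := by
  intro v hv
  obtain ⟨h1, h2, h3, h4⟩ := calc_line hF v
  by_contra hneg
  rw [not_le, ← h2] at hneg
  have hc' : fderiv ℝ F p = 0 := hc
  have hmin := isLocalMin_of_deriv_deriv_pos hneg (by rw [h1, hc']; rfl) h3
  have hev : (fun t : ℝ => F (p + t • v)) =ᶠ[nhds 0] fun _ => F (p + (0 : ℝ) • v) := by
    filter_upwards [hmin, h4.eventually (Metric.ball_mem_nhds (0 : E) hδ)] with t h5 h6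
    rw [dist_zero_right] at h6
    refine le_antisymm ?_ h5
    rw [zero_smul, add_zero]
    exact hP _ (P.smul_mem t hv) h6
  have h7 : deriv (fun t : ℝ => F (p + t • v)) =ᶠ[nhds 0] deriv fun _ => F (p + (0 : ℝ) • v) :=
    hev.deriv
  rw [h7.deriv_eq] at hneg
  simp at hneg

theorem crit_comp {φ : E → E'} {F : E' → ℝ} {p : E} (hφ : ContDiffAt ℝ 2 φ p)
    (hF : ContDiffAt ℝ 2 F (φ p)) (hs : Function.Surjective (fderiv ℝ φ p)) :
    (Crit (fun x => F (φ x)) p ↔ Crit F (φ p)) ∧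
    (Crit F (φ p) → ∀ v w, hess (fun x => F (φ x)) p v w =
      hess F (φ p) (fderiv ℝ φ p v) (fderiv ℝ φ p w)) := by
  obtain ⟨a1, a2⟩ := calc_ev hφ
  obtain ⟨b1, b2⟩ := calc_ev hF
  have hcomp : ∀ᶠ x in nhds p, HasFDerivAt (fun x => F (φ x))
      ((fderiv ℝ F (φ x)).comp (fderiv ℝ φ x)) x := by
    filter_upwards [a1, hφ.continuousAt.eventually b1] with x h1 h2
    exact h2.comp x h1
  have h0 : fderiv ℝ (fun x => F (φ x)) p = (fderiv ℝ F (φ p)).comp (fderiv ℝ φ p) :=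
    hcomp.self_of_nhds.fderiv
  refine ⟨⟨?_, ?_⟩, ?_⟩
  · intro h
    unfold Crit at h ⊢
    rw [h0] at h
    ext y
    obtain ⟨x, rfl⟩ := hs y
    exact congrArg (fun L : E →L[ℝ] ℝ => L x) h
  · intro h
    unfold Crit at h ⊢
    rw [h0, h, ContinuousLinearMap.zero_comp]
  · intro h v w
    have hev : fderiv ℝ (fun x => F (φ x)) =ᶠ[nhds p]
        fun x => (fderiv ℝ F (φ x)).comp (fderiv ℝ φ x) := by
      filter_upwards [hcomp] with x hx
      exact hx.fderiv
    have h1 : HasFDerivAt (fun x => fderiv ℝ F (φ x))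
        ((fderiv ℝ (fderiv ℝ F) (φ p)).comp (fderiv ℝ φ p)) p := b2.comp p a1.self_of_nhds
    have h2 := h1.clm_comp a2
    have h3 : fderiv ℝ F (φ p) = 0 := h
    unfold hess
    rw [hev.fderiv_eq, h2.fderiv]
    simp [h3]

theorem hess_congr {F G : E → ℝ} {p : E} (h : F =ᶠ[nhds p] G) :
    (Crit F p ↔ Crit G p) ∧ hess F p = hess G p := by
  constructor
  · unfold Crit
    rw [h.fderiv_eq]
  · unfold hess
    exact (h.fderiv).fderiv_eq

end Pool.Agent.H63.TV
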