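import Pool.Agent.H63.TV.Lin
import Pool.Agent.H63.TV.Calc

/-!
# TV-04: the affine chart `z 0 ≠ 0` of `CP^2`

`pr z = (z 1 / z 0, z 2 / z 0)`, `lift ζ = (1, ζ.1, ζ.2)`.  If `F (μ • z) = F z` for `μ ≠ 0` then
`F y = F (lift (pr y))` for `y 0 ≠ 0`, that is, `F = φ ∘ pr` near `z`, `φ = F ∘ lift`.  `pr` is smooth near `z`, and
`D pr (z) v = ((v 1 - (v 0 / z 0) z 1) / z 0, (v 2 - (v 0 / z 0) z 2) / z 0)`: it is surjective, and its kernel
consists of the `μ • z` (`μ = v 0 / z 0`).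
Use `crit_comp`, `hess_congr` and `HasIdx.comap`.  For the equivalence of the nondegeneracy conditions:
(←) `hess F z v w = 0` for all `w` gives `hess φ (Dpr v) w' = 0` for all `w'` (surjectivity), `Dpr v = 0`, `v = μ • z`;
(→) given `v'` with `hess φ v' w' = 0` for all `w'`, lift `v' = Dpr v`, then `v = μ • z` and `v' = 0`.
-/

open scoped ContDiff

namespace Pool.Agent.H63.TV

noncomputable section

/-- affine coordinates -/
def pr (z : C3) : ℂ × ℂ := (z 1 / z 0, z 2 / z 0)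

/-- the point of `CP^2` with given affine coordinates -/
def lift (ζ : ℂ × ℂ) : C3 := ![1, ζ.1, ζ.2]

theorem lift_pr {z : C3} (hz : z 0 ≠ 0) : z 0 • lift (pr z) = z := by
  funext i
  fin_cases i <;> simp [lift, pr, mul_div_cancel₀, hz]

theorem pr_lift (ζ : ℂ × ℂ) : pr (lift ζ) = ζ := by
  simp [lift, pr]

theorem contDiffAt_pr {z : C3} (hz : z 0 ≠ 0) : ContDiffAt ℝ ∞ pr z := by
  have h : ∀ i : Fin 3, ContDiffAt ℝ ∞ (fun y : C3 => y i) z := fun i =>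
    (contDiff_apply ℝ ℂ i).contDiffAt
  have hi : ContDiffAt ℝ ∞ (fun y : C3 => (y 0)⁻¹) z := (h 0).inv hz
  have e : pr = fun y : C3 => (y 1 * (y 0)⁻¹, y 2 * (y 0)⁻¹) := by
    funext y
    simp only [pr, div_eq_mul_inv]
  rw [e]
  exact ((h 1).mul hi).prodMk ((h 2).mul hi)

theorem fderiv_pr {z : C3} (hz : z 0 ≠ 0) (v : C3) :
    fderiv ℝ pr z v =
      ((v 1 - v 0 / z 0 * z 1) / z 0, (v 2 - v 0 / z 0 * z 2) / z 0) := by
  have hp : z + (0 : ℝ) • v = z := by rw [zero_smul, add_zero]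
  have hd0 : HasFDerivAt pr (fderiv ℝ pr z) z :=
    ((contDiffAt_pr hz).differentiableAt (by simp)).hasFDerivAt
  have hd : HasFDerivAt pr (fderiv ℝ pr z) (z + (0 : ℝ) • v) := by
    rw [hp]
    exact hd0
  have hl : HasDerivAt (fun t : ℝ => z + t • v) v 0 := by
    have h3 := ((hasDerivAt_id (0 : ℝ)).smul_const v).const_add z
    rw [one_smul] at h3
    exact h3
  have h1 : HasDerivAt (fun t : ℝ => pr (z + t • v)) (fderiv ℝ pr z v) 0 :=
    HasFDerivAt.comp_hasDerivAt (f := fun t : ℝ => z + t • v) (0 : ℝ) hd hl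
  have hc : ∀ i : Fin 3, HasDerivAt (fun t : ℝ => z i + (t : ℂ) * v i) (v i) 0 := by
    intro i
    have h4 := ((Complex.ofRealCLM.hasDerivAt (x := (0 : ℝ))).mul_const (v i)).const_add (z i)
    simpa using h4
  have hq : ∀ i : Fin 3, HasDerivAt (fun t : ℝ => (z i + (t : ℂ) * v i) / (z 0 + (t : ℂ) * v 0))
      ((v i - v 0 / z 0 * z i) / z 0) 0 := by
    intro i
    have h5 := (hc i).fun_div (hc 0) (by simpa using hz)
    refine h5.congr_deriv ?_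
    simp only [Complex.ofReal_zero, zero_mul, add_zero]
    field_simp
  have h2 : HasDerivAt (fun t : ℝ => pr (z + t • v))
      ((v 1 - v 0 / z 0 * z 1) / z 0, (v 2 - v 0 / z 0 * z 2) / z 0) 0 := by
    have h6 := (hq 1).prodMk (hq 2)
    have e : (fun t : ℝ => pr (z + t • v)) = fun t : ℝ =>
        ((z 1 + (t : ℂ) * v 1) / (z 0 + (t : ℂ) * v 0),
          (z 2 + (t : ℂ) * v 2) / (z 0 + (t : ℂ) * v 0)) := by
      funext t
      simp only [pr, Pi.add_apply, Pi.smul_apply, Complex.real_smul]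
    rw [e]
    exact h6
  exact h1.unique h2

theorem surj_pr {z : C3} (hz : z 0 ≠ 0) : Function.Surjective (fderiv ℝ pr z) := by
  rintro ⟨a, b⟩
  refine ⟨![0, z 0 * a, z 0 * b], ?_⟩
  rw [fderiv_pr hz]
  simp [mul_div_cancel_left₀, hz]

theorem ker_pr {z : C3} (hz : z 0 ≠ 0) {v : C3} (h : fderiv ℝ pr z v = 0) :
    v = (v 0 / z 0) • z := by
  rw [fderiv_pr hz, Prod.mk_eq_zero] at h
  have h1 : v 1 - v 0 / z 0 * z 1 = 0 := (div_eq_zero_iff.1 h.1).resolve_right hz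
  have h2 : v 2 - v 0 / z 0 * z 2 = 0 := (div_eq_zero_iff.1 h.2).resolve_right hz
  funext i
  fin_cases i
  · simp only [Fin.zero_eta, Pi.smul_apply, smul_eq_mul]
    rw [div_mul_cancel₀ _ hz]
  · simp only [Fin.mk_one, Pi.smul_apply, smul_eq_mul]
    exact sub_eq_zero.1 h1
  · simp only [Fin.reduceFinMk, Pi.smul_apply, smul_eq_mul]
    exact sub_eq_zero.1 h2

theorem fderiv_pr_smul {z : C3} (hz : z 0 ≠ 0) (μ : ℂ) : fderiv ℝ pr z (μ • z) = 0 := by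
  rw [fderiv_pr hz, Prod.mk_eq_zero]
  simp only [Pi.smul_apply, smul_eq_mul, mul_div_cancel_right₀ _ hz, sub_self, zero_div, and_self]

theorem chart_ev {F : C3 → ℝ} (hF : ∀ (μ : ℂ) (z : C3), μ ≠ 0 → F (μ • z) = F z) {z : C3}
    (hz : z 0 ≠ 0) : F =ᶠ[nhds z] fun y => F (lift (pr y)) := by
  have hc : ContinuousAt (fun y : C3 => y 0) z := (continuous_apply 0).continuousAt
  filter_upwards [hc.eventually_ne hz] with y hy
  rw [← hF (y 0) (lift (pr y)) hy, lift_pr hy]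

theorem chart_main {F : C3 → ℝ} (hF : ∀ (μ : ℂ) (z : C3), μ ≠ 0 → F (μ • z) = F z) {z : C3}
    (hz : z 0 ≠ 0) (hs : ContDiffAt ℝ 2 (fun ζ => F (lift ζ)) (pr z)) :
    (Crit F z ↔ Crit (fun ζ => F (lift ζ)) (pr z)) ∧
    (Crit F z → ∀ v w, hess F z v w =
      hess (fun ζ => F (lift ζ)) (pr z) (fderiv ℝ pr z v) (fderiv ℝ pr z w)) := by
  obtain ⟨h1, h2⟩ := hess_congr (chart_ev hF hz)
  have hφ : ContDiffAt ℝ 2 pr z := contDiffAt_infty.1 (contDiffAt_pr hz) 2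
  obtain ⟨h3, h4⟩ := crit_comp (F := fun ζ => F (lift ζ)) hφ hs (surj_pr hz)
  refine ⟨h1.trans h3, ?_⟩
  intro hc v w
  rw [h2]
  exact h4 ((h1.trans h3).1 hc) v w

theorem chart_crit {F : C3 → ℝ} (hF : ∀ (μ : ℂ) (z : C3), μ ≠ 0 → F (μ • z) = F z) {z : C3}
    (hz : z 0 ≠ 0) (hs : ContDiffAt ℝ 2 (fun ζ => F (lift ζ)) (pr z)) :
    Crit F z ↔ Crit (fun ζ => F (lift ζ)) (pr z) :=
  (chart_main hF hz hs).1

theorem chart_nondeg {F : C3 → ℝ} (hF : ∀ (μ : ℂ) (z : C3), μ ≠ 0 → F (μ • z) = F z) {z : C3}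
    (hz : z 0 ≠ 0) (hs : ContDiffAt ℝ 2 (fun ζ => F (lift ζ)) (pr z)) (hc : Crit F z) :
    (∀ v, (∀ w, hess F z v w = 0) → ∃ μ : ℂ, v = μ • z) ↔
      (∀ v, (∀ w, hess (fun ζ => F (lift ζ)) (pr z) v w = 0) → v = 0) := by
  have h := (chart_main hF hz hs).2 hc
  constructor
  · intro h1 v' hv'
    obtain ⟨v, rfl⟩ := surj_pr hz v'
    obtain ⟨μ, hμ⟩ := h1 v (fun w => by rw [h]; exact hv' _)
    rw [hμ]
    exact fderiv_pr_smul hz μ
  · intro h1 v hv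
    have h2 : fderiv ℝ pr z v = 0 := by
      apply h1
      intro w'
      obtain ⟨w, rfl⟩ := surj_pr hz w'
      rw [← h]
      exact hv w
    exact ⟨_, ker_pr hz h2⟩

theorem chart_idx {F : C3 → ℝ} (hF : ∀ (μ : ℂ) (z : C3), μ ≠ 0 → F (μ • z) = F z) {z : C3}
    (hz : z 0 ≠ 0) (hs : ContDiffAt ℝ 2 (fun ζ => F (lift ζ)) (pr z)) (hc : Crit F z) (m : ℕ) :
    HasIdx (hess F z) m ↔ HasIdx (hess (fun ζ => F (lift ζ)) (pr z)) m :=
  HasIdx.comap _ _ (fderiv ℝ pr z) (surj_pr hz) ((chart_main hF hz hs).2 hc) m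

end

end Pool.Agent.H63.TV
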