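import Pool.Agent.H63.TV.Den

/-!
# TV-42 (den_close): the modified denominator is C^1-close to the original one

`den_close` follows from `den_exists`: only the convexity of `D`, `4 ≤ D` and `D ζ = 4 + |ζ|²` for `|ζ| ≥ ε` are needed.  For `|y| ≤ ε` and any `x ≠ y`
let `r = |y - x|` and `z = y + (2 ε / r) (y - x)`; then `ε ≤ |z| ≤ 3 ε`, `D z ≤ 4 + 9 ε²`, and by convexity
`(D y - D x) / r ≤ (D z - D y) / (2 ε) ≤ 9 ε / 2`.  So `D` is Lipschitz on the ball with constant `9 ε / 2`, and `|ζ|²` with constant `2 ε`.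
Outside the ball the difference vanishes, and a segment from the ball to the outside meets the sphere.
-/

open scoped ContDiff ComplexConjugate

namespace Pool.Agent.H63.TV

theorem denN_neg (ζ : ℂ × ℂ) : denN (-ζ) = denN ζ := by
  unfold denN
  simp

theorem denN_le (ζ : ℂ × ℂ) : denN ζ ≤ 2 * ‖ζ‖ := by
  have h1 : ‖ζ.1‖ ≤ ‖ζ‖ := norm_fst_le ζ
  have h2 : ‖ζ.2‖ ≤ ‖ζ‖ := norm_snd_le ζ
  refine Real.sqrt_le_iff.mpr ⟨by positivity, ?_⟩
  nlinarith [norm_nonneg ζ.1, norm_nonneg ζ.2, norm_nonneg ζ]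

theorem denN_eq_zero {ζ : ℂ × ℂ} (h : denN ζ = 0) : ζ = 0 := by
  have h1 := denN_sq ζ
  rw [h] at h1
  have h2 : ‖ζ.1‖ = 0 := by nlinarith [sq_nonneg ‖ζ.1‖, sq_nonneg ‖ζ.2‖]
  have h3 : ‖ζ.2‖ = 0 := by nlinarith [sq_nonneg ‖ζ.1‖, sq_nonneg ‖ζ.2‖]
  exact Prod.ext (norm_eq_zero.mp h2) (norm_eq_zero.mp h3)

/-- the Lipschitz estimate for the convex function `D` -/
theorem den_lip1 {D : ℂ × ℂ → ℝ} {ε : ℝ} (hε : 0 < ε) (hge : ∀ ζ, 4 ≤ D ζ)
    (hout : ∀ ζ : ℂ × ℂ, ε ≤ denN ζ → D ζ = 4 + denN ζ ^ 2) (hconv : ConvexOn ℝ Set.univ D)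
    (x y : ℂ × ℂ) (hy : denN y ≤ ε) : D y - D x ≤ 9 / 2 * ε * denN (y - x) := by
  rcases eq_or_lt_of_le (denN_nonneg (y - x)) with h0 | h0
  · have h1 : y = x := sub_eq_zero.mp (denN_eq_zero h0.symm)
    rw [← h0, h1]
    simp
  set r := denN (y - x) with hr
  set z : ℂ × ℂ := y + (2 * ε / r) • (y - x) with hz
  have hzN : denN ((2 * ε / r) • (y - x)) = 2 * ε := by
    rw [denN_smul (by positivity), ← hr]
    field_simp
  have h1 : denN z ≤ 3 * ε := by
    refine (denN_add _ _).trans ?_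
    rw [hzN]
    linarith
  have h2 : ε ≤ denN z := by
    have e1 := denN_add z (-y)
    have e2 : z + -y = (2 * ε / r) • (y - x) := by
      rw [hz]
      abel
    rw [e2, hzN, denN_neg] at e1
    linarith
  have h3 : D z ≤ 4 + 9 * ε ^ 2 := by
    rw [hout z h2]
    have e1 := pow_le_pow_left₀ (denN_nonneg z) h1 2
    nlinarith
  have hs : 0 < 2 * ε + r := by positivity
  have h4 := hconv.2 (Set.mem_univ x) (Set.mem_univ z)
    (show 0 ≤ 2 * ε / (2 * ε + r) by positivity) (show 0 ≤ r / (2 * ε + r) by positivity)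
    (by field_simp)
  have h5 : (2 * ε / (2 * ε + r)) • x + (r / (2 * ε + r)) • z = y := by
    have e1 : r / (2 * ε + r) * (2 * ε / r) = 2 * ε / (2 * ε + r) := by field_simp
    have e2 : r / (2 * ε + r) + 2 * ε / (2 * ε + r) = 1 := by field_simp; ring
    rw [hz, smul_add, smul_smul, e1, smul_sub]
    have e3 : (2 * ε / (2 * ε + r)) • x + ((r / (2 * ε + r)) • y +
        ((2 * ε / (2 * ε + r)) • y - (2 * ε / (2 * ε + r)) • x)) =
        (r / (2 * ε + r) + 2 * ε / (2 * ε + r)) • y := by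
      rw [add_smul]
      abel
    rw [e3, e2, one_smul]
  rw [h5] at h4
  simp only [smul_eq_mul] at h4
  have h6 : D y * (2 * ε + r) ≤ 2 * ε * D x + r * D z := by
    have e1 := mul_le_mul_of_nonneg_right h4 hs.le
    have e2 : (2 * ε / (2 * ε + r) * D x + r / (2 * ε + r) * D z) * (2 * ε + r) =
        2 * ε * D x + r * D z := by
      field_simp
    rwa [e2] at e1
  have h7 := hge y
  have h8 : 2 * ε * (D y - D x) ≤ r * (9 * ε ^ 2) := by
    have e1 : r * (D z - D y) ≤ r * (9 * ε ^ 2) :=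
      mul_le_mul_of_nonneg_left (by linarith) h0.le
    linarith
  have h9 : 2 * ε * (D y - D x) ≤ 2 * ε * (9 / 2 * ε * r) := by linarith
  exact le_of_mul_le_mul_left h9 (by positivity)

theorem den_close : ∃ C K : ℝ, 1 ≤ C ∧ 0 < K ∧ ∀ ε : ℝ, 0 < ε → ε ≤ 1 / 4 → C * ε ^ 2 ≤ 1 →
    ∃ (D : ℂ × ℂ → ℝ) (D0 : ℝ), IsDen ε C D D0 ∧
      ∀ x y : ℂ × ℂ, |(D x - (4 + ‖x.1‖ ^ 2 + ‖x.2‖ ^ 2)) - (D y - (4 + ‖y.1‖ ^ 2 + ‖y.2‖ ^ 2))| ≤
        K * ε * ‖x - y‖ := by
  obtain ⟨C, hC, H⟩ := den_exists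
  refine ⟨C, 14, hC, by norm_num, fun ε hε hε4 hCε => ?_⟩
  obtain ⟨D, D0, hD⟩ := H ε hε hε4 hCε
  refine ⟨D, D0, hD, ?_⟩
  have hout : ∀ ζ : ℂ × ℂ, ε ≤ denN ζ → D ζ = 4 + denN ζ ^ 2 := by
    intro ζ h
    have h1 := hD.out ζ (by rw [← denN_sq]; exact pow_le_pow_left₀ hε.le h 2)
    rw [h1, denN_sq]
    ring
  have hd : ∀ ζ : ℂ × ℂ, D ζ - (4 + ‖ζ.1‖ ^ 2 + ‖ζ.2‖ ^ 2) = D ζ - (4 + denN ζ ^ 2) := by
    intro ζ
    rw [denN_sq]
    ring
  have hsub : ∀ x y : ℂ × ℂ, denN (x - y) = denN (y - x) := by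
    intro x y
    rw [← denN_neg, neg_sub]
  have htri : ∀ x y : ℂ × ℂ, denN x - denN y ≤ denN (x - y) := by
    intro x y
    have h1 := denN_add (x - y) y
    rw [sub_add_cancel] at h1
    linarith
  -- both points in the ball
  have key : ∀ x y : ℂ × ℂ, denN x ≤ ε → denN y ≤ ε →
      |(D x - (4 + denN x ^ 2)) - (D y - (4 + denN y ^ 2))| ≤ 7 * ε * denN (x - y) := by
    intro x y hx hy
    have h1 := den_lip1 hε hD.ge hout hD.conv x y hy
    have h2 := den_lip1 hε hD.ge hout hD.conv y x hx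
    have h3 := htri x y
    have h4 := htri y x
    rw [hsub y x] at h1 h4
    have hx0 := denN_nonneg x
    have hy0 := denN_nonneg y
    have hr0 := denN_nonneg (x - y)
    have h5 : |denN x ^ 2 - denN y ^ 2| ≤ 2 * ε * denN (x - y) := by
      have e1 : denN x ^ 2 - denN y ^ 2 = (denN x + denN y) * (denN x - denN y) := by ring
      rw [e1, abs_mul, abs_of_nonneg (by linarith : 0 ≤ denN x + denN y)]
      exact mul_le_mul (by linarith) (abs_le.mpr ⟨by linarith, h3⟩) (abs_nonneg _) (by linarith)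
    have h6 := abs_le.mp h5
    have h7 : 0 ≤ ε * denN (x - y) := by positivity
    rw [abs_le]
    constructor <;> nlinarith [h6.1, h6.2]
  -- one point outside
  have key2 : ∀ x y : ℂ × ℂ, denN x ≤ ε → ε ≤ denN y →
      |(D x - (4 + denN x ^ 2)) - (D y - (4 + denN y ^ 2))| ≤ 7 * ε * denN (x - y) := by
    intro x y hx hy
    have hc : ContinuousOn (fun t : ℝ => denN (x + t • (y - x))) (Set.Icc 0 1) :=
      (denN_continuous.comp (by fun_prop)).continuousOn
    have h1 := intermediate_value_Icc (zero_le_one (α := ℝ)) hc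
    have h2 : ε ∈ Set.Icc (denN (x + (0 : ℝ) • (y - x))) (denN (x + (1 : ℝ) • (y - x))) := by
      rw [zero_smul, add_zero, one_smul, add_sub_cancel]
      exact ⟨hx, hy⟩
    obtain ⟨t, ht, hte⟩ := h1 h2
    simp only at hte
    have h3 := key x (x + t • (y - x)) hx hte.le
    have h4 : D (x + t • (y - x)) - (4 + denN (x + t • (y - x)) ^ 2) = 0 := by
      rw [hout _ hte.ge, sub_self]
    have h5 : D y - (4 + denN y ^ 2) = 0 := by
      rw [hout _ hy, sub_self]
    rw [h4] at h3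
    rw [h5]
    refine h3.trans ?_
    have h6 : denN (x - (x + t • (y - x))) = t * denN (x - y) := by
      have e1 : x - (x + t • (y - x)) = t • (x - y) := by
        rw [smul_sub, smul_sub]
        abel
      rw [e1, denN_smul ht.1]
    rw [h6]
    have h7 : t * denN (x - y) ≤ 1 * denN (x - y) :=
      mul_le_mul_of_nonneg_right ht.2 (denN_nonneg _)
    nlinarith
  have key3 : ∀ x y : ℂ × ℂ,
      |(D x - (4 + denN x ^ 2)) - (D y - (4 + denN y ^ 2))| ≤ 7 * ε * denN (x - y) := by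
    intro x y
    rcases le_or_gt (denN x) ε with hx | hx <;> rcases le_or_gt (denN y) ε with hy | hy
    · exact key x y hx hy
    · exact key2 x y hx hy.le
    · rw [abs_sub_comm, hsub x y]
      exact key2 y x hy hx.le
    · rw [hout x hx.le, hout y hy.le, sub_self, sub_self, sub_zero, abs_zero]
      exact mul_nonneg (by positivity) (denN_nonneg _)
  intro x y
  rw [hd x, hd y]
  refine (key3 x y).trans ?_
  have h1 := denN_le (x - y)
  have h2 : 7 * ε * denN (x - y) ≤ 7 * ε * (2 * ‖x - y‖) :=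
    mul_le_mul_of_nonneg_left h1 (by positivity)
  linarith

end Pool.Agent.H63.TV
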