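import Pool.Agent.H63.TV.Defs

/-!
# TV-43 (scale_close): scaling a compactly supported modification

`g = f₁ - f₀` is smooth with compact support (contained in `{|ζ|² ≤ R²}`), so it is Lipschitz with some constant `K > 0`
(`ContDiff.lipschitzWith_of_hasCompactSupport`), and `t² f₁ (x/t) - f₀ x = t² g (x/t)`, as `f₀ (x/t) = t⁻² f₀ x`; this is Lipschitz with constant
`t² K / t = K t`.
-/

open scoped ContDiff

namespace Pool.Agent.H63.TV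

theorem scale_close {V : Type*} [NormedAddCommGroup V] [NormedSpace ℝ V] (f₁ f₀ : ℂ × ℂ → V)
    (h1 : ContDiff ℝ ∞ f₁) (h0 : ContDiff ℝ ∞ f₀) (hs : ∀ (t : ℝ) (x : ℂ × ℂ), f₀ (t • x) = t ^ 2 • f₀ x)
    (R : ℝ) (ho : ∀ ζ : ℂ × ℂ, R ^ 2 ≤ ‖ζ.1‖ ^ 2 + ‖ζ.2‖ ^ 2 → f₁ ζ = f₀ ζ) :
    ∃ K : ℝ, 0 < K ∧ ∀ t : ℝ, 0 < t → ∀ x y : ℂ × ℂ,
      ‖(t ^ 2 • f₁ (t⁻¹ • x) - f₀ x) - (t ^ 2 • f₁ (t⁻¹ • y) - f₀ y)‖ ≤ K * t * ‖x - y‖ := by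
  have hg : ContDiff ℝ ∞ (fun ζ => f₁ ζ - f₀ ζ) := h1.sub h0
  have hsup : HasCompactSupport (fun ζ : ℂ × ℂ => f₁ ζ - f₀ ζ) := by
    refine HasCompactSupport.intro (isCompact_closedBall (0 : ℂ × ℂ) |R|) fun x hx => ?_
    have hx' : |R| < ‖x‖ := by
      rw [mem_closedBall_zero_iff] at hx
      exact not_le.1 hx
    have h2 : R ^ 2 ≤ ‖x‖ ^ 2 := by
      rw [← sq_abs R]
      exact pow_le_pow_left₀ (abs_nonneg R) hx'.le 2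
    have h3 : ‖x‖ ^ 2 ≤ ‖x.1‖ ^ 2 + ‖x.2‖ ^ 2 := by
      rw [Prod.norm_def]
      rcases le_total ‖x.1‖ ‖x.2‖ with h | h
      · rw [max_eq_right h]
        have := sq_nonneg ‖x.1‖
        linarith
      · rw [max_eq_left h]
        have := sq_nonneg ‖x.2‖
        linarith
    rw [ho x (h2.trans h3), sub_self]
  obtain ⟨C, hC⟩ := hg.lipschitzWith_of_hasCompactSupport hsup (by simp)
  refine ⟨(C : ℝ) + 1, by positivity, fun t ht x y => ?_⟩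
  have hf : ∀ x : ℂ × ℂ, t ^ 2 • f₁ (t⁻¹ • x) - f₀ x = t ^ 2 • (f₁ (t⁻¹ • x) - f₀ (t⁻¹ • x)) := by
    intro x
    have h4 : f₀ x = t ^ 2 • f₀ (t⁻¹ • x) := by
      rw [← hs t (t⁻¹ • x), smul_smul, mul_inv_cancel₀ ht.ne', one_smul]
    rw [smul_sub, ← h4]
  rw [hf x, hf y, ← smul_sub, norm_smul]
  have h5 := hC.dist_le_mul (t⁻¹ • x) (t⁻¹ • y)
  rw [dist_eq_norm, dist_eq_norm, ← smul_sub, norm_smul, norm_inv, Real.norm_of_nonneg ht.le] at h5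
  rw [norm_pow, Real.norm_of_nonneg ht.le]
  have h6 : 0 ≤ ‖x - y‖ := norm_nonneg _
  calc t ^ 2 * ‖f₁ (t⁻¹ • x) - f₀ (t⁻¹ • x) - (f₁ (t⁻¹ • y) - f₀ (t⁻¹ • y))‖
      ≤ t ^ 2 * ((C : ℝ) * (t⁻¹ * ‖x - y‖)) := mul_le_mul_of_nonneg_left h5 (by positivity)
    _ = (C : ℝ) * t * ‖x - y‖ := by field_simp
    _ ≤ ((C : ℝ) + 1) * t * ‖x - y‖ := by
        have : 0 ≤ t * ‖x - y‖ := mul_nonneg ht.le h6
        nlinarith

end Pool.Agent.H63.TV
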