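import Pool.Agent.H63.TV.EmbA1

/-!
# TV-44 (theta_close): the flattened embedding is C^1-close to the projected Veronese embedding

Write `a = q - q₀`, `b = w - w₀`, `d = D - D₀` (differences to `q₀ = |ζ₁|² - |ζ₂|²`, `w₀ = 2 ζ₁ conj ζ₂`, `D₀ = 4 + |ζ|²`).  They are Lipschitz with constant
`η ≤ 1` and vanish at `(1, 0)` (`Good.out`), so `|a|, |b|, |d| ≤ 2 η` on `{‖ζ‖ ≤ 1}` (sup norm).
The components of `E ζ = theta (q ζ) (D ζ) (w ζ) ζ - theta q₀ D₀ w₀ ζ` are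
`√2 (q/D - q₀/D₀)`, `2√2 (1/D - 1/D₀) conj ζ₁`, `√2 (w/D - w₀/D₀)`, `2√2 (1/D - 1/D₀) ζ₂`, with
`1/D - 1/D₀ = - d / (D D₀)`, `q/D - q₀/D₀ = a/D - q₀ d/(D D₀)`, and the same for `w`.
On `{‖ζ‖ ≤ 1}` all of `1/D, 1/D₀, q₀, w₀, ζ` are bounded (`D ≥ 4`, `|q₀| ≤ 1`, `|w₀| ≤ 2`) and Lipschitz (`D` with constant `≤ 5`, `q₀, w₀` with
constant `4`), and products of bounded Lipschitz functions are Lipschitz: `|fg (x) - fg (y)| ≤ |f x| |g x - g y| + |g y| |f x - f y|`.  So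
`‖E x - E y‖ ≤ 100 η ‖x - y‖` for `‖x‖, ‖y‖ ≤ 1` (the constants are much smaller than `100`).
For `|ζ|² > ε²` (in particular for `‖ζ‖ > ε`, and `ε ≤ 1/4`) `E` vanishes near `ζ` (`Good.out`), so `E ζ = 0` and the derivative is `0`.
For `|ζ|² ≤ ε²` : `‖ζ‖ < 1`, `‖E ζ‖ = ‖E ζ - E (1,0)‖ ≤ 100 η · 2`, and `‖fderiv E ζ‖ ≤ 100 η` (`norm_fderiv_le_of_lip'` or
`HasFDerivAt.le_of_lip'`; if `E` is not differentiable the derivative is `0`).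
`psi_small` : `psi y = theta (α r/x' + β) D0 0 (z₁/x', z₂/x')`, `y = (z₁, (x', z₂))`; all components are bounded by `max (√2 |α r/x' + β| / 4) (2 √2 ρ/4)` if
`|z₁/x'|, |z₂/x'| ≤ ρ` (`D0 ≥ 4` since `D0 = D 0`, `Good.flatw` and `Good.Dge`), and `α r/x' + β = q (r/x', 0)` if `r1 ≤ r/x' ≤ r2` (`Good.flat`), `|q (r/x', 0)| ≤
|q₀| + |a| ≤ (r/x')² + 2 η`, and `r/x' ≤ r2 < ε` (`Good.inside`).
-/

open scoped ContDiff ComplexConjugate

namespace Pool.Agent.H63.TV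

noncomputable section

variable {ε : ℝ} {q : ℂ × ℂ → ℝ} {w : ℂ × ℂ → ℂ} {D : ℂ × ℂ → ℝ} {α β r1 r2 r3 D0 : ℝ}

/-- closeness (the differences vanish outside a ball, so the Lipschitz constant bounds everything) -/
structure Close (η : ℝ) (q : ℂ × ℂ → ℝ) (w : ℂ × ℂ → ℂ) (D : ℂ × ℂ → ℝ) : Prop where
  cq : ∀ x y : ℂ × ℂ, |(q x - (‖x.1‖ ^ 2 - ‖x.2‖ ^ 2)) - (q y - (‖y.1‖ ^ 2 - ‖y.2‖ ^ 2))| ≤ η * ‖x - y‖
  cw : ∀ x y : ℂ × ℂ, ‖(w x - 2 * x.1 * conj x.2) - (w y - 2 * y.1 * conj y.2)‖ ≤ η * ‖x - y‖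
  cD : ∀ x y : ℂ × ℂ, |(D x - (4 + ‖x.1‖ ^ 2 + ‖x.2‖ ^ 2)) - (D y - (4 + ‖y.1‖ ^ 2 + ‖y.2‖ ^ 2))| ≤
    η * ‖x - y‖

/-- bounded and Lipschitz on the unit ball -/
private def BL (M L : ℝ) (f : ℂ × ℂ → ℂ) : Prop :=
  ∀ x, ‖x‖ ≤ 1 → ‖f x‖ ≤ M ∧ ∀ y, ‖y‖ ≤ 1 → ‖f x - f y‖ ≤ L * ‖x - y‖

private theorem BL.mul' {M L M' L' : ℝ} {f g : ℂ × ℂ → ℂ} (hM : 0 ≤ M) (_hM' : 0 ≤ M')
    (hL : 0 ≤ L) (hf : BL M L f) (hg : BL M' L' g) :
    BL (M * M') (M * L' + L * M') (fun x => f x * g x) := by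
  intro x hx
  refine ⟨?_, ?_⟩
  · rw [norm_mul]
    exact mul_le_mul (hf x hx).1 (hg x hx).1 (norm_nonneg _) hM
  · intro y hy
    have e : f x * g x - f y * g y = f x * (g x - g y) + (f x - f y) * g y := by ring
    rw [e]
    refine (norm_add_le _ _).trans ?_
    rw [norm_mul, norm_mul]
    have h1 : ‖f x‖ * ‖g x - g y‖ ≤ M * (L' * ‖x - y‖) :=
      mul_le_mul (hf x hx).1 ((hg x hx).2 y hy) (norm_nonneg _) hM
    have h2 : ‖f x - f y‖ * ‖g y‖ ≤ L * ‖x - y‖ * M' :=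
      mul_le_mul ((hf x hx).2 y hy) (hg y hy).1 (norm_nonneg _) (mul_nonneg hL (norm_nonneg _))
    calc ‖f x‖ * ‖g x - g y‖ + ‖f x - f y‖ * ‖g y‖
        ≤ M * (L' * ‖x - y‖) + L * ‖x - y‖ * M' := add_le_add h1 h2
      _ = (M * L' + L * M') * ‖x - y‖ := by ring

private theorem BL.sub' {M L M' L' : ℝ} {f g : ℂ × ℂ → ℂ} (hf : BL M L f) (hg : BL M' L' g) :
    BL (M + M') (L + L') (fun x => f x - g x) := by
  intro x hx
  refine ⟨?_, ?_⟩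
  · exact (norm_sub_le _ _).trans (add_le_add (hf x hx).1 (hg x hx).1)
  · intro y hy
    have e : f x - g x - (f y - g y) = (f x - f y) - (g x - g y) := by ring
    rw [e, add_mul]
    exact (norm_sub_le _ _).trans (add_le_add ((hf x hx).2 y hy) ((hg x hx).2 y hy))

private theorem BL.cmul {M L : ℝ} {f : ℂ × ℂ → ℂ} (c : ℂ) (hf : BL M L f) :
    BL (‖c‖ * M) (‖c‖ * L) (fun x => c * f x) := by
  intro x hx
  refine ⟨?_, ?_⟩
  · rw [norm_mul]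
    exact mul_le_mul_of_nonneg_left (hf x hx).1 (norm_nonneg _)
  · intro y hy
    rw [← mul_sub, norm_mul, mul_assoc]
    exact mul_le_mul_of_nonneg_left ((hf x hx).2 y hy) (norm_nonneg _)

private theorem BL.inv' {L : ℝ} {f : ℂ × ℂ → ℝ} (h4 : ∀ x, 4 ≤ f x)
    (hf : ∀ x y : ℂ × ℂ, ‖x‖ ≤ 1 → ‖y‖ ≤ 1 → |f x - f y| ≤ L * ‖x - y‖) :
    BL (1 / 4) (L / 16) (fun x => (((f x)⁻¹ : ℝ) : ℂ)) := by
  intro x hx
  have hx4 := h4 x
  have hx0 : 0 < f x := by linarith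
  refine ⟨?_, ?_⟩
  · rw [Complex.norm_real, Real.norm_eq_abs, abs_inv, abs_of_pos hx0, one_div]
    exact inv_anti₀ (by norm_num) hx4
  · intro y hy
    have hy4 := h4 y
    have hy0 : 0 < f y := by linarith
    rw [← Complex.ofReal_sub, Complex.norm_real, Real.norm_eq_abs, inv_sub_inv hx0.ne' hy0.ne',
      abs_div, abs_of_pos (mul_pos hx0 hy0), abs_sub_comm, div_le_iff₀ (mul_pos hx0 hy0)]
    have h1 := hf x y hx hy
    have h2 : 16 ≤ f x * f y := by nlinarith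
    have h3 : 0 ≤ L * ‖x - y‖ := (abs_nonneg _).trans h1
    calc |f x - f y| ≤ L * ‖x - y‖ := h1
      _ = L / 16 * ‖x - y‖ * 16 := by ring
      _ ≤ L / 16 * ‖x - y‖ * (f x * f y) := by
        apply mul_le_mul_of_nonneg_left h2
        linarith

private theorem nsq_lip {x y : ℂ} {δ : ℝ} (hx : ‖x‖ ≤ 1) (hy : ‖y‖ ≤ 1) (h : ‖x - y‖ ≤ δ) :
    |‖x‖ ^ 2 - ‖y‖ ^ 2| ≤ 2 * δ := by
  have e : ‖x‖ ^ 2 - ‖y‖ ^ 2 = (‖x‖ + ‖y‖) * (‖x‖ - ‖y‖) := by ring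
  rw [e, abs_mul, abs_of_nonneg (by positivity)]
  have h1 : |‖x‖ - ‖y‖| ≤ δ := (abs_norm_sub_norm_le x y).trans h
  calc (‖x‖ + ‖y‖) * |‖x‖ - ‖y‖| ≤ 2 * |‖x‖ - ‖y‖| :=
        mul_le_mul_of_nonneg_right (by linarith) (abs_nonneg _)
    _ ≤ 2 * δ := by linarith

private theorem D0_lip {x y : ℂ × ℂ} (hx : ‖x‖ ≤ 1) (hy : ‖y‖ ≤ 1) :
    |(4 + ‖x.1‖ ^ 2 + ‖x.2‖ ^ 2) - (4 + ‖y.1‖ ^ 2 + ‖y.2‖ ^ 2)| ≤ 4 * ‖x - y‖ := by
  have h1 := nsq_lip ((norm_fst_le x).trans hx) ((norm_fst_le y).trans hy)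
    (norm_fst_le (x - y))
  have h2 := nsq_lip ((norm_snd_le x).trans hx) ((norm_snd_le y).trans hy)
    (norm_snd_le (x - y))
  have e : (4 + ‖x.1‖ ^ 2 + ‖x.2‖ ^ 2) - (4 + ‖y.1‖ ^ 2 + ‖y.2‖ ^ 2) =
      (‖x.1‖ ^ 2 - ‖y.1‖ ^ 2) + (‖x.2‖ ^ 2 - ‖y.2‖ ^ 2) := by ring
  rw [e]
  refine (abs_add_le _ _).trans ?_
  linarith

private theorem q0_BL : BL 1 4 (fun x : ℂ × ℂ => ((‖x.1‖ ^ 2 - ‖x.2‖ ^ 2 : ℝ) : ℂ)) := by
  intro x hx
  have h1 := (norm_fst_le x).trans hx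
  have h2 := (norm_snd_le x).trans hx
  refine ⟨?_, ?_⟩
  · rw [Complex.norm_real, Real.norm_eq_abs, abs_le]
    constructor <;> nlinarith [norm_nonneg x.1, norm_nonneg x.2]
  · intro y hy
    have g1 := nsq_lip h1 ((norm_fst_le y).trans hy) (norm_fst_le (x - y))
    have g2 := nsq_lip h2 ((norm_snd_le y).trans hy) (norm_snd_le (x - y))
    rw [← Complex.ofReal_sub, Complex.norm_real, Real.norm_eq_abs]
    have e : (‖x.1‖ ^ 2 - ‖x.2‖ ^ 2) - (‖y.1‖ ^ 2 - ‖y.2‖ ^ 2) =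
        (‖x.1‖ ^ 2 - ‖y.1‖ ^ 2) - (‖x.2‖ ^ 2 - ‖y.2‖ ^ 2) := by ring
    rw [e]
    refine (abs_sub _ _).trans ?_
    linarith

private theorem fst_BL : BL 1 1 (fun x : ℂ × ℂ => conj x.1) := by
  intro x hx
  refine ⟨?_, ?_⟩
  · rw [RCLike.norm_conj]; exact (norm_fst_le x).trans hx
  · intro y hy
    rw [← map_sub, RCLike.norm_conj, one_mul]
    exact norm_fst_le (x - y)

private theorem snd_BL : BL 1 1 (fun x : ℂ × ℂ => x.2) := by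
  intro x hx
  refine ⟨(norm_snd_le x).trans hx, ?_⟩
  intro y hy
  rw [one_mul]
  exact norm_snd_le (x - y)

private theorem w0_BL : BL 2 4 (fun x : ℂ × ℂ => 2 * x.1 * conj x.2) := by
  have h1 : BL 1 1 (fun x : ℂ × ℂ => x.1) := by
    intro x hx
    refine ⟨(norm_fst_le x).trans hx, ?_⟩
    intro y hy
    rw [one_mul]
    exact norm_fst_le (x - y)
  have h2 : BL 1 1 (fun x : ℂ × ℂ => conj x.2) := by
    intro x hx
    refine ⟨?_, ?_⟩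
    · rw [RCLike.norm_conj]; exact (norm_snd_le x).trans hx
    · intro y hy
      rw [← map_sub, RCLike.norm_conj, one_mul]
      exact norm_snd_le (x - y)
  have h3 := (BL.mul' zero_le_one zero_le_one zero_le_one h1 h2).cmul 2
  have e : (fun x : ℂ × ℂ => 2 * x.1 * conj x.2) = fun x => 2 * (x.1 * conj x.2) := by
    funext x; ring
  rw [e]
  intro x hx
  obtain ⟨h4, h5⟩ := h3 x hx
  refine ⟨?_, ?_⟩
  · refine h4.trans ?_
    norm_num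
  · intro y hy
    refine (h5 y hy).trans ?_
    apply mul_le_mul_of_nonneg_right _ (norm_nonneg _)
    norm_num

/-- a difference function is bounded and Lipschitz -/
private theorem diff_BL {η : ℝ} {f : ℂ × ℂ → ℂ} (hη : 0 < η)
    (hf : ∀ x y, ‖f x - f y‖ ≤ η * ‖x - y‖) (h0 : f (1, 0) = 0) : BL (2 * η) η f := by
  intro x hx
  refine ⟨?_, fun y _ => hf x y⟩
  have h1 := hf x (1, 0)
  rw [h0, sub_zero] at h1
  refine h1.trans ?_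
  have h2 : ‖x - (1, 0)‖ ≤ 2 := by
    refine (norm_sub_le _ _).trans ?_
    have : ‖((1 : ℂ), (0 : ℂ))‖ = 1 := by simp [Prod.norm_def]
    linarith
  nlinarith

private theorem sqrt2_le : Real.sqrt 2 ≤ 3 / 2 := by
  rw [Real.sqrt_le_left (by norm_num)]
  norm_num

private theorem E_lip (hG : Good ε q w D α β r1 r2 r3 D0) {η : ℝ} (hη : 0 < η) (hη1 : η ≤ 1)
    (hC : Close η q w D) {x y : ℂ × ℂ} (hx : ‖x‖ ≤ 1) (hy : ‖y‖ ≤ 1) :
    ‖(gfun q w D (lift x) - ver (lift x)) - (gfun q w D (lift y) - ver (lift y))‖ ≤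
      50 * η * ‖x - y‖ := by
  have hε := hG.eps
  have hout := hG.out (1, 0) (by
    have : ε ^ 2 ≤ 1 := by nlinarith
    simpa using this)
  -- the difference functions
  have ha : BL (2 * η) η (fun z : ℂ × ℂ => ((q z - (‖z.1‖ ^ 2 - ‖z.2‖ ^ 2) : ℝ) : ℂ)) := by
    apply diff_BL hη
    · intro x y
      rw [← Complex.ofReal_sub, Complex.norm_real]
      exact hC.cq x y
    · rw [hout.1, sub_self, Complex.ofReal_zero]
  have hb : BL (2 * η) η (fun z : ℂ × ℂ => w z - 2 * z.1 * conj z.2) := by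
    apply diff_BL hη
    · intro x y
      exact hC.cw x y
    · rw [hout.2.1, sub_self]
  have hd : BL (2 * η) η (fun z : ℂ × ℂ => ((D z - (4 + ‖z.1‖ ^ 2 + ‖z.2‖ ^ 2) : ℝ) : ℂ)) := by
    apply diff_BL hη
    · intro x y
      rw [← Complex.ofReal_sub, Complex.norm_real]
      exact hC.cD x y
    · rw [hout.2.2, sub_self, Complex.ofReal_zero]
  have hi : BL (1 / 4) (5 / 16) (fun z : ℂ × ℂ => (((D z)⁻¹ : ℝ) : ℂ)) := by
    apply BL.inv' hG.Dge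
    intro x y hx hy
    have h1 := hC.cD x y
    have h2 := D0_lip hx hy
    have e : D x - D y = ((D x - (4 + ‖x.1‖ ^ 2 + ‖x.2‖ ^ 2)) -
        (D y - (4 + ‖y.1‖ ^ 2 + ‖y.2‖ ^ 2))) +
        ((4 + ‖x.1‖ ^ 2 + ‖x.2‖ ^ 2) - (4 + ‖y.1‖ ^ 2 + ‖y.2‖ ^ 2)) := by ring
    rw [e]
    refine (abs_add_le _ _).trans ?_
    have h3 : η * ‖x - y‖ ≤ 1 * ‖x - y‖ := mul_le_mul_of_nonneg_right hη1 (norm_nonneg _)
    linarith
  have hi0 : BL (1 / 4) (4 / 16) (fun z : ℂ × ℂ => (((4 + ‖z.1‖ ^ 2 + ‖z.2‖ ^ 2)⁻¹ : ℝ) : ℂ)) := by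
    apply BL.inv'
    · intro x
      have := sq_nonneg ‖x.1‖
      have := sq_nonneg ‖x.2‖
      linarith
    · intro x y hx hy
      exact D0_lip hx hy
  have hP := BL.mul' (by norm_num) (by norm_num) (by norm_num) hi hi0
  have hdP := BL.mul' (by positivity) (by norm_num) hη.le hd hP
  have hai := BL.mul' (by positivity) (by norm_num) hη.le ha hi
  have hbi := BL.mul' (by positivity) (by norm_num) hη.le hb hi
  have hqd := BL.mul' (by norm_num) (by positivity) (by norm_num) q0_BL hdP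
  have hwd := BL.mul' (by norm_num) (by positivity) (by norm_num) w0_BL hdP
  have c1 := (hai.sub' hqd).cmul ((Real.sqrt 2 : ℝ) : ℂ)
  have c3 := (hbi.sub' hwd).cmul ((Real.sqrt 2 : ℝ) : ℂ)
  have c2 := (BL.mul' (by positivity) (by norm_num) (by positivity) hdP fst_BL).cmul
    ((-(2 * Real.sqrt 2) : ℝ) : ℂ)
  have c4 := (BL.mul' (by positivity) (by norm_num) (by positivity) hdP snd_BL).cmul
    ((-(2 * Real.sqrt 2) : ℝ) : ℂ)
  have hs := sqrt2_le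
  have hs0 := Real.sqrt_nonneg 2
  have n1 : ‖((Real.sqrt 2 : ℝ) : ℂ)‖ = Real.sqrt 2 := by
    rw [Complex.norm_real, Real.norm_eq_abs, abs_of_nonneg hs0]
  have n2 : ‖((-(2 * Real.sqrt 2) : ℝ) : ℂ)‖ = 2 * Real.sqrt 2 := by
    rw [Complex.norm_real, Real.norm_eq_abs, abs_neg, abs_of_nonneg (by positivity)]
  rw [n1] at c1 c3
  rw [n2] at c2 c4
  have hn := norm_nonneg (x - y)
  have hηn : 0 ≤ η * ‖x - y‖ := by positivity
  have hsn : Real.sqrt 2 * (η * ‖x - y‖) ≤ 3 / 2 * (η * ‖x - y‖) :=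
    mul_le_mul_of_nonneg_right hs hηn
  -- the components
  have E : ∀ z : ℂ × ℂ, gfun q w D (lift z) - ver (lift z) =
      (Real.sqrt 2 * ((q z - (‖z.1‖ ^ 2 - ‖z.2‖ ^ 2)) * (D z)⁻¹ -
        (‖z.1‖ ^ 2 - ‖z.2‖ ^ 2) * ((D z - (4 + ‖z.1‖ ^ 2 + ‖z.2‖ ^ 2)) *
          ((D z)⁻¹ * (4 + ‖z.1‖ ^ 2 + ‖z.2‖ ^ 2)⁻¹))),
       ((-(2 * Real.sqrt 2) : ℝ) : ℂ) * (((D z - (4 + ‖z.1‖ ^ 2 + ‖z.2‖ ^ 2) : ℝ) : ℂ) *
          ((((D z)⁻¹ : ℝ) : ℂ) * (((4 + ‖z.1‖ ^ 2 + ‖z.2‖ ^ 2)⁻¹ : ℝ) : ℂ)) * conj z.1),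
       ((Real.sqrt 2 : ℝ) : ℂ) * ((w z - 2 * z.1 * conj z.2) * (((D z)⁻¹ : ℝ) : ℂ) -
        2 * z.1 * conj z.2 * (((D z - (4 + ‖z.1‖ ^ 2 + ‖z.2‖ ^ 2) : ℝ) : ℂ) *
          ((((D z)⁻¹ : ℝ) : ℂ) * (((4 + ‖z.1‖ ^ 2 + ‖z.2‖ ^ 2)⁻¹ : ℝ) : ℂ)))),
       ((-(2 * Real.sqrt 2) : ℝ) : ℂ) * (((D z - (4 + ‖z.1‖ ^ 2 + ‖z.2‖ ^ 2) : ℝ) : ℂ) *
          ((((D z)⁻¹ : ℝ) : ℂ) * (((4 + ‖z.1‖ ^ 2 + ‖z.2‖ ^ 2)⁻¹ : ℝ) : ℂ)) * z.2)) := by
    intro z
    have hDz : D z ≠ 0 := by have := hG.Dge z; linarith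
    have hD0 : (4 + ‖z.1‖ ^ 2 + ‖z.2‖ ^ 2) ≠ 0 := by positivity
    have hDzc : (D z : ℂ) ≠ 0 := by exact_mod_cast hDz
    have hD0c : ((4 + ‖z.1‖ ^ 2 + ‖z.2‖ ^ 2 : ℝ) : ℂ) ≠ 0 := by exact_mod_cast hD0
    rw [gfun_lift, ver_lift]
    unfold theta
    generalize ‖z.1‖ ^ 2 = A at *
    generalize ‖z.2‖ ^ 2 = B at *
    refine Prod.ext ?_ (Prod.ext ?_ (Prod.ext ?_ ?_))
    · simp only [Prod.fst_sub]
      field_simp
      ring
    · simp only [Prod.fst_sub, Prod.snd_sub]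
      push_cast at hD0c ⊢
      field_simp
      ring
    · simp only [Prod.fst_sub, Prod.snd_sub]
      push_cast at hD0c ⊢
      field_simp
      ring
    · simp only [Prod.snd_sub]
      push_cast at hD0c ⊢
      field_simp
      ring
  rw [E x, E y]
  have d1 := (c1 x hx).2 y hy
  have d2 := (c2 x hx).2 y hy
  have d3 := (c3 x hx).2 y hy
  have d4 := (c4 x hx).2 y hy
  rw [Prod.norm_def, Prod.norm_def, Prod.norm_def]
  refine max_le ?_ (max_le ?_ (max_le ?_ ?_))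
  · rw [← Complex.norm_real]
    simp only [Prod.fst_sub]
    push_cast at d1 ⊢
    refine d1.trans ?_
    nlinarith
  · refine d2.trans ?_
    nlinarith
  · refine d3.trans ?_
    nlinarith
  · refine d4.trans ?_
    nlinarith

theorem theta_close (hG : Good ε q w D α β r1 r2 r3 D0) {η : ℝ} (hη : 0 < η) (hη1 : η ≤ 1)
    (hC : Close η q w D) (ζ : ℂ × ℂ) :
    ‖gfun q w D (lift ζ) - ver (lift ζ)‖ ≤ 200 * η ∧
    ‖fderiv ℝ (fun ζ => gfun q w D (lift ζ) - ver (lift ζ)) ζ‖ ≤ 200 * η := by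
  have hε := hG.eps
  have hz : ∀ ξ : ℂ × ℂ, ε ^ 2 ≤ ‖ξ.1‖ ^ 2 + ‖ξ.2‖ ^ 2 →
      gfun q w D (lift ξ) - ver (lift ξ) = 0 := by
    intro ξ hξ
    rw [gfun_eq_ver hG (z := lift ξ) (Or.inr (by rw [pr_lift]; exact hξ)), sub_self]
  rcases lt_or_ge (ε ^ 2) (‖ζ.1‖ ^ 2 + ‖ζ.2‖ ^ 2) with h | h
  · refine ⟨?_, ?_⟩
    · rw [hz ζ h.le, norm_zero]
      positivity
    · have hc : Continuous fun ξ : ℂ × ℂ => ‖ξ.1‖ ^ 2 + ‖ξ.2‖ ^ 2 := by fun_prop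
      have he : (fun ξ : ℂ × ℂ => gfun q w D (lift ξ) - ver (lift ξ)) =ᶠ[nhds ζ]
          fun _ => (0 : E7) := by
        filter_upwards [hc.continuousAt.eventually_const_lt h] with ξ hξ
        exact hz ξ hξ.le
      rw [he.fderiv_eq]
      simp only [fderiv_fun_const, Pi.zero_apply, norm_zero]
      positivity
  · have h1 : ‖ζ.1‖ < 1 := by
      by_contra hcon
      push Not at hcon
      nlinarith [sq_nonneg ‖ζ.2‖]
    have h2 : ‖ζ.2‖ < 1 := by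
      by_contra hcon
      push Not at hcon
      nlinarith [sq_nonneg ‖ζ.1‖]
    have h3 : ‖ζ‖ < 1 := by
      rw [Prod.norm_def]; exact max_lt h1 h2
    have h10 : ‖((1 : ℂ), (0 : ℂ))‖ = 1 := by simp [Prod.norm_def]
    refine ⟨?_, ?_⟩
    · have h4 := E_lip hG hη hη1 hC h3.le h10.le
      rw [hz (1, 0) (by
        have : ε ^ 2 ≤ 1 := by nlinarith
        simpa using this), sub_zero] at h4
      refine h4.trans ?_
      have h5 : ‖ζ - (1, 0)‖ ≤ 2 := by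
        refine (norm_sub_le _ _).trans ?_
        linarith
      nlinarith
    · have h4 : ‖fderiv ℝ (fun ζ => gfun q w D (lift ζ) - ver (lift ζ)) ζ‖ ≤ 50 * η := by
        apply norm_fderiv_le_of_lip' ℝ (by positivity)
        have h5 : ∀ᶠ x in nhds ζ, ‖x‖ < 1 := continuous_norm.continuousAt.eventually_lt_const h3
        filter_upwards [h5] with x hx
        exact E_lip hG hη hη1 hC hx.le h3.le
      linarith

theorem psi_small (hG : Good ε q w D α β r1 r2 r3 D0) {η : ℝ} (hη : 0 < η)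
    (hC : Close η q w D) {r ρ : ℝ} {y : ℂ × R3} (hy : 0 < y.2.1) (h1 : r1 ≤ r / y.2.1)
    (h2 : r / y.2.1 ≤ r2) (h3 : ‖y.1‖ / y.2.1 ≤ ρ) (h4 : ‖y.2.2‖ / y.2.1 ≤ ρ) :
    ‖psi α β r D0 y‖ ≤ ε ^ 2 + 2 * η + ρ := by
  have hε := hG.eps
  have hr1 := hG.hr1
  have hr12 := hG.hr12
  have hr3 := hG.hr3
  have hin := hG.inside
  have hρ : 0 ≤ ρ := le_trans (by positivity) h3
  set t : ℝ := r / y.2.1 with ht
  have ht0 : 0 < t := lt_of_lt_of_le hr1 h1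
  have hD4 : 4 ≤ D0 := by
    have h5 := (hG.flatw 0 (by simpa using (hr1.trans hr12).le) (by simpa using hr3.le)).2
    rw [← h5]; exact hG.Dge 0
  have hD0 : 0 < D0 := by linarith
  have hr2ε : r2 < ε := by
    by_contra hcon
    push Not at hcon
    nlinarith
  have htε : t < ε := lt_of_le_of_lt h2 hr2ε
  have hnt : ‖(t : ℂ)‖ = t := by rw [Complex.norm_real, Real.norm_eq_abs, abs_of_pos ht0]
  have hq : α * r / y.2.1 + β = q ((t : ℂ), 0) := by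
    rw [hG.flat ((t : ℂ), 0) (by simpa [abs_of_pos ht0] using h1)
      (by simpa [abs_of_pos ht0] using h2)
      (by simpa using hr3.le)]
    simp only [hnt]
    rw [ht]; ring
  have hqb : |q ((t : ℂ), 0)| ≤ ε ^ 2 + 2 * η := by
    have h5 := hC.cq ((t : ℂ), 0) (1, 0)
    have hout := (hG.out (1, 0) (by
      have : ε ^ 2 ≤ 1 := by nlinarith
      simpa using this)).1
    rw [hout, sub_self, sub_zero] at h5
    simp only [hnt, norm_zero] at h5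
    have h6 : ‖((t : ℂ), (0 : ℂ)) - (1, 0)‖ ≤ 2 := by
      refine (norm_sub_le _ _).trans ?_
      have e1 : ‖((t : ℂ), (0 : ℂ))‖ = t := by
        rw [Prod.norm_def]; simp [ht0.le]
      have e2 : ‖((1 : ℂ), (0 : ℂ))‖ = 1 := by simp [Prod.norm_def]
      rw [e1, e2]; linarith
    have h7 : η * ‖((t : ℂ), (0 : ℂ)) - (1, 0)‖ ≤ η * 2 := mul_le_mul_of_nonneg_left h6 hη.le
    have h8 : |q ((t : ℂ), 0) - (t ^ 2 - 0 ^ 2)| ≤ η * 2 := h5.trans h7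
    have h9 : t ^ 2 ≤ ε ^ 2 := by nlinarith
    rw [abs_le] at h8 ⊢
    constructor
    · nlinarith [h8.1, h8.2, sq_nonneg t]
    · nlinarith [h8.1, h8.2]
  have hs := sqrt2_le
  have hs0 := Real.sqrt_nonneg 2
  have hk : Real.sqrt 2 / D0 ≤ 1 / 2 := by
    rw [div_le_iff₀ hD0]; linarith
  have hk0 : 0 ≤ Real.sqrt 2 / D0 := by positivity
  unfold psi theta
  rw [hq, Prod.norm_def, Prod.norm_def, Prod.norm_def]
  refine max_le ?_ (max_le ?_ (max_le ?_ ?_))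
  · show ‖Real.sqrt 2 * q ((t : ℂ), 0) / D0‖ ≤ _
    rw [Real.norm_eq_abs, mul_div_right_comm, abs_mul, abs_of_nonneg hk0]
    have h5 : Real.sqrt 2 / D0 * |q ((t : ℂ), 0)| ≤ 1 / 2 * |q ((t : ℂ), 0)| :=
      mul_le_mul_of_nonneg_right hk (abs_nonneg _)
    have h6 := abs_nonneg (q ((t : ℂ), 0))
    linarith
  · show ‖((2 * Real.sqrt 2 / D0 : ℝ) : ℂ) * conj (y.1 / (y.2.1 : ℂ))‖ ≤ _
    rw [norm_mul, RCLike.norm_conj, Complex.norm_real, Real.norm_eq_abs, norm_div,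
      Complex.norm_real, Real.norm_eq_abs, abs_of_pos hy, abs_of_nonneg (by positivity),
      mul_div_assoc]
    have h5 : 2 * (Real.sqrt 2 / D0) * (‖y.1‖ / y.2.1) ≤ 1 * ρ :=
      mul_le_mul (by linarith) h3 (by positivity) zero_le_one
    have h6 : 0 ≤ ε ^ 2 := sq_nonneg _
    linarith
  · show ‖((Real.sqrt 2 / D0 : ℝ) : ℂ) * 0‖ ≤ _
    rw [mul_zero, norm_zero]
    positivity
  · show ‖((2 * Real.sqrt 2 / D0 : ℝ) : ℂ) * (y.2.2 / (y.2.1 : ℂ))‖ ≤ _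
    rw [norm_mul, Complex.norm_real, Real.norm_eq_abs, norm_div,
      Complex.norm_real, Real.norm_eq_abs, abs_of_pos hy, abs_of_nonneg (by positivity),
      mul_div_assoc]
    have h5 : 2 * (Real.sqrt 2 / D0) * (‖y.2.2‖ / y.2.1) ≤ 1 * ρ :=
      mul_le_mul (by linarith) h4 (by positivity) zero_le_one
    have h6 : 0 ≤ ε ^ 2 := sq_nonneg _
    linarith

end

end Pool.Agent.H63.TV
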