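import Pool.Agent.H63.TV.MainD

/-!
# The embedding with handles is tight
-/

open scoped ContDiff ComplexConjugate

namespace Pool.Agent.H63.TV

noncomputable section

variable {ε : ℝ} {q : ℂ × ℂ → ℝ} {w : ℂ × ℂ → ℂ} {D : ℂ × ℂ → ℝ} {α β r1 r2 r3 D0 : ℝ}
  {k : ℕ} {r s : ℝ} {c : Fin k → ℂ} {m n p n' : ℝ → ℝ}

/-- the part of the critical set on `CP^2` minus the solid tori -/
def CritA (k : ℕ) (r s : ℝ) (c : Fin k → ℂ) (g : C3 → E7) (ξ : E7) (m : ℕ) : Set E7 :=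
  {y | ∃ z, Out k r s c z ∧ Crit (fun y => ht ξ (g y)) z ∧
      HasIdx (hess (fun y => ht ξ (g y)) z) m ∧ g z = y}

theorem A_nec (hG : Good ε q w D α β r1 r2 r3 D0) (hP : Par k r s c r1 r2 r3)
    {G : Fin k → ℂ × R3 → E7} {ξ : E7} (hM : Morse k r s c (gfun q w D) G ξ) {v : Fin 3 → C3}
    (hv : VerAlt ξ v) {z : C3} {m : ℕ} (hz : Out k r s c z)
    (hc : Crit (fun y => ht ξ (gfun q w D y)) z)
    (hi : HasIdx (hess (fun y => ht ξ (gfun q w D y)) z) m) :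
    (∃ j : Fin 3, RI ε (v j) ∧ m = 2 * j ∧ gfun q w D z = gfun q w D (v j)) ∨
    (m = 2 ∧ ‖(pr z).1‖ ^ 2 + ‖(pr z).2‖ ^ 2 ≤ ε ^ 2 ∧
      Crit (fun ζ => ht ξ (gfun q w D (lift ζ))) (pr z) ∧
      gfun q w D z = gfun q w D (lift (pr z))) := by
  by_cases hR : RI ε z
  · left
    obtain ⟨e1, e2⟩ := hess_congr (F_ev hG ξ hR)
    obtain ⟨j, μ, hμ⟩ := (hv.2.1 z hz.1).1 (e1.1 hc)
    have hμ0 : μ ≠ 0 := by
      intro h
      apply hz.1
      rw [hμ, h, zero_smul]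
    have hj := (hv.2.2 j μ hμ0).1
    rw [← hμ, ← e2] at hj
    refine ⟨j, ?_, hi.unique hj, ?_⟩
    · rw [hμ, RI_smul hμ0] at hR
      exact hR
    · rw [hμ, gfun_hom μ _ hμ0]
  · right
    obtain ⟨h0, h1⟩ := not_RI hz.1 hR
    have hε : ε ^ 2 ≤ 1 := by nlinarith [hG.eps.1, hG.eps.2]
    have hs : ContDiffAt ℝ 2 (fun ζ => ht ξ (gfun q w D (lift ζ))) (pr z) :=
      (phi1_smooth hG ξ).contDiffAt.of_le (by norm_cast)
    have hc' : Crit (fun ζ => ht ξ (gfun q w D (lift ζ))) (pr z) :=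
      (chart_crit (F_hom ξ) h0 hs).1 hc
    obtain ⟨-, hn, hS⟩ := ball_crit hG hP hM (h1.trans hε) hc'
    have hi' : HasIdx (hess (fun y => ht ξ (gfun q w D y)) z) 2 := by
      rw [chart_idx (F_hom ξ) h0 hs hc]
      exact hS.idx hs hc' hn
    refine ⟨hi.unique hi', h1, hc', ?_⟩
    conv_lhs => rw [← lift_pr h0]
    rw [gfun_hom _ _ h0]

theorem A_suf1 (hG : Good ε q w D α β r1 r2 r3 D0) (hP : Par k r s c r1 r2 r3)
    {ξ : E7} {v : Fin 3 → C3}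
    (hv : VerAlt ξ v) {j : Fin 3} (hj : RI ε (v j)) :
    gfun q w D (v j) ∈ CritA k r s c (gfun q w D) ξ (2 * j) := by
  obtain ⟨e1, e2⟩ := hess_congr (F_ev hG ξ hj)
  refine ⟨v j, RI_out hG hP hj, ?_, ?_, rfl⟩
  · rw [e1]
    exact (hv.2.1 _ (RI_ne hj)).2 ⟨j, 1, (one_smul _ _).symm⟩
  · rw [e2]
    have := (hv.2.2 j 1 one_ne_zero).1
    rwa [one_smul] at this

theorem A_suf2 (hG : Good ε q w D α β r1 r2 r3 D0) (hP : Par k r s c r1 r2 r3)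
    {G : Fin k → ℂ × R3 → E7} {ξ : E7} (hM : Morse k r s c (gfun q w D) G ξ) {ζ : ℂ × ℂ}
    (hζ : ‖ζ.1‖ ^ 2 + ‖ζ.2‖ ^ 2 ≤ ε ^ 2)
    (hc : Crit (fun ζ => ht ξ (gfun q w D (lift ζ))) ζ) :
    gfun q w D (lift ζ) ∈ CritA k r s c (gfun q w D) ξ 2 := by
  have hε : ε ^ 2 ≤ 1 := by nlinarith [hG.eps.1, hG.eps.2]
  obtain ⟨ho, hn, hS⟩ := ball_crit hG hP hM (hζ.trans hε) hc
  have h0 : (lift ζ) 0 ≠ 0 := by simp [lift]
  have hs : ContDiffAt ℝ 2 (fun ζ => ht ξ (gfun q w D (lift ζ))) (pr (lift ζ)) :=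
    (phi1_smooth hG ξ).contDiffAt.of_le (by norm_cast)
  have hc' : Crit (fun y => ht ξ (gfun q w D y)) (lift ζ) := by
    rw [chart_crit (F_hom ξ) h0 hs, pr_lift]
    exact hc
  refine ⟨lift ζ, ho, hc', ?_, rfl⟩
  rw [chart_idx (F_hom ξ) h0 hs hc', pr_lift]
  exact hS.idx ((phi1_smooth hG ξ).contDiffAt.of_le (by norm_cast)) hc hn

theorem A_all (hG : Good ε q w D α β r1 r2 r3 D0) (hP : Par k r s c r1 r2 r3)
    {G : Fin k → ℂ × R3 → E7} {ξ : E7} (hM : Morse k r s c (gfun q w D) G ξ) :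
    (∃ a, CritA k r s c (gfun q w D) ξ 0 = {a}) ∧ (∃ a, CritA k r s c (gfun q w D) ξ 4 = {a}) ∧
    (∃ a, CritA k r s c (gfun q w D) ξ 2 = {a}) ∧
    ∀ m, m ≠ 0 → m ≠ 2 → m ≠ 4 → CritA k r s c (gfun q w D) ξ m = ∅ := by
  obtain ⟨v, hv⟩ := ver_alt hG hP hM
  obtain ⟨R0, R2, hR1⟩ := ball_count hG hP hM hv
  have t0 := A_suf1 hG hP hv R0
  have t2 := A_suf1 hG hP hv R2
  refine ⟨⟨gfun q w D (v 0), ?_⟩, ⟨gfun q w D (v 2), ?_⟩, ?_, ?_⟩
  · apply Set.eq_singleton_iff_unique_mem.2 ⟨t0, ?_⟩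
    rintro y ⟨z, ho, hc, hi, rfl⟩
    rcases A_nec hG hP hM hv ho hc hi with ⟨j, -, hj, hg⟩ | ⟨h, -⟩
    · have hj0 : j = 0 := by
        fin_cases j
        · rfl
        · simp at hj
        · simp at hj
      rw [hg, hj0]
    · omega
  · apply Set.eq_singleton_iff_unique_mem.2 ⟨t2, ?_⟩
    rintro y ⟨z, ho, hc, hi, rfl⟩
    rcases A_nec hG hP hM hv ho hc hi with ⟨j, -, hj, hg⟩ | ⟨h, -⟩
    · have hj0 : j = 2 := by
        fin_cases j
        · simp at hj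
        · simp at hj
        · rfl
      rw [hg, hj0]
    · omega
  · rcases hR1 with ⟨h1, hno⟩ | ⟨h1, ζ₁, hζ₁, hc₁, huniq⟩
    · refine ⟨gfun q w D (v 1), ?_⟩
      apply Set.eq_singleton_iff_unique_mem.2 ⟨A_suf1 hG hP hv h1, ?_⟩
      rintro y ⟨z, ho, hc, hi, rfl⟩
      rcases A_nec hG hP hM hv ho hc hi with ⟨j, -, hj, hg⟩ | ⟨-, hb, hcb, -⟩
      · have hj0 : j = 1 := by
          fin_cases j
          · simp at hj
          · rfl
          · simp at hj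
        rw [hg, hj0]
      · exact absurd hcb (hno _ hb)
    · refine ⟨gfun q w D (lift ζ₁), ?_⟩
      apply Set.eq_singleton_iff_unique_mem.2 ⟨A_suf2 hG hP hM hζ₁ hc₁, ?_⟩
      rintro y ⟨z, ho, hc, hi, rfl⟩
      rcases A_nec hG hP hM hv ho hc hi with ⟨j, hR, hj, hg⟩ | ⟨-, hb, hcb, hg⟩
      · have hj0 : j = 1 := by
          fin_cases j
          · simp at hj
          · rfl
          · simp at hj
        rw [hj0] at hR
        exact absurd hR h1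
      · rw [hg, huniq _ hb hcb]
  · intro m m0 m2 m4
    rw [Set.eq_empty_iff_forall_notMem]
    rintro y ⟨z, ho, hc, hi, rfl⟩
    rcases A_nec hG hP hM hv ho hc hi with ⟨j, -, hj, hg⟩ | ⟨h, -⟩
    · fin_cases j
      · exact m0 (by simpa using hj)
      · exact m2 (by simpa using hj)
      · exact m4 (by simpa using hj)
    · exact m2 h

theorem tight_main (hG : Good ε q w D α β r1 r2 r3 D0) (hP : Par k r s c r1 r2 r3)
    (hN : IsNeck r s m n p n') :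
    Tight k r s c (gfun q w D) (fun i y => psi α β r D0 (nk m n (c i) y)) := by
  intro ξ hξ hM
  have hE := smoothEmb hG hP hN
  obtain ⟨⟨a0, h0⟩, ⟨a4, h4⟩, ⟨a2, h2⟩, hm⟩ := A_all hG hP hM
  choose u₁ u₂ v₁ v₂ a1 a2' a3 a4' a5 a6 a7 a8 using fun i => neck_part hG hP hN hM i
  have hne : ∀ v : R3, len v = 1 → v ≠ 0 := by
    intro v hv h0
    subst h0
    unfold len at hv
    simp at hv
  -- the neck part
  have hB : ∀ (l : ℕ) (i : Fin k) (y : ℂ × R3), ‖y.1‖ < 2 → y.2 ≠ 0 →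
      Crit (fun y => ht ξ (psi α β r D0 (nk m n (c i) y))) y →
      HasIdx (hess (fun y => ht ξ (psi α β r D0 (nk m n (c i) y))) y) l → l = 2 ∧
      (psi α β r D0 (nk m n (c i) y) = psi α β r D0 (nk m n (c i) (u₁ i, v₁ i)) ∨
        psi α β r D0 (nk m n (c i) y) = psi α β r D0 (nk m n (c i) (u₂ i, v₂ i))) := by
    intro l i y hy hy' hc hi
    obtain ⟨⟨t, ht, hyt⟩, hidx⟩ := a8 i y hy hy' hc
    refine ⟨hi.unique hidx, ?_⟩
    rcases hyt with h | h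
    · left
      rw [h]
      exact hE.hom_G i _ _ t ht
    · right
      rw [h]
      exact hE.hom_G i _ _ t ht
  have hAB : ∀ l, CritSet k r s c (gfun q w D) (fun i y => psi α β r D0 (nk m n (c i) y)) ξ l =
      CritA k r s c (gfun q w D) ξ l ∪ {y | ∃ i, ∃ p : ℂ × R3, ‖p.1‖ < 2 ∧ p.2 ≠ 0 ∧
        Crit (fun y => ht ξ (psi α β r D0 (nk m n (c i) y))) p ∧
        HasIdx (hess (fun y => ht ξ (psi α β r D0 (nk m n (c i) y))) p) l ∧
        psi α β r D0 (nk m n (c i) p) = y} := by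
    intro l
    rfl
  have hBe : ∀ l, l ≠ 2 → CritSet k r s c (gfun q w D)
      (fun i y => psi α β r D0 (nk m n (c i) y)) ξ l = CritA k r s c (gfun q w D) ξ l := by
    intro l hl
    rw [hAB]
    apply Set.union_eq_self_of_subset_right
    rintro y ⟨i, p, b1, b2, b3, b4, -⟩
    exact absurd (hB l i p b1 b2 b3 b4).1 hl
  -- the two critical points on each neck
  set P : Fin k × Bool → E7 := fun x =>
    psi α β r D0 (nk m n (c x.1) (cond x.2 (u₁ x.1, v₁ x.1) (u₂ x.1, v₂ x.1))) with hPdef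
  have hBr : {y | ∃ i, ∃ p : ℂ × R3, ‖p.1‖ < 2 ∧ p.2 ≠ 0 ∧
        Crit (fun y => ht ξ (psi α β r D0 (nk m n (c i) y))) p ∧
        HasIdx (hess (fun y => ht ξ (psi α β r D0 (nk m n (c i) y))) p) 2 ∧
        psi α β r D0 (nk m n (c i) p) = y} = Set.range P := by
    ext y
    constructor
    · rintro ⟨i, p, b1, b2, b3, b4, b5⟩
      rcases (hB 2 i p b1 b2 b3 b4).2 with h | h
      · exact ⟨(i, true), by rw [← b5, h]; rfl⟩
      · exact ⟨(i, false), by rw [← b5, h]; rfl⟩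
    · rintro ⟨⟨i, b⟩, rfl⟩
      cases b
      · have g1 : ‖((u₂ i, v₂ i) : ℂ × R3).1‖ < 2 := lt_trans (a2' i) (by norm_num)
        exact ⟨i, (u₂ i, v₂ i), g1, hne _ (a4' i), a7 i, (a8 i _ g1 (hne _ (a4' i)) (a7 i)).2, rfl⟩
      · have g1 : ‖((u₁ i, v₁ i) : ℂ × R3).1‖ < 2 := lt_trans (a1 i) (by norm_num)
        exact ⟨i, (u₁ i, v₁ i), g1, hne _ (a3 i), a6 i, (a8 i _ g1 (hne _ (a3 i)) (a6 i)).2, rfl⟩
  have hPinj : Function.Injective P := by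
    rintro ⟨i, b⟩ ⟨j, b'⟩ h
    have key : ∀ (y y' : ℂ × R3), ‖y.1‖ < 1 → ‖y'.1‖ < 1 → len y.2 = 1 → len y'.2 = 1 →
        psi α β r D0 (nk m n (c i) y) = psi α β r D0 (nk m n (c j) y') → i = j ∧ y = y' := by
      intro y y' g1 g2 g3 g4 g5
      obtain ⟨f1, f2, f3⟩ := hE.inj_G i j y.1 y'.1 y.2 y'.2 g1.le g2.le g3 g4 g5
      exact ⟨f1, Prod.ext f2 f3⟩
    cases b <;> cases b'
    · rw [(key _ _ (a2' i) (a2' j) (a4' i) (a4' j) h).1]
    · obtain ⟨rfl, h2⟩ := key _ _ (a2' i) (a1 j) (a4' i) (a3 j) h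
      exact absurd h2.symm (a5 i)
    · obtain ⟨rfl, h2⟩ := key _ _ (a1 i) (a2' j) (a3 i) (a4' j) h
      exact absurd h2 (a5 i)
    · rw [(key _ _ (a1 i) (a1 j) (a3 i) (a3 j) h).1]
  have hcardP : (Set.range P).ncard = 2 * k := by
    rw [← Set.image_univ, Set.ncard_image_of_injective _ hPinj, Set.ncard_univ, Nat.card_prod]
    simp [mul_comm]
  have hdisj : a2 ∉ Set.range P := by
    rintro ⟨⟨i, b⟩, hb⟩
    have : a2 ∈ CritA k r s c (gfun q w D) ξ 2 := by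
      rw [h2]
      rfl
    obtain ⟨z, ho, -, -, hz⟩ := this
    cases b
    · exact hE.inj_gG z i (u₂ i) (v₂ i) ho (a2' i).le (a4' i) (by rw [hz, ← hb]; rfl)
    · exact hE.inj_gG z i (u₁ i) (v₁ i) ho (a1 i).le (a3 i) (by rw [hz, ← hb]; rfl)
  refine ⟨?_, ?_, ?_, ?_⟩
  · rw [hBe 0 (by norm_num), h0, Set.ncard_singleton]
  · rw [hBe 4 (by norm_num), h4, Set.ncard_singleton]
  · rw [hAB 2, h2, hBr, Set.singleton_union, Set.ncard_insert_of_notMem hdisj (Set.finite_range P),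
      hcardP, add_comm]
  · intro l l0 l2 l4
    rw [hBe l l2]
    exact hm l l0 l2 l4

end

end Pool.Agent.H63.TV
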