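import Pool.Agent.H63.TV.Close3
import Pool.Agent.H63.TV.Main

/-!
# The handles are small
-/

open scoped ContDiff ComplexConjugate

namespace Pool.Agent.H63.TV

noncomputable section

variable {ε : ℝ} {q : ℂ × ℂ → ℝ} {w : ℂ × ℂ → ℂ} {D : ℂ × ℂ → ℝ} {α β r1 r2 r3 D0 : ℝ}
  {k : ℕ} {r s : ℝ} {c : Fin k → ℂ} {m n p n' : ℝ → ℝ}

theorem n_le (hP : Par k r s c r1 r2 r3) (hN : IsNeck r s m n p n') {t : ℝ} (h0 : 0 ≤ t)
    (h2 : t < 2) : 0 < n t ∧ n t ≤ 2 * s := by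
  have hs := hP.hs
  have hpos : 0 < n t := lt_of_lt_of_le hN.n_zero
    (hN.n_mono.monotoneOn (Set.mem_Ici.2 le_rfl) (Set.mem_Ici.2 h0) h0)
  refine ⟨hpos, ?_⟩
  rcases le_total t 1 with h | h
  · have h1 := hN.n_mono.monotoneOn (Set.mem_Ici.2 h0) (Set.mem_Ici.2 zero_le_one) h
    rw [hN.n_out 1 le_rfl] at h1
    linarith
  · rw [hN.n_out t h]
    nlinarith

theorem m_le (hP : Par k r s c r1 r2 r3) (hN : IsNeck r s m n p n') {t : ℝ} (h0 : 0 ≤ t) :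
    0 ≤ m t ∧ m t ≤ r := by
  rcases le_total t 1 with h | h
  · have h1 := hN.m_mono.monotoneOn (Set.mem_Icc.2 ⟨h0, h⟩) (Set.mem_Icc.2 ⟨zero_le_one, le_rfl⟩) h
    rw [hN.m_out 1 le_rfl] at h1
    have h2 := hN.m_mono.monotoneOn (Set.mem_Icc.2 ⟨le_rfl, zero_le_one⟩) (Set.mem_Icc.2 ⟨h0, h⟩) h0
    rw [hN.m_zero] at h2
    exact ⟨h2, h1⟩
  · rw [hN.m_out t h]
    exact ⟨hP.hr.le, le_rfl⟩

theorem handle_small (hG : Good ε q w D α β r1 r2 r3 D0) (hP : Par k r s c r1 r2 r3)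
    (hN : IsNeck r s m n p n') {η : ℝ} (hη : 0 < η) (hC : Close η q w D) (i : Fin k)
    {y : ℂ × R3} (hy : ‖y.1‖ < 2) (hy' : y.2 ≠ 0) :
    ‖psi α β r D0 (nk m n (c i) y)‖ ≤ 2 * η + 2 * ε := by
  have hr := hP.hr
  have hs := hP.hs
  have hs' := hP.hs'
  have hεp := hG.eps.1
  obtain ⟨n0, n1⟩ := n_le hP hN (norm_nonneg y.1) hy
  obtain ⟨m0, m1⟩ := m_le hP hN (norm_nonneg y.1)
  have hl := len_pos hy'
  have hlsq : len y.2 ^ 2 = y.2.1 ^ 2 + ‖y.2.2‖ ^ 2 := by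
    unfold len
    exact Real.sq_sqrt (by positivity)
  have ha1 : |y.2.1| ≤ len y.2 := by
    apply abs_le_of_sq_le_sq _ hl.le
    nlinarith [sq_nonneg ‖y.2.2‖]
  have ha2 : ‖y.2.2‖ ≤ len y.2 := by
    apply le_of_sq_le_sq _ hl.le
    nlinarith [sq_nonneg y.2.1]
  have hb1 : |n ‖y.1‖ / len y.2 * y.2.1| ≤ 2 * s := by
    rw [abs_mul, abs_div, abs_of_pos n0, abs_of_pos hl, div_mul_eq_mul_div, div_le_iff₀ hl]
    nlinarith [abs_nonneg y.2.1]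
  have hb2 : ‖((n ‖y.1‖ / len y.2 : ℝ) : ℂ) * y.2.2‖ ≤ 2 * s := by
    rw [norm_mul, Complex.norm_real, Real.norm_eq_abs, abs_div, abs_of_pos n0, abs_of_pos hl,
      div_mul_eq_mul_div, div_le_iff₀ hl]
    nlinarith [norm_nonneg y.2.2]
  have hx1 : 1 - 2 * s ≤ (nk m n (c i) y).2.1 := by
    show 1 - 2 * s ≤ 1 + n ‖y.1‖ / len y.2 * y.2.1
    linarith [(abs_le.1 hb1).1]
  have hx2 : (nk m n (c i) y).2.1 ≤ 1 + 2 * s := by
    show 1 + n ‖y.1‖ / len y.2 * y.2.1 ≤ 1 + 2 * s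
    linarith [(abs_le.1 hb1).2]
  have hs2 : 0 < 1 - 2 * s := by linarith
  have hx : 0 < (nk m n (c i) y).2.1 := lt_of_lt_of_le hs2 hx1
  have hz1 : ‖(nk m n (c i) y).1‖ ≤ r := by
    show ‖((m ‖y.1‖ / ‖y.1‖ : ℝ) : ℂ) * y.1‖ ≤ r
    rw [norm_mul, Complex.norm_real, Real.norm_eq_abs, abs_div, abs_of_nonneg m0, abs_norm]
    by_cases h : ‖y.1‖ = 0
    · rw [h, mul_zero]
      exact hr.le
    · rw [div_mul_cancel₀ _ h]
      exact m1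
  have hz2 : ‖(nk m n (c i) y).2.2‖ ≤ ‖c i‖ + 2 * s := by
    show ‖c i + ((n ‖y.1‖ / len y.2 : ℝ) : ℂ) * y.2.2‖ ≤ ‖c i‖ + 2 * s
    exact (norm_add_le _ _).trans (by linarith)
  have e1 : r1 ≤ r / (nk m n (c i) y).2.1 := by
    apply hP.lo.le.trans
    exact div_le_div_of_nonneg_left hr.le hx hx2
  have e2 : r / (nk m n (c i) y).2.1 ≤ r2 := by
    refine le_trans ?_ hP.hi.le
    exact div_le_div_of_nonneg_left hr.le hs2 hx1
  have hr2 : r2 < ε := by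
    have h1 := hG.inside
    have h2 := hG.hr3
    have h3 : r2 ^ 2 < ε ^ 2 := by nlinarith
    exact lt_of_pow_lt_pow_left₀ 2 hεp.le h3
  have hr3 : r3 < ε := by
    have h1 := hG.inside
    have h3 : r3 ^ 2 < ε ^ 2 := by nlinarith [sq_nonneg r2]
    exact lt_of_pow_lt_pow_left₀ 2 hεp.le h3
  have e3 : ‖(nk m n (c i) y).1‖ / (nk m n (c i) y).2.1 ≤ ε := by
    have : ‖(nk m n (c i) y).1‖ / (nk m n (c i) y).2.1 ≤ r / (nk m n (c i) y).2.1 :=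
      div_le_div_of_nonneg_right hz1 hx.le
    linarith
  have e4 : ‖(nk m n (c i) y).2.2‖ / (nk m n (c i) y).2.1 ≤ ε := by
    have h1 : ‖(nk m n (c i) y).2.2‖ / (nk m n (c i) y).2.1 ≤ (‖c i‖ + 2 * s) / (1 - 2 * s) := by
      apply div_le_div₀ (by positivity) hz2 hs2 hx1
    have h2 := hP.h3 i
    linarith
  have h := psi_small hG hη hC (r := r) hx e1 e2 e3 e4
  have hε4 := hG.eps.2
  nlinarith

end

end Pool.Agent.H63.TV
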