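import Pool.Agent.H63.TV.Close1
import Pool.Agent.H63.TV.Close2
import Pool.Agent.H63.TV.Close4

/-!
# Existence of the data, C^1-close to the original ones
-/

open scoped ContDiff ComplexConjugate

namespace Pool.Agent.H63.TV

theorem sadCrit_congr' {F G : ℂ × ℂ → ℝ} {p : ℂ × ℂ} (h : SadCrit F p) (hFG : F =ᶠ[nhds p] G) :
    SadCrit G p := by
  obtain ⟨P, Q, hP, hQ, δ, hδ, h1, h2⟩ := h
  obtain ⟨δ', hδ', hb⟩ := Metric.eventually_nhds_iff.1 hFG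
  have hp : F p = G p := hb (by rw [dist_self]; exact hδ')
  have hv : ∀ v : ℂ × ℂ, ‖v‖ < min δ δ' → F (p + v) = G (p + v) := by
    intro v hv
    apply hb
    rw [dist_eq_norm, add_sub_cancel_left]
    exact lt_of_lt_of_le hv (min_le_right _ _)
  refine ⟨P, Q, hP, hQ, min δ δ', lt_min hδ hδ', ?_, ?_⟩
  · intro v hvP hvn
    rw [← hp, ← hv v hvn]
    exact h1 v hvP (lt_of_lt_of_le hvn (min_le_left _ _))
  · intro v hvQ hvn
    rw [← hp, ← hv v hvn]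
    exact h2 v hvQ (lt_of_lt_of_le hvn (min_le_left _ _))

theorem good_close (η : ℝ) (hη : 0 < η) : ∃ ε₀ : ℝ, 0 < ε₀ ∧ ∀ ε : ℝ, 0 < ε → ε ≤ ε₀ →
    ∃ (q : ℂ × ℂ → ℝ) (w : ℂ × ℂ → ℂ) (D : ℂ × ℂ → ℝ) (α β r1 r2 r3 D0 : ℝ),
      Good ε q w D α β r1 r2 r3 D0 ∧ Close η q w D := by
  obtain ⟨q₁, w₁, R, β₁, hR, hq₁, hw₁, hout, hsad, hflat, hw0, hbelow⟩ := hhat
  obtain ⟨C, K, hC, hK, hden⟩ := den_close
  have n1 : ContDiff ℝ ∞ fun ζ : ℂ × ℂ => ‖ζ.1‖ ^ 2 := contDiff_fst.norm_sq ℝ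
  have n2 : ContDiff ℝ ∞ fun ζ : ℂ × ℂ => ‖ζ.2‖ ^ 2 := contDiff_snd.norm_sq ℝ
  have nw : ContDiff ℝ ∞ fun ζ : ℂ × ℂ => 2 * ζ.1 * conj ζ.2 :=
    (contDiff_const.mul contDiff_fst).mul (Complex.conjCLE.contDiff.comp contDiff_snd)
  obtain ⟨Kq, hKq, hcq⟩ := scale_close q₁ (fun ζ => ‖ζ.1‖ ^ 2 - ‖ζ.2‖ ^ 2) hq₁ (n1.sub n2)
    (fun t x => by
      simp only [Prod.smul_fst, Prod.smul_snd, norm_smul, mul_pow, Real.norm_eq_abs, sq_abs,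
        smul_eq_mul]
      ring) R (fun ζ h => (hout ζ h).1)
  obtain ⟨Kw, hKw, hcw⟩ := scale_close w₁ (fun ζ => 2 * ζ.1 * conj ζ.2) hw₁ nw
    (fun t x => by
      simp only [Prod.smul_fst, Prod.smul_snd, Complex.real_smul, map_mul, Complex.conj_ofReal]
      push_cast
      ring) R (fun ζ h => (hout ζ h).2)
  set B : ℝ := Kq + Kw + K + C + 1 with hB
  have hBp : 0 < B := by rw [hB]; linarith
  refine ⟨min (1 / (16 * B)) (η / B), lt_min (by positivity) (by positivity), ?_⟩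
  intro ε hε hε₀
  have hBε : B * ε ≤ 1 / 16 := by
    have h1 := hε₀.trans (min_le_left _ _)
    rw [le_div_iff₀ (by positivity)] at h1
    linarith
  have hBη : B * ε ≤ η := by
    have h1 := hε₀.trans (min_le_right _ _)
    rw [le_div_iff₀ hBp] at h1
    linarith
  have hKε : 0 < K * ε ∧ 0 < Kq * ε ∧ 0 < Kw * ε ∧ 0 < C * ε :=
    ⟨mul_pos hK hε, mul_pos hKq hε, mul_pos hKw hε, mul_pos (by linarith) hε⟩
  have hBe : B * ε = Kq * ε + Kw * ε + K * ε + C * ε + ε := by rw [hB]; ring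
  have hε4 : ε ≤ 1 / 4 := by linarith [hKε.1, hKε.2.1, hKε.2.2.1, hKε.2.2.2]
  have hCε : C * ε ^ 2 ≤ 1 := by
    have h1 : C * ε ≤ 1 := by linarith [hKε.1, hKε.2.1, hKε.2.2.1, hKε.2.2.2]
    nlinarith [hKε.2.2.2]
  obtain ⟨D, D0, hD, hDc⟩ := hden ε hε hε4 hCε
  obtain ⟨t, ht⟩ : ∃ t : ℝ, t = ε / (4 * R) := ⟨_, rfl⟩
  have hRp : 0 < R := by linarith
  have htp : 0 < t := by rw [ht]; positivity
  have htR : t * R = ε / 4 := by
    rw [ht]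
    field_simp
  have hte : t ≤ ε / 4 := by
    rw [← htR]
    nlinarith
  have htn : ∀ x : ℂ, ‖t⁻¹ • x‖ = ‖x‖ / t := by
    intro x
    rw [norm_smul, norm_inv, Real.norm_eq_abs, abs_of_pos htp, inv_mul_eq_div]
  set q : ℂ × ℂ → ℝ := fun ζ => t ^ 2 * q₁ (t⁻¹ • ζ) with hq
  set w : ℂ × ℂ → ℂ := fun ζ => t ^ 2 • w₁ (t⁻¹ • ζ) with hw
  have hsc : ContDiff ℝ ∞ fun ζ : ℂ × ℂ => t⁻¹ • ζ := contDiff_const_smul t⁻¹
  have sq : ContDiff ℝ ∞ q := contDiff_const.mul (hq₁.comp hsc)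
  have sw : ContDiff ℝ ∞ w := (hw₁.comp hsc).const_smul (t ^ 2)
  have hopf : ∀ ζ : ℂ × ℂ, (ε / 4) ^ 2 ≤ ‖ζ.1‖ ^ 2 + ‖ζ.2‖ ^ 2 →
      q ζ = ‖ζ.1‖ ^ 2 - ‖ζ.2‖ ^ 2 ∧ w ζ = 2 * ζ.1 * conj ζ.2 := by
    intro ζ hζ
    have h1 : R ^ 2 ≤ ‖(t⁻¹ • ζ).1‖ ^ 2 + ‖(t⁻¹ • ζ).2‖ ^ 2 := by
      rw [Prod.smul_fst, Prod.smul_snd, htn, htn, div_pow, div_pow, ← add_div, le_div_iff₀ (by positivity)]
      rw [← htR] at hζ
      nlinarith
    obtain ⟨h2, h3⟩ := hout _ h1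
    constructor
    · show t ^ 2 * q₁ (t⁻¹ • ζ) = _
      rw [h2, Prod.smul_fst, Prod.smul_snd, htn, htn]
      field_simp
    · show t ^ 2 • w₁ (t⁻¹ • ζ) = _
      rw [h3, Prod.smul_fst, Prod.smul_snd]
      simp only [Complex.real_smul, map_mul, Complex.conj_ofReal]
      have htc : (t : ℂ) ≠ 0 := by exact_mod_cast htp.ne'
      push_cast
      field_simp
  have hcq' : ∀ x y : ℂ × ℂ, |(q x - (‖x.1‖ ^ 2 - ‖x.2‖ ^ 2)) - (q y - (‖y.1‖ ^ 2 - ‖y.2‖ ^ 2))| ≤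
      Kq * ε * ‖x - y‖ := by
    intro x y
    have h1 := hcq t htp x y
    rw [Real.norm_eq_abs] at h1
    have h2 : Kq * t * ‖x - y‖ ≤ Kq * ε * ‖x - y‖ := by
      apply mul_le_mul_of_nonneg_right _ (norm_nonneg _)
      apply mul_le_mul_of_nonneg_left _ hKq.le
      linarith
    exact h1.trans h2
  have hcw' : ∀ x y : ℂ × ℂ, ‖(w x - 2 * x.1 * conj x.2) - (w y - 2 * y.1 * conj y.2)‖ ≤
      Kw * ε * ‖x - y‖ := by
    intro x y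
    have h1 := hcw t htp x y
    have h2 : Kw * t * ‖x - y‖ ≤ Kw * ε * ‖x - y‖ := by
      apply mul_le_mul_of_nonneg_right _ (norm_nonneg _)
      apply mul_le_mul_of_nonneg_left _ hKw.le
      linarith
    exact h1.trans h2
  have hD4 : 4 ≤ D0 := by
    have h1 := hD.const (0, 0) (by simp; positivity)
    rw [← h1]
    exact hD.ge _
  have hDout : ∀ ζ : ℂ × ℂ, ε ^ 2 ≤ ‖ζ.1‖ ^ 2 + ‖ζ.2‖ ^ 2 → (ε / 4) ^ 2 ≤ ‖ζ.1‖ ^ 2 + ‖ζ.2‖ ^ 2 := by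
    intro ζ h
    nlinarith
  refine ⟨q, w, D, t, t ^ 2 * β₁, 3 / 5 * t, 3 / 4 * t, 1 / 2 * t, D0, ⟨⟨hε, hε4⟩, htp, by positivity,
    by linarith, by positivity, by linarith, sq, sw, hD.smooth, ?_, hD.ge, hD.le, ?_, ?_, ?_, ?_, ?_,
    hD.inj, hD.imm, ?_⟩, ⟨?_, ?_, ?_⟩⟩
  · intro ζ h
    obtain ⟨h1, h2⟩ := hopf ζ (hDout ζ h)
    exact ⟨h1, h2, hD.out ζ h⟩
  · -- small
    intro ζ h
    have hz : ‖ζ - ((1 : ℂ), (0 : ℂ))‖ ≤ 2 := by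
      rw [Prod.norm_def]
      have b1 : ‖ζ.1‖ ≤ 1 := by
        apply le_of_sq_le_sq _ zero_le_one
        nlinarith [sq_nonneg ‖ζ.2‖]
      have b2 : ‖ζ.2‖ ≤ 1 := by
        apply le_of_sq_le_sq _ zero_le_one
        nlinarith [sq_nonneg ‖ζ.1‖]
      apply max_le
      · show ‖ζ.1 - 1‖ ≤ 2
        refine (norm_sub_le _ _).trans ?_
        rw [norm_one]
        linarith
      · show ‖ζ.2 - 0‖ ≤ 2
        rw [sub_zero]
        linarith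
    obtain ⟨g1, g2⟩ := hopf ((1 : ℂ), (0 : ℂ)) (by
      show (ε / 4) ^ 2 ≤ ‖(1 : ℂ)‖ ^ 2 + ‖(0 : ℂ)‖ ^ 2
      rw [norm_one, norm_zero]
      nlinarith)
    have h1 := hcq' ζ ((1 : ℂ), (0 : ℂ))
    have h2 := hcw' ζ ((1 : ℂ), (0 : ℂ))
    rw [g1, sub_self, sub_zero] at h1
    rw [g2, sub_self, sub_zero] at h2
    have h3 : Kq * ε * ‖ζ - ((1 : ℂ), (0 : ℂ))‖ ≤ 1 / 8 := by
      have : Kq * ε ≤ 1 / 16 := by linarith [hKε.1, hKε.2.1, hKε.2.2.1, hKε.2.2.2]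
      nlinarith [hKε.2.1, norm_nonneg (ζ - ((1 : ℂ), (0 : ℂ)))]
    have h4 : Kw * ε * ‖ζ - ((1 : ℂ), (0 : ℂ))‖ ≤ 1 / 8 := by
      have : Kw * ε ≤ 1 / 16 := by linarith [hKε.1, hKε.2.1, hKε.2.2.1, hKε.2.2.2]
      nlinarith [hKε.2.2.1, norm_nonneg (ζ - ((1 : ℂ), (0 : ℂ)))]
    have hε16 : ε ^ 2 ≤ 1 / 16 := by nlinarith
    constructor
    · have h5 : |‖ζ.1‖ ^ 2 - ‖ζ.2‖ ^ 2| ≤ ε ^ 2 := by
        rw [abs_le]
        constructor <;> nlinarith [sq_nonneg ‖ζ.1‖, sq_nonneg ‖ζ.2‖]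
      have h6 : q ζ = (q ζ - (‖ζ.1‖ ^ 2 - ‖ζ.2‖ ^ 2)) + (‖ζ.1‖ ^ 2 - ‖ζ.2‖ ^ 2) := by ring
      rw [h6]
      refine (abs_add_le _ _).trans ?_
      linarith
    · have h5 : ‖2 * ζ.1 * conj ζ.2‖ ≤ ε ^ 2 := by
        rw [norm_mul, norm_mul, RCLike.norm_conj, RCLike.norm_ofNat]
        nlinarith [sq_nonneg (‖ζ.1‖ - ‖ζ.2‖)]
      have h6 : w ζ = (w ζ - 2 * ζ.1 * conj ζ.2) + 2 * ζ.1 * conj ζ.2 := by ring
      rw [h6]
      refine (norm_add_le _ _).trans ?_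
      linarith
  · -- flat
    intro ζ h1 h2 h3
    have e1 : q₁ (t⁻¹ • ζ) = ‖(t⁻¹ • ζ).1‖ + β₁ := by
      apply hflat
      · rw [Prod.smul_fst, htn, le_div_iff₀ htp]
        linarith
      · rw [Prod.smul_fst, htn, div_le_iff₀ htp]
        linarith
      · rw [Prod.smul_snd, htn, div_le_iff₀ htp]
        linarith
    show t ^ 2 * q₁ (t⁻¹ • ζ) = t * ‖ζ.1‖ + t ^ 2 * β₁
    rw [e1, Prod.smul_fst, htn]
    field_simp
  · -- flatw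
    intro ζ h1 h2
    constructor
    · show t ^ 2 • w₁ (t⁻¹ • ζ) = 0
      rw [hw0, smul_zero]
      · rw [Prod.smul_fst, htn, div_le_iff₀ htp]
        linarith
      · rw [Prod.smul_snd, htn, div_le_iff₀ htp]
        linarith
    · apply hD.const
      have b1 := norm_nonneg ζ.1
      have b2 := norm_nonneg ζ.2
      nlinarith
  · -- below
    intro ζ ρ h1 h2 h3 h4
    have e1 : q₁ (t⁻¹ • ζ) < ρ / t + β₁ := by
      apply hbelow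
      · rw [lt_div_iff₀ htp]
        linarith
      · rw [div_le_iff₀ htp]
        linarith
      · rw [Prod.smul_fst, htn]
        exact div_lt_div_of_pos_right h3 htp
      · rw [Prod.smul_snd, htn, div_le_iff₀ htp]
        linarith
    show t ^ 2 * q₁ (t⁻¹ • ζ) < t * ρ + t ^ 2 * β₁
    have e2 := mul_lt_mul_of_pos_left e1 (show 0 < t ^ 2 by positivity)
    have e3 : t ^ 2 * (ρ / t + β₁) = t * ρ + t ^ 2 * β₁ := by
      field_simp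
    rwa [e3] at e2
  · -- inside
    nlinarith
  · -- saddles
    intro l e e' p hp hc
    by_cases h1 : ε ^ 2 < ‖p.1‖ ^ 2 + ‖p.2‖ ^ 2
    · have hev : (fun ζ => (l ζ + e * q ζ + (conj e' * w ζ).re) / D ζ) =ᶠ[nhds p]
          (fun ζ : ℂ × ℂ => (l ζ + e * (‖ζ.1‖ ^ 2 - ‖ζ.2‖ ^ 2) +
            (conj e' * (2 * ζ.1 * conj ζ.2)).re) / (4 + ‖ζ.1‖ ^ 2 + ‖ζ.2‖ ^ 2)) := by
        have ho : IsOpen {ζ : ℂ × ℂ | ε ^ 2 < ‖ζ.1‖ ^ 2 + ‖ζ.2‖ ^ 2} :=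
          isOpen_lt continuous_const (n1.continuous.add n2.continuous)
        filter_upwards [ho.mem_nhds h1] with ζ hζ
        have hζ' : ε ^ 2 ≤ ‖ζ.1‖ ^ 2 + ‖ζ.2‖ ^ 2 := le_of_lt hζ
        obtain ⟨g1, g2⟩ := hopf ζ (hDout ζ hζ')
        rw [g1, g2, hD.out ζ hζ']
      exact sadCrit_congr' (sad_hopf l e e' p hp ((hess_congr hev).1.1 hc)) hev.symm
    · rw [not_lt] at h1
      by_cases h2 : (ε / 4) ^ 2 < ‖p.1‖ ^ 2 + ‖p.2‖ ^ 2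
      · apply sad_ann hC hε hCε hD l e e' p h1 _ hc
        have ho : IsOpen {ζ : ℂ × ℂ | (ε / 4) ^ 2 < ‖ζ.1‖ ^ 2 + ‖ζ.2‖ ^ 2} :=
          isOpen_lt continuous_const (n1.continuous.add n2.continuous)
        filter_upwards [ho.mem_nhds h2] with ζ hζ
        exact hopf ζ (le_of_lt hζ)
      · rw [not_lt] at h2
        have hD0 : 0 < D0 := by linarith
        apply sad_const hD0 sq sw l e e' p _ _ hc
        · have ho : IsOpen {ζ : ℂ × ℂ | ‖ζ.1‖ ^ 2 + ‖ζ.2‖ ^ 2 < (ε / 2) ^ 2} :=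
            isOpen_lt (n1.continuous.add n2.continuous) continuous_const
          have h3 : p ∈ {ζ : ℂ × ℂ | ‖ζ.1‖ ^ 2 + ‖ζ.2‖ ^ 2 < (ε / 2) ^ 2} := by
            show ‖p.1‖ ^ 2 + ‖p.2‖ ^ 2 < (ε / 2) ^ 2
            nlinarith
          filter_upwards [ho.mem_nhds h3] with ζ hζ
          exact hD.const ζ (le_of_lt hζ)
        · have hs := hsad e e' (t⁻¹ • p)
          have hN : ContDiff ℝ ∞ fun ζ => e * q₁ ζ + (conj e' * w₁ ζ).re :=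
            (contDiff_const.mul hq₁).add (Complex.reCLM.contDiff.comp (contDiff_const.mul hw₁))
          have h3 := saddle_scale htp hN hs
          have e1 : (fun ζ => t ^ 2 * (e * q₁ (t⁻¹ • ζ) + (conj e' * w₁ (t⁻¹ • ζ)).re)) =
              fun ζ => e * q ζ + (conj e' * w ζ).re := by
            funext ζ
            show t ^ 2 * (e * q₁ (t⁻¹ • ζ) + (conj e' * w₁ (t⁻¹ • ζ)).re) =
              e * (t ^ 2 * q₁ (t⁻¹ • ζ)) + (conj e' * (t ^ 2 • w₁ (t⁻¹ • ζ))).re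
            rw [mul_smul_comm, Complex.real_smul, Complex.re_ofReal_mul]
            ring
          rw [e1] at h3
          exact h3
  · intro x y
    refine (hcq' x y).trans ?_
    apply mul_le_mul_of_nonneg_right _ (norm_nonneg _)
    linarith [hKε.1, hKε.2.1, hKε.2.2.1, hKε.2.2.2]
  · intro x y
    refine (hcw' x y).trans ?_
    apply mul_le_mul_of_nonneg_right _ (norm_nonneg _)
    linarith [hKε.1, hKε.2.1, hKε.2.2.1, hKε.2.2.2]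
  · intro x y
    refine (hDc x y).trans ?_
    apply mul_le_mul_of_nonneg_right _ (norm_nonneg _)
    linarith [hKε.1, hKε.2.1, hKε.2.2.1, hKε.2.2.2]

end Pool.Agent.H63.TV
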