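import Mathlib

/-!
# Tight handles on the projected Veronese embedding: definitions (project TV)

`C3` carries homogeneous coordinates of `CP^2`; a map on `CP^2` is a map on `C3`, invariant under
multiplication by nonzero complex numbers.  A point of `B^2 x S^2` is a pair `(u, v)` with `u` in
`C` and `v` in `R^3 = R x C`, and a map on `B^2 x S^2` is a map which is invariant under
`v ↦ t v`, `t > 0`.
-/

open scoped ContDiff ComplexConjugate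

namespace Pool.Agent.H63.TV

noncomputable section

/-- `E^7`, with coordinates in `ℝ × ℂ × ℂ × ℂ` -/
abbrev E7 := ℝ × ℂ × ℂ × ℂ

/-- homogeneous coordinates -/
abbrev C3 := Fin 3 → ℂ

/-- `ℝ^3` -/
abbrev R3 := ℝ × ℂ

/-- the Euclidean inner product of `E^7` -/
def ht (ξ y : E7) : ℝ :=
  ξ.1 * y.1 + (conj ξ.2.1 * y.2.1).re + (conj ξ.2.2.1 * y.2.2.1).re +
    (conj ξ.2.2.2 * y.2.2.2).re

/-- the Euclidean length in `ℝ^3` -/
def len (x : R3) : ℝ := Real.sqrt (x.1 ^ 2 + ‖x.2‖ ^ 2)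

/-- the projected Veronese embedding: stereographic projection of the Veronese-type embedding
from the point `(-1/3, 2/3, 2/3, 0, 0, 0)` -/
def ver (z : C3) : E7 :=
  (((Real.sqrt 2 * (‖z 1‖ ^ 2 - ‖z 2‖ ^ 2)) / (4 * ‖z 0‖ ^ 2 + ‖z 1‖ ^ 2 + ‖z 2‖ ^ 2) : ℝ),
   ((2 * Real.sqrt 2 / (4 * ‖z 0‖ ^ 2 + ‖z 1‖ ^ 2 + ‖z 2‖ ^ 2) : ℝ) : ℂ) * (z 0 * conj (z 1)),
   ((2 * Real.sqrt 2 / (4 * ‖z 0‖ ^ 2 + ‖z 1‖ ^ 2 + ‖z 2‖ ^ 2) : ℝ) : ℂ) * (z 1 * conj (z 2)),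
   ((2 * Real.sqrt 2 / (4 * ‖z 0‖ ^ 2 + ‖z 1‖ ^ 2 + ‖z 2‖ ^ 2) : ℝ) : ℂ) * (z 2 * conj (z 0)))

variable {E : Type*} [NormedAddCommGroup E] [NormedSpace ℝ E]

/-- `p` is a critical point of `F` -/
def Crit (F : E → ℝ) (p : E) : Prop := fderiv ℝ F p = 0

/-- the second derivative -/
def hess (F : E → ℝ) (p : E) : E →L[ℝ] E →L[ℝ] ℝ := fderiv ℝ (fderiv ℝ F) p

/-- the maximal dimension of a subspace on which the quadratic form of `B` is negative definite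
is `m` -/
def HasIdx (B : E →L[ℝ] E →L[ℝ] ℝ) (m : ℕ) : Prop :=
  (∃ W : Submodule ℝ E, Module.finrank ℝ W = m ∧ ∀ w ∈ W, w ≠ 0 → B w w < 0) ∧
    ∀ W : Submodule ℝ E, (∀ w ∈ W, w ≠ 0 → B w w < 0) → Module.finrank ℝ W ≤ m

/-- the solid torus with parameters `r, s, c`: the point with parameters `a` (in the unit circle) and
`x` (in the ball of radius `2` of `ℝ^3`) -/
def tube (r s : ℝ) (c a : ℂ) (x : R3) : C3 :=
  ![((1 + s * x.1 : ℝ) : ℂ), (r : ℂ) * a, c + (s : ℂ) * x.2]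

/-- `z` (a point of `CP^2`) does not lie in one of the closed solid tori of radius `1` -/
def Out (k : ℕ) (r s : ℝ) (c : Fin k → ℂ) (z : C3) : Prop :=
  z ≠ 0 ∧ ∀ (i : Fin k) (a : ℂ) (x : R3) (μ : ℂ), ‖a‖ = 1 → len x ≤ 1 → z ≠ μ • tube r s (c i) a x

/-- the height function in direction `ξ` of the map given by `g` and `G` has no degenerate
critical point -/
def Morse (k : ℕ) (r s : ℝ) (c : Fin k → ℂ) (g : C3 → E7) (G : Fin k → ℂ × R3 → E7) (ξ : E7) :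
    Prop :=
  (∀ z, Out k r s c z → Crit (fun y => ht ξ (g y)) z →
    ∀ v, (∀ w, hess (fun y => ht ξ (g y)) z v w = 0) → ∃ μ : ℂ, v = μ • z) ∧
  (∀ i, ∀ p : ℂ × R3, ‖p.1‖ < 2 → p.2 ≠ 0 → Crit (fun y => ht ξ (G i y)) p →
    ∀ v, (∀ w, hess (fun y => ht ξ (G i y)) p v w = 0) → ∃ t : ℝ, v = (0, t • p.2))

/-- the images of the critical points of index `m` of the height function in direction `ξ` -/
def CritSet (k : ℕ) (r s : ℝ) (c : Fin k → ℂ) (g : C3 → E7) (G : Fin k → ℂ × R3 → E7) (ξ : E7)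
    (m : ℕ) : Set E7 :=
  {y | (∃ z, Out k r s c z ∧ Crit (fun y => ht ξ (g y)) z ∧
      HasIdx (hess (fun y => ht ξ (g y)) z) m ∧ g z = y) ∨
    (∃ i, ∃ p : ℂ × R3, ‖p.1‖ < 2 ∧ p.2 ≠ 0 ∧ Crit (fun y => ht ξ (G i y)) p ∧
      HasIdx (hess (fun y => ht ξ (G i y)) p) m ∧ G i p = y)}

/-- `g` on `CP^2` minus `k` closed solid tori and `G i` on `B^2 x S^2` fit together to a smooth
embedding in `E^7` of the manifold `M_k` which arises from `CP^2` by attaching `k` handles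
`S^2 x S^2` (surgery along the `k` solid tori) -/
structure SmoothEmb (k : ℕ) (r s : ℝ) (c : Fin k → ℂ) (g : C3 → E7) (G : Fin k → ℂ × R3 → E7) :
    Prop where
  hom_g : ∀ (μ : ℂ) (z : C3), μ ≠ 0 → g (μ • z) = g z
  hom_G : ∀ (i : Fin k) (u : ℂ) (v : R3) (t : ℝ), 0 < t → G i (u, t • v) = G i (u, v)
  smooth_g : ContDiffOn ℝ ∞ g {z | Out k r s c z}
  smooth_G : ∀ i, ContDiffOn ℝ ∞ (G i) {p : ℂ × R3 | ‖p.1‖ < 2 ∧ p.2 ≠ 0}
  glue : ∀ (i : Fin k) (u : ℂ) (v : R3), 1 < ‖u‖ → ‖u‖ < 2 → len v = 1 →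
    G i (u, v) = g (tube r s (c i) (u / (‖u‖ : ℂ)) (‖u‖ • v))
  inj_g : ∀ z z', Out k r s c z → Out k r s c z' → g z = g z' → ∃ μ : ℂ, z' = μ • z
  inj_G : ∀ (i j : Fin k) (u u' : ℂ) (v v' : R3), ‖u‖ ≤ 1 → ‖u'‖ ≤ 1 → len v = 1 → len v' = 1 →
    G i (u, v) = G j (u', v') → i = j ∧ u = u' ∧ v = v'
  inj_gG : ∀ (z : C3) (i : Fin k) (u : ℂ) (v : R3), Out k r s c z → ‖u‖ ≤ 1 → len v = 1 →
    g z ≠ G i (u, v)
  imm_g : ∀ z, Out k r s c z → ∀ w, fderiv ℝ g z w = 0 → ∃ μ : ℂ, w = μ • z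
  imm_G : ∀ (i : Fin k) (p : ℂ × R3), ‖p.1‖ < 2 → p.2 ≠ 0 → ∀ w, fderiv ℝ (G i) p w = 0 →
    ∃ t : ℝ, w = (0, t • p.2)

/-- tightness: every nondegenerate height function has one minimum, one maximum, `χ - 2 = 1 + 2k`
critical points of index `2` and no other critical points -/
def Tight (k : ℕ) (r s : ℝ) (c : Fin k → ℂ) (g : C3 → E7) (G : Fin k → ℂ × R3 → E7) : Prop :=
  ∀ ξ : E7, ξ ≠ 0 → Morse k r s c g G ξ →
    (CritSet k r s c g G ξ 0).ncard = 1 ∧ (CritSet k r s c g G ξ 4).ncard = 1 ∧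
    (CritSet k r s c g G ξ 2).ncard = 1 + 2 * k ∧
    ∀ m, m ≠ 0 → m ≠ 2 → m ≠ 4 → CritSet k r s c g G ξ m = ∅

end

end Pool.Agent.H63.TV
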