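import Pool.Agent.H78.DT.NullLag

/-!
# TV-21: counting zeros by the degree

`deg_maps`.  The zeros of `u` in `closedBall 0 R'` are isolated (inverse function theorem, `det ≠ 0`), so finite in number (compactness);
same for `v`.  Choose `R < R'' < R'` such that no zero of `u` or `v` has norm `R''`.  Let `x₁, …, x_a` be the zeros of `u` in the open
ball of radius `R''`, and `U_i` pairwise disjoint open neighbourhoods inside this ball on which `u` is injective
(`HasStrictFDerivAt.toOpenPartialHomeomorph`) with `det Du > 0`; `u '' U_i` is an open neighbourhood of `0`.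
There is `c > 0` with `‖u x‖ > c` on `closedBall 0 R'' \ ⋃ U_i` and `closedBall 0 c ⊆ u '' U_i` for all `i`; the same for `v` (take the smaller `c`).
Let `g t = Real.smoothTransition ((t / c + 1) / 2)`, smooth, monotone, constant for `t ≤ -c` and for `t ≥ c`, from `0` to `1`, and
`Ψ y = fun j => g (y j)`, `φ y = ∏ j, deriv g (y j)`: `det D (Ψ ∘ u) x = φ (u x) det Du x`, `φ ≥ 0`, `φ = 0` outside `closedBall 0 c`
(sup norm).  `∫ φ = I > 0` (`= 1`, or: continuous, nonnegative, positive somewhere because `g` is not constant).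
`null_lag N (Ψ ∘ v) (Ψ ∘ u)` with `R, R''`: the integrals over `closedBall 0 R''` of `φ (u x) det Du x` and of `φ (v x) det Dv x` are equal.
The first one is `∑ i, ∫_{U_i} φ (u x) |det Du x| = ∑ i, ∫_{u '' U_i} φ = a I`
(`MeasureTheory.integral_image_eq_integral_abs_det_fderiv_smul`), the second one `b I`.  So `a = b`.
The zeros with `R < ‖x‖ < R''` are the same for `u` and `v`; subtract them.
-/

open MeasureTheory Set Metric
open scoped ContDiff

namespace Pool.Agent.H63.TV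

/-- local injectivity and image of a neighbourhood -/
theorem dega_loc (N : ℕ) (u : (Fin N → ℝ) → (Fin N → ℝ)) (hu : ContDiff ℝ ∞ u)
    (z : Fin N → ℝ) (hz : u z = 0) (hd : 0 < (fderiv ℝ u z).det) :
    ∃ V : Set (Fin N → ℝ), IsOpen V ∧ z ∈ V ∧ InjOn u V ∧
      (∀ x ∈ V, 0 < (fderiv ℝ u x).det) ∧
      ∀ W : Set (Fin N → ℝ), IsOpen W → z ∈ W → u '' W ∈ nhds (0 : Fin N → ℝ) := by
  have hs : HasStrictFDerivAt u (fderiv ℝ u z) z := hu.hasStrictFDerivAt (by simp)
  have hs' : HasStrictFDerivAt u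
      (((fderiv ℝ u z).toContinuousLinearEquivOfDetNeZero hd.ne' :
        (Fin N → ℝ) ≃L[ℝ] (Fin N → ℝ)) : (Fin N → ℝ) →L[ℝ] (Fin N → ℝ)) z := by
    rw [ContinuousLinearMap.coe_toContinuousLinearEquivOfDetNeZero]
    exact hs
  have hcont : Continuous (fun x => (fderiv ℝ u x).det) :=
    ContinuousLinearMap.continuous_det.comp (hu.continuous_fderiv (by simp))
  refine ⟨(hs'.toOpenPartialHomeomorph u).source ∩ {x | 0 < (fderiv ℝ u x).det}, ?_, ?_, ?_, ?_, ?_⟩
  · exact (hs'.toOpenPartialHomeomorph u).open_source.inter (isOpen_lt continuous_const hcont)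
  · exact ⟨hs'.mem_toOpenPartialHomeomorph_source, hd⟩
  · intro x hx y hy hxy
    exact (hs'.toOpenPartialHomeomorph u).injOn hx.1 hy.1 hxy
  · intro x hx
    exact hx.2
  · intro W hW hzW
    have h1 := hs'.map_nhds_eq_of_equiv
    rw [hz] at h1
    rw [← h1, Filter.mem_map]
    exact Filter.mem_of_superset (hW.mem_nhds hzW) (subset_preimage_image u W)

theorem dega_finite (N : ℕ) (u : (Fin N → ℝ) → (Fin N → ℝ)) (hu : ContDiff ℝ ∞ u) (ρ : ℝ)
    (h0 : ∀ x, ‖x‖ ≤ ρ → u x = 0 → 0 < (fderiv ℝ u x).det) :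
    {x | ‖x‖ ≤ ρ ∧ u x = 0}.Finite := by
  have hcl : IsCompact {x : Fin N → ℝ | ‖x‖ ≤ ρ ∧ u x = 0} := by
    have h1 : {x : Fin N → ℝ | ‖x‖ ≤ ρ ∧ u x = 0} = closedBall 0 ρ ∩ u ⁻¹' {0} := by
      ext x
      simp
    rw [h1]
    exact (isCompact_closedBall _ _).inter_right (isClosed_singleton.preimage hu.continuous)
  have hloc : ∀ z ∈ {x : Fin N → ℝ | ‖x‖ ≤ ρ ∧ u x = 0}, ∃ V : Set (Fin N → ℝ), IsOpen V ∧ z ∈ V ∧
      InjOn u V := by
    intro z hz
    obtain ⟨V, h1, h2, h3, _⟩ := dega_loc N u hu z hz.2 (h0 z hz.1 hz.2)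
    exact ⟨V, h1, h2, h3⟩
  choose! V hV using hloc
  obtain ⟨t, ht⟩ := hcl.elim_nhds_subcover' (fun z _ => V z)
    (fun z hz => (hV z hz).1.mem_nhds (hV z hz).2.1)
  apply (t.finite_toSet.image (fun z : {x : Fin N → ℝ | ‖x‖ ≤ ρ ∧ u x = 0} => (z : Fin N → ℝ))).subset
  intro x hx
  have h2 := ht hx
  simp only [mem_iUnion] at h2
  obtain ⟨z, hz, hxz⟩ := h2
  refine ⟨z, hz, ?_⟩
  have hz' : (z : Fin N → ℝ) ∈ {x : Fin N → ℝ | ‖x‖ ≤ ρ ∧ u x = 0} := z.2
  exact (hV z hz').2.2 (hV z hz').2.1 hxz (hz'.2.trans hx.2.symm)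

theorem dega_count (N : ℕ) (u : (Fin N → ℝ) → (Fin N → ℝ)) (hu : ContDiff ℝ ∞ u) (ρ : ℝ)
    (h0 : ∀ x, ‖x‖ ≤ ρ → u x = 0 → 0 < (fderiv ℝ u x).det)
    (hρ : ∀ x, ‖x‖ = ρ → u x ≠ 0) :
    ∃ c₀ : ℝ, 0 < c₀ ∧ ∀ c : ℝ, 0 < c → c ≤ c₀ → ∀ φ : (Fin N → ℝ) → ℝ, Continuous φ →
      (∀ y, c ≤ ‖y‖ → φ y = 0) →
      ∫ x in closedBall (0 : Fin N → ℝ) ρ, φ (u x) * (fderiv ℝ u x).det =
        ({x | ‖x‖ ≤ ρ ∧ u x = 0}.ncard : ℝ) * ∫ y, φ y := by
  have hfin := dega_finite N u hu ρ h0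
  set Z := hfin.toFinset with hZ
  have hmem : ∀ z, z ∈ Z ↔ ‖z‖ ≤ ρ ∧ u z = 0 := by
    intro z
    rw [hZ, Finite.mem_toFinset]
    rfl
  have hloc : ∀ z ∈ {x : Fin N → ℝ | ‖x‖ ≤ ρ ∧ u x = 0}, ∃ V : Set (Fin N → ℝ), IsOpen V ∧ z ∈ V ∧
      InjOn u V ∧ (∀ x ∈ V, 0 < (fderiv ℝ u x).det) ∧
      ∀ W : Set (Fin N → ℝ), IsOpen W → z ∈ W → u '' W ∈ nhds (0 : Fin N → ℝ) :=
    fun z hz => dega_loc N u hu z hz.2 (h0 z hz.1 hz.2)
  choose! V hV using hloc
  obtain ⟨W, hW, hWd⟩ := hfin.t2_separation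
  set U : (Fin N → ℝ) → Set (Fin N → ℝ) := fun z => V z ∩ W z ∩ ball 0 ρ with hU
  have hUo : ∀ z ∈ Z, IsOpen (U z) := fun z hz =>
    ((hV z ((hmem z).1 hz)).1.inter (hW z).2).inter isOpen_ball
  have hUz : ∀ z ∈ Z, z ∈ U z := by
    intro z hz
    have h1 := (hmem z).1 hz
    refine ⟨⟨(hV z h1).2.1, (hW z).1⟩, ?_⟩
    rw [mem_ball_zero_iff]
    exact lt_of_le_of_ne h1.1 fun h => hρ z h h1.2
  -- the images
  have himg : ∀ z ∈ Z, ∃ ε > 0, ball (0 : Fin N → ℝ) ε ⊆ u '' (U z) := by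
    intro z hz
    have h1 := (hV z ((hmem z).1 hz)).2.2.2.2 (U z) (hUo z hz) (hUz z hz)
    exact Metric.mem_nhds_iff.1 h1
  -- lower bound outside
  have hout : ∃ c₁ : ℝ, 0 < c₁ ∧ ∀ x ∈ closedBall (0 : Fin N → ℝ) ρ \ ⋃ z ∈ Z, U z, c₁ ≤ ‖u x‖ := by
    have hK : IsCompact (closedBall (0 : Fin N → ℝ) ρ \ ⋃ z ∈ Z, U z) :=
      (isCompact_closedBall _ _).diff (isOpen_biUnion hUo)
    rcases (closedBall (0 : Fin N → ℝ) ρ \ ⋃ z ∈ Z, U z).eq_empty_or_nonempty with he | hne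
    · refine ⟨1, one_pos, ?_⟩
      intro x hx
      rw [he] at hx
      exact absurd hx (notMem_empty x)
    · obtain ⟨x₀, hx₀, hmin⟩ := hK.exists_isMinOn hne hu.continuous.norm.continuousOn
      refine ⟨‖u x₀‖, ?_, fun x hx => hmin hx⟩
      rw [norm_pos_iff]
      intro h
      apply hx₀.2
      simp only [mem_iUnion]
      have h2 : x₀ ∈ Z := (hmem x₀).2 ⟨by simpa using hx₀.1, h⟩
      exact ⟨x₀, h2, hUz x₀ h2⟩
  obtain ⟨c₁, hc₁, hc₁'⟩ := hout
  -- common radius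
  have hcom : ∃ c₂ : ℝ, 0 < c₂ ∧ ∀ z ∈ Z, ball (0 : Fin N → ℝ) c₂ ⊆ u '' (U z) := by
    choose! ε hε hε' using himg
    rcases Z.eq_empty_or_nonempty with he | hne
    · exact ⟨1, one_pos, fun z hz => by rw [he] at hz; exact absurd hz (Finset.notMem_empty z)⟩
    · obtain ⟨z₀, hz₀, hmin⟩ := Finset.exists_min_image Z ε hne
      exact ⟨ε z₀, hε z₀ hz₀, fun z hz => (ball_subset_ball (hmin z hz)).trans (hε' z hz)⟩
  obtain ⟨c₂, hc₂, hc₂'⟩ := hcom
  refine ⟨min c₁ c₂, lt_min hc₁ hc₂, ?_⟩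
  intro c hc hcc φ hφ hφ0
  have hcont : Continuous (fun x => φ (u x) * (fderiv ℝ u x).det) :=
    (hφ.comp hu.continuous).mul
      (ContinuousLinearMap.continuous_det.comp (hu.continuous_fderiv (by simp)))
  have hsub : (⋃ z ∈ Z, U z) ⊆ closedBall (0 : Fin N → ℝ) ρ := by
    apply iUnion₂_subset
    intro z _
    exact fun x hx => ball_subset_closedBall hx.2
  rw [MeasureTheory.setIntegral_eq_of_subset_of_forall_sdiff_eq_zero measurableSet_closedBall hsub]
  · rw [integral_biUnion_finset Z (fun z hz => (hUo z hz).measurableSet)]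
    · have hterm : ∀ z ∈ Z, ∫ x in U z, φ (u x) * (fderiv ℝ u x).det = ∫ y, φ y := by
        intro z hz
        have h1 := (hmem z).1 hz
        have hinj : InjOn u (U z) := (hV z h1).2.2.1.mono (fun x hx => hx.1.1)
        have h2 := integral_image_eq_integral_abs_det_fderiv_smul (volume : Measure (Fin N → ℝ))
          (hUo z hz).measurableSet
          (fun x _ => ((hu.differentiable (by simp)).differentiableAt (x := x)).hasFDerivAt.hasFDerivWithinAt)
          hinj φ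
        have h3 : ∫ y in u '' (U z), φ y = ∫ y, φ y := by
          apply MeasureTheory.setIntegral_eq_integral_of_forall_compl_eq_zero
          intro y hy
          apply hφ0
          by_contra hlt
          push Not at hlt
          apply hy
          apply hc₂' z hz
          rw [mem_ball_zero_iff]
          exact hlt.trans_le (hcc.trans (min_le_right _ _))
        rw [← h3, h2]
        apply setIntegral_congr_fun (hUo z hz).measurableSet
        intro x hx
        have h4 := (hV z h1).2.2.2.1 x hx.1.1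
        simp only [smul_eq_mul]
        rw [abs_of_pos h4, mul_comm]
      rw [Finset.sum_congr rfl hterm, Finset.sum_const, nsmul_eq_mul]
      congr 1
      rw [hZ, ← Set.ncard_eq_toFinset_card _ hfin]
    · intro z hz z' hz' hne
      have h1 := hWd ((hmem z).1 (Finset.mem_coe.1 hz)) ((hmem z').1 (Finset.mem_coe.1 hz')) hne
      apply Disjoint.mono _ _ h1
      · exact fun x hx => hx.1.2
      · exact fun x hx => hx.1.2
    · intro z _
      apply IntegrableOn.mono_set (hcont.continuousOn.integrableOn_compact (isCompact_closedBall (0 : Fin N → ℝ) ρ))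
      exact fun x hx => ball_subset_closedBall hx.2
  · intro x hx
    rw [hφ0 (u x) ((hcc.trans (min_le_left _ _)).trans (hc₁' x hx)), zero_mul]

/-- the cut off function of one variable -/
theorem dega_g (c : ℝ) (hc : 0 < c) : ∃ g : ℝ → ℝ, ContDiff ℝ ∞ g ∧
    (∀ t, c ≤ |t| → deriv g t = 0) ∧ ∫ t, deriv g t = 1 := by
  set g : ℝ → ℝ := fun t => Real.smoothTransition ((2 * t / c + 1) / 2) with hg
  have hgs : ContDiff ℝ ∞ g := by
    apply Real.smoothTransition.contDiff.comp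
    fun_prop
  have hone : ∀ t, c / 2 ≤ t → g t = 1 := by
    intro t ht
    apply Real.smoothTransition.one_of_one_le
    have : 1 ≤ 2 * t / c := by
      rw [le_div_iff₀ hc]
      linarith
    linarith
  have hzero : ∀ t, t ≤ -(c / 2) → g t = 0 := by
    intro t ht
    apply Real.smoothTransition.zero_of_nonpos
    have : 2 * t / c ≤ -1 := by
      rw [div_le_iff₀ hc]
      linarith
    linarith
  have hd : ∀ t, c ≤ |t| → deriv g t = 0 := by
    intro t ht
    rcases le_abs.1 ht with h | h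
    · have h1 : g =ᶠ[nhds t] fun _ => 1 := by
        filter_upwards [lt_mem_nhds (show c / 2 < t by linarith)] with s hs
        exact hone s hs.le
      rw [h1.deriv_eq, deriv_const]
    · have h1 : g =ᶠ[nhds t] fun _ => 0 := by
        filter_upwards [gt_mem_nhds (show t < -(c / 2) by linarith)] with s hs
        exact hzero s hs.le
      rw [h1.deriv_eq, deriv_const]
  refine ⟨g, hgs, hd, ?_⟩
  have hcd : Continuous (deriv g) := hgs.continuous_deriv (by simp)
  have hcs : HasCompactSupport (deriv g) := by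
    apply HasCompactSupport.of_support_subset_isCompact (isCompact_Icc (a := -c) (b := c))
    intro t ht
    rw [Function.mem_support] at ht
    by_contra hh
    apply ht
    apply hd
    by_contra h2
    push Not at h2
    apply hh
    rw [abs_lt] at h2
    exact ⟨h2.1.le, h2.2.le⟩
  have h := integral_of_hasDerivAt_of_tendsto (f := g) (f' := deriv g) (m := 0) (n := 1)
    (fun x => ((hgs.differentiable (by simp)).differentiableAt).hasDerivAt)
    (hcd.integrable_of_hasCompactSupport hcs)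
    (tendsto_const_nhds.congr' (by
      filter_upwards [Filter.eventually_le_atBot (-(c / 2))] with t ht
      exact (hzero t ht).symm))
    (tendsto_const_nhds.congr' (by
      filter_upwards [Filter.eventually_ge_atTop (c / 2)] with t ht
      exact (hone t ht).symm))
  rw [h]
  norm_num

theorem dega_det (N : ℕ) (g : ℝ → ℝ) (hg : ContDiff ℝ ∞ g) (u : (Fin N → ℝ) → (Fin N → ℝ))
    (hu : ContDiff ℝ ∞ u) (x : Fin N → ℝ) :
    (fderiv ℝ (fun x => fun j => g (u x j)) x).det =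
      (∏ j, deriv g (u x j)) * (fderiv ℝ u x).det := by
  have hux : HasFDerivAt u (fderiv ℝ u x) x :=
    ((hu.differentiable (by simp)).differentiableAt).hasFDerivAt
  have hΨ : HasFDerivAt (fun y : Fin N → ℝ => fun j => g (y j))
      (ContinuousLinearMap.pi fun j => (deriv g (u x j)) •
        (ContinuousLinearMap.proj (R := ℝ) (φ := fun _ : Fin N => ℝ) j)) (u x) := by
    rw [hasFDerivAt_pi]
    intro j
    have h1 : HasDerivAt g (deriv g (u x j)) (u x j) :=
      ((hg.differentiable (by simp)).differentiableAt).hasDerivAt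
    exact h1.comp_hasFDerivAt (u x) (ContinuousLinearMap.proj (R := ℝ) (φ := fun _ : Fin N => ℝ) j).hasFDerivAt
  have hcomp := hΨ.comp x hux
  have hfd : fderiv ℝ (fun x => fun j => g (u x j)) x =
      (ContinuousLinearMap.pi fun j => (deriv g (u x j)) •
        (ContinuousLinearMap.proj (R := ℝ) (φ := fun _ : Fin N => ℝ) j)).comp
        (fderiv ℝ u x) := hcomp.fderiv
  rw [hfd, ContinuousLinearMap.det, ContinuousLinearMap.toLinearMap_comp, LinearMap.det_comp]
  congr 1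
  rw [← LinearMap.det_toMatrix', ← Matrix.det_diagonal]
  congr 1
  ext i j
  rw [LinearMap.toMatrix'_apply, Matrix.diagonal_apply]
  simp [Pi.single_apply]

theorem deg_maps (N : ℕ) (u v : (Fin N → ℝ) → (Fin N → ℝ)) (hu : ContDiff ℝ ∞ u)
    (hv : ContDiff ℝ ∞ v) (R R' : ℝ) (hR : 0 < R) (hRR' : R < R')
    (heq : ∀ x, R ≤ ‖x‖ → u x = v x)
    (h0 : ∀ x, ‖x‖ ≤ R' → u x = 0 → 0 < (fderiv ℝ u x).det)
    (h1 : ∀ x, ‖x‖ ≤ R' → v x = 0 → 0 < (fderiv ℝ v x).det) :
    {x | ‖x‖ ≤ R ∧ u x = 0}.Finite ∧ {x | ‖x‖ ≤ R ∧ v x = 0}.Finite ∧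
      {x | ‖x‖ ≤ R ∧ u x = 0}.ncard = {x | ‖x‖ ≤ R ∧ v x = 0}.ncard := by
  have hfu := dega_finite N u hu R' h0
  have hfv := dega_finite N v hv R' h1
  obtain ⟨ρ, hρ, hρ'⟩ : ∃ ρ ∈ Ioo R R', ρ ∉ (norm '' {x | ‖x‖ ≤ R' ∧ u x = 0}) ∪
      (norm '' {x | ‖x‖ ≤ R' ∧ v x = 0}) := by
    have hinf := Ioo_infinite hRR'
    obtain ⟨ρ, h2, h3⟩ := hinf.exists_notMem_finite ((hfu.image norm).union (hfv.image norm))
    exact ⟨ρ, h2, h3⟩
  have hρu : ∀ x, ‖x‖ = ρ → u x ≠ 0 := by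
    intro x hx h
    exact hρ' (Or.inl ⟨x, ⟨by rw [hx]; exact hρ.2.le, h⟩, hx⟩)
  have hρv : ∀ x, ‖x‖ = ρ → v x ≠ 0 := by
    intro x hx h
    exact hρ' (Or.inr ⟨x, ⟨by rw [hx]; exact hρ.2.le, h⟩, hx⟩)
  obtain ⟨cu, hcu, hcu'⟩ := dega_count N u hu ρ (fun x hx => h0 x (hx.trans hρ.2.le)) hρu
  obtain ⟨cv, hcv, hcv'⟩ := dega_count N v hv ρ (fun x hx => h1 x (hx.trans hρ.2.le)) hρv
  obtain ⟨g, hg, hg0, hgI⟩ := dega_g (min cu cv) (lt_min hcu hcv)
  set φ : (Fin N → ℝ) → ℝ := fun y => ∏ j, deriv g (y j) with hφ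
  have hφc : Continuous φ := by
    apply continuous_finsetProd
    intro j _
    exact (hg.continuous_deriv (by simp)).comp (continuous_apply j)
  have hφ0 : ∀ y, min cu cv ≤ ‖y‖ → φ y = 0 := by
    intro y hy
    by_contra hne
    have h2 : ∀ j, ‖y j‖ < min cu cv := by
      intro j
      by_contra hj
      push Not at hj
      apply hne
      apply Finset.prod_eq_zero (Finset.mem_univ j)
      exact hg0 _ hj
    have h3 := (pi_norm_lt_iff (lt_min hcu hcv)).2 h2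
    linarith
  have hφI : ∫ y, φ y = 1 := by
    rw [hφ, integral_fintype_prod_volume_eq_prod (fun _ => deriv g)]
    simp [hgI]
  have hNL := DT.null_lag N (fun x => fun j => g (u x j)) (fun x => fun j => g (v x j))
    (by
      rw [contDiff_pi]
      intro j
      exact hg.comp ((contDiff_pi.1 hu) j))
    (by
      rw [contDiff_pi]
      intro j
      exact hg.comp ((contDiff_pi.1 hv) j))
    R ρ hρ.1 (by
      intro x hx
      rw [heq x hx])
  have e1 : ∫ x in closedBall (0 : Fin N → ℝ) ρ, (fderiv ℝ (fun x => fun j => g (u x j)) x).det =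
      ∫ x in closedBall (0 : Fin N → ℝ) ρ, φ (u x) * (fderiv ℝ u x).det := by
    apply setIntegral_congr_fun measurableSet_closedBall
    intro x _
    exact dega_det N g hg u hu x
  have e2 : ∫ x in closedBall (0 : Fin N → ℝ) ρ, (fderiv ℝ (fun x => fun j => g (v x j)) x).det =
      ∫ x in closedBall (0 : Fin N → ℝ) ρ, φ (v x) * (fderiv ℝ v x).det := by
    apply setIntegral_congr_fun measurableSet_closedBall
    intro x _
    exact dega_det N g hg v hv x
  rw [e1, e2, hcu' _ (lt_min hcu hcv) (min_le_left _ _) φ hφc hφ0,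
    hcv' _ (lt_min hcu hcv) (min_le_right _ _) φ hφc hφ0, hφI, mul_one, mul_one] at hNL
  have hcard : {x | ‖x‖ ≤ ρ ∧ v x = 0}.ncard = {x | ‖x‖ ≤ ρ ∧ u x = 0}.ncard := by
    exact_mod_cast hNL
  have fu : {x | ‖x‖ ≤ R ∧ u x = 0}.Finite :=
    hfu.subset fun x hx => ⟨hx.1.trans hRR'.le, hx.2⟩
  have fv : {x | ‖x‖ ≤ R ∧ v x = 0}.Finite :=
    hfv.subset fun x hx => ⟨hx.1.trans hRR'.le, hx.2⟩
  have fw : {x | R < ‖x‖ ∧ ‖x‖ ≤ ρ ∧ u x = 0}.Finite :=
    hfu.subset fun x hx => ⟨hx.2.1.trans hρ.2.le, hx.2.2⟩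
  have hsplit : ∀ w : (Fin N → ℝ) → (Fin N → ℝ), {x | ‖x‖ ≤ ρ ∧ w x = 0} =
      {x | ‖x‖ ≤ R ∧ w x = 0} ∪ {x | R < ‖x‖ ∧ ‖x‖ ≤ ρ ∧ w x = 0} := by
    intro w
    ext x
    simp only [mem_ofPred_eq, mem_union]
    constructor
    · intro h
      rcases le_or_gt ‖x‖ R with h2 | h2
      · exact Or.inl ⟨h2, h.2⟩
      · exact Or.inr ⟨h2, h.1, h.2⟩
    · rintro (h | h)
      · exact ⟨h.1.trans hρ.1.le, h.2⟩
      · exact ⟨h.2.1, h.2.2⟩
  have hdisj : ∀ w : (Fin N → ℝ) → (Fin N → ℝ), Disjoint {x | ‖x‖ ≤ R ∧ w x = 0}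
      {x | R < ‖x‖ ∧ ‖x‖ ≤ ρ ∧ w x = 0} := by
    intro w
    rw [Set.disjoint_left]
    intro x hx hx'
    exact absurd hx'.1 (not_lt.2 hx.1)
  have hsame : {x | R < ‖x‖ ∧ ‖x‖ ≤ ρ ∧ v x = 0} = {x | R < ‖x‖ ∧ ‖x‖ ≤ ρ ∧ u x = 0} := by
    ext x
    simp only [mem_ofPred_eq]
    constructor
    · intro h
      exact ⟨h.1, h.2.1, by rw [heq x h.1.le]; exact h.2.2⟩
    · intro h
      exact ⟨h.1, h.2.1, by rw [← heq x h.1.le]; exact h.2.2⟩
  refine ⟨fu, fv, ?_⟩
  rw [hsplit u, hsplit v, Set.ncard_union_eq (hdisj u) fu fw,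
    Set.ncard_union_eq (hdisj v) fv (hsame ▸ fw), hsame] at hcard
  omega

end Pool.Agent.H63.TV
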