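import Pool.Agent.H63.TV.Hhat
import Pool.Agent.H63.TV.Chart

/-!
# The data of the flattened embedding in the affine chart (definitions only)
-/

open scoped ContDiff ComplexConjugate

namespace Pool.Agent.H63.TV

noncomputable section

/-- local minimum along a plane, local maximum along another plane -/
def SadCrit (F : ℂ × ℂ → ℝ) (p : ℂ × ℂ) : Prop :=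
  ∃ P Q : Submodule ℝ (ℂ × ℂ), Module.finrank ℝ P = 2 ∧ Module.finrank ℝ Q = 2 ∧ ∃ δ : ℝ, 0 < δ ∧
    (∀ v ∈ P, ‖v‖ < δ → F p ≤ F (p + v)) ∧ (∀ v ∈ Q, ‖v‖ < δ → F (p + v) ≤ F p)

/-- the data of the flattened embedding in the affine chart -/
structure Good (ε : ℝ) (q : ℂ × ℂ → ℝ) (w : ℂ × ℂ → ℂ) (D : ℂ × ℂ → ℝ)
    (α β r1 r2 r3 D0 : ℝ) : Prop where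
  eps : 0 < ε ∧ ε ≤ 1 / 4
  al : 0 < α
  hr1 : 0 < r1
  hr12 : r1 < r2
  hr3 : 0 < r3
  hD0 : 0 < D0
  sq : ContDiff ℝ ∞ q
  sw : ContDiff ℝ ∞ w
  sD : ContDiff ℝ ∞ D
  out : ∀ ζ : ℂ × ℂ, ε ^ 2 ≤ ‖ζ.1‖ ^ 2 + ‖ζ.2‖ ^ 2 →
    q ζ = ‖ζ.1‖ ^ 2 - ‖ζ.2‖ ^ 2 ∧ w ζ = 2 * ζ.1 * conj ζ.2 ∧ D ζ = 4 + ‖ζ.1‖ ^ 2 + ‖ζ.2‖ ^ 2
  Dge : ∀ ζ, 4 ≤ D ζ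
  Dle : ∀ ζ : ℂ × ℂ, ‖ζ.1‖ ^ 2 + ‖ζ.2‖ ^ 2 ≤ ε ^ 2 → D ζ ≤ 5
  small : ∀ ζ : ℂ × ℂ, ‖ζ.1‖ ^ 2 + ‖ζ.2‖ ^ 2 ≤ ε ^ 2 → |q ζ| ≤ 1 / 4 ∧ ‖w ζ‖ ≤ 1 / 4
  flat : ∀ ζ : ℂ × ℂ, r1 ≤ ‖ζ.1‖ → ‖ζ.1‖ ≤ r2 → ‖ζ.2‖ ≤ r3 → q ζ = α * ‖ζ.1‖ + β
  flatw : ∀ ζ : ℂ × ℂ, ‖ζ.1‖ ≤ r2 → ‖ζ.2‖ ≤ r3 → w ζ = 0 ∧ D ζ = D0
  below : ∀ (ζ : ℂ × ℂ) (ρ : ℝ), r1 ≤ ρ → ρ ≤ r2 → ‖ζ.1‖ < ρ → ‖ζ.2‖ ≤ r3 → q ζ < α * ρ + β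
  inside : r2 ^ 2 + r3 ^ 2 < ε ^ 2
  inj : ∀ ζ ζ' : ℂ × ℂ, ‖ζ.1‖ ^ 2 + ‖ζ.2‖ ^ 2 ≤ 4 → ‖ζ'.1‖ ^ 2 + ‖ζ'.2‖ ^ 2 ≤ 4 →
    (D ζ)⁻¹ • ζ = (D ζ')⁻¹ • ζ' → ζ = ζ'
  imm : ∀ ζ : ℂ × ℂ, ‖ζ.1‖ ^ 2 + ‖ζ.2‖ ^ 2 ≤ 1 → fderiv ℝ D ζ ζ < D ζ
  sad : ∀ (l : ℂ × ℂ →L[ℝ] ℝ) (e : ℝ) (e' : ℂ) (p : ℂ × ℂ), ‖p.1‖ ^ 2 + ‖p.2‖ ^ 2 ≤ 1 →
    Crit (fun ζ => (l ζ + e * q ζ + (conj e' * w ζ).re) / D ζ) p →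
    SadCrit (fun ζ => (l ζ + e * q ζ + (conj e' * w ζ).re) / D ζ) p

end

end Pool.Agent.H63.TV
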