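import Pool.Agent.H63.TV.DegA
import Pool.Agent.H63.TV.Good

/-!
# TV-22: `det_pos4`, TV-23: `count_eq`

`det_pos4`.  `M` symmetric, so there is an orthonormal basis of eigenvectors with eigenvalues `μ_i ≠ 0`, `det M = ∏ μ_i`.  The span of
the eigenvectors with `μ_i < 0` meets `P` in `0`, so there are at most `4 - 2 = 2` of them; the span of those with `μ_i > 0` meets `Q` in
`0`, so there are at most `2`.  So exactly two are negative, and the product is positive.

`count_eq`.  `J : (Fin 4 → ℝ) ≃ ℂ × ℂ`, `J x = (x 0 + x 1 I, x 2 + x 3 I)`, continuous linear; `|J x|² = ∑ x_j²`.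
`u x = fun j => fderiv ℝ F₀ (J x) (J e_j)`, smooth, `u x = 0` iff `Crit F₀ (J x)`; the matrix of `fderiv u x` is
`M_ij = hess F₀ (J x) (J e_j) (J e_i)`, symmetric (`hess_symm`); at a zero with `|J x|² ≤ 1` it is nondegenerate, and by `SadCrit` and
`hess_nonneg`, `hess_nonpos` there are planes as in `det_pos4`; so `det > 0`.  Same for `F₁`, `v`.
`deg_maps` with `R = 3/8`, `R' = 1/2`: `‖x‖ ≥ 3/8` implies `|J x|² ≥ (3/8)² > ε²`, so `F₀ = F₁` near `J x` and `u x = v x`;
`‖x‖ ≤ 1/2` implies `|J x|² ≤ 1`.  So the sets `{‖x‖ ≤ 3/8, u x = 0}` and `{‖x‖ ≤ 3/8, v x = 0}` are finite of the same size.  Their parts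
with `|J x|² > ε²` coincide.  Remove them, and transport by `J` (`|J x|² ≤ ε²` implies `‖x‖ ≤ ε ≤ 3/8`).
-/

open scoped ContDiff

namespace Pool.Agent.H63.TV

theorem d4_card (b : Fin 4 → (Fin 4 → ℝ)) (μ : Fin 4 → ℝ)
    (hb : ∀ w : Fin 4 → ℝ, (∀ i, b i ⬝ᵥ w = 0) → w = 0) (T : Finset (Fin 4))
    (hT : ∀ i ∈ T, μ i < 0) (P : Submodule ℝ (Fin 4 → ℝ)) (hP2 : Module.finrank ℝ P = 2)
    (hP : ∀ v ∈ P, 0 ≤ ∑ i, μ i * (b i ⬝ᵥ v) ^ 2) : T.card ≤ 2 := by
  classical
  let L : (Fin 4 → ℝ) →ₗ[ℝ] ({i // i ∉ T} → ℝ) :=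
    { toFun := fun w i => b i ⬝ᵥ w
      map_add' := fun x y => by
        funext i
        simp [dotProduct_add]
      map_smul' := fun a x => by
        funext i
        simp [dotProduct_smul] }
  have h1 := LinearMap.finrank_range_add_finrank_ker L
  have h2 : Module.finrank ℝ (LinearMap.range L) ≤ 4 - T.card := by
    refine (Submodule.finrank_le _).trans ?_
    rw [Module.finrank_fintype_fun_eq_card]
    simp [Fintype.card_subtype_compl]
  have h3 : Module.finrank ℝ (Fin 4 → ℝ) = 4 := by simp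
  have hTc : T.card ≤ 4 := by
    have := Finset.card_le_univ T
    simpa using this
  have h4 : T.card ≤ Module.finrank ℝ (LinearMap.ker L) := by omega
  have h5 : LinearMap.ker L ⊓ P = ⊥ := by
    rw [Submodule.eq_bot_iff]
    rintro v ⟨hv1, hv2⟩
    have hv1' : ∀ i, i ∉ T → b i ⬝ᵥ v = 0 := by
      intro i hi
      exact congrFun (LinearMap.mem_ker.1 hv1) ⟨i, hi⟩
    apply hb
    by_contra hcon
    push Not at hcon
    obtain ⟨j, hj⟩ := hcon
    have hjT : j ∈ T := by
      by_contra h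
      exact hj (hv1' j h)
    have h6 : ∑ i, μ i * (b i ⬝ᵥ v) ^ 2 < 0 := by
      apply Finset.sum_neg' _ ⟨j, Finset.mem_univ _, _⟩
      · intro i _
        by_cases hi : i ∈ T
        · exact mul_nonpos_of_nonpos_of_nonneg (hT i hi).le (sq_nonneg _)
        · rw [hv1' i hi]
          simp
      · exact mul_neg_of_neg_of_pos (hT j hjT) (by positivity)
    exact absurd (hP v hv2) (not_le.2 h6)
  have h6 := Submodule.finrank_sup_add_finrank_inf_eq (LinearMap.ker L) P
  rw [h5, finrank_bot, hP2] at h6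
  have h7 := Submodule.finrank_le (LinearMap.ker L ⊔ P)
  rw [h3] at h7
  omega

theorem det_pos4 (M : Matrix (Fin 4) (Fin 4) ℝ) (hM : M.IsSymm) (hdet : M.det ≠ 0)
    (P Q : Submodule ℝ (Fin 4 → ℝ)) (hP2 : Module.finrank ℝ P = 2) (hQ2 : Module.finrank ℝ Q = 2)
    (hP : ∀ v ∈ P, 0 ≤ v ⬝ᵥ (M.mulVec v)) (hQ : ∀ v ∈ Q, v ⬝ᵥ (M.mulVec v) ≤ 0) : 0 < M.det := by
  classical
  have hH : M.IsHermitian := by
    unfold Matrix.IsHermitian
    rw [Matrix.conjTranspose_eq_transpose_of_trivial]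
    exact hM
  set μ := hH.eigenvalues with hμ
  let b : Fin 4 → (Fin 4 → ℝ) := fun i => ⇑(hH.eigenvectorBasis i)
  have hin : ∀ (i : Fin 4) (w : Fin 4 → ℝ),
      inner ℝ (hH.eigenvectorBasis i) (WithLp.toLp 2 w) = b i ⬝ᵥ w := by
    intro i w
    simp only [PiLp.inner_apply, RCLike.inner_apply, conj_trivial, dotProduct, b]
    apply Finset.sum_congr rfl
    intro j _
    ring
  have hexp : ∀ w : Fin 4 → ℝ, w = ∑ i, (b i ⬝ᵥ w) • b i := by
    intro w
    have h := hH.eigenvectorBasis.sum_repr' (WithLp.toLp 2 w)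
    have h2 := congrArg (WithLp.ofLp) h
    simp only [hin] at h2
    rw [WithLp.ofLp_sum] at h2
    exact h2.symm
  have hq : ∀ w : Fin 4 → ℝ, w ⬝ᵥ M.mulVec w = ∑ i, μ i * (b i ⬝ᵥ w) ^ 2 := by
    intro w
    have h1 : M.mulVec w = ∑ i, (b i ⬝ᵥ w) • (μ i • b i) := by
      conv_lhs => rw [hexp w]
      rw [Matrix.mulVec_sum]
      apply Finset.sum_congr rfl
      intro i _
      rw [Matrix.mulVec_smul]
      congr 1
      exact hH.mulVec_eigenvectorBasis i
    rw [h1, dotProduct_sum]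
    apply Finset.sum_congr rfl
    intro i _
    rw [dotProduct_smul, dotProduct_smul, smul_eq_mul, smul_eq_mul, dotProduct_comm w]
    ring
  have hb : ∀ w : Fin 4 → ℝ, (∀ i, b i ⬝ᵥ w = 0) → w = 0 := by
    intro w hw
    rw [hexp w]
    simp [hw]
  have hd : M.det = ∏ i, μ i := by
    have := hH.det_eq_prod_eigenvalues
    simpa using this
  have hμ0 : ∀ i, μ i ≠ 0 := by
    intro i h
    apply hdet
    rw [hd]
    exact Finset.prod_eq_zero (Finset.mem_univ i) h
  set T := Finset.univ.filter fun i => μ i < 0 with hT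
  set T' := Finset.univ.filter fun i => ¬ μ i < 0 with hT'
  have c1 : T.card ≤ 2 := by
    apply d4_card b μ hb T (fun i hi => (Finset.mem_filter.1 hi).2) P hP2
    intro v hv
    rw [← hq]
    exact hP v hv
  have c2 : T'.card ≤ 2 := by
    apply d4_card b (fun i => - μ i) hb T' _ Q hQ2
    · intro v hv
      have := hQ v hv
      rw [hq] at this
      simp only [neg_mul, Finset.sum_neg_distrib]
      linarith
    · intro i hi
      have h1 := (Finset.mem_filter.1 hi).2
      have h2 := lt_of_le_of_ne (not_lt.1 h1) (hμ0 i).symm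
      linarith
  have c3 : T.card + T'.card = 4 := by
    have := Finset.card_filter_add_card_filter_not (s := (Finset.univ : Finset (Fin 4)))
      (fun i => μ i < 0)
    rw [Finset.card_univ, Fintype.card_fin] at this
    exact this
  have c4 : T.card = 2 := by omega
  rw [hd, ← Finset.prod_filter_mul_prod_filter_not Finset.univ (fun i => μ i < 0)]
  apply mul_pos
  · obtain ⟨x, y, hxy, hTxy⟩ := Finset.card_eq_two.1 c4
    rw [← hT, hTxy, Finset.prod_pair hxy]
    have hx : x ∈ T := by rw [hTxy]; simp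
    have hy : y ∈ T := by rw [hTxy]; simp
    exact mul_pos_of_neg_of_neg (Finset.mem_filter.1 hx).2 (Finset.mem_filter.1 hy).2
  · apply Finset.prod_pos
    intro i hi
    have h1 := (Finset.mem_filter.1 hi).2
    exact lt_of_le_of_ne (not_lt.1 h1) (hμ0 i).symm

end Pool.Agent.H63.TV
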