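import Pool.Agent.H63.TV.DegA
import Pool.Agent.H63.TV.Good
import Pool.Agent.H63.TV.DegB1

/-!
# TV-22: `det_pos4`, TV-23: `count_eq`

`det_pos4`.  `M` symmetric, so there is an orthonormal basis of eigenvectors with eigenvalues `μ_i ≠ 0`, `det M = ∏ μ_i`.  The span of
the eigenvectors with `μ_i < 0` meets `P` in `0`, so there are at most `4 - 2 = 2` of them; the span of those with `μ_i > 0` meets `Q` in
`0`, so there are at most `2`.  So exactly two are negative, and the product is positive.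

`count_eq`.  `J : (Fin 4 → ℝ) ≃ ℂ × ℂ`, `J x = (x 0 + x 1 I, x 2 + x 3 I)`, continuous linear; `|J x|² = ∑ x_j²`.
`u x = fun j => fderiv ℝ F₀ (J x) (J e_j)`, smooth, `u x = 0` iff `Crit F₀ (J x)`; the matrix of `fderiv u x` is
`M_ij = hess F₀ (J x) (J e_j) (J e_i)`, symmetric (`hess_symm`); at a zero with `|J x|² ≤ 1` it is nondegenerate, and by `SadCrit` and
`hess_nonneg`, `hess_nonpos` there are planes as in `det_pos4`; so `det > 0`.  Same for `F₁`, `v`.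
`deg_maps` with `R = 3/8`, `R' = 1/2`: `‖x‖ ≥ 3/8` implies `|J x|² ≥ (3/8)² > ε²`, so `F₀ = F₁` near `J x` and `u x = v x`;
`‖x‖ ≤ 1/2` implies `|J x|² ≤ 1`.  So the sets `{‖x‖ ≤ 3/8, u x = 0}` and `{‖x‖ ≤ 3/8, v x = 0}` are finite of the same size.  Their parts
with `|J x|² > ε²` coincide.  Remove them, and transport by `J` (`|J x|² ≤ ε²` implies `‖x‖ ≤ ε ≤ 3/8`).
-/

open scoped ContDiff

namespace Pool.Agent.H63.TV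

/-- real coordinates on `ℂ × ℂ` -/
private noncomputable def dbL : (Fin 4 → ℝ) ≃ₗ[ℝ] ℂ × ℂ where
  toFun x := (⟨x 0, x 1⟩, ⟨x 2, x 3⟩)
  invFun ζ := ![ζ.1.re, ζ.1.im, ζ.2.re, ζ.2.im]
  map_add' x y := by
    apply Prod.ext <;> apply Complex.ext <;> simp
  map_smul' c x := by
    apply Prod.ext <;> apply Complex.ext <;> simp
  left_inv x := by
    funext i
    fin_cases i <;> simp
  right_inv ζ := by
    apply Prod.ext <;> apply Complex.ext <;> simp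

private noncomputable def dbJ : (Fin 4 → ℝ) ≃L[ℝ] ℂ × ℂ := dbL.toContinuousLinearEquiv

private theorem dbJ_apply (x : Fin 4 → ℝ) : dbJ x = (⟨x 0, x 1⟩, ⟨x 2, x 3⟩) := rfl

private theorem dbJ_norm (x : Fin 4 → ℝ) :
    ‖(dbJ x).1‖ ^ 2 + ‖(dbJ x).2‖ ^ 2 = x 0 ^ 2 + x 1 ^ 2 + x 2 ^ 2 + x 3 ^ 2 := by
  rw [dbJ_apply, ← Complex.normSq_eq_norm_sq, ← Complex.normSq_eq_norm_sq, Complex.normSq_mk,
    Complex.normSq_mk]
  ring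

private theorem dbJ_le (x : Fin 4 → ℝ) (r : ℝ) (hx : ‖x‖ ≤ r) :
    ‖(dbJ x).1‖ ^ 2 + ‖(dbJ x).2‖ ^ 2 ≤ 4 * r ^ 2 := by
  rw [dbJ_norm]
  have h : ∀ i, x i ^ 2 ≤ r ^ 2 := by
    intro i
    have h1 : ‖x i‖ ≤ r := (norm_le_pi_norm x i).trans hx
    rw [Real.norm_eq_abs] at h1
    exact sq_le_sq' (by linarith [neg_abs_le (x i)]) (by linarith [le_abs_self (x i)])
  linarith [h 0, h 1, h 2, h 3]

private theorem dbJ_ge (x : Fin 4 → ℝ) :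
    ‖x‖ ^ 2 ≤ ‖(dbJ x).1‖ ^ 2 + ‖(dbJ x).2‖ ^ 2 := by
  rw [dbJ_norm]
  have h : ‖x‖ ≤ Real.sqrt (x 0 ^ 2 + x 1 ^ 2 + x 2 ^ 2 + x 3 ^ 2) := by
    rw [pi_norm_le_iff_of_nonneg (Real.sqrt_nonneg _)]
    intro i
    rw [Real.norm_eq_abs]
    apply Real.abs_le_sqrt
    have h0 := sq_nonneg (x 0)
    have h1 := sq_nonneg (x 1)
    have h2 := sq_nonneg (x 2)
    have h3 := sq_nonneg (x 3)
    fin_cases i <;> simp <;> linarith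
  calc ‖x‖ ^ 2 ≤ Real.sqrt (x 0 ^ 2 + x 1 ^ 2 + x 2 ^ 2 + x 3 ^ 2) ^ 2 :=
        pow_le_pow_left₀ (norm_nonneg _) h 2
    _ = _ := Real.sq_sqrt (by positivity)

private noncomputable def dbu (F : ℂ × ℂ → ℝ) (x : Fin 4 → ℝ) : Fin 4 → ℝ :=
  fun j => fderiv ℝ (fun y => F (dbJ y)) x (Pi.single j 1)

private theorem db_smooth (F : ℂ × ℂ → ℝ) (hF : ContDiff ℝ ∞ F) :
    ContDiff ℝ ∞ (fun y => F (dbJ y)) := hF.comp dbJ.contDiff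

private theorem dbu_smooth (F : ℂ × ℂ → ℝ) (hF : ContDiff ℝ ∞ F) : ContDiff ℝ ∞ (dbu F) := by
  rw [contDiff_pi]
  intro j
  have h1 : ContDiff ℝ ∞ (fderiv ℝ (fun y => F (dbJ y))) :=
    (db_smooth F hF).fderiv_right (m := ∞) (by simp)
  exact h1.clm_apply contDiff_const

private theorem db_sum (v : Fin 4 → ℝ) : v = ∑ i, v i • (Pi.single i (1 : ℝ) : Fin 4 → ℝ) := by
  funext j
  simp [Finset.sum_apply, Pi.single_apply]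

private theorem dbu_zero (F : ℂ × ℂ → ℝ) (hF : ContDiff ℝ ∞ F) (x : Fin 4 → ℝ) :
    dbu F x = 0 ↔ Crit F (dbJ x) := by
  have hs : Function.Surjective (fderiv ℝ (fun y => dbJ y) x) := by
    have h1 : fderiv ℝ (fun y => dbJ y) x = (dbJ : (Fin 4 → ℝ) →L[ℝ] ℂ × ℂ) := dbJ.fderiv
    rw [h1]
    exact dbJ.surjective
  have h2 := (crit_comp (φ := fun y => dbJ y) (F := F) (p := x)
    (dbJ.contDiff.contDiffAt) ((hF.of_le (by norm_cast)).contDiffAt) hs).1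
  rw [← h2]
  unfold Crit
  constructor
  · intro h
    ext v
    rw [db_sum v, map_sum]
    simp only [map_smul]
    have h3 : ∀ i, fderiv ℝ (fun y => F (dbJ y)) x (Pi.single i 1) = 0 := fun i => congrFun h i
    simp [h3]
  · intro h
    funext i
    unfold dbu
    rw [h]
    rfl

private theorem dbu_fderiv (F : ℂ × ℂ → ℝ) (hF : ContDiff ℝ ∞ F) (x v : Fin 4 → ℝ) (j : Fin 4) :
    fderiv ℝ (dbu F) x v j = hess (fun y => F (dbJ y)) x v (Pi.single j 1) := by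
  have h1 : ContDiff ℝ ∞ (fderiv ℝ (fun y => F (dbJ y))) :=
    (db_smooth F hF).fderiv_right (m := ∞) (by simp)
  have h2 : HasFDerivAt (fderiv ℝ (fun y => F (dbJ y)))
      (fderiv ℝ (fderiv ℝ (fun y => F (dbJ y))) x) x :=
    ((h1.differentiable (by simp)) x).hasFDerivAt
  have h3 : ∀ j : Fin 4, HasFDerivAt (fun y => dbu F y j)
      ((ContinuousLinearMap.apply ℝ ℝ (Pi.single j (1 : ℝ) : Fin 4 → ℝ)).comp
        (fderiv ℝ (fderiv ℝ (fun y => F (dbJ y))) x)) x := by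
    intro j
    exact (ContinuousLinearMap.apply ℝ ℝ (Pi.single j (1 : ℝ) : Fin 4 → ℝ)).hasFDerivAt.comp x h2
  have h4 := hasFDerivAt_pi.2 h3
  have h5 : HasFDerivAt (dbu F) _ x := h4
  rw [h5.fderiv]
  rfl

private theorem db_det (F : ℂ × ℂ → ℝ) (hF : ContDiff ℝ ∞ F) (x : Fin 4 → ℝ)
    (hc : Crit F (dbJ x)) (hn : ∀ v, (∀ w, hess F (dbJ x) v w = 0) → v = 0)
    (hS : SadCrit F (dbJ x)) : 0 < (fderiv ℝ (dbu F) x).det := by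
  have hF2 : ContDiffAt ℝ 2 F (dbJ x) := (hF.of_le (by norm_cast)).contDiffAt
  have hf2 : ContDiffAt ℝ 2 (fun y => F (dbJ y)) x :=
    ((db_smooth F hF).of_le (by norm_cast)).contDiffAt
  have hs : Function.Surjective (fderiv ℝ (fun y => dbJ y) x) := by
    have h1 : fderiv ℝ (fun y => dbJ y) x = (dbJ : (Fin 4 → ℝ) →L[ℝ] ℂ × ℂ) := dbJ.fderiv
    rw [h1]
    exact dbJ.surjective
  have hh : ∀ v w, hess (fun y => F (dbJ y)) x v w = hess F (dbJ x) (dbJ v) (dbJ w) := by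
    intro v w
    have h2 := (crit_comp (φ := fun y => dbJ y) (F := F) (p := x)
      (dbJ.contDiff.contDiffAt) hF2 hs).2 hc v w
    have h1 : fderiv ℝ (fun y => dbJ y) x = (dbJ : (Fin 4 → ℝ) →L[ℝ] ℂ × ℂ) := dbJ.fderiv
    rw [h2, h1]
    rfl
  set M : Matrix (Fin 4) (Fin 4) ℝ := LinearMap.toMatrix'
    ((fderiv ℝ (dbu F) x : (Fin 4 → ℝ) →L[ℝ] (Fin 4 → ℝ)) : (Fin 4 → ℝ) →ₗ[ℝ] (Fin 4 → ℝ)) with hM
  have hMd : M.det = (fderiv ℝ (dbu F) x).det := by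
    rw [hM, LinearMap.det_toMatrix']
  have hMv : ∀ v, M.mulVec v = fderiv ℝ (dbu F) x v := by
    intro v
    rw [hM, LinearMap.toMatrix'_mulVec]
    rfl
  have hMe : ∀ i j, M i j = hess (fun y => F (dbJ y)) x (Pi.single j 1) (Pi.single i 1) := by
    intro i j
    rw [hM, LinearMap.toMatrix'_apply]
    exact dbu_fderiv F hF x (Pi.single j 1) i
  have hsym : M.IsSymm := by
    ext i j
    rw [Matrix.transpose_apply, hMe, hMe]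
    exact hess_symm hf2 _ _
  have hquad : ∀ v, v ⬝ᵥ (M.mulVec v) = hess F (dbJ x) (dbJ v) (dbJ v) := by
    intro v
    rw [hMv, ← hh]
    have h1 : hess (fun y => F (dbJ y)) x v v =
        hess (fun y => F (dbJ y)) x v (∑ i, v i • (Pi.single i (1 : ℝ) : Fin 4 → ℝ)) := by
      rw [← db_sum v]
    rw [h1, map_sum]
    unfold dotProduct
    refine Finset.sum_congr rfl fun i _ => ?_
    rw [dbu_fderiv F hF x v i, map_smul, smul_eq_mul]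
  have hdet : M.det ≠ 0 := by
    intro h0
    obtain ⟨v, hv, hv0⟩ := Matrix.exists_mulVec_eq_zero_iff.2 h0
    apply hv
    have h1 : dbJ v = 0 := by
      apply hn
      intro w
      obtain ⟨w', rfl⟩ := dbJ.surjective w
      rw [← hh, db_sum w', map_sum]
      apply Finset.sum_eq_zero
      intro i _
      rw [map_smul, ← dbu_fderiv F hF x v i, ← hMv, hv0]
      simp
    have h2 := congrArg dbJ.symm h1
    simpa using h2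
  obtain ⟨P, Q, hP2, hQ2, δ, hδ, hP, hQ⟩ := hS
  have hfr : ∀ W : Submodule ℝ (ℂ × ℂ), Module.finrank ℝ W = 2 →
      Module.finrank ℝ (W.comap (dbL : (Fin 4 → ℝ) →ₗ[ℝ] ℂ × ℂ)) = 2 := by
    intro W hW
    rw [← hW, Submodule.comap_equiv_eq_map_symm]
    exact LinearEquiv.finrank_map_eq dbL.symm W
  rw [← hMd]
  refine det_pos4 M hsym hdet _ _ (hfr P hP2) (hfr Q hQ2) ?_ ?_
  · intro v hv
    rw [hquad]
    exact hess_nonneg hF2 hc hδ hP _ hv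
  · intro v hv
    rw [hquad]
    exact hess_nonpos hF2 hc hδ hQ _ hv

theorem count_eq (F₀ F₁ : ℂ × ℂ → ℝ) (hF₀ : ContDiff ℝ ∞ F₀) (hF₁ : ContDiff ℝ ∞ F₁) (ε : ℝ)
    (hε : 0 < ε) (hε' : ε ≤ 1 / 4)
    (heq : ∀ ζ : ℂ × ℂ, ε ^ 2 ≤ ‖ζ.1‖ ^ 2 + ‖ζ.2‖ ^ 2 → F₀ ζ = F₁ ζ)
    (h0 : ∀ ζ : ℂ × ℂ, ‖ζ.1‖ ^ 2 + ‖ζ.2‖ ^ 2 ≤ 1 → Crit F₀ ζ →
      (∀ v, (∀ w, hess F₀ ζ v w = 0) → v = 0) ∧ SadCrit F₀ ζ)
    (h1 : ∀ ζ : ℂ × ℂ, ‖ζ.1‖ ^ 2 + ‖ζ.2‖ ^ 2 ≤ 1 → Crit F₁ ζ →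
      (∀ v, (∀ w, hess F₁ ζ v w = 0) → v = 0) ∧ SadCrit F₁ ζ) :
    {ζ : ℂ × ℂ | ‖ζ.1‖ ^ 2 + ‖ζ.2‖ ^ 2 ≤ ε ^ 2 ∧ Crit F₀ ζ}.Finite ∧
    {ζ : ℂ × ℂ | ‖ζ.1‖ ^ 2 + ‖ζ.2‖ ^ 2 ≤ ε ^ 2 ∧ Crit F₁ ζ}.Finite ∧
    {ζ : ℂ × ℂ | ‖ζ.1‖ ^ 2 + ‖ζ.2‖ ^ 2 ≤ ε ^ 2 ∧ Crit F₀ ζ}.ncard =
      {ζ : ℂ × ℂ | ‖ζ.1‖ ^ 2 + ‖ζ.2‖ ^ 2 ≤ ε ^ 2 ∧ Crit F₁ ζ}.ncard := by
  -- the two maps coincide outside the small ball
  have hfar : ∀ x : Fin 4 → ℝ, ε ^ 2 < ‖(dbJ x).1‖ ^ 2 + ‖(dbJ x).2‖ ^ 2 →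
      dbu F₀ x = dbu F₁ x := by
    intro x hx
    have hc : Continuous (fun y : Fin 4 → ℝ => ‖(dbJ y).1‖ ^ 2 + ‖(dbJ y).2‖ ^ 2) := by
      have h2 : Continuous (fun y : Fin 4 → ℝ => dbJ y) := dbJ.continuous
      exact ((continuous_fst.comp h2).norm.pow 2).add ((continuous_snd.comp h2).norm.pow 2)
    have hev : (fun y => F₀ (dbJ y)) =ᶠ[nhds x] (fun y => F₁ (dbJ y)) := by
      filter_upwards [(isOpen_lt continuous_const hc).mem_nhds hx] with y hy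
      exact heq _ (le_of_lt hy)
    funext j
    unfold dbu
    rw [hev.fderiv_eq]
  have hsq : ε ^ 2 ≤ 1 / 16 := by nlinarith
  have hfar' : ∀ x : Fin 4 → ℝ, 3 / 8 ≤ ‖x‖ → ε ^ 2 < ‖(dbJ x).1‖ ^ 2 + ‖(dbJ x).2‖ ^ 2 := by
    intro x hx
    have h2 := dbJ_ge x
    nlinarith
  have hnear : ∀ x : Fin 4 → ℝ, ‖x‖ ≤ 1 / 2 → ‖(dbJ x).1‖ ^ 2 + ‖(dbJ x).2‖ ^ 2 ≤ 1 := by
    intro x hx
    have h2 := dbJ_le x _ hx
    linarith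
  obtain ⟨a0, a1, a2⟩ := deg_maps 4 (dbu F₀) (dbu F₁) (dbu_smooth F₀ hF₀) (dbu_smooth F₁ hF₁)
    (3 / 8) (1 / 2) (by norm_num) (by norm_num) (fun x hx => hfar x (hfar' x hx))
    (fun x hx hux => by
      have hc := (dbu_zero F₀ hF₀ x).1 hux
      obtain ⟨hn, hS⟩ := h0 _ (hnear x hx) hc
      exact db_det F₀ hF₀ x hc hn hS)
    (fun x hx hux => by
      have hc := (dbu_zero F₁ hF₁ x).1 hux
      obtain ⟨hn, hS⟩ := h1 _ (hnear x hx) hc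
      exact db_det F₁ hF₁ x hc hn hS)
  set A₀ : Set (Fin 4 → ℝ) := {x | ‖x‖ ≤ 3 / 8 ∧ dbu F₀ x = 0} with hA₀
  set A₁ : Set (Fin 4 → ℝ) := {x | ‖x‖ ≤ 3 / 8 ∧ dbu F₁ x = 0} with hA₁
  set S₀ : Set (ℂ × ℂ) := {ζ | ‖ζ.1‖ ^ 2 + ‖ζ.2‖ ^ 2 ≤ ε ^ 2 ∧ Crit F₀ ζ} with hS₀
  set S₁ : Set (ℂ × ℂ) := {ζ | ‖ζ.1‖ ^ 2 + ‖ζ.2‖ ^ 2 ≤ ε ^ 2 ∧ Crit F₁ ζ} with hS₁
  set C : Set (Fin 4 → ℝ) :=
    {x | ‖x‖ ≤ 3 / 8 ∧ ε ^ 2 < ‖(dbJ x).1‖ ^ 2 + ‖(dbJ x).2‖ ^ 2 ∧ dbu F₀ x = 0} with hC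
  have hsmall : ∀ x : Fin 4 → ℝ, ‖(dbJ x).1‖ ^ 2 + ‖(dbJ x).2‖ ^ 2 ≤ ε ^ 2 → ‖x‖ ≤ 3 / 8 := by
    intro x hx
    by_contra h2
    exact absurd (hfar' x (le_of_lt (not_le.1 h2))) (not_lt.2 hx)
  have e0 : A₀ = dbJ ⁻¹' S₀ ∪ C := by
    ext x
    simp only [hA₀, hS₀, hC, Set.mem_ofPred_eq, Set.mem_union, Set.mem_preimage]
    rw [← dbu_zero F₀ hF₀ x]
    constructor
    · rintro ⟨b1, b2⟩
      rcases le_or_gt (‖(dbJ x).1‖ ^ 2 + ‖(dbJ x).2‖ ^ 2) (ε ^ 2) with h | h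
      · exact Or.inl ⟨h, b2⟩
      · exact Or.inr ⟨b1, h, b2⟩
    · rintro (⟨b1, b2⟩ | ⟨b1, _, b3⟩)
      · exact ⟨hsmall x b1, b2⟩
      · exact ⟨b1, b3⟩
  have e1 : A₁ = dbJ ⁻¹' S₁ ∪ C := by
    ext x
    simp only [hA₁, hS₁, hC, Set.mem_ofPred_eq, Set.mem_union, Set.mem_preimage]
    rw [← dbu_zero F₁ hF₁ x]
    constructor
    · rintro ⟨b1, b2⟩
      rcases le_or_gt (‖(dbJ x).1‖ ^ 2 + ‖(dbJ x).2‖ ^ 2) (ε ^ 2) with h | h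
      · exact Or.inl ⟨h, b2⟩
      · exact Or.inr ⟨b1, h, by rw [hfar x h]; exact b2⟩
    · rintro (⟨b1, b2⟩ | ⟨b1, b2, b3⟩)
      · exact ⟨hsmall x b1, b2⟩
      · exact ⟨b1, by rw [← hfar x b2]; exact b3⟩
  have d0 : Disjoint (dbJ ⁻¹' S₀) C := by
    rw [Set.disjoint_left]
    intro x hx hx'
    exact absurd hx'.2.1 (not_lt.2 hx.1)
  have d1 : Disjoint (dbJ ⁻¹' S₁) C := by
    rw [Set.disjoint_left]
    intro x hx hx'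
    exact absurd hx'.2.1 (not_lt.2 hx.1)
  have f0 : (dbJ ⁻¹' S₀).Finite := a0.subset (e0 ▸ Set.subset_union_left)
  have f1 : (dbJ ⁻¹' S₁).Finite := a1.subset (e1 ▸ Set.subset_union_left)
  have fC : C.Finite := a0.subset (e0 ▸ Set.subset_union_right)
  have g0 : S₀ = dbJ '' (dbJ ⁻¹' S₀) := (Set.image_preimage_eq S₀ dbJ.surjective).symm
  have g1 : S₁ = dbJ '' (dbJ ⁻¹' S₁) := (Set.image_preimage_eq S₁ dbJ.surjective).symm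
  have n0 : S₀.ncard = (dbJ ⁻¹' S₀).ncard := by
    conv_lhs => rw [g0]
    exact Set.ncard_image_of_injective _ dbJ.injective
  have n1 : S₁.ncard = (dbJ ⁻¹' S₁).ncard := by
    conv_lhs => rw [g1]
    exact Set.ncard_image_of_injective _ dbJ.injective
  refine ⟨?_, ?_, ?_⟩
  · rw [g0]
    exact f0.image _
  · rw [g1]
    exact f1.image _
  · rw [e0, e1, Set.ncard_union_eq d0 f0 fC, Set.ncard_union_eq d1 f1 fC] at a2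
    rw [n0, n1]
    omega

end Pool.Agent.H63.TV
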