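import Pool.Agent.H63.TV.Good

/-!
# TV-16: the denominator

`A, C` from `prof0`, `|ζ| = √(|ζ₁|² + |ζ₂|²)`, `D ζ = 4 + ε² A (|ζ|/ε)`, `D0 = 4 + ε² A 0`.
Smooth: constant for `|ζ| ≤ ε/2` (`A = A 0` on `(-∞, 1/2]`), and `|ζ|` is smooth for `ζ ≠ 0`.
`A r = r²` for `r ≥ 1` gives the outer formula; `0 ≤ A ≤ 1` on `[0,1]` (monotone, `A 0 ≥ 0`, `A 1 = 1`).
`D` is convex: `ζ ↦ |ζ|` is convex (it is the norm of `EuclideanSpace ℝ (Fin 2)` in `(|ζ₁|, |ζ₂|)`, or `WithLp 2`), `A` is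
monotone and convex on `[0,∞)`.  Same for `C |ζ|² - D ζ = ε² (C r² - A r) - 4`, `r = |ζ|/ε`.
Radial derivative: `fderiv D ζ ζ = d/dt D (t ζ)` at `t = 1`, `= ε² r A' (r)`, `r = |ζ|/ε`; as `C r² - A r` is monotone, `0 ≤ A' r ≤ 2 C r`, so
`0 ≤ fderiv D ζ ζ ≤ 2 C |ζ|²`.
`imm`: for `|ζ|² ≤ 1`: if `|ζ| ≥ ε`: `2|ζ|² < 4 + |ζ|²` (radial derivative `2 |ζ|²`: continuity at `|ζ| = ε`, or `A' (1) = 2`),
if `|ζ| ≤ ε`: `2 C ε² ≤ 2 < 4 ≤ D`.
`inj`: `D` is a function of `t = |ζ|`, `D = f t`, and `t ↦ t / f t` is strictly increasing on `[0, 2]` (its derivative is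
`(f - t f')/f² > 0` for `0 ≤ t < 2`: `t f' ≤ 2 C ε² ≤ 2` for `t ≤ ε`, and `f - t f' = 4 - t²` for `t ≥ ε`).
`(D ζ)⁻¹ • ζ = (D ζ')⁻¹ • ζ'` gives `|ζ|/D ζ = |ζ'|/D ζ'`, `|ζ| = |ζ'|`, `D ζ = D ζ'`, `ζ = ζ'`.
-/

open scoped ContDiff ComplexConjugate

namespace Pool.Agent.H63.TV

/-- the properties of the denominator -/
structure IsDen (ε C : ℝ) (D : ℂ × ℂ → ℝ) (D0 : ℝ) : Prop where
  smooth : ContDiff ℝ ∞ D
  out : ∀ ζ : ℂ × ℂ, ε ^ 2 ≤ ‖ζ.1‖ ^ 2 + ‖ζ.2‖ ^ 2 → D ζ = 4 + ‖ζ.1‖ ^ 2 + ‖ζ.2‖ ^ 2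
  const : ∀ ζ : ℂ × ℂ, ‖ζ.1‖ ^ 2 + ‖ζ.2‖ ^ 2 ≤ (ε / 2) ^ 2 → D ζ = D0
  ge : ∀ ζ, 4 ≤ D ζ
  le : ∀ ζ : ℂ × ℂ, ‖ζ.1‖ ^ 2 + ‖ζ.2‖ ^ 2 ≤ ε ^ 2 → D ζ ≤ 5
  conv : ConvexOn ℝ Set.univ D
  conv' : ConvexOn ℝ Set.univ fun ζ : ℂ × ℂ => C * (‖ζ.1‖ ^ 2 + ‖ζ.2‖ ^ 2) - D ζ
  rad : ∀ ζ : ℂ × ℂ, 0 ≤ fderiv ℝ D ζ ζ ∧ fderiv ℝ D ζ ζ ≤ 2 * C * (‖ζ.1‖ ^ 2 + ‖ζ.2‖ ^ 2)
  inj : ∀ ζ ζ' : ℂ × ℂ, ‖ζ.1‖ ^ 2 + ‖ζ.2‖ ^ 2 ≤ 4 → ‖ζ'.1‖ ^ 2 + ‖ζ'.2‖ ^ 2 ≤ 4 →
    (D ζ)⁻¹ • ζ = (D ζ')⁻¹ • ζ' → ζ = ζ'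
  imm : ∀ ζ : ℂ × ℂ, ‖ζ.1‖ ^ 2 + ‖ζ.2‖ ^ 2 ≤ 1 → fderiv ℝ D ζ ζ < D ζ

/-- the Euclidean length in `ℂ × ℂ` -/
noncomputable def denN (ζ : ℂ × ℂ) : ℝ := Real.sqrt (‖ζ.1‖ ^ 2 + ‖ζ.2‖ ^ 2)

theorem denN_sq (ζ : ℂ × ℂ) : denN ζ ^ 2 = ‖ζ.1‖ ^ 2 + ‖ζ.2‖ ^ 2 :=
  Real.sq_sqrt (by positivity)

theorem denN_nonneg (ζ : ℂ × ℂ) : 0 ≤ denN ζ := Real.sqrt_nonneg _

theorem denN_smul {t : ℝ} (ht : 0 ≤ t) (ζ : ℂ × ℂ) : denN (t • ζ) = t * denN ζ := by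
  have h1 : ‖(t • ζ).1‖ ^ 2 + ‖(t • ζ).2‖ ^ 2 = t ^ 2 * (‖ζ.1‖ ^ 2 + ‖ζ.2‖ ^ 2) := by
    rw [Prod.smul_fst, Prod.smul_snd, norm_smul, norm_smul, Real.norm_of_nonneg ht]
    ring
  unfold denN
  rw [h1, Real.sqrt_mul (sq_nonneg t), Real.sqrt_sq ht]

theorem denN_add (ζ ζ' : ℂ × ℂ) : denN (ζ + ζ') ≤ denN ζ + denN ζ' := by
  have hN := denN_nonneg ζ
  have hN' := denN_nonneg ζ'
  refine Real.sqrt_le_iff.mpr ⟨by positivity, ?_⟩
  have h1 : ‖(ζ + ζ').1‖ ≤ ‖ζ.1‖ + ‖ζ'.1‖ := norm_add_le _ _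
  have h2 : ‖(ζ + ζ').2‖ ≤ ‖ζ.2‖ + ‖ζ'.2‖ := norm_add_le _ _
  have h3 := pow_le_pow_left₀ (norm_nonneg _) h1 2
  have h4 := pow_le_pow_left₀ (norm_nonneg _) h2 2
  have h5 := denN_sq ζ
  have h6 := denN_sq ζ'
  have h7 : ‖ζ.1‖ * ‖ζ'.1‖ + ‖ζ.2‖ * ‖ζ'.2‖ ≤ denN ζ * denN ζ' := by
    refine le_of_sq_le_sq ?_ (by positivity)
    rw [mul_pow, h5, h6]
    nlinarith [sq_nonneg (‖ζ.1‖ * ‖ζ'.2‖ - ‖ζ.2‖ * ‖ζ'.1‖)]
  nlinarith

theorem denN_contDiffAt {ζ : ℂ × ℂ} (h : 0 < denN ζ) : ContDiffAt ℝ ∞ denN ζ := by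
  have h1 : ContDiff ℝ ∞ fun ζ : ℂ × ℂ => ‖ζ.1‖ ^ 2 + ‖ζ.2‖ ^ 2 :=
    ((contDiff_norm_sq ℝ).comp contDiff_fst).add ((contDiff_norm_sq ℝ).comp contDiff_snd)
  refine ContDiffAt.sqrt h1.contDiffAt ?_
  rw [← denN_sq]
  positivity

theorem denN_continuous : Continuous denN := by
  unfold denN
  fun_prop

/-- convexity of radial functions -/
theorem den_conv {F : ℝ → ℝ} (hm : MonotoneOn F (Set.Ici 0)) (hc : ConvexOn ℝ (Set.Ici 0) F)
    {ε : ℝ} (hε : 0 < ε) (k : ℝ) :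
    ConvexOn ℝ Set.univ fun ζ : ℂ × ℂ => k + ε ^ 2 * F (denN ζ / ε) := by
  refine ⟨convex_univ, fun x _ y _ a b ha hb hab => ?_⟩
  have h1 : denN (a • x + b • y) ≤ a * denN x + b * denN y := by
    refine (denN_add _ _).trans ?_
    rw [denN_smul ha, denN_smul hb]
  have h2 : denN (a • x + b • y) / ε ≤ a * (denN x / ε) + b * (denN y / ε) := by
    have e1 : a * (denN x / ε) + b * (denN y / ε) = (a * denN x + b * denN y) / ε := by ring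
    rw [e1]
    exact div_le_div_of_nonneg_right h1 hε.le
  have hx : 0 ≤ denN x / ε := div_nonneg (denN_nonneg _) hε.le
  have hy : 0 ≤ denN y / ε := div_nonneg (denN_nonneg _) hε.le
  have h3 : F (denN (a • x + b • y) / ε) ≤ F (a * (denN x / ε) + b * (denN y / ε)) :=
    hm (div_nonneg (denN_nonneg _) hε.le : (0 : ℝ) ≤ _) (by positivity : (0 : ℝ) ≤ _) h2
  have h4 := hc.2 (show denN x / ε ∈ Set.Ici (0 : ℝ) from hx)
    (show denN y / ε ∈ Set.Ici (0 : ℝ) from hy) ha hb hab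
  simp only [smul_eq_mul] at h4 ⊢
  have h5 := mul_le_mul_of_nonneg_left (h3.trans h4) (sq_nonneg ε)
  have h6 : k = a * k + b * k := by rw [← add_mul, hab, one_mul]
  nlinarith

/-- the derivative of a function which is monotone on the half line -/
theorem den_mono_deriv {φ : ℝ → ℝ} {d : ℝ} (h : HasDerivAt φ d 1)
    (hm : MonotoneOn φ (Set.Ici 0)) : 0 ≤ d := by
  have h1 : 0 ≤ derivWithin φ (Set.Ici 0) 1 := hm.derivWithin_nonneg
  have h2 : derivWithin φ (Set.Ici 0) 1 = d := by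
    rw [derivWithin_of_mem_nhds (Ici_mem_nhds (by norm_num : (0 : ℝ) < 1)), h.deriv]
  rwa [h2] at h1

theorem den_exists : ∃ C : ℝ, 1 ≤ C ∧ ∀ ε : ℝ, 0 < ε → ε ≤ 1 / 4 → C * ε ^ 2 ≤ 1 →
    ∃ (D : ℂ × ℂ → ℝ) (D0 : ℝ), IsDen ε C D D0 := by
  obtain ⟨A, C, hA, hA0, hC, hBm, hBc⟩ := prof0
  refine ⟨C, hC, fun ε hε hε4 hCε => ?_⟩
  set D : ℂ × ℂ → ℝ := fun ζ => 4 + ε ^ 2 * A (denN ζ / ε) with hD
  have hr : ∀ ζ, 0 ≤ denN ζ / ε := fun ζ => div_nonneg (denN_nonneg ζ) hε.le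
  have hout : ∀ ζ : ℂ × ℂ, ε ≤ denN ζ → D ζ = 4 + denN ζ ^ 2 := by
    intro ζ h
    show 4 + ε ^ 2 * A (denN ζ / ε) = 4 + denN ζ ^ 2
    rw [hA.big _ ((one_le_div hε).mpr h)]
    field_simp
  have hconst : ∀ ζ : ℂ × ℂ, denN ζ ≤ ε / 2 → D ζ = 4 + ε ^ 2 * A 0 := by
    intro ζ h
    show 4 + ε ^ 2 * A (denN ζ / ε) = 4 + ε ^ 2 * A 0
    rw [hA0 _ (by rw [div_le_iff₀ hε]; linarith)]
  have hge : ∀ ζ, 4 ≤ D ζ := by
    intro ζ
    have h1 : A 0 ≤ A (denN ζ / ε) :=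
      hA.mono (Set.mem_Ici.mpr le_rfl) (Set.mem_Ici.mpr (hr ζ)) (hr ζ)
    have h2 : 0 ≤ ε ^ 2 * A (denN ζ / ε) := mul_nonneg (sq_nonneg _) (hA.nonneg.trans h1)
    show 4 ≤ 4 + ε ^ 2 * A (denN ζ / ε)
    linarith
  have hconv : ConvexOn ℝ Set.univ D := den_conv hA.mono hA.conv hε 4
  have hsmooth : ContDiff ℝ ∞ D := by
    rw [contDiff_iff_contDiffAt]
    intro ζ
    rcases lt_or_ge (denN ζ) (ε / 2) with h | h
    · have h1 : D =ᶠ[nhds ζ] fun _ => 4 + ε ^ 2 * A 0 := by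
        filter_upwards [(isOpen_lt denN_continuous continuous_const).mem_nhds h] with η hη
        exact hconst η (le_of_lt hη)
      exact contDiffAt_const.congr_of_eventuallyEq h1
    · have h1 : 0 < denN ζ := lt_of_lt_of_le (by positivity) h
      have h2 : ContDiffAt ℝ ∞ (fun ζ => denN ζ / ε) ζ := (denN_contDiffAt h1).div_const ε
      exact contDiffAt_const.add (contDiffAt_const.mul (hA.smooth.contDiffAt.comp ζ h2))
  have hsq_le : ∀ (ζ : ℂ × ℂ) (c : ℝ), 0 ≤ c → ‖ζ.1‖ ^ 2 + ‖ζ.2‖ ^ 2 ≤ c ^ 2 → denN ζ ≤ c := by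
    intro ζ c hc h
    rw [← denN_sq] at h
    exact le_of_sq_le_sq h hc
  -- the derivative along rays
  have hray : ∀ ζ : ℂ × ℂ, HasDerivAt (fun t : ℝ => D (t • ζ)) (fderiv ℝ D ζ ζ) 1 := by
    intro ζ
    have h1 : HasDerivAt (fun t : ℝ => t • ζ) ζ 1 := by
      simpa using (hasDerivAt_id (1 : ℝ)).smul_const ζ
    have h2 : HasFDerivAt D (fderiv ℝ D ζ) ((1 : ℝ) • ζ) := by
      rw [one_smul]
      exact (hsmooth.differentiable (by simp) ζ).hasFDerivAt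
    exact h2.comp_hasDerivAt (1 : ℝ) h1
  have hDt : ∀ (ζ : ℂ × ℂ) (t : ℝ), 0 ≤ t → D (t • ζ) = 4 + ε ^ 2 * A (t * (denN ζ / ε)) := by
    intro ζ t ht
    show 4 + ε ^ 2 * A (denN (t • ζ) / ε) = _
    rw [denN_smul ht, mul_div_assoc]
  have hrad1 : ∀ ζ : ℂ × ℂ, 0 ≤ fderiv ℝ D ζ ζ := by
    intro ζ
    refine den_mono_deriv (hray ζ) ?_
    intro s hs t ht hst
    have hs0 : (0 : ℝ) ≤ s := hs
    have ht0 : (0 : ℝ) ≤ t := ht
    show D (s • ζ) ≤ D (t • ζ)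
    rw [hDt ζ s hs0, hDt ζ t ht0]
    have h1 : A (s * (denN ζ / ε)) ≤ A (t * (denN ζ / ε)) :=
      hA.mono (Set.mem_Ici.mpr (mul_nonneg hs0 (hr ζ))) (Set.mem_Ici.mpr (mul_nonneg ht0 (hr ζ)))
        (mul_le_mul_of_nonneg_right hst (hr ζ))
    have h2 := mul_le_mul_of_nonneg_left h1 (sq_nonneg ε)
    linarith
  have hrad2 : ∀ ζ : ℂ × ℂ, fderiv ℝ D ζ ζ ≤ 2 * C * denN ζ ^ 2 := by
    intro ζ
    have h1 : HasDerivAt (fun t : ℝ => C * t ^ 2 * denN ζ ^ 2 - D (t • ζ))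
        (2 * C * denN ζ ^ 2 - fderiv ℝ D ζ ζ) 1 := by
      have h2 : HasDerivAt (fun t : ℝ => C * t ^ 2 * denN ζ ^ 2) (2 * C * denN ζ ^ 2) 1 := by
        have := ((hasDerivAt_pow 2 (1 : ℝ)).const_mul C).mul_const (denN ζ ^ 2)
        refine this.congr_deriv ?_
        push_cast
        ring
      exact h2.sub (hray ζ)
    have h3 := den_mono_deriv h1 ?_
    · linarith
    intro s hs t ht hst
    have hs0 : (0 : ℝ) ≤ s := hs
    have ht0 : (0 : ℝ) ≤ t := ht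
    show C * s ^ 2 * denN ζ ^ 2 - D (s • ζ) ≤ C * t ^ 2 * denN ζ ^ 2 - D (t • ζ)
    rw [hDt ζ s hs0, hDt ζ t ht0]
    have h4 := hBm (Set.mem_Ici.mpr (mul_nonneg hs0 (hr ζ)))
      (Set.mem_Ici.mpr (mul_nonneg ht0 (hr ζ))) (mul_le_mul_of_nonneg_right hst (hr ζ))
    have h5 := mul_le_mul_of_nonneg_left h4 (sq_nonneg ε)
    have h6 : ∀ u : ℝ, ε ^ 2 * (C * (u * (denN ζ / ε)) ^ 2 - A (u * (denN ζ / ε))) =
        C * u ^ 2 * denN ζ ^ 2 - ε ^ 2 * A (u * (denN ζ / ε)) := by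
      intro u
      field_simp
    simp only [h6] at h5
    linarith
  -- radial function
  have hstrict : ∀ x y : ℂ × ℂ, denN x < denN y → denN y ≤ 2 →
      denN x * D y < denN y * D x := by
    intro x y hxy hy2
    have hx0 := denN_nonneg x
    -- two cases with the same side of ε
    have case1 : ∀ x y : ℂ × ℂ, denN x < denN y → denN y ≤ ε →
        denN x * D y < denN y * D x := by
      intro x y hxy hy
      have hx0 := denN_nonneg x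
      have h1 := hBm (Set.mem_Ici.mpr (hr x)) (Set.mem_Ici.mpr (hr y))
        (div_le_div_of_nonneg_right hxy.le hε.le)
      have h2 := mul_le_mul_of_nonneg_left h1 (sq_nonneg ε)
      have h3 : ∀ u : ℝ, ε ^ 2 * (C * (u / ε) ^ 2 - A (u / ε)) =
          C * u ^ 2 - ε ^ 2 * A (u / ε) := by
        intro u
        field_simp
      simp only [h3] at h2
      have h4 : D y - D x ≤ C * (denN y ^ 2 - denN x ^ 2) := by
        show (4 + ε ^ 2 * A (denN y / ε)) - (4 + ε ^ 2 * A (denN x / ε)) ≤ _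
        linarith
      have h5 : denN x * (D y - D x) ≤ denN x * (C * (denN y ^ 2 - denN x ^ 2)) :=
        mul_le_mul_of_nonneg_left h4 hx0
      have h6 : denN x * (C * (denN y + denN x)) ≤ 2 * (C * ε ^ 2) := by
        have e1 : denN x * (denN y + denN x) ≤ ε * (ε + ε) :=
          mul_le_mul (hxy.le.trans hy) (add_le_add hy (hxy.le.trans hy))
            (add_nonneg (denN_nonneg y) hx0) hε.le
        have e2 := mul_le_mul_of_nonneg_left e1 (by linarith : (0 : ℝ) ≤ C)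
        nlinarith
      have h7 : denN x * (C * (denN y ^ 2 - denN x ^ 2)) =
          (denN x * (C * (denN y + denN x))) * (denN y - denN x) := by ring
      have h8 : (denN x * (C * (denN y + denN x))) * (denN y - denN x) ≤
          2 * (denN y - denN x) :=
        mul_le_mul_of_nonneg_right (by linarith) (by linarith)
      have h9 : 4 * (denN y - denN x) ≤ D x * (denN y - denN x) :=
        mul_le_mul_of_nonneg_right (hge x) (by linarith)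
      nlinarith
    have case2 : ∀ x y : ℂ × ℂ, ε ≤ denN x → denN x < denN y → denN y ≤ 2 →
        denN x * D y < denN y * D x := by
      intro x y hx hxy hy
      rw [hout x hx, hout y (hx.trans hxy.le)]
      have h1 : 0 < denN x := hε.trans_le hx
      have h2 : denN x * denN y < 4 := by nlinarith
      have h3 : 0 < (4 - denN x * denN y) * (denN y - denN x) :=
        mul_pos (by linarith) (by linarith)
      nlinarith
    rcases le_or_gt (denN y) ε with h | h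
    · exact case1 x y hxy h
    rcases le_or_gt ε (denN x) with h' | h'
    · exact case2 x y h' hxy hy2
    -- the point at distance ε
    set e : ℂ × ℂ := ((ε : ℂ), 0) with he
    have hNe : denN e = ε := by
      unfold denN
      rw [he]
      simp only [Complex.norm_real, norm_zero, Real.norm_eq_abs, sq_abs]
      rw [zero_pow two_ne_zero, add_zero, Real.sqrt_sq hε.le]
    have h1 := case1 x e (by rw [hNe]; exact h') (by rw [hNe])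
    have h2 := case2 e y (by rw [hNe]) (by rw [hNe]; exact h) hy2
    rw [hNe] at h1 h2
    have hDx := hge x
    have hDy := hge y
    have hDe := hge e
    -- x D e < ε D x, ε D y < y D e
    have h3 : denN x * D y * D e < denN y * D x * D e := by
      have e1 : (denN x * D e) * D y < (ε * D x) * D y :=
        mul_lt_mul_of_pos_right h1 (by linarith)
      have e2 : (ε * D y) * D x < (denN y * D e) * D x :=
        mul_lt_mul_of_pos_right h2 (by linarith)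
      nlinarith
    exact lt_of_mul_lt_mul_right h3 (by linarith)
  refine ⟨D, 4 + ε ^ 2 * A 0, ⟨hsmooth, ?_, ?_, hge, ?_, hconv, ?_, ?_, ?_, ?_⟩⟩
  · intro ζ h
    have h1 : ε ≤ denN ζ := by
      rw [← denN_sq] at h
      exact le_of_sq_le_sq h (denN_nonneg _)
    rw [hout ζ h1, denN_sq, add_assoc]
  · intro ζ h
    exact hconst ζ (hsq_le ζ _ (by positivity) h)
  · intro ζ h
    have h1 := hsq_le ζ ε hε.le h
    have h2 : A (denN ζ / ε) ≤ A 1 :=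
      hA.mono (Set.mem_Ici.mpr (hr ζ)) (Set.mem_Ici.mpr zero_le_one) ((div_le_one hε).mpr h1)
    rw [hA.big 1 le_rfl, one_pow] at h2
    have h3 := mul_le_mul_of_nonneg_left h2 (sq_nonneg ε)
    show 4 + ε ^ 2 * A (denN ζ / ε) ≤ 5
    nlinarith
  · have h1 : (fun ζ : ℂ × ℂ => C * (‖ζ.1‖ ^ 2 + ‖ζ.2‖ ^ 2) - D ζ) =
        fun ζ => -4 + ε ^ 2 * (C * (denN ζ / ε) ^ 2 - A (denN ζ / ε)) := by
      funext ζ
      rw [← denN_sq]
      show C * denN ζ ^ 2 - (4 + ε ^ 2 * A (denN ζ / ε)) = _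
      field_simp
      ring
    rw [h1]
    exact den_conv (F := fun r => C * r ^ 2 - A r) hBm hBc hε (-4)
  · intro ζ
    rw [← denN_sq]
    exact ⟨hrad1 ζ, hrad2 ζ⟩
  · intro ζ ζ' h h' heq
    have hN : denN ζ ≤ 2 := hsq_le ζ 2 (by norm_num) (by linarith)
    have hN' : denN ζ' ≤ 2 := hsq_le ζ' 2 (by norm_num) (by linarith)
    have hDζ := hge ζ
    have hDζ' := hge ζ'
    have h1 : (D ζ)⁻¹ * denN ζ = (D ζ')⁻¹ * denN ζ' := by
      rw [← denN_smul (by positivity), ← denN_smul (by positivity), heq]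
    have h2 : denN ζ * D ζ' = denN ζ' * D ζ := by
      have e1 : D ζ ≠ 0 := by linarith
      have e2 : D ζ' ≠ 0 := by linarith
      field_simp at h1
      linarith
    have h3 : denN ζ = denN ζ' := by
      rcases lt_trichotomy (denN ζ) (denN ζ') with hlt | he | hgt
      · exact absurd h2 (hstrict ζ ζ' hlt hN').ne
      · exact he
      · exact absurd h2.symm (hstrict ζ' ζ hgt hN).ne
    have h4 : D ζ = D ζ' := by
      show 4 + ε ^ 2 * A (denN ζ / ε) = 4 + ε ^ 2 * A (denN ζ' / ε)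
      rw [h3]
    rw [h4] at heq
    have h5 : (D ζ')⁻¹ ≠ 0 := inv_ne_zero (by linarith)
    exact smul_right_injective _ h5 heq
  · intro ζ h
    rcases le_or_gt (denN ζ) ε with h1 | h1
    · have h2 := hrad2 ζ
      have h3 : 2 * C * denN ζ ^ 2 ≤ 2 * (C * ε ^ 2) := by
        have e1 := pow_le_pow_left₀ (denN_nonneg ζ) h1 2
        have e2 := mul_le_mul_of_nonneg_left e1 (by linarith : (0 : ℝ) ≤ 2 * C)
        linarith
      linarith [hge ζ]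
    · have h2 : ConvexOn ℝ Set.univ fun t : ℝ => D (t • ζ) := by
        refine ⟨convex_univ, fun s _ t _ a b ha hb hab => ?_⟩
        have e1 := hconv.2 (Set.mem_univ (s • ζ)) (Set.mem_univ (t • ζ)) ha hb hab
        have e2 : (a • s + b • t) • ζ = a • s • ζ + b • t • ζ := by
          rw [add_smul, smul_assoc, smul_assoc]
        show D ((a • s + b • t) • ζ) ≤ a • D (s • ζ) + b • D (t • ζ)
        rw [e2]
        exact e1
      have h3 := h2.le_slope_of_hasDerivAt (Set.mem_univ (1 : ℝ)) (Set.mem_univ (2 : ℝ))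
        (by norm_num) (hray ζ)
      have h4 : denN ((2 : ℝ) • ζ) = 2 * denN ζ := denN_smul (by norm_num) ζ
      have h5 : D ((2 : ℝ) • ζ) = 4 + (2 * denN ζ) ^ 2 := by
        rw [hout _ (by rw [h4]; linarith), h4]
      rw [slope_def_field] at h3
      simp only [one_smul] at h3
      rw [h5, hout ζ h1.le] at h3
      have h6 : denN ζ ^ 2 ≤ 1 := by rw [denN_sq]; exact h
      rw [hout ζ h1.le]
      have h7 : (4 + (2 * denN ζ) ^ 2 - (4 + denN ζ ^ 2)) / (2 - 1) = 3 * denN ζ ^ 2 := by ring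
      rw [h7] at h3
      linarith

end Pool.Agent.H63.TV
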