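import Pool.Agent.H63.TV.Defs

/-!
# TV-24 (neck_profile), TV-25 (monotonicity), TV-26 (smoothness), TV-27 (injective immersion): the neck

`neck_profile`.  `S = Real.smoothTransition`.  `ν t = (1 - S (2t - 1)) + S (2t - 1) / t` for `t > 0` (`1` for `t ≤ 1/2`, `1/t` for `t ≥ 1`; put
`ν t = 1` for `t ≤ 0`), a positive smooth function with `t ν t ≤ 1` for `0 ≤ t ≤ 1`, strict for `t < 1`;
`ψ t = 1 - S (2t - 1)` (`1` for `t ≤ 1/2`, `0` for `t ≥ 1`, positive for `t < 1`, nonincreasing).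
`n t = s - ∫ τ in t..1, s τ ν τ` (so `n t = s t` for `t ≥ 1`), `n' t = s t ν t`, `κ = r / ∫ τ in 0..1, ψ τ ν τ`,
`m t = κ ∫ τ in 0..t, ψ τ ν τ` (so `m t = r` for `t ≥ 1`), `p t = κ ψ t / (s t)`: `m' = κ ψ ν = p n'`.
For `0 ≤ t ≤ 1/2`: `m t = κ t`, `n t = n 0 + s t²/2`, `n 0 = s (1 - ∫_0^1 τ ν τ) > 0`.
`p` is strictly decreasing on `(0, 1]` (`ψ` nonincreasing, positive for `t < 1`, `p 1 = 0`), `p → ∞` at `0`, continuous.
`u ↦ (m |u| / |u|) u` equals `κ u` for `|u| ≤ 1/2` (also at `0` with the convention `0/0 = 0`), and is smooth for `u ≠ 0`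
(`m` is smooth on `(0,∞)`, `|u|` is smooth for `u ≠ 0`).  Same for `n |u|`.

`IsNeck.n_mono`, `m_mono`: positive derivatives on the interiors, continuity on `[0, ∞)` (near `0` by `near0`).

`nk_smooth`: `len` is smooth and positive for `v ≠ 0`.
`nk_inj`: the second component minus `(1, c)` is `(n |u|) v` with `len v = 1`, so `n |u| = n |u'|` (take `len`), `|u| = |u'|` and `v = v'` (`n |u| > 0`);
the first component is `(m |u|/|u|) u`, `m |u| > 0` for `u ≠ 0`.
`nk_imm` at `(u, v)`: let the derivative vanish in the direction `(a, b)`.  Write `v̂ = v / len v`.  Second component: `d (n |u| v̂) = 0`; its part along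
`v̂` is `d (n |u|)`, the part orthogonal to `v̂` is `n |u|` times `d v̂`, so `d v̂ = 0`, i.e. `b = t v`, and `d(n |u|) = 0`.
If `u = 0` the first component is `κ a = 0`.  If `u ≠ 0`: `d (n |u|) = n' (|u|) d|u|`, so `d |u| = 0`; and then
`0 = d ((m |u|/|u|) u) = (m |u| / |u|) a`, so `a = 0`.
-/

open scoped ContDiff ComplexConjugate

namespace Pool.Agent.H63.TV

noncomputable section

/-- the profile `(n, m)` of the neck with `m' = p n'` -/
structure IsNeck (r s : ℝ) (m n p n' : ℝ → ℝ) : Prop where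
  sm : ContDiff ℝ ∞ fun u : ℂ => ((m ‖u‖ / ‖u‖ : ℝ) : ℂ) * u
  sn : ContDiff ℝ ∞ fun u : ℂ => n ‖u‖
  m_out : ∀ t, 1 ≤ t → m t = r
  n_out : ∀ t, 1 ≤ t → n t = s * t
  n_zero : 0 < n 0
  dm : ∀ t, 0 < t → HasDerivAt m (p t * n' t) t
  dn : ∀ t, 0 < t → HasDerivAt n (n' t) t
  n'_pos : ∀ t, 0 < t → 0 < n' t
  p_out : ∀ t, 1 ≤ t → p t = 0
  p_anti : StrictAntiOn p (Set.Ioc 0 1)
  p_surj : ∀ μ, 0 < μ → ∃ t, 0 < t ∧ t < 1 ∧ p t = μ
  near0 : ∃ κ κ' : ℝ, 0 < κ ∧ 0 < κ' ∧ ∀ t, 0 ≤ t → t ≤ 1 / 2 → m t = κ * t ∧ n t = n 0 + κ' * t ^ 2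

/-- `S (2t - 1)` -/
private def sS (t : ℝ) : ℝ := Real.smoothTransition (2 * t - 1)

private theorem sS_low {t : ℝ} (h : t ≤ 1 / 2) : sS t = 0 :=
  Real.smoothTransition.zero_of_nonpos (by linarith)

private theorem sS_high {t : ℝ} (h : 1 ≤ t) : sS t = 1 :=
  Real.smoothTransition.one_of_one_le (by linarith)

private theorem sS_nonneg (t : ℝ) : 0 ≤ sS t := Real.smoothTransition.nonneg _

private theorem sS_le (t : ℝ) : sS t ≤ 1 := Real.smoothTransition.le_one _

private theorem sS_lt {t : ℝ} (h : t < 1) : sS t < 1 :=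
  Real.smoothTransition.lt_one_of_lt_one (by linarith)

private theorem sS_mono : Monotone sS := by
  intro a b hab
  exact Real.smoothTransition.monotone (by linarith)

private theorem sS_cd : ContDiff ℝ ∞ sS :=
  Real.smoothTransition.contDiff.comp ((contDiff_const.mul contDiff_id).sub contDiff_const)

private def nu (t : ℝ) : ℝ := (1 - sS t) + sS t / t

private theorem nu_low {t : ℝ} (h : t ≤ 1 / 2) : nu t = 1 := by
  unfold nu; rw [sS_low h]; simp

private theorem nu_high {t : ℝ} (h : 1 ≤ t) : nu t = 1 / t := by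
  unfold nu; rw [sS_high h]; simp

private theorem nu_pos {t : ℝ} (h : 0 < t) : 0 < nu t := by
  unfold nu
  by_cases h1 : t < 1
  · have := sS_lt h1
    have h2 : 0 ≤ sS t / t := div_nonneg (sS_nonneg t) h.le
    linarith
  · rw [sS_high (by linarith)]
    have : 0 < 1 / t := by positivity
    linarith

private theorem nu_cd : ContDiff ℝ ∞ nu := by
  rw [contDiff_iff_contDiffAt]
  intro t
  by_cases h : t < 1 / 2
  · have h1 : nu =ᶠ[nhds t] fun _ => (1:ℝ) := by
      filter_upwards [Iio_mem_nhds h] with x hx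
      exact nu_low (le_of_lt hx)
    exact contDiffAt_const.congr_of_eventuallyEq h1
  · have ht : t ≠ 0 := by intro h0; rw [h0] at h; norm_num at h
    unfold nu
    exact (contDiffAt_const.sub sS_cd.contDiffAt).add (sS_cd.contDiffAt.div contDiffAt_id ht)

/-- the integrand of `m` -/
private def gg (t : ℝ) : ℝ := (1 - sS t) * nu t

/-- the integrand of `n` -/
private def hh (t : ℝ) : ℝ := t * nu t

private theorem gg_cd : ContDiff ℝ ∞ gg := (contDiff_const.sub sS_cd).mul nu_cd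

private theorem hh_cd : ContDiff ℝ ∞ hh := contDiff_id.mul nu_cd

private theorem gg_low {t : ℝ} (h : t ≤ 1 / 2) : gg t = 1 := by
  unfold gg; rw [sS_low h, nu_low h]; simp

private theorem hh_low {t : ℝ} (h : t ≤ 1 / 2) : hh t = t := by
  unfold hh; rw [nu_low h]; simp

private theorem gg_high {t : ℝ} (h : 1 ≤ t) : gg t = 0 := by
  unfold gg; rw [sS_high h]; simp

private theorem hh_high {t : ℝ} (h : 1 ≤ t) : hh t = 1 := by
  unfold hh; rw [nu_high h]
  have : t ≠ 0 := by linarith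
  field_simp

private theorem hh_eq {t : ℝ} (h : 0 < t) : hh t = t * (1 - sS t) + sS t := by
  unfold hh nu
  field_simp

private theorem gg_pos {t : ℝ} (h0 : 0 < t) (h1 : t < 1) : 0 < gg t :=
  mul_pos (by linarith [sS_lt h1]) (nu_pos h0)

private theorem prim_cd (f : ℝ → ℝ) (hf : ContDiff ℝ ∞ f) (a : ℝ) :
    ContDiff ℝ ∞ (fun t => ∫ τ in a..t, f τ) ∧
      ∀ t, HasDerivAt (fun t => ∫ τ in a..t, f τ) (f t) t := by
  have hd : ∀ t, HasDerivAt (fun t => ∫ τ in a..t, f τ) (f t) t := fun t =>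
    intervalIntegral.integral_hasDerivAt_right (hf.continuous.intervalIntegrable _ _)
      (hf.continuous.stronglyMeasurableAtFilter _ _) hf.continuous.continuousAt
  refine ⟨?_, hd⟩
  rw [contDiff_infty_iff_deriv]
  refine ⟨fun t => (hd t).differentiableAt, ?_⟩
  have : deriv (fun t => ∫ τ in a..t, f τ) = f := funext fun t => (hd t).deriv
  rw [this]; exact hf

private theorem int_g_pos : 0 < ∫ τ in (0:ℝ)..1, gg τ := by
  apply intervalIntegral.intervalIntegral_pos_of_pos_on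
    (gg_cd.continuous.intervalIntegrable _ _) _ one_pos
  intro x hx
  exact gg_pos hx.1 hx.2

private theorem int_h_lt : ∫ τ in (0:ℝ)..1, hh τ < 1 := by
  have h1 : ∫ τ in (0:ℝ)..1, hh τ < ∫ τ in (0:ℝ)..1, (1:ℝ) := by
    apply intervalIntegral.integral_lt_integral_of_continuousOn_of_le_of_exists_lt one_pos
      hh_cd.continuous.continuousOn continuousOn_const
    · intro x hx
      rw [hh_eq hx.1]
      have := sS_nonneg x; have := sS_le x
      nlinarith [hx.2, hx.1]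
    · refine ⟨1 / 2, ⟨by norm_num, by norm_num⟩, ?_⟩
      rw [hh_low le_rfl]; norm_num
  simpa using h1

/-- smoothness of `f ‖u‖` type functions away from zero -/
private theorem radial_cd {F : Type*} [NormedAddCommGroup F] [NormedSpace ℝ F] (f : ℂ → F)
    (h0 : ∃ g : ℂ → F, ContDiff ℝ ∞ g ∧ ∀ u : ℂ, ‖u‖ < 1 / 2 → f u = g u)
    (h1 : ∀ u : ℂ, u ≠ 0 → ContDiffAt ℝ ∞ f u) : ContDiff ℝ ∞ f := by
  obtain ⟨g, hg, hfg⟩ := h0
  rw [contDiff_iff_contDiffAt]
  intro u
  by_cases hu : u = 0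
  · have h2 : f =ᶠ[nhds u] g := by
      have : ∀ᶠ v in nhds u, ‖v‖ < 1 / 2 := by
        apply (continuous_norm.continuousAt (x := u)).eventually_lt continuousAt_const
        rw [hu, norm_zero]; norm_num
      filter_upwards [this] with v hv using hfg v hv
    exact hg.contDiffAt.congr_of_eventuallyEq h2
  · exact h1 u hu

theorem neck_profile (r s : ℝ) (hr : 0 < r) (hs : 0 < s) :
    ∃ m n p n' : ℝ → ℝ, IsNeck r s m n p n' := by
  obtain ⟨I, hI⟩ : ∃ I, I = ∫ τ in (0:ℝ)..1, gg τ := ⟨_, rfl⟩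
  have hIpos : 0 < I := by rw [hI]; exact int_g_pos
  obtain ⟨κ, hκ⟩ : ∃ κ, κ = r / I := ⟨_, rfl⟩
  have hκpos : 0 < κ := by rw [hκ]; positivity
  obtain ⟨hGcd, hGd⟩ := prim_cd gg gg_cd 0
  obtain ⟨hHcd, hHd⟩ := prim_cd hh hh_cd 1
  obtain ⟨m, hm⟩ : ∃ m : ℝ → ℝ, m = fun t => κ * ∫ τ in (0:ℝ)..t, gg τ := ⟨_, rfl⟩
  obtain ⟨n, hn⟩ : ∃ n : ℝ → ℝ, n = fun t => s + s * ∫ τ in (1:ℝ)..t, hh τ := ⟨_, rfl⟩
  obtain ⟨p, hp⟩ : ∃ p : ℝ → ℝ, p = fun t => κ * (1 - sS t) / (s * t) := ⟨_, rfl⟩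
  have hmcd : ContDiff ℝ ∞ m := by rw [hm]; exact contDiff_const.mul hGcd
  have hncd : ContDiff ℝ ∞ n := by rw [hn]; exact contDiff_const.add (contDiff_const.mul hHcd)
  have hmt : ∀ t, m t = κ * ∫ τ in (0:ℝ)..t, gg τ := fun t => by rw [hm]
  have hnt : ∀ t, n t = s + s * ∫ τ in (1:ℝ)..t, hh τ := fun t => by rw [hn]
  have hmlow : ∀ t, 0 ≤ t → t ≤ 1 / 2 → m t = κ * t := by
    intro t h0 h1
    rw [hmt]
    have : ∫ τ in (0:ℝ)..t, gg τ = ∫ τ in (0:ℝ)..t, (1:ℝ) := by
      apply intervalIntegral.integral_congr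
      intro x hx
      rw [Set.uIcc_of_le h0] at hx
      exact gg_low (hx.2.trans h1)
    rw [this]; simp
  have hnlow : ∀ t, 0 ≤ t → t ≤ 1 / 2 → n t = n 0 + (s / 2) * t ^ 2 := by
    intro t h0 h1
    rw [hnt, hnt]
    have h2 : ∫ τ in (1:ℝ)..t, hh τ = (∫ τ in (1:ℝ)..0, hh τ) + ∫ τ in (0:ℝ)..t, hh τ :=
      (intervalIntegral.integral_add_adjacent_intervals
        (hh_cd.continuous.intervalIntegrable _ _) (hh_cd.continuous.intervalIntegrable _ _)).symm
    have h3 : ∫ τ in (0:ℝ)..t, hh τ = ∫ τ in (0:ℝ)..t, τ := by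
      apply intervalIntegral.integral_congr
      intro x hx
      rw [Set.uIcc_of_le h0] at hx
      exact hh_low (hx.2.trans h1)
    rw [h2, h3, integral_id]; ring
  refine ⟨m, n, p, fun t => s * hh t, ?_⟩
  refine ⟨?_, ?_, ?_, ?_, ?_, ?_, ?_, ?_, ?_, ?_, ?_, ?_⟩
  · apply radial_cd
    · refine ⟨fun u => (κ : ℂ) * u, contDiff_const.mul contDiff_id, ?_⟩
      intro u hu
      by_cases h : u = 0
      · rw [h]; simp
      · have h1 : ‖u‖ ≠ 0 := norm_ne_zero_iff.mpr h
        rw [hmlow _ (norm_nonneg _) hu.le, mul_div_cancel_right₀ _ h1]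
    · intro u hu
      have h1 : ‖u‖ ≠ 0 := norm_ne_zero_iff.mpr hu
      have hN : ContDiffAt ℝ ∞ (fun v : ℂ => ‖v‖) u := contDiffAt_norm ℝ hu
      have h2 : ContDiffAt ℝ ∞ (fun v : ℂ => m ‖v‖ / ‖v‖) u :=
        (hmcd.contDiffAt.comp u hN).div hN h1
      have h3 : ContDiffAt ℝ ∞ (fun v : ℂ => ((m ‖v‖ / ‖v‖ : ℝ) : ℂ)) u :=
        Complex.ofRealCLM.contDiff.contDiffAt.comp u h2
      exact h3.mul contDiffAt_id
  · apply radial_cd
    · refine ⟨fun u => n 0 + (s / 2) * ‖u‖ ^ 2, contDiff_const.add (contDiff_const.mul (contDiff_norm_sq ℝ)), ?_⟩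
      intro u hu
      exact hnlow _ (norm_nonneg _) hu.le
    · intro u hu
      have hN : ContDiffAt ℝ ∞ (fun v : ℂ => ‖v‖) u := contDiffAt_norm ℝ hu
      exact hncd.contDiffAt.comp u hN
  · intro t ht
    rw [hmt]
    have h2 : ∫ τ in (0:ℝ)..t, gg τ = (∫ τ in (0:ℝ)..1, gg τ) + ∫ τ in (1:ℝ)..t, gg τ :=
      (intervalIntegral.integral_add_adjacent_intervals
        (gg_cd.continuous.intervalIntegrable _ _) (gg_cd.continuous.intervalIntegrable _ _)).symm
    have h3 : ∫ τ in (1:ℝ)..t, gg τ = 0 := by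
      have : ∫ τ in (1:ℝ)..t, gg τ = ∫ τ in (1:ℝ)..t, (0:ℝ) := by
        apply intervalIntegral.integral_congr
        intro x hx
        rw [Set.uIcc_of_le ht] at hx
        exact gg_high hx.1
      rw [this]; simp
    rw [h2, h3, ← hI, hκ, add_zero]
    field_simp
  · intro t ht
    rw [hnt]
    have h3 : ∫ τ in (1:ℝ)..t, hh τ = ∫ τ in (1:ℝ)..t, (1:ℝ) := by
      apply intervalIntegral.integral_congr
      intro x hx
      rw [Set.uIcc_of_le ht] at hx
      exact hh_high hx.1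
    rw [h3]; simp; ring
  · rw [hnt, intervalIntegral.integral_symm]
    have := int_h_lt
    nlinarith
  · intro t ht
    have h1 : HasDerivAt m (κ * gg t) t := by rw [hm]; exact (hGd t).const_mul κ
    have h2 : κ * gg t = p t * (s * hh t) := by
      rw [hp]; unfold gg hh
      field_simp
    rw [← h2]; exact h1
  · intro t ht
    rw [hn]
    exact ((hHd t).const_mul s).const_add s
  · intro t ht
    have := nu_pos ht
    show 0 < s * (t * nu t)
    positivity
  · intro t ht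
    rw [hp]
    show κ * (1 - sS t) / (s * t) = 0
    rw [sS_high ht]; simp
  · intro a ha b hb hab
    rw [hp]
    show κ * (1 - sS b) / (s * b) < κ * (1 - sS a) / (s * a)
    have ha0 : 0 < a := ha.1
    have hb0 : 0 < b := hb.1
    have h1 : sS a ≤ sS b := sS_mono hab.le
    have h2 : sS a < 1 := sS_lt (lt_of_lt_of_le hab hb.2)
    have h3 := sS_le b
    rw [div_lt_div_iff₀ (by positivity) (by positivity)]
    have h4 : (1 - sS b) * a < (1 - sS a) * b := by nlinarith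
    have h5 : 0 < κ * s := by positivity
    nlinarith
  · intro μ hμ
    obtain ⟨t0, ht0⟩ : ∃ t0, t0 = min (1 / 2) (κ / (2 * s * μ)) := ⟨_, rfl⟩
    have h1 : 0 < t0 := by rw [ht0]; apply lt_min (by norm_num); positivity
    have h2 : t0 ≤ 1 / 2 := by rw [ht0]; exact min_le_left _ _
    have h3 : t0 ≤ κ / (2 * s * μ) := by rw [ht0]; exact min_le_right _ _
    have h4 : μ ≤ p t0 := by
      rw [hp]
      show μ ≤ κ * (1 - sS t0) / (s * t0)
      rw [sS_low h2, le_div_iff₀ (by positivity)]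
      rw [le_div_iff₀ (by positivity)] at h3
      nlinarith [mul_pos hμ (mul_pos hs h1)]
    have hcont : ContinuousOn p (Set.Icc t0 1) := by
      rw [hp]
      apply ContinuousOn.div
      · exact (continuous_const.mul (continuous_const.sub sS_cd.continuous)).continuousOn
      · exact (continuous_const.mul continuous_id).continuousOn
      · intro x hx
        have : 0 < x := lt_of_lt_of_le h1 hx.1
        positivity
    have hp1 : p 1 = 0 := by
      rw [hp]
      show κ * (1 - sS 1) / (s * 1) = 0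
      rw [sS_high le_rfl]; simp
    have h5 : μ ∈ Set.Icc (p 1) (p t0) := ⟨by rw [hp1]; exact hμ.le, h4⟩
    obtain ⟨t, ht, htm⟩ := intermediate_value_Icc' (by linarith : t0 ≤ 1) hcont h5
    refine ⟨t, lt_of_lt_of_le h1 ht.1, ?_, htm⟩
    rcases lt_or_eq_of_le ht.2 with h | h
    · exact h
    · exfalso; rw [h, hp1] at htm; linarith
  · refine ⟨κ, s / 2, hκpos, by positivity, fun t h0 h1 => ⟨hmlow t h0 h1, hnlow t h0 h1⟩⟩

end

end Pool.Agent.H63.TV
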