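import Pool.Agent.H63.TV.Defs
import Pool.Agent.H63.TV.NeckA1

/-!
# TV-24 (neck_profile), TV-25 (monotonicity), TV-26 (smoothness), TV-27 (injective immersion): the neck

`neck_profile`.  `S = Real.smoothTransition`.  `ν t = (1 - S (2t - 1)) + S (2t - 1) / t` for `t > 0` (`1` for `t ≤ 1/2`, `1/t` for `t ≥ 1`; put
`ν t = 1` for `t ≤ 0`), a positive smooth function with `t ν t ≤ 1` for `0 ≤ t ≤ 1`, strict for `t < 1`;
`ψ t = 1 - S (2t - 1)` (`1` for `t ≤ 1/2`, `0` for `t ≥ 1`, positive for `t < 1`, nonincreasing).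
`n t = s - ∫ τ in t..1, s τ ν τ` (so `n t = s t` for `t ≥ 1`), `n' t = s t ν t`, `κ = r / ∫ τ in 0..1, ψ τ ν τ`,
`m t = κ ∫ τ in 0..t, ψ τ ν τ` (so `m t = r` for `t ≥ 1`), `p t = κ ψ t / (s t)`: `m' = κ ψ ν = p n'`.
For `0 ≤ t ≤ 1/2`: `m t = κ t`, `n t = n 0 + s t²/2`, `n 0 = s (1 - ∫_0^1 τ ν τ) > 0`.
`p` is strictly decreasing on `(0, 1]` (`ψ` nonincreasing, positive for `t < 1`, `p 1 = 0`), `p → ∞` at `0`, continuous.
`u ↦ (m |u| / |u|) u` equals `κ u` for `|u| ≤ 1/2` (also at `0` with the convention `0/0 = 0`), and is smooth for `u ≠ 0`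
(`m` is smooth on `(0,∞)`, `|u|` is smooth for `u ≠ 0`).  Same for `n |u|`.

`IsNeck.n_mono`, `m_mono`: positive derivatives on the interiors, continuity on `[0, ∞)` (near `0` by `near0`).

`nk_smooth`: `len` is smooth and positive for `v ≠ 0`.
`nk_inj`: the second component minus `(1, c)` is `(n |u|) v` with `len v = 1`, so `n |u| = n |u'|` (take `len`), `|u| = |u'|` and `v = v'` (`n |u| > 0`);
the first component is `(m |u|/|u|) u`, `m |u| > 0` for `u ≠ 0`.
`nk_imm` at `(u, v)`: let the derivative vanish in the direction `(a, b)`.  Write `v̂ = v / len v`.  Second component: `d (n |u| v̂) = 0`; its part along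
`v̂` is `d (n |u|)`, the part orthogonal to `v̂` is `n |u|` times `d v̂`, so `d v̂ = 0`, i.e. `b = t v`, and `d(n |u|) = 0`.
If `u = 0` the first component is `κ a = 0`.  If `u ≠ 0`: `d (n |u|) = n' (|u|) d|u|`, so `d |u| = 0`; and then
`0 = d ((m |u|/|u|) u) = (m |u| / |u|) a`, so `a = 0`.
-/

open scoped ContDiff ComplexConjugate

namespace Pool.Agent.H63.TV

noncomputable section

theorem IsNeck.m_zero {r s : ℝ} {m n p n' : ℝ → ℝ} (h : IsNeck r s m n p n') : m 0 = 0 := by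
  obtain ⟨κ, κ', h1, h2, h3⟩ := h.near0
  have := (h3 0 le_rfl (by norm_num)).1
  simpa using this

private theorem IsNeck.cont_aux {r s : ℝ} {m n p n' : ℝ → ℝ} (h : IsNeck r s m n p n') :
    ContinuousOn m (Set.Ici 0) ∧ ContinuousOn n (Set.Ici 0) := by
  obtain ⟨κ, κ', -, -, h3⟩ := h.near0
  have hmem : Set.Icc (0 : ℝ) (1 / 2) ∈ nhdsWithin (0 : ℝ) (Set.Ici 0) := by
    rw [show Set.Icc (0 : ℝ) (1 / 2) = Set.Ici 0 ∩ Set.Iic (1 / 2) from rfl]
    exact Filter.inter_mem self_mem_nhdsWithin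
      (mem_nhdsWithin_of_mem_nhds (Iic_mem_nhds (by norm_num)))
  constructor
  · intro t ht
    rcases eq_or_lt_of_le (Set.mem_Ici.mp ht) with h0 | h0
    · subst h0
      have hc : ContinuousWithinAt (fun t : ℝ => κ * t) (Set.Ici 0) 0 := by fun_prop
      refine hc.congr_of_eventuallyEq ?_ (h3 0 le_rfl (by norm_num)).1
      filter_upwards [hmem] with x hx
      exact (h3 x hx.1 hx.2).1
    · exact (h.dm t h0).continuousAt.continuousWithinAt
  · intro t ht
    rcases eq_or_lt_of_le (Set.mem_Ici.mp ht) with h0 | h0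
    · subst h0
      have hc : ContinuousWithinAt (fun t : ℝ => n 0 + κ' * t ^ 2) (Set.Ici 0) 0 := by fun_prop
      refine hc.congr_of_eventuallyEq ?_ (h3 0 le_rfl (by norm_num)).2
      filter_upwards [hmem] with x hx
      exact (h3 x hx.1 hx.2).2
    · exact (h.dn t h0).continuousAt.continuousWithinAt

theorem IsNeck.n_mono {r s : ℝ} {m n p n' : ℝ → ℝ} (h : IsNeck r s m n p n') :
    StrictMonoOn n (Set.Ici 0) := by
  refine strictMonoOn_of_deriv_pos (convex_Ici 0) h.cont_aux.2 ?_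
  intro x hx
  rw [interior_Ici] at hx
  rw [(h.dn x hx).deriv]
  exact h.n'_pos x hx

theorem IsNeck.m_mono {r s : ℝ} {m n p n' : ℝ → ℝ} (h : IsNeck r s m n p n') :
    StrictMonoOn m (Set.Icc 0 1) := by
  refine strictMonoOn_of_deriv_pos (convex_Icc 0 1) (h.cont_aux.1.mono Set.Icc_subset_Ici_self) ?_
  intro x hx
  rw [interior_Icc] at hx
  rw [(h.dm x hx.1).deriv]
  refine mul_pos ?_ (h.n'_pos x hx.1)
  have := h.p_anti (Set.mem_Ioc.mpr ⟨hx.1, hx.2.le⟩) (Set.mem_Ioc.mpr ⟨one_pos, le_rfl⟩) hx.2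
  rwa [h.p_out 1 le_rfl] at this

theorem IsNeck.cont {r s : ℝ} {m n p n' : ℝ → ℝ} (h : IsNeck r s m n p n') :
    ContinuousOn m (Set.Ici 0) ∧ ContinuousOn n (Set.Ici 0) :=
  h.cont_aux

end

end Pool.Agent.H63.TV
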