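import Pool.Agent.H63.TV.Defs
import Pool.Agent.H63.TV.NeckA2

/-!
# TV-24 (neck_profile), TV-25 (monotonicity), TV-26 (smoothness), TV-27 (injective immersion): the neck

`neck_profile`.  `S = Real.smoothTransition`.  `ν t = (1 - S (2t - 1)) + S (2t - 1) / t` for `t > 0` (`1` for `t ≤ 1/2`, `1/t` for `t ≥ 1`; put
`ν t = 1` for `t ≤ 0`), a positive smooth function with `t ν t ≤ 1` for `0 ≤ t ≤ 1`, strict for `t < 1`;
`ψ t = 1 - S (2t - 1)` (`1` for `t ≤ 1/2`, `0` for `t ≥ 1`, positive for `t < 1`, nonincreasing).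
`n t = s - ∫ τ in t..1, s τ ν τ` (so `n t = s t` for `t ≥ 1`), `n' t = s t ν t`, `κ = r / ∫ τ in 0..1, ψ τ ν τ`,
`m t = κ ∫ τ in 0..t, ψ τ ν τ` (so `m t = r` for `t ≥ 1`), `p t = κ ψ t / (s t)`: `m' = κ ψ ν = p n'`.
For `0 ≤ t ≤ 1/2`: `m t = κ t`, `n t = n 0 + s t²/2`, `n 0 = s (1 - ∫_0^1 τ ν τ) > 0`.
`p` is strictly decreasing on `(0, 1]` (`ψ` nonincreasing, positive for `t < 1`, `p 1 = 0`), `p → ∞` at `0`, continuous.
`u ↦ (m |u| / |u|) u` equals `κ u` for `|u| ≤ 1/2` (also at `0` with the convention `0/0 = 0`), and is smooth for `u ≠ 0`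
(`m` is smooth on `(0,∞)`, `|u|` is smooth for `u ≠ 0`).  Same for `n |u|`.

`IsNeck.n_mono`, `m_mono`: positive derivatives on the interiors, continuity on `[0, ∞)` (near `0` by `near0`).

`nk_smooth`: `len` is smooth and positive for `v ≠ 0`.
`nk_inj`: the second component minus `(1, c)` is `(n |u|) v` with `len v = 1`, so `n |u| = n |u'|` (take `len`), `|u| = |u'|` and `v = v'` (`n |u| > 0`);
the first component is `(m |u|/|u|) u`, `m |u| > 0` for `u ≠ 0`.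
`nk_imm` at `(u, v)`: let the derivative vanish in the direction `(a, b)`.  Write `v̂ = v / len v`.  Second component: `d (n |u| v̂) = 0`; its part along
`v̂` is `d (n |u|)`, the part orthogonal to `v̂` is `n |u|` times `d v̂`, so `d v̂ = 0`, i.e. `b = t v`, and `d(n |u|) = 0`.
If `u = 0` the first component is `κ a = 0`.  If `u ≠ 0`: `d (n |u|) = n' (|u|) d|u|`, so `d |u| = 0`; and then
`0 = d ((m |u|/|u|) u) = (m |u| / |u|) a`, so `a = 0`.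
-/

open scoped ContDiff ComplexConjugate

namespace Pool.Agent.H63.TV

noncomputable section

/-- the neck map `B^2 × S^2 → ℂ × ℝ^3` -/
def nk (m n : ℝ → ℝ) (c : ℂ) (y : ℂ × R3) : ℂ × R3 :=
  (((m ‖y.1‖ / ‖y.1‖ : ℝ) : ℂ) * y.1,
    (1 + n ‖y.1‖ / len y.2 * y.2.1, c + ((n ‖y.1‖ / len y.2 : ℝ) : ℂ) * y.2.2))

theorem len_smul (t : ℝ) (v : R3) (ht : 0 < t) : len (t • v) = t * len v := by
  unfold len
  have h : (t • v).1 ^ 2 + ‖(t • v).2‖ ^ 2 = t ^ 2 * (v.1 ^ 2 + ‖v.2‖ ^ 2) := by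
    rw [Prod.smul_fst, Prod.smul_snd, norm_smul, Real.norm_eq_abs, abs_of_pos ht, smul_eq_mul]
    ring
  rw [h, Real.sqrt_mul (by positivity), Real.sqrt_sq ht.le]

theorem len_pos {v : R3} (hv : v ≠ 0) : 0 < len v := by
  unfold len
  apply Real.sqrt_pos.2
  by_contra hcon
  have h1 : v.1 ^ 2 + ‖v.2‖ ^ 2 ≤ 0 := not_lt.1 hcon
  have h2 : v.1 = 0 := by nlinarith [sq_nonneg v.1, sq_nonneg ‖v.2‖]
  have h3 : ‖v.2‖ = 0 := by nlinarith [sq_nonneg v.1, sq_nonneg ‖v.2‖]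
  exact hv (Prod.ext h2 (norm_eq_zero.1 h3))

theorem nk_smul (m n : ℝ → ℝ) (c : ℂ) (u : ℂ) (v : R3) (t : ℝ) (ht : 0 < t) :
    nk m n c (u, t • v) = nk m n c (u, v) := by
  have ht' : t ≠ 0 := ht.ne'
  have h1 : ∀ a : ℝ, a / (t * len v) * t = a / len v := by
    intro a
    rw [mul_comm t (len v), ← div_div, div_mul_cancel₀ _ ht']
  unfold nk
  rw [len_smul t v ht]
  refine Prod.ext rfl (Prod.ext ?_ ?_)
  · change 1 + n ‖u‖ / (t * len v) * (t * v.1) = 1 + n ‖u‖ / len v * v.1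
    rw [← mul_assoc, h1]
  · change c + ((n ‖u‖ / (t * len v) : ℝ) : ℂ) * (t • v.2) =
      c + ((n ‖u‖ / len v : ℝ) : ℂ) * v.2
    rw [Complex.real_smul, ← mul_assoc, ← Complex.ofReal_mul, h1]

theorem nk_len_smooth : ContDiffOn ℝ ∞ (fun y : ℂ × R3 => len y.2) {y | y.2 ≠ 0} := by
  unfold len
  refine ContDiffOn.sqrt ?_ ?_
  · refine ContDiff.contDiffOn ?_
    have h1 : ContDiff ℝ ∞ fun y : ℂ × R3 => y.2.1 ^ 2 := by fun_prop
    have h2 : ContDiff ℝ ∞ fun y : ℂ × R3 => y.2.2 := by fun_prop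
    exact h1.add (h2.norm_sq ℝ)
  · intro y hy h
    have h1 := len_pos (v := y.2) hy
    unfold len at h1
    rw [h, Real.sqrt_zero] at h1
    exact lt_irrefl _ h1

theorem nk_smooth {r s : ℝ} {m n p n' : ℝ → ℝ} (h : IsNeck r s m n p n') (c : ℂ) :
    ContDiffOn ℝ ∞ (nk m n c) {y | y.2 ≠ 0} := by
  have h1 : ContDiffOn ℝ ∞ (fun y : ℂ × R3 => ((m ‖y.1‖ / ‖y.1‖ : ℝ) : ℂ) * y.1)
      {y | y.2 ≠ 0} := (h.sm.comp contDiff_fst).contDiffOn
  have h2 : ContDiffOn ℝ ∞ (fun y : ℂ × R3 => n ‖y.1‖) {y | y.2 ≠ 0} :=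
    (h.sn.comp contDiff_fst).contDiffOn
  have h3 : ContDiffOn ℝ ∞ (fun y : ℂ × R3 => n ‖y.1‖ / len y.2) {y | y.2 ≠ 0} :=
    h2.div nk_len_smooth fun y hy => (len_pos hy).ne'
  have h4 : ContDiffOn ℝ ∞ (fun y : ℂ × R3 => ((n ‖y.1‖ / len y.2 : ℝ) : ℂ)) {y | y.2 ≠ 0} :=
    Complex.ofRealCLM.contDiff.comp_contDiffOn h3
  have h5 : ContDiffOn ℝ ∞ (fun y : ℂ × R3 => y.2.1) {y | y.2 ≠ 0} :=
    (by fun_prop : ContDiff ℝ ∞ fun y : ℂ × R3 => y.2.1).contDiffOn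
  have h6 : ContDiffOn ℝ ∞ (fun y : ℂ × R3 => y.2.2) {y | y.2 ≠ 0} :=
    (by fun_prop : ContDiff ℝ ∞ fun y : ℂ × R3 => y.2.2).contDiffOn
  exact h1.prodMk ((contDiffOn_const.add (h3.mul h5)).prodMk (contDiffOn_const.add (h4.mul h6)))

end

end Pool.Agent.H63.TV
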