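import Pool.Agent.H63.TV.Defs
import Pool.Agent.H63.TV.NeckA3

/-!
# TV-24 (neck_profile), TV-25 (monotonicity), TV-26 (smoothness), TV-27 (injective immersion): the neck

`neck_profile`.  `S = Real.smoothTransition`.  `ν t = (1 - S (2t - 1)) + S (2t - 1) / t` for `t > 0` (`1` for `t ≤ 1/2`, `1/t` for `t ≥ 1`; put
`ν t = 1` for `t ≤ 0`), a positive smooth function with `t ν t ≤ 1` for `0 ≤ t ≤ 1`, strict for `t < 1`;
`ψ t = 1 - S (2t - 1)` (`1` for `t ≤ 1/2`, `0` for `t ≥ 1`, positive for `t < 1`, nonincreasing).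
`n t = s - ∫ τ in t..1, s τ ν τ` (so `n t = s t` for `t ≥ 1`), `n' t = s t ν t`, `κ = r / ∫ τ in 0..1, ψ τ ν τ`,
`m t = κ ∫ τ in 0..t, ψ τ ν τ` (so `m t = r` for `t ≥ 1`), `p t = κ ψ t / (s t)`: `m' = κ ψ ν = p n'`.
For `0 ≤ t ≤ 1/2`: `m t = κ t`, `n t = n 0 + s t²/2`, `n 0 = s (1 - ∫_0^1 τ ν τ) > 0`.
`p` is strictly decreasing on `(0, 1]` (`ψ` nonincreasing, positive for `t < 1`, `p 1 = 0`), `p → ∞` at `0`, continuous.
`u ↦ (m |u| / |u|) u` equals `κ u` for `|u| ≤ 1/2` (also at `0` with the convention `0/0 = 0`), and is smooth for `u ≠ 0`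
(`m` is smooth on `(0,∞)`, `|u|` is smooth for `u ≠ 0`).  Same for `n |u|`.

`IsNeck.n_mono`, `m_mono`: positive derivatives on the interiors, continuity on `[0, ∞)` (near `0` by `near0`).

`nk_smooth`: `len` is smooth and positive for `v ≠ 0`.
`nk_inj`: the second component minus `(1, c)` is `(n |u|) v` with `len v = 1`, so `n |u| = n |u'|` (take `len`), `|u| = |u'|` and `v = v'` (`n |u| > 0`);
the first component is `(m |u|/|u|) u`, `m |u| > 0` for `u ≠ 0`.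
`nk_imm` at `(u, v)`: let the derivative vanish in the direction `(a, b)`.  Write `v̂ = v / len v`.  Second component: `d (n |u| v̂) = 0`; its part along
`v̂` is `d (n |u|)`, the part orthogonal to `v̂` is `n |u|` times `d v̂`, so `d v̂ = 0`, i.e. `b = t v`, and `d(n |u|) = 0`.
If `u = 0` the first component is `κ a = 0`.  If `u ≠ 0`: `d (n |u|) = n' (|u|) d|u|`, so `d |u| = 0`; and then
`0 = d ((m |u|/|u|) u) = (m |u| / |u|) a`, so `a = 0`.
-/

open scoped ContDiff ComplexConjugate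

namespace Pool.Agent.H63.TV

noncomputable section

theorem neckA_n_pos {r s : ℝ} {m n p n' : ℝ → ℝ} (h : IsNeck r s m n p n') (u : ℂ) :
    0 < n ‖u‖ := by
  rcases eq_or_lt_of_le (norm_nonneg u) with h0 | h0
  · rw [← h0]; exact h.n_zero
  · exact h.n_zero.trans (h.n_mono (Set.mem_Ici.2 le_rfl) (Set.mem_Ici.2 h0.le) h0)

theorem neckA_m_pos {r s : ℝ} {m n p n' : ℝ → ℝ} (h : IsNeck r s m n p n') (hr : 0 < r) {t : ℝ}
    (ht : 0 < t) : 0 < m t := by
  rcases le_total t 1 with h1 | h1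
  · have := h.m_mono (Set.mem_Icc.2 ⟨le_rfl, zero_le_one⟩) (Set.mem_Icc.2 ⟨ht.le, h1⟩) ht
    rwa [h.m_zero] at this
  · rw [h.m_out t h1]; exact hr

theorem nk_inj {r s : ℝ} {m n p n' : ℝ → ℝ} (h : IsNeck r s m n p n') (hr : 0 < r) (c : ℂ) {u u' : ℂ}
    {v v' : R3} (hu : ‖u‖ ≤ 1) (hu' : ‖u'‖ ≤ 1) (hv : len v = 1) (hv' : len v' = 1)
    (he : nk m n c (u, v) = nk m n c (u', v')) : u = u' ∧ v = v' := by
  have hN := neckA_n_pos h u
  have hN' := neckA_n_pos h u'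
  unfold nk at he
  simp only [Prod.mk.injEq, hv, hv', div_one] at he
  obtain ⟨h1, h2, h3⟩ := he
  have h4 : (n ‖u‖) • v = (n ‖u'‖) • v' := by
    apply Prod.ext
    · show n ‖u‖ * v.1 = n ‖u'‖ * v'.1
      linarith
    · show n ‖u‖ • v.2 = n ‖u'‖ • v'.2
      rw [Complex.real_smul, Complex.real_smul]
      exact add_left_cancel h3
  have h5 : n ‖u‖ = n ‖u'‖ := by
    have h6 := congrArg len h4
    rw [len_smul _ _ hN, len_smul _ _ hN', hv, hv', mul_one, mul_one] at h6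
    exact h6
  have h7 : ‖u‖ = ‖u'‖ :=
    h.n_mono.injOn (Set.mem_Ici.2 (norm_nonneg _)) (Set.mem_Ici.2 (norm_nonneg _)) h5
  have h8 : v = v' := by
    rw [← h5] at h4
    exact smul_right_injective R3 hN.ne' h4
  refine ⟨?_, h8⟩
  rw [← h7] at h1
  rcases eq_or_lt_of_le (norm_nonneg u) with h0 | h0
  · have e1 : u = 0 := norm_eq_zero.1 h0.symm
    have e2 : u' = 0 := norm_eq_zero.1 (h7.symm.trans h0.symm)
    rw [e1, e2]
  · have hq : 0 < m ‖u‖ / ‖u‖ := div_pos (neckA_m_pos h hr h0) h0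
    have hq' : ((m ‖u‖ / ‖u‖ : ℝ) : ℂ) ≠ 0 := by exact_mod_cast hq.ne'
    exact mul_left_cancel₀ hq' h1

theorem neckA_len_diff {v : R3} (hv : v ≠ 0) : DifferentiableAt ℝ len v := by
  have h0 : 0 < len v := len_pos hv
  have h1 : v.1 ^ 2 + ‖v.2‖ ^ 2 ≠ 0 := by
    intro h2
    unfold len at h0
    rw [h2, Real.sqrt_zero] at h0
    exact lt_irrefl _ h0
  have h3 : DifferentiableAt ℝ (fun x : R3 => x.1 ^ 2 + ‖x.2‖ ^ 2) v := by
    apply DifferentiableAt.add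
    · exact differentiableAt_fst.pow 2
    · exact differentiableAt_snd.norm_sq ℝ
  exact h3.sqrt h1

theorem neckA_curve {E F : Type*} [NormedAddCommGroup E] [NormedSpace ℝ E]
    [NormedAddCommGroup F] [NormedSpace ℝ F] {f : E → F} {x a : E} (hf : DifferentiableAt ℝ f x) :
    HasDerivAt (fun t : ℝ => f (x + t • a)) (fderiv ℝ f x a) 0 := by
  have h1 : HasDerivAt (fun t : ℝ => x + t • a) a 0 := by
    have := ((hasDerivAt_id (0 : ℝ)).smul_const a).const_add x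
    simpa using this
  have h2 : HasFDerivAt f (fderiv ℝ f x) (x + (0 : ℝ) • a) := by
    rw [zero_smul, add_zero]
    exact hf.hasFDerivAt
  exact h2.comp_hasDerivAt (0 : ℝ) h1

theorem nk_imm {r s : ℝ} {m n p n' : ℝ → ℝ} (h : IsNeck r s m n p n') (hr : 0 < r) (c : ℂ) {y : ℂ × R3}
    (hy : y.2 ≠ 0) (w : ℂ × R3) (hw : fderiv ℝ (nk m n c) y w = 0) : ∃ t : ℝ, w = (0, t • y.2) := by
  have hopen : IsOpen {y : ℂ × R3 | y.2 ≠ 0} := isOpen_ne.preimage continuous_snd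
  have hd : DifferentiableAt ℝ (nk m n c) y :=
    ((nk_smooth h c).differentiableOn (by simp)).differentiableAt (hopen.mem_nhds hy)
  have hlen := neckA_len_diff hy
  have hL : 0 < len y.2 := len_pos hy
  have hN := neckA_n_pos h y.1
  -- the scalar factor
  have hg : Differentiable ℝ (fun u : ℂ => n ‖u‖) := h.sn.differentiable (by simp)
  have hρ : DifferentiableAt ℝ (fun z : ℂ × R3 => n ‖z.1‖ / len z.2) y := by
    have e1 : DifferentiableAt ℝ (fun z : ℂ × R3 => n ‖z.1‖) y :=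
      (hg y.1).comp y differentiableAt_fst
    have e2' : DifferentiableAt ℝ (len ∘ (Prod.snd : ℂ × R3 → R3)) y :=
      hlen.comp y differentiableAt_snd
    have e2 : DifferentiableAt ℝ (fun z : ℂ × R3 => len z.2) y := e2'
    have e3 : DifferentiableAt ℝ (fun z : ℂ × R3 => (len z.2)⁻¹) y := e2.inv hL.ne'
    have e4 : DifferentiableAt ℝ (fun z : ℂ × R3 => n ‖z.1‖ * (len z.2)⁻¹) y := e1.mul e3
    simpa only [div_eq_mul_inv] using e4
  have hρpos : 0 < n ‖y.1‖ / len y.2 := div_pos hN hL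
  -- the second component
  have hsec : (fun z : ℂ × R3 => (nk m n c z).2) =
      fun z : ℂ × R3 => (((1 : ℝ), c) : R3) + (n ‖z.1‖ / len z.2) • z.2 := by
    funext z
    apply Prod.ext
    · rfl
    · show c + ((n ‖z.1‖ / len z.2 : ℝ) : ℂ) * z.2.2 = c + (n ‖z.1‖ / len z.2) • z.2.2
      rw [Complex.real_smul]
  have hd2 : HasFDerivAt (fun z : ℂ × R3 => (nk m n c z).2)
      ((ContinuousLinearMap.snd ℝ ℂ R3).comp (fderiv ℝ (nk m n c) y)) y :=
    (ContinuousLinearMap.snd ℝ ℂ R3).hasFDerivAt.comp y hd.hasFDerivAt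
  have hd2' : HasFDerivAt (fun z : ℂ × R3 => (((1 : ℝ), c) : R3) + (n ‖z.1‖ / len z.2) • z.2)
      ((n ‖y.1‖ / len y.2) • ContinuousLinearMap.snd ℝ ℂ R3 +
        (fderiv ℝ (fun z : ℂ × R3 => n ‖z.1‖ / len z.2) y).smulRight y.2) y :=
    (hρ.hasFDerivAt.smul hasFDerivAt_snd).const_add _
  rw [hsec] at hd2
  have hE := congrArg (fun L : ℂ × R3 →L[ℝ] R3 => L w) (hd2.unique hd2')
  have hE' : (0 : R3) = (n ‖y.1‖ / len y.2) • w.2 +
      (fderiv ℝ (fun z : ℂ × R3 => n ‖z.1‖ / len z.2) y w) • y.2 := by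
    have e1 : ((ContinuousLinearMap.snd ℝ ℂ R3).comp (fderiv ℝ (nk m n c) y)) w = 0 := by
      rw [ContinuousLinearMap.comp_apply, hw, map_zero]
    rw [← e1]
    exact hE
  obtain ⟨t, ht⟩ : ∃ t : ℝ, w.2 = t • y.2 := by
    refine ⟨-(fderiv ℝ (fun z : ℂ × R3 => n ‖z.1‖ / len z.2) y w / (n ‖y.1‖ / len y.2)), ?_⟩
    apply smul_right_injective R3 hρpos.ne'
    show (n ‖y.1‖ / len y.2) • w.2 = (n ‖y.1‖ / len y.2) •
      (-(fderiv ℝ (fun z : ℂ × R3 => n ‖z.1‖ / len z.2) y w / (n ‖y.1‖ / len y.2))) • y.2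
    rw [smul_smul]
    have e2 : (n ‖y.1‖ / len y.2) *
        (-(fderiv ℝ (fun z : ℂ × R3 => n ‖z.1‖ / len z.2) y w / (n ‖y.1‖ / len y.2))) =
        -(fderiv ℝ (fun z : ℂ × R3 => n ‖z.1‖ / len z.2) y w) := by
      rw [mul_neg, mul_div_cancel₀ _ hρpos.ne']
    rw [e2, neg_smul]
    exact (neg_eq_of_add_eq_zero_left hE'.symm).symm
  -- the radial direction is in the kernel
  have hrad : fderiv ℝ (nk m n c) y (0, t • y.2) = 0 := by
    have h1 := neckA_curve (a := ((0 : ℂ), t • y.2)) hd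
    have h2 : (fun τ : ℝ => nk m n c (y + τ • ((0 : ℂ), t • y.2))) =ᶠ[nhds 0]
        fun _ => nk m n c y := by
      have h3 : ∀ᶠ τ : ℝ in nhds 0, 0 < 1 + τ * t := by
        have hc : ContinuousAt (fun τ : ℝ => 1 + τ * t) 0 := by fun_prop
        exact hc.eventually (lt_mem_nhds (by simp))
      filter_upwards [h3] with τ hτ
      have h4 : y + τ • ((0 : ℂ), t • y.2) = (y.1, (1 + τ * t) • y.2) := by
        apply Prod.ext
        · show y.1 + τ • (0 : ℂ) = y.1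
          rw [smul_zero, add_zero]
        · show y.2 + τ • t • y.2 = (1 + τ * t) • y.2
          rw [smul_smul, add_smul, one_smul]
      rw [h4, nk_smul m n c y.1 y.2 _ hτ]
    have h5 := (h1.congr_of_eventuallyEq h2.symm)
    exact h5.unique (hasDerivAt_const (0 : ℝ) (nk m n c y))
  have hw1 : fderiv ℝ (nk m n c) y (w.1, 0) = 0 := by
    have e1 : w = (w.1, 0) + ((0 : ℂ), t • y.2) := by
      apply Prod.ext
      · show w.1 = w.1 + 0
        rw [add_zero]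
      · show w.2 = 0 + t • y.2
        rw [zero_add]; exact ht
    have e2 := hw
    rw [e1, map_add, hrad, add_zero] at e2
    exact e2
  have hcur := neckA_curve (a := (w.1, (0 : R3))) hd
  rw [hw1] at hcur
  have hy' : ∀ τ : ℝ, y + τ • (w.1, (0 : R3)) = (y.1 + τ • w.1, y.2) := by
    intro τ
    apply Prod.ext
    · rfl
    · show y.2 + τ • (0 : R3) = y.2
      rw [smul_zero, add_zero]
  simp only [hy'] at hcur
  -- first component
  have hF : DifferentiableAt ℝ (fun u : ℂ => ((m ‖u‖ / ‖u‖ : ℝ) : ℂ) * u) y.1 :=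
    (h.sm.differentiable (by simp)) y.1
  have hc1 : HasDerivAt (fun τ : ℝ => ((m ‖y.1 + τ • w.1‖ / ‖y.1 + τ • w.1‖ : ℝ) : ℂ) *
      (y.1 + τ • w.1)) 0 0 := by
    have h1 := (ContinuousLinearMap.fst ℝ ℂ R3).hasFDerivAt.comp_hasDerivAt (0 : ℝ) hcur
    rw [map_zero] at h1
    exact h1
  have hFa : fderiv ℝ (fun u : ℂ => ((m ‖u‖ / ‖u‖ : ℝ) : ℂ) * u) y.1 w.1 = 0 :=
    (neckA_curve (a := w.1) hF).unique hc1
  have hc2 : HasDerivAt (fun τ : ℝ => (((1 : ℝ), c) : R3) + (n ‖y.1 + τ • w.1‖ / len y.2) • y.2)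
      0 0 := by
    have := (ContinuousLinearMap.snd ℝ ℂ R3).hasFDerivAt.comp_hasDerivAt (0 : ℝ) hcur
    have e1 : (fun τ : ℝ => (((1 : ℝ), c) : R3) + (n ‖y.1 + τ • w.1‖ / len y.2) • y.2) =
        (ContinuousLinearMap.snd ℝ ℂ R3) ∘ (fun τ : ℝ => nk m n c (y.1 + τ • w.1, y.2)) := by
      funext τ
      exact (congrFun hsec (y.1 + τ • w.1, y.2)).symm
    rw [e1]
    simpa using this
  have hga : fderiv ℝ (fun u : ℂ => n ‖u‖) y.1 w.1 = 0 := by
    have e1 := neckA_curve (a := w.1) (hg y.1)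
    have e2 : HasDerivAt (fun τ : ℝ => (((1 : ℝ), c) : R3) +
        (n ‖y.1 + τ • w.1‖ / len y.2) • y.2)
        ((fderiv ℝ (fun u : ℂ => n ‖u‖) y.1 w.1 / len y.2) • y.2) 0 :=
      ((e1.div_const (len y.2)).smul_const y.2).const_add _
    have e3 := e2.unique hc2
    rcases smul_eq_zero.1 e3 with e4 | e4
    · rcases div_eq_zero_iff.1 e4 with e5 | e5
      · exact e5
      · exact absurd e5 hL.ne'
    · exact absurd e4 hy
  -- conclusion
  have ha : w.1 = 0 := by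
    rcases eq_or_ne y.1 0 with h0 | h0
    · obtain ⟨κ, κ', hκ, -, hnear⟩ := h.near0
      have e1 : (fun u : ℂ => ((m ‖u‖ / ‖u‖ : ℝ) : ℂ) * u) =ᶠ[nhds y.1] fun u => (κ : ℂ) * u := by
        rw [h0]
        filter_upwards [Metric.ball_mem_nhds (0 : ℂ) (by norm_num : (0 : ℝ) < 1 / 2)] with u hu
        have hu' : ‖u‖ < 1 / 2 := by simpa using hu
        rcases eq_or_ne u 0 with hu0 | hu0
        · rw [hu0, mul_zero, mul_zero]
        · rw [(hnear ‖u‖ (norm_nonneg u) hu'.le).1, mul_div_assoc,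
            div_self (norm_ne_zero_iff.2 hu0), mul_one]
      have e2 : HasFDerivAt (fun u : ℂ => (κ : ℂ) * u)
          (κ • ContinuousLinearMap.id ℝ ℂ) y.1 := by
        simpa using (hasFDerivAt_id (𝕜 := ℝ) y.1).const_mul (κ : ℂ)
      rw [e1.fderiv_eq, e2.fderiv] at hFa
      have e3 : (κ : ℂ) * w.1 = 0 := by simpa using hFa
      rcases mul_eq_zero.1 e3 with e4 | e4
      · exact absurd (by exact_mod_cast e4) hκ.ne'
      · exact e4
    · have hu0 : 0 < ‖y.1‖ := norm_pos_iff.2 h0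
      have hnd : DifferentiableAt ℝ (fun u : ℂ => ‖u‖) y.1 := differentiableAt_id.norm ℝ h0
      have e1 := neckA_curve (a := w.1) hnd
      have hd0 : fderiv ℝ (fun u : ℂ => ‖u‖) y.1 w.1 = 0 := by
        have e2 : HasDerivAt n (n' ‖y.1‖) (‖y.1 + (0 : ℝ) • w.1‖) := by
          rw [zero_smul, add_zero]; exact h.dn _ hu0
        have e3 : HasDerivAt (fun τ : ℝ => n ‖y.1 + τ • w.1‖)
            (n' ‖y.1‖ * fderiv ℝ (fun u : ℂ => ‖u‖) y.1 w.1) 0 := e2.comp (0 : ℝ) e1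
        have e4 := (neckA_curve (a := w.1) (hg y.1)).unique e3
        rw [hga] at e4
        rcases mul_eq_zero.1 e4.symm with e5 | e5
        · exact absurd e5 (h.n'_pos _ hu0).ne'
        · exact e5
      rw [hd0] at e1
      have hq : HasDerivAt (fun τ : ℝ => m ‖y.1 + τ • w.1‖ / ‖y.1 + τ • w.1‖) 0 0 := by
        have e2 : HasDerivAt m (p ‖y.1‖ * n' ‖y.1‖) (‖y.1 + (0 : ℝ) • w.1‖) := by
          rw [zero_smul, add_zero]; exact h.dm _ hu0
        have e3 : HasDerivAt (fun τ : ℝ => m ‖y.1 + τ • w.1‖)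
            (p ‖y.1‖ * n' ‖y.1‖ * 0) 0 := e2.comp (0 : ℝ) e1
        have e4 := e3.div e1 (by rw [zero_smul, add_zero]; exact hu0.ne')
        have e5 : (p ‖y.1‖ * n' ‖y.1‖ * 0 * ‖y.1 + (0 : ℝ) • w.1‖ - m ‖y.1 + (0 : ℝ) • w.1‖ * 0) /
            ‖y.1 + (0 : ℝ) • w.1‖ ^ 2 = 0 := by simp
        rw [e5] at e4
        exact e4
      have hlin : HasDerivAt (fun τ : ℝ => y.1 + τ • w.1) w.1 0 := by
        have := ((hasDerivAt_id (0 : ℝ)).smul_const w.1).const_add y.1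
        simpa using this
      have hprod : HasDerivAt (fun τ : ℝ => (m ‖y.1 + τ • w.1‖ / ‖y.1 + τ • w.1‖) •
          (y.1 + τ • w.1)) ((m ‖y.1‖ / ‖y.1‖) • w.1) 0 := by
        have e5 := hq.smul hlin
        have e6 : (m ‖y.1 + (0 : ℝ) • w.1‖ / ‖y.1 + (0 : ℝ) • w.1‖) • w.1 +
            (0 : ℝ) • (y.1 + (0 : ℝ) • w.1) = (m ‖y.1‖ / ‖y.1‖) • w.1 := by simp
        rw [e6] at e5
        exact e5
      have hprod' : HasDerivAt (fun τ : ℝ => (m ‖y.1 + τ • w.1‖ / ‖y.1 + τ • w.1‖) •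
          (y.1 + τ • w.1)) 0 0 := by
        have e6 : (fun τ : ℝ => (m ‖y.1 + τ • w.1‖ / ‖y.1 + τ • w.1‖) • (y.1 + τ • w.1)) =
            fun τ : ℝ => ((m ‖y.1 + τ • w.1‖ / ‖y.1 + τ • w.1‖ : ℝ) : ℂ) * (y.1 + τ • w.1) := by
          funext τ
          rw [Complex.real_smul]
        rw [e6]; exact hc1
      have e7 := hprod.unique hprod'
      rcases smul_eq_zero.1 e7 with e8 | e8
      · exact absurd e8 (div_pos (neckA_m_pos h hr hu0) hu0).ne'
      · exact e8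
  exact ⟨t, Prod.ext ha ht⟩

end

end Pool.Agent.H63.TV
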