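import Pool.Agent.H63.TV.Good

/-!
# TV-17: critical points of the height functions near the centre, unmodified embedding

`N = l + h`, `h ζ = e (|ζ₁|² - |ζ₂|²) + Re (conj e' 2 ζ₁ conj ζ₂)`, `E = √(e² + |e'|²)`.
`hopf_planes`: there are real planes `P, Q` (complex lines) with `h v = E |v|²` on `P`, `h v = - E |v|²` on `Q`, and `|h v| ≤ E |v|²`
(`h v = v* M v`, `M` the Hermitian `2 × 2` matrix with diagonal `e, -e` and off-diagonal entry of modulus `|e'|`; trace `0`, determinant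
`- E²`; eigenvalues `± E`.  If `E = 0` take any two planes.  Explicitly for `E > 0`, `e ≥ 0`: the `+E` line is spanned over
`ℂ` by `(E + e, e')`-like vectors: `h (E + e, c) = e ((E+e)² - |c|²) + 2 (E+e) Re (conj e' conj c)` with `c = conj e'`: `= e ((E+e)² - |e'|²) + 2 (E+e)|e'|²`,
and `|e'|² = (E-e)(E+e)`, so this is `(E+e) (e · 2e + 2 (E - e)(E + e)) = (E+e) 2E² ...= E |v|²` with
`|v|² = (E+e)² + (E-e)(E+e) = 2E (E+e)`; check: `(E+e)(2e² + 2E² - 2e²) = 2E² (E+e)`.  For `e < 0` exchange the roles of `ζ₁, ζ₂`.)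

`sad_hopf`.  Let `p` be critical with value `lam`; `D = 4 + |ζ|²`.  `∇N (p) = lam ∇D (p)` and `N p = lam D p`.
`fderiv N p p = l p + 2 h p = 2 lam |p|²`, `l p + h p = lam (4 + |p|²)`; so `h p = lam (|p|² - 4)` and `|lam| (4 - |p|²) ≤ E |p|²`,
`3 |lam| ≤ E`.  For every `v`: `(N - lam D) (p + v) = h v - lam |v|²` (value and derivative at `p` vanish, quadratic part);
`≥ (E - lam) |v|² ≥ 0` on `P`, `≤ 0` on `Q`.  Divide by `D > 0`.
-/

open scoped ContDiff ComplexConjugate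

namespace Pool.Agent.H63.TV

private noncomputable def sadH (e : ℝ) (e' : ℂ) (ζ : ℂ × ℂ) : ℝ :=
  e * ((ζ.1.re ^ 2 + ζ.1.im ^ 2) - (ζ.2.re ^ 2 + ζ.2.im ^ 2)) +
    2 * (e'.re * (ζ.1.re * ζ.2.re + ζ.1.im * ζ.2.im) + e'.im * (ζ.1.im * ζ.2.re - ζ.1.re * ζ.2.im))

private noncomputable def sadS (ζ : ℂ × ℂ) : ℝ :=
  (ζ.1.re ^ 2 + ζ.1.im ^ 2) + (ζ.2.re ^ 2 + ζ.2.im ^ 2)

private noncomputable def sadB (e : ℝ) (e' : ℂ) (p v : ℂ × ℂ) : ℝ :=
  e * 2 * ((p.1.re * v.1.re + p.1.im * v.1.im) - (p.2.re * v.2.re + p.2.im * v.2.im)) +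
    2 * (e'.re * (p.1.re * v.2.re + v.1.re * p.2.re + p.1.im * v.2.im + v.1.im * p.2.im) +
      e'.im * (p.1.im * v.2.re + v.1.im * p.2.re - p.1.re * v.2.im - v.1.re * p.2.im))

private noncomputable def sadC (p v : ℂ × ℂ) : ℝ :=
  2 * ((p.1.re * v.1.re + p.1.im * v.1.im) + (p.2.re * v.2.re + p.2.im * v.2.im))

private theorem sad_nsq (z : ℂ) : ‖z‖ ^ 2 = z.re ^ 2 + z.im ^ 2 := by
  rw [Complex.sq_norm, Complex.normSq_apply]
  ring

private theorem sad_h (e : ℝ) (e' : ℂ) (ζ : ℂ × ℂ) :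
    e * (‖ζ.1‖ ^ 2 - ‖ζ.2‖ ^ 2) + (conj e' * (2 * ζ.1 * conj ζ.2)).re = sadH e e' ζ := by
  unfold sadH
  rw [sad_nsq, sad_nsq]
  simp only [Complex.mul_re, Complex.mul_im, Complex.conj_re, Complex.conj_im, Complex.re_ofNat,
    Complex.im_ofNat]
  ring

private theorem sad_s (ζ : ℂ × ℂ) : ‖ζ.1‖ ^ 2 + ‖ζ.2‖ ^ 2 = sadS ζ := by
  unfold sadS
  rw [sad_nsq, sad_nsq]

private theorem sadS_nonneg (ζ : ℂ × ℂ) : 0 ≤ sadS ζ := by
  unfold sadS
  positivity

private noncomputable def sadL (a b : ℂ) : ℂ →ₗ[ℝ] ℂ × ℂ where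
  toFun z := (z * a, z * b)
  map_add' x y := by ext <;> simp [add_mul]
  map_smul' r x := by ext <;> simp [mul_assoc]

private theorem sad_rank {a b : ℂ} (h : a ≠ 0 ∨ b ≠ 0) :
    Module.finrank ℝ (LinearMap.range (sadL a b)) = 2 := by
  rw [LinearMap.finrank_range_of_inj]
  · exact Complex.finrank_real_complex
  · intro x y hxy
    have h1 : x * a = y * a := congrArg Prod.fst hxy
    have h2 : x * b = y * b := congrArg Prod.snd hxy
    rcases h with h | h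
    · exact mul_right_cancel₀ h h1
    · exact mul_right_cancel₀ h h2

private theorem sad_mul (e : ℝ) (e' a b z : ℂ) :
    sadH e e' (z * a, z * b) = (z.re ^ 2 + z.im ^ 2) * sadH e e' (a, b) := by
  unfold sadH
  simp only [Complex.mul_re, Complex.mul_im]
  ring

private theorem sad_mulS (a b z : ℂ) :
    sadS (z * a, z * b) = (z.re ^ 2 + z.im ^ 2) * sadS (a, b) := by
  unfold sadS
  simp only [Complex.mul_re, Complex.mul_im]
  ring

private theorem sad_planes (e : ℝ) (e' : ℂ) : ∃ (E : ℝ) (P Q : Submodule ℝ (ℂ × ℂ)), 0 ≤ E ∧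
    Module.finrank ℝ P = 2 ∧ Module.finrank ℝ Q = 2 ∧
    (∀ v : ℂ × ℂ, |sadH e e' v| ≤ E * sadS v) ∧
    (∀ v ∈ P, sadH e e' v = E * sadS v) ∧
    (∀ v ∈ Q, sadH e e' v = - E * sadS v) := by
  set E : ℝ := Real.sqrt (e ^ 2 + (e'.re ^ 2 + e'.im ^ 2)) with hE
  have hE0 : 0 ≤ E := Real.sqrt_nonneg _
  have hE2 : E ^ 2 = e ^ 2 + (e'.re ^ 2 + e'.im ^ 2) := Real.sq_sqrt (by positivity)
  have hbd : ∀ v : ℂ × ℂ, |sadH e e' v| ≤ E * sadS v := by
    intro v
    refine abs_le_of_sq_le_sq ?_ (mul_nonneg hE0 (sadS_nonneg v))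
    rw [mul_pow, hE2]
    have key : (e ^ 2 + (e'.re ^ 2 + e'.im ^ 2)) * sadS v ^ 2 - sadH e e' v ^ 2 =
        (e * (2 * (v.1.re * v.2.re + v.1.im * v.2.im)) -
          e'.re * ((v.1.re ^ 2 + v.1.im ^ 2) - (v.2.re ^ 2 + v.2.im ^ 2))) ^ 2 +
        (e * (2 * (v.1.im * v.2.re - v.1.re * v.2.im)) -
          e'.im * ((v.1.re ^ 2 + v.1.im ^ 2) - (v.2.re ^ 2 + v.2.im ^ 2))) ^ 2 +
        (e'.re * (2 * (v.1.im * v.2.re - v.1.re * v.2.im)) -
          e'.im * (2 * (v.1.re * v.2.re + v.1.im * v.2.im))) ^ 2 := by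
      unfold sadS sadH
      ring
    nlinarith [sq_nonneg (e * (2 * (v.1.re * v.2.re + v.1.im * v.2.im)) -
          e'.re * ((v.1.re ^ 2 + v.1.im ^ 2) - (v.2.re ^ 2 + v.2.im ^ 2))),
        sq_nonneg (e * (2 * (v.1.im * v.2.re - v.1.re * v.2.im)) -
          e'.im * ((v.1.re ^ 2 + v.1.im ^ 2) - (v.2.re ^ 2 + v.2.im ^ 2))),
        sq_nonneg (e'.re * (2 * (v.1.im * v.2.re - v.1.re * v.2.im)) -
          e'.im * (2 * (v.1.re * v.2.re + v.1.im * v.2.im)))]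
  have hfin : ∀ a b a' b' : ℂ, (a ≠ 0 ∨ b ≠ 0) → (a' ≠ 0 ∨ b' ≠ 0) →
      sadH e e' (a, b) = E * sadS (a, b) → sadH e e' (a', b') = - E * sadS (a', b') →
      ∃ (E : ℝ) (P Q : Submodule ℝ (ℂ × ℂ)), 0 ≤ E ∧
      Module.finrank ℝ P = 2 ∧ Module.finrank ℝ Q = 2 ∧
      (∀ v : ℂ × ℂ, |sadH e e' v| ≤ E * sadS v) ∧
      (∀ v ∈ P, sadH e e' v = E * sadS v) ∧
      (∀ v ∈ Q, sadH e e' v = - E * sadS v) := by
    intro a b a' b' h1 h2 h3 h4
    refine ⟨E, LinearMap.range (sadL a b), LinearMap.range (sadL a' b'), hE0, sad_rank h1,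
      sad_rank h2, hbd, ?_, ?_⟩
    · rintro _ ⟨z, rfl⟩
      show sadH e e' (z * a, z * b) = E * sadS (z * a, z * b)
      rw [sad_mul, sad_mulS, h3]
      ring
    · rintro _ ⟨z, rfl⟩
      show sadH e e' (z * a', z * b') = - E * sadS (z * a', z * b')
      rw [sad_mul, sad_mulS, h4]
      ring
  by_cases h0 : E = 0
  · have h1 : e ^ 2 + (e'.re ^ 2 + e'.im ^ 2) = 0 := by rw [← hE2, h0]; ring
    have he : e = 0 := by nlinarith [sq_nonneg e, sq_nonneg e'.re, sq_nonneg e'.im]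
    have hr : e'.re = 0 := by nlinarith [sq_nonneg e, sq_nonneg e'.re, sq_nonneg e'.im]
    have hi : e'.im = 0 := by nlinarith [sq_nonneg e, sq_nonneg e'.re, sq_nonneg e'.im]
    refine hfin 1 0 1 0 (Or.inl one_ne_zero) (Or.inl one_ne_zero) ?_ ?_
    · unfold sadH; rw [he, hr, hi, h0]; ring
    · unfold sadH; rw [he, hr, hi, h0]; ring
  · have hEpos : 0 < E := lt_of_le_of_ne hE0 (Ne.symm h0)
    by_cases hp : 0 < E + e
    · refine hfin ((E + e : ℝ) : ℂ) (conj e') (-e') ((E + e : ℝ) : ℂ)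
        (Or.inl (by exact_mod_cast hp.ne')) (Or.inr (by exact_mod_cast hp.ne')) ?_ ?_
      · unfold sadH sadS
        simp only [Complex.ofReal_re, Complex.ofReal_im, Complex.conj_re, Complex.conj_im]
        have : e'.re ^ 2 + e'.im ^ 2 = E ^ 2 - e ^ 2 := by rw [hE2]; ring
        have h5 : e'.im ^ 2 = E ^ 2 - e ^ 2 - e'.re ^ 2 := by linarith
        ring_nf
        rw [h5]
        ring
      · unfold sadH sadS
        simp only [Complex.ofReal_re, Complex.ofReal_im, Complex.neg_re, Complex.neg_im]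
        have : e'.re ^ 2 + e'.im ^ 2 = E ^ 2 - e ^ 2 := by rw [hE2]; ring
        have h5 : e'.im ^ 2 = E ^ 2 - e ^ 2 - e'.re ^ 2 := by linarith
        ring_nf
        rw [h5]
        ring
    · have hm : 0 < E - e := by linarith [not_lt.mp hp]
      refine hfin e' ((E - e : ℝ) : ℂ) ((E - e : ℝ) : ℂ) (-conj e')
        (Or.inr (by exact_mod_cast hm.ne')) (Or.inl (by exact_mod_cast hm.ne')) ?_ ?_
      · unfold sadH sadS
        simp only [Complex.ofReal_re, Complex.ofReal_im]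
        have : e'.re ^ 2 + e'.im ^ 2 = E ^ 2 - e ^ 2 := by rw [hE2]; ring
        have h5 : e'.im ^ 2 = E ^ 2 - e ^ 2 - e'.re ^ 2 := by linarith
        ring_nf
        rw [h5]
        ring
      · unfold sadH sadS
        simp only [Complex.ofReal_re, Complex.ofReal_im, Complex.neg_re, Complex.neg_im,
          Complex.conj_re, Complex.conj_im]
        have : e'.re ^ 2 + e'.im ^ 2 = E ^ 2 - e ^ 2 := by rw [hE2]; ring
        have h5 : e'.im ^ 2 = E ^ 2 - e ^ 2 - e'.re ^ 2 := by linarith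
        ring_nf
        rw [h5]
        ring

theorem hopf_planes (e : ℝ) (e' : ℂ) : ∃ (E : ℝ) (P Q : Submodule ℝ (ℂ × ℂ)), 0 ≤ E ∧
    Module.finrank ℝ P = 2 ∧ Module.finrank ℝ Q = 2 ∧
    (∀ v : ℂ × ℂ, |e * (‖v.1‖ ^ 2 - ‖v.2‖ ^ 2) + (conj e' * (2 * v.1 * conj v.2)).re| ≤
      E * (‖v.1‖ ^ 2 + ‖v.2‖ ^ 2)) ∧
    (∀ v ∈ P, e * (‖v.1‖ ^ 2 - ‖v.2‖ ^ 2) + (conj e' * (2 * v.1 * conj v.2)).re =
      E * (‖v.1‖ ^ 2 + ‖v.2‖ ^ 2)) ∧
    (∀ v ∈ Q, e * (‖v.1‖ ^ 2 - ‖v.2‖ ^ 2) + (conj e' * (2 * v.1 * conj v.2)).re =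
      - E * (‖v.1‖ ^ 2 + ‖v.2‖ ^ 2)) := by
  obtain ⟨E, P, Q, h1, h2, h3, h4, h5, h6⟩ := sad_planes e e'
  refine ⟨E, P, Q, h1, h2, h3, fun v => ?_, fun v hv => ?_, fun v hv => ?_⟩
  · rw [sad_h, sad_s]; exact h4 v
  · rw [sad_h, sad_s]; exact h5 v hv
  · rw [sad_h, sad_s]; exact h6 v hv

theorem sad_hopf (l : ℂ × ℂ →L[ℝ] ℝ) (e : ℝ) (e' : ℂ) (p : ℂ × ℂ)
    (hp : ‖p.1‖ ^ 2 + ‖p.2‖ ^ 2 ≤ 1)
    (hc : Crit (fun ζ : ℂ × ℂ => (l ζ + e * (‖ζ.1‖ ^ 2 - ‖ζ.2‖ ^ 2) + (conj e' * (2 * ζ.1 * conj ζ.2)).re) /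
      (4 + ‖ζ.1‖ ^ 2 + ‖ζ.2‖ ^ 2)) p) :
    SadCrit (fun ζ : ℂ × ℂ => (l ζ + e * (‖ζ.1‖ ^ 2 - ‖ζ.2‖ ^ 2) + (conj e' * (2 * ζ.1 * conj ζ.2)).re) /
      (4 + ‖ζ.1‖ ^ 2 + ‖ζ.2‖ ^ 2)) p := by
  have hF : (fun ζ : ℂ × ℂ => (l ζ + e * (‖ζ.1‖ ^ 2 - ‖ζ.2‖ ^ 2) +
      (conj e' * (2 * ζ.1 * conj ζ.2)).re) / (4 + ‖ζ.1‖ ^ 2 + ‖ζ.2‖ ^ 2)) =
      fun ζ => (l ζ + sadH e e' ζ) / (4 + sadS ζ) := by
    funext ζ
    rw [add_assoc (l ζ), sad_h, add_assoc (4 : ℝ), sad_s]
  rw [hF] at hc ⊢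
  rw [sad_s] at hp
  obtain ⟨E, P, Q, hE, hP, hQ, hbd, hPv, hQv⟩ := sad_planes e e'
  have hDpos : ∀ ζ, 0 < 4 + sadS ζ := fun ζ => by linarith [sadS_nonneg ζ]
  have hre1 : Differentiable ℝ (fun ζ : ℂ × ℂ => ζ.1.re) :=
    (Complex.reCLM.comp (ContinuousLinearMap.fst ℝ ℂ ℂ)).differentiable
  have him1 : Differentiable ℝ (fun ζ : ℂ × ℂ => ζ.1.im) :=
    (Complex.imCLM.comp (ContinuousLinearMap.fst ℝ ℂ ℂ)).differentiable
  have hre2 : Differentiable ℝ (fun ζ : ℂ × ℂ => ζ.2.re) :=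
    (Complex.reCLM.comp (ContinuousLinearMap.snd ℝ ℂ ℂ)).differentiable
  have him2 : Differentiable ℝ (fun ζ : ℂ × ℂ => ζ.2.im) :=
    (Complex.imCLM.comp (ContinuousLinearMap.snd ℝ ℂ ℂ)).differentiable
  have hdH : Differentiable ℝ (sadH e e') := by
    unfold sadH
    fun_prop
  have hdS : Differentiable ℝ sadS := by
    unfold sadS
    fun_prop
  have hd1 : DifferentiableAt ℝ (fun ζ => l ζ + sadH e e' ζ) p := (l.differentiable.add hdH) p
  have hd2 : DifferentiableAt ℝ (fun ζ => 4 + sadS ζ) p := (hdS.const_add 4) p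
  have hd : DifferentiableAt ℝ (fun ζ => (l ζ + sadH e e' ζ) / (4 + sadS ζ)) p := by
    have h := hd1.mul (hd2.inv (show (fun ζ => 4 + sadS ζ) p ≠ 0 from (hDpos p).ne'))
    have h' : (fun ζ => (l ζ + sadH e e' ζ) / (4 + sadS ζ)) =
        fun ζ => (l ζ + sadH e e' ζ) * (4 + sadS ζ)⁻¹ := by
      funext ζ
      rw [div_eq_mul_inv]
    rw [h']
    exact h
  -- the linear condition
  have hlin : ∀ v, (l v + sadB e e' p v) * (4 + sadS p) = (l p + sadH e e' p) * sadC p v := by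
    intro v
    have h1 : HasDerivAt (fun t : ℝ => p + t • v) v 0 := by
      simpa using ((hasDerivAt_id (0 : ℝ)).smul_const v).const_add p
    have h2 : HasFDerivAt (fun ζ => (l ζ + sadH e e' ζ) / (4 + sadS ζ)) (0 : ℂ × ℂ →L[ℝ] ℝ)
        (p + (0 : ℝ) • v) := by
      have h3 := hd.hasFDerivAt
      rw [show fderiv ℝ (fun ζ => (l ζ + sadH e e' ζ) / (4 + sadS ζ)) p = 0 from hc] at h3
      simpa using h3
    have h3 := h2.comp_hasDerivAt (0 : ℝ) h1
    have h4 : ((fun ζ => (l ζ + sadH e e' ζ) / (4 + sadS ζ)) ∘ fun t : ℝ => p + t • v) =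
        fun t : ℝ => ((l p + sadH e e' p) + t * (l v + sadB e e' p v) + t ^ 2 * sadH e e' v) /
          ((4 + sadS p) + t * sadC p v + t ^ 2 * sadS v) := by
      funext t
      simp only [Function.comp]
      congr 1
      · rw [map_add, map_smul, smul_eq_mul]
        unfold sadH sadB
        simp only [Prod.fst_add, Prod.snd_add, Prod.smul_fst, Prod.smul_snd, Complex.add_re,
          Complex.add_im, Complex.real_smul, Complex.mul_re, Complex.mul_im, Complex.ofReal_re,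
          Complex.ofReal_im]
        ring
      · unfold sadS sadC
        simp only [Prod.fst_add, Prod.snd_add, Prod.smul_fst, Prod.smul_snd, Complex.add_re,
          Complex.add_im, Complex.real_smul, Complex.mul_re, Complex.mul_im, Complex.ofReal_re,
          Complex.ofReal_im]
        ring
    rw [h4] at h3
    have hpoly : ∀ a b c : ℝ, HasDerivAt (fun t : ℝ => a + t * b + t ^ 2 * c) b 0 := by
      intro a b c
      have h5 : HasDerivAt (fun t : ℝ => a + t * b) b 0 := by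
        simpa using ((hasDerivAt_id (0 : ℝ)).mul_const b).const_add a
      have h6 : HasDerivAt (fun t : ℝ => t ^ 2 * c) 0 0 := by
        simpa using ((hasDerivAt_id (0 : ℝ)).pow 2).mul_const c
      have h7 := h5.add h6
      rw [add_zero] at h7
      exact h7
    have h5 := (hpoly (l p + sadH e e' p) (l v + sadB e e' p v) (sadH e e' v)).div
      (hpoly (4 + sadS p) (sadC p v) (sadS v)) (by simpa using (hDpos p).ne')
    have h6 := h3.unique h5
    simp only [zero_apply, zero_mul, ne_eq, OfNat.ofNat_ne_zero,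
      not_false_eq_true, zero_pow, add_zero] at h6
    have h7 : 0 < (4 + sadS p) ^ 2 := by have := hDpos p; positivity
    rw [eq_div_iff h7.ne', zero_mul] at h6
    linarith
  set lam : ℝ := (l p + sadH e e' p) / (4 + sadS p) with hlam
  have hlp : l p + sadH e e' p = lam * (4 + sadS p) := by
    rw [hlam]
    exact (div_mul_cancel₀ _ (hDpos p).ne').symm
  have hlv : ∀ v, l v + sadB e e' p v = lam * sadC p v := by
    intro v
    have h1 := hlin v
    rw [hlp] at h1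
    have h2 : (l v + sadB e e' p v - lam * sadC p v) * (4 + sadS p) = 0 := by linear_combination h1
    rcases mul_eq_zero.mp h2 with h | h
    · linarith
    · exact absurd h (hDpos p).ne'
  have hBp : sadB e e' p p = 2 * sadH e e' p := by
    unfold sadB sadH
    ring
  have hCp : sadC p p = 2 * sadS p := by
    unfold sadC sadS
    ring
  have hHp : sadH e e' p = lam * (sadS p - 4) := by
    have h1 := hlv p
    rw [hBp, hCp] at h1
    linarith
  have hlamE : |lam| ≤ E := by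
    have h1 := hbd p
    rw [hHp, abs_mul, abs_of_nonpos (by linarith : sadS p - 4 ≤ 0)] at h1
    have h2 := sadS_nonneg p
    have h3 := abs_nonneg lam
    nlinarith
  have hstep : ∀ v, (l (p + v) + sadH e e' (p + v)) / (4 + sadS (p + v)) - lam =
      (sadH e e' v - lam * sadS v) / (4 + sadS (p + v)) := by
    intro v
    have h1 : l (p + v) + sadH e e' (p + v) =
        (l p + sadH e e' p) + (l v + sadB e e' p v) + sadH e e' v := by
      rw [map_add]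
      unfold sadH sadB
      simp only [Prod.fst_add, Prod.snd_add, Complex.add_re, Complex.add_im]
      ring
    have h2 : 4 + sadS (p + v) = (4 + sadS p) + sadC p v + sadS v := by
      unfold sadS sadC
      simp only [Prod.fst_add, Prod.snd_add, Complex.add_re, Complex.add_im]
      ring
    have h3 := (hDpos (p + v)).ne'
    rw [eq_div_iff h3, sub_mul, div_mul_cancel₀ _ h3, h1, h2, hlp, hlv v]
    ring
  have hl1 := abs_le.mp hlamE
  refine ⟨P, Q, hP, hQ, 1, one_pos, fun v hv _ => ?_, fun v hv _ => ?_⟩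
  · have h1 := hstep v
    rw [hPv v hv] at h1
    have h2 : 0 ≤ (E * sadS v - lam * sadS v) / (4 + sadS (p + v)) := by
      refine div_nonneg ?_ (hDpos _).le
      have := sadS_nonneg v
      nlinarith
    show lam ≤ (l (p + v) + sadH e e' (p + v)) / (4 + sadS (p + v))
    linarith
  · have h1 := hstep v
    rw [hQv v hv] at h1
    have h2 : (-E * sadS v - lam * sadS v) / (4 + sadS (p + v)) ≤ 0 := by
      refine div_nonpos_of_nonpos_of_nonneg ?_ (hDpos _).le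
      have := sadS_nonneg v
      nlinarith
    show (l (p + v) + sadH e e' (p + v)) / (4 + sadS (p + v)) ≤ lam
    linarith

end Pool.Agent.H63.TV
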