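import Pool.Agent.H63.TV.Den
import Pool.Agent.H63.TV.SadA

/-!
# TV-18: the region where the denominator is modified; TV-19: the region where it is constant

`sad_ann`.  `q, w` are the Hopf components near `p`, `|p| ≤ ε`, `D` as in `IsDen`, `C ε² ≤ 1`, `N = l + h` near `p` (`h` as in `hopf_planes`),
`lam = F p`, `∇N p = lam ∇D p`, `N p = lam D p`.  Euler as in TV-17: `h p = lam (fderiv D p p - D p)`, `fderiv D p p ≤ 2 C |p|² ≤ 2 C ε² ≤ 2`,
`D p ≥ 4`, so `2 |lam| ≤ E |p|² ≤ E ε²` and `|lam| C ≤ E C ε² / 2 ≤ E`.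
For `v` in `P` (`h = E |·|²` on `P`), `v` small: `N (p + v) = N p + fderiv N p v + E |v|²`.  The function
`ψ v = E |v|² - lam D (p + v)` is convex on `P`: if `lam ≤ 0` it is a sum of convex functions; if `lam > 0`,
`ψ v = E |v|² - lam C |p + v|² + lam (C |p + v|² - D (p + v))`, and `E |v|² - lam C |p + v|²` is `(E - lam C) |v|²` plus an affine function.
So `(N - lam D) (p + v) = [affine in v] + ψ v` is convex in `v ∈ P`, it vanishes at `0` together with its derivative, so it is `≥ 0`.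
On `Q`: `(N - lam D) (p + v) = affine - E |v|² - lam D (p + v)`, minus this is `affine + E |v|² + lam D (p + v)`, convex by the
same argument with `- lam`.  (Differentiable convex functions lie above their tangents.)

`sad_const`.  `D = D0 > 0` near `p`, and `N₀ = e q + Re (conj e' w)` has a `Saddle` at `p`.  Then `F = (l + N₀)/D0` near `p`,
critical means `l v + fderiv N₀ p v = 0` for all `v`; for `v ∈ P` small `N₀ p + fderiv N₀ p v ≤ N₀ (p + v)`, so
`(l + N₀) p ≤ (l + N₀) (p + v)`.  Same for `Q`.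
`saddle_scale`.  `q ζ = t² q₁ (ζ/t)`, `w ζ = t² w₁ (ζ/t)`, `t > 0`: `N ζ = t² N₁ (ζ/t)`, `fderiv N p v = t² fderiv N₁ (p/t) (v/t)`.
-/

open scoped ContDiff ComplexConjugate

namespace Pool.Agent.H63.TV

/-- convexity along a line up to an affine function -/
private lemma tv18_conv {C : ℝ} {D : ℂ × ℂ → ℝ} (h1 : ConvexOn ℝ Set.univ D)
    (h2 : ConvexOn ℝ Set.univ fun ζ : ℂ × ℂ => C * (‖ζ.1‖ ^ 2 + ‖ζ.2‖ ^ 2) - D ζ)
    (p v : ℂ × ℂ) {E μ : ℝ} (hE : 0 ≤ E) (hμ : |μ| * C ≤ E) (a b : ℝ) :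
    ConvexOn ℝ Set.univ fun t : ℝ =>
      a + b * t + E * (‖v.1‖ ^ 2 + ‖v.2‖ ^ 2) * t ^ 2 - μ * D (p + t • v) := by
  have hline : ∀ {f : ℂ × ℂ → ℝ}, ConvexOn ℝ Set.univ f →
      ConvexOn ℝ Set.univ fun t : ℝ => f (p + t • v) := by
    intro f hf
    refine ⟨convex_univ, fun s _ t _ x y hx hy hxy => ?_⟩
    have h3 := hf.2 (Set.mem_univ (p + s • v)) (Set.mem_univ (p + t • v)) hx hy hxy
    have h4 : x • (p + s • v) + y • (p + t • v) = p + (x • s + y • t) • v := by
      have : x • p + y • p = p := by rw [← add_smul, hxy, one_smul]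
      calc x • (p + s • v) + y • (p + t • v) = (x • p + y • p) + (x • s + y • t) • v := by
            simp only [smul_add, add_smul, smul_smul, smul_eq_mul]
            abel
        _ = _ := by rw [this]
    rw [h4] at h3
    exact h3
  have haff : ∀ c d : ℝ, ConvexOn ℝ Set.univ fun t : ℝ => c + d * t := by
    intro c d
    refine ⟨convex_univ, fun s _ t _ x y hx hy hxy => le_of_eq ?_⟩
    simp only [smul_eq_mul]
    have : c = (x + y) * c := by rw [hxy, one_mul]
    linear_combination (1 : ℝ) * this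
  have hsq : ∀ k : ℝ, 0 ≤ k → ConvexOn ℝ Set.univ fun t : ℝ => k * t ^ 2 := by
    intro k hk
    have := (even_two.convexOn_pow (𝕜 := ℝ)).smul hk
    simpa [smul_eq_mul] using this
  have hn : 0 ≤ ‖v.1‖ ^ 2 + ‖v.2‖ ^ 2 := by positivity
  rcases le_total μ 0 with h | h
  · have h5 := ((haff a b).add (hsq (E * (‖v.1‖ ^ 2 + ‖v.2‖ ^ 2)) (mul_nonneg hE hn))).add
      ((hline h1).smul (neg_nonneg.2 h))
    refine h5.congr ?_
    intro t _
    simp only [Pi.add_apply, smul_eq_mul]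
    ring
  · rw [abs_of_nonneg h] at hμ
    have h5 := ((haff (a - μ * C * (‖p.1‖ ^ 2 + ‖p.2‖ ^ 2))
      (b - μ * C * (2 * (conj p.1 * v.1).re + 2 * (conj p.2 * v.2).re))).add
      (hsq ((E - μ * C) * (‖v.1‖ ^ 2 + ‖v.2‖ ^ 2)) (mul_nonneg (by linarith) hn))).add
      ((hline h2).smul h)
    refine h5.congr ?_
    intro t _
    have hns : ∀ z z' : ℂ, ‖z + (t : ℂ) * z'‖ ^ 2 =
        ‖z‖ ^ 2 + 2 * t * (conj z * z').re + t ^ 2 * ‖z'‖ ^ 2 := by
      intro z z'
      rw [← Complex.normSq_eq_norm_sq, ← Complex.normSq_eq_norm_sq, ← Complex.normSq_eq_norm_sq]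
      simp only [Complex.normSq_apply, Complex.add_re, Complex.add_im, Complex.mul_re,
        Complex.mul_im, Complex.ofReal_re, Complex.ofReal_im, Complex.conj_re, Complex.conj_im]
      ring
    have e1 : (p + t • v).1 = p.1 + (t : ℂ) * v.1 := by simp
    have e2 : (p + t • v).2 = p.2 + (t : ℂ) * v.2 := by simp
    simp only [Pi.add_apply, smul_eq_mul]
    rw [e1, e2, hns, hns]
    ring

theorem sad_ann {ε C : ℝ} {D : ℂ × ℂ → ℝ} {D0 : ℝ} (hC : 1 ≤ C) (hε : 0 < ε) (hCε : C * ε ^ 2 ≤ 1)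
    (hD : IsDen ε C D D0) {q : ℂ × ℂ → ℝ} {w : ℂ × ℂ → ℂ} (l : ℂ × ℂ →L[ℝ] ℝ) (e : ℝ) (e' : ℂ)
    (p : ℂ × ℂ) (hp : ‖p.1‖ ^ 2 + ‖p.2‖ ^ 2 ≤ ε ^ 2)
    (hqw : ∀ᶠ ζ : ℂ × ℂ in nhds p, q ζ = ‖ζ.1‖ ^ 2 - ‖ζ.2‖ ^ 2 ∧ w ζ = 2 * ζ.1 * conj ζ.2)
    (hc : Crit (fun ζ => (l ζ + e * q ζ + (conj e' * w ζ).re) / D ζ) p) :
    SadCrit (fun ζ => (l ζ + e * q ζ + (conj e' * w ζ).re) / D ζ) p := by
  obtain ⟨E, P, Q, hE, hP2, hQ2, hab, hP, hQ⟩ := hopf_planes e e'
  -- the quadratic part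
  obtain ⟨h, hh⟩ : ∃ h : ℂ × ℂ → ℝ, h = fun v : ℂ × ℂ =>
    e * (‖v.1‖ ^ 2 - ‖v.2‖ ^ 2) + (conj e' * (2 * v.1 * conj v.2)).re := ⟨_, rfl⟩
  obtain ⟨L, hL⟩ : ∃ L : ℂ × ℂ → ℝ, L = fun v : ℂ × ℂ =>
    e * (2 * (conj p.1 * v.1).re - 2 * (conj p.2 * v.2).re) +
      (conj e' * (2 * (p.1 * conj v.2 + v.1 * conj p.2))).re := ⟨_, rfl⟩
  have hexp : ∀ (t : ℝ) (v : ℂ × ℂ), h (p + t • v) = h p + t * L v + t ^ 2 * h v := by
    intro t v
    have e1 : (p + t • v).1 = p.1 + (t : ℂ) * v.1 := by simp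
    have e2 : (p + t • v).2 = p.2 + (t : ℂ) * v.2 := by simp
    simp only [hh, hL]
    rw [e1, e2]
    simp only [← Complex.normSq_eq_norm_sq]
    simp only [Complex.normSq_apply, Complex.add_re, Complex.add_im, Complex.mul_re,
      Complex.mul_im, Complex.ofReal_re, Complex.ofReal_im, Complex.conj_re, Complex.conj_im,
      Complex.re_ofNat, Complex.im_ofNat]
    ring
  have hLp : L p = 2 * h p := by
    have h2 := hexp 1 p
    have h3 : h (p + (1 : ℝ) • p) = 4 * h p := by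
      have e1 : (p + (1 : ℝ) • p).1 = 2 * p.1 := by
        rw [one_smul, Prod.fst_add]; ring
      have e2 : (p + (1 : ℝ) • p).2 = 2 * p.2 := by
        rw [one_smul, Prod.snd_add]; ring
      simp only [hh]
      rw [e1, e2]
      simp only [← Complex.normSq_eq_norm_sq]
      simp only [Complex.normSq_apply, Complex.mul_re,
        Complex.mul_im, Complex.conj_re, Complex.conj_im,
        Complex.re_ofNat, Complex.im_ofNat]
      ring
    rw [h3] at h2
    linarith
  have hDpos : ∀ ζ, 0 < D ζ := fun ζ => lt_of_lt_of_le (by norm_num) (hD.ge ζ)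
  -- the numerator near p
  have hev : (fun ζ => (l ζ + e * q ζ + (conj e' * w ζ).re) / D ζ) =ᶠ[nhds p]
      fun ζ => (l ζ + h ζ) / D ζ := by
    filter_upwards [hqw] with ζ hζ
    rw [hζ.1, hζ.2]
    simp only [hh]
    rw [add_assoc]
  have hhd : Differentiable ℝ h := by
    rw [hh]
    have h1 : Differentiable ℝ fun v : ℂ × ℂ => ‖v.1‖ ^ 2 := differentiable_fst.norm_sq ℝ
    have h2 : Differentiable ℝ fun v : ℂ × ℂ => ‖v.2‖ ^ 2 := differentiable_snd.norm_sq ℝ
    have h3 : Differentiable ℝ fun v : ℂ × ℂ => conj e' * (2 * v.1 * conj v.2) :=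
      (((differentiable_const (2 : ℂ)).mul differentiable_fst).mul
        (Complex.conjCLE.differentiable.comp differentiable_snd)).const_mul _
    exact ((h1.sub h2).const_mul e).add (Complex.reCLM.differentiable.comp h3)
  have hDd : Differentiable ℝ D := hD.smooth.differentiable (by simp)
  have hFd : DifferentiableAt ℝ (fun ζ => (l ζ + h ζ) / D ζ) p := by
    have h1 : DifferentiableAt ℝ (fun ζ => (D ζ)⁻¹) p := (hDd p).inv (hDpos p).ne'
    have h2 : DifferentiableAt ℝ (fun ζ => l ζ + h ζ) p := (l.differentiable p).add (hhd p)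
    have h3 : (fun ζ => (l ζ + h ζ) / D ζ) = (fun ζ => l ζ + h ζ) * fun ζ => (D ζ)⁻¹ := by
      funext ζ
      rw [Pi.mul_apply, div_eq_mul_inv]
    rw [h3]
    exact h2.mul h1
  have hc' : HasFDerivAt (fun ζ => (l ζ + h ζ) / D ζ) (0 : ℂ × ℂ →L[ℝ] ℝ) p := by
    have h1 := hFd.hasFDerivAt
    have h2 : fderiv ℝ (fun ζ => (l ζ + h ζ) / D ζ) p = 0 := by
      rw [← hev.fderiv_eq]
      exact hc
    rwa [h2] at h1
  obtain ⟨lam, hlam⟩ : ∃ lam : ℝ, lam = (l p + h p) / D p := ⟨_, rfl⟩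
  have hlamD : l p + h p = lam * D p := by
    rw [hlam, div_mul_cancel₀ _ (hDpos p).ne']
  -- derivatives along lines
  have hcurve : ∀ v : ℂ × ℂ, HasDerivAt (fun t : ℝ => p + t • v) v 0 := by
    intro v
    have := ((hasDerivAt_id (0 : ℝ)).smul_const v).const_add p
    simpa using this
  have hp0 : ∀ v : ℂ × ℂ, p + (0 : ℝ) • v = p := fun v => by simp
  have hDl : ∀ v : ℂ × ℂ, HasDerivAt (fun t : ℝ => D (p + t • v)) (fderiv ℝ D p v) 0 := by
    intro v
    have h1 : HasFDerivAt D (fderiv ℝ D p) (p + (0 : ℝ) • v) := by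
      rw [hp0]; exact (hDd p).hasFDerivAt
    exact h1.comp_hasDerivAt (0 : ℝ) (hcurve v)
  have hNl : ∀ v : ℂ × ℂ, HasDerivAt (fun t : ℝ => l (p + t • v) + h (p + t • v))
      (lam * fderiv ℝ D p v) 0 := by
    intro v
    have h1 : HasFDerivAt (fun ζ => (l ζ + h ζ) / D ζ) (0 : ℂ × ℂ →L[ℝ] ℝ) (p + (0 : ℝ) • v) := by
      rw [hp0]; exact hc'
    have h2 := h1.comp_hasDerivAt (0 : ℝ) (hcurve v)
    have h3 := h2.mul (hDl v)
    have h4 : (fun t : ℝ => l (p + t • v) + h (p + t • v)) =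
        ((fun ζ => (l ζ + h ζ) / D ζ) ∘ fun t : ℝ => p + t • v) * fun t : ℝ => D (p + t • v) := by
      funext t
      simp only [Pi.mul_apply, Function.comp_apply]
      rw [div_mul_cancel₀ _ (hDpos _).ne']
    rw [h4]
    refine h3.congr_deriv ?_
    simp only [Function.comp_apply, hp0, zero_apply, zero_mul, zero_add]
    rw [hlam]
  have hNl' : ∀ v : ℂ × ℂ, HasDerivAt (fun t : ℝ => l (p + t • v) + h (p + t • v))
      (l v + L v) 0 := by
    intro v
    have h1 : (fun t : ℝ => l (p + t • v) + h (p + t • v)) =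
        fun t : ℝ => (l p + h p) + (l v + L v) * t + h v * t ^ 2 := by
      funext t
      rw [hexp, map_add, map_smul, smul_eq_mul]
      ring
    rw [h1]
    have h2 := (((hasDerivAt_id (0 : ℝ)).const_mul (l v + L v)).const_add (l p + h p)).add
      (((hasDerivAt_id (0 : ℝ)).pow 2).const_mul (h v))
    refine h2.congr_deriv ?_
    simp
  have hEul : l p + 2 * h p = lam * fderiv ℝ D p p := by
    have := (hNl' p).unique (hNl p)
    rw [hLp] at this
    exact this
  obtain ⟨hR0, hR1⟩ := hD.rad p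
  have hR2 : fderiv ℝ D p p ≤ 2 := by
    have : 2 * C * (‖p.1‖ ^ 2 + ‖p.2‖ ^ 2) ≤ 2 * C * ε ^ 2 :=
      mul_le_mul_of_nonneg_left hp (by linarith)
    nlinarith
  have hD4 := hD.ge p
  have hhp : h p = lam * (fderiv ℝ D p p - D p) := by linear_combination hEul - hlamD
  have hlamE : |lam| * C ≤ E := by
    have h1 : |h p| ≤ E * (‖p.1‖ ^ 2 + ‖p.2‖ ^ 2) := by
      have := hab p
      rw [hh]
      exact this
    have h2 : |h p| = |lam| * (D p - fderiv ℝ D p p) := by
      rw [hhp, abs_mul, abs_sub_comm, abs_of_nonneg (a := D p - fderiv ℝ D p p) (by linarith)]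
    have h3 : |lam| * 2 ≤ |lam| * (D p - fderiv ℝ D p p) :=
      mul_le_mul_of_nonneg_left (by linarith) (abs_nonneg _)
    have h4 : E * (‖p.1‖ ^ 2 + ‖p.2‖ ^ 2) ≤ E * ε ^ 2 := mul_le_mul_of_nonneg_left hp hE
    have h5 : |lam| * 2 ≤ E * ε ^ 2 := by linarith
    have h6 : |lam| * 2 * C ≤ E * ε ^ 2 * C := mul_le_mul_of_nonneg_right h5 (by linarith)
    have h7 : E * (C * ε ^ 2) ≤ E * 1 := mul_le_mul_of_nonneg_left hCε hE
    nlinarith [abs_nonneg lam]
  have hlamE' : |(-lam)| * C ≤ E := by rw [abs_neg]; exact hlamE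
  -- tangent inequality
  have htan : ∀ γ : ℝ → ℝ, ConvexOn ℝ Set.univ γ → HasDerivAt γ 0 0 → γ 0 ≤ γ 1 := by
    intro γ hγ hd
    have := hγ.le_slope_of_hasDerivAt (Set.mem_univ 0) (Set.mem_univ 1) zero_lt_one hd
    rw [slope_def_field] at this
    linarith
  have hPin : ∀ v ∈ P, lam * D (p + v) ≤ l (p + v) + h (p + v) := by
    intro v hv
    have hv1 : h v = E * (‖v.1‖ ^ 2 + ‖v.2‖ ^ 2) := by rw [hh]; exact hP v hv
    have hcv := tv18_conv hD.conv hD.conv' p v hE hlamE (l p + h p) (l v + L v)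
    have hcv' : ConvexOn ℝ Set.univ fun t : ℝ =>
        (l (p + t • v) + h (p + t • v)) - lam * D (p + t • v) := by
      refine hcv.congr ?_
      intro t _
      simp only
      rw [hexp, map_add, map_smul, smul_eq_mul, hv1]
      ring
    have hdv : HasDerivAt (fun t : ℝ =>
        (l (p + t • v) + h (p + t • v)) - lam * D (p + t • v)) 0 0 := by
      refine ((hNl v).sub ((hDl v).const_mul lam)).congr_deriv ?_
      ring
    have := htan _ hcv' hdv
    simp only [one_smul, hp0] at this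
    linarith
  have hQin : ∀ v ∈ Q, l (p + v) + h (p + v) ≤ lam * D (p + v) := by
    intro v hv
    have hv1 : h v = -E * (‖v.1‖ ^ 2 + ‖v.2‖ ^ 2) := by rw [hh]; exact hQ v hv
    have hcv := tv18_conv hD.conv hD.conv' p v hE hlamE' (-(l p + h p)) (-(l v + L v))
    have hcv' : ConvexOn ℝ Set.univ fun t : ℝ =>
        lam * D (p + t • v) - (l (p + t • v) + h (p + t • v)) := by
      refine hcv.congr ?_
      intro t _
      simp only
      rw [hexp, map_add, map_smul, smul_eq_mul, hv1]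
      ring
    have hdv : HasDerivAt (fun t : ℝ =>
        lam * D (p + t • v) - (l (p + t • v) + h (p + t • v))) 0 0 := by
      refine (((hDl v).const_mul lam).sub (hNl v)).congr_deriv ?_
      ring
    have := htan _ hcv' hdv
    simp only [one_smul, hp0] at this
    linarith
  obtain ⟨δ, hδ, hball⟩ := Metric.eventually_nhds_iff.1 hev
  have hval : ∀ v : ℂ × ℂ, ‖v‖ < δ →
      (l (p + v) + e * q (p + v) + (conj e' * w (p + v)).re) / D (p + v) =
        (l (p + v) + h (p + v)) / D (p + v) := by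
    intro v hv
    apply hball
    rwa [dist_eq_norm, add_sub_cancel_left]
  have hvalp : (l p + e * q p + (conj e' * w p).re) / D p = lam := by
    have := hval 0 (by rwa [norm_zero])
    rw [add_zero] at this
    rw [this, hlam]
  refine ⟨P, Q, hP2, hQ2, δ, hδ, ?_, ?_⟩
  · intro v hv hvδ
    simp only
    rw [hvalp, hval v hvδ, le_div_iff₀ (hDpos _)]
    exact hPin v hv
  · intro v hv hvδ
    simp only
    rw [hvalp, hval v hvδ, div_le_iff₀ (hDpos _)]
    exact hQin v hv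

end Pool.Agent.H63.TV
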