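import Pool.Agent.H63.TV.Den
import Pool.Agent.H63.TV.SadA
import Pool.Agent.H63.TV.SadB1

/-!
# TV-18: the region where the denominator is modified; TV-19: the region where it is constant

`sad_ann`.  `q, w` are the Hopf components near `p`, `|p| ≤ ε`, `D` as in `IsDen`, `C ε² ≤ 1`, `N = l + h` near `p` (`h` as in `hopf_planes`),
`lam = F p`, `∇N p = lam ∇D p`, `N p = lam D p`.  Euler as in TV-17: `h p = lam (fderiv D p p - D p)`, `fderiv D p p ≤ 2 C |p|² ≤ 2 C ε² ≤ 2`,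
`D p ≥ 4`, so `2 |lam| ≤ E |p|² ≤ E ε²` and `|lam| C ≤ E C ε² / 2 ≤ E`.
For `v` in `P` (`h = E |·|²` on `P`), `v` small: `N (p + v) = N p + fderiv N p v + E |v|²`.  The function
`ψ v = E |v|² - lam D (p + v)` is convex on `P`: if `lam ≤ 0` it is a sum of convex functions; if `lam > 0`,
`ψ v = E |v|² - lam C |p + v|² + lam (C |p + v|² - D (p + v))`, and `E |v|² - lam C |p + v|²` is `(E - lam C) |v|²` plus an affine function.
So `(N - lam D) (p + v) = [affine in v] + ψ v` is convex in `v ∈ P`, it vanishes at `0` together with its derivative, so it is `≥ 0`.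
On `Q`: `(N - lam D) (p + v) = affine - E |v|² - lam D (p + v)`, minus this is `affine + E |v|² + lam D (p + v)`, convex by the
same argument with `- lam`.  (Differentiable convex functions lie above their tangents.)

`sad_const`.  `D = D0 > 0` near `p`, and `N₀ = e q + Re (conj e' w)` has a `Saddle` at `p`.  Then `F = (l + N₀)/D0` near `p`,
critical means `l v + fderiv N₀ p v = 0` for all `v`; for `v ∈ P` small `N₀ p + fderiv N₀ p v ≤ N₀ (p + v)`, so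
`(l + N₀) p ≤ (l + N₀) (p + v)`.  Same for `Q`.
`saddle_scale`.  `q ζ = t² q₁ (ζ/t)`, `w ζ = t² w₁ (ζ/t)`, `t > 0`: `N ζ = t² N₁ (ζ/t)`, `fderiv N p v = t² fderiv N₁ (p/t) (v/t)`.
-/

open scoped ContDiff ComplexConjugate

namespace Pool.Agent.H63.TV

theorem sad_const {D : ℂ × ℂ → ℝ} {D0 : ℝ} (hD0 : 0 < D0) {q : ℂ × ℂ → ℝ} {w : ℂ × ℂ → ℂ}
    (hq : ContDiff ℝ ∞ q) (hw : ContDiff ℝ ∞ w) (l : ℂ × ℂ →L[ℝ] ℝ) (e : ℝ) (e' : ℂ) (p : ℂ × ℂ)
    (hD : ∀ᶠ ζ in nhds p, D ζ = D0)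
    (hs : Saddle (fun ζ => e * q ζ + (conj e' * w ζ).re) p)
    (hc : Crit (fun ζ => (l ζ + e * q ζ + (conj e' * w ζ).re) / D ζ) p) :
    SadCrit (fun ζ => (l ζ + e * q ζ + (conj e' * w ζ).re) / D ζ) p := by
  obtain ⟨P, Q, hP, hQ, δ, hδ, h1, h2⟩ := hs
  set N : ℂ × ℂ → ℝ := fun ζ => e * q ζ + (conj e' * w ζ).re with hN
  have hNd : DifferentiableAt ℝ N p := by
    have hqd : DifferentiableAt ℝ q p := hq.differentiable (by simp) p
    have hwd : DifferentiableAt ℝ w p := hw.differentiable (by simp) p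
    have h3 : DifferentiableAt ℝ (fun ζ => (conj e' * w ζ).re) p :=
      (Complex.reCLM.differentiableAt).comp p (hwd.const_mul (conj e'))
    exact (hqd.const_mul e).add h3
  have hF : ∀ ζ, D ζ = D0 → (l ζ + e * q ζ + (conj e' * w ζ).re) / D ζ =
      (l ζ + N ζ) * D0⁻¹ := by
    intro ζ hζ
    rw [hζ, div_eq_mul_inv, add_assoc]
  have hev : (fun ζ => (l ζ + e * q ζ + (conj e' * w ζ).re) / D ζ) =ᶠ[nhds p]
      fun ζ => (l ζ + N ζ) * D0⁻¹ := by
    filter_upwards [hD] with ζ hζ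
    exact hF ζ hζ
  have hder : HasFDerivAt (fun ζ => (l ζ + N ζ) * D0⁻¹) (D0⁻¹ • (l + fderiv ℝ N p)) p :=
    ((l.hasFDerivAt (x := p)).add hNd.hasFDerivAt).mul_const D0⁻¹
  have hzero : D0⁻¹ • (l + fderiv ℝ N p) = 0 := by
    have h4 : fderiv ℝ (fun ζ => (l ζ + e * q ζ + (conj e' * w ζ).re) / D ζ) p = 0 := hc
    rw [hev.fderiv_eq, hder.fderiv] at h4
    exact h4
  have hlin : ∀ v, l v + fderiv ℝ N p v = 0 := by
    intro v
    have h5 : l + fderiv ℝ N p = 0 := by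
      rcases smul_eq_zero.mp hzero with h | h
      · exact absurd h (inv_ne_zero hD0.ne')
      · exact h
    have h6 := congrArg (fun A : ℂ × ℂ →L[ℝ] ℝ => A v) h5
    simpa using h6
  obtain ⟨δ', hδ', hball⟩ := Metric.eventually_nhds_iff.mp hD
  have hDp : D p = D0 := hD.self_of_nhds
  refine ⟨P, Q, hP, hQ, min δ δ', lt_min hδ hδ', ?_, ?_⟩
  · intro v hv hvn
    have hDv : D (p + v) = D0 := by
      apply hball
      rw [dist_eq_norm, add_sub_cancel_left]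
      exact hvn.trans_le (min_le_right _ _)
    show (l p + e * q p + (conj e' * w p).re) / D p ≤
      (l (p + v) + e * q (p + v) + (conj e' * w (p + v)).re) / D (p + v)
    rw [hF p hDp, hF (p + v) hDv, map_add]
    refine mul_le_mul_of_nonneg_right ?_ (inv_nonneg.mpr hD0.le)
    have h7 := h1 v hv (hvn.trans_le (min_le_left _ _))
    have h8 := hlin v
    have h9 : N p + fderiv ℝ N p v ≤ N (p + v) := h7
    linarith
  · intro v hv hvn
    have hDv : D (p + v) = D0 := by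
      apply hball
      rw [dist_eq_norm, add_sub_cancel_left]
      exact hvn.trans_le (min_le_right _ _)
    show (l (p + v) + e * q (p + v) + (conj e' * w (p + v)).re) / D (p + v) ≤
      (l p + e * q p + (conj e' * w p).re) / D p
    rw [hF p hDp, hF (p + v) hDv, map_add]
    refine mul_le_mul_of_nonneg_right ?_ (inv_nonneg.mpr hD0.le)
    have h7 := h2 v hv (hvn.trans_le (min_le_left _ _))
    have h8 := hlin v
    have h9 : N (p + v) ≤ N p + fderiv ℝ N p v := h7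
    linarith

theorem saddle_scale {N : ℂ × ℂ → ℝ} {p : ℂ × ℂ} {t : ℝ} (ht : 0 < t) (hN : ContDiff ℝ ∞ N)
    (h : Saddle N (t⁻¹ • p)) : Saddle (fun ζ => t ^ 2 * N (t⁻¹ • ζ)) p := by
  obtain ⟨P, Q, hP, hQ, δ, hδ, h1, h2⟩ := h
  have hNd : DifferentiableAt ℝ N (t⁻¹ • p) := hN.differentiable (by simp) _
  have hder : HasFDerivAt (fun ζ : ℂ × ℂ => t ^ 2 * N (t⁻¹ • ζ))
      (t ^ 2 • ((fderiv ℝ N (t⁻¹ • p)).comp (t⁻¹ • ContinuousLinearMap.id ℝ (ℂ × ℂ)))) p := by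
    have h3 : HasFDerivAt (fun ζ : ℂ × ℂ => t⁻¹ • ζ) (t⁻¹ • ContinuousLinearMap.id ℝ (ℂ × ℂ)) p :=
      (hasFDerivAt_id p).const_smul t⁻¹
    have h4 := (hNd.hasFDerivAt.comp p h3).const_mul (t ^ 2)
    exact h4
  have hval : ∀ v, fderiv ℝ (fun ζ : ℂ × ℂ => t ^ 2 * N (t⁻¹ • ζ)) p v =
      t ^ 2 * fderiv ℝ N (t⁻¹ • p) (t⁻¹ • v) := by
    intro v
    rw [hder.fderiv]
    simp
  have hnorm : ∀ v : ℂ × ℂ, ‖v‖ < t * δ → ‖t⁻¹ • v‖ < δ := by
    intro v hv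
    rw [norm_smul, Real.norm_eq_abs, abs_of_pos (inv_pos.mpr ht), inv_mul_lt_iff₀ ht]
    exact hv
  refine ⟨P, Q, hP, hQ, t * δ, mul_pos ht hδ, ?_, ?_⟩
  · intro v hv hvn
    have h5 := h1 (t⁻¹ • v) (P.smul_mem _ hv) (hnorm v hvn)
    rw [hval]
    show t ^ 2 * N (t⁻¹ • p) + t ^ 2 * fderiv ℝ N (t⁻¹ • p) (t⁻¹ • v) ≤ t ^ 2 * N (t⁻¹ • (p + v))
    rw [← mul_add, smul_add]
    exact mul_le_mul_of_nonneg_left h5 (by positivity)
  · intro v hv hvn
    have h5 := h2 (t⁻¹ • v) (Q.smul_mem _ hv) (hnorm v hvn)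
    rw [hval]
    show t ^ 2 * N (t⁻¹ • (p + v)) ≤ t ^ 2 * N (t⁻¹ • p) + t ^ 2 * fderiv ℝ N (t⁻¹ • p) (t⁻¹ • v)
    rw [← mul_add, smul_add]
    exact mul_le_mul_of_nonneg_left h5 (by positivity)

end Pool.Agent.H63.TV
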