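import Pool.Agent.H63.TV.Ver
import Pool.Agent.H63.TV.SadB
import Pool.Agent.H63.TV.NeckA

/-!
# TV-32 .. TV-37: the flattened embedding of `CP^2`

`theta q D w ζ` is the point of `E^7` with homogeneous coordinates `(D : ζ : q : w)`; `gfun` is the flattened embedding.
`ver_lift`: computation.  `ht_theta`: computation (`Re (conj ξ₁ conj ζ₁) = Re (ξ₁ ζ₁)`).
`gfun_eq_ver` (TV-32): `ver z = ver (lift (pr z))` for `z 0 ≠ 0` (`ver_hom`, `lift_pr`), `ver_lift`, `Good.out`.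
`gfun_smooth` (TV-33): if `z 0 ≠ 0`: `gfun = theta (..) ∘ pr` near `z`, smooth since `D ≥ 4`.  If `z 0 = 0`, `z ≠ 0`: near `z` either `y 0 = 0` or
`|pr y|² = (|y 1|² + |y 2|²)/|y 0|² ≥ ε²`, so `gfun = ver` near `z`.
`gfun_inj` (TV-34): let `gfun z = gfun z'`.  If both are in the region where `gfun = ver`: `ver_inj`.  Let `ζ = pr z`, `z 0 ≠ 0`,
`|ζ|² < ε²`.  The components 2 and 4 of `gfun z` are `2√2 conj ζ₁ / D`, `2√2 ζ₂ / D`; the components 1 and 3 have modulus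
`≤ √2/16` (`Good.small`, `D ≥ 4`).  If `z' 0 = 0`: `|comp 1|² + |comp 3|² = 2` (as `(|a|²-|b|²)² + 4|a|²|b|² = (|a|²+|b|²)²`), a contradiction.
If `z' 0 ≠ 0`, `ζ' = pr z'`: if `|ζ'|² > 4` then `|comp 1|² + |comp 3|² = 2 |ζ'|⁴/(4 + |ζ'|²)² > 1/2`, a contradiction.  Otherwise
`Good.inj` gives `ζ = ζ'`, so `z'` is a multiple of `z` (`lift_pr`).
`gfun_imm` (TV-35): `z 0 = 0` or `|pr z|² ≥ ε²`: if `z 0 = 0` or `|pr z|² > ε²`, `gfun = ver` near `z`, `ver_imm`.  Otherwise `|ζ|² ≤ ε² ≤ 1`,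
`ζ = pr z`: components 2 and 4 of `gfun` near `z` are (up to conjugation and `2√2`) `(pr y) / D (pr y)`; if the derivative in the direction `w` vanishes, with
`η = D pr (z) w`: `η / D = (fderiv D ζ η / D²) ζ`, so `η = τ ζ` with `τ = fderiv D ζ η / D = τ fderiv D ζ ζ / D`, and `Good.imm` gives `τ = 0`, `η = 0`,
`w = μ • z` (`fderiv_pr`).
`psi` (TV-36): `a / τ`, `b / τ` and `1 / τ` determine `(a, τ, b)` (`α r ≠ 0`).
`ht_psi` (TV-37): computation.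
-/

set_option autoImplicit false

open scoped ContDiff ComplexConjugate

namespace Pool.Agent.H63.TV

noncomputable section

/-- the point of `E^7` with affine coordinates `q, w, ζ` and denominator `D` -/
def theta (q D : ℝ) (w : ℂ) (ζ : ℂ × ℂ) : E7 :=
  (Real.sqrt 2 * q / D, ((2 * Real.sqrt 2 / D : ℝ) : ℂ) * conj ζ.1, ((Real.sqrt 2 / D : ℝ) : ℂ) * w,
    ((2 * Real.sqrt 2 / D : ℝ) : ℂ) * ζ.2)

/-- the flattened embedding -/
def gfun (q : ℂ × ℂ → ℝ) (w : ℂ × ℂ → ℂ) (D : ℂ × ℂ → ℝ) (z : C3) : E7 :=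
  if z 0 = 0 then ver z else theta (q (pr z)) (D (pr z)) (w (pr z)) (pr z)

/-- the linear part of a height function -/
def lin (ξ : E7) : ℂ × ℂ →L[ℝ] ℝ :=
  Complex.reCLM.comp
    (((ContinuousLinearMap.mul ℝ ℂ (((2 * Real.sqrt 2 : ℝ) : ℂ) * ξ.2.1)).comp
        (ContinuousLinearMap.fst ℝ ℂ ℂ)) +
      ((ContinuousLinearMap.mul ℝ ℂ (((2 * Real.sqrt 2 : ℝ) : ℂ) * conj ξ.2.2.2)).comp
        (ContinuousLinearMap.snd ℝ ℂ ℂ)))

/-- the neck embedding -/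
def psi (α β r D0 : ℝ) (y : ℂ × R3) : E7 :=
  theta (α * r / y.2.1 + β) D0 0 (y.1 / (y.2.1 : ℂ), y.2.2 / (y.2.1 : ℂ))

theorem ver_lift (ζ : ℂ × ℂ) : ver (lift ζ) =
    theta (‖ζ.1‖ ^ 2 - ‖ζ.2‖ ^ 2) (4 + ‖ζ.1‖ ^ 2 + ‖ζ.2‖ ^ 2) (2 * ζ.1 * conj ζ.2) ζ := by
  have h0 : lift ζ 0 = 1 := rfl
  have h1 : lift ζ 1 = ζ.1 := rfl
  have h2 : lift ζ 2 = ζ.2 := rfl
  simp only [ver, theta, h0, h1, h2, norm_one, one_pow, mul_one, one_mul, map_one]
  refine Prod.ext ?_ (Prod.ext ?_ (Prod.ext ?_ ?_))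
  · rfl
  · rfl
  · simp only
    push_cast
    ring
  · rfl

theorem ht_theta (ξ : E7) (q D : ℝ) (w : ℂ) (ζ : ℂ × ℂ) : ht ξ (theta q D w ζ) =
    (lin ξ ζ + Real.sqrt 2 * ξ.1 * q + (conj (((Real.sqrt 2 : ℝ) : ℂ) * ξ.2.2.1) * w).re) / D := by
  simp only [ht, theta, lin, ContinuousLinearMap.comp_apply, _root_.add_apply,
    ContinuousLinearMap.mul_apply', ContinuousLinearMap.coe_fst', ContinuousLinearMap.coe_snd',
    Complex.reCLM_apply, map_mul, Complex.conj_ofReal, Complex.mul_re, Complex.mul_im,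
    Complex.add_re, Complex.ofReal_re, Complex.ofReal_im, Complex.conj_re, Complex.conj_im]
  ring

variable {ε : ℝ} {q : ℂ × ℂ → ℝ} {w : ℂ × ℂ → ℂ} {D : ℂ × ℂ → ℝ} {α β r1 r2 r3 D0 : ℝ}

theorem gfun_lift (ζ : ℂ × ℂ) : gfun q w D (lift ζ) = theta (q ζ) (D ζ) (w ζ) ζ := by
  simp [gfun, lift, pr]

theorem gfun_hom (μ : ℂ) (z : C3) (hμ : μ ≠ 0) : gfun q w D (μ • z) = gfun q w D z := by
  by_cases hz : z 0 = 0
  · have h1 : (μ • z) 0 = 0 := by simp [hz]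
    simp only [gfun, h1, hz, if_true]
    exact ver_hom μ z hμ
  · have h1 : ¬ (μ • z) 0 = 0 := by simp [hz, hμ]
    have h2 : pr (μ • z) = pr z := by
      simp only [pr, Pi.smul_apply, smul_eq_mul]
      rw [mul_div_mul_left _ _ hμ, mul_div_mul_left _ _ hμ]
    simp only [gfun, h1, hz, if_false, h2]

theorem gfun_eq_ver (hG : Good ε q w D α β r1 r2 r3 D0) {z : C3}
    (h : z 0 = 0 ∨ ε ^ 2 ≤ ‖(pr z).1‖ ^ 2 + ‖(pr z).2‖ ^ 2) : gfun q w D z = ver z := by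
  by_cases hz : z 0 = 0
  · simp only [gfun, hz, if_true]
  · have h' := h.resolve_left hz
    obtain ⟨hq, hw, hD⟩ := hG.out (pr z) h'
    simp only [gfun, hz, if_false]
    rw [hq, hw, hD, ← ver_lift, ← ver_hom (z 0) (lift (pr z)) hz, lift_pr hz]

end

end Pool.Agent.H63.TV
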