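import Pool.Agent.H63.TV.Ver
import Pool.Agent.H63.TV.SadB
import Pool.Agent.H63.TV.NeckA
import Pool.Agent.H63.TV.EmbA1

/-!
# TV-32 .. TV-37: the flattened embedding of `CP^2`

`theta q D w ζ` is the point of `E^7` with homogeneous coordinates `(D : ζ : q : w)`; `gfun` is the flattened embedding.
`ver_lift`: computation.  `ht_theta`: computation (`Re (conj ξ₁ conj ζ₁) = Re (ξ₁ ζ₁)`).
`gfun_eq_ver` (TV-32): `ver z = ver (lift (pr z))` for `z 0 ≠ 0` (`ver_hom`, `lift_pr`), `ver_lift`, `Good.out`.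
`gfun_smooth` (TV-33): if `z 0 ≠ 0`: `gfun = theta (..) ∘ pr` near `z`, smooth since `D ≥ 4`.  If `z 0 = 0`, `z ≠ 0`: near `z` either `y 0 = 0` or
`|pr y|² = (|y 1|² + |y 2|²)/|y 0|² ≥ ε²`, so `gfun = ver` near `z`.
`gfun_inj` (TV-34): let `gfun z = gfun z'`.  If both are in the region where `gfun = ver`: `ver_inj`.  Let `ζ = pr z`, `z 0 ≠ 0`,
`|ζ|² < ε²`.  The components 2 and 4 of `gfun z` are `2√2 conj ζ₁ / D`, `2√2 ζ₂ / D`; the components 1 and 3 have modulus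
`≤ √2/16` (`Good.small`, `D ≥ 4`).  If `z' 0 = 0`: `|comp 1|² + |comp 3|² = 2` (as `(|a|²-|b|²)² + 4|a|²|b|² = (|a|²+|b|²)²`), a contradiction.
If `z' 0 ≠ 0`, `ζ' = pr z'`: if `|ζ'|² > 4` then `|comp 1|² + |comp 3|² = 2 |ζ'|⁴/(4 + |ζ'|²)² > 1/2`, a contradiction.  Otherwise
`Good.inj` gives `ζ = ζ'`, so `z'` is a multiple of `z` (`lift_pr`).
`gfun_imm` (TV-35): `z 0 = 0` or `|pr z|² ≥ ε²`: if `z 0 = 0` or `|pr z|² > ε²`, `gfun = ver` near `z`, `ver_imm`.  Otherwise `|ζ|² ≤ ε² ≤ 1`,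
`ζ = pr z`: components 2 and 4 of `gfun` near `z` are (up to conjugation and `2√2`) `(pr y) / D (pr y)`; if the derivative in the direction `w` vanishes, with
`η = D pr (z) w`: `η / D = (fderiv D ζ η / D²) ζ`, so `η = τ ζ` with `τ = fderiv D ζ η / D = τ fderiv D ζ ζ / D`, and `Good.imm` gives `τ = 0`, `η = 0`,
`w = μ • z` (`fderiv_pr`).
`psi` (TV-36): `a / τ`, `b / τ` and `1 / τ` determine `(a, τ, b)` (`α r ≠ 0`).
`ht_psi` (TV-37): computation.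
-/

open scoped ContDiff ComplexConjugate

namespace Pool.Agent.H63.TV

noncomputable section

variable {ε : ℝ} {q : ℂ × ℂ → ℝ} {w : ℂ × ℂ → ℂ} {D : ℂ × ℂ → ℝ} {α β r1 r2 r3 D0 : ℝ}

theorem embA2_ofReal {f : C3 → ℝ} {z : C3} (hf : ContDiffAt ℝ ∞ f z) :
    ContDiffAt ℝ ∞ (fun y => ((f y : ℝ) : ℂ)) z :=
  Complex.ofRealCLM.contDiff.contDiffAt.comp z hf

theorem embA2_conj {f : C3 → ℂ} {z : C3} (hf : ContDiffAt ℝ ∞ f z) :
    ContDiffAt ℝ ∞ (fun y => conj (f y)) z :=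
  Complex.conjCLE.contDiff.contDiffAt.comp z hf

theorem embA2_coord (i : Fin 3) (z : C3) : ContDiffAt ℝ ∞ (fun y : C3 => y i) z :=
  contDiffAt_pi.1 contDiffAt_id i

theorem embA2_normsq (i : Fin 3) (z : C3) : ContDiffAt ℝ ∞ (fun y : C3 => ‖y i‖ ^ 2) z :=
  (contDiff_norm_sq ℝ).contDiffAt.comp z (embA2_coord i z)

theorem embA2_ver {z : C3} (hz : z ≠ 0) : ContDiffAt ℝ ∞ ver z := by
  have hpos : 4 * ‖z 0‖ ^ 2 + ‖z 1‖ ^ 2 + ‖z 2‖ ^ 2 ≠ 0 := by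
    intro h
    apply hz
    have h0 : ‖z 0‖ = 0 := by nlinarith [sq_nonneg ‖z 0‖, sq_nonneg ‖z 1‖, sq_nonneg ‖z 2‖]
    have h1 : ‖z 1‖ = 0 := by nlinarith [sq_nonneg ‖z 0‖, sq_nonneg ‖z 1‖, sq_nonneg ‖z 2‖]
    have h2 : ‖z 2‖ = 0 := by nlinarith [sq_nonneg ‖z 0‖, sq_nonneg ‖z 1‖, sq_nonneg ‖z 2‖]
    funext i
    fin_cases i
    · exact norm_eq_zero.1 h0
    · exact norm_eq_zero.1 h1
    · exact norm_eq_zero.1 h2
  have hd : ContDiffAt ℝ ∞ (fun y : C3 => 4 * ‖y 0‖ ^ 2 + ‖y 1‖ ^ 2 + ‖y 2‖ ^ 2) z :=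
    ((contDiffAt_const.mul (embA2_normsq 0 z)).add (embA2_normsq 1 z)).add (embA2_normsq 2 z)
  have hq : ContDiffAt ℝ ∞
      (fun y : C3 => 2 * Real.sqrt 2 / (4 * ‖y 0‖ ^ 2 + ‖y 1‖ ^ 2 + ‖y 2‖ ^ 2)) z :=
    contDiffAt_const.div hd hpos
  refine ContDiffAt.prodMk ?_ (ContDiffAt.prodMk ?_ (ContDiffAt.prodMk ?_ ?_))
  · exact (contDiffAt_const.mul ((embA2_normsq 1 z).sub (embA2_normsq 2 z))).div hd hpos
  · exact (embA2_ofReal hq).mul ((embA2_coord 0 z).mul (embA2_conj (embA2_coord 1 z)))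
  · exact (embA2_ofReal hq).mul ((embA2_coord 1 z).mul (embA2_conj (embA2_coord 2 z)))
  · exact (embA2_ofReal hq).mul ((embA2_coord 2 z).mul (embA2_conj (embA2_coord 0 z)))

theorem gfun_smooth (hG : Good ε q w D α β r1 r2 r3 D0) {z : C3} (hz : z ≠ 0) :
    ContDiffAt ℝ ∞ (gfun q w D) z := by
  by_cases h0 : z 0 = 0
  · have hev : gfun q w D =ᶠ[nhds z] ver := by
      have hopen : IsOpen {y : C3 | ε ^ 2 * ‖y 0‖ ^ 2 < ‖y 1‖ ^ 2 + ‖y 2‖ ^ 2} := by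
        apply isOpen_lt
        · fun_prop
        · fun_prop
      have hmem : z ∈ {y : C3 | ε ^ 2 * ‖y 0‖ ^ 2 < ‖y 1‖ ^ 2 + ‖y 2‖ ^ 2} := by
        show ε ^ 2 * ‖z 0‖ ^ 2 < ‖z 1‖ ^ 2 + ‖z 2‖ ^ 2
        rw [h0, norm_zero]
        by_contra hcon
        apply hz
        have h1 : ‖z 1‖ = 0 := by nlinarith [sq_nonneg ‖z 1‖, sq_nonneg ‖z 2‖]
        have h2 : ‖z 2‖ = 0 := by nlinarith [sq_nonneg ‖z 1‖, sq_nonneg ‖z 2‖]
        funext i
        fin_cases i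
        · exact h0
        · exact norm_eq_zero.1 h1
        · exact norm_eq_zero.1 h2
      filter_upwards [hopen.mem_nhds hmem] with y hy
      apply gfun_eq_ver hG
      by_cases hy0 : y 0 = 0
      · exact Or.inl hy0
      · refine Or.inr ?_
        have hn : 0 < ‖y 0‖ ^ 2 := by
          have := norm_pos_iff.2 hy0
          positivity
        have hy' : ε ^ 2 * ‖y 0‖ ^ 2 < ‖y 1‖ ^ 2 + ‖y 2‖ ^ 2 := hy
        show ε ^ 2 ≤ ‖y 1 / y 0‖ ^ 2 + ‖y 2 / y 0‖ ^ 2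
        rw [norm_div, norm_div, div_pow, div_pow, ← add_div, le_div_iff₀ hn]
        exact hy'.le
    exact (embA2_ver hz).congr_of_eventuallyEq hev
  · have hev : gfun q w D =ᶠ[nhds z]
        fun y => theta (q (pr y)) (D (pr y)) (w (pr y)) (pr y) := by
      have hopen : IsOpen {y : C3 | y 0 ≠ 0} := isOpen_ne_fun (continuous_apply 0) continuous_const
      filter_upwards [hopen.mem_nhds h0] with y hy
      have hy' : y 0 ≠ 0 := hy
      unfold gfun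
      rw [if_neg hy']
    refine ContDiffAt.congr_of_eventuallyEq ?_ hev
    have hp : ContDiffAt ℝ ∞ pr z := contDiffAt_pr h0
    have hq : ContDiffAt ℝ ∞ (fun y => q (pr y)) z := hG.sq.contDiffAt.comp z hp
    have hw : ContDiffAt ℝ ∞ (fun y => w (pr y)) z := hG.sw.contDiffAt.comp z hp
    have hD : ContDiffAt ℝ ∞ (fun y => D (pr y)) z := hG.sD.contDiffAt.comp z hp
    have hne : D (pr z) ≠ 0 := by
      have := hG.Dge (pr z)
      intro h
      linarith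
    have h1 : ContDiffAt ℝ ∞ (fun y => (pr y).1) z := contDiff_fst.contDiffAt.comp z hp
    have h2 : ContDiffAt ℝ ∞ (fun y => (pr y).2) z := contDiff_snd.contDiffAt.comp z hp
    refine ContDiffAt.prodMk ?_ (ContDiffAt.prodMk ?_ (ContDiffAt.prodMk ?_ ?_))
    · exact (contDiffAt_const.mul hq).div hD hne
    · exact (embA2_ofReal (contDiffAt_const.div hD hne)).mul (embA2_conj h1)
    · exact (embA2_ofReal (contDiffAt_const.div hD hne)).mul hw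
    · exact (embA2_ofReal (contDiffAt_const.div hD hne)).mul h2

end

end Pool.Agent.H63.TV
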