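import Pool.Agent.H63.TV.Ver
import Pool.Agent.H63.TV.SadB
import Pool.Agent.H63.TV.NeckA
import Pool.Agent.H63.TV.EmbA1

/-!
# TV-32 .. TV-37: the flattened embedding of `CP^2`

`theta q D w ζ` is the point of `E^7` with homogeneous coordinates `(D : ζ : q : w)`; `gfun` is the flattened embedding.
`ver_lift`: computation.  `ht_theta`: computation (`Re (conj ξ₁ conj ζ₁) = Re (ξ₁ ζ₁)`).
`gfun_eq_ver` (TV-32): `ver z = ver (lift (pr z))` for `z 0 ≠ 0` (`ver_hom`, `lift_pr`), `ver_lift`, `Good.out`.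
`gfun_smooth` (TV-33): if `z 0 ≠ 0`: `gfun = theta (..) ∘ pr` near `z`, smooth since `D ≥ 4`.  If `z 0 = 0`, `z ≠ 0`: near `z` either `y 0 = 0` or
`|pr y|² = (|y 1|² + |y 2|²)/|y 0|² ≥ ε²`, so `gfun = ver` near `z`.
`gfun_inj` (TV-34): let `gfun z = gfun z'`.  If both are in the region where `gfun = ver`: `ver_inj`.  Let `ζ = pr z`, `z 0 ≠ 0`,
`|ζ|² < ε²`.  The components 2 and 4 of `gfun z` are `2√2 conj ζ₁ / D`, `2√2 ζ₂ / D`; the components 1 and 3 have modulus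
`≤ √2/16` (`Good.small`, `D ≥ 4`).  If `z' 0 = 0`: `|comp 1|² + |comp 3|² = 2` (as `(|a|²-|b|²)² + 4|a|²|b|² = (|a|²+|b|²)²`), a contradiction.
If `z' 0 ≠ 0`, `ζ' = pr z'`: if `|ζ'|² > 4` then `|comp 1|² + |comp 3|² = 2 |ζ'|⁴/(4 + |ζ'|²)² > 1/2`, a contradiction.  Otherwise
`Good.inj` gives `ζ = ζ'`, so `z'` is a multiple of `z` (`lift_pr`).
`gfun_imm` (TV-35): `z 0 = 0` or `|pr z|² ≥ ε²`: if `z 0 = 0` or `|pr z|² > ε²`, `gfun = ver` near `z`, `ver_imm`.  Otherwise `|ζ|² ≤ ε² ≤ 1`,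
`ζ = pr z`: components 2 and 4 of `gfun` near `z` are (up to conjugation and `2√2`) `(pr y) / D (pr y)`; if the derivative in the direction `w` vanishes, with
`η = D pr (z) w`: `η / D = (fderiv D ζ η / D²) ζ`, so `η = τ ζ` with `τ = fderiv D ζ η / D = τ fderiv D ζ ζ / D`, and `Good.imm` gives `τ = 0`, `η = 0`,
`w = μ • z` (`fderiv_pr`).
`psi` (TV-36): `a / τ`, `b / τ` and `1 / τ` determine `(a, τ, b)` (`α r ≠ 0`).
`ht_psi` (TV-37): computation.
-/

open scoped ContDiff ComplexConjugate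

namespace Pool.Agent.H63.TV

noncomputable section

variable {ε : ℝ} {q : ℂ × ℂ → ℝ} {w : ℂ × ℂ → ℂ} {D : ℂ × ℂ → ℝ} {α β r1 r2 r3 D0 : ℝ}

/-- the sum of the squares of the components 1 and 3 -/
def e3S (y : E7) : ℝ := y.1 ^ 2 + ‖y.2.2.1‖ ^ 2

theorem e3S_theta (q D : ℝ) (w : ℂ) (ζ : ℂ × ℂ) :
    e3S (theta q D w ζ) = 2 * (q ^ 2 + ‖w‖ ^ 2) / D ^ 2 := by
  unfold e3S theta
  have h2 : Real.sqrt 2 ^ 2 = 2 := Real.sq_sqrt (by norm_num)
  simp only [norm_mul, Complex.norm_real, Real.norm_eq_abs, mul_pow, sq_abs, div_pow, h2]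
  ring

theorem e3S_ver {z : C3} (hz : z ≠ 0) (h0 : z 0 = 0) : e3S (ver z) = 2 := by
  have hn : 0 < ‖z 1‖ ^ 2 + ‖z 2‖ ^ 2 := by
    by_contra hcon
    have h1 : ‖z 1‖ ^ 2 = 0 := by nlinarith [sq_nonneg ‖z 1‖, sq_nonneg ‖z 2‖]
    have h2 : ‖z 2‖ ^ 2 = 0 := by nlinarith [sq_nonneg ‖z 1‖, sq_nonneg ‖z 2‖]
    have h3 : z 1 = 0 := by simpa using h1
    have h4 : z 2 = 0 := by simpa using h2
    apply hz
    funext i
    fin_cases i
    · exact h0
    · exact h3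
    · exact h4
  have h2 : Real.sqrt 2 ^ 2 = 2 := Real.sq_sqrt (by norm_num)
  unfold e3S ver
  simp only [norm_mul, Complex.norm_real, Real.norm_eq_abs, mul_pow, sq_abs, div_pow, h2,
    Complex.norm_conj, h0, norm_zero]
  have hn' : (4 * 0 ^ 2 + ‖z 1‖ ^ 2 + ‖z 2‖ ^ 2) ≠ 0 := by
    have : (4 * (0 : ℝ) ^ 2 + ‖z 1‖ ^ 2 + ‖z 2‖ ^ 2) = ‖z 1‖ ^ 2 + ‖z 2‖ ^ 2 := by ring
    rw [this]
    exact hn.ne'
  field_simp
  ring

/-- a point of the flattened region -/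
theorem e3_main (hG : Good ε q w D α β r1 r2 r3 D0) {z z' : C3} (hz' : z' ≠ 0)
    (h0 : z 0 ≠ 0) (hs : ‖(pr z).1‖ ^ 2 + ‖(pr z).2‖ ^ 2 ≤ ε ^ 2)
    (h : gfun q w D z = gfun q w D z') : ∃ μ : ℂ, z' = μ • z := by
  have hD4 := hG.Dge (pr z)
  have hsm := hG.small (pr z) hs
  have hg : gfun q w D z = theta (q (pr z)) (D (pr z)) (w (pr z)) (pr z) := by
    unfold gfun
    rw [if_neg h0]
  have hS : e3S (gfun q w D z) ≤ 1 / 64 := by
    rw [hg, e3S_theta]
    have h1 : q (pr z) ^ 2 ≤ 1 / 16 := by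
      have := abs_le.mp hsm.1
      nlinarith [this.1, this.2]
    have h2 : ‖w (pr z)‖ ^ 2 ≤ 1 / 16 := by
      have := norm_nonneg (w (pr z))
      nlinarith [hsm.2]
    rw [div_le_iff₀ (by positivity)]
    nlinarith
  by_cases h0' : z' 0 = 0
  · exfalso
    have h1 : gfun q w D z' = ver z' := gfun_eq_ver hG (Or.inl h0')
    rw [h, h1, e3S_ver hz' h0'] at hS
    norm_num at hS
  · have hg' : gfun q w D z' = theta (q (pr z')) (D (pr z')) (w (pr z')) (pr z') := by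
      unfold gfun
      rw [if_neg h0']
    by_cases hbig : ‖(pr z').1‖ ^ 2 + ‖(pr z').2‖ ^ 2 ≤ 4
    · have hD4' := hG.Dge (pr z')
      have he : theta (q (pr z)) (D (pr z)) (w (pr z)) (pr z) =
          theta (q (pr z')) (D (pr z')) (w (pr z')) (pr z') := by
        rw [← hg, ← hg', h]
      have hs2 : (0 : ℝ) < Real.sqrt 2 := Real.sqrt_pos.mpr (by norm_num)
      have hs2c : ((Real.sqrt 2 : ℝ) : ℂ) ≠ 0 := by
        exact_mod_cast hs2.ne'
      have hDc : ((D (pr z) : ℝ) : ℂ) ≠ 0 := by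
        exact_mod_cast (by linarith : (0 : ℝ) < D (pr z)).ne'
      have hDc' : ((D (pr z') : ℝ) : ℂ) ≠ 0 := by
        exact_mod_cast (by linarith : (0 : ℝ) < D (pr z')).ne'
      have e2 := congrArg (fun y : E7 => conj y.2.1) he
      have e4 := congrArg (fun y : E7 => y.2.2.2) he
      simp only [theta, map_mul, Complex.conj_conj, Complex.conj_ofReal] at e2 e4
      have key : (D (pr z))⁻¹ • pr z = (D (pr z'))⁻¹ • pr z' := by
        apply Prod.ext
        · rw [Prod.smul_fst, Prod.smul_fst, Complex.real_smul, Complex.real_smul]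
          push_cast at e2 ⊢
          field_simp at e2 ⊢
          linear_combination e2
        · rw [Prod.smul_snd, Prod.smul_snd, Complex.real_smul, Complex.real_smul]
          push_cast at e4 ⊢
          field_simp at e4 ⊢
          linear_combination e4
      have hz4 : ‖(pr z).1‖ ^ 2 + ‖(pr z).2‖ ^ 2 ≤ 4 := by
        have := hG.eps
        nlinarith [this.1, this.2]
      have hpr := hG.inj (pr z) (pr z') hz4 hbig key
      refine ⟨z' 0 / z 0, ?_⟩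
      calc z' = z' 0 • lift (pr z') := (lift_pr h0').symm
        _ = z' 0 • lift (pr z) := by rw [hpr]
        _ = (z' 0 / z 0) • (z 0 • lift (pr z)) := by
            rw [smul_smul, div_mul_cancel₀ _ h0]
        _ = (z' 0 / z 0) • z := by rw [lift_pr h0]
    · exfalso
      have hbig' := lt_of_not_ge hbig
      have hout := hG.out (pr z') (by
        have := hG.eps
        nlinarith [this.1, this.2])
      rw [h, hg', hout.1, hout.2.1, hout.2.2, e3S_theta] at hS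
      have hw : ‖2 * (pr z').1 * conj (pr z').2‖ ^ 2 =
          4 * (‖(pr z').1‖ ^ 2 * ‖(pr z').2‖ ^ 2) := by
        rw [norm_mul, norm_mul, Complex.norm_conj]
        simp only [Complex.norm_ofNat]
        ring
      rw [hw] at hS
      have ha : 0 ≤ ‖(pr z').1‖ ^ 2 := sq_nonneg _
      have hb : 0 ≤ ‖(pr z').2‖ ^ 2 := sq_nonneg _
      generalize ‖(pr z').1‖ ^ 2 = a at *
      generalize ‖(pr z').2‖ ^ 2 = b at *
      rw [div_le_iff₀ (by positivity)] at hS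
      nlinarith

theorem gfun_inj (hG : Good ε q w D α β r1 r2 r3 D0) {z z' : C3} (hz : z ≠ 0) (hz' : z' ≠ 0)
    (h : gfun q w D z = gfun q w D z') : ∃ μ : ℂ, z' = μ • z := by
  by_cases h1 : z 0 = 0 ∨ ε ^ 2 ≤ ‖(pr z).1‖ ^ 2 + ‖(pr z).2‖ ^ 2
  · by_cases h2 : z' 0 = 0 ∨ ε ^ 2 ≤ ‖(pr z').1‖ ^ 2 + ‖(pr z').2‖ ^ 2
    · rw [gfun_eq_ver hG h1, gfun_eq_ver hG h2] at h
      exact ver_inj z z' hz hz' h
    · rw [not_or, not_le] at h2
      obtain ⟨μ, hμ⟩ := e3_main hG hz h2.1 h2.2.le h.symm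
      have hμ0 : μ ≠ 0 := by
        rintro rfl
        rw [zero_smul] at hμ
        exact hz hμ
      refine ⟨μ⁻¹, ?_⟩
      rw [hμ, smul_smul, inv_mul_cancel₀ hμ0, one_smul]
  · rw [not_or, not_le] at h1
    exact e3_main hG hz' h1.1 h1.2.le h

end

end Pool.Agent.H63.TV
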