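import Pool.Agent.H63.TV.Ver
import Pool.Agent.H63.TV.SadB
import Pool.Agent.H63.TV.NeckA
import Pool.Agent.H63.TV.EmbA2

/-!
# TV-32 .. TV-37: the flattened embedding of `CP^2`

`theta q D w ζ` is the point of `E^7` with homogeneous coordinates `(D : ζ : q : w)`; `gfun` is the flattened embedding.
`ver_lift`: computation.  `ht_theta`: computation (`Re (conj ξ₁ conj ζ₁) = Re (ξ₁ ζ₁)`).
`gfun_eq_ver` (TV-32): `ver z = ver (lift (pr z))` for `z 0 ≠ 0` (`ver_hom`, `lift_pr`), `ver_lift`, `Good.out`.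
`gfun_smooth` (TV-33): if `z 0 ≠ 0`: `gfun = theta (..) ∘ pr` near `z`, smooth since `D ≥ 4`.  If `z 0 = 0`, `z ≠ 0`: near `z` either `y 0 = 0` or
`|pr y|² = (|y 1|² + |y 2|²)/|y 0|² ≥ ε²`, so `gfun = ver` near `z`.
`gfun_inj` (TV-34): let `gfun z = gfun z'`.  If both are in the region where `gfun = ver`: `ver_inj`.  Let `ζ = pr z`, `z 0 ≠ 0`,
`|ζ|² < ε²`.  The components 2 and 4 of `gfun z` are `2√2 conj ζ₁ / D`, `2√2 ζ₂ / D`; the components 1 and 3 have modulus
`≤ √2/16` (`Good.small`, `D ≥ 4`).  If `z' 0 = 0`: `|comp 1|² + |comp 3|² = 2` (as `(|a|²-|b|²)² + 4|a|²|b|² = (|a|²+|b|²)²`), a contradiction.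
If `z' 0 ≠ 0`, `ζ' = pr z'`: if `|ζ'|² > 4` then `|comp 1|² + |comp 3|² = 2 |ζ'|⁴/(4 + |ζ'|²)² > 1/2`, a contradiction.  Otherwise
`Good.inj` gives `ζ = ζ'`, so `z'` is a multiple of `z` (`lift_pr`).
`gfun_imm` (TV-35): `z 0 = 0` or `|pr z|² ≥ ε²`: if `z 0 = 0` or `|pr z|² > ε²`, `gfun = ver` near `z`, `ver_imm`.  Otherwise `|ζ|² ≤ ε² ≤ 1`,
`ζ = pr z`: components 2 and 4 of `gfun` near `z` are (up to conjugation and `2√2`) `(pr y) / D (pr y)`; if the derivative in the direction `w` vanishes, with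
`η = D pr (z) w`: `η / D = (fderiv D ζ η / D²) ζ`, so `η = τ ζ` with `τ = fderiv D ζ η / D = τ fderiv D ζ ζ / D`, and `Good.imm` gives `τ = 0`, `η = 0`,
`w = μ • z` (`fderiv_pr`).
`psi` (TV-36): `a / τ`, `b / τ` and `1 / τ` determine `(a, τ, b)` (`α r ≠ 0`).
`ht_psi` (TV-37): computation.
-/

open scoped ContDiff ComplexConjugate

namespace Pool.Agent.H63.TV

noncomputable section

variable {ε : ℝ} {q : ℂ × ℂ → ℝ} {w : ℂ × ℂ → ℂ} {D : ℂ × ℂ → ℝ} {α β r1 r2 r3 D0 : ℝ}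

/-- the components 2 and 4, as a linear map -/
def e4P : E7 →L[ℝ] ℂ × ℂ :=
  ((Complex.conjCLE.toContinuousLinearMap).comp
    ((ContinuousLinearMap.fst ℝ ℂ (ℂ × ℂ)).comp
      (ContinuousLinearMap.snd ℝ ℝ (ℂ × ℂ × ℂ)))).prod
  ((ContinuousLinearMap.snd ℝ ℂ ℂ).comp
    ((ContinuousLinearMap.snd ℝ ℂ (ℂ × ℂ)).comp
      (ContinuousLinearMap.snd ℝ ℝ (ℂ × ℂ × ℂ))))

theorem e4P_theta (q D : ℝ) (w : ℂ) (ζ : ℂ × ℂ) :
    e4P (theta q D w ζ) = (2 * Real.sqrt 2) • (D⁻¹ • ζ) := by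
  have h1 : e4P (theta q D w ζ) = (conj (theta q D w ζ).2.1, (theta q D w ζ).2.2.2) := rfl
  rw [h1]
  apply Prod.ext
  · simp only [theta, map_mul, Complex.conj_conj, Complex.conj_ofReal, Prod.smul_fst,
      Complex.real_smul]
    push_cast
    ring
  · simp only [theta, Prod.smul_snd, Complex.real_smul]
    push_cast
    ring

theorem gfun_imm (hG : Good ε q w D α β r1 r2 r3 D0) {z : C3} (hz : z ≠ 0) (v : C3)
    (h : fderiv ℝ (gfun q w D) z v = 0) : ∃ μ : ℂ, v = μ • z := by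
  have heps := hG.eps
  by_cases hC : ε ^ 2 * ‖z 0‖ ^ 2 < ‖z 1‖ ^ 2 + ‖z 2‖ ^ 2
  · have hev : gfun q w D =ᶠ[nhds z] ver := by
      have hop : IsOpen {y : C3 | ε ^ 2 * ‖y 0‖ ^ 2 < ‖y 1‖ ^ 2 + ‖y 2‖ ^ 2} :=
        isOpen_lt (by fun_prop) (by fun_prop)
      filter_upwards [hop.mem_nhds hC] with y hy
      refine gfun_eq_ver hG ?_
      by_cases hy0 : y 0 = 0
      · exact Or.inl hy0
      · right
        have hp : 0 < ‖y 0‖ ^ 2 := by
          have := norm_pos_iff.mpr hy0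
          positivity
        have e : ‖(pr y).1‖ ^ 2 + ‖(pr y).2‖ ^ 2 = (‖y 1‖ ^ 2 + ‖y 2‖ ^ 2) / ‖y 0‖ ^ 2 := by
          simp only [pr, norm_div, div_pow]
          ring
        rw [e, le_div_iff₀ hp]
        exact le_of_lt hy
    rw [hev.fderiv_eq] at h
    exact ver_imm z hz v h
  · have hC' := le_of_not_gt hC
    have h0 : z 0 ≠ 0 := by
      intro h0
      rw [h0, norm_zero] at hC'
      have h1 : ‖z 1‖ ^ 2 = 0 := by nlinarith [sq_nonneg ‖z 1‖, sq_nonneg ‖z 2‖]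
      have h2 : ‖z 2‖ ^ 2 = 0 := by nlinarith [sq_nonneg ‖z 1‖, sq_nonneg ‖z 2‖]
      have h3 : z 1 = 0 := by simpa using h1
      have h4 : z 2 = 0 := by simpa using h2
      apply hz
      funext i
      fin_cases i
      · exact h0
      · exact h3
      · exact h4
    have hp : 0 < ‖z 0‖ ^ 2 := by
      have := norm_pos_iff.mpr h0
      positivity
    have hsm : ‖(pr z).1‖ ^ 2 + ‖(pr z).2‖ ^ 2 ≤ 1 := by
      have e : ‖(pr z).1‖ ^ 2 + ‖(pr z).2‖ ^ 2 = (‖z 1‖ ^ 2 + ‖z 2‖ ^ 2) / ‖z 0‖ ^ 2 := by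
        simp only [pr, norm_div, div_pow]
        ring
      rw [e, div_le_iff₀ hp, one_mul]
      refine hC'.trans ?_
      have : ε ^ 2 ≤ 1 := by nlinarith [heps.1, heps.2]
      nlinarith
    have hD4 := hG.Dge (pr z)
    have hD0 : D (pr z) ≠ 0 := by linarith
    -- the derivative of the components
    have hgd : DifferentiableAt ℝ (gfun q w D) z :=
      (gfun_smooth hG hz).differentiableAt (by simp)
    have hprd : DifferentiableAt ℝ pr z := (contDiffAt_pr h0).differentiableAt (by simp)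
    have hDd : DifferentiableAt ℝ D (pr z) := hG.sD.contDiffAt.differentiableAt (by simp)
    have hA : HasFDerivAt (fun ζ : ℂ × ℂ => (D ζ)⁻¹ • ζ)
        ((D (pr z))⁻¹ • (ContinuousLinearMap.id ℝ (ℂ × ℂ)) +
          ((-((D (pr z)) ^ 2)⁻¹) • fderiv ℝ D (pr z)).smulRight (pr z)) (pr z) := by
      have h1 : HasFDerivAt (fun ζ : ℂ × ℂ => (D ζ)⁻¹)
          ((-((D (pr z)) ^ 2)⁻¹) • fderiv ℝ D (pr z)) (pr z) :=
        (hasDerivAt_inv hD0).comp_hasFDerivAt (pr z) hDd.hasFDerivAt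
      exact h1.smul (hasFDerivAt_id (pr z))
    have hcomp : HasFDerivAt (fun y : C3 => (2 * Real.sqrt 2) • ((D (pr y))⁻¹ • pr y))
        ((2 * Real.sqrt 2) • (((D (pr z))⁻¹ • (ContinuousLinearMap.id ℝ (ℂ × ℂ)) +
          ((-((D (pr z)) ^ 2)⁻¹) • fderiv ℝ D (pr z)).smulRight (pr z)).comp
            (fderiv ℝ pr z))) z :=
      (hA.comp z hprd.hasFDerivAt).const_smul (2 * Real.sqrt 2)
    have hcomp2 : HasFDerivAt (fun y : C3 => e4P (gfun q w D y))
        (e4P.comp (fderiv ℝ (gfun q w D) z)) z :=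
      e4P.hasFDerivAt.comp z hgd.hasFDerivAt
    have hev : (fun y : C3 => e4P (gfun q w D y)) =ᶠ[nhds z]
        (fun y : C3 => (2 * Real.sqrt 2) • ((D (pr y))⁻¹ • pr y)) := by
      have hop : IsOpen {y : C3 | y 0 ≠ 0} := isOpen_ne_fun (by fun_prop) continuous_const
      filter_upwards [hop.mem_nhds h0] with y hy
      have : gfun q w D y = theta (q (pr y)) (D (pr y)) (w (pr y)) (pr y) := by
        unfold gfun
        rw [if_neg hy]
      rw [this, e4P_theta]
    have hun := (hcomp2.congr_of_eventuallyEq hev.symm).unique hcomp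
    have hv := congrArg (fun L => L v) hun
    simp only [ContinuousLinearMap.comp_apply, h, map_zero, ContinuousLinearMap.smul_apply,
      ContinuousLinearMap.add_apply, ContinuousLinearMap.smulRight_apply,
      ContinuousLinearMap.id_apply] at hv
    have hs2 : (2 * Real.sqrt 2) ≠ 0 := by positivity
    have hv2 := (smul_eq_zero.mp hv.symm).resolve_left hs2
    set η := fderiv ℝ pr z v with hη
    set τ : ℝ := fderiv ℝ D (pr z) η / D (pr z) with hτ
    have hητ : η = τ • pr z := by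
      have h1 : (D (pr z)) • ((D (pr z))⁻¹ • η +
          ((-((D (pr z)) ^ 2)⁻¹) • fderiv ℝ D (pr z) η) • pr z) = 0 := by
        rw [hv2, smul_zero]
      rw [smul_add, smul_smul, mul_inv_cancel₀ hD0, one_smul, smul_smul] at h1
      have h2 : D (pr z) * ((-((D (pr z)) ^ 2)⁻¹) • fderiv ℝ D (pr z) η) = -τ := by
        rw [hτ, smul_eq_mul]
        field_simp
      rw [h2, neg_smul, ← sub_eq_add_neg, sub_eq_zero] at h1
      exact h1
    have hτ0 : τ = 0 := by
      have h1 : fderiv ℝ D (pr z) η = τ * fderiv ℝ D (pr z) (pr z) := by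
        conv_lhs => rw [hητ]
        rw [map_smul, smul_eq_mul]
      have h2 : τ * D (pr z) = fderiv ℝ D (pr z) η := by
        rw [hτ]
        field_simp
      have h3 := hG.imm (pr z) hsm
      have h4 : τ * (D (pr z) - fderiv ℝ D (pr z) (pr z)) = 0 := by
        rw [mul_sub, h2, h1, sub_self]
      rcases mul_eq_zero.mp h4 with h5 | h5
      · exact h5
      · exfalso
        linarith
    rw [hτ0, zero_smul, hη, fderiv_pr h0] at hητ
    have h1 := congrArg Prod.fst hητ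
    have h2 := congrArg Prod.snd hητ
    simp only [Prod.fst_zero, Prod.snd_zero, div_eq_zero_iff, h0, or_false, sub_eq_zero] at h1 h2
    refine ⟨v 0 / z 0, ?_⟩
    funext i
    fin_cases i
    · simp [div_mul_cancel₀ _ h0]
    · simpa using h1
    · simpa using h2

end

end Pool.Agent.H63.TV
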