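import Pool.Agent.H63.TV.Ver
import Pool.Agent.H63.TV.SadB
import Pool.Agent.H63.TV.NeckA
import Pool.Agent.H63.TV.EmbA1

/-!
# TV-32 .. TV-37: the flattened embedding of `CP^2`

`theta q D w ζ` is the point of `E^7` with homogeneous coordinates `(D : ζ : q : w)`; `gfun` is the flattened embedding.
`ver_lift`: computation.  `ht_theta`: computation (`Re (conj ξ₁ conj ζ₁) = Re (ξ₁ ζ₁)`).
`gfun_eq_ver` (TV-32): `ver z = ver (lift (pr z))` for `z 0 ≠ 0` (`ver_hom`, `lift_pr`), `ver_lift`, `Good.out`.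
`gfun_smooth` (TV-33): if `z 0 ≠ 0`: `gfun = theta (..) ∘ pr` near `z`, smooth since `D ≥ 4`.  If `z 0 = 0`, `z ≠ 0`: near `z` either `y 0 = 0` or
`|pr y|² = (|y 1|² + |y 2|²)/|y 0|² ≥ ε²`, so `gfun = ver` near `z`.
`gfun_inj` (TV-34): let `gfun z = gfun z'`.  If both are in the region where `gfun = ver`: `ver_inj`.  Let `ζ = pr z`, `z 0 ≠ 0`,
`|ζ|² < ε²`.  The components 2 and 4 of `gfun z` are `2√2 conj ζ₁ / D`, `2√2 ζ₂ / D`; the components 1 and 3 have modulus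
`≤ √2/16` (`Good.small`, `D ≥ 4`).  If `z' 0 = 0`: `|comp 1|² + |comp 3|² = 2` (as `(|a|²-|b|²)² + 4|a|²|b|² = (|a|²+|b|²)²`), a contradiction.
If `z' 0 ≠ 0`, `ζ' = pr z'`: if `|ζ'|² > 4` then `|comp 1|² + |comp 3|² = 2 |ζ'|⁴/(4 + |ζ'|²)² > 1/2`, a contradiction.  Otherwise
`Good.inj` gives `ζ = ζ'`, so `z'` is a multiple of `z` (`lift_pr`).
`gfun_imm` (TV-35): `z 0 = 0` or `|pr z|² ≥ ε²`: if `z 0 = 0` or `|pr z|² > ε²`, `gfun = ver` near `z`, `ver_imm`.  Otherwise `|ζ|² ≤ ε² ≤ 1`,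
`ζ = pr z`: components 2 and 4 of `gfun` near `z` are (up to conjugation and `2√2`) `(pr y) / D (pr y)`; if the derivative in the direction `w` vanishes, with
`η = D pr (z) w`: `η / D = (fderiv D ζ η / D²) ζ`, so `η = τ ζ` with `τ = fderiv D ζ η / D = τ fderiv D ζ ζ / D`, and `Good.imm` gives `τ = 0`, `η = 0`,
`w = μ • z` (`fderiv_pr`).
`psi` (TV-36): `a / τ`, `b / τ` and `1 / τ` determine `(a, τ, b)` (`α r ≠ 0`).
`ht_psi` (TV-37): computation.
-/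

open scoped ContDiff ComplexConjugate

namespace Pool.Agent.H63.TV

noncomputable section

variable {ε : ℝ} {q : ℂ × ℂ → ℝ} {w : ℂ × ℂ → ℂ} {D : ℂ × ℂ → ℝ} {α β r1 r2 r3 D0 : ℝ}

theorem psi_smooth (hD0 : 0 < D0) (α β r : ℝ) :
    ContDiffOn ℝ ∞ (psi α β r D0) {y | y.2.1 ≠ 0} := by
  intro y hy
  have hy' : y.2.1 ≠ 0 := hy
  have hyc : (y.2.1 : ℂ) ≠ 0 := Complex.ofReal_ne_zero.2 hy'
  apply ContDiffAt.contDiffWithinAt
  have hτ : ContDiffAt ℝ ∞ (fun y : ℂ × R3 => y.2.1) y :=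
    (contDiff_fst.comp contDiff_snd).contDiffAt
  have hτc : ContDiffAt ℝ ∞ (fun y : ℂ × R3 => (y.2.1 : ℂ)) y :=
    (Complex.ofRealCLM.contDiff.comp (contDiff_fst.comp contDiff_snd)).contDiffAt
  have ha : ContDiffAt ℝ ∞ (fun y : ℂ × R3 => y.1 / (y.2.1 : ℂ)) y := by
    simp only [div_eq_mul_inv]
    exact contDiffAt_fst.mul (hτc.inv hyc)
  have hb : ContDiffAt ℝ ∞ (fun y : ℂ × R3 => y.2.2 / (y.2.1 : ℂ)) y := by
    simp only [div_eq_mul_inv]
    exact (contDiff_snd.comp contDiff_snd).contDiffAt.mul (hτc.inv hyc)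
  have hca : ContDiffAt ℝ ∞ (fun y : ℂ × R3 => conj (y.1 / (y.2.1 : ℂ))) y :=
    (Complex.conjCLE.contDiff.contDiffAt).comp y ha
  have h1 : ContDiffAt ℝ ∞
      (fun y : ℂ × R3 => Real.sqrt 2 * (α * r / y.2.1 + β) / D0) y :=
    (contDiffAt_const.mul ((contDiffAt_const.div hτ hy').add contDiffAt_const)).div_const D0
  have h2 : ContDiffAt ℝ ∞
      (fun y : ℂ × R3 => ((2 * Real.sqrt 2 / D0 : ℝ) : ℂ) * conj (y.1 / (y.2.1 : ℂ))) y :=
    contDiffAt_const.mul hca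
  have h3 : ContDiffAt ℝ ∞
      (fun _ : ℂ × R3 => ((Real.sqrt 2 / D0 : ℝ) : ℂ) * (0 : ℂ)) y :=
    contDiffAt_const
  have h4 : ContDiffAt ℝ ∞
      (fun y : ℂ × R3 => ((2 * Real.sqrt 2 / D0 : ℝ) : ℂ) * (y.2.2 / (y.2.1 : ℂ))) y :=
    contDiffAt_const.mul hb
  exact h1.prodMk (h2.prodMk (h3.prodMk h4))

/-- a left inverse of `psi` -/
def psiInv (α β r D0 : ℝ) (X : E7) : ℂ × R3 :=
  (((α * r / (X.1 * D0 / Real.sqrt 2 - β) * (D0 / (2 * Real.sqrt 2)) : ℝ) : ℂ) * conj X.2.1,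
    (α * r / (X.1 * D0 / Real.sqrt 2 - β),
      ((α * r / (X.1 * D0 / Real.sqrt 2 - β) * (D0 / (2 * Real.sqrt 2)) : ℝ) : ℂ) * X.2.2.2))

theorem psi_den (hD0 : 0 < D0) (α β r : ℝ) (y : ℂ × R3) :
    (psi α β r D0 y).1 * D0 / Real.sqrt 2 - β = α * r / y.2.1 := by
  have h2 : Real.sqrt 2 ≠ 0 := by positivity
  have hD : D0 ≠ 0 := hD0.ne'
  simp only [psi, theta]
  field_simp
  ring

theorem psiInv_psi (hD0 : 0 < D0) {α r : ℝ} (hα : 0 < α) (hr : 0 < r) (β : ℝ) {y : ℂ × R3}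
    (hy : y.2.1 ≠ 0) : psiInv α β r D0 (psi α β r D0 y) = y := by
  have h2 : Real.sqrt 2 ≠ 0 := by positivity
  have hD : D0 ≠ 0 := hD0.ne'
  have hα' : α ≠ 0 := hα.ne'
  have hr' : r ≠ 0 := hr.ne'
  have hyc : (y.2.1 : ℂ) ≠ 0 := Complex.ofReal_ne_zero.2 hy
  have h2c : ((Real.sqrt 2 : ℝ) : ℂ) ≠ 0 := Complex.ofReal_ne_zero.2 h2
  have hDc : (D0 : ℂ) ≠ 0 := Complex.ofReal_ne_zero.2 hD
  have e : α * r / (α * r / y.2.1) = y.2.1 := by field_simp
  unfold psiInv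
  rw [psi_den hD0, e]
  refine Prod.ext ?_ (Prod.ext rfl ?_)
  · simp only [psi, theta, map_mul, map_div₀, Complex.conj_ofReal, Complex.conj_conj]
    push_cast
    field_simp
  · simp only [psi, theta]
    push_cast
    field_simp

theorem psi_inj (hD0 : 0 < D0) {α r : ℝ} (hα : 0 < α) (hr : 0 < r) (β : ℝ) {y y' : ℂ × R3}
    (hy : 0 < y.2.1) (hy' : 0 < y'.2.1) (h : psi α β r D0 y = psi α β r D0 y') : y = y' := by
  rw [← psiInv_psi hD0 hα hr β hy.ne', h, psiInv_psi hD0 hα hr β hy'.ne']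

theorem psiInv_diff {α β r D0 : ℝ} {X : E7} (hX : X.1 * D0 / Real.sqrt 2 - β ≠ 0) :
    DifferentiableAt ℝ (psiInv α β r D0) X := by
  have h0 : DifferentiableAt ℝ (fun X : E7 => X.1 * D0 / Real.sqrt 2 - β) X := by
    fun_prop
  have h1 : DifferentiableAt ℝ (fun X : E7 => α * r / (X.1 * D0 / Real.sqrt 2 - β)) X := by
    fun_prop (disch := exact hX)
  have h2 : DifferentiableAt ℝ (fun X : E7 =>
      ((α * r / (X.1 * D0 / Real.sqrt 2 - β) * (D0 / (2 * Real.sqrt 2)) : ℝ) : ℂ)) X :=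
    (Complex.ofRealCLM.differentiableAt).comp X (h1.mul_const _)
  have h3 : DifferentiableAt ℝ (fun X : E7 => conj X.2.1) X :=
    (Complex.conjCLE.differentiableAt).comp X (differentiableAt_fst.comp X differentiableAt_snd)
  have h4 : DifferentiableAt ℝ (fun X : E7 => X.2.2.2) X :=
    (differentiable_snd.comp (differentiable_snd.comp differentiable_snd)).differentiableAt
  exact (h2.mul h3).prodMk (h1.prodMk (h2.mul h4))

theorem psi_imm (hD0 : 0 < D0) {α r : ℝ} (hα : 0 < α) (hr : 0 < r) (β : ℝ) {y : ℂ × R3}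
    (hy : 0 < y.2.1) (v : ℂ × R3) (h : fderiv ℝ (psi α β r D0) y v = 0) : v = 0 := by
  have hop : IsOpen {y : ℂ × R3 | y.2.1 ≠ 0} :=
    isOpen_ne_fun (by fun_prop) continuous_const
  have hmem : {y : ℂ × R3 | y.2.1 ≠ 0} ∈ nhds y := hop.mem_nhds hy.ne'
  have hd : DifferentiableAt ℝ (psi α β r D0) y :=
    ((psi_smooth hD0 α β r).contDiffAt hmem).differentiableAt (by simp)
  have hX : (psi α β r D0 y).1 * D0 / Real.sqrt 2 - β ≠ 0 := by
    rw [psi_den hD0]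
    positivity
  have hd' : DifferentiableAt ℝ (psiInv α β r D0) (psi α β r D0 y) := psiInv_diff hX
  have hc := fderiv_comp y hd' hd
  have he : (psiInv α β r D0 ∘ psi α β r D0) =ᶠ[nhds y] id := by
    filter_upwards [hmem] with z hz
    exact psiInv_psi hD0 hα hr β hz
  rw [he.fderiv_eq, fderiv_id] at hc
  have := congrArg (fun f => f v) hc
  simp only [ContinuousLinearMap.comp_apply, h, map_zero] at this
  exact this

end

end Pool.Agent.H63.TV
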