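import Pool.Agent.H63.TV.Ver
import Pool.Agent.H63.TV.SadB
import Pool.Agent.H63.TV.NeckA
import Pool.Agent.H63.TV.EmbA2
import Pool.Agent.H63.TV.EmbA3
import Pool.Agent.H63.TV.EmbA4
import Pool.Agent.H63.TV.EmbA5

/-!
# TV-32 .. TV-37: the flattened embedding of `CP^2`

`theta q D w ζ` is the point of `E^7` with homogeneous coordinates `(D : ζ : q : w)`; `gfun` is the flattened embedding.
`ver_lift`: computation.  `ht_theta`: computation (`Re (conj ξ₁ conj ζ₁) = Re (ξ₁ ζ₁)`).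
`gfun_eq_ver` (TV-32): `ver z = ver (lift (pr z))` for `z 0 ≠ 0` (`ver_hom`, `lift_pr`), `ver_lift`, `Good.out`.
`gfun_smooth` (TV-33): if `z 0 ≠ 0`: `gfun = theta (..) ∘ pr` near `z`, smooth since `D ≥ 4`.  If `z 0 = 0`, `z ≠ 0`: near `z` either `y 0 = 0` or
`|pr y|² = (|y 1|² + |y 2|²)/|y 0|² ≥ ε²`, so `gfun = ver` near `z`.
`gfun_inj` (TV-34): let `gfun z = gfun z'`.  If both are in the region where `gfun = ver`: `ver_inj`.  Let `ζ = pr z`, `z 0 ≠ 0`,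
`|ζ|² < ε²`.  The components 2 and 4 of `gfun z` are `2√2 conj ζ₁ / D`, `2√2 ζ₂ / D`; the components 1 and 3 have modulus
`≤ √2/16` (`Good.small`, `D ≥ 4`).  If `z' 0 = 0`: `|comp 1|² + |comp 3|² = 2` (as `(|a|²-|b|²)² + 4|a|²|b|² = (|a|²+|b|²)²`), a contradiction.
If `z' 0 ≠ 0`, `ζ' = pr z'`: if `|ζ'|² > 4` then `|comp 1|² + |comp 3|² = 2 |ζ'|⁴/(4 + |ζ'|²)² > 1/2`, a contradiction.  Otherwise
`Good.inj` gives `ζ = ζ'`, so `z'` is a multiple of `z` (`lift_pr`).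
`gfun_imm` (TV-35): `z 0 = 0` or `|pr z|² ≥ ε²`: if `z 0 = 0` or `|pr z|² > ε²`, `gfun = ver` near `z`, `ver_imm`.  Otherwise `|ζ|² ≤ ε² ≤ 1`,
`ζ = pr z`: components 2 and 4 of `gfun` near `z` are (up to conjugation and `2√2`) `(pr y) / D (pr y)`; if the derivative in the direction `w` vanishes, with
`η = D pr (z) w`: `η / D = (fderiv D ζ η / D²) ζ`, so `η = τ ζ` with `τ = fderiv D ζ η / D = τ fderiv D ζ ζ / D`, and `Good.imm` gives `τ = 0`, `η = 0`,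
`w = μ • z` (`fderiv_pr`).
`psi` (TV-36): `a / τ`, `b / τ` and `1 / τ` determine `(a, τ, b)` (`α r ≠ 0`).
`ht_psi` (TV-37): computation.
-/

open scoped ContDiff ComplexConjugate

namespace Pool.Agent.H63.TV

noncomputable section

variable {ε : ℝ} {q : ℂ × ℂ → ℝ} {w : ℂ × ℂ → ℂ} {D : ℂ × ℂ → ℝ} {α β r1 r2 r3 D0 : ℝ}

theorem ht_psi (hD0 : 0 < D0) (α β r : ℝ) (ξ : E7) {y : ℂ × R3} (hy : 0 < y.2.1) :
    ht ξ (psi α β r D0 y) =
      (((((2 * Real.sqrt 2 : ℝ) : ℂ) * ξ.2.1) * y.1).re +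
        ((((2 * Real.sqrt 2 : ℝ) : ℂ) * conj ξ.2.2.2) * y.2.2).re + Real.sqrt 2 * ξ.1 * α * r) /
        y.2.1 / D0 + Real.sqrt 2 * ξ.1 * β / D0 := by
  obtain ⟨x0, x1, x2, x3⟩ := ξ
  obtain ⟨a, τ, b⟩ := y
  simp only at hy
  have h1 : τ ≠ 0 := hy.ne'
  have h2 : D0 ≠ 0 := hD0.ne'
  simp only [ht, psi, theta, mul_zero, Complex.zero_re, add_zero]
  have e1 : (conj x1 * (((2 * Real.sqrt 2 / D0 : ℝ) : ℂ) * conj (a / (τ : ℂ)))).re =
      ((((2 * Real.sqrt 2 : ℝ) : ℂ) * x1) * a).re / τ / D0 := by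
    have : (conj x1 * (((2 * Real.sqrt 2 / D0 : ℝ) : ℂ) * conj (a / (τ : ℂ)))) =
        ((1 / D0 * (1 / τ) : ℝ) : ℂ) * (conj ((((2 * Real.sqrt 2 : ℝ) : ℂ) * x1) * a)) := by
      simp only [map_mul, map_div₀, Complex.conj_ofReal]
      push_cast
      ring
    rw [this, Complex.re_ofReal_mul, Complex.conj_re]
    ring
  have e2 : (conj x3 * (((2 * Real.sqrt 2 / D0 : ℝ) : ℂ) * (b / (τ : ℂ)))).re =
      ((((2 * Real.sqrt 2 : ℝ) : ℂ) * conj x3) * b).re / τ / D0 := by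
    have : (conj x3 * (((2 * Real.sqrt 2 / D0 : ℝ) : ℂ) * (b / (τ : ℂ)))) =
        ((1 / D0 * (1 / τ) : ℝ) : ℂ) * ((((2 * Real.sqrt 2 : ℝ) : ℂ) * conj x3) * b) := by
      push_cast
      ring
    rw [this, Complex.re_ofReal_mul]
    ring
  rw [e1, e2]
  field_simp
  ring

end

end Pool.Agent.H63.TV
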