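import Pool.Agent.H63.TV.Lin
import Pool.Agent.H63.TV.Calc

/-!
# TV-05 (He1), TV-06 (He2), TV-07 (He3, ver_crit): the height functions of the projected Veronese embedding

`ht ξ (ver z) = N z / d z`, `d z = 4 |z 0|² + |z 1|² + |z 2|²`, `N z = √2 ξ₀ (|z 1|² - |z 2|²) +
2√2 Re (conj ξ₁ z 0 conj (z 1) + conj ξ₂ z 1 conj (z 2) + conj ξ₃ z 2 conj (z 0))` (`ξ = (ξ₀, ξ₁, ξ₂, ξ₃)`).
He1 `ver_diag`.  With `y = (2 z 0, z 1, z 2)` one has `d = |y|²` and `N = y* A y` for a Hermitian matrix `A`;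
`A` has an orthonormal basis of eigenvectors `b j` with real eigenvalues (`Matrix.IsHermitian.eigenvalues`,
`eigenvectorBasis`), which can be numbered such that `lam` is monotone (`Tuple.sort`, or use that
`Matrix.IsHermitian.eigenvalues₀` is antitone).  `v j = (b j 0 / 2, b j 1, b j 2)`.
Then `d (∑ y j v j) = ∑ |y j|²`, `N (∑ y j v j) = ∑ lam j |y j|²`.
`ver_lam` : if `lam 0 = lam 1 = lam 2 = c` then `N = c d`; comparing coefficients `ξ = 0`.  (Not needed below.)

He2 `diag_crit`.  `Fd y = (∑ lam j |y j|²) / ∑ |y j|²`.  At a point `y ≠ 0` with value `c = Fd y`,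
`D Fd (y) w = 2 ∑ (lam j - c) Re (conj (y j) w j) / |y|²`.  So critical iff `(lam j - c) y j = 0` for all `j`, that is
(`lam` strictly monotone) iff exactly one `y j` is nonzero.  At such a point (`y = μ e_j`, `c = lam j`)
`hess (v, w) = 2 ∑_i (lam i - lam j) Re (conj (v i) w i) / |μ|²`.  (General fact: if `F = c + G / d` with
`G p = 0`, `DG p = 0` then `hess F p = hess G p / d p`; or use `crit_comp` arguments.)  So the radical is `ℂ e_j = ℂ y`,
and the index is `2 #{i | i < j} = 2 j`: `B` is negative definite on the span of the `e_i`, `i < j`, and positive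
semidefinite on the span of the `e_i`, `i ≥ j`, of real dimension `6 - 2j`.

He3 `ver_crit`.  `T y = ∑ y j v j` is an invertible linear map of `C3`; `ht ξ (ver (T y)) = Fd y` for `y ≠ 0`.
If `lam` is strictly monotone: transport He2 by `T` (`crit_comp`, `HasIdx.comap`).
If `lam i = lam j`, `i ≠ j`: for every nonzero `z` in the complex span `S` of `v i, v j` and `T y = z`, `y` is a critical point of
`Fd` and `hess (v, ·) = 0` for all `v ∈ T⁻¹ S` (same formulas); choose `z ∈ S`, `z ≠ 0`, with `z 0 = 0` and `v ∈ S`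
not proportional to `z`.
-/

open scoped ContDiff ComplexConjugate

namespace Pool.Agent.H63.TV

noncomputable section

/-- the Hermitian matrix of the height function -/
def hmat (ξ : E7) : Matrix (Fin 3) (Fin 3) ℂ :=
  !![0, ((Real.sqrt 2 / 2 : ℝ) : ℂ) * ξ.2.1, ((Real.sqrt 2 / 2 : ℝ) : ℂ) * conj ξ.2.2.2;
    ((Real.sqrt 2 / 2 : ℝ) : ℂ) * conj ξ.2.1, ((Real.sqrt 2 * ξ.1 : ℝ) : ℂ),
      ((Real.sqrt 2 : ℝ) : ℂ) * ξ.2.2.1;
    ((Real.sqrt 2 / 2 : ℝ) : ℂ) * ξ.2.2.2, ((Real.sqrt 2 : ℝ) : ℂ) * conj ξ.2.2.1,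
      ((-(Real.sqrt 2 * ξ.1) : ℝ) : ℂ)]

theorem hmat_herm (ξ : E7) : (hmat ξ).IsHermitian := by
  ext i j
  fin_cases i <;> fin_cases j <;> simp [hmat, Matrix.conjTranspose_apply]

theorem ver_quad (ξ : E7) (x : Fin 3 → ℂ) : ht ξ (ver ![x 0 / 2, x 1, x 2]) =
    (∑ i, conj (x i) * ∑ j, hmat ξ i j * x j).re / ∑ i, ‖x i‖ ^ 2 := by
  obtain ⟨ξ0, ξ1, ξ2, ξ3⟩ := ξ
  have hD : 4 * ‖x 0 / 2‖ ^ 2 + ‖x 1‖ ^ 2 + ‖x 2‖ ^ 2 = ∑ i, ‖x i‖ ^ 2 := by
    rw [Fin.sum_univ_three, norm_div]
    simp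
    ring
  unfold ht ver
  simp only [Matrix.cons_val_zero, Matrix.cons_val_one, Matrix.cons_val]
  rw [hD]
  have hc : (starRingEnd ℂ) (x 0 / 2) = (starRingEnd ℂ) (x 0) / 2 := by
    rw [map_div₀]
    congr 1
    exact Complex.conj_ofNat 2
  rw [hc]
  generalize (∑ i, ‖x i‖ ^ 2) = D
  simp only [Complex.sq_norm, Complex.normSq_apply, Fin.sum_univ_three, hmat]
  simp [Matrix.cons_val_zero, Matrix.cons_val_one, Matrix.cons_val]
  ring

theorem ver_diag (ξ : E7) : ∃ (v : Fin 3 → C3) (lam : Fin 3 → ℝ), LinearIndependent ℂ v ∧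
    Monotone lam ∧ ∀ y : Fin 3 → ℂ, y ≠ 0 →
      ht ξ (ver (∑ j, y j • v j)) = (∑ j, lam j * ‖y j‖ ^ 2) / ∑ j, ‖y j‖ ^ 2 := by
  have hA := hmat_herm ξ
  set σ := Tuple.sort hA.eigenvalues with hσ
  set b : Fin 3 → EuclideanSpace ℂ (Fin 3) := fun j => hA.eigenvectorBasis (σ j) with hb
  have hon : Orthonormal ℂ b := hA.eigenvectorBasis.orthonormal.comp σ σ.injective
  have heig : ∀ j, (hmat ξ).mulVec (b j) = (hA.eigenvalues (σ j) : ℂ) • (b j : Fin 3 → ℂ) := by
    intro j
    exact hA.mulVec_eigenvectorBasis (σ j)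
  have hsum : ∀ y : Fin 3 → ℂ, (∑ j, y j • ![b j 0 / 2, b j 1, b j 2] : C3) =
      ![(∑ j, y j • b j : EuclideanSpace ℂ (Fin 3)) 0 / 2,
        (∑ j, y j • b j : EuclideanSpace ℂ (Fin 3)) 1,
        (∑ j, y j • b j : EuclideanSpace ℂ (Fin 3)) 2] := by
    intro y
    ext i
    fin_cases i <;> simp [Fin.sum_univ_three] <;> ring
  refine ⟨fun j => ![b j 0 / 2, b j 1, b j 2], hA.eigenvalues ∘ σ, ?_,
    Tuple.monotone_sort hA.eigenvalues, ?_⟩
  · rw [Fintype.linearIndependent_iff]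
    intro y hy
    have hy2 := (hsum y).symm.trans hy
    have h3 : (∑ j, y j • b j : EuclideanSpace ℂ (Fin 3)) = 0 := by
      ext i
      have h4 := congrFun hy2 i
      fin_cases i
      · have h5 : (∑ j, y j • b j : EuclideanSpace ℂ (Fin 3)) 0 / 2 = 0 := h4
        have h6 := (div_eq_zero_iff.1 h5).resolve_right two_ne_zero
        exact h6
      · exact h4
      · exact h4
    exact Fintype.linearIndependent_iff.1 hon.linearIndependent y h3
  · intro y _
    rw [hsum y, ver_quad]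
    have hn : ∑ i, ‖(∑ j, y j • b j : EuclideanSpace ℂ (Fin 3)) i‖ ^ 2 = ∑ j, ‖y j‖ ^ 2 := by
      rw [← EuclideanSpace.norm_sq_eq]
      have h1 := hon.inner_sum y y Finset.univ
      rw [inner_self_eq_norm_sq_to_K] at h1
      have h2 := congrArg Complex.re h1
      rw [Complex.re_sum] at h2
      have h3 : ∀ z : ℂ, (conj z * z).re = ‖z‖ ^ 2 := by
        intro z
        rw [Complex.sq_norm, Complex.normSq_apply]
        simp
      simp only [h3] at h2
      rw [← h2]
      norm_cast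
    have hq : (∑ i, conj ((∑ j, y j • b j : EuclideanSpace ℂ (Fin 3)) i) *
        ∑ k, hmat ξ i k * (∑ j, y j • b j : EuclideanSpace ℂ (Fin 3)) k).re =
        ∑ j, (hA.eigenvalues ∘ σ) j * ‖y j‖ ^ 2 := by
      have h1 := hon.inner_sum y (fun j => (hA.eigenvalues (σ j) : ℂ) * y j) Finset.univ
      have h2 : ∀ i, ∑ k, hmat ξ i k * (∑ j, y j • b j : EuclideanSpace ℂ (Fin 3)) k =
          (∑ j, ((hA.eigenvalues (σ j) : ℂ) * y j) • b j : EuclideanSpace ℂ (Fin 3)) i := by
        intro i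
        have h3 : ∀ k, (∑ j, y j • b j : EuclideanSpace ℂ (Fin 3)) k = ∑ j, y j * b j k := by
          intro k
          simp [Fin.sum_univ_three]
        have h4 : (∑ j, ((hA.eigenvalues (σ j) : ℂ) * y j) • b j : EuclideanSpace ℂ (Fin 3)) i =
            ∑ j, y j * ((hA.eigenvalues (σ j) : ℂ) * b j i) := by
          simp [Fin.sum_univ_three]
          ring
        rw [h4]
        simp only [h3, Finset.mul_sum]
        rw [Finset.sum_comm]
        refine Finset.sum_congr rfl fun j _ => ?_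
        have h5 := congrFun (heig j) i
        have h6 : (hmat ξ).mulVec (b j) i = ∑ k, hmat ξ i k * b j k := rfl
        rw [h6] at h5
        have h7 : ((hA.eigenvalues (σ j) : ℂ) • (b j : Fin 3 → ℂ)) i =
          (hA.eigenvalues (σ j) : ℂ) * b j i := rfl
        rw [h7] at h5
        rw [← h5, Finset.mul_sum]
        refine Finset.sum_congr rfl fun k _ => ?_
        ring
      simp only [h2]
      have h8 : ∀ u w : EuclideanSpace ℂ (Fin 3), ∑ i, conj (u i) * w i = inner ℂ u w := by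
        intro u w
        rw [PiLp.inner_apply]
        refine Finset.sum_congr rfl fun i _ => ?_
        simp [mul_comm]
      rw [h8, h1, Complex.re_sum]
      refine Finset.sum_congr rfl fun j _ => ?_
      rw [Complex.sq_norm, Complex.normSq_apply]
      simp
      ring
    rw [hn, hq]

end

end Pool.Agent.H63.TV
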