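import Pool.Agent.H63.TV.Lin
import Pool.Agent.H63.TV.Calc

/-!
# TV-05 (He1), TV-06 (He2), TV-07 (He3, ver_crit): the height functions of the projected Veronese embedding

`ht ξ (ver z) = N z / d z`, `d z = 4 |z 0|² + |z 1|² + |z 2|²`, `N z = √2 ξ₀ (|z 1|² - |z 2|²) +
2√2 Re (conj ξ₁ z 0 conj (z 1) + conj ξ₂ z 1 conj (z 2) + conj ξ₃ z 2 conj (z 0))` (`ξ = (ξ₀, ξ₁, ξ₂, ξ₃)`).
He1 `ver_diag`.  With `y = (2 z 0, z 1, z 2)` one has `d = |y|²` and `N = y* A y` for a Hermitian matrix `A`;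
`A` has an orthonormal basis of eigenvectors `b j` with real eigenvalues (`Matrix.IsHermitian.eigenvalues`,
`eigenvectorBasis`), which can be numbered such that `lam` is monotone (`Tuple.sort`, or use that
`Matrix.IsHermitian.eigenvalues₀` is antitone).  `v j = (b j 0 / 2, b j 1, b j 2)`.
Then `d (∑ y j v j) = ∑ |y j|²`, `N (∑ y j v j) = ∑ lam j |y j|²`.
`ver_lam` : if `lam 0 = lam 1 = lam 2 = c` then `N = c d`; comparing coefficients `ξ = 0`.  (Not needed below.)

He2 `diag_crit`.  `Fd y = (∑ lam j |y j|²) / ∑ |y j|²`.  At a point `y ≠ 0` with value `c = Fd y`,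
`D Fd (y) w = 2 ∑ (lam j - c) Re (conj (y j) w j) / |y|²`.  So critical iff `(lam j - c) y j = 0` for all `j`, that is
(`lam` strictly monotone) iff exactly one `y j` is nonzero.  At such a point (`y = μ e_j`, `c = lam j`)
`hess (v, w) = 2 ∑_i (lam i - lam j) Re (conj (v i) w i) / |μ|²`.  (General fact: if `F = c + G / d` with
`G p = 0`, `DG p = 0` then `hess F p = hess G p / d p`; or use `crit_comp` arguments.)  So the radical is `ℂ e_j = ℂ y`,
and the index is `2 #{i | i < j} = 2 j`: `B` is negative definite on the span of the `e_i`, `i < j`, and positive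
semidefinite on the span of the `e_i`, `i ≥ j`, of real dimension `6 - 2j`.

He3 `ver_crit`.  `T y = ∑ y j v j` is an invertible linear map of `C3`; `ht ξ (ver (T y)) = Fd y` for `y ≠ 0`.
If `lam` is strictly monotone: transport He2 by `T` (`crit_comp`, `HasIdx.comap`).
If `lam i = lam j`, `i ≠ j`: for every nonzero `z` in the complex span `S` of `v i, v j` and `T y = z`, `y` is a critical point of
`Fd` and `hess (v, ·) = 0` for all `v ∈ T⁻¹ S` (same formulas); choose `z ∈ S`, `z ≠ 0`, with `z 0 = 0` and `v ∈ S`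
not proportional to `z`.
-/

open scoped ContDiff ComplexConjugate

namespace Pool.Agent.H63.TV

noncomputable section

/-- the diagonal model -/
def dg (lam : Fin 3 → ℝ) (y : C3) : ℝ := (∑ j, lam j * ‖y j‖ ^ 2) / ∑ j, ‖y j‖ ^ 2

theorem herm2_den_pos {y : C3} (hy : y ≠ 0) : 0 < ∑ j, ‖y j‖ ^ 2 := by
  obtain ⟨j, hj⟩ : ∃ j, y j ≠ 0 := by
    by_contra h
    push Not at h
    exact hy (funext h)
  have h1 : 0 < ‖y j‖ ^ 2 := by
    have := norm_pos_iff.2 hj
    positivity
  exact lt_of_lt_of_le h1 (Finset.single_le_sum (f := fun j => ‖y j‖ ^ 2)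
    (fun i _ => by positivity) (Finset.mem_univ j))

theorem herm2_norm_sq (j : Fin 3) (y : C3) :
    HasFDerivAt (fun y : C3 => ‖y j‖ ^ 2)
      ((2 : ℝ) • (innerSL ℝ (y j)).comp (ContinuousLinearMap.proj (R := ℝ) (φ := fun _ : Fin 3 => ℂ) j))
      y := by
  have h := (ContinuousLinearMap.proj (R := ℝ) (φ := fun _ : Fin 3 => ℂ) j).hasFDerivAt (x := y)
  refine HasFDerivAt.congr_fderiv h.norm_sq ?_
  ext w
  simp
  ring

theorem herm2_div {N D : C3 → ℝ} {N' D' : C3 →L[ℝ] ℝ} {y : C3} (hN : HasFDerivAt N N' y)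
    (hD : HasFDerivAt D D' y) (h0 : D y ≠ 0) :
    HasFDerivAt (fun x => N x / D x) (N y • ((-(D y ^ 2)⁻¹) • D') + (D y)⁻¹ • N') y := by
  have h1 := (hasDerivAt_inv h0).comp_hasFDerivAt y hD
  have h2 := hN.mul h1
  refine HasFDerivAt.congr_of_eventuallyEq h2 (Filter.Eventually.of_forall fun x => ?_)
  simp [div_eq_mul_inv]

theorem herm2_den (y : C3) :
    HasFDerivAt (fun y : C3 => ∑ j, ‖y j‖ ^ 2)
      (∑ j, (2 : ℝ) • (innerSL ℝ (y j)).comp
        (ContinuousLinearMap.proj (R := ℝ) (φ := fun _ : Fin 3 => ℂ) j)) y :=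
  HasFDerivAt.fun_sum fun j _ => herm2_norm_sq j y

theorem herm2_num (lam : Fin 3 → ℝ) (y : C3) :
    HasFDerivAt (fun y : C3 => ∑ j, lam j * ‖y j‖ ^ 2)
      (∑ j, lam j • ((2 : ℝ) • (innerSL ℝ (y j)).comp
        (ContinuousLinearMap.proj (R := ℝ) (φ := fun _ : Fin 3 => ℂ) j))) y :=
  HasFDerivAt.fun_sum fun j _ => (herm2_norm_sq j y).const_mul (lam j)

theorem herm2_contDiffAt (lam : Fin 3 → ℝ) {y : C3} (hy : y ≠ 0) (k : WithTop ℕ∞) :
    ContDiffAt ℝ k (dg lam) y := by
  have h1 : ∀ j : Fin 3, ContDiff ℝ k (fun y : C3 => ‖y j‖ ^ 2) := fun j =>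
    (contDiff_apply ℝ ℂ j).norm_sq ℝ
  have h2 : ContDiff ℝ k (fun y : C3 => ∑ j, lam j * ‖y j‖ ^ 2) :=
    ContDiff.sum fun j _ => contDiff_const.mul (h1 j)
  have h3 : ContDiff ℝ k (fun y : C3 => ∑ j, ‖y j‖ ^ 2) := ContDiff.sum fun j _ => h1 j
  exact h2.contDiffAt.div h3.contDiffAt (herm2_den_pos hy).ne'

theorem dg_fderiv (lam : Fin 3 → ℝ) {y : C3} (hy : y ≠ 0) (w : C3) :
    fderiv ℝ (dg lam) y w =
      2 * (∑ j, (lam j - dg lam y) * (conj (y j) * w j).re) / ∑ j, ‖y j‖ ^ 2 := by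
  have hD := herm2_den_pos hy
  have h := herm2_div (herm2_num lam y) (herm2_den y) hD.ne'
  have h2 : fderiv ℝ (dg lam) y = _ := h.fderiv
  rw [h2]
  have hsum : ∀ f : Fin 3 → ℝ, ∑ j, f j = f 0 + f 1 + f 2 := fun f => Fin.sum_univ_three f
  unfold dg
  simp only [hsum] at hD ⊢
  simp only [Fin.sum_univ_three, smul_apply,
    add_apply, ContinuousLinearMap.comp_apply, innerSL_apply_apply,
    ContinuousLinearMap.proj_apply, Complex.inner, smul_eq_mul]
  field_simp
  ring

theorem dg_crit (lam : Fin 3 → ℝ) {y : C3} (hy : y ≠ 0) :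
    Crit (dg lam) y ↔ ∀ j, (lam j - dg lam y) * ‖y j‖ = 0 := by
  have hD := herm2_den_pos hy
  constructor
  · intro h j
    have h1 : fderiv ℝ (dg lam) y (Pi.single j (y j)) = 0 := by
      have h0 : fderiv ℝ (dg lam) y = 0 := h
      rw [h0]
      rfl
    rw [dg_fderiv lam hy, Finset.sum_eq_single j] at h1
    · rw [Pi.single_eq_same, Complex.conj_mul', ← Complex.ofReal_pow, Complex.ofReal_re,
        div_eq_zero_iff] at h1
      have h2 := h1.resolve_right hD.ne'
      have h3 : ((lam j - dg lam y) * ‖y j‖) * ‖y j‖ = 0 := by nlinarith [h2]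
      rcases mul_eq_zero.1 h3 with h4 | h4
      · exact h4
      · rw [h4, mul_zero]
    · intro i _ hi
      rw [Pi.single_eq_of_ne hi, mul_zero, Complex.zero_re, mul_zero]
    · intro hj
      exact absurd (Finset.mem_univ j) hj
  · intro h
    unfold Crit
    ext w
    rw [dg_fderiv lam hy]
    have h1 : ∑ j, (lam j - dg lam y) * (conj (y j) * w j).re = 0 := by
      apply Finset.sum_eq_zero
      intro j _
      rcases mul_eq_zero.1 (h j) with h2 | h2
      · rw [h2, zero_mul]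
      · rw [norm_eq_zero.1 h2, map_zero, zero_mul, Complex.zero_re, mul_zero]
    rw [h1]
    simp

theorem dg_hess (lam : Fin 3 → ℝ) {y : C3} (hy : y ≠ 0) (hc : Crit (dg lam) y) (v w : C3) :
    hess (dg lam) y v w =
      2 * (∑ j, (lam j - dg lam y) * (conj (v j) * w j).re) / ∑ j, ‖y j‖ ^ 2 := by
  have hD := herm2_den_pos hy
  have hd2 : DifferentiableAt ℝ (fderiv ℝ (dg lam)) y :=
    ((herm2_contDiffAt lam hy 2).fderiv_right (m := 1) (by norm_num)).differentiableAt one_ne_zero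
  have hdg : HasFDerivAt (dg lam) (0 : C3 →L[ℝ] ℝ) y := by
    have h := ((herm2_contDiffAt lam hy 2).differentiableAt two_ne_zero).hasFDerivAt
    have h0 : fderiv ℝ (dg lam) y = 0 := hc
    rwa [h0] at h
  have h1 : HasFDerivAt (fun x => fderiv ℝ (dg lam) x w) ((hess (dg lam) y).flip w) y := by
    have h := hd2.hasFDerivAt.clm_apply (hasFDerivAt_const w y)
    refine HasFDerivAt.congr_fderiv h ?_
    ext v
    simp [hess]
  have hre : ∀ j : Fin 3, HasFDerivAt (fun x : C3 => (conj (x j) * w j).re)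
      ((innerSL ℝ (w j)).comp (ContinuousLinearMap.proj (R := ℝ) (φ := fun _ : Fin 3 => ℂ) j)) y := by
    intro j
    have h := ((innerSL ℝ (w j)).comp
      (ContinuousLinearMap.proj (R := ℝ) (φ := fun _ : Fin 3 => ℂ) j)).hasFDerivAt (x := y)
    refine h.congr_of_eventuallyEq (Filter.Eventually.of_forall fun x => ?_)
    simp only [ContinuousLinearMap.comp_apply, ContinuousLinearMap.proj_apply,
      innerSL_apply_apply, Complex.inner]
    simp only [Complex.mul_re, Complex.conj_re, Complex.conj_im]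
    ring
  have hn : HasFDerivAt (fun x : C3 => ∑ j, (lam j - dg lam x) * (conj (x j) * w j).re)
      (∑ j, ((lam j - dg lam y) • ((innerSL ℝ (w j)).comp
        (ContinuousLinearMap.proj (R := ℝ) (φ := fun _ : Fin 3 => ℂ) j)) +
        (conj (y j) * w j).re • (0 - (0 : C3 →L[ℝ] ℝ)))) y := by
    apply HasFDerivAt.fun_sum
    intro j _
    exact ((hasFDerivAt_const (lam j) y).sub hdg).mul (hre j)
  have hn0 : ∑ j, (lam j - dg lam y) * (conj (y j) * w j).re = 0 := by
    apply Finset.sum_eq_zero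
    intro j _
    rcases mul_eq_zero.1 ((dg_crit lam hy).1 hc j) with h2 | h2
    · rw [h2, zero_mul]
    · rw [norm_eq_zero.1 h2, map_zero, zero_mul, Complex.zero_re, mul_zero]
  have hq := herm2_div (hn.const_mul 2) (herm2_den y) hD.ne'
  have hev : (fun x : C3 => fderiv ℝ (dg lam) x w) =ᶠ[nhds y]
      fun x : C3 => 2 * (∑ j, (lam j - dg lam x) * (conj (x j) * w j).re) / ∑ j, ‖x j‖ ^ 2 := by
    filter_upwards [isOpen_ne.mem_nhds hy] with x hx
    exact dg_fderiv lam hx w
  have h2 := h1.unique (hq.congr_of_eventuallyEq hev)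
  have h3 : hess (dg lam) y v w = ((hess (dg lam) y).flip w) v := rfl
  rw [h3, h2]
  have hsum : ∀ f : Fin 3 → ℝ, ∑ j, f j = f 0 + f 1 + f 2 := fun f => Fin.sum_univ_three f
  simp only [hsum] at hD hn0 ⊢
  simp only [hn0]
  simp only [Fin.sum_univ_three, smul_apply, sub_apply,
    add_apply, ContinuousLinearMap.comp_apply, innerSL_apply_apply,
    ContinuousLinearMap.proj_apply, Complex.inner, smul_eq_mul, zero_apply,
    Complex.mul_re, Complex.conj_re, Complex.conj_im]
  field_simp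
  ring

/-- restriction to the first coordinates -/
def herm2_res (j : Fin 3) : C3 →ₗ[ℝ] (Fin (j : ℕ) → ℂ) where
  toFun v i := v ⟨i, i.2.trans j.2⟩
  map_add' _ _ := rfl
  map_smul' _ _ := rfl

/-- extension by zero -/
def herm2_ext (j : Fin 3) : (Fin (j : ℕ) → ℂ) →ₗ[ℝ] C3 where
  toFun u i := if h : (i : ℕ) < (j : ℕ) then u ⟨i, h⟩ else 0
  map_add' u v := by
    funext i
    by_cases h : (i : ℕ) < (j : ℕ)
    · simp only [Pi.add_apply, dif_pos h]
    · simp only [Pi.add_apply, dif_neg h, add_zero]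
  map_smul' t u := by
    funext i
    by_cases h : (i : ℕ) < (j : ℕ)
    · simp only [Pi.smul_apply, dif_pos h, RingHom.id_apply]
    · simp only [Pi.smul_apply, dif_neg h, smul_zero]

theorem herm2_ext_pos (j : Fin 3) (u : Fin (j : ℕ) → ℂ) (i : Fin 3) (h : (i : ℕ) < (j : ℕ)) :
    herm2_ext j u i = u ⟨i, h⟩ := dif_pos h

theorem herm2_ext_neg (j : Fin 3) (u : Fin (j : ℕ) → ℂ) (i : Fin 3) (h : ¬ (i : ℕ) < (j : ℕ)) :
    herm2_ext j u i = 0 := dif_neg h

theorem herm2_finrank (j : Fin 3) : Module.finrank ℝ (Fin (j : ℕ) → ℂ) = 2 * j := by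
  rw [Module.finrank_pi_fintype]
  simp
  ring

theorem dg_idx {lam : Fin 3 → ℝ} (hl : StrictMono lam) {y : C3} (hy : y ≠ 0)
    (hc : Crit (dg lam) y) : ∃ (j : Fin 3) (μ : ℂ), μ ≠ 0 ∧ y = Pi.single j μ ∧
      HasIdx (hess (dg lam) y) (2 * j) ∧ ∀ v, (∀ w, hess (dg lam) y v w = 0) → ∃ ν : ℂ, v = ν • y := by
  have hD := herm2_den_pos hy
  obtain ⟨j, hj⟩ : ∃ j, y j ≠ 0 := by
    by_contra h
    push Not at h
    exact hy (funext h)
  have hcr := (dg_crit lam hy).1 hc
  have hlj : dg lam y = lam j := by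
    have h1 := (mul_eq_zero.1 (hcr j)).resolve_right (norm_ne_zero_iff.2 hj)
    linarith
  have hne : ∀ i, i ≠ j → lam i - lam j ≠ 0 := fun i hi => sub_ne_zero.2 (hl.injective.ne hi)
  have hy0 : ∀ i, i ≠ j → y i = 0 := by
    intro i hi
    have h1 := hcr i
    rw [hlj] at h1
    exact norm_eq_zero.1 ((mul_eq_zero.1 h1).resolve_left (hne i hi))
  have hysing : y = Pi.single j (y j) := by
    funext i
    by_cases hi : i = j
    · rw [hi, Pi.single_eq_same]
    · rw [Pi.single_eq_of_ne hi, hy0 i hi]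
  have hh : ∀ v w : C3, hess (dg lam) y v w =
      2 * (∑ i, (lam i - lam j) * (conj (v i) * w i).re) / ∑ i, ‖y i‖ ^ 2 := by
    intro v w
    rw [dg_hess lam hy hc, hlj]
  have hself : ∀ v : C3, hess (dg lam) y v v =
      2 * (∑ i, (lam i - lam j) * ‖v i‖ ^ 2) / ∑ i, ‖y i‖ ^ 2 := by
    intro v
    rw [hh]
    congr 2
    apply Finset.sum_congr rfl
    intro i _
    rw [Complex.conj_mul', ← Complex.ofReal_pow, Complex.ofReal_re]
  refine ⟨j, y j, hj, hysing, ⟨⟨LinearMap.range (herm2_ext j), ?_, ?_⟩, ?_⟩, ?_⟩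
  · rw [LinearMap.finrank_range_of_inj, herm2_finrank]
    intro u u' h
    funext i
    have h1 := congrFun h ⟨i, i.2.trans j.2⟩
    rw [herm2_ext_pos j u _ i.2, herm2_ext_pos j u' _ i.2] at h1
    exact h1
  · rintro w ⟨u, rfl⟩ hw
    rw [hself]
    apply div_neg_of_neg_of_pos _ hD
    have h1 : ∑ i, (lam i - lam j) * ‖herm2_ext j u i‖ ^ 2 < 0 := by
      obtain ⟨i, hi⟩ : ∃ i, herm2_ext j u i ≠ 0 := by
        by_contra h
        push Not at h
        exact hw (funext h)
      have hij : (i : ℕ) < (j : ℕ) := by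
        by_contra h
        exact hi (herm2_ext_neg j u i h)
      have h2 : ∀ k ∈ Finset.univ, (lam k - lam j) * ‖herm2_ext j u k‖ ^ 2 ≤ 0 := by
        intro k _
        by_cases hk : (k : ℕ) < (j : ℕ)
        · have h3 : lam k < lam j := hl hk
          nlinarith [sq_nonneg ‖herm2_ext j u k‖]
        · rw [herm2_ext_neg j u k hk]
          simp
      have h4 : (lam i - lam j) * ‖herm2_ext j u i‖ ^ 2 < 0 := by
        have h3 : lam i < lam j := hl hij
        have h5 : 0 < ‖herm2_ext j u i‖ := norm_pos_iff.2 hi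
        nlinarith [pow_pos h5 2]
      have h5 := Finset.sum_lt_sum h2 ⟨i, Finset.mem_univ i, h4⟩
      simpa using h5
    linarith
  · intro W hW
    rw [← herm2_finrank j]
    have hinj : Function.Injective ((herm2_res j).comp W.subtype) := by
      rw [← LinearMap.ker_eq_bot, LinearMap.ker_eq_bot']
      intro v hv
      by_contra hv0
      have h1 := hW v v.2 (fun h => hv0 (Subtype.ext h))
      rw [hself] at h1
      have h2 : 0 ≤ ∑ i, (lam i - lam j) * ‖(v : C3) i‖ ^ 2 := by
        apply Finset.sum_nonneg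
        intro i _
        by_cases hi : i < j
        · have h3 := congrFun hv ⟨i, hi⟩
          have h4 : (v : C3) i = 0 := h3
          rw [h4]
          simp
        · push Not at hi
          have h3 : lam j ≤ lam i := hl.monotone hi
          have : 0 ≤ lam i - lam j := by linarith
          positivity
      have h3 : 0 ≤ 2 * (∑ i, (lam i - lam j) * ‖(v : C3) i‖ ^ 2) / ∑ i, ‖y i‖ ^ 2 := by
        positivity
      linarith
    exact LinearMap.finrank_le_finrank_of_injective hinj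
  · intro v hv
    have hv0 : ∀ i, i ≠ j → v i = 0 := by
      intro i hi
      have h1 := hv (Pi.single i (v i))
      rw [hh, Finset.sum_eq_single i] at h1
      · rw [Pi.single_eq_same, Complex.conj_mul', ← Complex.ofReal_pow, Complex.ofReal_re,
          div_eq_zero_iff] at h1
        have h2 := h1.resolve_right hD.ne'
        have h3 : (lam i - lam j) * ‖v i‖ ^ 2 = 0 := by linarith
        have h4 := (mul_eq_zero.1 h3).resolve_left (hne i hi)
        exact norm_eq_zero.1 (pow_eq_zero_iff two_ne_zero |>.1 h4)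
      · intro k _ hk
        rw [Pi.single_eq_of_ne hk, mul_zero, Complex.zero_re, mul_zero]
      · intro h
        exact absurd (Finset.mem_univ i) h
    refine ⟨v j / y j, ?_⟩
    funext i
    by_cases hi : i = j
    · rw [hi, Pi.smul_apply, smul_eq_mul, div_mul_cancel₀ _ hj]
    · rw [Pi.smul_apply, hy0 i hi, hv0 i hi, smul_zero]

end

end Pool.Agent.H63.TV
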