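import Pool.Agent.H63.TV.Lin
import Pool.Agent.H63.TV.Calc
import Pool.Agent.H63.TV.Herm1
import Pool.Agent.H63.TV.Herm2

/-!
# TV-05 (He1), TV-06 (He2), TV-07 (He3, ver_crit): the height functions of the projected Veronese embedding

`ht ξ (ver z) = N z / d z`, `d z = 4 |z 0|² + |z 1|² + |z 2|²`, `N z = √2 ξ₀ (|z 1|² - |z 2|²) +
2√2 Re (conj ξ₁ z 0 conj (z 1) + conj ξ₂ z 1 conj (z 2) + conj ξ₃ z 2 conj (z 0))` (`ξ = (ξ₀, ξ₁, ξ₂, ξ₃)`).
He1 `ver_diag`.  With `y = (2 z 0, z 1, z 2)` one has `d = |y|²` and `N = y* A y` for a Hermitian matrix `A`;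
`A` has an orthonormal basis of eigenvectors `b j` with real eigenvalues (`Matrix.IsHermitian.eigenvalues`,
`eigenvectorBasis`), which can be numbered such that `lam` is monotone (`Tuple.sort`, or use that
`Matrix.IsHermitian.eigenvalues₀` is antitone).  `v j = (b j 0 / 2, b j 1, b j 2)`.
Then `d (∑ y j v j) = ∑ |y j|²`, `N (∑ y j v j) = ∑ lam j |y j|²`.
`ver_lam` : if `lam 0 = lam 1 = lam 2 = c` then `N = c d`; comparing coefficients `ξ = 0`.  (Not needed below.)

He2 `diag_crit`.  `Fd y = (∑ lam j |y j|²) / ∑ |y j|²`.  At a point `y ≠ 0` with value `c = Fd y`,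
`D Fd (y) w = 2 ∑ (lam j - c) Re (conj (y j) w j) / |y|²`.  So critical iff `(lam j - c) y j = 0` for all `j`, that is
(`lam` strictly monotone) iff exactly one `y j` is nonzero.  At such a point (`y = μ e_j`, `c = lam j`)
`hess (v, w) = 2 ∑_i (lam i - lam j) Re (conj (v i) w i) / |μ|²`.  (General fact: if `F = c + G / d` with
`G p = 0`, `DG p = 0` then `hess F p = hess G p / d p`; or use `crit_comp` arguments.)  So the radical is `ℂ e_j = ℂ y`,
and the index is `2 #{i | i < j} = 2 j`: `B` is negative definite on the span of the `e_i`, `i < j`, and positive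
semidefinite on the span of the `e_i`, `i ≥ j`, of real dimension `6 - 2j`.

He3 `ver_crit`.  `T y = ∑ y j v j` is an invertible linear map of `C3`; `ht ξ (ver (T y)) = Fd y` for `y ≠ 0`.
If `lam` is strictly monotone: transport He2 by `T` (`crit_comp`, `HasIdx.comap`).
If `lam i = lam j`, `i ≠ j`: for every nonzero `z` in the complex span `S` of `v i, v j` and `T y = z`, `y` is a critical point of
`Fd` and `hess (v, ·) = 0` for all `v ∈ T⁻¹ S` (same formulas); choose `z ∈ S`, `z ≠ 0`, with `z 0 = 0` and `v ∈ S`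
not proportional to `z`.
-/

open scoped ContDiff ComplexConjugate

namespace Pool.Agent.H63.TV

noncomputable section

private theorem herm_normSq (j : Fin 3) : ContDiff ℝ ∞ (fun y : C3 => ‖y j‖ ^ 2) :=
  (contDiff_apply ℝ ℂ j).norm_sq ℝ

private theorem herm_conj (j : Fin 3) : ContDiff ℝ ∞ (fun y : C3 => conj (y j)) :=
  Complex.conjCLE.contDiff.comp (contDiff_apply ℝ ℂ j)

private theorem herm_den_pos {z : C3} (hz : z ≠ 0) :
    0 < 4 * ‖z 0‖ ^ 2 + ‖z 1‖ ^ 2 + ‖z 2‖ ^ 2 := by
  by_contra hcon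
  apply hz
  have h0 := sq_nonneg ‖z 0‖
  have h1 := sq_nonneg ‖z 1‖
  have h2 := sq_nonneg ‖z 2‖
  have e0 : ‖z 0‖ ^ 2 = 0 := by linarith
  have e1 : ‖z 1‖ ^ 2 = 0 := by linarith
  have e2 : ‖z 2‖ ^ 2 = 0 := by linarith
  funext j
  fin_cases j
  · simpa using e0
  · simpa using e1
  · simpa using e2

private theorem herm_sum_pos {y : C3} (hy : y ≠ 0) : 0 < ∑ j, ‖y j‖ ^ 2 := by
  have hne : ∃ j, y j ≠ 0 := by
    by_contra hcon
    push Not at hcon
    exact hy (funext hcon)
  obtain ⟨j, hj⟩ := hne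
  refine Finset.sum_pos' (fun i _ => sq_nonneg _) ⟨j, Finset.mem_univ j, ?_⟩
  have := norm_pos_iff.mpr hj
  positivity

theorem contDiffAt_ver {z : C3} (hz : z ≠ 0) : ContDiffAt ℝ ∞ ver z := by
  have hd : ContDiffAt ℝ ∞ (fun z : C3 => 4 * ‖z 0‖ ^ 2 + ‖z 1‖ ^ 2 + ‖z 2‖ ^ 2) z :=
    (((contDiff_const.mul (herm_normSq 0)).add (herm_normSq 1)).add (herm_normSq 2)).contDiffAt
  have hne := (herm_den_pos hz).ne'
  have hq : ContDiffAt ℝ ∞ (fun z : C3 =>
      ((2 * Real.sqrt 2 / (4 * ‖z 0‖ ^ 2 + ‖z 1‖ ^ 2 + ‖z 2‖ ^ 2) : ℝ) : ℂ)) z :=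
    (Complex.ofRealCLM.contDiff.contDiffAt).comp z (contDiffAt_const.div hd hne)
  have hm : ∀ i j : Fin 3, ContDiffAt ℝ ∞ (fun z : C3 => z i * conj (z j)) z := fun i j =>
    ((contDiff_apply ℝ ℂ i).mul (herm_conj j)).contDiffAt
  have h1 : ContDiffAt ℝ ∞ (fun z : C3 => (Real.sqrt 2 * (‖z 1‖ ^ 2 - ‖z 2‖ ^ 2)) /
      (4 * ‖z 0‖ ^ 2 + ‖z 1‖ ^ 2 + ‖z 2‖ ^ 2)) z :=
    ((contDiff_const.mul ((herm_normSq 1).sub (herm_normSq 2))).contDiffAt).div hd hne
  exact h1.prodMk ((hq.mul (hm 0 1)).prodMk ((hq.mul (hm 1 2)).prodMk (hq.mul (hm 2 0))))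

private theorem herm_single {i j : Fin 3} (h : i ≠ j) (μ : ℂ) : (Pi.single j μ : C3) i = 0 := by
  simp [Pi.single_apply, h]

private theorem herm_dg {lam : Fin 3 → ℝ} {y : C3} (hy : y ≠ 0) :
    ContDiffAt ℝ 2 (dg lam) y := by
  have hs : ∀ j : Fin 3, ContDiff ℝ 2 (fun y : C3 => ‖y j‖ ^ 2) := fun j =>
    (contDiff_apply ℝ ℂ j).norm_sq ℝ
  have h1 : ContDiff ℝ 2 (fun y : C3 => ∑ j, lam j * ‖y j‖ ^ 2) :=
    ContDiff.sum fun j _ => contDiff_const.mul (hs j)
  have h2 : ContDiff ℝ 2 (fun y : C3 => ∑ j, ‖y j‖ ^ 2) := ContDiff.sum fun j _ => hs j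
  exact h1.contDiffAt.div h2.contDiffAt (herm_sum_pos hy).ne'

private theorem herm_dg_val {lam : Fin 3 → ℝ} {y : C3} (hy : y ≠ 0) {c : ℝ}
    (h : ∀ j, lam j = c ∨ y j = 0) : dg lam y = c := by
  have h1 : (∑ j, lam j * ‖y j‖ ^ 2) = c * ∑ j, ‖y j‖ ^ 2 := by
    rw [Finset.mul_sum]
    refine Finset.sum_congr rfl fun j _ => ?_
    rcases h j with h | h
    · rw [h]
    · simp [h]
  rw [dg, h1, mul_div_assoc, div_self (herm_sum_pos hy).ne', mul_one]

/-- critical points of the height functions of the projected Veronese embedding -/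
theorem ver_crit (ξ : E7) :
    (∃ v : Fin 3 → C3, LinearIndependent ℂ v ∧
      (∀ z, z ≠ 0 → (Crit (fun y => ht ξ (ver y)) z ↔ ∃ (j : Fin 3) (μ : ℂ), z = μ • v j)) ∧
      ∀ (j : Fin 3) (μ : ℂ), μ ≠ 0 → HasIdx (hess (fun y => ht ξ (ver y)) (μ • v j)) (2 * j) ∧
        ∀ v', (∀ w, hess (fun y => ht ξ (ver y)) (μ • v j) v' w = 0) → ∃ ν : ℂ, v' = ν • μ • v j) ∨
    ∃ z : C3, z ≠ 0 ∧ z 0 = 0 ∧ Crit (fun y => ht ξ (ver y)) z ∧
      ∃ v, (∀ w, hess (fun y => ht ξ (ver y)) z v w = 0) ∧ ¬ ∃ μ : ℂ, v = μ • z := by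
  obtain ⟨v, lam, hv, hmono, hdiag⟩ := ver_diag ξ
  set F : C3 → ℝ := fun y => ht ξ (ver y) with hF
  let bv : Module.Basis (Fin 3) ℂ C3 := basisOfLinearIndependentOfCardEqFinrank hv (by simp)
  have hbv : ∀ j, bv j = v j := fun j => by
    simp only [bv, coe_basisOfLinearIndependentOfCardEqFinrank]
  let L : C3 ≃ₗ[ℂ] C3 := bv.equivFun
  have hT : ∀ y : C3, L.symm y = ∑ j, y j • v j := fun y => by
    simp only [L, Module.Basis.equivFun_symm_apply, hbv]
  have hT1 : ∀ (j : Fin 3) (μ : ℂ), L.symm (Pi.single j μ) = μ • v j := fun j μ => by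
    rw [hT]
    simp [Pi.single_apply, ite_smul]
  have hL1 : ∀ (j : Fin 3) (μ : ℂ), L (μ • v j) = Pi.single j μ := fun j μ => by
    rw [← hT1, LinearEquiv.apply_symm_apply]
  let Lr : C3 →L[ℝ] C3 := LinearMap.toContinuousLinearMap ((L : C3 →ₗ[ℂ] C3).restrictScalars ℝ)
  have hLr : ∀ x, Lr x = L x := fun x => rfl
  have hLsurj : Function.Surjective Lr := fun y => ⟨L.symm y, by
    rw [hLr, LinearEquiv.apply_symm_apply]⟩
  have hLne : ∀ z : C3, z ≠ 0 → L z ≠ 0 := fun z hz h => hz (by
    have := L.map_eq_zero_iff.mp h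
    exact this)
  have hFd : ∀ z : C3, z ≠ 0 → F z = dg lam (Lr z) := fun z hz => by
    have h1 := hdiag (L z) (hLne z hz)
    rw [← hT, LinearEquiv.symm_apply_apply] at h1
    exact h1
  have hcong : ∀ z : C3, z ≠ 0 → F =ᶠ[nhds z] fun x => dg lam (Lr x) := fun z hz => by
    have : {x : C3 | x ≠ 0} ∈ nhds z := isOpen_ne.mem_nhds hz
    filter_upwards [this] with x hx
    exact hFd x hx
  have hfd : ∀ z : C3, fderiv ℝ (fun x => Lr x) z = Lr := fun z => Lr.fderiv
  have hcrit : ∀ z : C3, z ≠ 0 → (Crit F z ↔ Crit (dg lam) (L z)) ∧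
      (Crit (dg lam) (L z) → ∀ a b, hess F z a b = hess (dg lam) (L z) (Lr a) (Lr b)) := by
    intro z hz
    obtain ⟨e1, e2⟩ := hess_congr (hcong z hz)
    have hφ : ContDiffAt ℝ 2 (fun x => Lr x) z := Lr.contDiff.contDiffAt
    have hG : ContDiffAt ℝ 2 (dg lam) ((fun x => Lr x) z) := herm_dg (hLne z hz)
    have hs : Function.Surjective (fderiv ℝ (fun x => Lr x) z) := by
      rw [hfd]
      exact hLsurj
    obtain ⟨f1, f2⟩ := crit_comp hφ hG hs
    refine ⟨e1.trans f1, fun hc a b => ?_⟩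
    rw [e2, f2 hc a b, hfd]
    rfl
  by_cases hst : StrictMono lam
  · left
    have hkey : ∀ (j : Fin 3) (μ : ℂ), μ ≠ 0 → μ • v j ≠ 0 ∧ Crit (dg lam) (Pi.single j μ) := by
      intro j μ hμ
      have hsne : (Pi.single j μ : C3) ≠ 0 := by
        intro h
        have := congrFun h j
        rw [Pi.single_eq_same] at this
        exact hμ this
      refine ⟨smul_ne_zero hμ (hv.ne_zero j), ?_⟩
      rw [dg_crit lam hsne]
      have hval : dg lam (Pi.single j μ : C3) = lam j := herm_dg_val hsne (fun i => by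
        by_cases hij : i = j
        · left
          rw [hij]
        · right
          exact herm_single hij μ)
      intro i
      rw [hval]
      by_cases hij : i = j
      · rw [hij, sub_self, zero_mul]
      · rw [herm_single hij μ, norm_zero, mul_zero]
    refine ⟨v, hv, ?_, ?_⟩
    · intro z hz
      rw [(hcrit z hz).1]
      constructor
      · intro hc
        obtain ⟨j, μ, hμ, hy, -⟩ := dg_idx hst (hLne z hz) hc
        refine ⟨j, μ, ?_⟩
        rw [← hT1, ← hy, LinearEquiv.symm_apply_apply]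
      · rintro ⟨j, μ, rfl⟩
        have hμ : μ ≠ 0 := fun h => hz (by rw [h, zero_smul])
        rw [hL1]
        exact (hkey j μ hμ).2
    · intro j μ hμ
      obtain ⟨hz, hc⟩ := hkey j μ hμ
      have hc' : Crit (dg lam) (L (μ • v j)) := by rw [hL1]; exact hc
      obtain ⟨j', μ', hμ', hy, hidx, hrad⟩ := dg_idx hst (hLne _ hz) hc'
      have hjj : j' = j := by
        by_contra hne
        rw [hL1] at hy
        have := congrFun hy j
        rw [Pi.single_eq_same, herm_single (Ne.symm hne)] at this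
        exact hμ this
      subst hjj
      have hh := (hcrit _ hz).2 hc'
      refine ⟨(HasIdx.comap _ _ Lr hLsurj hh _).mpr hidx, fun v' hv' => ?_⟩
      obtain ⟨ν, hν⟩ := hrad (Lr v') (fun w => by
        obtain ⟨w', rfl⟩ := hLsurj w
        rw [← hh]
        exact hv' w')
      refine ⟨ν, ?_⟩
      have h3 : L v' = L (ν • μ • v j') := by
        rw [map_smul]
        exact hν
      exact L.injective h3
  · right
    have hninj : ¬ Function.Injective lam := fun h => hst (hmono.strictMono_of_injective h)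
    rw [Function.Injective] at hninj
    push Not at hninj
    obtain ⟨i, j, hij, hne⟩ := hninj
    obtain ⟨α, β, hαβ, h0⟩ : ∃ α β : ℂ, (α ≠ 0 ∨ β ≠ 0) ∧ α * v i 0 + β * v j 0 = 0 := by
      by_cases h : v j 0 = 0 ∧ v i 0 = 0
      · exact ⟨1, 0, Or.inl one_ne_zero, by rw [h.2]; ring⟩
      · refine ⟨v j 0, -v i 0, ?_, by ring⟩
        rw [neg_ne_zero]
        by_contra hcon
        push Not at hcon
        exact h hcon
    set y : C3 := Pi.single i α + Pi.single j β with hy
    set y' : C3 := Pi.single i (-conj β) + Pi.single j (conj α) with hy'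
    have hyi : y i = α := by
      rw [hy, Pi.add_apply, Pi.single_eq_same, herm_single hne, add_zero]
    have hyj : y j = β := by
      rw [hy, Pi.add_apply, Pi.single_eq_same, herm_single hne.symm, zero_add]
    have hyi' : y' i = -conj β := by
      rw [hy', Pi.add_apply, Pi.single_eq_same, herm_single hne, add_zero]
    have hyj' : y' j = conj α := by
      rw [hy', Pi.add_apply, Pi.single_eq_same, herm_single hne.symm, zero_add]
    have hyne : y ≠ 0 := by
      intro h
      rcases hαβ with h1 | h1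
      · apply h1
        rw [← hyi, h]
        rfl
      · apply h1
        rw [← hyj, h]
        rfl
    have hsup : ∀ k, lam k = lam i ∨ (y k = 0 ∧ y' k = 0) := by
      intro k
      by_cases hki : k = i
      · left
        rw [hki]
      · by_cases hkj : k = j
        · left
          rw [hkj, hij]
        · right
          rw [hy, hy', Pi.add_apply, Pi.add_apply, herm_single hki, herm_single hkj,
            herm_single hki, herm_single hkj]
          simp
    have hval : dg lam y = lam i := herm_dg_val hyne fun k => (hsup k).imp id And.left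
    have hc : Crit (dg lam) y := by
      rw [dg_crit lam hyne]
      intro k
      rw [hval]
      rcases hsup k with h | h
      · rw [h, sub_self, zero_mul]
      · rw [h.1, norm_zero, mul_zero]
    have hzne : L.symm y ≠ 0 := fun h => hyne (by
      have := L.symm.map_eq_zero_iff.mp h
      exact this)
    have hLz : L (L.symm y) = y := L.apply_symm_apply y
    have hc' : Crit (dg lam) (L (L.symm y)) := by rw [hLz]; exact hc
    refine ⟨L.symm y, hzne, ?_, (hcrit _ hzne).1.mpr hc', L.symm y', fun w => ?_, ?_⟩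
    · rw [hy, map_add, hT1, hT1, Pi.add_apply, Pi.smul_apply, Pi.smul_apply, smul_eq_mul,
        smul_eq_mul]
      exact h0
    · rw [(hcrit _ hzne).2 hc', hLz, dg_hess lam hyne hc, hval]
      have hLy' : Lr (L.symm y') = y' := L.apply_symm_apply y'
      rw [hLy']
      have hz0 : (∑ k, (lam k - lam i) * (conj (y' k) * (Lr w) k).re) = 0 := by
        refine Finset.sum_eq_zero fun k _ => ?_
        rcases hsup k with h | h
        · rw [h, sub_self, zero_mul]
        · rw [h.2]
          simp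
      rw [hz0, mul_zero, zero_div]
    · rintro ⟨μ, hμ⟩
      have h1 : y' = μ • y := by
        apply L.symm.injective
        rw [map_smul]
        exact hμ
      have h2 : -conj β = μ * α := by
        have := congrFun h1 i
        rw [hyi', Pi.smul_apply, hyi, smul_eq_mul] at this
        exact this
      have h3 : conj α = μ * β := by
        have := congrFun h1 j
        rw [hyj', Pi.smul_apply, hyj, smul_eq_mul] at this
        exact this
      have h4 : α * conj α + β * conj β = 0 := by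
        have h5 : conj β = -(μ * α) := by rw [← h2, neg_neg]
        rw [h3, h5]
        ring
      rw [Complex.mul_conj, Complex.mul_conj, ← Complex.ofReal_add, Complex.ofReal_eq_zero] at h4
      have n1 := Complex.normSq_nonneg α
      have n2 := Complex.normSq_nonneg β
      rcases hαβ with h | h
      · exact h (Complex.normSq_eq_zero.mp (by linarith))
      · exact h (Complex.normSq_eq_zero.mp (by linarith))

end

end Pool.Agent.H63.TV
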