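import Pool.Agent.H63.TV.NeckA
import Pool.Agent.H63.TV.Calc

/-!
# TV-28 (necessary conditions), TV-29 (fixed point), TV-30 (existence), TV-31 (neck_crit): critical points on a neck

`Hf A B e (z, x) = (Re (A z) + Re (B x.2) + e) / x.1`.  On the neck `x.1 > 0` since `n |u| ≤ 2 s < 1` for `|u| < 2`.
Fix `c`; `K_λ (u, v) = Re (A m̃ u) + Re (B c) - λ + n |u| (W · v̂) + e`, `m̃ u = (m |u|/|u|) u`, `v̂ = v / len v`, `W = (-λ, conj B)`,
`W · v = W.1 v.1 + Re (conj W.2 v.2)`: the numerator of `Hf ∘ nk - λ`, since `W · x = - λ x.1 + Re (B x.2)`.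
`(u, v)` is critical for `Hf ∘ nk` with value `λ` iff `K_λ` and its derivative vanish at `(u, v)`.
`Φ b ω` = maximum over `0 ≤ t ≤ 1` of `b m t - ω n t` (`b, ω ≥ 0`).  For `t > 0` the derivative is `n' t (b p t - ω)`, so for `b, ω > 0` there is
exactly one maximum point, with `p t = ω / b`, `0 < t < 1`; for `ω = 0`, `Φ = b r` (at `t = 1`); for `b = 0`, `ω > 0` the maximum is at `t = 0` only.
`Φ b` is nonincreasing and `|Φ b ω - Φ b ω'| ≤ s |ω - ω'|` (`0 ≤ n t ≤ n 1 = s`).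

`neck_nec`.  Let `(u, v)`, `len v = 1`, `|u| < 2` be critical with value `λ`, `ω = len W`, `b = |A|`.  Derivative in `v`: `W = (W · v) v`, so `W · v = - σ ω` with
`σ = 1` or `σ = -1`.  `u ≠ 0`: angular derivative: `Im (A u) = 0`, so `A u = ± b |u|`; radial derivative (`t = |u|`):
`n' t (± b p t + W · v) = 0`.  If `ω > 0` then the sign is `σ`, `b p t = ω`, so `b > 0`, `t < 1`, and `Re (A m̃ u) = σ b m t`.
If `u = 0`: the derivative of `m̃` at `0` is `κ`, so `A = 0`; take `t = 0`.  In both cases (`ω > 0`)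
`K_λ = 0` says `λ = Re (B c) + e + σ (b m t - ω n t) = Re (B c) + e + σ Φ b ω`.
If `ω = 0`: `λ = 0`, `B = 0`; if `u ≠ 0` then `b p t = 0`, so `b = 0` or `t ≥ 1`, and `K = 0` gives `± b r + e = 0`; if `u = 0`, `A = 0` and `e = 0`:
in all cases `B = 0` and `|e| = r b`, excluded by `hND`.

`lam_exists`: `λ ↦ Re (B c) + e + σ Φ b (√(λ² + |B|²))` is a contraction with constant `s < 1`: exactly one fixed point `λ_σ`.
`ω_σ = √(λ_σ² + |B|²) > 0` by `hND` (otherwise `B = 0`, `λ_σ = 0 = e + σ b r`).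
`neck_ex`: `v_σ = - σ W_σ / ω_σ`; `u_σ = σ t_σ conj A / b` if `b > 0`, `u_σ = 0` if `b = 0`; `(u_σ, v_σ)` is critical (all conditions above are
sufficient).  `σ = 1`: for all `(u, v)`: `K (u_σ, v) ≥ K (u_σ, v_σ) = 0` since `W · v̂ ≥ - ω`, and
`K (u, v_σ) ≤ 0` since `Re (A m̃ u) - ω n |u| ≤ b m |u| - ω n |u| ≤ Φ b ω` (also for `|u| > 1`, where `m = r` and `n` increases).  So
`P = {(0, b')}` (dimension 3) and `Q = {(a, t v_σ)}` (dimension 3; `K` does not depend on `len v`).  For `σ = -1` exchange `P` and `Q`.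
The two points are different: for `b > 0` the `u_σ` have opposite directions.  For `b = 0`: `λ_σ = Re (B c) + e - σ n 0 ω_σ`; if
`v_+ = v_-` then `- W_+ / ω_+` equals `W_- / ω_-`, so `B = 0` and `λ_+, λ_-` have opposite signs; but `λ_σ = e - σ n 0 |λ_σ|` has the sign of `e ≠ 0`
(`n 0 < 1`; `e ≠ 0` by `hND`).
`neck_crit`: general `y` with `y.2 ≠ 0`: `Hf (nk (u, t v)) = Hf (nk (u, v))`; use `crit_comp` with the linear map `(u, v) ↦ (u, t v)`.
-/

open scoped ContDiff ComplexConjugate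

namespace Pool.Agent.H63.TV

noncomputable section

/-- height functions on a neck -/
def Hf (A B : ℂ) (e : ℝ) (y : ℂ × R3) : ℝ := ((A * y.1).re + (B * y.2.2).re + e) / y.2.1

/-- inner product of `ℝ^3` -/
def dot (a b : R3) : ℝ := a.1 * b.1 + (conj a.2 * b.2).re

/-- the maximum of `b m t - om n t` over `[0, 1]` -/
def Phi (m n : ℝ → ℝ) (b om : ℝ) : ℝ := sSup ((fun t => b * m t - om * n t) '' Set.Icc 0 1)

theorem Phi_contOn_m {r s : ℝ} {m n p n' : ℝ → ℝ} (h : IsNeck r s m n p n') :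
    ContinuousOn m (Set.Ici 0) := by
  obtain ⟨κ, κ', _, _, hk⟩ := h.near0
  intro t ht
  rcases eq_or_lt_of_le (Set.mem_Ici.mp ht) with h0 | h0
  · subst h0
    have hc : ContinuousWithinAt (fun t : ℝ => κ * t) (Set.Ici 0) 0 :=
      (continuous_const.mul continuous_id).continuousWithinAt
    refine hc.congr_of_eventuallyEq ?_ (by simpa using (hk 0 le_rfl (by norm_num)).1)
    have h2 : ∀ᶠ t : ℝ in nhdsWithin 0 (Set.Ici 0), t < 1 / 2 :=
      (eventually_lt_nhds (by norm_num : (0 : ℝ) < 1 / 2)).filter_mono nhdsWithin_le_nhds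
    filter_upwards [h2, self_mem_nhdsWithin] with t h3 h4
    exact (hk t h4 h3.le).1
  · exact (h.dm t h0).continuousAt.continuousWithinAt

theorem Phi_contOn_n {r s : ℝ} {m n p n' : ℝ → ℝ} (h : IsNeck r s m n p n') :
    ContinuousOn n (Set.Ici 0) := by
  obtain ⟨κ, κ', _, _, hk⟩ := h.near0
  intro t ht
  rcases eq_or_lt_of_le (Set.mem_Ici.mp ht) with h0 | h0
  · subst h0
    have hc : ContinuousWithinAt (fun t : ℝ => n 0 + κ' * t ^ 2) (Set.Ici 0) 0 := by fun_prop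
    refine hc.congr_of_eventuallyEq ?_ (by simpa using (hk 0 le_rfl (by norm_num)).2)
    have h2 : ∀ᶠ t : ℝ in nhdsWithin 0 (Set.Ici 0), t < 1 / 2 :=
      (eventually_lt_nhds (by norm_num : (0 : ℝ) < 1 / 2)).filter_mono nhdsWithin_le_nhds
    filter_upwards [h2, self_mem_nhdsWithin] with t h3 h4
    exact (hk t h4 h3.le).2
  · exact (h.dn t h0).continuousAt.continuousWithinAt

theorem Phi_contOn_g {r s : ℝ} {m n p n' : ℝ → ℝ} (h : IsNeck r s m n p n') (b om : ℝ) :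
    ContinuousOn (fun t => b * m t - om * n t) (Set.Ici 0) :=
  (continuousOn_const.mul (Phi_contOn_m h)).sub (continuousOn_const.mul (Phi_contOn_n h))

theorem Phi_deriv_g {r s : ℝ} {m n p n' : ℝ → ℝ} (h : IsNeck r s m n p n') (b om : ℝ) {t : ℝ}
    (ht : 0 < t) : HasDerivAt (fun t => b * m t - om * n t) (n' t * (b * p t - om)) t := by
  have h1 := ((h.dm t ht).const_mul b).sub ((h.dn t ht).const_mul om)
  exact h1.congr_deriv (by ring)

theorem Phi_mono_of {r s : ℝ} {m n p n' : ℝ → ℝ} (h : IsNeck r s m n p n') (b om : ℝ) {t : ℝ}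
    (hp : ∀ x, 0 < x → x < t → om ≤ b * p x) :
    MonotoneOn (fun t => b * m t - om * n t) (Set.Icc 0 t) := by
  refine monotoneOn_of_deriv_nonneg (convex_Icc 0 t)
    ((Phi_contOn_g h b om).mono Set.Icc_subset_Ici_self) ?_ ?_
  · intro x hx
    rw [interior_Icc] at hx
    exact (Phi_deriv_g h b om hx.1).differentiableAt.differentiableWithinAt
  · intro x hx
    rw [interior_Icc] at hx
    rw [(Phi_deriv_g h b om hx.1).deriv]
    have h1 := hp x hx.1 hx.2
    exact mul_nonneg (h.n'_pos x hx.1).le (by linarith)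

theorem Phi_anti_of {r s : ℝ} {m n p n' : ℝ → ℝ} (h : IsNeck r s m n p n') (b om : ℝ) {t : ℝ}
    (ht : 0 ≤ t) (hp : ∀ x, t < x → b * p x ≤ om) :
    AntitoneOn (fun t => b * m t - om * n t) (Set.Ici t) := by
  refine antitoneOn_of_deriv_nonpos (convex_Ici t)
    ((Phi_contOn_g h b om).mono (Set.Ici_subset_Ici.2 ht)) ?_ ?_
  · intro x hx
    rw [interior_Ici] at hx
    exact (Phi_deriv_g h b om (lt_of_le_of_lt ht hx)).differentiableAt.differentiableWithinAt
  · intro x hx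
    rw [interior_Ici] at hx
    have hx0 : 0 < x := lt_of_le_of_lt ht hx
    rw [(Phi_deriv_g h b om hx0).deriv]
    have h1 := hp x hx
    exact mul_nonpos_of_nonneg_of_nonpos (h.n'_pos x hx0).le (by linarith)

theorem Phi_p_nonneg {r s : ℝ} {m n p n' : ℝ → ℝ} (h : IsNeck r s m n p n') {t : ℝ}
    (ht : 0 < t) : 0 ≤ p t := by
  rcases lt_or_ge t 1 with h1 | h1
  · have h2 := h.p_anti (⟨ht, h1.le⟩ : t ∈ Set.Ioc (0 : ℝ) 1) ⟨one_pos, le_rfl⟩ h1
    rw [h.p_out 1 le_rfl] at h2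
    exact h2.le
  · rw [h.p_out t h1]

theorem Phi_n_bd {r s : ℝ} {m n p n' : ℝ → ℝ} (h : IsNeck r s m n p n') {t : ℝ}
    (ht : 0 ≤ t) (ht1 : t ≤ 1) : 0 ≤ n t ∧ n t ≤ s := by
  have hm := Phi_anti_of h 0 1 (t := 0) le_rfl (fun x _ => by simp)
  have h1 := hm (Set.mem_Ici.2 le_rfl) (Set.mem_Ici.2 ht) ht
  have h2 := hm (Set.mem_Ici.2 ht) (Set.mem_Ici.2 zero_le_one) ht1
  have h3 := h.n_out 1 le_rfl
  have h4 := h.n_zero
  simp only [zero_mul, one_mul, zero_sub] at h1 h2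
  constructor
  · linarith
  · rw [mul_one] at h3
    linarith

theorem Phi_spec {r s : ℝ} {m n p n' : ℝ → ℝ} (h : IsNeck r s m n p n') (hr : 0 < r) (hs : 0 < s)
    {b om : ℝ} (hb : 0 ≤ b) (hom : 0 < om) : ∃ t, 0 ≤ t ∧ t < 1 ∧ (0 < t ↔ 0 < b) ∧
      (0 < b → b * p t = om) ∧ Phi m n b om = b * m t - om * n t ∧
      ∀ t', 0 ≤ t' → b * m t' - om * n t' ≤ b * m t - om * n t := by
  have key : ∀ t, 0 ≤ t → t < 1 → (∀ t', 0 ≤ t' → b * m t' - om * n t' ≤ b * m t - om * n t) →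
      Phi m n b om = b * m t - om * n t := by
    intro t h0 h1 h2
    unfold Phi
    refine IsGreatest.csSup_eq ⟨⟨t, ⟨h0, h1.le⟩, rfl⟩, ?_⟩
    rintro _ ⟨t', ht', rfl⟩
    exact h2 t' ht'.1
  rcases eq_or_lt_of_le hb with h0 | h0
  · subst h0
    have h2 : ∀ t', 0 ≤ t' → (0 : ℝ) * m t' - om * n t' ≤ 0 * m 0 - om * n 0 := by
      intro t' ht'
      exact Phi_anti_of h 0 om (t := 0) le_rfl (fun x _ => by simpa using hom.le)
        (Set.mem_Ici.2 le_rfl) (Set.mem_Ici.2 ht') ht'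
    exact ⟨0, le_rfl, one_pos, by simp, fun h => absurd h (lt_irrefl _),
      key 0 le_rfl one_pos h2, h2⟩
  · obtain ⟨t, ht0, ht1, hpt⟩ := h.p_surj (om / b) (div_pos hom h0)
    have hbp : b * p t = om := by rw [hpt]; field_simp
    have h2 : ∀ t', 0 ≤ t' → b * m t' - om * n t' ≤ b * m t - om * n t := by
      intro t' ht'
      rcases le_total t' t with h3 | h3
      · refine Phi_mono_of h b om (t := t) ?_ ⟨ht', h3⟩ ⟨ht0.le, le_rfl⟩ h3
        intro x hx hxt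
        have h4 := h.p_anti (⟨hx, (hxt.trans ht1).le⟩ : x ∈ Set.Ioc (0 : ℝ) 1) ⟨ht0, ht1.le⟩ hxt
        rw [← hbp]
        exact mul_le_mul_of_nonneg_left h4.le hb
      · refine Phi_anti_of h b om (t := t) ht0.le ?_ (Set.mem_Ici.2 le_rfl) (Set.mem_Ici.2 h3) h3
        intro x hx
        rcases le_or_gt x 1 with h5 | h5
        · have h4 := h.p_anti (⟨ht0, ht1.le⟩ : t ∈ Set.Ioc (0 : ℝ) 1) ⟨ht0.trans hx, h5⟩ hx
          rw [← hbp]
          exact mul_le_mul_of_nonneg_left h4.le hb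
        · rw [h.p_out x h5.le, mul_zero]
          exact hom.le
    exact ⟨t, ht0.le, ht1, ⟨fun _ => h0, fun _ => ht0⟩, fun _ => hbp, key t ht0.le ht1 h2, h2⟩

theorem Phi_zero {r s : ℝ} {m n p n' : ℝ → ℝ} (h : IsNeck r s m n p n') (hr : 0 < r) (hs : 0 < s)
    {b : ℝ} (hb : 0 ≤ b) : Phi m n b 0 = b * r := by
  unfold Phi
  refine IsGreatest.csSup_eq ⟨⟨1, ⟨zero_le_one, le_rfl⟩, ?_⟩, ?_⟩
  · simp [h.m_out 1 le_rfl]
  · rintro _ ⟨t, ht, rfl⟩
    have h1 := Phi_mono_of h b 0 (t := 1)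
      (fun x hx _ => mul_nonneg hb (Phi_p_nonneg h hx)) ht ⟨zero_le_one, le_rfl⟩ ht.2
    simpa [h.m_out 1 le_rfl] using h1

theorem Phi_lip {r s : ℝ} {m n p n' : ℝ → ℝ} (h : IsNeck r s m n p n') (hr : 0 < r) (hs : 0 < s)
    {b om om' : ℝ} (hb : 0 ≤ b) (hom : 0 ≤ om) (hom' : 0 ≤ om') :
    |Phi m n b om - Phi m n b om'| ≤ s * |om - om'| := by
  have key : ∀ a a' : ℝ, Phi m n b a ≤ Phi m n b a' + s * |a - a'| := by
    intro a a'
    unfold Phi
    refine csSup_le ((Set.nonempty_Icc.2 zero_le_one).image _) ?_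
    rintro _ ⟨t, ht, rfl⟩
    have hbd : BddAbove ((fun t => b * m t - a' * n t) '' Set.Icc 0 1) :=
      (isCompact_Icc.image_of_continuousOn
        ((Phi_contOn_g h b a').mono Set.Icc_subset_Ici_self)).bddAbove
    have h1 := le_csSup hbd (Set.mem_image_of_mem (fun t => b * m t - a' * n t) ht)
    obtain ⟨h2, h3⟩ := Phi_n_bd h ht.1 ht.2
    have h4 : -((a - a') * n t) ≤ s * |a - a'| := by
      have h5 : -((a - a') * n t) ≤ |a - a'| * n t := by
        rw [← neg_mul]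
        exact mul_le_mul_of_nonneg_right (neg_le_abs _) h2
      have h6 : |a - a'| * n t ≤ |a - a'| * s := mul_le_mul_of_nonneg_left h3 (abs_nonneg _)
      linarith
    simp only at h1 ⊢
    linarith
  rw [abs_sub_le_iff]
  refine ⟨?_, ?_⟩
  · have := key om om'
    linarith
  · have := key om' om
    rw [abs_sub_comm] at this
    linarith

end

end Pool.Agent.H63.TV
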