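import Pool.Agent.H63.TV.NeckA
import Pool.Agent.H63.TV.Calc
import Pool.Agent.H63.TV.NeckB1

/-!
# TV-28 (necessary conditions), TV-29 (fixed point), TV-30 (existence), TV-31 (neck_crit): critical points on a neck

`Hf A B e (z, x) = (Re (A z) + Re (B x.2) + e) / x.1`.  On the neck `x.1 > 0` since `n |u| ≤ 2 s < 1` for `|u| < 2`.
Fix `c`; `K_λ (u, v) = Re (A m̃ u) + Re (B c) - λ + n |u| (W · v̂) + e`, `m̃ u = (m |u|/|u|) u`, `v̂ = v / len v`, `W = (-λ, conj B)`,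
`W · v = W.1 v.1 + Re (conj W.2 v.2)`: the numerator of `Hf ∘ nk - λ`, since `W · x = - λ x.1 + Re (B x.2)`.
`(u, v)` is critical for `Hf ∘ nk` with value `λ` iff `K_λ` and its derivative vanish at `(u, v)`.
`Φ b ω` = maximum over `0 ≤ t ≤ 1` of `b m t - ω n t` (`b, ω ≥ 0`).  For `t > 0` the derivative is `n' t (b p t - ω)`, so for `b, ω > 0` there is
exactly one maximum point, with `p t = ω / b`, `0 < t < 1`; for `ω = 0`, `Φ = b r` (at `t = 1`); for `b = 0`, `ω > 0` the maximum is at `t = 0` only.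
`Φ b` is nonincreasing and `|Φ b ω - Φ b ω'| ≤ s |ω - ω'|` (`0 ≤ n t ≤ n 1 = s`).

`neck_nec`.  Let `(u, v)`, `len v = 1`, `|u| < 2` be critical with value `λ`, `ω = len W`, `b = |A|`.  Derivative in `v`: `W = (W · v) v`, so `W · v = - σ ω` with
`σ = 1` or `σ = -1`.  `u ≠ 0`: angular derivative: `Im (A u) = 0`, so `A u = ± b |u|`; radial derivative (`t = |u|`):
`n' t (± b p t + W · v) = 0`.  If `ω > 0` then the sign is `σ`, `b p t = ω`, so `b > 0`, `t < 1`, and `Re (A m̃ u) = σ b m t`.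
If `u = 0`: the derivative of `m̃` at `0` is `κ`, so `A = 0`; take `t = 0`.  In both cases (`ω > 0`)
`K_λ = 0` says `λ = Re (B c) + e + σ (b m t - ω n t) = Re (B c) + e + σ Φ b ω`.
If `ω = 0`: `λ = 0`, `B = 0`; if `u ≠ 0` then `b p t = 0`, so `b = 0` or `t ≥ 1`, and `K = 0` gives `± b r + e = 0`; if `u = 0`, `A = 0` and `e = 0`:
in all cases `B = 0` and `|e| = r b`, excluded by `hND`.

`lam_exists`: `λ ↦ Re (B c) + e + σ Φ b (√(λ² + |B|²))` is a contraction with constant `s < 1`: exactly one fixed point `λ_σ`.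
`ω_σ = √(λ_σ² + |B|²) > 0` by `hND` (otherwise `B = 0`, `λ_σ = 0 = e + σ b r`).
`neck_ex`: `v_σ = - σ W_σ / ω_σ`; `u_σ = σ t_σ conj A / b` if `b > 0`, `u_σ = 0` if `b = 0`; `(u_σ, v_σ)` is critical (all conditions above are
sufficient).  `σ = 1`: for all `(u, v)`: `K (u_σ, v) ≥ K (u_σ, v_σ) = 0` since `W · v̂ ≥ - ω`, and
`K (u, v_σ) ≤ 0` since `Re (A m̃ u) - ω n |u| ≤ b m |u| - ω n |u| ≤ Φ b ω` (also for `|u| > 1`, where `m = r` and `n` increases).  So
`P = {(0, b')}` (dimension 3) and `Q = {(a, t v_σ)}` (dimension 3; `K` does not depend on `len v`).  For `σ = -1` exchange `P` and `Q`.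
The two points are different: for `b > 0` the `u_σ` have opposite directions.  For `b = 0`: `λ_σ = Re (B c) + e - σ n 0 ω_σ`; if
`v_+ = v_-` then `- W_+ / ω_+` equals `W_- / ω_-`, so `B = 0` and `λ_+, λ_-` have opposite signs; but `λ_σ = e - σ n 0 |λ_σ|` has the sign of `e ≠ 0`
(`n 0 < 1`; `e ≠ 0` by `hND`).
`neck_crit`: general `y` with `y.2 ≠ 0`: `Hf (nk (u, t v)) = Hf (nk (u, v))`; use `crit_comp` with the linear map `(u, v) ↦ (u, t v)`.
-/

open scoped ContDiff ComplexConjugate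

namespace Pool.Agent.H63.TV

noncomputable section

private theorem NeckB2_key {F : ℂ × R3 → ℝ} {y : ℂ × R3} (hF : DifferentiableAt ℝ F y)
    (hc : Crit F y) {γ : ℝ → ℂ × R3} (hγ : DifferentiableAt ℝ γ 0) (h0 : γ 0 = y) {g k : ℝ → ℝ}
    (hg : DifferentiableAt ℝ g 0) {k' : ℝ} (hk : HasDerivAt k k' 0)
    (he : ∀ᶠ τ in nhds (0 : ℝ), k τ = (F (γ τ) - F y) * g τ) : k' = 0 := by
  subst h0
  have h1 : HasDerivAt (fun τ => F (γ τ)) (fderiv ℝ F (γ 0) (deriv γ 0)) 0 :=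
    hF.hasFDerivAt.comp_hasDerivAt 0 hγ.hasDerivAt
  have h2 : HasDerivAt (fun τ => F (γ τ)) 0 0 := by
    rw [show fderiv ℝ F (γ 0) = 0 from hc] at h1
    simpa using h1
  have h3 : HasDerivAt (fun τ => (F (γ τ) - F (γ 0)) * g τ) 0 0 := by
    have h4 := (h2.sub_const (F (γ 0))).mul hg.hasDerivAt
    exact h4.congr_deriv (by simp)
  exact hk.unique (h3.congr_of_eventuallyEq he)

private theorem NeckB2_bd {r s : ℝ} {m n p n' : ℝ → ℝ} (h : IsNeck r s m n p n')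
    (hs' : 2 * s < 1) {t : ℝ} (ht : 0 ≤ t) (ht2 : t < 2) : 0 < n t ∧ n t < 1 := by
  have h1 : n 0 ≤ n t := h.n_mono.monotoneOn (Set.mem_Ici.2 le_rfl) (Set.mem_Ici.2 ht) ht
  have h2 : n t < n 2 := h.n_mono (Set.mem_Ici.2 ht) (Set.mem_Ici.2 (by norm_num)) ht2
  have h3 := h.n_out 2 (by norm_num)
  have h4 := h.n_zero
  constructor <;> linarith

private theorem NeckB2_v1 {v : R3} (hv : len v = 1) : v.1 ^ 2 + ‖v.2‖ ^ 2 = 1 ∧ |v.1| ≤ 1 := by
  have h1 : v.1 ^ 2 + ‖v.2‖ ^ 2 = 1 := by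
    have h2 := Real.sq_sqrt (show 0 ≤ v.1 ^ 2 + ‖v.2‖ ^ 2 by positivity)
    have h3 : Real.sqrt (v.1 ^ 2 + ‖v.2‖ ^ 2) = 1 := hv
    rw [h3] at h2
    linarith
  refine ⟨h1, ?_⟩
  rw [← sq_le_one_iff_abs_le_one]
  nlinarith [sq_nonneg ‖v.2‖]

private theorem NeckB2_den {r s : ℝ} {m n p n' : ℝ → ℝ} (h : IsNeck r s m n p n')
    (hs' : 2 * s < 1) {t : ℝ} (ht : 0 ≤ t) (ht2 : t < 2) {v : R3} (hv : len v = 1) :
    0 < 1 + n t * v.1 := by
  obtain ⟨h1, h2⟩ := NeckB2_bd h hs' ht ht2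
  have h3 := abs_le.1 (NeckB2_v1 hv).2
  nlinarith [h3.1]

private theorem NeckB2_F (A B c : ℂ) (e lam : ℝ) (m n : ℝ → ℝ) (u : ℂ) (v : R3)
    (hv : len v ≠ 0) (hd : len v + n ‖u‖ * v.1 ≠ 0) :
    (Hf A B e (nk m n c (u, v)) - lam) * (len v + n ‖u‖ * v.1) =
      len v * ((A * (((m ‖u‖ / ‖u‖ : ℝ) : ℂ) * u)).re + (B * c).re + e - lam) +
        n ‖u‖ * (-lam * v.1 + (B * v.2).re) := by
  have h1 : (B * (c + ((n ‖u‖ / len v : ℝ) : ℂ) * v.2)).re =
      (B * c).re + n ‖u‖ / len v * (B * v.2).re := by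
    rw [mul_add, Complex.add_re, mul_left_comm, Complex.re_ofReal_mul]
  have hd' : 1 + n ‖u‖ / len v * v.1 ≠ 0 := by
    intro h0
    apply hd
    have h2 : len v * (1 + n ‖u‖ / len v * v.1) = len v + n ‖u‖ * v.1 := by
      field_simp
    rw [← h2, h0, mul_zero]
  have h3 : len v + n ‖u‖ * v.1 = len v * (1 + n ‖u‖ / len v * v.1) := by
    field_simp
  simp only [Hf, nk]
  rw [h1, sub_mul, h3, mul_left_comm, div_mul_cancel₀ _ hd']
  field_simp
  ring

private theorem NeckB2_diff {r s : ℝ} {m n p n' : ℝ → ℝ} (h : IsNeck r s m n p n')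
    (hs' : 2 * s < 1) (c A B : ℂ) (e : ℝ) {u : ℂ} {v : R3} (hu : ‖u‖ < 2) (hv : len v = 1) :
    DifferentiableAt ℝ (fun y => Hf A B e (nk m n c y)) (u, v) := by
  have hv0 : v ≠ 0 := by
    rintro rfl
    unfold len at hv
    simp at hv
  have hopen : IsOpen {y : ℂ × R3 | y.2 ≠ 0} := isOpen_ne_fun continuous_snd continuous_const
  have h1 : DifferentiableAt ℝ (nk m n c) (u, v) :=
    ((nk_smooth h c).contDiffAt (hopen.mem_nhds hv0)).differentiableAt (by simp)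
  have h2 : (nk m n c (u, v)).2.1 ≠ 0 := by
    have h3 := NeckB2_den h hs' (norm_nonneg u) hu hv
    simp only [nk]
    rw [hv, div_one]
    exact h3.ne'
  have h3 : DifferentiableAt ℝ (Hf A B e) (nk m n c (u, v)) := by
    have e1 : DifferentiableAt ℝ (fun y : ℂ × R3 => (A * y.1).re) (nk m n c (u, v)) :=
      (Complex.reCLM.differentiable.comp
        ((differentiable_const A).mul differentiable_fst)).differentiableAt
    have e2 : DifferentiableAt ℝ (fun y : ℂ × R3 => (B * y.2.2).re) (nk m n c (u, v)) :=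
      (Complex.reCLM.differentiable.comp
        ((differentiable_const B).mul (differentiable_snd.comp differentiable_snd))).differentiableAt
    have e3 : DifferentiableAt ℝ (fun y : ℂ × R3 => y.2.1) (nk m n c (u, v)) :=
      (differentiable_fst.comp differentiable_snd).differentiableAt
    have e4 : DifferentiableAt ℝ (fun y : ℂ × R3 => (y.2.1)⁻¹) (nk m n c (u, v)) := e3.inv h2
    have e5 := ((e1.add e2).add_const e).mul e4
    exact e5
  exact h3.comp (u, v) h1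

private theorem NeckB2_len (v w : R3) (hv : len v = 1) :
    HasDerivAt (fun τ : ℝ => len (v + τ • w)) (v.1 * w.1 + (conj v.2 * w.2).re) 0 := by
  have h1 : ∀ τ : ℝ, len (v + τ • w) = Real.sqrt (1 + 2 * (v.1 * w.1 + (conj v.2 * w.2).re) * τ +
      (w.1 ^ 2 + ‖w.2‖ ^ 2) * τ ^ 2) := by
    intro τ
    unfold len
    have h2 := (NeckB2_v1 hv).1
    congr 1
    rw [← h2, Complex.sq_norm, Complex.sq_norm, Complex.sq_norm, Complex.normSq_apply,
      Complex.normSq_apply, Complex.normSq_apply]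
    simp
    ring
  have h3 : HasDerivAt (fun τ : ℝ => 1 + 2 * (v.1 * w.1 + (conj v.2 * w.2).re) * τ +
      (w.1 ^ 2 + ‖w.2‖ ^ 2) * τ ^ 2) (2 * (v.1 * w.1 + (conj v.2 * w.2).re)) 0 := by
    have h4 := (((hasDerivAt_id (0 : ℝ)).const_mul
      (2 * (v.1 * w.1 + (conj v.2 * w.2).re))).const_add 1).add
      ((hasDerivAt_pow 2 (0 : ℝ)).const_mul (w.1 ^ 2 + ‖w.2‖ ^ 2))
    exact h4.congr_deriv (by simp)
  have h5 := h3.sqrt (by norm_num)
  refine (h5.congr_deriv ?_).congr_of_eventuallyEq (Filter.Eventually.of_forall h1)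
  simp

private theorem NeckB2_dirv {r s : ℝ} {m n p n' : ℝ → ℝ} (h : IsNeck r s m n p n')
    (hs' : 2 * s < 1) (c A B : ℂ) (e : ℝ) {u : ℂ} {v : R3} (hu : ‖u‖ < 2) (hv : len v = 1)
    (hc : Crit (fun y => Hf A B e (nk m n c y)) (u, v)) {lam : ℝ}
    (hlam : lam = Hf A B e (nk m n c (u, v)))
    (hK : (A * (((m ‖u‖ / ‖u‖ : ℝ) : ℂ) * u)).re + (B * c).re + e - lam +
      n ‖u‖ * (-lam * v.1 + (B * v.2).re) = 0) (w : R3) :
    -lam * w.1 + (B * w.2).re =
      (-lam * v.1 + (B * v.2).re) * (v.1 * w.1 + (conj v.2 * w.2).re) := by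
  have hF := NeckB2_diff h hs' c A B e hu hv
  have hn := (NeckB2_bd h hs' (norm_nonneg u) hu).1
  have hl := NeckB2_len v w hv
  set a0 : ℝ := (A * (((m ‖u‖ / ‖u‖ : ℝ) : ℂ) * u)).re + (B * c).re + e - lam with ha0
  have hγ : DifferentiableAt ℝ (fun τ : ℝ => ((u, v + τ • w) : ℂ × R3)) 0 := by fun_prop
  have hg : DifferentiableAt ℝ (fun τ : ℝ => len (v + τ • w) + n ‖u‖ * (v + τ • w).1) 0 := by
    refine hl.differentiableAt.add ?_
    refine DifferentiableAt.const_mul ?_ _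
    simp only [Prod.fst_add, Prod.smul_fst, smul_eq_mul]
    fun_prop
  have hk : HasDerivAt (fun τ : ℝ => len (v + τ • w) * a0 +
      n ‖u‖ * ((-lam * v.1 + (B * v.2).re) + τ * (-lam * w.1 + (B * w.2).re)))
      ((v.1 * w.1 + (conj v.2 * w.2).re) * a0 + n ‖u‖ * (-lam * w.1 + (B * w.2).re)) 0 := by
    have h1 := (hl.mul_const a0).add ((((hasDerivAt_id (0 : ℝ)).mul_const
      (-lam * w.1 + (B * w.2).re)).const_add (-lam * v.1 + (B * v.2).re)).const_mul (n ‖u‖))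
    exact h1.congr_deriv (by simp)
  have hz := NeckB2_key hF hc hγ (by simp) hg hk (by
    have c1 : ∀ᶠ τ in nhds (0 : ℝ), len (v + τ • w) ≠ 0 := by
      refine hl.continuousAt.eventually_ne ?_
      rw [zero_smul, add_zero, hv]
      exact one_ne_zero
    have c2 : ∀ᶠ τ in nhds (0 : ℝ), len (v + τ • w) + n ‖u‖ * (v + τ • w).1 ≠ 0 := by
      refine hg.continuousAt.eventually_ne ?_
      rw [zero_smul, add_zero, hv]
      exact (NeckB2_den h hs' (norm_nonneg u) hu hv).ne'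
    filter_upwards [c1, c2] with τ t1 t2
    rw [← hlam, NeckB2_F A B c e lam m n u (v + τ • w) t1 t2]
    have e1 : -lam * (v + τ • w).1 + (B * (v + τ • w).2).re =
        (-lam * v.1 + (B * v.2).re) + τ * (-lam * w.1 + (B * w.2).re) := by
      simp
      ring
    rw [e1])
  have hz2 : n ‖u‖ * ((-lam * w.1 + (B * w.2).re) - (-lam * v.1 + (B * v.2).re) *
      (v.1 * w.1 + (conj v.2 * w.2).re)) = 0 := by
    linear_combination hz - (v.1 * w.1 + (conj v.2 * w.2).re) * hK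
  rcases mul_eq_zero.1 hz2 with h0 | h0
  · exact absurd h0 hn.ne'
  · linarith

private theorem NeckB2_rad {r s : ℝ} {m n p n' : ℝ → ℝ} (h : IsNeck r s m n p n')
    (hs' : 2 * s < 1) (c A B : ℂ) (e : ℝ) {u : ℂ} {v : R3} (hu : ‖u‖ < 2) (hv : len v = 1)
    (hc : Crit (fun y => Hf A B e (nk m n c y)) (u, v)) {lam : ℝ}
    (hlam : lam = Hf A B e (nk m n c (u, v))) (hu0 : u ≠ 0) :
    (A * (u / (‖u‖ : ℂ))).re * p ‖u‖ + (-lam * v.1 + (B * v.2).re) = 0 := by
  have hF := NeckB2_diff h hs' c A B e hu hv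
  have ht : 0 < ‖u‖ := norm_pos_iff.2 hu0
  obtain ⟨t, htd⟩ : ∃ t : ℝ, t = ‖u‖ := ⟨_, rfl⟩
  rw [← htd] at ht ⊢
  obtain ⟨z, hz⟩ : ∃ z : ℂ, z = u / (t : ℂ) := ⟨_, rfl⟩
  rw [← hz]
  have htC : (t : ℂ) ≠ 0 := Complex.ofReal_ne_zero.2 ht.ne'
  have hzu : (t : ℂ) * z = u := by
    rw [hz]
    field_simp
  have hzn : ‖z‖ = 1 := by
    rw [hz, norm_div, Complex.norm_real, Real.norm_eq_abs, abs_of_pos ht, ← htd, div_self ht.ne']
  have hadd : HasDerivAt (fun τ : ℝ => t + τ) 1 0 := (hasDerivAt_id (0 : ℝ)).const_add t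
  have hm : HasDerivAt (fun τ : ℝ => m (t + τ)) (p t * n' t) 0 := by
    have h1 : HasDerivAt m (p t * n' t) (t + 0) := by
      rw [add_zero]
      exact h.dm t ht
    have h2 := HasDerivAt.comp (0 : ℝ) h1 hadd
    rw [mul_one] at h2
    exact h2
  have hn : HasDerivAt (fun τ : ℝ => n (t + τ)) (n' t) 0 := by
    have h1 : HasDerivAt n (n' t) (t + 0) := by
      rw [add_zero]
      exact h.dn t ht
    have h2 := HasDerivAt.comp (0 : ℝ) h1 hadd
    rw [mul_one] at h2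
    exact h2
  have hγ : DifferentiableAt ℝ (fun τ : ℝ => ((((t + τ : ℝ) : ℂ) * z, v) : ℂ × R3)) 0 := by
    refine DifferentiableAt.prodMk ?_ (differentiableAt_const _)
    refine DifferentiableAt.mul_const ?_ _
    exact hadd.ofReal_comp.differentiableAt
  have hg : DifferentiableAt ℝ (fun τ : ℝ => 1 + n (t + τ) * v.1) 0 :=
    (hn.differentiableAt.mul_const _).const_add _
  have hk : HasDerivAt (fun τ : ℝ => (m (t + τ) * (A * z).re + ((B * c).re + e - lam)) +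
      n (t + τ) * (-lam * v.1 + (B * v.2).re))
      (p t * n' t * (A * z).re + n' t * (-lam * v.1 + (B * v.2).re)) 0 :=
    ((hm.mul_const _).add_const _).add (hn.mul_const _)
  have h0 := NeckB2_key hF hc hγ (by simp [hzu]) hg hk (by
    have c1 : ∀ᶠ τ in nhds (0 : ℝ), 0 < t + τ := by
      refine hadd.continuousAt.eventually (lt_mem_nhds ?_)
      show 0 < t + 0
      rw [add_zero]
      exact ht
    have c2 : ∀ᶠ τ in nhds (0 : ℝ), 1 + n (t + τ) * v.1 ≠ 0 := by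
      refine hg.continuousAt.eventually_ne ?_
      rw [add_zero, htd]
      exact (NeckB2_den h hs' (norm_nonneg u) hu hv).ne'
    filter_upwards [c1, c2] with τ t1 t2
    have e1 : ‖((t + τ : ℝ) : ℂ) * z‖ = t + τ := by
      rw [norm_mul, hzn, mul_one, Complex.norm_real, Real.norm_eq_abs, abs_of_pos t1]
    have e2 := NeckB2_F A B c e lam m n (((t + τ : ℝ) : ℂ) * z) v (by rw [hv]; exact one_ne_zero)
      (by rw [hv, e1]; exact t2)
    rw [hv, e1] at e2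
    rw [← hlam, e2]
    have e3 : (A * (((m (t + τ) / (t + τ) : ℝ) : ℂ) * (((t + τ : ℝ) : ℂ) * z))).re =
        m (t + τ) * (A * z).re := by
      rw [← mul_assoc ((m (t + τ) / (t + τ) : ℝ) : ℂ), ← Complex.ofReal_mul,
        div_mul_cancel₀ _ t1.ne', mul_left_comm, Complex.re_ofReal_mul]
    rw [e3]
    ring)
  have hn' : n' t ≠ 0 := (h.n'_pos t ht).ne'
  have h1 : n' t * ((A * z).re * p t + (-lam * v.1 + (B * v.2).re)) = 0 := by
    linear_combination h0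
  exact (mul_eq_zero.1 h1).resolve_left hn'

private theorem NeckB2_mpos {r s : ℝ} {m n p n' : ℝ → ℝ} (h : IsNeck r s m n p n') (hr : 0 < r)
    {t : ℝ} (ht : 0 < t) : 0 < m t := by
  rcases le_or_gt t 1 with h1 | h1
  · have h2 := h.m_mono (Set.mem_Icc.2 ⟨le_rfl, zero_le_one⟩) (Set.mem_Icc.2 ⟨ht.le, h1⟩) ht
    rw [h.m_zero] at h2
    exact h2
  · rw [h.m_out t h1.le]
    exact hr

private theorem NeckB2_ang {r s : ℝ} {m n p n' : ℝ → ℝ} (h : IsNeck r s m n p n') (hr : 0 < r)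
    (hs' : 2 * s < 1) (c A B : ℂ) (e : ℝ) {u : ℂ} {v : R3} (hu : ‖u‖ < 2) (hv : len v = 1)
    (hc : Crit (fun y => Hf A B e (nk m n c y)) (u, v)) {lam : ℝ}
    (hlam : lam = Hf A B e (nk m n c (u, v))) (hu0 : u ≠ 0) : (A * u).im = 0 := by
  have hF := NeckB2_diff h hs' c A B e hu hv
  have ht : 0 < ‖u‖ := norm_pos_iff.2 hu0
  have hγ : DifferentiableAt ℝ (fun τ : ℝ => ((Complex.exp ((τ : ℂ) * Complex.I) * u, v) : ℂ × R3))
      0 := by
    refine DifferentiableAt.prodMk ?_ (differentiableAt_const _)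
    refine DifferentiableAt.mul_const ?_ _
    refine DifferentiableAt.cexp ?_
    refine DifferentiableAt.mul_const ?_ _
    exact (hasDerivAt_id (0 : ℝ)).ofReal_comp.differentiableAt
  have hg : DifferentiableAt ℝ (fun _ : ℝ => 1 + n ‖u‖ * v.1) 0 := differentiableAt_const _
  obtain ⟨q, hq⟩ : ∃ q : ℝ, q = (B * c).re + e - lam + n ‖u‖ * (-lam * v.1 + (B * v.2).re) :=
    ⟨_, rfl⟩
  have hk : HasDerivAt (fun τ : ℝ => m ‖u‖ / ‖u‖ * (Real.cos τ * (A * u).re -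
      Real.sin τ * (A * u).im) + q) (m ‖u‖ / ‖u‖ * (-(A * u).im)) 0 := by
    have h1 := ((((Real.hasDerivAt_cos 0).mul_const (A * u).re).sub
      ((Real.hasDerivAt_sin 0).mul_const (A * u).im)).const_mul (m ‖u‖ / ‖u‖)).add_const q
    simpa using h1
  have h0 := NeckB2_key hF hc hγ (by simp) hg hk (by
    refine Filter.Eventually.of_forall ?_
    intro τ
    have e1 : ‖Complex.exp ((τ : ℂ) * Complex.I) * u‖ = ‖u‖ := by
      rw [norm_mul, Complex.norm_exp_ofReal_mul_I, one_mul]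
    have e2 := NeckB2_F A B c e lam m n (Complex.exp ((τ : ℂ) * Complex.I) * u) v
      (by rw [hv]; exact one_ne_zero)
      (by rw [hv, e1]; exact (NeckB2_den h hs' (norm_nonneg u) hu hv).ne')
    rw [hv, e1] at e2
    rw [← hlam, e2]
    have e3 : (A * (((m ‖u‖ / ‖u‖ : ℝ) : ℂ) * (Complex.exp ((τ : ℂ) * Complex.I) * u))).re =
        m ‖u‖ / ‖u‖ * (Real.cos τ * (A * u).re - Real.sin τ * (A * u).im) := by
      rw [mul_left_comm, Complex.re_ofReal_mul, mul_left_comm A, Complex.mul_re,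
        Complex.exp_ofReal_mul_I_re, Complex.exp_ofReal_mul_I_im]
    rw [e3, hq]
    ring)
  have h1 : m ‖u‖ / ‖u‖ ≠ 0 := (div_pos (NeckB2_mpos h hr ht) ht).ne'
  have h2 := (mul_eq_zero.1 h0).resolve_left h1
  linarith

private theorem NeckB2_zero {r s : ℝ} {m n p n' : ℝ → ℝ} (h : IsNeck r s m n p n')
    (hs' : 2 * s < 1) (c A B : ℂ) (e : ℝ) {v : R3} (hv : len v = 1)
    (hc : Crit (fun y => Hf A B e (nk m n c y)) (0, v)) : A = 0 := by
  obtain ⟨κ, κ', hκ, hκ', hnear⟩ := h.near0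
  have hu : ‖(0 : ℂ)‖ < 2 := by simp
  have hF := NeckB2_diff h hs' c A B e hu hv
  obtain ⟨lam, hlam⟩ : ∃ lam : ℝ, lam = Hf A B e (nk m n c (0, v)) := ⟨_, rfl⟩
  have hγ : DifferentiableAt ℝ (fun τ : ℝ => (((τ : ℂ) * conj A, v) : ℂ × R3)) 0 := by
    refine DifferentiableAt.prodMk ?_ (differentiableAt_const _)
    refine DifferentiableAt.mul_const ?_ _
    exact (hasDerivAt_id (0 : ℝ)).ofReal_comp.differentiableAt
  have hpoly : HasDerivAt (fun τ : ℝ => n 0 + κ' * ‖A‖ ^ 2 * τ ^ 2) 0 0 := by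
    have h1 := ((hasDerivAt_pow 2 (0 : ℝ)).const_mul (κ' * ‖A‖ ^ 2)).const_add (n 0)
    simpa using h1
  have hg : DifferentiableAt ℝ (fun τ : ℝ => 1 + (n 0 + κ' * ‖A‖ ^ 2 * τ ^ 2) * v.1) 0 :=
    (hpoly.differentiableAt.mul_const _).const_add _
  have hk : HasDerivAt (fun τ : ℝ => (τ * (κ * ‖A‖ ^ 2) + ((B * c).re + e - lam)) +
      (n 0 + κ' * ‖A‖ ^ 2 * τ ^ 2) * (-lam * v.1 + (B * v.2).re)) (κ * ‖A‖ ^ 2) 0 := by
    have h1 := (((hasDerivAt_id (0 : ℝ)).mul_const (κ * ‖A‖ ^ 2)).add_const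
      ((B * c).re + e - lam)).add (hpoly.mul_const (-lam * v.1 + (B * v.2).re))
    exact h1.congr_deriv (by simp)
  have h0 := NeckB2_key hF hc hγ (by simp) hg hk (by
    have c1 : ∀ᶠ τ in nhds (0 : ℝ), |τ| * ‖A‖ < 1 / 2 := by
      have h1 : ContinuousAt (fun τ : ℝ => |τ| * ‖A‖) 0 := by fun_prop
      refine h1.eventually (gt_mem_nhds ?_)
      norm_num
    have c2 : ∀ᶠ τ in nhds (0 : ℝ), 1 + (n 0 + κ' * ‖A‖ ^ 2 * τ ^ 2) * v.1 ≠ 0 := by
      refine hg.continuousAt.eventually_ne ?_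
      have h1 := (NeckB2_den h hs' le_rfl (by norm_num : (0 : ℝ) < 2) hv).ne'
      simpa using h1
    filter_upwards [c1, c2] with τ t1 t2
    have e1 : ‖(τ : ℂ) * conj A‖ = |τ| * ‖A‖ := by
      rw [norm_mul, Complex.norm_real, Real.norm_eq_abs, RCLike.norm_conj]
    have e0 := hnear (|τ| * ‖A‖) (by positivity) t1.le
    have en : n (|τ| * ‖A‖) = n 0 + κ' * ‖A‖ ^ 2 * τ ^ 2 := by
      rw [e0.2, mul_pow, sq_abs]
      ring
    have e2 := NeckB2_F A B c e lam m n ((τ : ℂ) * conj A) v (by rw [hv]; exact one_ne_zero)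
      (by rw [hv, e1, en]; exact t2)
    rw [hv, e1, en, e0.1] at e2
    rw [← hlam, e2]
    have e3 : (A * (((κ * (|τ| * ‖A‖) / (|τ| * ‖A‖) : ℝ) : ℂ) * ((τ : ℂ) * conj A))).re =
        τ * (κ * ‖A‖ ^ 2) := by
      by_cases hz : |τ| * ‖A‖ = 0
      · have h2 : τ = 0 ∨ ‖A‖ = 0 := by
          rcases mul_eq_zero.1 hz with h3 | h3
          · exact Or.inl (abs_eq_zero.1 h3)
          · exact Or.inr h3
        rcases h2 with h2 | h2
        · rw [h2]
          simp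
        · rw [h2, norm_eq_zero.1 h2]
          simp
      · rw [mul_div_assoc, div_self hz, mul_one, mul_left_comm, Complex.re_ofReal_mul,
          mul_left_comm, Complex.re_ofReal_mul, Complex.mul_conj, Complex.ofReal_re,
          Complex.normSq_eq_norm_sq]
        ring
    rw [e3]
    ring)
  have h1 := (mul_eq_zero.1 h0).resolve_left hκ.ne'
  exact norm_eq_zero.1 (by simpa using h1)

theorem neck_nec {r s : ℝ} {m n p n' : ℝ → ℝ} (h : IsNeck r s m n p n') (hr : 0 < r) (hs : 0 < s)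
    (hs' : 2 * s < 1) (c A B : ℂ) (e : ℝ) (hND : ¬ (B = 0 ∧ |e| = r * ‖A‖)) {u : ℂ} {v : R3}
    (hu : ‖u‖ < 2) (hv : len v = 1) (hc : Crit (fun y => Hf A B e (nk m n c y)) (u, v)) :
    ∃ (σ lam : ℝ), (σ = 1 ∨ σ = -1) ∧
      lam = (B * c).re + e + σ * Phi m n ‖A‖ (Real.sqrt (lam ^ 2 + ‖B‖ ^ 2)) ∧
      0 < Real.sqrt (lam ^ 2 + ‖B‖ ^ 2) ∧
      (-lam, conj B) = (-σ * Real.sqrt (lam ^ 2 + ‖B‖ ^ 2)) • v ∧
      A * u = ((σ * ‖A‖ * ‖u‖ : ℝ) : ℂ) ∧
      (‖A‖ = 0 → u = 0) ∧ (0 < ‖A‖ → 0 < ‖u‖ ∧ ‖u‖ < 1 ∧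
        ‖A‖ * p ‖u‖ = Real.sqrt (lam ^ 2 + ‖B‖ ^ 2)) := by
  obtain ⟨lam, hlam⟩ : ∃ lam : ℝ, lam = Hf A B e (nk m n c (u, v)) := ⟨_, rfl⟩
  obtain ⟨q, hq⟩ : ∃ q : ℝ, q = -lam * v.1 + (B * v.2).re := ⟨_, rfl⟩
  have hK : (A * (((m ‖u‖ / ‖u‖ : ℝ) : ℂ) * u)).re + (B * c).re + e - lam +
      n ‖u‖ * (-lam * v.1 + (B * v.2).re) = 0 := by
    have h1 := NeckB2_F A B c e lam m n u v (by rw [hv]; exact one_ne_zero)
      (by rw [hv]; exact (NeckB2_den h hs' (norm_nonneg u) hu hv).ne')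
    rw [← hlam, sub_self, zero_mul, hv, one_mul] at h1
    exact h1.symm
  have hdv := NeckB2_dirv h hs' c A B e hu hv hc hlam hK
  rw [← hq] at hK hdv
  have hW1 : -lam = q * v.1 := by
    have h1 := hdv (1, 0)
    simpa using h1
  have hW2 : conj B = (q : ℂ) * v.2 := by
    have h1 := hdv (0, 1)
    have h2 := hdv (0, Complex.I)
    apply Complex.ext
    · simpa using h1
    · simpa using h2
  have hW : ((-lam, conj B) : R3) = q • v := by
    refine Prod.ext ?_ ?_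
    · simpa using hW1
    · rw [Prod.smul_snd, Complex.real_smul]
      exact hW2
  have hsq : lam ^ 2 + ‖B‖ ^ 2 = q ^ 2 := by
    have h1 : ‖B‖ = |q| * ‖v.2‖ := by
      rw [← RCLike.norm_conj B, hW2, norm_mul, Complex.norm_real, Real.norm_eq_abs]
    have h2 : lam = -(q * v.1) := by linarith
    have h3 := (NeckB2_v1 hv).1
    rw [h1, h2, mul_pow, sq_abs]
    linear_combination q ^ 2 * h3
  have hom : Real.sqrt (lam ^ 2 + ‖B‖ ^ 2) = |q| := by
    rw [hsq, Real.sqrt_sq_eq_abs]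
  -- the point `u`
  have hrad : u ≠ 0 → (A * (u / (‖u‖ : ℂ))).re * p ‖u‖ + q = 0 := by
    intro hu0
    have h1 := NeckB2_rad h hs' c A B e hu hv hc hlam hu0
    rw [← hq] at h1
    exact h1
  have hmt : u ≠ 0 → (A * (((m ‖u‖ / ‖u‖ : ℝ) : ℂ) * u)).re =
      m ‖u‖ * (A * (u / (‖u‖ : ℂ))).re := by
    intro hu0
    have h1 : ((m ‖u‖ / ‖u‖ : ℝ) : ℂ) * u = ((m ‖u‖ : ℝ) : ℂ) * (u / (‖u‖ : ℂ)) := by
      rw [Complex.ofReal_div]
      ring
    rw [h1, mul_left_comm, Complex.re_ofReal_mul]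
  have hreal : u ≠ 0 → A * (u / (‖u‖ : ℂ)) = (((A * (u / (‖u‖ : ℂ))).re : ℝ) : ℂ) := by
    intro hu0
    have h1 := NeckB2_ang h hr hs' c A B e hu hv hc hlam hu0
    apply Complex.ext
    · simp
    · rw [Complex.ofReal_im, ← mul_div_assoc]
      have h2 : (A * u / (‖u‖ : ℂ)).im = (A * u).im / ‖u‖ := Complex.div_ofReal_im _ _
      rw [h2, h1, zero_div]
  have habs : u ≠ 0 → |(A * (u / (‖u‖ : ℂ))).re| = ‖A‖ := by
    intro hu0
    have h1 : ‖A * (u / (‖u‖ : ℂ))‖ = ‖A‖ := by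
      rw [norm_mul, norm_div, Complex.norm_real, norm_norm, div_self (norm_ne_zero_iff.2 hu0),
        mul_one]
    rw [hreal hu0, Complex.norm_real, Real.norm_eq_abs] at h1
    exact h1
  have hppos : ∀ t : ℝ, 0 < t → t < 1 → 0 < p t := by
    intro t ht0 ht1
    have h1 := h.p_anti (Set.mem_Ioc.2 ⟨ht0, ht1.le⟩) (Set.mem_Ioc.2 ⟨zero_lt_one, le_rfl⟩) ht1
    rw [h.p_out 1 le_rfl] at h1
    exact h1
  have hq0 : q ≠ 0 := by
    intro hq0
    apply hND
    have hB : B = 0 := by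
      rw [hq0] at hsq
      have h2 : ‖B‖ = 0 := by nlinarith [sq_nonneg lam, sq_nonneg ‖B‖]
      exact norm_eq_zero.1 h2
    have hl0 : lam = 0 := by
      rw [hq0] at hW1
      linarith
    refine ⟨hB, ?_⟩
    rw [hB, hl0, hq0] at hK
    by_cases hu0 : u = 0
    · have hA : A = 0 := by
        rw [hu0] at hc
        exact NeckB2_zero h hs' c A B e hv hc
      rw [hA] at hK ⊢
      have h3 : e = 0 := by simpa using hK
      rw [h3]
      simp
    · have h1 := hrad hu0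
      rw [hq0, add_zero] at h1
      rw [hmt hu0] at hK
      have hK' : m ‖u‖ * (A * (u / (‖u‖ : ℂ))).re + e = 0 := by simpa using hK
      rcases le_or_gt 1 ‖u‖ with h2 | h2
      · rw [h.m_out _ h2] at hK'
        have h3 : e = -(r * (A * (u / (‖u‖ : ℂ))).re) := by linarith
        rw [h3, abs_neg, abs_mul, abs_of_pos hr, habs hu0]
      · have h3 := (mul_eq_zero.1 h1).resolve_right (hppos _ (norm_pos_iff.2 hu0) h2).ne'
        have h4 := habs hu0
        rw [h3, abs_zero] at h4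
        rw [h3, mul_zero, zero_add] at hK'
        rw [hK', ← h4]
        simp
  have hompos : 0 < Real.sqrt (lam ^ 2 + ‖B‖ ^ 2) := by
    rw [hom]
    exact abs_pos.2 hq0
  obtain ⟨σ, hσ, hσq⟩ : ∃ σ : ℝ, (σ = 1 ∨ σ = -1) ∧ q = -σ * |q| := by
    rcases lt_or_gt_of_ne hq0 with h1 | h1
    · exact ⟨1, Or.inl rfl, by rw [abs_of_neg h1]; ring⟩
    · exact ⟨-1, Or.inr rfl, by rw [abs_of_pos h1]; ring⟩
  have hσσ : σ * σ = 1 := by
    rcases hσ with h1 | h1 <;> rw [h1] <;> norm_num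
  have hA0 : ‖A‖ = 0 → u = 0 := by
    intro hA
    by_contra hu0
    have h1 := hrad hu0
    rw [norm_eq_zero.1 hA] at h1
    exact hq0 (by simpa using h1)
  have hApos : 0 < ‖A‖ → 0 < ‖u‖ ∧ ‖u‖ < 1 ∧ ‖A‖ * p ‖u‖ = |q| ∧
      (A * (u / (‖u‖ : ℂ))).re = σ * ‖A‖ := by
    intro hA
    have hu0 : u ≠ 0 := by
      intro hu0
      rw [hu0] at hc
      have h1 := NeckB2_zero h hs' c A B e hv hc
      rw [h1, norm_zero] at hA
      exact lt_irrefl _ hA
    have ht := norm_pos_iff.2 hu0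
    have h1 := hrad hu0
    have h2 : ‖u‖ < 1 := by
      by_contra hcon
      rw [h.p_out _ (not_lt.1 hcon), mul_zero, zero_add] at h1
      exact hq0 h1
    have h3 := hppos _ ht h2
    have h4 := habs hu0
    have h5 : (A * (u / (‖u‖ : ℂ))).re * p ‖u‖ = σ * |q| := by linarith
    have h6 : |(A * (u / (‖u‖ : ℂ))).re| * p ‖u‖ = |q| := by
      have h7 := congrArg abs h5
      rw [abs_mul, abs_of_pos h3, abs_mul, abs_abs] at h7
      have h8 : |σ| = 1 := by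
        rcases hσ with h9 | h9 <;> rw [h9] <;> norm_num
      rw [h8, one_mul] at h7
      exact h7
    rw [h4] at h6
    refine ⟨ht, h2, h6, ?_⟩
    have h7 : ((A * (u / (‖u‖ : ℂ))).re - σ * ‖A‖) * p ‖u‖ = 0 := by
      rw [sub_mul, h5, mul_assoc, h6, sub_self]
    have h8 := (mul_eq_zero.1 h7).resolve_right h3.ne'
    linarith
  refine ⟨σ, lam, hσ, ?_, hompos, ?_, ?_, hA0, ?_⟩
  · rw [hom]
    obtain ⟨t, ht0, ht1, htb, htp, hPhi, -⟩ := Phi_spec h hr hs (norm_nonneg A) (abs_pos.2 hq0)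
    rw [hPhi]
    rcases eq_or_lt_of_le (norm_nonneg A) with hA | hA
    · have hu0 := hA0 hA.symm
      have hA' : A = 0 := norm_eq_zero.1 hA.symm
      have ht : t = 0 := by
        by_contra hne
        have h1 := htb.1 (lt_of_le_of_ne ht0 (Ne.symm hne))
        rw [← hA] at h1
        exact lt_irrefl _ h1
      rw [hu0, norm_zero, hA'] at hK
      have hK' : (B * c).re + e - lam + n 0 * q = 0 := by simpa using hK
      rw [ht, ← hA]
      linear_combination -hK' + n 0 * hσq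
    · obtain ⟨h1, h2, h3, h4⟩ := hApos hA
      have hu0 : u ≠ 0 := norm_pos_iff.1 h1
      have htu : t = ‖u‖ := by
        have h5 := htp hA
        have h6 : p t = p ‖u‖ := by
          have h7 : ‖A‖ * p t = ‖A‖ * p ‖u‖ := by rw [h5, h3]
          exact mul_left_cancel₀ hA.ne' h7
        exact h.p_anti.injOn (Set.mem_Ioc.2 ⟨htb.2 hA, ht1.le⟩) (Set.mem_Ioc.2 ⟨h1, h2.le⟩) h6
      rw [hmt hu0, h4] at hK
      rw [htu]
      linear_combination -hK + n ‖u‖ * hσq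
  · rw [hom, ← hσq]
    exact hW
  · rcases eq_or_lt_of_le (norm_nonneg A) with hA | hA
    · rw [hA0 hA.symm]
      simp
    · obtain ⟨h1, h2, h3, h4⟩ := hApos hA
      have hu0 : u ≠ 0 := norm_pos_iff.1 h1
      have h5 := hreal hu0
      rw [h4] at h5
      have htC : (‖u‖ : ℂ) ≠ 0 := Complex.ofReal_ne_zero.2 h1.ne'
      rw [← mul_div_assoc, div_eq_iff htC, ← Complex.ofReal_mul] at h5
      exact h5
  · intro hA
    obtain ⟨h1, h2, h3, h4⟩ := hApos hA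
    rw [hom]
    exact ⟨h1, h2, h3⟩

end

end Pool.Agent.H63.TV
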