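import Pool.Agent.H63.TV.NeckA
import Pool.Agent.H63.TV.Calc
import Pool.Agent.H63.TV.NeckB1

/-!
# TV-28 (necessary conditions), TV-29 (fixed point), TV-30 (existence), TV-31 (neck_crit): critical points on a neck

`Hf A B e (z, x) = (Re (A z) + Re (B x.2) + e) / x.1`.  On the neck `x.1 > 0` since `n |u| ≤ 2 s < 1` for `|u| < 2`.
Fix `c`; `K_λ (u, v) = Re (A m̃ u) + Re (B c) - λ + n |u| (W · v̂) + e`, `m̃ u = (m |u|/|u|) u`, `v̂ = v / len v`, `W = (-λ, conj B)`,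
`W · v = W.1 v.1 + Re (conj W.2 v.2)`: the numerator of `Hf ∘ nk - λ`, since `W · x = - λ x.1 + Re (B x.2)`.
`(u, v)` is critical for `Hf ∘ nk` with value `λ` iff `K_λ` and its derivative vanish at `(u, v)`.
`Φ b ω` = maximum over `0 ≤ t ≤ 1` of `b m t - ω n t` (`b, ω ≥ 0`).  For `t > 0` the derivative is `n' t (b p t - ω)`, so for `b, ω > 0` there is
exactly one maximum point, with `p t = ω / b`, `0 < t < 1`; for `ω = 0`, `Φ = b r` (at `t = 1`); for `b = 0`, `ω > 0` the maximum is at `t = 0` only.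
`Φ b` is nonincreasing and `|Φ b ω - Φ b ω'| ≤ s |ω - ω'|` (`0 ≤ n t ≤ n 1 = s`).

`neck_nec`.  Let `(u, v)`, `len v = 1`, `|u| < 2` be critical with value `λ`, `ω = len W`, `b = |A|`.  Derivative in `v`: `W = (W · v) v`, so `W · v = - σ ω` with
`σ = 1` or `σ = -1`.  `u ≠ 0`: angular derivative: `Im (A u) = 0`, so `A u = ± b |u|`; radial derivative (`t = |u|`):
`n' t (± b p t + W · v) = 0`.  If `ω > 0` then the sign is `σ`, `b p t = ω`, so `b > 0`, `t < 1`, and `Re (A m̃ u) = σ b m t`.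
If `u = 0`: the derivative of `m̃` at `0` is `κ`, so `A = 0`; take `t = 0`.  In both cases (`ω > 0`)
`K_λ = 0` says `λ = Re (B c) + e + σ (b m t - ω n t) = Re (B c) + e + σ Φ b ω`.
If `ω = 0`: `λ = 0`, `B = 0`; if `u ≠ 0` then `b p t = 0`, so `b = 0` or `t ≥ 1`, and `K = 0` gives `± b r + e = 0`; if `u = 0`, `A = 0` and `e = 0`:
in all cases `B = 0` and `|e| = r b`, excluded by `hND`.

`lam_exists`: `λ ↦ Re (B c) + e + σ Φ b (√(λ² + |B|²))` is a contraction with constant `s < 1`: exactly one fixed point `λ_σ`.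
`ω_σ = √(λ_σ² + |B|²) > 0` by `hND` (otherwise `B = 0`, `λ_σ = 0 = e + σ b r`).
`neck_ex`: `v_σ = - σ W_σ / ω_σ`; `u_σ = σ t_σ conj A / b` if `b > 0`, `u_σ = 0` if `b = 0`; `(u_σ, v_σ)` is critical (all conditions above are
sufficient).  `σ = 1`: for all `(u, v)`: `K (u_σ, v) ≥ K (u_σ, v_σ) = 0` since `W · v̂ ≥ - ω`, and
`K (u, v_σ) ≤ 0` since `Re (A m̃ u) - ω n |u| ≤ b m |u| - ω n |u| ≤ Φ b ω` (also for `|u| > 1`, where `m = r` and `n` increases).  So
`P = {(0, b')}` (dimension 3) and `Q = {(a, t v_σ)}` (dimension 3; `K` does not depend on `len v`).  For `σ = -1` exchange `P` and `Q`.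
The two points are different: for `b > 0` the `u_σ` have opposite directions.  For `b = 0`: `λ_σ = Re (B c) + e - σ n 0 ω_σ`; if
`v_+ = v_-` then `- W_+ / ω_+` equals `W_- / ω_-`, so `B = 0` and `λ_+, λ_-` have opposite signs; but `λ_σ = e - σ n 0 |λ_σ|` has the sign of `e ≠ 0`
(`n 0 < 1`; `e ≠ 0` by `hND`).
`neck_crit`: general `y` with `y.2 ≠ 0`: `Hf (nk (u, t v)) = Hf (nk (u, v))`; use `crit_comp` with the linear map `(u, v) ↦ (u, t v)`.
-/

open scoped ContDiff ComplexConjugate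

namespace Pool.Agent.H63.TV

noncomputable section

theorem lam_exists {r s : ℝ} {m n p n' : ℝ → ℝ} (h : IsNeck r s m n p n') (hr : 0 < r) (hs : 0 < s)
    (hs' : 2 * s < 1) (a b : ℝ) (hb : 0 ≤ b) (d : ℝ) (σ : ℝ) (hσ : σ = 1 ∨ σ = -1) :
    ∃! lam : ℝ, lam = a + σ * Phi m n b (Real.sqrt (lam ^ 2 + d ^ 2)) := by
  have key : ∀ x y : ℝ, |Real.sqrt (x ^ 2 + d ^ 2) - Real.sqrt (y ^ 2 + d ^ 2)| ≤ |x - y| := by
    intro x y
    have h1 : ∀ z : ℝ, Real.sqrt (z ^ 2 + d ^ 2) = ‖(⟨z, d⟩ : ℂ)‖ := by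
      intro z
      rw [Complex.norm_eq_sqrt_sq_add_sq]
    rw [h1, h1]
    refine (abs_norm_sub_norm_le _ _).trans ?_
    have h2 : (⟨x, d⟩ : ℂ) - ⟨y, d⟩ = ((x - y : ℝ) : ℂ) := by
      apply Complex.ext <;> simp
    rw [h2, Complex.norm_real]
    exact le_refl _
  have hσ1 : |σ| = 1 := by
    rcases hσ with h1 | h1 <;> rw [h1] <;> simp
  let f : ℝ → ℝ := fun lam => a + σ * Phi m n b (Real.sqrt (lam ^ 2 + d ^ 2))
  have hf : ∀ lam, f lam = a + σ * Phi m n b (Real.sqrt (lam ^ 2 + d ^ 2)) := fun _ => rfl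
  have hlip : LipschitzWith ⟨s, hs.le⟩ f := by
    apply LipschitzWith.of_dist_le_mul
    intro x y
    rw [Real.dist_eq, Real.dist_eq, hf, hf]
    have h3 : a + σ * Phi m n b (Real.sqrt (x ^ 2 + d ^ 2)) -
        (a + σ * Phi m n b (Real.sqrt (y ^ 2 + d ^ 2))) =
        σ * (Phi m n b (Real.sqrt (x ^ 2 + d ^ 2)) - Phi m n b (Real.sqrt (y ^ 2 + d ^ 2))) := by
      ring
    rw [h3, abs_mul, hσ1, one_mul]
    have h4 := Phi_lip h hr hs hb (Real.sqrt_nonneg (x ^ 2 + d ^ 2)) (Real.sqrt_nonneg (y ^ 2 + d ^ 2))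
    refine h4.trans ?_
    exact mul_le_mul_of_nonneg_left (key x y) hs.le
  have hcon : ContractingWith ⟨s, hs.le⟩ f := by
    refine ⟨?_, hlip⟩
    have : s < 1 := by linarith
    exact_mod_cast this
  refine ⟨ContractingWith.fixedPoint f hcon, ?_, ?_⟩
  · have h5 := hcon.fixedPoint_isFixedPt
    exact h5.symm
  · intro y hy
    exact hcon.fixedPoint_unique (x := y) hy.symm

end

end Pool.Agent.H63.TV
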