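import Pool.Agent.H63.TV.NeckA
import Pool.Agent.H63.TV.Calc
import Pool.Agent.H63.TV.NeckB1

/-!
# TV-28 (necessary conditions), TV-29 (fixed point), TV-30 (existence), TV-31 (neck_crit): critical points on a neck

`Hf A B e (z, x) = (Re (A z) + Re (B x.2) + e) / x.1`.  On the neck `x.1 > 0` since `n |u| ≤ 2 s < 1` for `|u| < 2`.
Fix `c`; `K_λ (u, v) = Re (A m̃ u) + Re (B c) - λ + n |u| (W · v̂) + e`, `m̃ u = (m |u|/|u|) u`, `v̂ = v / len v`, `W = (-λ, conj B)`,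
`W · v = W.1 v.1 + Re (conj W.2 v.2)`: the numerator of `Hf ∘ nk - λ`, since `W · x = - λ x.1 + Re (B x.2)`.
`(u, v)` is critical for `Hf ∘ nk` with value `λ` iff `K_λ` and its derivative vanish at `(u, v)`.
`Φ b ω` = maximum over `0 ≤ t ≤ 1` of `b m t - ω n t` (`b, ω ≥ 0`).  For `t > 0` the derivative is `n' t (b p t - ω)`, so for `b, ω > 0` there is
exactly one maximum point, with `p t = ω / b`, `0 < t < 1`; for `ω = 0`, `Φ = b r` (at `t = 1`); for `b = 0`, `ω > 0` the maximum is at `t = 0` only.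
`Φ b` is nonincreasing and `|Φ b ω - Φ b ω'| ≤ s |ω - ω'|` (`0 ≤ n t ≤ n 1 = s`).

`neck_nec`.  Let `(u, v)`, `len v = 1`, `|u| < 2` be critical with value `λ`, `ω = len W`, `b = |A|`.  Derivative in `v`: `W = (W · v) v`, so `W · v = - σ ω` with
`σ = 1` or `σ = -1`.  `u ≠ 0`: angular derivative: `Im (A u) = 0`, so `A u = ± b |u|`; radial derivative (`t = |u|`):
`n' t (± b p t + W · v) = 0`.  If `ω > 0` then the sign is `σ`, `b p t = ω`, so `b > 0`, `t < 1`, and `Re (A m̃ u) = σ b m t`.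
If `u = 0`: the derivative of `m̃` at `0` is `κ`, so `A = 0`; take `t = 0`.  In both cases (`ω > 0`)
`K_λ = 0` says `λ = Re (B c) + e + σ (b m t - ω n t) = Re (B c) + e + σ Φ b ω`.
If `ω = 0`: `λ = 0`, `B = 0`; if `u ≠ 0` then `b p t = 0`, so `b = 0` or `t ≥ 1`, and `K = 0` gives `± b r + e = 0`; if `u = 0`, `A = 0` and `e = 0`:
in all cases `B = 0` and `|e| = r b`, excluded by `hND`.

`lam_exists`: `λ ↦ Re (B c) + e + σ Φ b (√(λ² + |B|²))` is a contraction with constant `s < 1`: exactly one fixed point `λ_σ`.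
`ω_σ = √(λ_σ² + |B|²) > 0` by `hND` (otherwise `B = 0`, `λ_σ = 0 = e + σ b r`).
`neck_ex`: `v_σ = - σ W_σ / ω_σ`; `u_σ = σ t_σ conj A / b` if `b > 0`, `u_σ = 0` if `b = 0`; `(u_σ, v_σ)` is critical (all conditions above are
sufficient).  `σ = 1`: for all `(u, v)`: `K (u_σ, v) ≥ K (u_σ, v_σ) = 0` since `W · v̂ ≥ - ω`, and
`K (u, v_σ) ≤ 0` since `Re (A m̃ u) - ω n |u| ≤ b m |u| - ω n |u| ≤ Φ b ω` (also for `|u| > 1`, where `m = r` and `n` increases).  So
`P = {(0, b')}` (dimension 3) and `Q = {(a, t v_σ)}` (dimension 3; `K` does not depend on `len v`).  For `σ = -1` exchange `P` and `Q`.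
The two points are different: for `b > 0` the `u_σ` have opposite directions.  For `b = 0`: `λ_σ = Re (B c) + e - σ n 0 ω_σ`; if
`v_+ = v_-` then `- W_+ / ω_+` equals `W_- / ω_-`, so `B = 0` and `λ_+, λ_-` have opposite signs; but `λ_σ = e - σ n 0 |λ_σ|` has the sign of `e ≠ 0`
(`n 0 < 1`; `e ≠ 0` by `hND`).
`neck_crit`: general `y` with `y.2 ≠ 0`: `Hf (nk (u, t v)) = Hf (nk (u, v))`; use `crit_comp` with the linear map `(u, v) ↦ (u, t v)`.
-/

open scoped ContDiff ComplexConjugate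

namespace Pool.Agent.H63.TV

noncomputable section

/-- local minimum along a 3-dimensional subspace, local maximum along another one -/
def SadCrit3 (F : ℂ × R3 → ℝ) (p : ℂ × R3) : Prop :=
  ∃ P Q : Submodule ℝ (ℂ × R3), Module.finrank ℝ P = 3 ∧ Module.finrank ℝ Q = 3 ∧ ∃ δ : ℝ, 0 < δ ∧
    (∀ v ∈ P, ‖v‖ < δ → F p ≤ F (p + v)) ∧ (∀ v ∈ Q, ‖v‖ < δ → F (p + v) ≤ F p)

theorem nb4_fst_le (v : R3) : |v.1| ≤ len v := by
  unfold len
  apply Real.abs_le_sqrt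
  nlinarith [sq_nonneg ‖v.2‖]

theorem nb4_cs (v w : R3) (hv : len v = 1) : v.1 * w.1 + (conj v.2 * w.2).re ≤ len w := by
  have h1 : v.1 ^ 2 + ‖v.2‖ ^ 2 = 1 := by
    have h := hv
    unfold len at h
    have h2 : 0 ≤ v.1 ^ 2 + ‖v.2‖ ^ 2 := by positivity
    rw [← Real.sq_sqrt h2, h]
    norm_num
  have h3 : (conj v.2 * w.2).re ≤ ‖v.2‖ * ‖w.2‖ := by
    refine (Complex.re_le_norm _).trans ?_
    rw [norm_mul, Complex.norm_conj]
  have h4 : (v.1 * w.1 + ‖v.2‖ * ‖w.2‖) ^ 2 ≤ w.1 ^ 2 + ‖w.2‖ ^ 2 := by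
    have h5 : (v.1 * w.1 + ‖v.2‖ * ‖w.2‖) ^ 2 + (v.1 * ‖w.2‖ - ‖v.2‖ * w.1) ^ 2 =
        (v.1 ^ 2 + ‖v.2‖ ^ 2) * (w.1 ^ 2 + ‖w.2‖ ^ 2) := by ring
    rw [h1, one_mul] at h5
    nlinarith [sq_nonneg (v.1 * ‖w.2‖ - ‖v.2‖ * w.1)]
  have h6 : v.1 * w.1 + ‖v.2‖ * ‖w.2‖ ≤ len w := by
    unfold len
    exact (le_abs_self _).trans (Real.abs_le_sqrt h4)
  linarith

theorem nb4_n_pos {r s : ℝ} {m n p n' : ℝ → ℝ} (h : IsNeck r s m n p n') {t : ℝ} (ht : 0 ≤ t) :
    0 < n t :=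
  h.n_zero.trans_le (h.n_mono.monotoneOn (Set.mem_Ici.2 le_rfl) (Set.mem_Ici.2 ht) ht)

theorem nb4_n_lt {r s : ℝ} {m n p n' : ℝ → ℝ} (h : IsNeck r s m n p n') (hs' : 2 * s < 1)
    {t : ℝ} (ht : 0 ≤ t) (ht2 : t < 2) : n t < 1 := by
  have h1 := h.n_mono (Set.mem_Ici.2 ht) (Set.mem_Ici.2 (by norm_num : (0:ℝ) ≤ 2)) ht2
  rw [h.n_out 2 (by norm_num)] at h1
  linarith

theorem nb4_m_nonneg {r s : ℝ} {m n p n' : ℝ → ℝ} (h : IsNeck r s m n p n') (hr : 0 < r) {t : ℝ}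
    (ht : 0 ≤ t) : 0 ≤ m t := by
  rcases le_total t 1 with h1 | h1
  · have h2 := h.m_mono.monotoneOn (Set.mem_Icc.2 ⟨le_rfl, zero_le_one⟩) (Set.mem_Icc.2 ⟨ht, h1⟩) ht
    rwa [h.m_zero] at h2
  · rw [h.m_out t h1]
    exact hr.le

/-- The denominator is positive. -/
theorem nb4_den {r s : ℝ} {m n p n' : ℝ → ℝ} (h : IsNeck r s m n p n') (hs' : 2 * s < 1)
    {u : ℂ} (hu : ‖u‖ < 2) {v : R3} (hv : v ≠ 0) : 0 < 1 + n ‖u‖ / len v * v.1 := by
  have h1 := nb4_n_pos h (norm_nonneg u)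
  have h2 := nb4_n_lt h hs' (norm_nonneg u) hu
  have h3 := len_pos hv
  have h4 := nb4_fst_le v
  have h5 : |n ‖u‖ / len v * v.1| ≤ n ‖u‖ := by
    rw [abs_mul, abs_div, abs_of_pos h1, abs_of_pos h3, div_mul_eq_mul_div, div_le_iff₀ h3]
    exact mul_le_mul_of_nonneg_left h4 h1.le
  have h6 := (abs_le.1 h5).1
  linarith

/-- The value of the height function. -/
theorem nb4_val {m n : ℝ → ℝ} (c A B : ℂ) (e : ℝ) {σ lam om : ℝ} {v : R3}
    (h3 : (-lam, conj B) = (-σ * om) • v) (u' : ℂ) (v' : R3)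
    (hD : 0 < 1 + n ‖u'‖ / len v' * v'.1) :
    Hf A B e (nk m n c (u', v')) - lam =
      ((A * (((m ‖u'‖ / ‖u'‖ : ℝ) : ℂ) * u')).re + (B * c).re + e - lam -
        n ‖u'‖ / len v' * (σ * om * (v.1 * v'.1 + (conj v.2 * v'.2).re))) /
        (1 + n ‖u'‖ / len v' * v'.1) := by
  have e1 : lam = σ * om * v.1 := by
    have := congrArg Prod.fst h3
    simp only [Prod.smul_fst, smul_eq_mul] at this
    linarith
  have e2 : B = ((-σ * om : ℝ) : ℂ) * conj v.2 := by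
    have := congrArg (fun x : R3 => conj x.2) h3
    simp only [Prod.smul_snd, Complex.conj_conj] at this
    rw [this, Complex.real_smul, map_mul, Complex.conj_ofReal]
  set k : ℝ := n ‖u'‖ / len v' with hk
  set D : ℝ := 1 + k * v'.1 with hDdef
  have hv : Hf A B e (nk m n c (u', v')) =
      ((A * (((m ‖u'‖ / ‖u'‖ : ℝ) : ℂ) * u')).re + (B * (c + (k : ℂ) * v'.2)).re + e) / D := rfl
  rw [hv, div_sub' hD.ne']
  congr 1
  have e3 : (B * (c + (k : ℂ) * v'.2)).re = (B * c).re + k * (B * v'.2).re := by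
    rw [mul_add, Complex.add_re]
    congr 1
    rw [show B * ((k : ℂ) * v'.2) = (k : ℂ) * (B * v'.2) by ring, Complex.re_ofReal_mul]
  have e4 : (B * v'.2).re = -(σ * om) * (conj v.2 * v'.2).re := by
    rw [e2, mul_assoc, Complex.re_ofReal_mul]
    ring
  rw [e3, e4, hDdef]
  have e5 : lam * v'.1 = σ * om * v.1 * v'.1 := by rw [← e1]
  linear_combination (-k) * e5

theorem nb4_core {r s : ℝ} {m n p n' : ℝ → ℝ} (h : IsNeck r s m n p n') (hr : 0 < r) (hs : 0 < s)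
    (hs' : 2 * s < 1) (c A B : ℂ) (e : ℝ) {σ lam : ℝ} (hσ : σ = 1 ∨ σ = -1) {u : ℂ} {v : R3}
    (hu : ‖u‖ < 1) (hv : len v = 1)
    (h1 : lam = (B * c).re + e + σ * Phi m n ‖A‖ (Real.sqrt (lam ^ 2 + ‖B‖ ^ 2)))
    (h2 : 0 < Real.sqrt (lam ^ 2 + ‖B‖ ^ 2))
    (h3 : (-lam, conj B) = (-σ * Real.sqrt (lam ^ 2 + ‖B‖ ^ 2)) • v)
    (h4 : A * u = ((σ * ‖A‖ * ‖u‖ : ℝ) : ℂ)) (h5 : ‖A‖ = 0 → u = 0)
    (h6 : 0 < ‖A‖ → 0 < ‖u‖ ∧ ‖u‖ < 1 ∧ ‖A‖ * p ‖u‖ = Real.sqrt (lam ^ 2 + ‖B‖ ^ 2)) :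
    Hf A B e (nk m n c (u, v)) = lam ∧
    (∀ v' : R3, v' ≠ 0 → 0 ≤ σ * (Hf A B e (nk m n c (u, v')) - lam)) ∧
    (∀ u' : ℂ, ‖u'‖ < 2 → σ * (Hf A B e (nk m n c (u', v)) - lam) ≤ 0) := by
  set om := Real.sqrt (lam ^ 2 + ‖B‖ ^ 2) with hom
  have hv0 : v ≠ 0 := by
    intro h0
    rw [h0] at hv
    simp [len] at hv
  have hσ2 : σ * σ = 1 := by rcases hσ with h | h <;> rw [h] <;> norm_num
  obtain ⟨t, ht0, ht1, hti, htp, hPhi, hmax⟩ := Phi_spec h hr hs (norm_nonneg A) h2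
  have htu : t = ‖u‖ := by
    rcases (norm_nonneg A).eq_or_lt with hA | hA
    · have hu0 := h5 hA.symm
      rw [hu0, norm_zero]
      by_contra hne
      have : 0 < t := lt_of_le_of_ne ht0 (Ne.symm hne)
      have := hti.1 this
      linarith
    · obtain ⟨g1, g2, g3⟩ := h6 hA
      have g4 : p t = p ‖u‖ := by
        have := (htp hA).trans g3.symm
        exact mul_left_cancel₀ hA.ne' this
      exact h.p_anti.injOn ⟨hti.2 hA, ht1.le⟩ ⟨g1, g2.le⟩ g4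
  rw [htu] at hPhi hmax
  have hmt : (A * (((m ‖u‖ / ‖u‖ : ℝ) : ℂ) * u)).re = σ * (‖A‖ * m ‖u‖) := by
    rw [show A * (((m ‖u‖ / ‖u‖ : ℝ) : ℂ) * u) = ((m ‖u‖ / ‖u‖ : ℝ) : ℂ) * (A * u) by ring, h4,
      ← Complex.ofReal_mul, Complex.ofReal_re]
    rcases (norm_nonneg u).eq_or_lt with h0 | h0
    · rw [← h0, h.m_zero]
      simp
    · field_simp
  have hb : (B * c).re + e - lam = -(σ * Phi m n ‖A‖ om) := by linarith
  have hnu := nb4_n_pos h (norm_nonneg u)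
  have hself : v.1 * v.1 + (conj v.2 * v.2).re = 1 := by
    have h7 : (conj v.2 * v.2).re = ‖v.2‖ ^ 2 := by
      rw [mul_comm, Complex.mul_conj, Complex.ofReal_re, Complex.normSq_eq_norm_sq]
    rw [h7]
    have h8 := hv
    unfold len at h8
    have h9 : 0 ≤ v.1 ^ 2 + ‖v.2‖ ^ 2 := by positivity
    have h10 : v.1 ^ 2 + ‖v.2‖ ^ 2 = 1 := by
      rw [← Real.sq_sqrt h9, h8]
      norm_num
    linarith
  have hu2 : ‖u‖ < 2 := by linarith
  have hsec : ∀ v' : R3, v' ≠ 0 → 0 ≤ σ * (Hf A B e (nk m n c (u, v')) - lam) := by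
    intro v' hv'
    have hD := nb4_den h hs' hu2 hv'
    have hl := len_pos hv'
    rw [nb4_val c A B e h3 u v' hD, ← mul_div_assoc]
    apply div_nonneg _ hD.le
    have hcs := nb4_cs v v' hv
    have h7 : n ‖u‖ / len v' * (v.1 * v'.1 + (conj v.2 * v'.2).re) ≤ n ‖u‖ := by
      rw [div_mul_eq_mul_div, div_le_iff₀ hl]
      exact mul_le_mul_of_nonneg_left hcs hnu.le
    have h8 : σ * ((A * (((m ‖u‖ / ‖u‖ : ℝ) : ℂ) * u)).re + (B * c).re + e - lam -
        n ‖u‖ / len v' * (σ * om * (v.1 * v'.1 + (conj v.2 * v'.2).re))) =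
        om * (n ‖u‖ - n ‖u‖ / len v' * (v.1 * v'.1 + (conj v.2 * v'.2).re)) := by
      rw [hmt]
      have h9 : (B * c).re + e - lam = -(σ * (‖A‖ * m ‖u‖ - om * n ‖u‖)) := by rw [hb, hPhi]
      linear_combination σ * h9 + (om * n ‖u‖ -
        om * (n ‖u‖ / len v' * (v.1 * v'.1 + (conj v.2 * v'.2).re))) * hσ2
    rw [h8]
    exact mul_nonneg h2.le (by linarith)
  have hfst : ∀ u' : ℂ, ‖u'‖ < 2 → σ * (Hf A B e (nk m n c (u', v)) - lam) ≤ 0 := by
    intro u' hu'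
    have hD := nb4_den h hs' hu' hv0
    rw [nb4_val c A B e h3 u' v hD, ← mul_div_assoc]
    apply div_nonpos_of_nonpos_of_nonneg _ hD.le
    rw [hself, hv, div_one, mul_one]
    have h7 : |(A * (((m ‖u'‖ / ‖u'‖ : ℝ) : ℂ) * u')).re| ≤ ‖A‖ * m ‖u'‖ := by
      refine (Complex.abs_re_le_norm _).trans ?_
      rw [norm_mul, norm_mul, Complex.norm_real, Real.norm_eq_abs, abs_div,
        abs_of_nonneg (nb4_m_nonneg h hr (norm_nonneg u')), abs_norm]
      apply mul_le_mul_of_nonneg_left _ (norm_nonneg A)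
      rcases (norm_nonneg u').eq_or_lt with h0 | h0
      · rw [← h0, h.m_zero]
        simp
      · rw [div_mul_cancel₀ _ h0.ne']
    have h8 := hmax ‖u'‖ (norm_nonneg u')
    have h9 : σ * (A * (((m ‖u'‖ / ‖u'‖ : ℝ) : ℂ) * u')).re ≤ ‖A‖ * m ‖u'‖ := by
      have h10 : |σ| = 1 := by rcases hσ with h | h <;> rw [h] <;> norm_num
      refine (le_abs_self _).trans ?_
      rw [abs_mul, h10, one_mul]
      exact h7
    have h11 : (B * c).re + e - lam = -(σ * (‖A‖ * m ‖u‖ - om * n ‖u‖)) := by rw [hb, hPhi]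
    have h12 : σ * ((A * (((m ‖u'‖ / ‖u'‖ : ℝ) : ℂ) * u')).re + (B * c).re + e - lam -
        n ‖u'‖ * (σ * om)) = σ * (A * (((m ‖u'‖ / ‖u'‖ : ℝ) : ℂ) * u')).re -
        (‖A‖ * m ‖u‖ - om * n ‖u‖) - om * n ‖u'‖ := by
      linear_combination σ * h11 + (-(‖A‖ * m ‖u‖ - om * n ‖u‖) - om * n ‖u'‖) * hσ2
    rw [h12]
    linarith
  refine ⟨?_, hsec, hfst⟩
  have g1 := hsec v hv0
  have g2 := hfst u hu2
  have g3 : σ * (Hf A B e (nk m n c (u, v)) - lam) = 0 := le_antisymm g2 g1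
  have g4 : σ ≠ 0 := by rcases hσ with h | h <;> rw [h] <;> norm_num
  have g5 := (mul_eq_zero.1 g3).resolve_left g4
  linarith

theorem nb4_diff {r s : ℝ} {m n p n' : ℝ → ℝ} (h : IsNeck r s m n p n') (hs' : 2 * s < 1)
    (c A B : ℂ) (e : ℝ) {u : ℂ} {v : R3} (hu : ‖u‖ < 2) (hv : v ≠ 0) :
    DifferentiableAt ℝ (fun y => Hf A B e (nk m n c y)) (u, v) := by
  have ho : IsOpen {y : ℂ × R3 | y.2 ≠ 0} := isOpen_ne_fun continuous_snd continuous_const
  have h1 : DifferentiableAt ℝ (nk m n c) (u, v) :=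
    ((nk_smooth h c).contDiffAt (ho.mem_nhds hv)).differentiableAt (by simp)
  have hD : (nk m n c (u, v)).2.1 ≠ 0 := (nb4_den h hs' hu hv).ne'
  have h2 : DifferentiableAt ℝ (Hf A B e) (nk m n c (u, v)) := by
    have hN : DifferentiableAt ℝ (fun y : ℂ × R3 => (A * y.1).re + (B * y.2.2).re + e)
        (nk m n c (u, v)) := by
      have e1 : (fun y : ℂ × R3 => (A * y.1).re + (B * y.2.2).re + e) =
          fun y : ℂ × R3 => Complex.reCLM (A * y.1) + Complex.reCLM (B * y.2.2) + e := rfl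
      rw [e1]
      fun_prop
    have hM : DifferentiableAt ℝ (fun y : ℂ × R3 => y.2.1) (nk m n c (u, v)) := by fun_prop
    have hQ : DifferentiableAt ℝ (fun y : ℂ × R3 => ((A * y.1).re + (B * y.2.2).re + e) *
        (y.2.1)⁻¹) (nk m n c (u, v)) := hN.mul (hM.inv hD)
    have e2 : Hf A B e = fun y : ℂ × R3 => ((A * y.1).re + (B * y.2.2).re + e) * (y.2.1)⁻¹ := by
      funext y
      unfold Hf
      rw [div_eq_mul_inv]
    rw [e2]
    exact hQ
  exact h2.comp (u, v) h1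

theorem neck_ex {r s : ℝ} {m n p n' : ℝ → ℝ} (h : IsNeck r s m n p n') (hr : 0 < r) (hs : 0 < s)
    (hs' : 2 * s < 1) (c A B : ℂ) (e : ℝ) {σ lam : ℝ} (hσ : σ = 1 ∨ σ = -1) {u : ℂ} {v : R3}
    (hu : ‖u‖ < 1) (hv : len v = 1)
    (h1 : lam = (B * c).re + e + σ * Phi m n ‖A‖ (Real.sqrt (lam ^ 2 + ‖B‖ ^ 2)))
    (h2 : 0 < Real.sqrt (lam ^ 2 + ‖B‖ ^ 2))
    (h3 : (-lam, conj B) = (-σ * Real.sqrt (lam ^ 2 + ‖B‖ ^ 2)) • v)
    (h4 : A * u = ((σ * ‖A‖ * ‖u‖ : ℝ) : ℂ)) (h5 : ‖A‖ = 0 → u = 0)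
    (h6 : 0 < ‖A‖ → 0 < ‖u‖ ∧ ‖u‖ < 1 ∧ ‖A‖ * p ‖u‖ = Real.sqrt (lam ^ 2 + ‖B‖ ^ 2)) :
    Crit (fun y => Hf A B e (nk m n c y)) (u, v) ∧
    SadCrit3 (fun y => Hf A B e (nk m n c y)) (u, v) := by
  obtain ⟨k0, k1, k2⟩ := nb4_core h hr hs hs' c A B e hσ hu hv h1 h2 h3 h4 h5 h6
  have hv0 : v ≠ 0 := by
    intro h0
    rw [h0] at hv
    simp [len] at hv
  have hvn : 0 < ‖v‖ := norm_pos_iff.2 hv0
  have hd := nb4_diff h hs' c A B e (by linarith : ‖u‖ < 2) hv0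
  set F : ℂ × R3 → ℝ := fun y => Hf A B e (nk m n c y) with hF
  have hk1 : ∀ v' : R3, v' ≠ 0 → 0 ≤ σ * (F (u, v') - F (u, v)) := by
    intro v' hv'
    show 0 ≤ σ * (Hf A B e (nk m n c (u, v')) - Hf A B e (nk m n c (u, v)))
    rw [k0]
    exact k1 v' hv'
  have hk2 : ∀ u' : ℂ, ‖u'‖ < 2 → σ * (F (u', v) - F (u, v)) ≤ 0 := by
    intro u' hu'
    show σ * (Hf A B e (nk m n c (u', v)) - Hf A B e (nk m n c (u, v))) ≤ 0
    rw [k0]
    exact k2 u' hu'
  have hinr : HasFDerivAt (fun w : R3 => F (u, w))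
      ((fderiv ℝ F (u, v)).comp (ContinuousLinearMap.inr ℝ ℂ R3)) v :=
    hd.hasFDerivAt.comp v (hasFDerivAt_prodMk_right u v)
  have hinl : HasFDerivAt (fun z : ℂ => F (z, v))
      ((fderiv ℝ F (u, v)).comp (ContinuousLinearMap.inl ℝ ℂ R3)) u :=
    HasFDerivAt.comp (g := F) (f := fun z : ℂ => (z, v)) u hd.hasFDerivAt
      (hasFDerivAt_prodMk_left (𝕜 := ℝ) u v)
  have hev1 : ∀ᶠ w in nhds v, w ≠ 0 := isOpen_ne.mem_nhds hv0
  have hev2 : ∀ᶠ z in nhds u, ‖z‖ < 2 :=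
    (isOpen_lt continuous_norm continuous_const).mem_nhds (by
      show ‖u‖ < 2
      linarith)
  have hex1 : IsLocalExtr (fun w : R3 => F (u, w)) v := by
    rcases hσ with h0 | h0
    · left
      filter_upwards [hev1] with w hw
      have := hk1 w hw
      rw [h0] at this
      linarith
    · right
      filter_upwards [hev1] with w hw
      have := hk1 w hw
      rw [h0] at this
      linarith
  have hex2 : IsLocalExtr (fun z : ℂ => F (z, v)) u := by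
    rcases hσ with h0 | h0
    · right
      filter_upwards [hev2] with w hw
      have := hk2 w hw
      rw [h0] at this
      linarith
    · left
      filter_upwards [hev2] with w hw
      have := hk2 w hw
      rw [h0] at this
      linarith
  have hz1 := hex1.hasFDerivAt_eq_zero hinr
  have hz2 := hex2.hasFDerivAt_eq_zero hinl
  constructor
  · unfold Crit
    apply ContinuousLinearMap.ext
    intro w
    have e1 : w = (ContinuousLinearMap.inl ℝ ℂ R3) w.1 + (ContinuousLinearMap.inr ℝ ℂ R3) w.2 := by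
      apply Prod.ext <;> simp
    have e2 := congrArg (fun L : ℂ →L[ℝ] ℝ => L w.1) hz2
    have e3 := congrArg (fun L : R3 →L[ℝ] ℝ => L w.2) hz1
    simp only [ContinuousLinearMap.comp_apply] at e2 e3
    rw [e1, map_add, e2, e3]
    simp
  · set P0 : Submodule ℝ (ℂ × R3) := LinearMap.range (LinearMap.inr ℝ ℂ R3) with hP0
    set Q0 : Submodule ℝ (ℂ × R3) := LinearMap.range
      (LinearMap.prodMap (LinearMap.id (R := ℝ) (M := ℂ)) (LinearMap.toSpanSingleton ℝ R3 v)) with hQ0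
    have hP0r : Module.finrank ℝ P0 = 3 := by
      rw [hP0, LinearMap.finrank_range_of_inj LinearMap.inr_injective, Module.finrank_prod,
        Complex.finrank_real_complex, Module.finrank_self]
    have hQ0r : Module.finrank ℝ Q0 = 3 := by
      rw [hQ0, LinearMap.finrank_range_of_inj, Module.finrank_prod,
        Complex.finrank_real_complex, Module.finrank_self]
      rintro ⟨a, t⟩ ⟨a', t'⟩ he
      have he1 : a = a' := congrArg Prod.fst he
      have he2 : t • v = t' • v := congrArg Prod.snd he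
      have he3 : t = t' := smul_left_injective ℝ hv0 he2
      rw [he1, he3]
    have hPc : ∀ w ∈ P0, ‖w‖ < min ‖v‖ 1 → 0 ≤ σ * (F ((u, v) + w) - F (u, v)) := by
      intro w hw hw1
      obtain ⟨w', hw'⟩ := hw
      have hw3 : w.1 = 0 := by rw [← hw']; rfl
      have e1 : (u, v) + w = (u, v + w.2) := by
        apply Prod.ext
        · simp [hw3]
        · rfl
      rw [e1]
      apply hk1
      intro h0
      have h7 : ‖w.2‖ < ‖v‖ := (norm_snd_le w).trans_lt (hw1.trans_le (min_le_left _ _))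
      have h8 : w.2 = -v := by
        rw [eq_neg_iff_add_eq_zero, add_comm]
        exact h0
      rw [h8, norm_neg] at h7
      exact lt_irrefl _ h7
    have hQc : ∀ w ∈ Q0, ‖w‖ < min ‖v‖ 1 → σ * (F ((u, v) + w) - F (u, v)) ≤ 0 := by
      intro w hw hw1
      obtain ⟨⟨a, t⟩, hw'⟩ := hw
      have ht : t • v = w.2 := by rw [← hw']; rfl
      have h7 : ‖w.2‖ < ‖v‖ := (norm_snd_le w).trans_lt (hw1.trans_le (min_le_left _ _))
      rw [← ht, norm_smul, Real.norm_eq_abs] at h7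
      have h8 : |t| < 1 := by
        by_contra hcon
        push Not at hcon
        nlinarith
      have h9 : 0 < 1 + t := by linarith [(abs_lt.1 h8).1]
      have h10 : ‖w.1‖ < 1 := (norm_fst_le w).trans_lt (hw1.trans_le (min_le_right _ _))
      have e1 : (u, v) + w = (u + w.1, (1 + t) • v) := by
        apply Prod.ext
        · rfl
        · show v + w.2 = (1 + t) • v
          rw [← ht, add_smul, one_smul]
      rw [e1]
      have e2 : F (u + w.1, (1 + t) • v) = F (u + w.1, v) := by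
        show Hf A B e (nk m n c (u + w.1, (1 + t) • v)) = Hf A B e (nk m n c (u + w.1, v))
        rw [nk_smul m n c (u + w.1) v (1 + t) h9]
      rw [e2]
      apply hk2
      exact (norm_add_le _ _).trans_lt (by linarith)
    have hδ : 0 < min ‖v‖ 1 := lt_min hvn one_pos
    rcases hσ with h0 | h0
    · refine ⟨P0, Q0, hP0r, hQ0r, min ‖v‖ 1, hδ, ?_, ?_⟩
      · intro w hw hw1
        have := hPc w hw hw1
        rw [h0] at this
        linarith
      · intro w hw hw1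
        have := hQc w hw hw1
        rw [h0] at this
        linarith
    · refine ⟨Q0, P0, hQ0r, hP0r, min ‖v‖ 1, hδ, ?_, ?_⟩
      · intro w hw hw1
        have := hQc w hw hw1
        rw [h0] at this
        linarith
      · intro w hw hw1
        have := hPc w hw hw1
        rw [h0] at this
        linarith

end

end Pool.Agent.H63.TV
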