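import Pool.Agent.H63.TV.NeckA
import Pool.Agent.H63.TV.Calc
import Pool.Agent.H63.TV.NeckB2
import Pool.Agent.H63.TV.NeckB3
import Pool.Agent.H63.TV.NeckB4

/-!
# TV-28 (necessary conditions), TV-29 (fixed point), TV-30 (existence), TV-31 (neck_crit): critical points on a neck

`Hf A B e (z, x) = (Re (A z) + Re (B x.2) + e) / x.1`.  On the neck `x.1 > 0` since `n |u| ≤ 2 s < 1` for `|u| < 2`.
Fix `c`; `K_λ (u, v) = Re (A m̃ u) + Re (B c) - λ + n |u| (W · v̂) + e`, `m̃ u = (m |u|/|u|) u`, `v̂ = v / len v`, `W = (-λ, conj B)`,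
`W · v = W.1 v.1 + Re (conj W.2 v.2)`: the numerator of `Hf ∘ nk - λ`, since `W · x = - λ x.1 + Re (B x.2)`.
`(u, v)` is critical for `Hf ∘ nk` with value `λ` iff `K_λ` and its derivative vanish at `(u, v)`.
`Φ b ω` = maximum over `0 ≤ t ≤ 1` of `b m t - ω n t` (`b, ω ≥ 0`).  For `t > 0` the derivative is `n' t (b p t - ω)`, so for `b, ω > 0` there is
exactly one maximum point, with `p t = ω / b`, `0 < t < 1`; for `ω = 0`, `Φ = b r` (at `t = 1`); for `b = 0`, `ω > 0` the maximum is at `t = 0` only.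
`Φ b` is nonincreasing and `|Φ b ω - Φ b ω'| ≤ s |ω - ω'|` (`0 ≤ n t ≤ n 1 = s`).

`neck_nec`.  Let `(u, v)`, `len v = 1`, `|u| < 2` be critical with value `λ`, `ω = len W`, `b = |A|`.  Derivative in `v`: `W = (W · v) v`, so `W · v = - σ ω` with
`σ = 1` or `σ = -1`.  `u ≠ 0`: angular derivative: `Im (A u) = 0`, so `A u = ± b |u|`; radial derivative (`t = |u|`):
`n' t (± b p t + W · v) = 0`.  If `ω > 0` then the sign is `σ`, `b p t = ω`, so `b > 0`, `t < 1`, and `Re (A m̃ u) = σ b m t`.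
If `u = 0`: the derivative of `m̃` at `0` is `κ`, so `A = 0`; take `t = 0`.  In both cases (`ω > 0`)
`K_λ = 0` says `λ = Re (B c) + e + σ (b m t - ω n t) = Re (B c) + e + σ Φ b ω`.
If `ω = 0`: `λ = 0`, `B = 0`; if `u ≠ 0` then `b p t = 0`, so `b = 0` or `t ≥ 1`, and `K = 0` gives `± b r + e = 0`; if `u = 0`, `A = 0` and `e = 0`:
in all cases `B = 0` and `|e| = r b`, excluded by `hND`.

`lam_exists`: `λ ↦ Re (B c) + e + σ Φ b (√(λ² + |B|²))` is a contraction with constant `s < 1`: exactly one fixed point `λ_σ`.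
`ω_σ = √(λ_σ² + |B|²) > 0` by `hND` (otherwise `B = 0`, `λ_σ = 0 = e + σ b r`).
`neck_ex`: `v_σ = - σ W_σ / ω_σ`; `u_σ = σ t_σ conj A / b` if `b > 0`, `u_σ = 0` if `b = 0`; `(u_σ, v_σ)` is critical (all conditions above are
sufficient).  `σ = 1`: for all `(u, v)`: `K (u_σ, v) ≥ K (u_σ, v_σ) = 0` since `W · v̂ ≥ - ω`, and
`K (u, v_σ) ≤ 0` since `Re (A m̃ u) - ω n |u| ≤ b m |u| - ω n |u| ≤ Φ b ω` (also for `|u| > 1`, where `m = r` and `n` increases).  So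
`P = {(0, b')}` (dimension 3) and `Q = {(a, t v_σ)}` (dimension 3; `K` does not depend on `len v`).  For `σ = -1` exchange `P` and `Q`.
The two points are different: for `b > 0` the `u_σ` have opposite directions.  For `b = 0`: `λ_σ = Re (B c) + e - σ n 0 ω_σ`; if
`v_+ = v_-` then `- W_+ / ω_+` equals `W_- / ω_-`, so `B = 0` and `λ_+, λ_-` have opposite signs; but `λ_σ = e - σ n 0 |λ_σ|` has the sign of `e ≠ 0`
(`n 0 < 1`; `e ≠ 0` by `hND`).
`neck_crit`: general `y` with `y.2 ≠ 0`: `Hf (nk (u, t v)) = Hf (nk (u, v))`; use `crit_comp` with the linear map `(u, v) ↦ (u, t v)`.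
-/

open scoped ContDiff ComplexConjugate

namespace Pool.Agent.H63.TV

noncomputable section

/-- the conditions of `neck_nec` on a critical point `(u, v)` with sign `σ` and value `lam` -/
private structure NB (m n p : ℝ → ℝ) (c A B : ℂ) (e σ lam : ℝ) (u : ℂ) (v : R3) : Prop where
  h1 : lam = (B * c).re + e + σ * Phi m n ‖A‖ (Real.sqrt (lam ^ 2 + ‖B‖ ^ 2))
  h2 : 0 < Real.sqrt (lam ^ 2 + ‖B‖ ^ 2)
  h3 : ((-lam, conj B) : R3) = (-σ * Real.sqrt (lam ^ 2 + ‖B‖ ^ 2)) • v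
  h4 : A * u = ((σ * ‖A‖ * ‖u‖ : ℝ) : ℂ)
  h5 : ‖A‖ = 0 → u = 0
  h6 : 0 < ‖A‖ → 0 < ‖u‖ ∧ ‖u‖ < 1 ∧ ‖A‖ * p ‖u‖ = Real.sqrt (lam ^ 2 + ‖B‖ ^ 2)

private theorem NB_exists {r s : ℝ} {m n p n' : ℝ → ℝ} (h : IsNeck r s m n p n') (hr : 0 < r)
    (hs : 0 < s) (hs' : 2 * s < 1) (c A B : ℂ) (e : ℝ) (hND : ¬ (B = 0 ∧ |e| = r * ‖A‖)) {σ : ℝ}
    (hσ : σ = 1 ∨ σ = -1) :
    ∃ (lam : ℝ) (u : ℂ) (v : R3), ‖u‖ < 1 ∧ len v = 1 ∧ NB m n p c A B e σ lam u v := by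
  obtain ⟨lam, hlam, -⟩ := lam_exists h hr hs hs' ((B * c).re + e) ‖A‖ (norm_nonneg A) ‖B‖ σ hσ
  have hσ2 : σ * σ = 1 := by rcases hσ with h | h <;> rw [h] <;> norm_num
  have hσa : |σ| = 1 := by rcases hσ with h | h <;> rw [h] <;> norm_num
  set om := Real.sqrt (lam ^ 2 + ‖B‖ ^ 2) with hom
  have hsum : 0 ≤ lam ^ 2 + ‖B‖ ^ 2 := by positivity
  have homsq : om ^ 2 = lam ^ 2 + ‖B‖ ^ 2 := Real.sq_sqrt hsum
  have hom0 : 0 < om := by
    rcases (Real.sqrt_nonneg (lam ^ 2 + ‖B‖ ^ 2)).eq_or_lt with h0 | h0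
    · exfalso
      have h1 : om = 0 := h0.symm
      rw [h1] at homsq
      have h2 : lam = 0 := by nlinarith [sq_nonneg lam, sq_nonneg ‖B‖]
      have h3 : ‖B‖ = 0 := by nlinarith [sq_nonneg lam, sq_nonneg ‖B‖]
      have h4 : B = 0 := norm_eq_zero.1 h3
      apply hND
      refine ⟨h4, ?_⟩
      rw [h1, Phi_zero h hr hs (norm_nonneg A), h2, h4] at hlam
      simp only [zero_mul, Complex.zero_re, zero_add] at hlam
      have h5 : e = -σ * (‖A‖ * r) := by linarith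
      rw [h5, abs_mul, abs_neg, hσa, one_mul, abs_of_nonneg (by positivity), mul_comm]
    · exact h0
  obtain ⟨t, ht0, ht1, hti, htp, -, -⟩ := Phi_spec h hr hs (norm_nonneg A) hom0
  have hu : ‖(((σ * t / ‖A‖ : ℝ) : ℂ) * conj A)‖ = t := by
    rw [norm_mul, Complex.norm_real, Real.norm_eq_abs, RCLike.norm_conj, abs_div, abs_mul, hσa,
      one_mul, abs_of_nonneg ht0, abs_norm]
    rcases (norm_nonneg A).eq_or_lt with hA | hA
    · rw [← hA, mul_zero]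
      by_contra hne
      have : 0 < t := lt_of_le_of_ne ht0 hne
      exact absurd (hti.1 this) (by rw [← hA]; exact lt_irrefl _)
    · field_simp
  refine ⟨lam, ((σ * t / ‖A‖ : ℝ) : ℂ) * conj A, (-σ / om) • ((-lam, conj B) : R3), ?_, ?_, ?_⟩
  · rw [hu]; exact ht1
  · unfold len
    have h1 : ((-σ / om) • ((-lam, conj B) : R3)).1 ^ 2 +
        ‖((-σ / om) • ((-lam, conj B) : R3)).2‖ ^ 2 = 1 := by
      rw [Prod.smul_fst, Prod.smul_snd, norm_smul, Real.norm_eq_abs, smul_eq_mul, RCLike.norm_conj,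
        mul_pow, mul_pow, sq_abs, ← mul_add, neg_sq, ← homsq, ← mul_pow, div_mul_cancel₀ _ hom0.ne']
      rw [neg_sq, sq, hσ2]
    rw [h1, Real.sqrt_one]
  · refine ⟨hlam, hom0, ?_, ?_, ?_, ?_⟩
    · rw [smul_smul]
      have : -σ * om * (-σ / om) = 1 := by
        field_simp
        rw [sq, hσ2]
      rw [this, one_smul]
    · rw [hu]
      rcases (norm_nonneg A).eq_or_lt with hA | hA
      · rw [norm_eq_zero.1 hA.symm]; simp
      · have h1 : A * conj A = ((‖A‖ ^ 2 : ℝ) : ℂ) := by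
          rw [Complex.mul_conj, Complex.normSq_eq_norm_sq]
        have h2 : A * (((σ * t / ‖A‖ : ℝ) : ℂ) * conj A) =
            ((σ * t / ‖A‖ : ℝ) : ℂ) * (A * conj A) := by ring
        rw [h2, h1, ← Complex.ofReal_mul]
        congr 1
        field_simp
    · intro hA
      rw [norm_eq_zero.1 hA]; simp
    · intro hA
      rw [hu]
      exact ⟨hti.2 hA, ht1, htp hA⟩

private theorem NB_unique {r s : ℝ} {m n p n' : ℝ → ℝ} (h : IsNeck r s m n p n') (hr : 0 < r)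
    (hs : 0 < s) (hs' : 2 * s < 1) (c A B : ℂ) (e : ℝ) {σ : ℝ}
    (hσ : σ = 1 ∨ σ = -1) {lam lam' : ℝ} {u u' : ℂ} {v v' : R3}
    (H : NB m n p c A B e σ lam u v) (H' : NB m n p c A B e σ lam' u' v') : u = u' ∧ v = v' := by
  have hl : lam = lam' :=
    (lam_exists h hr hs hs' ((B * c).re + e) ‖A‖ (norm_nonneg A) ‖B‖ σ hσ).unique H.h1 H'.h1
  subst hl
  constructor
  · rcases (norm_nonneg A).eq_or_lt with hA | hA
    · rw [H.h5 hA.symm, H'.h5 hA.symm]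
    · obtain ⟨h1, h2, h3⟩ := H.h6 hA
      obtain ⟨h1', h2', h3'⟩ := H'.h6 hA
      have hp : p ‖u‖ = p ‖u'‖ := mul_left_cancel₀ hA.ne' (h3.trans h3'.symm)
      have hn : ‖u‖ = ‖u'‖ := h.p_anti.injOn ⟨h1, h2.le⟩ ⟨h1', h2'.le⟩ hp
      have hA0 : A ≠ 0 := norm_pos_iff.1 hA
      apply mul_left_cancel₀ hA0
      rw [H.h4, H'.h4, hn]
  · have h1 := H.h3.symm.trans H'.h3
    have hne : -σ * Real.sqrt (lam ^ 2 + ‖B‖ ^ 2) ≠ 0 := by
      apply mul_ne_zero _ H.h2.ne'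
      rcases hσ with h | h <;> rw [h] <;> norm_num
    exact smul_right_injective R3 hne h1

private theorem NB_ne {r s : ℝ} {m n p n' : ℝ → ℝ} (h : IsNeck r s m n p n') (hr : 0 < r)
    (hs : 0 < s) (hs' : 2 * s < 1) (c A B : ℂ) (e : ℝ) {lam lam' : ℝ} {u u' : ℂ} {v v' : R3}
    (hv : len v = 1) (H : NB m n p c A B e 1 lam u v) (H' : NB m n p c A B e (-1) lam' u' v') :
    (u, v) ≠ (u', v') := by
  intro heq
  obtain ⟨h1, h2⟩ := Prod.mk.inj heq
  subst h1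
  subst h2
  rcases (norm_nonneg A).eq_or_lt with hA | hA
  · obtain ⟨t, ht0, -, hti, -, hPhi, -⟩ := Phi_spec h hr hs (norm_nonneg A) H.h2
    obtain ⟨t', ht0', -, hti', -, hPhi', -⟩ := Phi_spec h hr hs (norm_nonneg A) H'.h2
    have ht : t = 0 := by
      by_contra hne
      exact absurd (hti.1 (lt_of_le_of_ne ht0 (Ne.symm hne))) (by rw [← hA]; exact lt_irrefl _)
    have ht' : t' = 0 := by
      by_contra hne
      exact absurd (hti'.1 (lt_of_le_of_ne ht0' (Ne.symm hne))) (by rw [← hA]; exact lt_irrefl _)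
    have e1 := H.h1
    have e2 := H'.h1
    rw [hPhi, ht, ← hA] at e1
    rw [hPhi', ht', ← hA] at e2
    have g1 := congrArg Prod.fst H.h3
    have g2 := congrArg Prod.snd H.h3
    have g1' := congrArg Prod.fst H'.h3
    have g2' := congrArg Prod.snd H'.h3
    rw [Prod.smul_fst, smul_eq_mul] at g1 g1'
    rw [Prod.smul_snd] at g2 g2'
    dsimp only at g1 g2 g1' g2'
    have p1 := H.h2
    have p2 := H'.h2
    set om := Real.sqrt (lam ^ 2 + ‖B‖ ^ 2) with hom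
    set om' := Real.sqrt (lam' ^ 2 + ‖B‖ ^ 2) with hom'
    have hv2 : v.2 = 0 := by
      have h3 : (-1 * om) • v.2 = (- -1 * om') • v.2 := g2.symm.trans g2'
      have h4 : (om + om') • v.2 = 0 := by
        have h5 : (om + om') • v.2 = (- -1 * om') • v.2 - (-1 * om) • v.2 := by
          rw [← sub_smul]; congr 1; ring
        rw [h5, h3, sub_self]
      rcases smul_eq_zero.1 h4 with h5 | h5
      · linarith
      · exact h5
    have hB : B = 0 := by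
      rw [hv2, smul_zero] at g2
      have := congrArg conj g2
      simpa using this
    have hx : v.1 ^ 2 = 1 := by
      unfold len at hv
      rw [hv2, norm_zero] at hv
      have h3 := Real.sq_sqrt (show (0:ℝ) ≤ v.1 ^ 2 + 0 ^ 2 by positivity)
      rw [hv] at h3
      linarith
    have hn0 : n 0 < s := by
      have h3 := h.n_mono (Set.mem_Ici.2 le_rfl) (Set.mem_Ici.2 zero_le_one) zero_lt_one
      have h4 := h.n_out 1 le_rfl
      linarith
    have hn0' := h.n_zero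
    rw [hB] at e1 e2
    simp only [zero_mul, Complex.zero_re, zero_add, zero_sub] at e1 e2
    -- lam = om v.1, lam' = - om' v.1
    have q1 : e = om * (v.1 + n 0) := by linarith
    have q2 : e = -(om' * (v.1 + n 0)) := by linarith
    have q3 : (om + om') * (v.1 + n 0) = 0 := by linarith
    rcases mul_eq_zero.1 q3 with q4 | q4
    · linarith
    · have q5 : v.1 = - n 0 := by linarith
      rw [q5] at hx
      nlinarith
  · obtain ⟨k1, -, -⟩ := H.h6 hA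
    have e1 := H.h4
    rw [H'.h4] at e1
    have e2 := Complex.ofReal_injective e1
    have e3 : 0 < ‖A‖ * ‖u‖ := mul_pos hA k1
    linarith

/-- the dilation `(u, v) ↦ (u, t v)` -/
private def dil (t : ℝ) (ht : t ≠ 0) : (ℂ × R3) ≃L[ℝ] (ℂ × R3) :=
  (ContinuousLinearEquiv.refl ℝ ℂ).prodCongr
    (ContinuousLinearEquiv.smulLeft (R₁ := ℝ) (M₁ := R3) (Units.mk0 t ht))

private theorem dil_apply (t : ℝ) (ht : t ≠ 0) (y : ℂ × R3) : dil t ht y = (y.1, t • y.2) := rfl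

private theorem crit_dil {F : ℂ × R3 → ℝ} {t : ℝ} (ht : t ≠ 0)
    (hF : ∀ y, F (dil t ht y) = F y) (y : ℂ × R3) (hc : Crit F (dil t ht y)) : Crit F y := by
  unfold Crit at hc ⊢
  have h1 : F = F ∘ dil t ht := by funext y; exact (hF y).symm
  rw [h1, (dil t ht).comp_right_fderiv, hc, ContinuousLinearMap.zero_comp]

private theorem sad_dil {F : ℂ × R3 → ℝ} {t : ℝ} (ht : t ≠ 0)
    (hF : ∀ y, F (dil t ht y) = F y) (y : ℂ × R3) (hc : SadCrit3 F y) :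
    SadCrit3 F (dil t ht y) := by
  obtain ⟨P, Q, hP, hQ, δ, hδ, h1, h2⟩ := hc
  set L := dil t ht with hL
  set C := ‖(L.symm : (ℂ × R3) →L[ℝ] (ℂ × R3))‖ with hC
  have hC0 : 0 ≤ C := norm_nonneg _
  have key : ∀ w : ℂ × R3, ‖L w‖ < δ / (C + 1) → ‖w‖ < δ := by
    intro w hw
    have h3 : ‖L.symm (L w)‖ ≤ C * ‖L w‖ :=
      (L.symm : (ℂ × R3) →L[ℝ] (ℂ × R3)).le_opNorm (L w)
    rw [L.symm_apply_apply] at h3
    have h4 : ‖L w‖ * (C + 1) < δ := (lt_div_iff₀ (by linarith)).1 hw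
    nlinarith [norm_nonneg (L w)]
  refine ⟨P.map (L : (ℂ × R3) →ₗ[ℝ] (ℂ × R3)), Q.map (L : (ℂ × R3) →ₗ[ℝ] (ℂ × R3)), ?_, ?_,
    δ / (C + 1), by positivity, ?_, ?_⟩
  · rw [← hP]
    exact LinearEquiv.finrank_map_eq L.toLinearEquiv P
  · rw [← hQ]
    exact LinearEquiv.finrank_map_eq L.toLinearEquiv Q
  · rintro _ ⟨w, hw, rfl⟩ hn
    have h3 := h1 w hw (key w hn)
    have h4 : F (L y + L w) = F (y + w) := by rw [← map_add]; exact hF _
    rw [hF y]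
    exact h3.trans_eq h4.symm
  · rintro _ ⟨w, hw, rfl⟩ hn
    have h3 := h2 w hw (key w hn)
    have h4 : F (L y + L w) = F (y + w) := by rw [← map_add]; exact hF _
    rw [hF y]
    exact h4.trans_le h3

/-- the critical points of a height function on a neck -/
theorem neck_crit {r s : ℝ} {m n p n' : ℝ → ℝ} (h : IsNeck r s m n p n') (hr : 0 < r) (hs : 0 < s)
    (hs' : 2 * s < 1) (c A B : ℂ) (e : ℝ) (hND : ¬ (B = 0 ∧ |e| = r * ‖A‖)) :
    ∃ (u₁ u₂ : ℂ) (v₁ v₂ : R3), ‖u₁‖ < 1 ∧ ‖u₂‖ < 1 ∧ len v₁ = 1 ∧ len v₂ = 1 ∧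
      (u₁, v₁) ≠ (u₂, v₂) ∧
      Crit (fun y => Hf A B e (nk m n c y)) (u₁, v₁) ∧
      Crit (fun y => Hf A B e (nk m n c y)) (u₂, v₂) ∧
      ∀ y : ℂ × R3, ‖y.1‖ < 2 → y.2 ≠ 0 → Crit (fun y => Hf A B e (nk m n c y)) y →
        (∃ t : ℝ, 0 < t ∧ (y = (u₁, t • v₁) ∨ y = (u₂, t • v₂))) ∧
        SadCrit3 (fun y => Hf A B e (nk m n c y)) y := by
  obtain ⟨l₁, u₁, v₁, hu₁, hv₁, H₁⟩ := NB_exists h hr hs hs' c A B e hND (σ := 1) (Or.inl rfl)
  obtain ⟨l₂, u₂, v₂, hu₂, hv₂, H₂⟩ := NB_exists h hr hs hs' c A B e hND (σ := -1) (Or.inr rfl)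
  obtain ⟨C₁, S₁⟩ := neck_ex h hr hs hs' c A B e (Or.inl rfl) hu₁ hv₁ H₁.h1 H₁.h2 H₁.h3 H₁.h4
    H₁.h5 H₁.h6
  obtain ⟨C₂, S₂⟩ := neck_ex h hr hs hs' c A B e (Or.inr rfl) hu₂ hv₂ H₂.h1 H₂.h2 H₂.h3 H₂.h4
    H₂.h5 H₂.h6
  refine ⟨u₁, u₂, v₁, v₂, hu₁, hu₂, hv₁, hv₂,
    NB_ne h hr hs hs' c A B e hv₁ H₁ H₂, C₁, C₂, ?_⟩
  intro y hy1 hy2 hy
  obtain ⟨u, w⟩ := y
  dsimp only at hy1 hy2
  have ht : 0 < len w := len_pos hy2
  set t := len w with htdef
  have hF : ∀ y : ℂ × R3, (fun y => Hf A B e (nk m n c y)) (dil t ht.ne' y) =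
      (fun y => Hf A B e (nk m n c y)) y := by
    intro y
    rw [dil_apply]
    exact congrArg (Hf A B e) (nk_smul m n c y.1 y.2 t ht)
  have hw : w = t • (t⁻¹ • w) := by rw [smul_smul, mul_inv_cancel₀ ht.ne', one_smul]
  have hlen : len (t⁻¹ • w) = 1 := by
    rw [len_smul _ _ (inv_pos.2 ht), ← htdef, inv_mul_cancel₀ ht.ne']
  have hyd : ((u, w) : ℂ × R3) = dil t ht.ne' (u, t⁻¹ • w) := by
    rw [dil_apply]; exact Prod.ext rfl hw
  have hcv : Crit (fun y => Hf A B e (nk m n c y)) (u, t⁻¹ • w) := by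
    apply crit_dil ht.ne' hF
    rw [← hyd]; exact hy
  obtain ⟨σ, lam, hσ, k1, k2, k3, k4, k5, k6⟩ :=
    neck_nec h hr hs hs' c A B e hND hy1 hlen hcv
  have K : NB m n p c A B e σ lam u (t⁻¹ • w) := ⟨k1, k2, k3, k4, k5, k6⟩
  rcases hσ with rfl | rfl
  · obtain ⟨g1, g2⟩ := NB_unique h hr hs hs' c A B e (Or.inl rfl) K H₁
    refine ⟨⟨t, ht, Or.inl ?_⟩, ?_⟩
    · rw [← g1, ← g2, ← hw]
    · rw [hyd]
      apply sad_dil ht.ne' hF
      rw [g1, g2]; exact S₁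
  · obtain ⟨g1, g2⟩ := NB_unique h hr hs hs' c A B e (Or.inr rfl) K H₂
    refine ⟨⟨t, ht, Or.inr ?_⟩, ?_⟩
    · rw [← g1, ← g2, ← hw]
    · rw [hyd]
      apply sad_dil ht.ne' hF
      rw [g1, g2]; exact S₂

end

end Pool.Agent.H63.TV
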