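import Pool.Agent.H63.TV.EmbA
import Pool.Agent.H63.TV.NeckB
import Pool.Agent.H63.TV.Herm

/-!
# TV-38 .. TV-41: tubes, gluing, the embedding of `M_k`, the flat region

`tube_pr` (TV-38): `pr (tube r s c a x) = (r a / (1 + s x₁), (c + s x₂) / (1 + s x₁))`, `|x₁|, |x₂| ≤ len x ≤ 2`.
`nk_pos`: `n |u| ≤ max (n 1) (n |u|) < 1` for `|u| < 2` (`n t = s t` for `t ≥ 1`, `n` increasing) and `|v₁| ≤ len v`.
`smoothEmb` (TV-39, TV-40).  `G i = psi ∘ nk`.  `glue`: for `1 < |u| < 2`, `len v = 1`: `nk (u, v) = (r u/|u|, (1 + s |u| v₁, c + s |u| v₂))`, so both sides are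
`theta (α ρ + β) D0 0 ζ`, `ζ = pr (tube ..)`, `ρ = |ζ₁| = r/τ` (`Good.flat`, `Good.flatw`, `tube_pr`).  The same formula holds for `|u| = 1`.
`inj_G`: `psi_inj` gives `nk = nk`; the second components lie in balls of radius `≤ s` around `(1, c i)`, `(1, c j)`, and `|c i - c j| > 4 s` for
`i ≠ j`; then `nk_inj`.
`inj_gG`: let `z` be `Out` and `gfun z = psi (a, (τ, b))`, `(a, (τ, b)) = nk (u, v)`, `|u| ≤ 1`.  `ζ' = (a/τ, b/τ)` has `|ζ'₁| ≤ r/τ =: ρ ≤ r2`, `|ζ'₂| ≤ r3`,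
`D ζ' = D0`; components 1 and 3 of `psi` are `√2 (α ρ + β)/D0` and `0`, and `α ρ + β = q (ρ, 0)` has modulus `≤ 1/4` (`Good.flat`, `Good.small`), so as in
`gfun_inj`, `z 0 ≠ 0` and `|pr z|² ≤ 4`, and `Good.inj` gives `pr z = ζ'`; then component 1 gives `q ζ' = α ρ + β`.  If `|u| < 1`, then
`|a| = m |u| < r`, `|ζ'₁| < ρ`, contradicting `Good.below`.  If `|u| = 1` then `ζ' = pr (tube r s (c i) u v)`, so `z` is a multiple of
`tube r s (c i) u v` and not `Out`.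
`imm_g, smooth_g, inj_g`: from `gfun_*`.  `imm_G`: chain rule, `psi_imm`, `nk_imm`.

`flat_crit` (TV-41).  In the open region `r1 < |ζ₁| < r2`, `|ζ₂| < r3`, the function `φ = ht ξ ∘ gfun ∘ lift` is
`(lin ξ ζ + √2 ξ₀ (α |ζ₁| + β)) / D0`, whose differential at `ζ` is `η ↦ (lin ξ η + √2 ξ₀ α Re (conj ζ₁ η₁)/|ζ₁|)/D0`.  It vanishes iff
`B = 2√2 conj ξ₃ = 0` and `A + √2 ξ₀ α conj ζ₁/|ζ₁| = 0`, `A = 2√2 ξ₁`.
-/

open scoped ContDiff ComplexConjugate

namespace Pool.Agent.H63.TV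

noncomputable section

/-- the parameters of the tubes fit into the flat region -/
structure Par (k : ℕ) (r s : ℝ) (c : Fin k → ℂ) (r1 r2 r3 : ℝ) : Prop where
  hr : 0 < r
  hs : 0 < s
  hs' : 2 * s < 1
  lo : r1 < r / (1 + 2 * s)
  hi : r / (1 - 2 * s) < r2
  h3 : ∀ i, (‖c i‖ + 2 * s) / (1 - 2 * s) < r3
  sep : ∀ i j, i ≠ j → 4 * s < ‖c i - c j‖

variable {ε : ℝ} {q : ℂ × ℂ → ℝ} {w : ℂ × ℂ → ℂ} {D : ℂ × ℂ → ℝ} {α β r1 r2 r3 D0 : ℝ}
  {k : ℕ} {r s : ℝ} {c : Fin k → ℂ} {m n p n' : ℝ → ℝ}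

theorem abs_fst_le_len (x : R3) : |x.1| ≤ len x := by
  unfold len
  apply Real.abs_le_sqrt
  nlinarith [sq_nonneg ‖x.2‖]

theorem norm_snd_le_len (x : R3) : ‖x.2‖ ≤ len x := by
  unfold len
  apply Real.le_sqrt_of_sq_le
  nlinarith [sq_nonneg x.1]

theorem par_exists (hr1 : 0 < r1) (hr12 : r1 < r2) (hr3 : 0 < r3) (k : ℕ) :
    ∃ (r s : ℝ) (c : Fin k → ℂ), Par k r s c r1 r2 r3 := by
  have hr2 : 0 < r2 := hr1.trans hr12
  have hk : (0 : ℝ) < k + 1 := by positivity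
  obtain ⟨s, hs0, hs1, hs2, hs3, hs4⟩ : ∃ s : ℝ, 0 < s ∧ s ≤ 1 / 8 ∧ s ≤ r3 / 16 ∧
      s ≤ (r2 - r1) / (8 * r2) ∧ s ≤ r3 / (32 * (k + 1)) := by
    refine ⟨min (min (1 / 8) (r3 / 16)) (min ((r2 - r1) / (8 * r2)) (r3 / (32 * (k + 1)))),
      ?_, ?_, ?_, ?_, ?_⟩
    · refine lt_min (lt_min (by norm_num) (by positivity)) (lt_min ?_ (by positivity))
      apply div_pos <;> linarith
    · exact (min_le_left _ _).trans (min_le_left _ _)
    · exact (min_le_left _ _).trans (min_le_right _ _)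
    · exact (min_le_right _ _).trans (min_le_left _ _)
    · exact (min_le_right _ _).trans (min_le_right _ _)
  have hs3' : s * (8 * r2) ≤ r2 - r1 := by
    rw [le_div_iff₀ (by positivity)] at hs3
    exact hs3
  have hs4' : s * (32 * (k + 1)) ≤ r3 := by
    rw [le_div_iff₀ (by positivity)] at hs4
    exact hs4
  refine ⟨(r1 + r2) / 2, s, fun i => ((r3 / 4 * (i : ℝ) / (k + 1) : ℝ) : ℂ), ?_, hs0, ?_, ?_, ?_,
    ?_, ?_⟩
  · linarith
  · linarith
  · rw [lt_div_iff₀ (by linarith)]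
    nlinarith
  · rw [div_lt_iff₀ (by linarith)]
    nlinarith
  · intro i
    rw [div_lt_iff₀ (by linarith)]
    have h1 : ‖((r3 / 4 * (i : ℝ) / (k + 1) : ℝ) : ℂ)‖ ≤ r3 / 4 := by
      rw [Complex.norm_real, Real.norm_eq_abs, abs_of_nonneg (by positivity)]
      rw [div_le_iff₀ hk]
      have : ((i : ℕ) : ℝ) ≤ k := by exact_mod_cast i.2.le
      nlinarith
    nlinarith
  · intro i j hij
    have h1 : ((r3 / 4 * (i : ℝ) / (k + 1) : ℝ) : ℂ) - ((r3 / 4 * (j : ℝ) / (k + 1) : ℝ) : ℂ) =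
        ((r3 / 4 / (k + 1) * ((i : ℝ) - (j : ℝ)) : ℝ) : ℂ) := by
      rw [← Complex.ofReal_sub]
      congr 1
      field_simp
    rw [h1, Complex.norm_real, Real.norm_eq_abs, abs_mul, abs_of_nonneg (by positivity)]
    have h2 : (1 : ℝ) ≤ |((i : ℕ) : ℝ) - ((j : ℕ) : ℝ)| := by
      have h3 : ((i : ℕ) : ℤ) - ((j : ℕ) : ℤ) ≠ 0 := by
        intro h
        apply hij
        apply Fin.ext
        omega
      have h4 := Int.one_le_abs h3
      have h5 : ((1 : ℤ) : ℝ) ≤ ((|((i : ℕ) : ℤ) - ((j : ℕ) : ℤ)| : ℤ) : ℝ) := by exact_mod_cast h4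
      push_cast at h5
      exact h5
    have h6 : 4 * s < r3 / 4 / (k + 1) := by
      rw [lt_div_iff₀ hk]
      nlinarith
    have h7 : (0 : ℝ) < r3 / 4 / (k + 1) := by positivity
    nlinarith

theorem tube_zero (r s : ℝ) (c a : ℂ) (x : R3) : tube r s c a x 0 = ((1 + s * x.1 : ℝ) : ℂ) := rfl

theorem tube_one (r s : ℝ) (c a : ℂ) (x : R3) : tube r s c a x 1 = (r : ℂ) * a := rfl

theorem tube_two (r s : ℝ) (c a : ℂ) (x : R3) : tube r s c a x 2 = c + (s : ℂ) * x.2 := rfl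

theorem tube_den_pos (hP : Par k r s c r1 r2 r3) {x : R3} (hx : len x ≤ 2) :
    1 - 2 * s ≤ 1 + s * x.1 ∧ 1 + s * x.1 ≤ 1 + 2 * s ∧ 0 < 1 + s * x.1 := by
  have h1 := abs_le.1 ((abs_fst_le_len x).trans hx)
  have hs := hP.hs
  have hs' := hP.hs'
  refine ⟨by nlinarith, by nlinarith, by nlinarith⟩

theorem tube_pr (hP : Par k r s c r1 r2 r3) (i : Fin k) {a : ℂ} {x : R3} (ha : ‖a‖ = 1)
    (hx : len x ≤ 2) :
    tube r s (c i) a x 0 ≠ 0 ∧ 0 < 1 + s * x.1 ∧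
    pr (tube r s (c i) a x) = ((r : ℂ) * a / ((1 + s * x.1 : ℝ) : ℂ),
      (c i + (s : ℂ) * x.2) / ((1 + s * x.1 : ℝ) : ℂ)) ∧
    ‖(pr (tube r s (c i) a x)).1‖ = r / (1 + s * x.1) ∧
    r1 < ‖(pr (tube r s (c i) a x)).1‖ ∧ ‖(pr (tube r s (c i) a x)).1‖ < r2 ∧
    ‖(pr (tube r s (c i) a x)).2‖ < r3 := by
  obtain ⟨hd1, hd2, hd0⟩ := tube_den_pos hP hx
  have hr := hP.hr
  have hs := hP.hs
  have hs' := hP.hs'
  have hd : 0 < 1 - 2 * s := by linarith
  have e : pr (tube r s (c i) a x) = ((r : ℂ) * a / ((1 + s * x.1 : ℝ) : ℂ),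
      (c i + (s : ℂ) * x.2) / ((1 + s * x.1 : ℝ) : ℂ)) := rfl
  have e1 : ‖(pr (tube r s (c i) a x)).1‖ = r / (1 + s * x.1) := by
    rw [e]
    rw [norm_div, norm_mul, Complex.norm_real, Complex.norm_real, ha, mul_one, Real.norm_eq_abs,
      Real.norm_eq_abs, abs_of_pos hr, abs_of_pos hd0]
  refine ⟨?_, hd0, e, e1, ?_, ?_, ?_⟩
  · rw [tube_zero]
    exact_mod_cast hd0.ne'
  · rw [e1]
    exact hP.lo.trans_le (div_le_div_of_nonneg_left hr.le hd0 hd2)
  · rw [e1]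
    exact (div_le_div_of_nonneg_left hr.le hd hd1).trans_lt hP.hi
  · rw [e]
    refine lt_of_le_of_lt ?_ (hP.h3 i)
    rw [norm_div, Complex.norm_real, Real.norm_eq_abs, abs_of_pos hd0]
    have h1 : ‖c i + (s : ℂ) * x.2‖ ≤ ‖c i‖ + 2 * s := by
      refine (norm_add_le _ _).trans ?_
      rw [norm_mul, Complex.norm_real, Real.norm_eq_abs, abs_of_pos hs]
      have := (norm_snd_le_len x).trans hx
      nlinarith
    exact div_le_div₀ ((norm_nonneg _).trans h1) h1 hd hd1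

/-- a point on the closed tube, and not in the closed solid tube, is `Out` -/
theorem tube_out (hP : Par k r s c r1 r2 r3) (i : Fin k) {a : ℂ} {x : R3} (ha : ‖a‖ = 1)
    (hx : len x ≤ 2) (hx' : 1 < len x) : Out k r s c (tube r s (c i) a x) := by
  have hr := hP.hr
  have hs := hP.hs
  have hs' := hP.hs'
  refine ⟨?_, ?_⟩
  · intro h
    have := (tube_pr hP i ha hx).1
    rw [h] at this
    exact this rfl
  · intro j b y μ hb hy he
    obtain ⟨hd1, hd2, hd0⟩ := tube_den_pos hP hx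
    obtain ⟨he1, he2, he0⟩ := tube_den_pos hP (hy.trans (by norm_num : (1 : ℝ) ≤ 2))
    have h0 : ((1 + s * x.1 : ℝ) : ℂ) = μ * ((1 + s * y.1 : ℝ) : ℂ) := congrFun he 0
    have h1 : (r : ℂ) * a = μ * ((r : ℂ) * b) := congrFun he 1
    have h2 : c i + (s : ℂ) * x.2 = μ * (c j + (s : ℂ) * y.2) := congrFun he 2
    have hμ : ‖μ‖ = 1 := by
      have := congrArg norm h1
      rw [norm_mul, norm_mul, norm_mul, ha, hb, Complex.norm_real, Real.norm_eq_abs,
        abs_of_pos hr] at this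
      have h3 : r * (‖μ‖ - 1) = 0 := by linarith
      rcases mul_eq_zero.1 h3 with h4 | h4
      · exact absurd h4 hr.ne'
      · linarith
    have hxy : 1 + s * x.1 = 1 + s * y.1 := by
      have := congrArg norm h0
      rw [norm_mul, hμ, one_mul, Complex.norm_real, Complex.norm_real, Real.norm_eq_abs,
        Real.norm_eq_abs, abs_of_pos hd0, abs_of_pos he0] at this
      exact this
    have hμ1 : μ = 1 := by
      rw [hxy] at h0
      have h3 : ((1 + s * y.1 : ℝ) : ℂ) ≠ 0 := by exact_mod_cast he0.ne'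
      have h4 : (μ - 1) * ((1 + s * y.1 : ℝ) : ℂ) = 0 := by
        rw [sub_mul, one_mul, ← h0, sub_self]
      rcases mul_eq_zero.1 h4 with h5 | h5
      · exact sub_eq_zero.1 h5
      · exact absurd h5 h3
    rw [hμ1, one_mul] at h2
    have hx1 : x.1 = y.1 := by
      have : s * (x.1 - y.1) = 0 := by linarith
      rcases mul_eq_zero.1 this with h3 | h3
      · exact absurd h3 hs.ne'
      · linarith
    by_cases hij : i = j
    · rw [hij] at h2
      have h3 : (s : ℂ) * x.2 = (s : ℂ) * y.2 := add_left_cancel h2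
      have h4 : x.2 = y.2 := mul_left_cancel₀ (by exact_mod_cast hs.ne') h3
      have h5 : x = y := Prod.ext hx1 h4
      rw [h5] at hx'
      linarith
    · have h3 := hP.sep i j hij
      have h4 : c i - c j = (s : ℂ) * (y.2 - x.2) := by
        rw [mul_sub, sub_eq_sub_iff_add_eq_add, h2]
        ring
      rw [h4, norm_mul, Complex.norm_real, Real.norm_eq_abs, abs_of_pos hs] at h3
      have h5 : ‖y.2 - x.2‖ ≤ 3 := by
        refine (norm_sub_le _ _).trans ?_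
        have := (norm_snd_le_len x).trans hx
        have := (norm_snd_le_len y).trans hy
        linarith
      nlinarith

theorem nk_pos (hP : Par k r s c r1 r2 r3) (hN : IsNeck r s m n p n') (c' : ℂ) {y : ℂ × R3}
    (hy : ‖y.1‖ < 2) (hy' : y.2 ≠ 0) : 0 < (nk m n c' y).2.1 := by
  have hs := hP.hs
  have hs' := hP.hs'
  have hn : n ‖y.1‖ < 1 := by
    rcases le_or_gt 1 ‖y.1‖ with h | h
    · rw [hN.n_out _ h]
      nlinarith
    · have h1 := hN.n_mono (Set.mem_Ici.2 (norm_nonneg y.1)) (Set.mem_Ici.2 zero_le_one) h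
      rw [hN.n_out 1 le_rfl] at h1
      linarith
  have hn0 : 0 < n ‖y.1‖ := by
    have h1 := hN.n_mono.monotoneOn (Set.mem_Ici.2 le_rfl) (Set.mem_Ici.2 (norm_nonneg y.1))
      (norm_nonneg y.1)
    exact hN.n_zero.trans_le h1
  have hl := len_pos hy'
  have h2 := abs_le.1 (abs_fst_le_len y.2)
  have h3 : -1 ≤ y.2.1 / len y.2 := by
    rw [le_div_iff₀ hl]
    linarith
  have h4 : (nk m n c' y).2.1 = 1 + n ‖y.1‖ * (y.2.1 / len y.2) := by
    unfold nk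
    simp only
    ring
  rw [h4]
  nlinarith

end

end Pool.Agent.H63.TV
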