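import Pool.Agent.H63.TV.EmbA
import Pool.Agent.H63.TV.NeckB
import Pool.Agent.H63.TV.Herm
import Pool.Agent.H63.TV.EmbB1

/-!
# TV-38 .. TV-41: tubes, gluing, the embedding of `M_k`, the flat region

`tube_pr` (TV-38): `pr (tube r s c a x) = (r a / (1 + s x₁), (c + s x₂) / (1 + s x₁))`, `|x₁|, |x₂| ≤ len x ≤ 2`.
`nk_pos`: `n |u| ≤ max (n 1) (n |u|) < 1` for `|u| < 2` (`n t = s t` for `t ≥ 1`, `n` increasing) and `|v₁| ≤ len v`.
`smoothEmb` (TV-39, TV-40).  `G i = psi ∘ nk`.  `glue`: for `1 < |u| < 2`, `len v = 1`: `nk (u, v) = (r u/|u|, (1 + s |u| v₁, c + s |u| v₂))`, so both sides are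
`theta (α ρ + β) D0 0 ζ`, `ζ = pr (tube ..)`, `ρ = |ζ₁| = r/τ` (`Good.flat`, `Good.flatw`, `tube_pr`).  The same formula holds for `|u| = 1`.
`inj_G`: `psi_inj` gives `nk = nk`; the second components lie in balls of radius `≤ s` around `(1, c i)`, `(1, c j)`, and `|c i - c j| > 4 s` for
`i ≠ j`; then `nk_inj`.
`inj_gG`: let `z` be `Out` and `gfun z = psi (a, (τ, b))`, `(a, (τ, b)) = nk (u, v)`, `|u| ≤ 1`.  `ζ' = (a/τ, b/τ)` has `|ζ'₁| ≤ r/τ =: ρ ≤ r2`, `|ζ'₂| ≤ r3`,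
`D ζ' = D0`; components 1 and 3 of `psi` are `√2 (α ρ + β)/D0` and `0`, and `α ρ + β = q (ρ, 0)` has modulus `≤ 1/4` (`Good.flat`, `Good.small`), so as in
`gfun_inj`, `z 0 ≠ 0` and `|pr z|² ≤ 4`, and `Good.inj` gives `pr z = ζ'`; then component 1 gives `q ζ' = α ρ + β`.  If `|u| < 1`, then
`|a| = m |u| < r`, `|ζ'₁| < ρ`, contradicting `Good.below`.  If `|u| = 1` then `ζ' = pr (tube r s (c i) u v)`, so `z` is a multiple of
`tube r s (c i) u v` and not `Out`.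
`imm_g, smooth_g, inj_g`: from `gfun_*`.  `imm_G`: chain rule, `psi_imm`, `nk_imm`.

`flat_crit` (TV-41).  In the open region `r1 < |ζ₁| < r2`, `|ζ₂| < r3`, the function `φ = ht ξ ∘ gfun ∘ lift` is
`(lin ξ ζ + √2 ξ₀ (α |ζ₁| + β)) / D0`, whose differential at `ζ` is `η ↦ (lin ξ η + √2 ξ₀ α Re (conj ζ₁ η₁)/|ζ₁|)/D0`.  It vanishes iff
`B = 2√2 conj ξ₃ = 0` and `A + √2 ξ₀ α conj ζ₁/|ζ₁| = 0`, `A = 2√2 ξ₁`.
-/

open scoped ContDiff ComplexConjugate

namespace Pool.Agent.H63.TV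

noncomputable section

variable {ε : ℝ} {q : ℂ × ℂ → ℝ} {w : ℂ × ℂ → ℂ} {D : ℂ × ℂ → ℝ} {α β r1 r2 r3 D0 : ℝ}
  {k : ℕ} {r s : ℝ} {c : Fin k → ℂ} {m n p n' : ℝ → ℝ}

theorem len_one {v : R3} (hv : len v = 1) : |v.1| ≤ 1 ∧ ‖v.2‖ ≤ 1 := by
  have h1 : v.1 ^ 2 + ‖v.2‖ ^ 2 = 1 := by
    have h0 : 0 ≤ v.1 ^ 2 + ‖v.2‖ ^ 2 := by positivity
    have := Real.sq_sqrt h0
    unfold len at hv
    rw [hv] at this
    linarith
  constructor
  · apply abs_le_of_sq_le_sq _ (by norm_num)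
    nlinarith [sq_nonneg ‖v.2‖]
  · nlinarith [sq_nonneg v.1, norm_nonneg v.2]

theorem glue_eq (hG : Good ε q w D α β r1 r2 r3 D0) (hP : Par k r s c r1 r2 r3)
    (hN : IsNeck r s m n p n') (i : Fin k) (u : ℂ) (v : R3) (hu : 1 ≤ ‖u‖) (hu' : ‖u‖ < 2)
    (hv : len v = 1) :
    psi α β r D0 (nk m n (c i) (u, v)) = gfun q w D (tube r s (c i) (u / (‖u‖ : ℂ)) (‖u‖ • v)) := by
  have hu0 : 0 < ‖u‖ := by linarith
  have huc : ((‖u‖ : ℝ) : ℂ) ≠ 0 := Complex.ofReal_ne_zero.2 hu0.ne'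
  have ha : ‖u / (‖u‖ : ℂ)‖ = 1 := by
    rw [norm_div, Complex.norm_real, norm_norm, div_self hu0.ne']
  have hx : len (‖u‖ • v) ≤ 2 := by
    rw [len_smul _ _ hu0, hv]
    linarith
  obtain ⟨h1, h2, h3, h4, h5, h6, h7⟩ := tube_pr hP i ha hx
  have hq := hG.flat _ h5.le h6.le h7.le
  obtain ⟨hw, hD⟩ := hG.flatw _ h6.le h7.le
  unfold gfun
  rw [if_neg h1, hq, hw, hD, h4, h3]
  unfold psi nk
  simp only [hv, hN.m_out _ hu, hN.n_out _ hu, div_one]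
  simp only [Prod.smul_fst, Prod.smul_snd, smul_eq_mul, Complex.real_smul] at h2 ⊢
  have e1 : 1 + s * ‖u‖ * v.1 = 1 + s * (‖u‖ * v.1) := by ring
  rw [e1]
  have e2 : ((r / ‖u‖ : ℝ) : ℂ) * u = (r : ℂ) * (u / (‖u‖ : ℂ)) := by
    push_cast
    field_simp
  have e3 : ((s * ‖u‖ : ℝ) : ℂ) * v.2 = (s : ℂ) * ((‖u‖ : ℂ) * v.2) := by
    push_cast
    ring
  rw [e2, e3, mul_div_assoc α r]

theorem disj_eq (hG : Good ε q w D α β r1 r2 r3 D0) (hP : Par k r s c r1 r2 r3)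
    (hN : IsNeck r s m n p n') (z : C3) (i : Fin k) (u : ℂ) (v : R3) (hz : Out k r s c z)
    (hu : ‖u‖ ≤ 1) (hv : len v = 1) : gfun q w D z ≠ psi α β r D0 (nk m n (c i) (u, v)) := by
  intro he
  obtain ⟨hv1, hv2⟩ := len_one hv
  have hs := hP.hs
  have hs' := hP.hs'
  have hr := hP.hr
  have hu0 : 0 ≤ ‖u‖ := norm_nonneg u
  -- the profile functions
  have hN0 : 0 < n ‖u‖ := by
    rcases eq_or_lt_of_le hu0 with h | h
    · rw [← h]; exact hN.n_zero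
    · exact hN.n_zero.trans (hN.n_mono (Set.mem_Ici.2 le_rfl) (Set.mem_Ici.2 hu0) h)
  have hN1 : n ‖u‖ ≤ s := by
    have h1 : n 1 = s := by rw [hN.n_out 1 le_rfl, mul_one]
    rw [← h1]
    exact hN.n_mono.monotoneOn (Set.mem_Ici.2 hu0) (Set.mem_Ici.2 zero_le_one) hu
  have hM0 : 0 ≤ m ‖u‖ := by
    rw [← hN.m_zero]
    exact hN.m_mono.monotoneOn (Set.mem_Icc.2 ⟨le_rfl, zero_le_one⟩) (Set.mem_Icc.2 ⟨hu0, hu⟩) hu0
  have hM1 : ‖u‖ < 1 → m ‖u‖ < r := by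
    intro h
    rw [← hN.m_out 1 le_rfl]
    exact hN.m_mono (Set.mem_Icc.2 ⟨hu0, hu⟩) (Set.mem_Icc.2 ⟨zero_le_one, le_rfl⟩) h
  have hM2 : m ‖u‖ ≤ r := by
    rcases eq_or_lt_of_le hu with h | h
    · rw [h, hN.m_out 1 le_rfl]
    · exact (hM1 h).le
  -- the point of the neck
  have hnk : nk m n (c i) (u, v) = (((m ‖u‖ / ‖u‖ : ℝ) : ℂ) * u,
      (1 + n ‖u‖ * v.1, c i + ((n ‖u‖ : ℝ) : ℂ) * v.2)) := by
    unfold nk
    simp only [hv, div_one]
  obtain ⟨τ, hτ⟩ : ∃ τ, τ = 1 + n ‖u‖ * v.1 := ⟨_, rfl⟩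
  have hnv : |n ‖u‖ * v.1| ≤ s := by
    rw [abs_mul, abs_of_pos hN0]
    calc n ‖u‖ * |v.1| ≤ n ‖u‖ * 1 := by gcongr
      _ ≤ s := by linarith
  have hnv' := abs_le.1 hnv
  have hτ1 : 1 - s ≤ τ := by rw [hτ]; linarith [hnv'.1]
  have hτ2 : τ ≤ 1 + s := by rw [hτ]; linarith [hnv'.2]
  have hτ0 : 0 < τ := by linarith
  have hτc : (τ : ℂ) ≠ 0 := Complex.ofReal_ne_zero.2 hτ0.ne'
  have hna : ‖((m ‖u‖ / ‖u‖ : ℝ) : ℂ) * u‖ ≤ m ‖u‖ := by
    rw [norm_mul, Complex.norm_real, Real.norm_eq_abs, abs_of_nonneg (by positivity)]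
    rcases eq_or_lt_of_le hu0 with h | h
    · rw [← h]; simp [hN.m_zero]
    · rw [div_mul_cancel₀ _ h.ne']
  obtain ⟨a, hadef⟩ : ∃ a, a = ((m ‖u‖ / ‖u‖ : ℝ) : ℂ) * u := ⟨_, rfl⟩
  obtain ⟨b, hbdef⟩ : ∃ b, b = c i + ((n ‖u‖ : ℝ) : ℂ) * v.2 := ⟨_, rfl⟩
  rw [hnk, ← hadef, ← hbdef, ← hτ] at he
  rw [← hadef] at hna
  have hnb : ‖b‖ ≤ ‖c i‖ + s := by
    rw [hbdef]
    calc ‖c i + ((n ‖u‖ : ℝ) : ℂ) * v.2‖ ≤ ‖c i‖ + ‖((n ‖u‖ : ℝ) : ℂ) * v.2‖ := norm_add_le _ _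
      _ = ‖c i‖ + n ‖u‖ * ‖v.2‖ := by
        rw [norm_mul, Complex.norm_real, Real.norm_eq_abs, abs_of_pos hN0]
      _ ≤ ‖c i‖ + n ‖u‖ * 1 := by gcongr
      _ ≤ ‖c i‖ + s := by linarith
  -- the affine point
  obtain ⟨ζ', hζ'⟩ : ∃ ζ' : ℂ × ℂ, ζ' = (a / (τ : ℂ), b / (τ : ℂ)) := ⟨_, rfl⟩
  obtain ⟨ρ, hρ⟩ : ∃ ρ : ℝ, ρ = r / τ := ⟨_, rfl⟩
  have hρ1 : r1 ≤ ρ := by
    rw [hρ]
    refine hP.lo.le.trans ?_
    gcongr
    linarith
  have hρ2 : ρ ≤ r2 := by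
    rw [hρ]
    refine le_trans ?_ hP.hi.le
    apply div_le_div_of_nonneg_left hr.le (by linarith) (by linarith)
  have hζ1 : ‖ζ'.1‖ = ‖a‖ / τ := by
    rw [hζ', norm_div, Complex.norm_real, Real.norm_eq_abs, abs_of_pos hτ0]
  have hζ2 : ‖ζ'.2‖ = ‖b‖ / τ := by
    rw [hζ', norm_div, Complex.norm_real, Real.norm_eq_abs, abs_of_pos hτ0]
  have hζ1ρ : ‖ζ'.1‖ ≤ ρ := by
    rw [hζ1, hρ]
    gcongr
    linarith
  have hζ1r : ‖ζ'.1‖ ≤ r2 := hζ1ρ.trans hρ2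
  have hζ2r : ‖ζ'.2‖ ≤ r3 := by
    rw [hζ2]
    refine le_trans ?_ (hP.h3 i).le
    have hc0 := norm_nonneg (c i)
    apply div_le_div₀ (by positivity) (by linarith) (by linarith) (by linarith)
  obtain ⟨hwζ', hDζ'⟩ := hG.flatw ζ' hζ1r hζ2r
  have hr1 := hG.hr1
  have hr3 := hG.hr3
  have hr12 := hG.hr12
  have hins := hG.inside
  obtain ⟨hε0, hε1⟩ := hG.eps
  have hρ0 : 0 < ρ := hr1.trans_le hρ1
  have hqρ : q ((ρ : ℂ), 0) = α * ρ + β := by
    have := hG.flat ((ρ : ℂ), 0) (by simpa [abs_of_pos hρ0] using hρ1)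
      (by simpa [abs_of_pos hρ0] using hρ2) (by simpa using hr3.le)
    simpa [abs_of_pos hρ0] using this
  have hsm : |α * ρ + β| ≤ 1 / 4 := by
    rw [← hqρ]
    apply (hG.small ((ρ : ℂ), 0) _).1
    have : ‖((ρ : ℂ))‖ = ρ := by simp [abs_of_pos hρ0]
    simp only [this, norm_zero]
    nlinarith only [hρ0, hρ2, hr3, hins]
  have hD04 : 4 ≤ D0 := by rw [← hDζ']; exact hG.Dge ζ'
  have hD0 : 0 < D0 := by linarith
  have h2 : 0 < Real.sqrt 2 := by positivity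
  have hcomp1 : |(psi α β r D0 (a, (τ, b))).1| ≤ Real.sqrt 2 / 16 := by
    have e : (psi α β r D0 (a, (τ, b))).1 = Real.sqrt 2 * (α * ρ + β) / D0 := by
      simp only [psi, theta, hρ, mul_div_assoc]
    rw [e, abs_div, abs_mul, abs_of_pos h2, abs_of_pos hD0, div_le_div_iff₀ hD0 (by norm_num)]
    have := mul_le_mul_of_nonneg_left hsm h2.le
    nlinarith only [this, h2, hD04]
  have hcomp3 : (psi α β r D0 (a, (τ, b))).2.2.1 = 0 := by
    simp [psi, theta]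
  by_cases hz0 : z 0 = 0
  · -- the line at infinity
    have hgz : gfun q w D z = ver z := by unfold gfun; rw [if_pos hz0]
    rw [hgz] at he
    have hzz : z 1 ≠ 0 ∨ z 2 ≠ 0 := by
      by_contra hcon
      push Not at hcon
      apply hz.1
      funext j
      fin_cases j
      · exact hz0
      · exact hcon.1
      · exact hcon.2
    have hpos : 0 < ‖z 1‖ ^ 2 + ‖z 2‖ ^ 2 := by
      rcases hzz with h | h
      · have := norm_pos_iff.2 h; positivity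
      · have := norm_pos_iff.2 h; positivity
    have h3 : (ver z).2.2.1 = 0 := by rw [he, hcomp3]
    have h1 : |(ver z).1| ≤ Real.sqrt 2 / 16 := by rw [he]; exact hcomp1
    simp only [ver, hz0, norm_zero] at h3 h1
    have hA : (4 * (0:ℝ) ^ 2 + ‖z 1‖ ^ 2 + ‖z 2‖ ^ 2) = ‖z 1‖ ^ 2 + ‖z 2‖ ^ 2 := by ring
    rw [hA] at h3 h1
    rw [mul_eq_zero] at h3
    rcases h3 with h3 | h3
    · exfalso
      have : (2 * Real.sqrt 2 / (‖z 1‖ ^ 2 + ‖z 2‖ ^ 2) : ℝ) ≠ 0 := by positivity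
      exact this (Complex.ofReal_eq_zero.1 h3)
    · rw [abs_div, abs_mul, abs_of_pos h2, abs_of_pos hpos, div_le_div_iff₀ hpos (by norm_num)] at h1
      rw [mul_eq_zero] at h3
      rcases h3 with h3 | h3
      · rw [h3] at h1 hpos
        simp only [norm_zero] at h1 hpos
        have hp2 : 0 < ‖z 2‖ ^ 2 := by linarith only [hpos]
        have : |(0:ℝ) ^ 2 - ‖z 2‖ ^ 2| = ‖z 2‖ ^ 2 := by
          rw [show (0:ℝ) ^ 2 - ‖z 2‖ ^ 2 = -(‖z 2‖ ^ 2) by ring, abs_neg, abs_of_pos hp2]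
        rw [this] at h1
        nlinarith only [h1, h2, hp2, mul_pos h2 hp2]
      · have h3' : z 2 = 0 := by
          have := congrArg conj h3
          simpa using this
        rw [h3'] at h1 hpos
        simp only [norm_zero] at h1 hpos
        have hp2 : 0 < ‖z 1‖ ^ 2 := by linarith only [hpos]
        have : |‖z 1‖ ^ 2 - (0:ℝ) ^ 2| = ‖z 1‖ ^ 2 := by
          rw [show ‖z 1‖ ^ 2 - (0:ℝ) ^ 2 = ‖z 1‖ ^ 2 by ring, abs_of_pos hp2]
        rw [this] at h1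
        nlinarith only [h1, h2, hp2, mul_pos h2 hp2]
  · have hgz : gfun q w D z = theta (q (pr z)) (D (pr z)) (w (pr z)) (pr z) := by
      unfold gfun; rw [if_neg hz0]
    rw [hgz] at he
    have hDp : 4 ≤ D (pr z) := hG.Dge _
    have hDp0 : 0 < D (pr z) := by linarith
    have h3 : (theta (q (pr z)) (D (pr z)) (w (pr z)) (pr z)).2.2.1 = 0 := by rw [he, hcomp3]
    have h1 : |(theta (q (pr z)) (D (pr z)) (w (pr z)) (pr z)).1| ≤ Real.sqrt 2 / 16 := by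
      rw [he]; exact hcomp1
    have hw0 : w (pr z) = 0 := by
      simp only [theta] at h3
      rw [mul_eq_zero] at h3
      rcases h3 with h3 | h3
      · exfalso
        have : (Real.sqrt 2 / D (pr z) : ℝ) ≠ 0 := by positivity
        exact this (Complex.ofReal_eq_zero.1 h3)
      · exact h3
    have h1' : 4 * |q (pr z)| ≤ D (pr z) := by
      simp only [theta] at h1
      rw [abs_div, abs_mul, abs_of_pos h2, abs_of_pos hDp0,
        div_le_div_iff₀ hDp0 (by norm_num)] at h1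
      have := abs_nonneg (q (pr z))
      have h16 : 16 * |q (pr z)| ≤ D (pr z) := by
        have h5 : Real.sqrt 2 * (16 * |q (pr z)|) ≤ Real.sqrt 2 * D (pr z) := by linarith
        exact le_of_mul_le_mul_left h5 h2
      linarith
    have hle4 : ‖(pr z).1‖ ^ 2 + ‖(pr z).2‖ ^ 2 ≤ 4 := by
      by_contra hcon
      push Not at hcon
      have hε5 : ε ^ 2 ≤ 1 := by nlinarith only [hε0, hε1]
      have hε4 : ε ^ 2 ≤ ‖(pr z).1‖ ^ 2 + ‖(pr z).2‖ ^ 2 := by linarith only [hε5, hcon]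
      obtain ⟨hq, hw, hD⟩ := hG.out _ hε4
      rw [hw0] at hw
      rw [hq, hD] at h1'
      have hprod : (pr z).1 = 0 ∨ (pr z).2 = 0 := by
        rcases mul_eq_zero.1 hw.symm with h | h
        · rcases mul_eq_zero.1 h with h | h
          · exact absurd h two_ne_zero
          · exact Or.inl h
        · right
          have := congrArg conj h
          simpa using this
      rcases hprod with h | h
      · rw [h] at h1' hcon
        simp only [norm_zero] at h1' hcon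
        have h5 := neg_abs_le ((0:ℝ) ^ 2 - ‖(pr z).2‖ ^ 2)
        nlinarith only [h5, h1', hcon]
      · rw [h] at h1' hcon
        simp only [norm_zero] at h1' hcon
        have h5 := le_abs_self (‖(pr z).1‖ ^ 2 - (0:ℝ) ^ 2)
        nlinarith only [h5, h1', hcon]
    have hle4' : ‖ζ'.1‖ ^ 2 + ‖ζ'.2‖ ^ 2 ≤ 4 := by
      have h5 : ‖ζ'.1‖ ^ 2 ≤ r2 ^ 2 := by
        apply pow_le_pow_left₀ (norm_nonneg _) hζ1r
      have h6 : ‖ζ'.2‖ ^ 2 ≤ r3 ^ 2 := by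
        apply pow_le_pow_left₀ (norm_nonneg _) hζ2r
      nlinarith only [h5, h6, hins, hε0, hε1]
    have hc2 := congrArg (fun X : E7 => X.2.1) he
    have hc4 := congrArg (fun X : E7 => X.2.2.2) he
    have hc1 := congrArg (fun X : E7 => X.1) he
    simp only [theta, psi] at hc1 hc2 hc4
    have h2c : ((Real.sqrt 2 : ℝ) : ℂ) ≠ 0 := Complex.ofReal_ne_zero.2 h2.ne'
    have hDc : ((D (pr z) : ℝ) : ℂ) ≠ 0 := Complex.ofReal_ne_zero.2 hDp0.ne'
    have hD0c : ((D0 : ℝ) : ℂ) ≠ 0 := Complex.ofReal_ne_zero.2 hD0.ne'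
    have hk1 : ((D (pr z) : ℝ) : ℂ)⁻¹ * (pr z).1 = ((D0 : ℝ) : ℂ)⁻¹ * ζ'.1 := by
      have hh := congrArg conj hc2
      simp only [map_mul, Complex.conj_conj, Complex.conj_ofReal] at hh
      rw [hζ']
      have h22 : ((2 * Real.sqrt 2 : ℝ) : ℂ) ≠ 0 := Complex.ofReal_ne_zero.2 (by positivity)
      apply mul_left_cancel₀ h22
      push_cast at hh ⊢
      rw [← mul_assoc, ← mul_assoc, ← div_eq_mul_inv, ← div_eq_mul_inv]
      exact hh
    have hk2 : ((D (pr z) : ℝ) : ℂ)⁻¹ * (pr z).2 = ((D0 : ℝ) : ℂ)⁻¹ * ζ'.2 := by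
      rw [hζ']
      have h22 : ((2 * Real.sqrt 2 : ℝ) : ℂ) ≠ 0 := Complex.ofReal_ne_zero.2 (by positivity)
      apply mul_left_cancel₀ h22
      push_cast at hc4 ⊢
      rw [← mul_assoc, ← mul_assoc, ← div_eq_mul_inv, ← div_eq_mul_inv]
      exact hc4
    have hζζ : pr z = ζ' := by
      apply hG.inj _ _ hle4 hle4'
      rw [hDζ']
      refine Prod.ext ?_ ?_
      · rw [Prod.smul_fst, Prod.smul_fst, Complex.real_smul, Complex.real_smul,
          Complex.ofReal_inv, Complex.ofReal_inv]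
        exact hk1
      · rw [Prod.smul_snd, Prod.smul_snd, Complex.real_smul, Complex.real_smul,
          Complex.ofReal_inv, Complex.ofReal_inv]
        exact hk2
    have hqeq : q ζ' = α * ρ + β := by
      rw [hζζ, hDζ'] at hc1
      rw [div_left_inj' hD0.ne'] at hc1
      have := mul_left_cancel₀ h2.ne' hc1
      rw [this, hρ, mul_div_assoc]
    have hu1 : ‖u‖ = 1 := by
      by_contra hne
      have hlt : ‖u‖ < 1 := lt_of_le_of_ne hu hne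
      have hlt' : ‖ζ'.1‖ < ρ := by
        rw [hζ1, hρ]
        have := hM1 hlt
        gcongr
        linarith
      have := hG.below ζ' ρ hρ1 hρ2 hlt' hζ2r
      linarith
    refine hz.2 i u v (z 0 / τ) hu1 hv.le ?_
    have hzl := lift_pr hz0
    rw [hζζ, hζ'] at hzl
    rw [← hzl]
    have hz00 : (z 0 • lift (a / (τ : ℂ), b / (τ : ℂ))) 0 = z 0 := by
      simp [lift]
    funext j
    have hn1 : n 1 = s := by rw [hN.n_out 1 le_rfl, mul_one]
    have hm1 : m 1 = r := hN.m_out 1 le_rfl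
    rw [hu1, hn1] at hτ hbdef
    rw [hu1, hm1, div_one] at hadef
    fin_cases j
    · simp only [lift, tube, Fin.zero_eta, Pi.smul_apply, smul_eq_mul, Matrix.cons_val_zero,
        mul_one]
      rw [← hτ, div_mul_cancel₀ _ hτc]
    · simp only [lift, tube, Fin.mk_one, Pi.smul_apply, smul_eq_mul, Matrix.cons_val_zero,
        Matrix.cons_val_one, mul_one]
      rw [hadef]
      field_simp
    · simp only [lift, tube, Fin.reduceFinMk, Pi.smul_apply, smul_eq_mul, Matrix.cons_val_zero,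
        Matrix.cons_val, mul_one]
      rw [hbdef]
      field_simp

end

end Pool.Agent.H63.TV
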