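import Pool.Agent.H63.TV.EmbA
import Pool.Agent.H63.TV.NeckB
import Pool.Agent.H63.TV.Herm
import Pool.Agent.H63.TV.EmbB2

/-!
# TV-38 .. TV-41: tubes, gluing, the embedding of `M_k`, the flat region

`tube_pr` (TV-38): `pr (tube r s c a x) = (r a / (1 + s x₁), (c + s x₂) / (1 + s x₁))`, `|x₁|, |x₂| ≤ len x ≤ 2`.
`nk_pos`: `n |u| ≤ max (n 1) (n |u|) < 1` for `|u| < 2` (`n t = s t` for `t ≥ 1`, `n` increasing) and `|v₁| ≤ len v`.
`smoothEmb` (TV-39, TV-40).  `G i = psi ∘ nk`.  `glue`: for `1 < |u| < 2`, `len v = 1`: `nk (u, v) = (r u/|u|, (1 + s |u| v₁, c + s |u| v₂))`, so both sides are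
`theta (α ρ + β) D0 0 ζ`, `ζ = pr (tube ..)`, `ρ = |ζ₁| = r/τ` (`Good.flat`, `Good.flatw`, `tube_pr`).  The same formula holds for `|u| = 1`.
`inj_G`: `psi_inj` gives `nk = nk`; the second components lie in balls of radius `≤ s` around `(1, c i)`, `(1, c j)`, and `|c i - c j| > 4 s` for
`i ≠ j`; then `nk_inj`.
`inj_gG`: let `z` be `Out` and `gfun z = psi (a, (τ, b))`, `(a, (τ, b)) = nk (u, v)`, `|u| ≤ 1`.  `ζ' = (a/τ, b/τ)` has `|ζ'₁| ≤ r/τ =: ρ ≤ r2`, `|ζ'₂| ≤ r3`,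
`D ζ' = D0`; components 1 and 3 of `psi` are `√2 (α ρ + β)/D0` and `0`, and `α ρ + β = q (ρ, 0)` has modulus `≤ 1/4` (`Good.flat`, `Good.small`), so as in
`gfun_inj`, `z 0 ≠ 0` and `|pr z|² ≤ 4`, and `Good.inj` gives `pr z = ζ'`; then component 1 gives `q ζ' = α ρ + β`.  If `|u| < 1`, then
`|a| = m |u| < r`, `|ζ'₁| < ρ`, contradicting `Good.below`.  If `|u| = 1` then `ζ' = pr (tube r s (c i) u v)`, so `z` is a multiple of
`tube r s (c i) u v` and not `Out`.
`imm_g, smooth_g, inj_g`: from `gfun_*`.  `imm_G`: chain rule, `psi_imm`, `nk_imm`.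

`flat_crit` (TV-41).  In the open region `r1 < |ζ₁| < r2`, `|ζ₂| < r3`, the function `φ = ht ξ ∘ gfun ∘ lift` is
`(lin ξ ζ + √2 ξ₀ (α |ζ₁| + β)) / D0`, whose differential at `ζ` is `η ↦ (lin ξ η + √2 ξ₀ α Re (conj ζ₁ η₁)/|ζ₁|)/D0`.  It vanishes iff
`B = 2√2 conj ξ₃ = 0` and `A + √2 ξ₀ α conj ζ₁/|ζ₁| = 0`, `A = 2√2 ξ₁`.
-/

open scoped ContDiff ComplexConjugate

namespace Pool.Agent.H63.TV

noncomputable section

variable {ε : ℝ} {q : ℂ × ℂ → ℝ} {w : ℂ × ℂ → ℂ} {D : ℂ × ℂ → ℝ} {α β r1 r2 r3 D0 : ℝ}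
  {k : ℕ} {r s : ℝ} {c : Fin k → ℂ} {m n p n' : ℝ → ℝ}

private theorem nk_cont {y : ℂ × R3} (hN : IsNeck r s m n p n') (c' : ℂ) (hy' : y.2 ≠ 0) :
    ContDiffAt ℝ ∞ (nk m n c') y := by
  have h1 : IsOpen {y : ℂ × R3 | y.2 ≠ 0} := isOpen_ne.preimage continuous_snd
  exact (nk_smooth hN c').contDiffAt (h1.mem_nhds hy')

private theorem psi_cont (hD0 : 0 < D0) (α β r : ℝ) {y : ℂ × R3} (hy : 0 < y.2.1) :
    ContDiffAt ℝ ∞ (psi α β r D0) y := by
  have h1 : IsOpen {y : ℂ × R3 | y.2.1 ≠ 0} :=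
    isOpen_ne.preimage (continuous_fst.comp continuous_snd)
  exact (psi_smooth hD0 α β r).contDiffAt (h1.mem_nhds hy.ne')

private theorem n_bd (hN : IsNeck r s m n p n') {t : ℝ} (h0 : 0 ≤ t) (h1 : t ≤ 1) :
    0 < n t ∧ n t ≤ s := by
  have e1 : n 1 = s := by simpa using hN.n_out 1 le_rfl
  constructor
  · exact lt_of_lt_of_le hN.n_zero
      (hN.n_mono.monotoneOn (Set.mem_Ici.2 le_rfl) (Set.mem_Ici.2 h0) h0)
  · have := hN.n_mono.monotoneOn (Set.mem_Ici.2 h0) (Set.mem_Ici.2 zero_le_one) h1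
    rwa [e1] at this

theorem smoothEmb (hG : Good ε q w D α β r1 r2 r3 D0) (hP : Par k r s c r1 r2 r3)
    (hN : IsNeck r s m n p n') :
    SmoothEmb k r s c (gfun q w D) (fun i y => psi α β r D0 (nk m n (c i) y)) := by
  have hne : ∀ v : R3, len v = 1 → v ≠ 0 := by
    intro v hv h0
    subst h0
    simp [len] at hv
  refine ⟨fun μ z hμ => gfun_hom μ z hμ, ?_, ?_, ?_, ?_, ?_, ?_, ?_, ?_, ?_⟩
  · intro i u v t ht
    simp only [nk_smul m n (c i) u v t ht]
  · intro z hz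
    exact (gfun_smooth hG hz.1).contDiffWithinAt
  · intro i y hy
    have hy1 := nk_pos hP hN (c i) hy.1 hy.2
    exact ((psi_cont hG.hD0 α β r hy1).comp y (nk_cont hN (c i) hy.2)).contDiffWithinAt
  · intro i u v h1 h2 hv
    exact glue_eq hG hP hN i u v h1.le h2 hv
  · intro z z' hz hz' h
    exact gfun_inj hG hz.1 hz'.1 h
  · intro i j u u' v v' hu hu' hv hv' h
    have hp1 := nk_pos hP hN (c i) (y := (u, v)) (lt_of_le_of_lt hu one_lt_two) (hne v hv)
    have hp2 := nk_pos hP hN (c j) (y := (u', v')) (lt_of_le_of_lt hu' one_lt_two) (hne v' hv')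
    have h2 := psi_inj hG.hD0 hG.al hP.hr β hp1 hp2 h
    have hij : i = j := by
      by_contra hij
      have h3 : (nk m n (c i) (u, v)).2.2 = (nk m n (c j) (u', v')).2.2 := by rw [h2]
      simp only [nk, hv, hv', div_one] at h3
      obtain ⟨a1, a2⟩ := n_bd hN (norm_nonneg u) hu
      obtain ⟨b1, b2⟩ := n_bd hN (norm_nonneg u') hu'
      have h4 : c i - c j = ((n ‖u'‖ : ℝ) : ℂ) * v'.2 - ((n ‖u‖ : ℝ) : ℂ) * v.2 := by
        linear_combination h3
      have h5 : ‖c i - c j‖ ≤ s + s := by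
        rw [h4]
        refine (norm_sub_le _ _).trans (add_le_add ?_ ?_)
        · rw [norm_mul, Complex.norm_real, Real.norm_eq_abs, abs_of_pos b1]
          have := norm_snd_le_len v'
          rw [hv'] at this
          nlinarith [norm_nonneg v'.2]
        · rw [norm_mul, Complex.norm_real, Real.norm_eq_abs, abs_of_pos a1]
          have := norm_snd_le_len v
          rw [hv] at this
          nlinarith [norm_nonneg v.2]
      have h6 := hP.sep i j hij
      have := hP.hs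
      linarith
    subst hij
    exact ⟨rfl, nk_inj hN hP.hr (c i) hu hu' hv hv' h2⟩
  · intro z i u v hz hu hv
    exact disj_eq hG hP hN z i u v hz hu hv
  · intro z hz v hv
    exact gfun_imm hG hz.1 v hv
  · intro i y hy hy' v hv
    have hy1 := nk_pos hP hN (c i) hy hy'
    have d1 : DifferentiableAt ℝ (psi α β r D0) (nk m n (c i) y) :=
      (psi_cont hG.hD0 α β r hy1).differentiableAt (by simp)
    have d2 : DifferentiableAt ℝ (nk m n (c i)) y :=
      (nk_cont hN (c i) hy').differentiableAt (by simp)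
    have e1 : fderiv ℝ (fun y => psi α β r D0 (nk m n (c i) y)) y =
        (fderiv ℝ (psi α β r D0) (nk m n (c i) y)).comp (fderiv ℝ (nk m n (c i)) y) :=
      fderiv_comp y d1 d2
    have e2 : fderiv ℝ (psi α β r D0) (nk m n (c i) y) (fderiv ℝ (nk m n (c i)) y v) = 0 := by
      have := hv
      rw [e1] at this
      simpa using this
    exact nk_imm hN hP.hr (c i) hy' v (psi_imm hG.hD0 hG.al hP.hr β hy1 _ e2)

end

end Pool.Agent.H63.TV
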