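import Pool.Agent.H63.TV.EmbA
import Pool.Agent.H63.TV.NeckB
import Pool.Agent.H63.TV.Herm
import Pool.Agent.H63.TV.EmbB3

/-!
# TV-38 .. TV-41: tubes, gluing, the embedding of `M_k`, the flat region

`tube_pr` (TV-38): `pr (tube r s c a x) = (r a / (1 + s x₁), (c + s x₂) / (1 + s x₁))`, `|x₁|, |x₂| ≤ len x ≤ 2`.
`nk_pos`: `n |u| ≤ max (n 1) (n |u|) < 1` for `|u| < 2` (`n t = s t` for `t ≥ 1`, `n` increasing) and `|v₁| ≤ len v`.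
`smoothEmb` (TV-39, TV-40).  `G i = psi ∘ nk`.  `glue`: for `1 < |u| < 2`, `len v = 1`: `nk (u, v) = (r u/|u|, (1 + s |u| v₁, c + s |u| v₂))`, so both sides are
`theta (α ρ + β) D0 0 ζ`, `ζ = pr (tube ..)`, `ρ = |ζ₁| = r/τ` (`Good.flat`, `Good.flatw`, `tube_pr`).  The same formula holds for `|u| = 1`.
`inj_G`: `psi_inj` gives `nk = nk`; the second components lie in balls of radius `≤ s` around `(1, c i)`, `(1, c j)`, and `|c i - c j| > 4 s` for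
`i ≠ j`; then `nk_inj`.
`inj_gG`: let `z` be `Out` and `gfun z = psi (a, (τ, b))`, `(a, (τ, b)) = nk (u, v)`, `|u| ≤ 1`.  `ζ' = (a/τ, b/τ)` has `|ζ'₁| ≤ r/τ =: ρ ≤ r2`, `|ζ'₂| ≤ r3`,
`D ζ' = D0`; components 1 and 3 of `psi` are `√2 (α ρ + β)/D0` and `0`, and `α ρ + β = q (ρ, 0)` has modulus `≤ 1/4` (`Good.flat`, `Good.small`), so as in
`gfun_inj`, `z 0 ≠ 0` and `|pr z|² ≤ 4`, and `Good.inj` gives `pr z = ζ'`; then component 1 gives `q ζ' = α ρ + β`.  If `|u| < 1`, then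
`|a| = m |u| < r`, `|ζ'₁| < ρ`, contradicting `Good.below`.  If `|u| = 1` then `ζ' = pr (tube r s (c i) u v)`, so `z` is a multiple of
`tube r s (c i) u v` and not `Out`.
`imm_g, smooth_g, inj_g`: from `gfun_*`.  `imm_G`: chain rule, `psi_imm`, `nk_imm`.

`flat_crit` (TV-41).  In the open region `r1 < |ζ₁| < r2`, `|ζ₂| < r3`, the function `φ = ht ξ ∘ gfun ∘ lift` is
`(lin ξ ζ + √2 ξ₀ (α |ζ₁| + β)) / D0`, whose differential at `ζ` is `η ↦ (lin ξ η + √2 ξ₀ α Re (conj ζ₁ η₁)/|ζ₁|)/D0`.  It vanishes iff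
`B = 2√2 conj ξ₃ = 0` and `A + √2 ξ₀ α conj ζ₁/|ζ₁| = 0`, `A = 2√2 ξ₁`.
-/

open scoped ContDiff ComplexConjugate

namespace Pool.Agent.H63.TV

noncomputable section

variable {ε : ℝ} {q : ℂ × ℂ → ℝ} {w : ℂ × ℂ → ℂ} {D : ℂ × ℂ → ℝ} {α β r1 r2 r3 D0 : ℝ}
  {k : ℕ} {r s : ℝ} {c : Fin k → ℂ} {m n p n' : ℝ → ℝ}

private theorem flat_re_zero {c : ℂ} (h : ∀ z : ℂ, (c * z).re = 0) : c = 0 := by
  have h1 := h (conj c)
  rw [Complex.mul_conj, Complex.ofReal_re] at h1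
  exact Complex.normSq_eq_zero.mp h1

private theorem flat_hasFDerivAt_norm {z : ℂ} (hz : z ≠ 0) :
    HasFDerivAt (fun y : ℂ => ‖y‖) ((‖z‖⁻¹ : ℝ) • (innerSL ℝ z : ℂ →L[ℝ] ℝ)) z := by
  have hn : (0 : ℝ) < ‖z‖ := norm_pos_iff.mpr hz
  have h1 : HasFDerivAt (fun y : ℂ => ‖y‖ ^ 2) (2 • (innerSL ℝ z : ℂ →L[ℝ] ℝ)) z :=
    (hasStrictFDerivAt_norm_sq z).hasFDerivAt
  have h2 := h1.sqrt (by positivity)
  have e : (fun y : ℂ => Real.sqrt (‖y‖ ^ 2)) = fun y : ℂ => ‖y‖ := by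
    funext y
    exact Real.sqrt_sq (norm_nonneg y)
  rw [e] at h2
  have e3 : (1 / (2 * Real.sqrt (‖z‖ ^ 2))) • (2 • (innerSL ℝ z : ℂ →L[ℝ] ℝ)) =
      (‖z‖⁻¹ : ℝ) • (innerSL ℝ z : ℂ →L[ℝ] ℝ) := by
    rw [Real.sqrt_sq hn.le, ← Nat.cast_smul_eq_nsmul ℝ, smul_smul]
    congr 1
    push_cast
    field_simp
  rw [← e3]
  exact h2

private theorem flat_lin_apply (ξ : E7) (η : ℂ × ℂ) : lin ξ η =
    ((((2 * Real.sqrt 2 : ℝ) : ℂ) * ξ.2.1) * η.1).re +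
      ((((2 * Real.sqrt 2 : ℝ) : ℂ) * conj ξ.2.2.2) * η.2).re := by
  simp [lin]

/-- a critical point in the flat region forces the exceptional relation -/
theorem flat_crit (hG : Good ε q w D α β r1 r2 r3 D0) (ξ : E7) {ζ : ℂ × ℂ} (h1 : r1 < ‖ζ.1‖)
    (h2 : ‖ζ.1‖ < r2) (h3 : ‖ζ.2‖ < r3) :
    Crit (fun ζ => ht ξ (gfun q w D (lift ζ))) ζ ↔
      ((2 * Real.sqrt 2 : ℝ) : ℂ) * conj ξ.2.2.2 = 0 ∧
      ((2 * Real.sqrt 2 : ℝ) : ℂ) * ξ.2.1 +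
        ((Real.sqrt 2 * ξ.1 * α : ℝ) : ℂ) * conj ζ.1 / (‖ζ.1‖ : ℂ) = 0 := by
  have hn : (0 : ℝ) < ‖ζ.1‖ := hG.hr1.trans h1
  have hz : ζ.1 ≠ 0 := norm_pos_iff.mp hn
  have hD0 := hG.hD0
  -- the function near the point
  have hev : (fun ζ => ht ξ (gfun q w D (lift ζ))) =ᶠ[nhds ζ]
      fun η => (lin ξ η + Real.sqrt 2 * ξ.1 * (α * ‖η.1‖ + β)) * D0⁻¹ := by
    have o1 : IsOpen {η : ℂ × ℂ | r1 < ‖η.1‖ ∧ ‖η.1‖ < r2 ∧ ‖η.2‖ < r3} :=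
      (isOpen_lt continuous_const (continuous_norm.comp continuous_fst)).inter
        ((isOpen_lt (continuous_norm.comp continuous_fst) continuous_const).inter
          (isOpen_lt (continuous_norm.comp continuous_snd) continuous_const))
    filter_upwards [o1.mem_nhds ⟨h1, h2, h3⟩] with η hη
    obtain ⟨e1, e2, e3⟩ := hη
    rw [gfun_lift, ht_theta, hG.flat η e1.le e2.le e3.le, (hG.flatw η e2.le e3.le).1,
      (hG.flatw η e2.le e3.le).2, mul_zero, Complex.zero_re, add_zero, div_eq_mul_inv]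
  have hder : HasFDerivAt (fun η : ℂ × ℂ =>
      (lin ξ η + Real.sqrt 2 * ξ.1 * (α * ‖η.1‖ + β)) * D0⁻¹)
      (D0⁻¹ • (lin ξ + (Real.sqrt 2 * ξ.1) • (α • (((‖ζ.1‖⁻¹ : ℝ) •
        (innerSL ℝ ζ.1 : ℂ →L[ℝ] ℝ)).comp (ContinuousLinearMap.fst ℝ ℂ ℂ))))) ζ := by
    have a1 : HasFDerivAt (fun η : ℂ × ℂ => ‖η.1‖)
        (((‖ζ.1‖⁻¹ : ℝ) • (innerSL ℝ ζ.1 : ℂ →L[ℝ] ℝ)).comp
          (ContinuousLinearMap.fst ℝ ℂ ℂ)) ζ :=
      (flat_hasFDerivAt_norm hz).comp ζ hasFDerivAt_fst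
    have a2 := ((a1.const_mul α).add_const β).const_mul (Real.sqrt 2 * ξ.1)
    exact ((lin ξ).hasFDerivAt.add a2).mul_const D0⁻¹
  unfold Crit
  rw [hev.fderiv_eq, hder.fderiv, smul_eq_zero, or_iff_right (inv_ne_zero hD0.ne')]
  have key : ∀ η : ℂ × ℂ, (lin ξ + (Real.sqrt 2 * ξ.1) • (α • (((‖ζ.1‖⁻¹ : ℝ) •
        (innerSL ℝ ζ.1 : ℂ →L[ℝ] ℝ)).comp (ContinuousLinearMap.fst ℝ ℂ ℂ)))) η =
      ((((2 * Real.sqrt 2 : ℝ) : ℂ) * ξ.2.1 +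
        ((Real.sqrt 2 * ξ.1 * α : ℝ) : ℂ) * conj ζ.1 / (‖ζ.1‖ : ℂ)) * η.1).re +
      ((((2 * Real.sqrt 2 : ℝ) : ℂ) * conj ξ.2.2.2) * η.2).re := by
    intro η
    have e1 : ((Real.sqrt 2 * ξ.1 * α : ℝ) : ℂ) * conj ζ.1 / (‖ζ.1‖ : ℂ) * η.1 =
        ((Real.sqrt 2 * ξ.1 * α * ‖ζ.1‖⁻¹ : ℝ) : ℂ) * (conj ζ.1 * η.1) := by
      push_cast
      rw [div_eq_mul_inv]
      ring
    have e2 : (inner ℝ ζ.1 η.1 : ℝ) = (conj ζ.1 * η.1).re := by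
      rw [Complex.inner, mul_comm]
    rw [add_mul, Complex.add_re, e1, Complex.re_ofReal_mul, ← e2]
    simp only [add_apply, smul_apply,
      ContinuousLinearMap.comp_apply, ContinuousLinearMap.coe_fst', innerSL_apply_apply,
      smul_eq_mul, flat_lin_apply]
    ring
  constructor
  · intro h
    have hh : ∀ η : ℂ × ℂ, ((((2 * Real.sqrt 2 : ℝ) : ℂ) * ξ.2.1 +
        ((Real.sqrt 2 * ξ.1 * α : ℝ) : ℂ) * conj ζ.1 / (‖ζ.1‖ : ℂ)) * η.1).re +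
      ((((2 * Real.sqrt 2 : ℝ) : ℂ) * conj ξ.2.2.2) * η.2).re = 0 := by
      intro η
      rw [← key η, h]
      rfl
    refine ⟨flat_re_zero fun z => ?_, flat_re_zero fun z => ?_⟩
    · have := hh (0, z)
      simpa using this
    · have := hh (z, 0)
      simpa using this
  · rintro ⟨hB, hA⟩
    refine ContinuousLinearMap.ext fun η => ?_
    rw [key, hA, hB]
    simp

end

end Pool.Agent.H63.TV
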