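import Pool.Agent.H63.TV.Prof

/-!
# TV-12 (smoothness), TV-13 (the rest): flattening `|x|² - |y|²`

`flat L A B x y = |x|² - |y|² + chi (|y|/L) (A |x| - |x|²) - chi (|x|/L) (B |y| - |y|²)`.
`flat_smooth`: `x ↦ A |x|` is smooth: constant near `0` and `|x|` is smooth for `x ≠ 0`; the same for `chi (|x|/L)`
(`= 1` for `|x| ≤ L`).  `|x|²` is smooth.
`flat_out`: if `|x|² + |y|² ≥ (4L)²`, then `|x| ≥ 2L` or `|y| ≥ 2L`.  If `|x| ≥ 2L ≥ 1`: `A |x| = |x|²` and `chi (|x|/L) = 0`.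
`flat_mid`: for `|x|, |y| ≤ L` both cut-offs are `1`.
`flat_convex` (fixed `y`): if `|y| ≤ 1 ≤ L`, `flat = [A |x| - b chi (|x|/L)] - |y|²`, `b = B |y| - |y|²`, `|b| ≤ 1` since `0 ≤ B |y| ≤ B 1 = 1`; by the
assumption `hL` the bracket is a monotone convex function of `|x| ≥ 0`, so convex in `x` (`ConvexOn.comp` with `convexOn_norm`).
If `|y| > 1`, `B |y| = |y|²` and `flat = (1 - c) |x|² + c A |x| - |y|²`, `c = chi (|y|/L)` in `[0,1]`.
`flat_concave`: `flat L A B x y = - flat L B A y x`.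
-/

open scoped ContDiff

namespace Pool.Agent.H63.TV

noncomputable section

/-- `|x|² - |y|²`, flattened near the origin -/
def flat (L : ℝ) (A B : ℝ → ℝ) (x y : ℂ) : ℝ :=
  ‖x‖ ^ 2 - ‖y‖ ^ 2 + chi (‖y‖ / L) * (A ‖x‖ - ‖x‖ ^ 2) - chi (‖x‖ / L) * (B ‖y‖ - ‖y‖ ^ 2)

theorem flat_swap (L : ℝ) (A B : ℝ → ℝ) (x y : ℂ) : flat L A B x y = - flat L B A y x := by
  unfold flat
  ring

private theorem contDiff_comp_norm {g : ℝ → ℝ} (hg : ContDiff ℝ ∞ g) {c : ℝ} (hc : 0 < c)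
    (h : ∀ r, r ≤ c → g r = g 0) : ContDiff ℝ ∞ fun x : ℂ => g ‖x‖ := by
  rw [contDiff_iff_contDiffAt]
  intro x
  rcases eq_or_ne x 0 with rfl | hx
  · have h1 : (fun x : ℂ => g ‖x‖) =ᶠ[nhds 0] fun _ => g 0 := by
      filter_upwards [Metric.ball_mem_nhds (0 : ℂ) hc] with y hy
      rw [Metric.mem_ball, dist_zero_right] at hy
      exact h _ hy.le
    exact contDiffAt_const.congr_of_eventuallyEq h1
  · exact hg.contDiffAt.comp x (contDiffAt_norm ℝ hx)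

theorem contDiff_prof_norm {A : ℝ → ℝ} (hA : IsProf A) : ContDiff ℝ ∞ fun x : ℂ => A ‖x‖ :=
  contDiff_comp_norm hA.smooth (by norm_num) hA.small

theorem flat_smooth {L : ℝ} (hL : 1 ≤ L) {A B : ℝ → ℝ} (hA : IsProf A) (hB : IsProf B) :
    ContDiff ℝ ∞ fun p : ℂ × ℂ => flat L A B p.1 p.2 := by
  have hL0 : 0 < L := by linarith
  have hchi : ContDiff ℝ ∞ fun x : ℂ => chi (‖x‖ / L) := by
    have h1 : ContDiff ℝ ∞ fun r : ℝ => chi (r / L) :=
      contDiff_chi.comp (contDiff_id.div_const L)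
    refine contDiff_comp_norm h1 hL0 ?_
    intro r hr
    rw [zero_div, chi_one ((div_le_one hL0).2 hr), chi_one zero_le_one]
  have hsq : ContDiff ℝ ∞ fun x : ℂ => ‖x‖ ^ 2 := contDiff_norm_sq ℝ
  have hA2 := contDiff_prof_norm hA
  have hB2 := contDiff_prof_norm hB
  have f1 : ContDiff ℝ ∞ (fun p : ℂ × ℂ => p.1) := contDiff_fst
  have f2 : ContDiff ℝ ∞ (fun p : ℂ × ℂ => p.2) := contDiff_snd
  unfold flat
  exact (((hsq.comp f1).sub (hsq.comp f2)).add ((hchi.comp f2).mul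
    ((hA2.comp f1).sub (hsq.comp f1)))).sub ((hchi.comp f1).mul ((hB2.comp f2).sub (hsq.comp f2)))

end

end Pool.Agent.H63.TV
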