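import Pool.Agent.H63.TV.Prof
import Pool.Agent.H63.TV.Flat1

/-!
# TV-12 (smoothness), TV-13 (the rest): flattening `|x|² - |y|²`

`flat L A B x y = |x|² - |y|² + chi (|y|/L) (A |x| - |x|²) - chi (|x|/L) (B |y| - |y|²)`.
`flat_smooth`: `x ↦ A |x|` is smooth: constant near `0` and `|x|` is smooth for `x ≠ 0`; the same for `chi (|x|/L)`
(`= 1` for `|x| ≤ L`).  `|x|²` is smooth.
`flat_out`: if `|x|² + |y|² ≥ (4L)²`, then `|x| ≥ 2L` or `|y| ≥ 2L`.  If `|x| ≥ 2L ≥ 1`: `A |x| = |x|²` and `chi (|x|/L) = 0`.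
`flat_mid`: for `|x|, |y| ≤ L` both cut-offs are `1`.
`flat_convex` (fixed `y`): if `|y| ≤ 1 ≤ L`, `flat = [A |x| - b chi (|x|/L)] - |y|²`, `b = B |y| - |y|²`, `|b| ≤ 1` since `0 ≤ B |y| ≤ B 1 = 1`; by the
assumption `hL` the bracket is a monotone convex function of `|x| ≥ 0`, so convex in `x` (`ConvexOn.comp` with `convexOn_norm`).
If `|y| > 1`, `B |y| = |y|²` and `flat = (1 - c) |x|² + c A |x| - |y|²`, `c = chi (|y|/L)` in `[0,1]`.
`flat_concave`: `flat L A B x y = - flat L B A y x`.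
-/

open scoped ContDiff

namespace Pool.Agent.H63.TV

noncomputable section

theorem flat_out {L : ℝ} (hL : 1 ≤ L) {A B : ℝ → ℝ} (hA : IsProf A) (hB : IsProf B) {x y : ℂ}
    (h : (4 * L) ^ 2 ≤ ‖x‖ ^ 2 + ‖y‖ ^ 2) : flat L A B x y = ‖x‖ ^ 2 - ‖y‖ ^ 2 := by
  have hL0 : 0 < L := by linarith
  have h1 : 2 * L ≤ ‖x‖ ∨ 2 * L ≤ ‖y‖ := by
    by_contra hc
    push Not at hc
    obtain ⟨h2, h3⟩ := hc
    have h4 := norm_nonneg x
    have h5 := norm_nonneg y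
    nlinarith
  unfold flat
  rcases h1 with h1 | h1
  · rw [hA.big _ (by linarith), chi_zero (t := ‖x‖ / L) ((le_div_iff₀ hL0).2 h1)]
    ring
  · rw [hB.big _ (by linarith), chi_zero (t := ‖y‖ / L) ((le_div_iff₀ hL0).2 h1)]
    ring

theorem flat_mid {L : ℝ} (hL : 1 ≤ L) {A B : ℝ → ℝ} {x y : ℂ} (hx : ‖x‖ ≤ L) (hy : ‖y‖ ≤ L) :
    flat L A B x y = A ‖x‖ - B ‖y‖ := by
  have hL0 : 0 < L := by linarith
  unfold flat
  rw [chi_one ((div_le_one hL0).2 hx), chi_one ((div_le_one hL0).2 hy)]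
  ring

private theorem conv_norm {F : ℝ → ℝ} (hm : MonotoneOn F (Set.Ici 0))
    (hc : ConvexOn ℝ (Set.Ici 0) F) : ConvexOn ℝ Set.univ fun x : ℂ => F ‖x‖ := by
  refine ⟨convex_univ, ?_⟩
  intro x _ y _ a b ha hb hab
  have h1 : ‖a • x + b • y‖ ≤ a * ‖x‖ + b * ‖y‖ := by
    refine (norm_add_le _ _).trans ?_
    rw [norm_smul, norm_smul, Real.norm_of_nonneg ha, Real.norm_of_nonneg hb]
  have h2 : 0 ≤ a * ‖x‖ + b * ‖y‖ := by positivity
  have h3 : F ‖a • x + b • y‖ ≤ F (a * ‖x‖ + b * ‖y‖) :=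
    hm (norm_nonneg _) h2 h1
  exact h3.trans (hc.2 (norm_nonneg x) (norm_nonneg y) ha hb hab)

theorem flat_convex {L : ℝ} (hL1 : 1 ≤ L) (hL : ∀ A : ℝ → ℝ, IsProf A → ∀ b : ℝ, |b| ≤ 1 →
    MonotoneOn (fun r => A r - b * chi (r / L)) (Set.Ici 0) ∧
    ConvexOn ℝ (Set.Ici 0) (fun r => A r - b * chi (r / L))) {A B : ℝ → ℝ} (hA : IsProf A)
    (hB : IsProf B) (y : ℂ) : ConvexOn ℝ Set.univ fun x => flat L A B x y := by
  have hL0 : 0 < L := by linarith
  have hy0 := norm_nonneg y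
  rcases le_or_gt ‖y‖ 1 with hy | hy
  · have hb : |B ‖y‖ - ‖y‖ ^ 2| ≤ 1 := by
      have h1 : B 0 ≤ B ‖y‖ := hB.mono (Set.mem_Ici.2 le_rfl) (Set.mem_Ici.2 hy0) hy0
      have h2 : B ‖y‖ ≤ B 1 := hB.mono (Set.mem_Ici.2 hy0) (Set.mem_Ici.2 zero_le_one) hy
      have h3 := hB.big 1 le_rfl
      have h4 := hB.nonneg
      have h5 : ‖y‖ ^ 2 ≤ 1 := by nlinarith
      rw [abs_le]
      constructor
      · linarith
      · nlinarith [sq_nonneg ‖y‖]
    obtain ⟨hm, hc⟩ := hL A hA _ hb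
    have h1 := (conv_norm hm hc).add (convexOn_const (-‖y‖ ^ 2) convex_univ)
    have e : (fun x => flat L A B x y) = (fun x : ℂ => A ‖x‖ - (B ‖y‖ - ‖y‖ ^ 2) * chi (‖x‖ / L))
        + fun _ => (-‖y‖ ^ 2) := by
      funext x
      simp only [Pi.add_apply]
      unfold flat
      rw [chi_one ((div_le_one hL0).2 (hy.trans hL1))]
      ring
    rw [e]
    exact h1
  · obtain ⟨hc0, hc1⟩ := chi_mem (‖y‖ / L)
    set c := chi (‖y‖ / L) with hc
    have hsqm : MonotoneOn (fun r : ℝ => r ^ 2) (Set.Ici 0) := by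
      intro r hr s _ hrs
      exact pow_le_pow_left₀ hr hrs 2
    have hsqc : ConvexOn ℝ (Set.Ici 0) (fun r : ℝ => r ^ 2) := convexOn_pow 2
    have hm : MonotoneOn (fun r => (1 - c) * r ^ 2 + c * A r) (Set.Ici 0) := by
      intro r hr s hs hrs
      have h1 := hsqm hr hs hrs
      have h2 := hA.mono hr hs hrs
      simp only at h1
      have h3 := mul_le_mul_of_nonneg_left h1 (sub_nonneg.2 hc1)
      have h4 := mul_le_mul_of_nonneg_left h2 hc0
      simp only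
      linarith
    have hcv : ConvexOn ℝ (Set.Ici 0) (fun r => (1 - c) * r ^ 2 + c * A r) := by
      have h1 := (hsqc.smul (sub_nonneg.2 hc1)).add (hA.conv.smul hc0)
      exact h1
    have h1 := (conv_norm hm hcv).add (convexOn_const (-‖y‖ ^ 2) convex_univ)
    have e : (fun x => flat L A B x y) = (fun x : ℂ => (1 - c) * ‖x‖ ^ 2 + c * A ‖x‖)
        + fun _ => (-‖y‖ ^ 2) := by
      funext x
      simp only [Pi.add_apply]
      unfold flat
      rw [hB.big _ hy.le, ← hc]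
      ring
    rw [e]
    exact h1

theorem flat_concave {L : ℝ} (hL1 : 1 ≤ L) (hL : ∀ A : ℝ → ℝ, IsProf A → ∀ b : ℝ, |b| ≤ 1 →
    MonotoneOn (fun r => A r - b * chi (r / L)) (Set.Ici 0) ∧
    ConvexOn ℝ (Set.Ici 0) (fun r => A r - b * chi (r / L))) {A B : ℝ → ℝ} (hA : IsProf A)
    (hB : IsProf B) (x : ℂ) : ConcaveOn ℝ Set.univ fun y => flat L A B x y := by
  have h := flat_convex hL1 hL hB hA x
  have h2 := h.neg
  have e : (fun y => flat L A B x y) = -(fun y => flat L B A y x) := by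
    funext y
    exact flat_swap L A B x y
  rw [e]
  exact h2

end

end Pool.Agent.H63.TV
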