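import Pool.Agent.H63.TV.Flat

/-!
# TV-14 (saddle_frame), TV-15 (hhat): the flattened Hopf map

`Saddle N p`: along a plane `P` through `p` the function `N` lies above its linear part at `p`, along a plane `Q` below.

`saddle_frame`.  Let `T` be an `ℝ`-linear automorphism of `ℂ × ℂ` (coordinates `(x, y) = T ζ`), `N` differentiable at `p` and
`N ζ = K (T ζ)` near `p`, where `K` is convex in `x` for fixed `y` and concave in `y` for fixed `x`.  Then `N` has a saddle at `p`: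
`P = T⁻¹ {y = 0}`, `Q = T⁻¹ {x = 0}` (a differentiable convex function on `P` lies above its tangent:
for `v ∈ P` the function `t ↦ N (p + t v)` is convex near `[0,1]` ...; here `N` is only given near `p`, so take `δ` such that
`N = K ∘ T` on the ball of radius `δ` around `p`).  `saddle_frame'`: the same with convex and concave exchanged (use `-N`, or
`T` followed by the swap of `x` and `y`).

`hhat`.  `A = A0` from `prof0`, `A1` from `prof1`, `L` from `cutoff`; `δ₁ = 1`, `δ₂ = 16 L`, `δ₃ = 256 L²`.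
`T₃ ζ = ((ζ₁ + I ζ₂)/√2, (ζ₁ - I ζ₂)/√2)`, `T₂ ζ = ((ζ₁ + ζ₂)/√2, (ζ₁ - ζ₂)/√2)` (both preserve `|ζ|² = |ζ₁|² + |ζ₂|²`);
`|ζ₁|² - |ζ₂|² = 2 Re (x conj y)` in both frames; `2 ζ₁ conj ζ₂ = (|x|² - |y|²) + I (-2 Im (x conj y))`-like in frame 2 (real part
`|x|² - |y|²`, imaginary part linear in `x` for fixed `y` and in `y` for fixed `x`), and in frame 3 the imaginary part is
`|x|² - |y|²` and the real part is bilinear, `2 Im (x conj y)`.
`q ζ = flat L A1 A0 ζ₁ ζ₂`, `Re w ζ = δ₂² flat L A0 A0 (x₂/δ₂) (y₂/δ₂)`, `Im w ζ = δ₃² flat L A0 A0 (x₃/δ₃) (y₃/δ₃)`.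
Level `j` differs from the Hopf component only for `|ζ| < 4 L δ_j` (`flat_out`), and is `0` at levels 2, 3 for `|ζ| ≤ δ_j / 2`
(`flat_mid`, `A0 = const` on `[0, 1/2]`).  `4 L δ₁ = 4L < 8L = δ₂/2`, `4 L δ₂ = 64 L² < 128 L² = δ₃/2`.  `R = 4 L δ₃`.
Saddle at `p` for `N = e q + Re (conj e' w) = e q + a Re w + b Im w`:
(1) `|p| ≥ 4 L δ₂`  (hence `> 4Lδ₁`) or near: there `q` and `Re w` are the Hopf components near `p` if `|p| > 4Lδ₂`; `N` in frame 3 is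
a bilinear form in `x, y` (real bilinear) plus `b δ₃² flat (x/δ₃) (y/δ₃)`: convex in `x`, concave in `y` if `b ≥ 0`, the opposite if `b ≤ 0`.
(2) `|p| < δ₃/2`: `Im w = 0` near `p`.  If moreover `|p| > 4 L δ₁`, then `q` is the Hopf component near `p`: frame 2.
(3) `|p| < δ₂/2`: `w = 0` near `p`, `N = e q` in the frame `ζ` itself.
The three cases `|p| > 4Lδ₂`, `4Lδ₁ < |p| < δ₃/2`, `|p| < δ₂/2` cover everything.
`flat part`: for `1/2 ≤ |ζ₁| ≤ 3/4`, `|ζ₂| ≤ 1/2` : `q = A1 |ζ₁| - A0 |ζ₂| = |ζ₁| + β₁ - A0 0`.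
`below`: `|ζ₁| < ρ`, `1/2 < ρ ≤ 3/4`: `A1 |ζ₁| < ρ + β₁` (if `|ζ₁| ≤ 1/2`: `A1 |ζ₁| ≤ A1 (1/2) = 1/2 + β₁`).
-/

open scoped ContDiff ComplexConjugate

namespace Pool.Agent.H63.TV

noncomputable section

/-- `N` lies above its tangent plane along a plane, and below along another one -/
def Saddle (N : ℂ × ℂ → ℝ) (p : ℂ × ℂ) : Prop :=
  ∃ P Q : Submodule ℝ (ℂ × ℂ), Module.finrank ℝ P = 2 ∧ Module.finrank ℝ Q = 2 ∧ ∃ δ : ℝ, 0 < δ ∧
    (∀ v ∈ P, ‖v‖ < δ → N p + fderiv ℝ N p v ≤ N (p + v)) ∧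
    (∀ v ∈ Q, ‖v‖ < δ → N (p + v) ≤ N p + fderiv ℝ N p v)

/-- the one-sided statement: a convex profile lies above its tangent -/
theorem tv14_above {N : ℂ × ℂ → ℝ} {p : ℂ × ℂ} (hN : DifferentiableAt ℝ N p)
    (ι : ℂ →ₗ[ℝ] (ℂ × ℂ)) {k : ℂ → ℝ} (hk : ConvexOn ℝ Set.univ k) {x0 : ℂ} {δ : ℝ}
    (h : ∀ u, ‖ι u‖ < δ → N (p + ι u) = k (x0 + u)) {u : ℂ} (hu : ‖ι u‖ < δ) :
    N p + fderiv ℝ N p (ι u) ≤ N (p + ι u) := by
  have hδ : 0 < δ := (norm_nonneg _).trans_lt hu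
  -- the convex function of one variable
  have hg : ConvexOn ℝ Set.univ (fun t : ℝ => k (x0 + t • u)) := by
    have h1 := hk.comp_affineMap (AffineMap.lineMap (k := ℝ) x0 (x0 + u))
    have h2 : (k ∘ (AffineMap.lineMap (k := ℝ) x0 (x0 + u))) = fun t : ℝ => k (x0 + t • u) := by
      funext t
      simp only [Function.comp_apply, AffineMap.lineMap_apply, vsub_eq_sub, vadd_eq_add]
      congr 1
      rw [add_sub_cancel_left, add_comm]
    rw [h2, Set.preimage_univ] at h1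
    exact h1
  -- it has the expected derivative at `0`
  have hd : HasDerivAt (fun t : ℝ => k (x0 + t • u)) (fderiv ℝ N p (ι u)) 0 := by
    have h1 : HasDerivAt (fun t : ℝ => p + t • ι u) (ι u) 0 := by
      have h2 := ((hasDerivAt_id (0 : ℝ)).smul_const (ι u)).const_add p
      simpa using h2
    have h3 : HasFDerivAt N (fderiv ℝ N p) (p + (0 : ℝ) • ι u) := by
      rw [zero_smul, add_zero]
      exact hN.hasFDerivAt
    have h4 : HasDerivAt (fun t : ℝ => N (p + t • ι u)) (fderiv ℝ N p (ι u)) 0 :=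
      h3.comp_hasDerivAt (0 : ℝ) h1
    refine h4.congr_of_eventuallyEq ?_
    have h5 : ∀ᶠ t : ℝ in nhds 0, ‖t • ι u‖ < δ := by
      have h6 : Continuous fun t : ℝ => ‖t • ι u‖ := by fun_prop
      have h7 : (fun t : ℝ => ‖t • ι u‖) 0 < δ := by simpa using hδ
      exact h6.continuousAt.eventually (gt_mem_nhds h7)
    filter_upwards [h5] with t ht
    have h8 : ι (t • u) = t • ι u := ι.map_smul t u
    rw [← h8] at ht ⊢
    exact (h (t • u) ht).symm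
  have hs := hg.le_slope_of_hasDerivAt (Set.mem_univ (0 : ℝ)) (Set.mem_univ (1 : ℝ)) one_pos hd
  rw [slope_def_field] at hs
  have h9 : N p = k x0 := by
    have := h 0 (by simpa using hδ)
    simpa using this
  have h10 : N (p + ι u) = k (x0 + u) := h u hu
  simp only [one_smul, zero_smul, add_zero, sub_zero, div_one] at hs
  rw [h9, h10]
  linarith

/-- the one-sided statement: a concave profile lies below its tangent -/
theorem tv14_below {N : ℂ × ℂ → ℝ} {p : ℂ × ℂ} (hN : DifferentiableAt ℝ N p)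
    (ι : ℂ →ₗ[ℝ] (ℂ × ℂ)) {k : ℂ → ℝ} (hk : ConcaveOn ℝ Set.univ k) {x0 : ℂ} {δ : ℝ}
    (h : ∀ u, ‖ι u‖ < δ → N (p + ι u) = k (x0 + u)) {u : ℂ} (hu : ‖ι u‖ < δ) :
    N (p + ι u) ≤ N p + fderiv ℝ N p (ι u) := by
  have h1 := tv14_above (N := fun ζ => - N ζ) (p := p) hN.neg ι (k := fun x => - k x) hk.neg
    (x0 := x0) (δ := δ) (fun u hu => by rw [h u hu]) hu
  have h2 : fderiv ℝ (fun ζ => - N ζ) p = - fderiv ℝ N p := fderiv_fun_neg
  rw [h2] at h1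
  have h3 : (- fderiv ℝ N p) (ι u) = - fderiv ℝ N p (ι u) := rfl
  rw [h3] at h1
  linarith

/-- the two planes -/
theorem tv14_rank {ι : ℂ →ₗ[ℝ] (ℂ × ℂ)} (hι : Function.Injective ι) :
    Module.finrank ℝ (LinearMap.range ι) = 2 := by
  rw [LinearMap.finrank_range_of_inj hι, Complex.finrank_real_complex]

theorem saddle_frame {N K : ℂ × ℂ → ℝ} {p : ℂ × ℂ} (T : (ℂ × ℂ) ≃L[ℝ] (ℂ × ℂ))
    (hN : DifferentiableAt ℝ N p) (hNK : ∀ᶠ ζ in nhds p, N ζ = K (T ζ))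
    (h1 : ∀ y, ConvexOn ℝ Set.univ fun x => K (x, y))
    (h2 : ∀ x, ConcaveOn ℝ Set.univ fun y => K (x, y)) : Saddle N p := by
  obtain ⟨δ, hδ, hball⟩ := Metric.eventually_nhds_iff_ball.mp hNK
  have hK : ∀ v : ℂ × ℂ, ‖v‖ < δ → N (p + v) = K (T p + T v) := by
    intro v hv
    have h3 : p + v ∈ Metric.ball p δ := by
      rw [Metric.mem_ball, dist_eq_norm, add_sub_cancel_left]
      exact hv
    rw [hball _ h3, map_add]
  let ι₁ : ℂ →ₗ[ℝ] (ℂ × ℂ) := (T.symm : (ℂ × ℂ) →L[ℝ] (ℂ × ℂ)).toLinearMap ∘ₗ LinearMap.inl ℝ ℂ ℂ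
  let ι₂ : ℂ →ₗ[ℝ] (ℂ × ℂ) := (T.symm : (ℂ × ℂ) →L[ℝ] (ℂ × ℂ)).toLinearMap ∘ₗ LinearMap.inr ℝ ℂ ℂ
  have e₁ : ∀ u, T (ι₁ u) = (u, 0) := fun u => T.apply_symm_apply (u, 0)
  have e₂ : ∀ u, T (ι₂ u) = (0, u) := fun u => T.apply_symm_apply (0, u)
  have i₁ : Function.Injective ι₁ := by
    intro u v huv
    have h3 := congrArg T huv
    rw [e₁, e₁] at h3
    exact (Prod.ext_iff.mp h3).1
  have i₂ : Function.Injective ι₂ := by
    intro u v huv
    have h3 := congrArg T huv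
    rw [e₂, e₂] at h3
    exact (Prod.ext_iff.mp h3).2
  refine ⟨LinearMap.range ι₁, LinearMap.range ι₂, tv14_rank i₁, tv14_rank i₂, δ, hδ, ?_, ?_⟩
  · rintro v ⟨u, rfl⟩ hv
    refine tv14_above hN ι₁ (h1 (T p).2) (x0 := (T p).1) (δ := δ) ?_ hv
    intro w hw
    rw [hK _ hw, e₁]
    congr 1
    ext <;> simp
  · rintro v ⟨u, rfl⟩ hv
    refine tv14_below hN ι₂ (h2 (T p).1) (x0 := (T p).2) (δ := δ) ?_ hv
    intro w hw
    rw [hK _ hw, e₂]
    congr 1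
    ext <;> simp

theorem saddle_frame' {N K : ℂ × ℂ → ℝ} {p : ℂ × ℂ} (T : (ℂ × ℂ) ≃L[ℝ] (ℂ × ℂ))
    (hN : DifferentiableAt ℝ N p) (hNK : ∀ᶠ ζ in nhds p, N ζ = K (T ζ))
    (h1 : ∀ y, ConcaveOn ℝ Set.univ fun x => K (x, y))
    (h2 : ∀ x, ConvexOn ℝ Set.univ fun y => K (x, y)) : Saddle N p := by
  refine saddle_frame (K := fun q => K (q.2, q.1))
    (T.trans (ContinuousLinearEquiv.prodComm ℝ ℂ ℂ)) hN ?_ h2 h1
  filter_upwards [hNK] with ζ hζ
  rw [hζ]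
  rfl

end

end Pool.Agent.H63.TV
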