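import Pool.Agent.H63.TV.Flat
import Pool.Agent.H63.TV.Hhat1

/-!
# TV-14 (saddle_frame), TV-15 (hhat): the flattened Hopf map

`Saddle N p`: along a plane `P` through `p` the function `N` lies above its linear part at `p`, along a plane `Q` below.

`saddle_frame`.  Let `T` be an `ℝ`-linear automorphism of `ℂ × ℂ` (coordinates `(x, y) = T ζ`), `N` differentiable at `p` and
`N ζ = K (T ζ)` near `p`, where `K` is convex in `x` for fixed `y` and concave in `y` for fixed `x`.  Then `N` has a saddle at `p`: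
`P = T⁻¹ {y = 0}`, `Q = T⁻¹ {x = 0}` (a differentiable convex function on `P` lies above its tangent:
for `v ∈ P` the function `t ↦ N (p + t v)` is convex near `[0,1]` ...; here `N` is only given near `p`, so take `δ` such that
`N = K ∘ T` on the ball of radius `δ` around `p`).  `saddle_frame'`: the same with convex and concave exchanged (use `-N`, or
`T` followed by the swap of `x` and `y`).

`hhat`.  `A = A0` from `prof0`, `A1` from `prof1`, `L` from `cutoff`; `δ₁ = 1`, `δ₂ = 16 L`, `δ₃ = 256 L²`.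
`T₃ ζ = ((ζ₁ + I ζ₂)/√2, (ζ₁ - I ζ₂)/√2)`, `T₂ ζ = ((ζ₁ + ζ₂)/√2, (ζ₁ - ζ₂)/√2)` (both preserve `|ζ|² = |ζ₁|² + |ζ₂|²`);
`|ζ₁|² - |ζ₂|² = 2 Re (x conj y)` in both frames; `2 ζ₁ conj ζ₂ = (|x|² - |y|²) + I (-2 Im (x conj y))`-like in frame 2 (real part
`|x|² - |y|²`, imaginary part linear in `x` for fixed `y` and in `y` for fixed `x`), and in frame 3 the imaginary part is
`|x|² - |y|²` and the real part is bilinear, `2 Im (x conj y)`.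
`q ζ = flat L A1 A0 ζ₁ ζ₂`, `Re w ζ = δ₂² flat L A0 A0 (x₂/δ₂) (y₂/δ₂)`, `Im w ζ = δ₃² flat L A0 A0 (x₃/δ₃) (y₃/δ₃)`.
Level `j` differs from the Hopf component only for `|ζ| < 4 L δ_j` (`flat_out`), and is `0` at levels 2, 3 for `|ζ| ≤ δ_j / 2`
(`flat_mid`, `A0 = const` on `[0, 1/2]`).  `4 L δ₁ = 4L < 8L = δ₂/2`, `4 L δ₂ = 64 L² < 128 L² = δ₃/2`.  `R = 4 L δ₃`.
Saddle at `p` for `N = e q + Re (conj e' w) = e q + a Re w + b Im w`: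
(1) `|p| ≥ 4 L δ₂`  (hence `> 4Lδ₁`) or near: there `q` and `Re w` are the Hopf components near `p` if `|p| > 4Lδ₂`; `N` in frame 3 is
a bilinear form in `x, y` (real bilinear) plus `b δ₃² flat (x/δ₃) (y/δ₃)`: convex in `x`, concave in `y` if `b ≥ 0`, the opposite if `b ≤ 0`.
(2) `|p| < δ₃/2`: `Im w = 0` near `p`.  If moreover `|p| > 4 L δ₁`, then `q` is the Hopf component near `p`: frame 2.
(3) `|p| < δ₂/2`: `w = 0` near `p`, `N = e q` in the frame `ζ` itself.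
The three cases `|p| > 4Lδ₂`, `4Lδ₁ < |p| < δ₃/2`, `|p| < δ₂/2` cover everything.
`flat part`: for `1/2 ≤ |ζ₁| ≤ 3/4`, `|ζ₂| ≤ 1/2` : `q = A1 |ζ₁| - A0 |ζ₂| = |ζ₁| + β₁ - A0 0`.
`below`: `|ζ₁| < ρ`, `1/2 < ρ ≤ 3/4`: `A1 |ζ₁| < ρ + β₁` (if `|ζ₁| ≤ 1/2`: `A1 |ζ₁| ≤ A1 (1/2) = 1/2 + β₁`).
-/

open scoped ContDiff ComplexConjugate

namespace Pool.Agent.H63.TV

noncomputable section

/-- `1/√2` -/
def tv15s : ℝ := (Real.sqrt 2)⁻¹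

theorem tv15s_sq : tv15s * tv15s = 1 / 2 := by
  unfold tv15s
  rw [← mul_inv, Real.mul_self_sqrt (by norm_num)]
  norm_num

/-- the frames: `ζ ↦ ((ζ₁ + u ζ₂)/√2, (ζ₁ - u ζ₂)/√2)` for a unit complex number `u` -/
def tv15L (u : ℂ) (hu : u * conj u = 1) : (ℂ × ℂ) ≃ₗ[ℝ] (ℂ × ℂ) where
  toFun ζ := ((tv15s : ℂ) * (ζ.1 + u * ζ.2), (tv15s : ℂ) * (ζ.1 - u * ζ.2))
  map_add' ζ η := by
    ext <;> simp only [Prod.fst_add, Prod.snd_add] <;> ring_nf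
  map_smul' c ζ := by
    ext <;> simp only [Prod.smul_fst, Prod.smul_snd, Complex.real_smul, RingHom.id_apply] <;> ring_nf
  invFun q := ((tv15s : ℂ) * (q.1 + q.2), conj u * ((tv15s : ℂ) * (q.1 - q.2)))
  left_inv ζ := by
    have hs : (tv15s : ℂ) * tv15s = 1 / 2 := by
      rw [← Complex.ofReal_mul, tv15s_sq]; norm_num
    ext1
    · simp only
      linear_combination (2 * ζ.1) * hs
    · simp only
      linear_combination (2 * u * conj u * ζ.2) * hs + ζ.2 * hu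
  right_inv q := by
    have hs : (tv15s : ℂ) * tv15s = 1 / 2 := by
      rw [← Complex.ofReal_mul, tv15s_sq]; norm_num
    ext1
    · simp only
      linear_combination ((q.1 + q.2) + u * conj u * (q.1 - q.2)) * hs + (1/2) * (q.1 - q.2) * hu
    · simp only
      linear_combination ((q.1 + q.2) - u * conj u * (q.1 - q.2)) * hs - (1/2) * (q.1 - q.2) * hu

/-- the frames, as continuous linear equivalences -/
def tv15T (u : ℂ) (hu : u * conj u = 1) : (ℂ × ℂ) ≃L[ℝ] (ℂ × ℂ) :=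
  (tv15L u hu).toContinuousLinearEquiv

theorem tv15T_apply (u : ℂ) (hu : u * conj u = 1) (ζ : ℂ × ℂ) : tv15T u hu ζ =
    ((tv15s : ℂ) * (ζ.1 + u * ζ.2), (tv15s : ℂ) * (ζ.1 - u * ζ.2)) := rfl

theorem tv15_nsq (z : ℂ) : ‖z‖ ^ 2 = z.re * z.re + z.im * z.im := by
  rw [Complex.sq_norm, Complex.normSq_apply]

theorem tv15_hu {u : ℂ} (hu : u * conj u = 1) : u.re * u.re + u.im * u.im = 1 := by
  have h := congrArg Complex.re hu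
  simpa using h

theorem tv15_add (u : ℂ) (hu : u * conj u = 1) (ζ : ℂ × ℂ) :
    ‖(tv15T u hu ζ).1‖ ^ 2 + ‖(tv15T u hu ζ).2‖ ^ 2 = ‖ζ.1‖ ^ 2 + ‖ζ.2‖ ^ 2 := by
  have hs := tv15s_sq
  have hu' := tv15_hu hu
  rw [tv15T_apply]
  simp only [tv15_nsq, Complex.mul_re, Complex.mul_im, Complex.add_re, Complex.add_im,
    Complex.sub_re, Complex.sub_im, Complex.ofReal_re, Complex.ofReal_im]
  linear_combination (2 * (ζ.1.re * ζ.1.re + ζ.1.im * ζ.1.im) +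
    2 * (u.re * u.re + u.im * u.im) * (ζ.2.re * ζ.2.re + ζ.2.im * ζ.2.im)) * hs +
    (ζ.2.re * ζ.2.re + ζ.2.im * ζ.2.im) * hu'

theorem tv15_sub (u : ℂ) (hu : u * conj u = 1) (ζ : ℂ × ℂ) :
    ‖(tv15T u hu ζ).1‖ ^ 2 - ‖(tv15T u hu ζ).2‖ ^ 2 = (conj u * (2 * ζ.1 * conj ζ.2)).re := by
  have hs := tv15s_sq
  rw [tv15T_apply]
  simp only [tv15_nsq, Complex.mul_re, Complex.mul_im, Complex.add_re, Complex.add_im,
    Complex.sub_re, Complex.sub_im, Complex.ofReal_re, Complex.ofReal_im, Complex.conj_re,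
    Complex.conj_im, Complex.re_ofNat, Complex.im_ofNat]
  linear_combination (4 * (ζ.1.re * (u.re * ζ.2.re - u.im * ζ.2.im) +
    ζ.1.im * (u.re * ζ.2.im + u.im * ζ.2.re))) * hs

theorem tv15_re (u : ℂ) (hu : u * conj u = 1) (ζ : ℂ × ℂ) :
    2 * ((tv15T u hu ζ).1 * conj (tv15T u hu ζ).2).re = ‖ζ.1‖ ^ 2 - ‖ζ.2‖ ^ 2 := by
  have hs := tv15s_sq
  have hu' := tv15_hu hu
  rw [tv15T_apply]
  simp only [tv15_nsq, Complex.mul_re, Complex.mul_im, Complex.add_re, Complex.add_im,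
    Complex.sub_re, Complex.sub_im, Complex.ofReal_re, Complex.ofReal_im, Complex.conj_re,
    Complex.conj_im]
  linear_combination (2 * (ζ.1.re * ζ.1.re + ζ.1.im * ζ.1.im) -
    2 * (u.re * u.re + u.im * u.im) * (ζ.2.re * ζ.2.re + ζ.2.im * ζ.2.im)) * hs -
    (ζ.2.re * ζ.2.re + ζ.2.im * ζ.2.im) * hu'

theorem tv15_im (u : ℂ) (hu : u * conj u = 1) (ζ : ℂ × ℂ) :
    2 * ((tv15T u hu ζ).1 * conj (tv15T u hu ζ).2).im = -(conj u * (2 * ζ.1 * conj ζ.2)).im := by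
  have hs := tv15s_sq
  rw [tv15T_apply]
  simp only [Complex.mul_re, Complex.mul_im, Complex.add_re, Complex.add_im,
    Complex.sub_re, Complex.sub_im, Complex.ofReal_re, Complex.ofReal_im, Complex.conj_re,
    Complex.conj_im, Complex.re_ofNat, Complex.im_ofNat]
  linear_combination (4 * (ζ.1.re * (u.re * ζ.2.im + u.im * ζ.2.re) -
    ζ.1.im * (u.re * ζ.2.re - u.im * ζ.2.im))) * hs

/-- level `δ` -/
def tv15lev (L : ℝ) (A B : ℝ → ℝ) (δ : ℝ) (x y : ℂ) : ℝ :=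
  δ ^ 2 * flat L A B (δ⁻¹ • x) (δ⁻¹ • y)

theorem tv15_norm {δ : ℝ} (hδ : 0 < δ) (x : ℂ) : ‖δ⁻¹ • x‖ = ‖x‖ / δ := by
  rw [norm_smul, norm_inv, Real.norm_of_nonneg hδ.le, div_eq_inv_mul]

theorem tv15_out {L : ℝ} (hL : 1 ≤ L) {A B : ℝ → ℝ} (hA : IsProf A) (hB : IsProf B) {δ : ℝ}
    (hδ : 0 < δ) {x y : ℂ} (h : (4 * L * δ) ^ 2 ≤ ‖x‖ ^ 2 + ‖y‖ ^ 2) :
    tv15lev L A B δ x y = ‖x‖ ^ 2 - ‖y‖ ^ 2 := by
  unfold tv15lev
  rw [flat_out hL hA hB, tv15_norm hδ, tv15_norm hδ]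
  · field_simp
  · rw [tv15_norm hδ, tv15_norm hδ, div_pow, div_pow, ← add_div, le_div_iff₀ (by positivity)]
    nlinarith

theorem tv15_zero {L : ℝ} (hL : 1 ≤ L) {A : ℝ → ℝ} (hA : ∀ r, r ≤ 1 / 2 → A r = A 0) {δ : ℝ}
    (hδ : 0 < δ) {x y : ℂ} (h : ‖x‖ ^ 2 + ‖y‖ ^ 2 ≤ (δ / 2) ^ 2) :
    tv15lev L A A δ x y = 0 := by
  have hx : ‖x‖ / δ ≤ 1 / 2 := by
    rw [div_le_iff₀ hδ]
    have := norm_nonneg x
    nlinarith [sq_nonneg ‖y‖]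
  have hy : ‖y‖ / δ ≤ 1 / 2 := by
    rw [div_le_iff₀ hδ]
    have := norm_nonneg y
    nlinarith [sq_nonneg ‖x‖]
  unfold tv15lev
  rw [flat_mid hL, tv15_norm hδ, tv15_norm hδ, hA _ hx, hA _ hy, sub_self, mul_zero]
  · rw [tv15_norm hδ]; linarith
  · rw [tv15_norm hδ]; linarith

theorem tv15_smooth {L : ℝ} (hL : 1 ≤ L) {A B : ℝ → ℝ} (hA : IsProf A) (hB : IsProf B) (δ : ℝ) :
    ContDiff ℝ ∞ fun p : ℂ × ℂ => tv15lev L A B δ p.1 p.2 := by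
  unfold tv15lev
  have h1 : ContDiff ℝ ∞ fun p : ℂ × ℂ => (δ⁻¹ • p.1, δ⁻¹ • p.2) :=
    (contDiff_fst.const_smul δ⁻¹).prodMk (contDiff_snd.const_smul δ⁻¹)
  exact contDiff_const.mul ((flat_smooth hL hA hB).comp h1)

theorem tv15_cx {L : ℝ} (hL1 : 1 ≤ L) (hL : ∀ A : ℝ → ℝ, IsProf A → ∀ b : ℝ, |b| ≤ 1 →
    MonotoneOn (fun r => A r - b * chi (r / L)) (Set.Ici 0) ∧
    ConvexOn ℝ (Set.Ici 0) (fun r => A r - b * chi (r / L))) {A B : ℝ → ℝ} (hA : IsProf A)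
    (hB : IsProf B) (δ : ℝ) (y : ℂ) : ConvexOn ℝ Set.univ fun x => tv15lev L A B δ x y := by
  have h1 := (flat_convex hL1 hL hA hB (δ⁻¹ • y)).comp_linearMap
    (δ⁻¹ • (LinearMap.id : ℂ →ₗ[ℝ] ℂ))
  exact h1.smul (sq_nonneg δ)

theorem tv15_cv {L : ℝ} (hL1 : 1 ≤ L) (hL : ∀ A : ℝ → ℝ, IsProf A → ∀ b : ℝ, |b| ≤ 1 →
    MonotoneOn (fun r => A r - b * chi (r / L)) (Set.Ici 0) ∧
    ConvexOn ℝ (Set.Ici 0) (fun r => A r - b * chi (r / L))) {A B : ℝ → ℝ} (hA : IsProf A)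
    (hB : IsProf B) (δ : ℝ) (x : ℂ) : ConcaveOn ℝ Set.univ fun y => tv15lev L A B δ x y := by
  have h1 := (flat_concave hL1 hL hA hB (δ⁻¹ • x)).comp_linearMap
    (δ⁻¹ • (LinearMap.id : ℂ →ₗ[ℝ] ℂ))
  exact h1.smul (sq_nonneg δ)

/-- the real bilinear part -/
def tv15b (e a : ℝ) (x y : ℂ) : ℝ := e * (2 * (x * conj y).re) + a * (2 * (x * conj y).im)

/-- linear functions are convex -/
theorem tv15_lin (f : ℂ →ₗ[ℝ] ℝ) : ConvexOn ℝ Set.univ f ∧ ConcaveOn ℝ Set.univ f :=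
  ⟨f.convexOn convex_univ, f.concaveOn convex_univ⟩

theorem tv15_b1 (e a : ℝ) (y : ℂ) : ConvexOn ℝ Set.univ (fun x => tv15b e a x y) ∧
    ConcaveOn ℝ Set.univ (fun x => tv15b e a x y) := by
  let f : ℂ →ₗ[ℝ] ℝ :=
    { toFun := fun x => tv15b e a x y
      map_add' := fun x x' => by
        simp only [tv15b, add_mul, Complex.add_re, Complex.add_im]; ring
      map_smul' := fun c x => by
        simp only [tv15b, Complex.real_smul, mul_assoc, Complex.re_ofReal_mul,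
          Complex.im_ofReal_mul, RingHom.id_apply, smul_eq_mul]; ring }
  exact tv15_lin f

theorem tv15_b2 (e a : ℝ) (x : ℂ) : ConvexOn ℝ Set.univ (fun y => tv15b e a x y) ∧
    ConcaveOn ℝ Set.univ (fun y => tv15b e a x y) := by
  let f : ℂ →ₗ[ℝ] ℝ :=
    { toFun := fun y => tv15b e a x y
      map_add' := fun y y' => by
        simp only [tv15b, map_add, mul_add, Complex.add_re, Complex.add_im]; ring
      map_smul' := fun c y => by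
        simp only [tv15b, Complex.real_smul, map_mul, Complex.conj_ofReal, Complex.mul_re,
          Complex.mul_im, Complex.ofReal_re, Complex.ofReal_im, RingHom.id_apply, smul_eq_mul]
        ring }
  exact tv15_lin f

/-- saddle from a bilinear form and a multiple of a level -/
theorem tv15_saddle {L : ℝ} (hL1 : 1 ≤ L) (hL : ∀ A : ℝ → ℝ, IsProf A → ∀ b : ℝ, |b| ≤ 1 →
    MonotoneOn (fun r => A r - b * chi (r / L)) (Set.Ici 0) ∧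
    ConvexOn ℝ (Set.Ici 0) (fun r => A r - b * chi (r / L))) {A B : ℝ → ℝ} (hA : IsProf A)
    (hB : IsProf B) (δ e a c : ℝ) {N : ℂ × ℂ → ℝ} {p : ℂ × ℂ} (T : (ℂ × ℂ) ≃L[ℝ] (ℂ × ℂ))
    (hN : DifferentiableAt ℝ N p)
    (hNK : ∀ᶠ ζ in nhds p, N ζ = tv15b e a (T ζ).1 (T ζ).2 +
      c * tv15lev L A B δ (T ζ).1 (T ζ).2) : Saddle N p := by
  rcases le_total 0 c with hc | hc
  · refine saddle_frame (K := fun q => tv15b e a q.1 q.2 + c * tv15lev L A B δ q.1 q.2) T hN hNK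
      ?_ ?_
    · intro y
      exact (tv15_b1 e a y).1.add ((tv15_cx hL1 hL hA hB δ y).smul hc)
    · intro x
      exact (tv15_b2 e a x).2.add ((tv15_cv hL1 hL hA hB δ x).smul hc)
  · have hc' : 0 ≤ -c := by linarith
    refine saddle_frame' (K := fun q => tv15b e a q.1 q.2 + c * tv15lev L A B δ q.1 q.2) T hN hNK
      ?_ ?_
    · intro y
      have h1 := ((tv15_cx hL1 hL hA hB δ y).smul hc').neg
      have h2 := (tv15_b1 e a y).2.add h1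
      have h3 : ((fun x => tv15b e a x y) + -fun x => (-c) • tv15lev L A B δ x y) =
          fun x => tv15b e a x y + c * tv15lev L A B δ x y := by
        funext x
        simp only [Pi.add_apply, Pi.neg_apply, smul_eq_mul]
        ring
      rw [h3] at h2
      exact h2
    · intro x
      have h1 := ((tv15_cv hL1 hL hA hB δ x).smul hc').neg
      have h2 := (tv15_b2 e a x).1.add h1
      have h3 : ((fun y => tv15b e a x y) + -fun y => (-c) • tv15lev L A B δ x y) =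
          fun y => tv15b e a x y + c * tv15lev L A B δ x y := by
        funext x
        simp only [Pi.add_apply, Pi.neg_apply, smul_eq_mul]
        ring
      rw [h3] at h2
      exact h2

theorem tv15_one : (1 : ℂ) * conj (1 : ℂ) = 1 := by simp

theorem tv15_I : Complex.I * conj Complex.I = 1 := by simp

/-- the flattened Hopf map -/
theorem hhat : ∃ (q : ℂ × ℂ → ℝ) (w : ℂ × ℂ → ℂ) (R β : ℝ), 1 ≤ R ∧ ContDiff ℝ ∞ q ∧
    ContDiff ℝ ∞ w ∧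
    (∀ ζ, R ^ 2 ≤ ‖ζ.1‖ ^ 2 + ‖ζ.2‖ ^ 2 →
      q ζ = ‖ζ.1‖ ^ 2 - ‖ζ.2‖ ^ 2 ∧ w ζ = 2 * ζ.1 * conj ζ.2) ∧
    (∀ (e : ℝ) (e' : ℂ) (p : ℂ × ℂ), Saddle (fun ζ => e * q ζ + (conj e' * w ζ).re) p) ∧
    (∀ ζ, 1 / 2 ≤ ‖ζ.1‖ → ‖ζ.1‖ ≤ 3 / 4 → ‖ζ.2‖ ≤ 1 / 2 → q ζ = ‖ζ.1‖ + β) ∧
    (∀ ζ, ‖ζ.1‖ ≤ 3 / 4 → ‖ζ.2‖ ≤ 1 / 2 → w ζ = 0) ∧
    (∀ ζ ρ, 1 / 2 < ρ → ρ ≤ 3 / 4 → ‖ζ.1‖ < ρ → ‖ζ.2‖ ≤ 1 / 2 → q ζ < ρ + β) := by
  obtain ⟨A, C, hA, hA0, -, -, -⟩ := prof0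
  obtain ⟨A1, β, hA1, hβ⟩ := prof1
  obtain ⟨L, hL1, hL⟩ := cutoff
  have hL0 : 0 < L := by linarith
  have hLL : L ≤ L ^ 2 := by nlinarith
  set d2 : ℝ := 16 * L with hd2
  set d3 : ℝ := 256 * L ^ 2 with hd3
  have hd20 : 0 < d2 := by positivity
  have hd30 : 0 < d3 := by positivity
  set T2 := tv15T 1 tv15_one with hT2
  set T3 := tv15T Complex.I tv15_I with hT3
  set w2 : ℂ × ℂ → ℝ := fun ζ => tv15lev L A A d2 (T2 ζ).1 (T2 ζ).2 with hw2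
  set w3 : ℂ × ℂ → ℝ := fun ζ => tv15lev L A A d3 (T3 ζ).1 (T3 ζ).2 with hw3
  set q : ℂ × ℂ → ℝ := fun ζ => tv15lev L A1 A 1 ζ.1 ζ.2 with hq
  set w : ℂ × ℂ → ℂ := fun ζ => (w2 ζ : ℂ) + (w3 ζ : ℂ) * Complex.I with hw
  -- identities
  have r2 : ∀ ζ, ‖(T2 ζ).1‖ ^ 2 - ‖(T2 ζ).2‖ ^ 2 = (2 * ζ.1 * conj ζ.2).re := fun ζ => by
    rw [hT2, tv15_sub]; simp
  have r3 : ∀ ζ, ‖(T3 ζ).1‖ ^ 2 - ‖(T3 ζ).2‖ ^ 2 = (2 * ζ.1 * conj ζ.2).im := fun ζ => by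
    rw [hT3, tv15_sub, Complex.conj_I, neg_mul, Complex.neg_re, Complex.I_mul_re, neg_neg]
  have i3 : ∀ ζ, 2 * ((T3 ζ).1 * conj (T3 ζ).2).im = (2 * ζ.1 * conj ζ.2).re := fun ζ => by
    rw [hT3, tv15_im, Complex.conj_I, neg_mul, Complex.neg_im, Complex.I_mul_im, neg_neg]
  have n2 : ∀ ζ, ‖(T2 ζ).1‖ ^ 2 + ‖(T2 ζ).2‖ ^ 2 = ‖ζ.1‖ ^ 2 + ‖ζ.2‖ ^ 2 := tv15_add _ _
  have n3 : ∀ ζ, ‖(T3 ζ).1‖ ^ 2 + ‖(T3 ζ).2‖ ^ 2 = ‖ζ.1‖ ^ 2 + ‖ζ.2‖ ^ 2 := tv15_add _ _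
  have m2 : ∀ ζ, 2 * ((T2 ζ).1 * conj (T2 ζ).2).re = ‖ζ.1‖ ^ 2 - ‖ζ.2‖ ^ 2 := tv15_re _ _
  have m3 : ∀ ζ, 2 * ((T3 ζ).1 * conj (T3 ζ).2).re = ‖ζ.1‖ ^ 2 - ‖ζ.2‖ ^ 2 := tv15_re _ _
  -- levels
  have oq : ∀ ζ : ℂ × ℂ, (4 * L) ^ 2 ≤ ‖ζ.1‖ ^ 2 + ‖ζ.2‖ ^ 2 → q ζ = ‖ζ.1‖ ^ 2 - ‖ζ.2‖ ^ 2 :=
    fun ζ h => tv15_out hL1 hA1 hA one_pos (by rwa [mul_one])
  have o2 : ∀ ζ : ℂ × ℂ, (4 * L * d2) ^ 2 ≤ ‖ζ.1‖ ^ 2 + ‖ζ.2‖ ^ 2 →
      w2 ζ = (2 * ζ.1 * conj ζ.2).re := fun ζ h => by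
    rw [← r2]; exact tv15_out hL1 hA hA hd20 (by rwa [n2])
  have o3 : ∀ ζ : ℂ × ℂ, (4 * L * d3) ^ 2 ≤ ‖ζ.1‖ ^ 2 + ‖ζ.2‖ ^ 2 →
      w3 ζ = (2 * ζ.1 * conj ζ.2).im := fun ζ h => by
    rw [← r3]; exact tv15_out hL1 hA hA hd30 (by rwa [n3])
  have z2 : ∀ ζ : ℂ × ℂ, ‖ζ.1‖ ^ 2 + ‖ζ.2‖ ^ 2 ≤ (d2 / 2) ^ 2 → w2 ζ = 0 := fun ζ h =>
    tv15_zero hL1 hA0 hd20 (by rwa [n2])
  have z3 : ∀ ζ : ℂ × ℂ, ‖ζ.1‖ ^ 2 + ‖ζ.2‖ ^ 2 ≤ (d3 / 2) ^ 2 → w3 ζ = 0 := fun ζ h =>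
    tv15_zero hL1 hA0 hd30 (by rwa [n3])
  have sq : ContDiff ℝ ∞ q := tv15_smooth hL1 hA1 hA 1
  have s2 : ContDiff ℝ ∞ w2 := (tv15_smooth hL1 hA hA d2).comp T2.contDiff
  have s3 : ContDiff ℝ ∞ w3 := (tv15_smooth hL1 hA hA d3).comp T3.contDiff
  have sw : ContDiff ℝ ∞ w :=
    (Complex.ofRealCLM.contDiff.comp s2).add ((Complex.ofRealCLM.contDiff.comp s3).mul
      contDiff_const)
  have wre : ∀ ζ, (w ζ).re = w2 ζ := fun ζ => by simp [hw]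
  have wim : ∀ ζ, (w ζ).im = w3 ζ := fun ζ => by simp [hw]
  have hcont : Continuous fun ζ : ℂ × ℂ => ‖ζ.1‖ ^ 2 + ‖ζ.2‖ ^ 2 := by fun_prop
  have e1 : (4 * L) ^ 2 < (d2 / 2) ^ 2 := by
    apply pow_lt_pow_left₀ _ (by positivity) two_ne_zero
    rw [hd2]; linarith
  have e2 : (4 * L * d2) ^ 2 < (d3 / 2) ^ 2 := by
    apply pow_lt_pow_left₀ _ (by positivity) two_ne_zero
    rw [hd2, hd3]; nlinarith
  have e3 : (d3 / 2) ^ 2 ≤ (4 * L * d3) ^ 2 := by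
    apply pow_le_pow_left₀ (by positivity)
    nlinarith
  have e4 : (d2 / 2) ^ 2 ≤ (4 * L * d2) ^ 2 := by
    apply pow_le_pow_left₀ (by positivity)
    nlinarith
  have q0 : ∀ ζ : ℂ × ℂ, ‖ζ.1‖ ≤ 3 / 4 → ‖ζ.2‖ ≤ 1 / 2 → q ζ = A1 ‖ζ.1‖ - A 0 := by
    intro ζ h2 h3
    have h4 : q ζ = A1 ‖ζ.1‖ - A ‖ζ.2‖ := by
      show tv15lev L A1 A 1 ζ.1 ζ.2 = _
      unfold tv15lev
      rw [inv_one, one_smul, one_smul, one_pow, one_mul, flat_mid hL1 (by linarith) (by linarith)]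
    rw [h4, hA0 _ h3]
  refine ⟨q, w, 4 * L * d3, β - A 0, ?_, sq, sw, ?_, ?_, ?_, ?_, ?_⟩
  · rw [hd3]; nlinarith
  · intro ζ h
    refine ⟨oq ζ (by linarith), ?_⟩
    apply Complex.ext
    · rw [wre, o2 ζ (by linarith)]
    · rw [wim, o3 ζ h]
  · intro e e' p
    have hN : DifferentiableAt ℝ (fun ζ => e * q ζ + (conj e' * w ζ).re) p := by
      have h1 : Differentiable ℝ q := sq.differentiable (by simp)
      have h2 : Differentiable ℝ w := sw.differentiable (by simp)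
      have h3 : Differentiable ℝ (fun ζ => (conj e' * w ζ).re) := fun x =>
        Complex.reCLM.differentiableAt.comp x ((h2 x).const_mul (conj e'))
      exact ((h1 p).const_mul e).add (h3 p)
    have hNe : ∀ ζ, e * q ζ + (conj e' * w ζ).re = e * q ζ + e'.re * w2 ζ + e'.im * w3 ζ := by
      intro ζ
      rw [Complex.mul_re, Complex.conj_re, Complex.conj_im, wre, wim]
      ring
    rcases lt_or_ge ((4 * L * d2) ^ 2) (‖p.1‖ ^ 2 + ‖p.2‖ ^ 2) with hp | hp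
    · refine tv15_saddle hL1 hL hA hA d3 e e'.re e'.im T3 hN ?_
      filter_upwards [hcont.continuousAt.eventually (lt_mem_nhds hp)] with ζ hζ
      rw [hNe, oq ζ (by linarith), o2 ζ hζ.le, tv15b, m3, i3]
    rcases lt_or_ge (‖p.1‖ ^ 2 + ‖p.2‖ ^ 2) ((d2 / 2) ^ 2) with hp2 | hp2
    · refine tv15_saddle hL1 hL hA1 hA 1 0 0 e (ContinuousLinearEquiv.refl ℝ (ℂ × ℂ)) hN ?_
      filter_upwards [hcont.continuousAt.eventually (gt_mem_nhds hp2)] with ζ hζ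
      rw [hNe, z2 ζ hζ.le, z3 ζ (by linarith), tv15b]
      simp [hq]
    · refine tv15_saddle hL1 hL hA hA d2 e 0 e'.re T2 hN ?_
      have hp3 : ‖p.1‖ ^ 2 + ‖p.2‖ ^ 2 < (d3 / 2) ^ 2 := by linarith
      have hp4 : (4 * L) ^ 2 < ‖p.1‖ ^ 2 + ‖p.2‖ ^ 2 := by linarith
      filter_upwards [hcont.continuousAt.eventually (gt_mem_nhds hp3),
        hcont.continuousAt.eventually (lt_mem_nhds hp4)] with ζ hζ hζ'
      rw [hNe, z3 ζ hζ.le, oq ζ hζ'.le, tv15b, m2]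
      ring
  · intro ζ h1 h2 h3
    rw [q0 ζ h2 h3, hβ _ h1 h2]
    ring
  · intro ζ h1 h2
    have h3 : ‖ζ.1‖ ^ 2 + ‖ζ.2‖ ^ 2 ≤ (d2 / 2) ^ 2 := by
      have h4 := norm_nonneg ζ.1
      have h5 := norm_nonneg ζ.2
      rw [hd2]
      nlinarith
    apply Complex.ext
    · rw [wre, z2 ζ h3, Complex.zero_re]
    · rw [wim, z3 ζ (by linarith), Complex.zero_im]
  · intro ζ ρ h1 h2 h3 h4
    rw [q0 ζ (by linarith) h4]
    rcases le_total (1 / 2) ‖ζ.1‖ with h5 | h5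
    · rw [hβ _ h5 (by linarith)]
      linarith
    · have h6 : A1 ‖ζ.1‖ ≤ A1 (1 / 2) :=
        hA1.mono (Set.mem_Ici.2 (norm_nonneg _)) (Set.mem_Ici.2 (by norm_num)) h5
      rw [hβ _ le_rfl (by norm_num)] at h6
      linarith

end

end Pool.Agent.H63.TV
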