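import Pool.Agent.H63.TV.Defs

/-!
# TV-01, TV-02: the index of a symmetric bilinear form

`idx_two`.  (a) `W` negative definite, then `W ∩ P = 0`, so `dim W ≤ dim E - dim P ≤ 2`.
(b) Let `W` be negative definite of maximal dimension `d` and `N = {v | B v w = 0 for all w ∈ W}`.
`B` restricted to `W` is nondegenerate, so `E = W + N` (every `v` can be corrected by an element of `W`),
and `dim N ≥ dim E - d`.  `B v v ≥ 0` on `N` (otherwise `W + ℝ v` would be negative definite of dimension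
`d + 1`).  If `v ∈ Q ∩ N` then `B v v = 0`, so by Cauchy-Schwarz for the positive semidefinite form on `N`
(`B (w + t v) (w + t v) = B w w + 2 t B w v ≥ 0` for all `t`) `B v w = 0` for `w ∈ N`, also for
`w ∈ W`, so for all `w`, and `v ∈ R`.  So `dim Q - d ≤ dim (Q ∩ N) ≤ dim R` and `d ≥ 2`.
By (a) `d = 2`.
`HasIdx.comap`: images and preimages: a negative definite `W` meets `ker L` in `0`, so `L` maps it
isomorphically to a negative definite subspace; conversely lift a basis of a negative definite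
subspace of `E'` (a linear right inverse of `L`).
-/

namespace Pool.Agent.H63.TV

variable {E E' : Type*} [NormedAddCommGroup E] [NormedSpace ℝ E] [NormedAddCommGroup E']
  [NormedSpace ℝ E']

theorem HasIdx.unique {B : E →L[ℝ] E →L[ℝ] ℝ} {m m' : ℕ} (h : HasIdx B m) (h' : HasIdx B m') :
    m = m' := by
  obtain ⟨⟨W, hW, hW'⟩, h2⟩ := h
  obtain ⟨⟨W1, hW1, hW1'⟩, h3⟩ := h'
  have a := h2 W1 hW1'
  have b := h3 W hW'
  omega

private theorem idxTwo_le [FiniteDimensional ℝ E] (B : E →L[ℝ] E →L[ℝ] ℝ) (P W : Submodule ℝ E)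
    (hP : ∀ v ∈ P, 0 ≤ B v v) (h1 : Module.finrank ℝ E ≤ Module.finrank ℝ P + 2)
    (hW : ∀ w ∈ W, w ≠ 0 → B w w < 0) : Module.finrank ℝ W ≤ 2 := by
  have hdis : W ⊓ P = ⊥ := by
    rw [Submodule.eq_bot_iff]
    intro x hx
    by_contra hne
    have h2 := hW x hx.1 hne
    have h3 := hP x hx.2
    linarith
  have h4 := Submodule.finrank_sup_add_finrank_inf_eq W P
  rw [hdis, finrank_bot] at h4
  have h5 := Submodule.finrank_le (W ⊔ P)
  omega

private theorem idxTwo_ext [FiniteDimensional ℝ E] (B : E →L[ℝ] E →L[ℝ] ℝ)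
    (hs : ∀ v w, B v w = B w v) (W : Submodule ℝ E)
    (hW : ∀ w ∈ W, w ≠ 0 → B w w < 0) (v : E) (hv : ∀ w ∈ W, B v w = 0) (hvv : B v v < 0) :
    ∃ W' : Submodule ℝ E, Module.finrank ℝ W < Module.finrank ℝ W' ∧
      ∀ w ∈ W', w ≠ 0 → B w w < 0 := by
  refine ⟨W ⊔ Submodule.span ℝ {v}, ?_, ?_⟩
  · apply Submodule.finrank_lt_finrank_of_lt
    refine lt_of_le_of_ne le_sup_left ?_
    intro h
    have hvW : v ∈ W := by
      rw [h]
      exact Submodule.mem_sup_right (Submodule.mem_span_singleton_self v)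
    have := hv v hvW
    linarith
  · intro x hx hne
    obtain ⟨w, hw, y, hy, rfl⟩ := Submodule.mem_sup.1 hx
    obtain ⟨t, rfl⟩ := Submodule.mem_span_singleton.1 hy
    have e1 : B (w + t • v) (w + t • v) = B w w + t ^ 2 * B v v := by
      have h1 : B v w = 0 := hv w hw
      have h2 : B w v = 0 := by rw [hs, h1]
      simp only [map_add, map_smul, ContinuousLinearMap.add_apply, ContinuousLinearMap.smul_apply,
        smul_eq_mul, h1, h2]
      ring
    rw [e1]
    by_cases hw0 : w = 0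
    · have ht : t ≠ 0 := by
        intro h0
        apply hne
        rw [hw0, h0, zero_smul, zero_add]
      rw [hw0]
      have : 0 < t ^ 2 := by positivity
      simp only [map_zero, zero_add]
      exact mul_neg_of_pos_of_neg this hvv
    · have h3 := hW w hw hw0
      have h4 : 0 ≤ t ^ 2 := sq_nonneg t
      have h5 := mul_nonneg h4 (neg_nonneg.2 hvv.le)
      linarith

private theorem idxTwo_dec [FiniteDimensional ℝ E] (B : E →L[ℝ] E →L[ℝ] ℝ) (W : Submodule ℝ E)
    (hW : ∀ w ∈ W, w ≠ 0 → B w w < 0) (v : E) :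
    ∃ w0 ∈ W, ∀ w ∈ W, B (v - w0) w = 0 := by
  let T : W →ₗ[ℝ] Module.Dual ℝ W :=
    { toFun := fun w => ((B (w : E) : E →L[ℝ] ℝ) : E →ₗ[ℝ] ℝ).domRestrict W
      map_add' := by
        intro a b
        ext c
        simp
      map_smul' := by
        intro a b
        ext c
        simp }
  have hT : ∀ a b : W, T a b = B (a : E) (b : E) := fun a b => rfl
  have hinj : Function.Injective T := by
    rw [← LinearMap.ker_eq_bot, LinearMap.ker_eq_bot']
    intro w hw
    by_contra hne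
    have h1 : T w w = 0 := by rw [hw]; rfl
    rw [hT] at h1
    have h2 : (w : E) ≠ 0 := fun h => hne (Subtype.ext h)
    have h3 := hW w w.2 h2
    linarith
  have hsur : Function.Surjective T :=
    (LinearMap.injective_iff_surjective_of_finrank_eq_finrank
      (Subspace.dual_finrank_eq).symm).1 hinj
  obtain ⟨w0, hw0⟩ := hsur (((B v : E →L[ℝ] ℝ) : E →ₗ[ℝ] ℝ).domRestrict W)
  refine ⟨w0, w0.2, ?_⟩
  intro w hw
  have h1 := LinearMap.congr_fun hw0 ⟨w, hw⟩
  have h2 : B (w0 : E) w = B v w := h1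
  rw [map_sub, ContinuousLinearMap.sub_apply, h2, sub_self]

private theorem idxTwo_ge [FiniteDimensional ℝ E] (B : E →L[ℝ] E →L[ℝ] ℝ)
    (hs : ∀ v w, B v w = B w v)
    (R Q W : Submodule ℝ E) (hR : ∀ v, (∀ w, B v w = 0) → v ∈ R)
    (hQ : ∀ v ∈ Q, B v v ≤ 0) (h2 : Module.finrank ℝ R + 2 ≤ Module.finrank ℝ Q)
    (hW : ∀ w ∈ W, w ≠ 0 → B w w < 0)
    (hmax : ∀ W' : Submodule ℝ E, (∀ w ∈ W', w ≠ 0 → B w w < 0) →
      Module.finrank ℝ W' ≤ Module.finrank ℝ W) : 2 ≤ Module.finrank ℝ W := by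
  let S : E →ₗ[ℝ] Module.Dual ℝ W :=
    { toFun := fun v => ((B v : E →L[ℝ] ℝ) : E →ₗ[ℝ] ℝ).domRestrict W
      map_add' := by
        intro a b
        ext c
        simp
      map_smul' := by
        intro a b
        ext c
        simp }
  have hS : ∀ (a : E) (b : W), S a b = B a (b : E) := fun a b => rfl
  have hN : ∀ v, v ∈ LinearMap.ker S ↔ ∀ w ∈ W, B v w = 0 := by
    intro v
    rw [LinearMap.mem_ker]
    constructor
    · intro h w hw
      have := LinearMap.congr_fun h ⟨w, hw⟩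
      rw [hS] at this
      exact this
    · intro h
      ext b
      rw [hS]
      exact h b b.2
  have hNdim : Module.finrank ℝ E ≤ Module.finrank ℝ (LinearMap.ker S) + Module.finrank ℝ W := by
    have h3 := LinearMap.finrank_range_add_finrank_ker S
    have h4 := Submodule.finrank_le (LinearMap.range S)
    have h5 : Module.finrank ℝ (Module.Dual ℝ W) = Module.finrank ℝ W := Subspace.dual_finrank_eq
    omega
  have hpos : ∀ v ∈ LinearMap.ker S, 0 ≤ B v v := by
    intro v hv
    by_contra hneg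
    push Not at hneg
    obtain ⟨W', h3, h4⟩ := idxTwo_ext B hs W hW v ((hN v).1 hv) hneg
    have h5 := hmax W' h4
    omega
  have hsub : Q ⊓ LinearMap.ker S ≤ R := by
    rintro v ⟨hvQ, hvN⟩
    have hv0 : B v v = 0 := le_antisymm (hQ v hvQ) (hpos v hvN)
    have hker : ∀ w ∈ LinearMap.ker S, B v w = 0 := by
      intro w hw
      have hall : ∀ t : ℝ, 0 ≤ B w w + 2 * t * B w v := by
        intro t
        have h3 := hpos (w + t • v) (Submodule.add_mem _ hw (Submodule.smul_mem _ t hvN))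
        have e1 : B (w + t • v) (w + t • v) = B w w + 2 * t * B w v + t ^ 2 * B v v := by
          simp only [map_add, map_smul, ContinuousLinearMap.add_apply,
            ContinuousLinearMap.smul_apply, smul_eq_mul, hs v w]
          ring
        rw [e1, hv0] at h3
        linarith
      by_contra hne
      have hne' : B w v ≠ 0 := by
        rw [hs w v]
        exact hne
      have h3 := hall (-(B w w + 1) / (2 * B w v))
      have h4 : 2 * (-(B w w + 1) / (2 * B w v)) * B w v = -(B w w + 1) := by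
        field_simp
      rw [h4] at h3
      linarith
    apply hR
    intro w
    obtain ⟨w0, hw0, h3⟩ := idxTwo_dec B W hW w
    have h4 : w - w0 ∈ LinearMap.ker S := (hN _).2 h3
    have h5 := hker _ h4
    have h6 := (hN v).1 hvN w0 hw0
    rw [map_sub, h6, sub_zero] at h5
    exact h5
  have h3 := Submodule.finrank_mono hsub
  have h4 := Submodule.finrank_sup_add_finrank_inf_eq Q (LinearMap.ker S)
  have h5 := Submodule.finrank_le (Q ⊔ LinearMap.ker S)
  omega

theorem idx_two [FiniteDimensional ℝ E] (B : E →L[ℝ] E →L[ℝ] ℝ) (hs : ∀ v w, B v w = B w v)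
    (R P Q : Submodule ℝ E) (hR : ∀ v, (∀ w, B v w = 0) → v ∈ R) (hP : ∀ v ∈ P, 0 ≤ B v v)
    (hQ : ∀ v ∈ Q, B v v ≤ 0) (h1 : Module.finrank ℝ E ≤ Module.finrank ℝ P + 2)
    (h2 : Module.finrank ℝ R + 2 ≤ Module.finrank ℝ Q) : HasIdx B 2 := by
  classical
  let p : ℕ → Prop := fun d => ∃ W : Submodule ℝ E, Module.finrank ℝ W = d ∧
    ∀ w ∈ W, w ≠ 0 → B w w < 0
  have hp0 : p 0 := by
    refine ⟨⊥, finrank_bot ℝ E, ?_⟩
    intro w hw hne
    exact absurd ((Submodule.mem_bot ℝ).1 hw) hne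
  obtain ⟨W, hWd, hW⟩ : p (Nat.findGreatest p 2) := Nat.findGreatest_spec (Nat.zero_le 2) hp0
  have hmax : ∀ W' : Submodule ℝ E, (∀ w ∈ W', w ≠ 0 → B w w < 0) →
      Module.finrank ℝ W' ≤ Module.finrank ℝ W := by
    intro W' hW'
    rw [hWd]
    exact Nat.le_findGreatest (idxTwo_le B P W' hP h1 hW') ⟨W', rfl, hW'⟩
  have h3 := idxTwo_ge B hs R Q W hR hQ h2 hW hmax
  have h4 := idxTwo_le B P W hP h1 hW
  exact ⟨⟨W, le_antisymm h4 h3, hW⟩, fun W' hW' => idxTwo_le B P W' hP h1 hW'⟩

end Pool.Agent.H63.TV
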