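import Pool.Agent.H63.TV.Defs
import Pool.Agent.H63.TV.Lin1

/-!
# TV-01, TV-02: the index of a symmetric bilinear form

`idx_two`.  (a) `W` negative definite, then `W ∩ P = 0`, so `dim W ≤ dim E - dim P ≤ 2`.
(b) Let `W` be negative definite of maximal dimension `d` and `N = {v | B v w = 0 for all w ∈ W}`.
`B` restricted to `W` is nondegenerate, so `E = W + N` (every `v` can be corrected by an element of `W`),
and `dim N ≥ dim E - d`.  `B v v ≥ 0` on `N` (otherwise `W + ℝ v` would be negative definite of dimension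
`d + 1`).  If `v ∈ Q ∩ N` then `B v v = 0`, so by Cauchy-Schwarz for the positive semidefinite form on `N`
(`B (w + t v) (w + t v) = B w w + 2 t B w v ≥ 0` for all `t`) `B v w = 0` for `w ∈ N`, also for
`w ∈ W`, so for all `w`, and `v ∈ R`.  So `dim Q - d ≤ dim (Q ∩ N) ≤ dim R` and `d ≥ 2`.
By (a) `d = 2`.
`HasIdx.comap`: images and preimages: a negative definite `W` meets `ker L` in `0`, so `L` maps it
isomorphically to a negative definite subspace; conversely lift a basis of a negative definite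
subspace of `E'` (a linear right inverse of `L`).
-/

namespace Pool.Agent.H63.TV

variable {E E' : Type*} [NormedAddCommGroup E] [NormedSpace ℝ E] [NormedAddCommGroup E']
  [NormedSpace ℝ E']

theorem lin_up [FiniteDimensional ℝ E] [FiniteDimensional ℝ E']
    (B : E →L[ℝ] E →L[ℝ] ℝ) (B' : E' →L[ℝ] E' →L[ℝ] ℝ) (L : E →L[ℝ] E')
    (h : ∀ v w, B v w = B' (L v) (L w)) (W : Submodule ℝ E)
    (hW : ∀ w ∈ W, w ≠ 0 → B w w < 0) :
    ∃ W' : Submodule ℝ E', Module.finrank ℝ W' = Module.finrank ℝ W ∧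
      ∀ w ∈ W', w ≠ 0 → B' w w < 0 := by
  have hinj : ∀ w ∈ W, L w = 0 → w = 0 := by
    intro w hw h0
    by_contra hne
    have h1 := hW w hw hne
    rw [h w w, h0] at h1
    simp at h1
  refine ⟨W.map (L : E →ₗ[ℝ] E'), ?_, ?_⟩
  · have hd : Function.Injective ((L : E →ₗ[ℝ] E').domRestrict W) := by
      rw [← LinearMap.ker_eq_bot, LinearMap.ker_eq_bot']
      intro w hw
      apply Subtype.ext
      exact hinj w w.2 hw
    have h2 := LinearMap.finrank_range_of_inj hd
    rw [LinearMap.range_domRestrict] at h2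
    exact h2
  · intro w' hw' hne
    obtain ⟨w, hw, rfl⟩ := Submodule.mem_map.1 hw'
    have hne2 : w ≠ 0 := by
      intro h0
      apply hne
      rw [h0, map_zero]
    have h1 := hW w hw hne2
    rw [h w w] at h1
    exact h1

theorem lin_down [FiniteDimensional ℝ E] [FiniteDimensional ℝ E']
    (B : E →L[ℝ] E →L[ℝ] ℝ) (B' : E' →L[ℝ] E' →L[ℝ] ℝ) (L : E →L[ℝ] E')
    (hL : Function.Surjective L) (h : ∀ v w, B v w = B' (L v) (L w)) (W' : Submodule ℝ E')
    (hW' : ∀ w ∈ W', w ≠ 0 → B' w w < 0) :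
    ∃ W : Submodule ℝ E, Module.finrank ℝ W = Module.finrank ℝ W' ∧
      ∀ w ∈ W, w ≠ 0 → B w w < 0 := by
  obtain ⟨s, hs⟩ := (L : E →ₗ[ℝ] E').exists_rightInverse_of_surjective
    (LinearMap.range_eq_top.2 hL)
  have hs2 : ∀ w, L (s w) = w := by
    intro w
    have := LinearMap.congr_fun hs w
    exact this
  refine ⟨W'.map s, ?_, ?_⟩
  · have hd : Function.Injective (s.domRestrict W') := by
      intro w1 w2 h12
      apply Subtype.ext
      have h3 : s w1 = s w2 := h12
      have h4 := congrArg L h3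
      rw [hs2, hs2] at h4
      exact h4
    have h2 := LinearMap.finrank_range_of_inj hd
    rw [LinearMap.range_domRestrict] at h2
    exact h2
  · intro w hw hne
    obtain ⟨w', hw', rfl⟩ := Submodule.mem_map.1 hw
    have hne2 : w' ≠ 0 := by
      intro h0
      apply hne
      rw [h0, map_zero]
    have h1 := hW' w' hw' hne2
    rw [h, hs2]
    exact h1

theorem HasIdx.comap [FiniteDimensional ℝ E] [FiniteDimensional ℝ E']
    (B : E →L[ℝ] E →L[ℝ] ℝ) (B' : E' →L[ℝ] E' →L[ℝ] ℝ) (L : E →L[ℝ] E')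
    (hL : Function.Surjective L) (h : ∀ v w, B v w = B' (L v) (L w)) (m : ℕ) :
    HasIdx B m ↔ HasIdx B' m := by
  constructor
  · rintro ⟨⟨W, hW, hW2⟩, hmax⟩
    refine ⟨?_, ?_⟩
    · obtain ⟨W', h1, h2⟩ := lin_up B B' L h W hW2
      exact ⟨W', h1.trans hW, h2⟩
    · intro W' hW'
      obtain ⟨W1, h1, h2⟩ := lin_down B B' L hL h W' hW'
      rw [← h1]
      exact hmax W1 h2
  · rintro ⟨⟨W, hW, hW2⟩, hmax⟩
    refine ⟨?_, ?_⟩
    · obtain ⟨W', h1, h2⟩ := lin_down B B' L hL h W hW2
      exact ⟨W', h1.trans hW, h2⟩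
    · intro W' hW'
      obtain ⟨W1, h1, h2⟩ := lin_up B B' L h W' hW'
      rw [← h1]
      exact hmax W1 h2

end Pool.Agent.H63.TV
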