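import Pool.Agent.H63.TV.EmbB
import Pool.Agent.H63.TV.DegB

/-!
# General lemmas for the assembly
-/

open scoped ContDiff ComplexConjugate

namespace Pool.Agent.H63.TV

noncomputable section

variable {E : Type*} [NormedAddCommGroup E] [NormedSpace ℝ E]

theorem fderiv_affine (F : E → ℝ) (a b : ℝ) (p : E) :
    fderiv ℝ (fun x => a * F x + b) p = a • fderiv ℝ F p := by
  rw [fderiv_add_const]
  by_cases ha : a = 0
  · subst ha
    simp
  · by_cases h : DifferentiableAt ℝ F p
    · exact fderiv_const_mul h a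
    · rw [fderiv_zero_of_not_differentiableAt h, smul_zero]
      apply fderiv_zero_of_not_differentiableAt
      intro h'
      apply h
      have := h'.const_mul a⁻¹
      have e : (fun x => a⁻¹ * (a * F x)) = F := by
        funext x
        rw [← mul_assoc, inv_mul_cancel₀ ha, one_mul]
      rwa [e] at this

theorem crit_affine {F : E → ℝ} {a b : ℝ} (ha : a ≠ 0) (p : E) :
    Crit (fun x => a * F x + b) p ↔ Crit F p := by
  unfold Crit
  rw [fderiv_affine]
  constructor
  · intro h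
    rcases smul_eq_zero.1 h with h | h
    · exact absurd h ha
    · exact h
  · intro h
    rw [h, smul_zero]

theorem hess_affine {F : E → ℝ} {a b : ℝ} {p : E} (hF : ContDiffAt ℝ 2 F p) (v w : E) :
    hess (fun x => a * F x + b) p v w = a * hess F p v w := by
  unfold hess
  have h1 : fderiv ℝ (fun x => a * F x + b) = fun x => a • fderiv ℝ F x := by
    funext x
    exact fderiv_affine F a b x
  rw [h1]
  have h2 : DifferentiableAt ℝ (fderiv ℝ F) p :=
    (hF.fderiv_right (m := 1) (by norm_num)).differentiableAt (by norm_num)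
  rw [fderiv_fun_const_smul h2]
  simp

theorem HasIdx.scale {B B' : E →L[ℝ] E →L[ℝ] ℝ} {a : ℝ} (ha : 0 < a)
    (h : ∀ v w, B' v w = a * B v w) (m : ℕ) : HasIdx B' m ↔ HasIdx B m := by
  have key : ∀ W : Submodule ℝ E, (∀ w ∈ W, w ≠ 0 → B' w w < 0) ↔ (∀ w ∈ W, w ≠ 0 → B w w < 0) := by
    intro W
    constructor
    · intro hW w hw hw0
      have := hW w hw hw0
      rw [h] at this
      by_contra hcon
      exact absurd this (not_lt.2 (mul_nonneg ha.le (not_lt.1 hcon)))
    · intro hW w hw hw0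
      rw [h]
      exact mul_neg_of_pos_of_neg ha (hW w hw hw0)
  unfold HasIdx
  constructor
  · rintro ⟨⟨W, h1, h2⟩, h3⟩
    exact ⟨⟨W, h1, (key W).1 h2⟩, fun W' hW' => h3 W' ((key W').2 hW')⟩
  · rintro ⟨⟨W, h1, h2⟩, h3⟩
    exact ⟨⟨W, h1, (key W).2 h2⟩, fun W' hW' => h3 W' ((key W').1 hW')⟩

theorem hess_line {F : E → ℝ} {p v : E} (hF : ContDiffAt ℝ 2 F p)
    (h : ∀ᶠ t in nhds (0 : ℝ), Crit F (p + t • v)) (w : E) : hess F p v w = 0 := by
  have h2 : DifferentiableAt ℝ (fderiv ℝ F) p :=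
    (hF.fderiv_right (m := 1) (by norm_num)).differentiableAt (by norm_num)
  have h3 : HasDerivAt (fun t : ℝ => p + t • v) v 0 := by
    have := ((hasDerivAt_id (0 : ℝ)).smul_const v).const_add p
    simpa using this
  have h4 : HasDerivAt (fun t : ℝ => fderiv ℝ F (p + t • v)) (hess F p v) 0 := by
    have h5 : HasFDerivAt (fderiv ℝ F) (hess F p) (p + (0 : ℝ) • v) := by
      rw [zero_smul, add_zero]
      exact h2.hasFDerivAt
    exact h5.comp_hasDerivAt (0 : ℝ) h3
  have h6 : HasDerivAt (fun t : ℝ => fderiv ℝ F (p + t • v)) 0 0 := by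
    have h7 : (fun t : ℝ => fderiv ℝ F (p + t • v)) =ᶠ[nhds 0] fun _ => 0 := by
      filter_upwards [h] with t ht
      exact ht
    exact (hasDerivAt_const (0 : ℝ) (0 : E →L[ℝ] ℝ)).congr_of_eventuallyEq h7
  rw [h4.unique h6]
  rfl

theorem SadCrit.idx {F : ℂ × ℂ → ℝ} {p : ℂ × ℂ} (hF : ContDiffAt ℝ 2 F p) (hc : Crit F p)
    (hn : ∀ v, (∀ w, hess F p v w = 0) → v = 0) (hs : SadCrit F p) : HasIdx (hess F p) 2 := by
  obtain ⟨P, Q, hP, hQ, δ, hδ, h1, h2⟩ := hs
  have e : Module.finrank ℝ (ℂ × ℂ) = 4 := by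
    rw [Module.finrank_prod, Complex.finrank_real_complex]
  apply idx_two (hess F p) (fun v w => hess_symm hF v w) ⊥ P Q
  · intro v hv
    rw [Submodule.mem_bot]
    exact hn v hv
  · exact hess_nonneg hF hc hδ h1
  · exact hess_nonpos hF hc hδ h2
  · rw [e, hP]
  · rw [finrank_bot, hQ]

theorem SadCrit3.idx {F : ℂ × R3 → ℝ} {p : ℂ × R3} (hp : p.2 ≠ 0) (hF : ContDiffAt ℝ 2 F p)
    (hc : Crit F p) (hn : ∀ v, (∀ w, hess F p v w = 0) → ∃ t : ℝ, v = (0, t • p.2))
    (hs : SadCrit3 F p) : HasIdx (hess F p) 2 := by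
  obtain ⟨P, Q, hP, hQ, δ, hδ, h1, h2⟩ := hs
  have e : Module.finrank ℝ (ℂ × R3) = 5 := by
    rw [Module.finrank_prod, Module.finrank_prod, Complex.finrank_real_complex,
      Module.finrank_self]
  have hv0 : ((0, p.2) : ℂ × R3) ≠ 0 := by
    intro h
    exact hp (congrArg Prod.snd h)
  apply idx_two (hess F p) (fun v w => hess_symm hF v w) (Submodule.span ℝ {((0, p.2) : ℂ × R3)}) P Q
  · intro v hv
    obtain ⟨t, ht⟩ := hn v hv
    rw [Submodule.mem_span_singleton]
    refine ⟨t, ?_⟩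
    rw [ht]
    simp
  · exact hess_nonneg hF hc hδ h1
  · exact hess_nonpos hF hc hδ h2
  · rw [e, hP]
  · rw [finrank_span_singleton hv0, hQ]

end

end Pool.Agent.H63.TV
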