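import Pool.Agent.H63.TV.MainA

/-!
# Analysis of the height functions of the flattened embedding
-/

open scoped ContDiff ComplexConjugate

namespace Pool.Agent.H63.TV

noncomputable section

variable {ε : ℝ} {q : ℂ × ℂ → ℝ} {w : ℂ × ℂ → ℂ} {D : ℂ × ℂ → ℝ} {α β r1 r2 r3 D0 : ℝ}
  {k : ℕ} {r s : ℝ} {c : Fin k → ℂ} {m n p n' : ℝ → ℝ}

theorem contDiff_ht (ξ : E7) : ContDiff ℝ ∞ (ht ξ) := by
  have h1 : ContDiff ℝ ∞ fun y : E7 => y.1 := contDiff_fst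
  have h2 : ContDiff ℝ ∞ fun y : E7 => y.2.1 := contDiff_fst.comp contDiff_snd
  have h3 : ContDiff ℝ ∞ fun y : E7 => y.2.2.1 := contDiff_fst.comp (contDiff_snd.comp contDiff_snd)
  have h4 : ContDiff ℝ ∞ fun y : E7 => y.2.2.2 := contDiff_snd.comp (contDiff_snd.comp contDiff_snd)
  have e1 : ∀ a : ℂ, ContDiff ℝ ∞ fun x : ℂ => (a * x).re := fun a =>
    Complex.reCLM.contDiff.comp (contDiff_const.mul contDiff_id)
  unfold ht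
  exact ((((contDiff_const.mul h1).add ((e1 (conj ξ.2.1)).comp h2)).add
    ((e1 (conj ξ.2.2.1)).comp h3)).add ((e1 (conj ξ.2.2.2)).comp h4))

theorem F_hom (ξ : E7) (μ : ℂ) (z : C3) (hμ : μ ≠ 0) :
    ht ξ (gfun q w D (μ • z)) = ht ξ (gfun q w D z) := by
  rw [gfun_hom μ z hμ]

theorem F_smooth (hG : Good ε q w D α β r1 r2 r3 D0) (ξ : E7) {z : C3} (hz : z ≠ 0) :
    ContDiffAt ℝ ∞ (fun y => ht ξ (gfun q w D y)) z :=
  (contDiff_ht ξ).contDiffAt.comp z (gfun_smooth hG hz)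

theorem phi1_eq (ξ : E7) (ζ : ℂ × ℂ) : ht ξ (gfun q w D (lift ζ)) =
    (lin ξ ζ + Real.sqrt 2 * ξ.1 * q ζ + (conj (((Real.sqrt 2 : ℝ) : ℂ) * ξ.2.2.1) * w ζ).re) /
      D ζ := by
  rw [gfun_lift, ht_theta]

theorem phi0_eq (ξ : E7) (ζ : ℂ × ℂ) : ht ξ (ver (lift ζ)) =
    (lin ξ ζ + Real.sqrt 2 * ξ.1 * (‖ζ.1‖ ^ 2 - ‖ζ.2‖ ^ 2) +
      (conj (((Real.sqrt 2 : ℝ) : ℂ) * ξ.2.2.1) * (2 * ζ.1 * conj ζ.2)).re) /
      (4 + ‖ζ.1‖ ^ 2 + ‖ζ.2‖ ^ 2) := by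
  rw [ver_lift, ht_theta]

theorem phi1_smooth (hG : Good ε q w D α β r1 r2 r3 D0) (ξ : E7) :
    ContDiff ℝ ∞ fun ζ => ht ξ (gfun q w D (lift ζ)) := by
  have e : (fun ζ => ht ξ (gfun q w D (lift ζ))) = fun ζ => (lin ξ ζ + Real.sqrt 2 * ξ.1 * q ζ +
      (conj (((Real.sqrt 2 : ℝ) : ℂ) * ξ.2.2.1) * w ζ).re) / D ζ := by
    funext ζ
    exact phi1_eq ξ ζ
  rw [e]
  apply ContDiff.div _ hG.sD
  · intro ζ
    have := hG.Dge ζ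
    linarith
  · exact (((lin ξ).contDiff.add (contDiff_const.mul hG.sq)).add
      (Complex.reCLM.contDiff.comp (contDiff_const.mul hG.sw)))

theorem phi0_smooth (ξ : E7) : ContDiff ℝ ∞ fun ζ => ht ξ (ver (lift ζ)) := by
  have e : (fun ζ => ht ξ (ver (lift ζ))) = fun ζ : ℂ × ℂ => (lin ξ ζ +
      Real.sqrt 2 * ξ.1 * (‖ζ.1‖ ^ 2 - ‖ζ.2‖ ^ 2) +
      (conj (((Real.sqrt 2 : ℝ) : ℂ) * ξ.2.2.1) * (2 * ζ.1 * conj ζ.2)).re) /
      (4 + ‖ζ.1‖ ^ 2 + ‖ζ.2‖ ^ 2) := by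
    funext ζ
    exact phi0_eq ξ ζ
  have n1 : ContDiff ℝ ∞ fun ζ : ℂ × ℂ => ‖ζ.1‖ ^ 2 := contDiff_fst.norm_sq ℝ
  have n2 : ContDiff ℝ ∞ fun ζ : ℂ × ℂ => ‖ζ.2‖ ^ 2 := contDiff_snd.norm_sq ℝ
  rw [e]
  apply ContDiff.div _ ((contDiff_const.add n1).add n2)
  · intro ζ
    positivity
  · refine (((lin ξ).contDiff.add (contDiff_const.mul (n1.sub n2))).add
      (Complex.reCLM.contDiff.comp (contDiff_const.mul ?_)))
    exact (contDiff_const.mul contDiff_fst).mul (Complex.conjCLE.contDiff.comp contDiff_snd)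

/-- the region where nothing has been changed -/
def RI (ε : ℝ) (z : C3) : Prop := ε ^ 2 * ‖z 0‖ ^ 2 < ‖z 1‖ ^ 2 + ‖z 2‖ ^ 2

theorem RI_ne {z : C3} (h : RI ε z) : z ≠ 0 := by
  intro h0
  subst h0
  unfold RI at h
  simp at h

theorem pr_sq {z : C3} (h0 : z 0 ≠ 0) :
    (‖(pr z).1‖ ^ 2 + ‖(pr z).2‖ ^ 2) * ‖z 0‖ ^ 2 = ‖z 1‖ ^ 2 + ‖z 2‖ ^ 2 := by
  have hp : 0 < ‖z 0‖ := norm_pos_iff.2 h0
  simp only [pr, norm_div]
  field_simp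

theorem RI_iff {z : C3} (h0 : z 0 ≠ 0) : RI ε z ↔ ε ^ 2 < ‖(pr z).1‖ ^ 2 + ‖(pr z).2‖ ^ 2 := by
  have hp : 0 < ‖z 0‖ ^ 2 := by
    have := norm_pos_iff.2 h0
    positivity
  unfold RI
  rw [← pr_sq h0]
  exact mul_lt_mul_iff_left₀ hp

theorem not_RI {z : C3} (hz : z ≠ 0) (h : ¬ RI ε z) :
    z 0 ≠ 0 ∧ ‖(pr z).1‖ ^ 2 + ‖(pr z).2‖ ^ 2 ≤ ε ^ 2 := by
  have h0 : z 0 ≠ 0 := by
    intro h0
    apply hz
    unfold RI at h
    rw [h0, norm_zero] at h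
    have h1 : ‖z 1‖ ^ 2 + ‖z 2‖ ^ 2 ≤ 0 := by
      have := not_lt.1 h
      simpa using this
    have h2 : ‖z 1‖ = 0 := by nlinarith [sq_nonneg ‖z 1‖, sq_nonneg ‖z 2‖]
    have h3 : ‖z 2‖ = 0 := by nlinarith [sq_nonneg ‖z 1‖, sq_nonneg ‖z 2‖]
    funext i
    fin_cases i
    · exact h0
    · exact norm_eq_zero.1 h2
    · exact norm_eq_zero.1 h3
  refine ⟨h0, ?_⟩
  rw [RI_iff h0] at h
  exact not_lt.1 h

theorem RI_smul {z : C3} {μ : ℂ} (hμ : μ ≠ 0) : RI ε (μ • z) ↔ RI ε z := by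
  have hp : 0 < ‖μ‖ ^ 2 := by
    have := norm_pos_iff.2 hμ
    positivity
  unfold RI
  simp only [Pi.smul_apply, smul_eq_mul, norm_mul, mul_pow]
  constructor
  · intro h
    by_contra hcon
    have := not_lt.1 hcon
    nlinarith
  · intro h
    nlinarith

theorem RI_ev {z : C3} (h : RI ε z) : ∀ᶠ y in nhds z, RI ε y := by
  have c0 : Continuous fun y : C3 => ε ^ 2 * ‖y 0‖ ^ 2 := by fun_prop
  have c1 : Continuous fun y : C3 => ‖y 1‖ ^ 2 + ‖y 2‖ ^ 2 := by fun_prop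
  exact (isOpen_lt c0 c1).mem_nhds h

theorem gfun_RI (hG : Good ε q w D α β r1 r2 r3 D0) {z : C3} (h : RI ε z) :
    gfun q w D z = ver z := by
  apply gfun_eq_ver hG
  by_cases h0 : z 0 = 0
  · exact Or.inl h0
  · exact Or.inr ((RI_iff h0).1 h).le

theorem F_ev (hG : Good ε q w D α β r1 r2 r3 D0) (ξ : E7) {z : C3} (h : RI ε z) :
    (fun y => ht ξ (gfun q w D y)) =ᶠ[nhds z] fun y => ht ξ (ver y) := by
  filter_upwards [RI_ev h] with y hy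
  rw [gfun_RI hG hy]

theorem pr_smul' {z : C3} {μ : ℂ} (hμ : μ ≠ 0) : pr (μ • z) = pr z := by
  unfold pr
  simp only [Pi.smul_apply, smul_eq_mul]
  rw [mul_div_mul_left _ _ hμ, mul_div_mul_left _ _ hμ]

theorem lift_ne (ζ : ℂ × ℂ) : lift ζ ≠ 0 := by
  intro h
  have := congrFun h 0
  simp [lift] at this

theorem tube_ne (hP : Par k r s c r1 r2 r3) (i : Fin k) {a : ℂ} {x : R3} (ha : ‖a‖ = 1)
    (hx : len x ≤ 2) : tube r s (c i) a x ≠ 0 := by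
  intro h
  exact (tube_pr hP i ha hx).1 (congrFun h 0)

theorem RI_out (hG : Good ε q w D α β r1 r2 r3 D0) (hP : Par k r s c r1 r2 r3) {z : C3}
    (h : RI ε z) : Out k r s c z := by
  refine ⟨RI_ne h, ?_⟩
  intro i a x μ ha hx he
  have hμ : μ ≠ 0 := by
    intro h0
    apply RI_ne h
    rw [he, h0, zero_smul]
  have hx2 : len x ≤ 2 := by linarith
  obtain ⟨t0, -, -, -, -, h2, h3⟩ := tube_pr hP i ha hx2
  rw [he, RI_smul hμ, RI_iff t0] at h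
  have h4 := hG.inside
  have n1 := norm_nonneg (pr (tube r s (c i) a x)).1
  have n2 := norm_nonneg (pr (tube r s (c i) a x)).2
  nlinarith

end

end Pool.Agent.H63.TV
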