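import Pool.Agent.H63.TV.MainB

/-!
# Critical points in the ball
-/

open scoped ContDiff ComplexConjugate

namespace Pool.Agent.H63.TV

noncomputable section

variable {ε : ℝ} {q : ℂ × ℂ → ℝ} {w : ℂ × ℂ → ℂ} {D : ℂ × ℂ → ℝ} {α β r1 r2 r3 D0 : ℝ}
  {k : ℕ} {r s : ℝ} {c : Fin k → ℂ} {m n p n' : ℝ → ℝ}

/-- the exceptional relation -/
def Exc (α r : ℝ) (ξ : E7) : Prop :=
  ((2 * Real.sqrt 2 : ℝ) : ℂ) * conj ξ.2.2.2 = 0 ∧
    |Real.sqrt 2 * ξ.1 * α * r| = r * ‖((2 * Real.sqrt 2 : ℝ) : ℂ) * ξ.2.1‖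

theorem exists_unit (A : ℂ) (t : ℝ) (h : ‖A‖ = |t|) : ∃ a : ℂ, ‖a‖ = 1 ∧ A + (t : ℂ) * conj a = 0 := by
  by_cases ht : t = 0
  · subst ht
    rw [abs_zero] at h
    refine ⟨1, norm_one, ?_⟩
    rw [norm_eq_zero.1 h]
    simp
  · refine ⟨conj (-A / (t : ℂ)), ?_, ?_⟩
    · rw [RCLike.norm_conj, norm_div, norm_neg, h, Complex.norm_real, Real.norm_eq_abs, div_self]
      exact abs_ne_zero.2 ht
    · rw [Complex.conj_conj]
      have : (t : ℂ) ≠ 0 := by exact_mod_cast ht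
      field_simp
      ring

theorem cancel_aux (r a t : ℂ) (hr : r ≠ 0) (ht : t ≠ 0) : r * a / t / (r / t) = a := by
  field_simp

theorem not_exc (hG : Good ε q w D α β r1 r2 r3 D0) (hP : Par k r s c r1 r2 r3)
    {G : Fin k → ℂ × R3 → E7} {ξ : E7} (hM : Morse k r s c (gfun q w D) G ξ) (i : Fin k) :
    ¬ Exc α r ξ := by
  rintro ⟨hB, hE⟩
  have hr := hP.hr
  have hA : ‖((2 * Real.sqrt 2 : ℝ) : ℂ) * ξ.2.1‖ = |Real.sqrt 2 * ξ.1 * α| := by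
    rw [abs_mul, abs_of_pos hr, mul_comm r] at hE
    exact (mul_right_cancel₀ hr.ne' hE).symm
  obtain ⟨a, ha, haA⟩ := exists_unit _ _ hA
  have hlen : len ((3 / 2 : ℝ), (0 : ℂ)) = 3 / 2 := by
    unfold len
    have : ((3 / 2 : ℝ), (0 : ℂ)).1 ^ 2 + ‖((3 / 2 : ℝ), (0 : ℂ)).2‖ ^ 2 = (3 / 2) ^ 2 := by
      simp
    rw [this, Real.sqrt_sq (by norm_num)]
  have hx : len ((3 / 2 : ℝ), (0 : ℂ)) ≤ 2 := by rw [hlen]; norm_num
  have hx' : 1 < len ((3 / 2 : ℝ), (0 : ℂ)) := by rw [hlen]; norm_num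
  have hout := tube_out hP i ha hx hx'
  obtain ⟨t0, tp, tpr, tn, tl, tu, t3⟩ := tube_pr hP i ha hx
  set z := tube r s (c i) a ((3 / 2 : ℝ), (0 : ℂ)) with hz
  set v : C3 := ![0, 0, 1] with hv
  have hz0 : z ≠ 0 := hout.1
  have hcr : ∀ᶠ t in nhds (0 : ℝ), Crit (fun y => ht ξ (gfun q w D y)) (z + t • v) := by
    have c2 : Continuous fun t : ℝ => ‖(pr (z + t • v)).2‖ := by
      have : (fun t : ℝ => ‖(pr (z + t • v)).2‖) = fun t : ℝ => ‖(z 2 + (t : ℂ)) / z 0‖ := by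
        funext t
        simp [pr, hv]
      rw [this]
      fun_prop
    have h0 : ‖(pr (z + (0 : ℝ) • v)).2‖ < r3 := by
      rw [zero_smul, add_zero]
      exact t3
    filter_upwards [(isOpen_lt c2 continuous_const).mem_nhds h0] with t ht
    have hf : (z + t • v) 0 = z 0 := by simp [hv]
    have hf0 : (z + t • v) 0 ≠ 0 := by
      rw [hf]
      exact t0
    have hf1 : (pr (z + t • v)).1 = (pr z).1 := by
      simp [pr, hv]
    rw [chart_crit (F_hom ξ) hf0 ((phi1_smooth hG ξ).contDiffAt.of_le (by norm_cast)), flat_crit hG ξ (by rw [hf1]; exact tl)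
      (by rw [hf1]; exact tu) ht]
    refine ⟨hB, ?_⟩
    rw [hf1]
    have e1 : conj (pr z).1 / (‖(pr z).1‖ : ℂ) = conj a := by
      rw [tn, tpr]
      have hr' : (r : ℂ) ≠ 0 := by exact_mod_cast hr.ne'
      have hs' : ((1 + s * (3 / 2) : ℝ) : ℂ) ≠ 0 := by exact_mod_cast tp.ne'
      simp only [map_div₀, map_mul, Complex.conj_ofReal]
      rw [Complex.ofReal_div]
      exact cancel_aux _ _ _ hr' hs'
    rw [mul_div_assoc, e1]
    exact haA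
  have hdeg := hess_line ((F_smooth hG ξ hz0).of_le (by norm_cast)) hcr
  have hc0 : Crit (fun y => ht ξ (gfun q w D y)) z := by
    have := hcr.self_of_nhds
    rwa [zero_smul, add_zero] at this
  obtain ⟨μ, hμ⟩ := hM.1 z hout hc0 v hdeg
  have e0 := congrFun hμ 0
  have e2 := congrFun hμ 2
  simp only [hv, Pi.smul_apply, smul_eq_mul] at e0 e2
  have hμ0 : μ = 0 := by
    rcases mul_eq_zero.1 e0.symm with h | h
    · exact h
    · exact absurd h t0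
  rw [hμ0, zero_mul] at e2
  simp at e2

/-- critical points in the ball -/
theorem ball_crit (hG : Good ε q w D α β r1 r2 r3 D0) (hP : Par k r s c r1 r2 r3)
    {G : Fin k → ℂ × R3 → E7} {ξ : E7} (hM : Morse k r s c (gfun q w D) G ξ) {ζ : ℂ × ℂ}
    (hζ : ‖ζ.1‖ ^ 2 + ‖ζ.2‖ ^ 2 ≤ 1) (hc : Crit (fun ζ => ht ξ (gfun q w D (lift ζ))) ζ) :
    Out k r s c (lift ζ) ∧
      (∀ v, (∀ w', hess (fun ζ => ht ξ (gfun q w D (lift ζ))) ζ v w' = 0) → v = 0) ∧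
      SadCrit (fun ζ => ht ξ (gfun q w D (lift ζ))) ζ := by
  have hr := hP.hr
  have hout : Out k r s c (lift ζ) := by
    refine ⟨lift_ne ζ, ?_⟩
    intro i a x μ ha hx he
    have hx2 : len x ≤ 2 := by linarith
    have hμ : μ ≠ 0 := by
      intro h0
      apply lift_ne ζ
      rw [he, h0, zero_smul]
    obtain ⟨t0, tp, tpr, tn, tl, tu, t3⟩ := tube_pr hP i ha hx2
    have hpr : ζ = pr (tube r s (c i) a x) := by
      rw [← pr_lift ζ, he, pr_smul' hμ]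
    rw [← hpr] at tl tu t3
    obtain ⟨hB, hA⟩ := (flat_crit hG ξ tl tu t3).1 hc
    apply not_exc hG hP hM i
    refine ⟨hB, ?_⟩
    have hζ0 : 0 < ‖ζ.1‖ := lt_trans hG.hr1 tl
    have e : ‖((2 * Real.sqrt 2 : ℝ) : ℂ) * ξ.2.1‖ = |Real.sqrt 2 * ξ.1 * α| := by
      rw [eq_neg_of_add_eq_zero_left hA, norm_neg, norm_div, norm_mul, RCLike.norm_conj,
        Complex.norm_real, Complex.norm_real, norm_norm, Real.norm_eq_abs, mul_div_assoc,
        div_self hζ0.ne', mul_one]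
    rw [e, abs_mul, abs_of_pos hr, mul_comm]
  refine ⟨hout, ?_, ?_⟩
  · have h0 : (lift ζ) 0 ≠ 0 := by simp [lift]
    have hs : ContDiffAt ℝ 2 (fun ζ => ht ξ (gfun q w D (lift ζ))) (pr (lift ζ)) :=
      (phi1_smooth hG ξ).contDiffAt.of_le (by norm_cast)
    have hc' : Crit (fun y => ht ξ (gfun q w D y)) (lift ζ) := by
      rw [chart_crit (F_hom ξ) h0 hs, pr_lift]
      exact hc
    have := (chart_nondeg (F_hom ξ) h0 hs hc').1 (hM.1 _ hout hc')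
    rwa [pr_lift] at this
  · have e : (fun ζ => ht ξ (gfun q w D (lift ζ))) = fun ζ => (lin ξ ζ + Real.sqrt 2 * ξ.1 * q ζ +
      (conj (((Real.sqrt 2 : ℝ) : ℂ) * ξ.2.2.1) * w ζ).re) / D ζ := by
      funext ζ
      exact phi1_eq ξ ζ
    rw [e] at hc ⊢
    exact hG.sad _ _ _ ζ hζ hc

/-- the conclusion of `ver_crit` in the nondegenerate case -/
def VerAlt (ξ : E7) (v : Fin 3 → C3) : Prop :=
  LinearIndependent ℂ v ∧
      (∀ z, z ≠ 0 → (Crit (fun y => ht ξ (ver y)) z ↔ ∃ (j : Fin 3) (μ : ℂ), z = μ • v j)) ∧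
      ∀ (j : Fin 3) (μ : ℂ), μ ≠ 0 → HasIdx (hess (fun y => ht ξ (ver y)) (μ • v j)) (2 * j) ∧
        ∀ v', (∀ w, hess (fun y => ht ξ (ver y)) (μ • v j) v' w = 0) → ∃ ν : ℂ, v' = ν • μ • v j

theorem ver_alt (hG : Good ε q w D α β r1 r2 r3 D0) (hP : Par k r s c r1 r2 r3)
    {G : Fin k → ℂ × R3 → E7} {ξ : E7} (hM : Morse k r s c (gfun q w D) G ξ) :
    ∃ v, VerAlt ξ v := by
  rcases ver_crit ξ with h | h
  · exact h
  · exfalso
    obtain ⟨z, hz, hz0, hc, v, hv, hvz⟩ := h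
    have hRI : RI ε z := by
      unfold RI
      rw [hz0, norm_zero]
      by_contra hcon
      apply hz
      have h1 : ‖z 1‖ ^ 2 + ‖z 2‖ ^ 2 ≤ 0 := by
        have := not_lt.1 hcon
        simpa using this
      have h2 : ‖z 1‖ = 0 := by nlinarith [sq_nonneg ‖z 1‖, sq_nonneg ‖z 2‖]
      have h3 : ‖z 2‖ = 0 := by nlinarith [sq_nonneg ‖z 1‖, sq_nonneg ‖z 2‖]
      funext i
      fin_cases i
      · exact hz0
      · exact norm_eq_zero.1 h2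
      · exact norm_eq_zero.1 h3
    obtain ⟨e1, e2⟩ := hess_congr (F_ev hG ξ hRI)
    apply hvz
    apply hM.1 z (RI_out hG hP hRI) (e1.2 hc) v
    intro w'
    rw [e2]
    exact hv w'

theorem V_hom (ξ : E7) (μ : ℂ) (z : C3) (hμ : μ ≠ 0) : ht ξ (ver (μ • z)) = ht ξ (ver z) := by
  rw [ver_hom μ z hμ]

/-- critical points of the height functions of the unmodified embedding in the ball -/
theorem ball_crit0 {ξ : E7} {v : Fin 3 → C3} (hv : VerAlt ξ v) {ζ : ℂ × ℂ}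
    (hζ : ‖ζ.1‖ ^ 2 + ‖ζ.2‖ ^ 2 ≤ 1) (hc : Crit (fun ζ => ht ξ (ver (lift ζ))) ζ) :
    (∃ μ : ℂ, μ ≠ 0 ∧ lift ζ = μ • v 1) ∧
      (∀ v, (∀ w', hess (fun ζ => ht ξ (ver (lift ζ))) ζ v w' = 0) → v = 0) ∧
      SadCrit (fun ζ => ht ξ (ver (lift ζ))) ζ := by
  have h0 : (lift ζ) 0 ≠ 0 := by simp [lift]
  have hs : ContDiffAt ℝ 2 (fun ζ => ht ξ (ver (lift ζ))) (pr (lift ζ)) :=
    (phi0_smooth ξ).contDiffAt.of_le (by norm_cast)
  have hc' : Crit (fun y => ht ξ (ver y)) (lift ζ) := by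
    rw [chart_crit (V_hom ξ) h0 hs, pr_lift]
    exact hc
  obtain ⟨j, μ, hμ⟩ := (hv.2.1 _ (lift_ne ζ)).1 hc'
  have hμ0 : μ ≠ 0 := by
    intro h
    apply lift_ne ζ
    rw [hμ, h, zero_smul]
  obtain ⟨hi, hn⟩ := hv.2.2 j μ hμ0
  rw [← hμ] at hi hn
  have hn' : ∀ v, (∀ w', hess (fun ζ => ht ξ (ver (lift ζ))) ζ v w' = 0) → v = 0 := by
    have := (chart_nondeg (V_hom ξ) h0 hs hc').1 hn
    rwa [pr_lift] at this
  have hS : SadCrit (fun ζ => ht ξ (ver (lift ζ))) ζ := by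
    have e : (fun ζ => ht ξ (ver (lift ζ))) = fun ζ : ℂ × ℂ => (lin ξ ζ +
      Real.sqrt 2 * ξ.1 * (‖ζ.1‖ ^ 2 - ‖ζ.2‖ ^ 2) +
      (conj (((Real.sqrt 2 : ℝ) : ℂ) * ξ.2.2.1) * (2 * ζ.1 * conj ζ.2)).re) /
      (4 + ‖ζ.1‖ ^ 2 + ‖ζ.2‖ ^ 2) := by
      funext ζ
      exact phi0_eq ξ ζ
    rw [e] at hc ⊢
    exact sad_hopf _ _ _ ζ hζ hc
  have hi' : HasIdx (hess (fun y => ht ξ (ver y)) (lift ζ)) 2 := by
    rw [chart_idx (V_hom ξ) h0 hs hc', pr_lift]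
    exact hS.idx ((phi0_smooth ξ).contDiffAt.of_le (by norm_cast)) hc hn'
  have hj := hi.unique hi'
  have hj1 : j = 1 := by
    fin_cases j
    · simp at hj
    · rfl
    · simp at hj
  subst hj1
  exact ⟨⟨μ, hμ0, hμ⟩, hn', hS⟩

end

end Pool.Agent.H63.TV
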