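import Pool.Agent.H63.TV.MainC

/-!
# Counting
-/

open scoped ContDiff ComplexConjugate

namespace Pool.Agent.H63.TV

noncomputable section

variable {ε : ℝ} {q : ℂ × ℂ → ℝ} {w : ℂ × ℂ → ℂ} {D : ℂ × ℂ → ℝ} {α β r1 r2 r3 D0 : ℝ}
  {k : ℕ} {r s : ℝ} {c : Fin k → ℂ} {m n p n' : ℝ → ℝ}

theorem ball_j {ξ : E7} {v : Fin 3 → C3} (hG : Good ε q w D α β r1 r2 r3 D0) (hv : VerAlt ξ v)
    {j : Fin 3} (hj : ¬ RI ε (v j)) : j = 1 ∧ v j 0 ≠ 0 ∧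
      ‖(pr (v j)).1‖ ^ 2 + ‖(pr (v j)).2‖ ^ 2 ≤ ε ^ 2 ∧
      Crit (fun ζ => ht ξ (ver (lift ζ))) (pr (v j)) := by
  have hvj : v j ≠ 0 := hv.1.ne_zero j
  obtain ⟨h0, h1⟩ := not_RI hvj hj
  have hcj : Crit (fun y => ht ξ (ver y)) (v j) := (hv.2.1 _ hvj).2 ⟨j, 1, (one_smul _ _).symm⟩
  have hc : Crit (fun ζ => ht ξ (ver (lift ζ))) (pr (v j)) :=
    (chart_crit (V_hom ξ) h0 ((phi0_smooth ξ).contDiffAt.of_le (by norm_cast))).1 hcj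
  have hε : ε ^ 2 ≤ 1 := by nlinarith [hG.eps.1, hG.eps.2]
  obtain ⟨⟨μ, hμ, hl⟩, -, -⟩ := ball_crit0 hv (h1.trans hε) hc
  have e : (1 : ℂ) • v j = (v j 0 * μ) • v 1 := by
    rw [one_smul, mul_smul, ← hl, lift_pr h0]
  exact ⟨hv.1.eq_of_smul_apply_eq_smul_apply 1 _ j 1 one_ne_zero e, h0, h1, hc⟩

theorem ball_count (hG : Good ε q w D α β r1 r2 r3 D0) (hP : Par k r s c r1 r2 r3)
    {G : Fin k → ℂ × R3 → E7} {ξ : E7} (hM : Morse k r s c (gfun q w D) G ξ) {v : Fin 3 → C3}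
    (hv : VerAlt ξ v) : RI ε (v 0) ∧ RI ε (v 2) ∧
      ((RI ε (v 1) ∧ ∀ ζ : ℂ × ℂ, ‖ζ.1‖ ^ 2 + ‖ζ.2‖ ^ 2 ≤ ε ^ 2 →
        ¬ Crit (fun ζ => ht ξ (gfun q w D (lift ζ))) ζ) ∨
      (¬ RI ε (v 1) ∧ ∃ ζ₁ : ℂ × ℂ, ‖ζ₁.1‖ ^ 2 + ‖ζ₁.2‖ ^ 2 ≤ ε ^ 2 ∧
        Crit (fun ζ => ht ξ (gfun q w D (lift ζ))) ζ₁ ∧
        ∀ ζ : ℂ × ℂ, ‖ζ.1‖ ^ 2 + ‖ζ.2‖ ^ 2 ≤ ε ^ 2 →
          Crit (fun ζ => ht ξ (gfun q w D (lift ζ))) ζ → ζ = ζ₁)) := by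
  have hε : ε ^ 2 ≤ 1 := by nlinarith [hG.eps.1, hG.eps.2]
  have r0 : RI ε (v 0) := by
    by_contra h
    have := (ball_j hG hv h).1
    revert this
    decide
  have r2' : RI ε (v 2) := by
    by_contra h
    have := (ball_j hG hv h).1
    revert this
    decide
  obtain ⟨f0, f1, hcard⟩ := count_eq (fun ζ => ht ξ (ver (lift ζ)))
    (fun ζ => ht ξ (gfun q w D (lift ζ))) (phi0_smooth ξ) (phi1_smooth hG ξ) ε hG.eps.1 hG.eps.2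
    (fun ζ hζ => by
      have : gfun q w D (lift ζ) = ver (lift ζ) := gfun_eq_ver hG (Or.inr (by rw [pr_lift]; exact hζ))
      show ht ξ (ver (lift ζ)) = ht ξ (gfun q w D (lift ζ))
      rw [this])
    (fun ζ hζ hc => (ball_crit0 hv hζ hc).2) (fun ζ hζ hc => (ball_crit hG hP hM hζ hc).2)
  refine ⟨r0, r2', ?_⟩
  by_cases h1 : RI ε (v 1)
  · left
    refine ⟨h1, ?_⟩
    have e0 : {ζ : ℂ × ℂ | ‖ζ.1‖ ^ 2 + ‖ζ.2‖ ^ 2 ≤ ε ^ 2 ∧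
        Crit (fun ζ => ht ξ (ver (lift ζ))) ζ} = ∅ := by
      rw [Set.eq_empty_iff_forall_notMem]
      rintro ζ ⟨hζ, hc⟩
      obtain ⟨⟨μ, hμ, hl⟩, -, -⟩ := ball_crit0 hv (hζ.trans hε) hc
      have h2 : RI ε (lift ζ) := by
        rw [hl, RI_smul hμ]
        exact h1
      rw [RI_iff (by simp [lift]), pr_lift] at h2
      exact absurd h2 (not_lt.2 hζ)
    rw [e0, Set.ncard_empty] at hcard
    have e1 := (Set.ncard_eq_zero f1).1 hcard.symm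
    intro ζ hζ hc
    have : ζ ∈ {ζ : ℂ × ℂ | ‖ζ.1‖ ^ 2 + ‖ζ.2‖ ^ 2 ≤ ε ^ 2 ∧
        Crit (fun ζ => ht ξ (gfun q w D (lift ζ))) ζ} := ⟨hζ, hc⟩
    rw [e1] at this
    exact this
  · right
    refine ⟨h1, ?_⟩
    have e0 : {ζ : ℂ × ℂ | ‖ζ.1‖ ^ 2 + ‖ζ.2‖ ^ 2 ≤ ε ^ 2 ∧
        Crit (fun ζ => ht ξ (ver (lift ζ))) ζ} = {pr (v 1)} := by
      ext ζ
      constructor
      · rintro ⟨hζ, hc⟩
        obtain ⟨⟨μ, hμ, hl⟩, -, -⟩ := ball_crit0 hv (hζ.trans hε) hc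
        show ζ = pr (v 1)
        rw [← pr_lift ζ, hl, pr_smul' hμ]
      · intro h
        have h' : ζ = pr (v 1) := h
        rw [h']
        obtain ⟨-, -, a, b⟩ := ball_j hG hv h1
        exact ⟨a, b⟩
    rw [e0, Set.ncard_singleton] at hcard
    obtain ⟨ζ₁, hζ₁⟩ := Set.ncard_eq_one.1 hcard.symm
    have hm : ζ₁ ∈ {ζ : ℂ × ℂ | ‖ζ.1‖ ^ 2 + ‖ζ.2‖ ^ 2 ≤ ε ^ 2 ∧
        Crit (fun ζ => ht ξ (gfun q w D (lift ζ))) ζ} := by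
      rw [hζ₁]
      rfl
    refine ⟨ζ₁, hm.1, hm.2, ?_⟩
    intro ζ hζ hc
    have : ζ ∈ {ζ : ℂ × ℂ | ‖ζ.1‖ ^ 2 + ‖ζ.2‖ ^ 2 ≤ ε ^ 2 ∧
        Crit (fun ζ => ht ξ (gfun q w D (lift ζ))) ζ} := ⟨hζ, hc⟩
    rw [hζ₁] at this
    exact this

theorem region_open : IsOpen {y : ℂ × R3 | ‖y.1‖ < 2 ∧ y.2 ≠ 0} := by
  apply IsOpen.inter
  · exact isOpen_lt (continuous_norm.comp continuous_fst) continuous_const
  · exact isOpen_ne_fun continuous_snd continuous_const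

theorem aux_div (x d b : ℝ) (hd : d ≠ 0) : x = d * (x / d + b / d) + (-b) := by
  field_simp
  ring

theorem neck_part (hG : Good ε q w D α β r1 r2 r3 D0) (hP : Par k r s c r1 r2 r3)
    (hN : IsNeck r s m n p n') {ξ : E7}
    (hM : Morse k r s c (gfun q w D) (fun i y => psi α β r D0 (nk m n (c i) y)) ξ) (i : Fin k) :
    ∃ (u₁ u₂ : ℂ) (v₁ v₂ : R3), ‖u₁‖ < 1 ∧ ‖u₂‖ < 1 ∧ len v₁ = 1 ∧ len v₂ = 1 ∧
      (u₁, v₁) ≠ (u₂, v₂) ∧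
      Crit (fun y => ht ξ (psi α β r D0 (nk m n (c i) y))) (u₁, v₁) ∧
      Crit (fun y => ht ξ (psi α β r D0 (nk m n (c i) y))) (u₂, v₂) ∧
      ∀ y : ℂ × R3, ‖y.1‖ < 2 → y.2 ≠ 0 →
        Crit (fun y => ht ξ (psi α β r D0 (nk m n (c i) y))) y →
        (∃ t : ℝ, 0 < t ∧ (y = (u₁, t • v₁) ∨ y = (u₂, t • v₂))) ∧
        HasIdx (hess (fun y => ht ξ (psi α β r D0 (nk m n (c i) y))) y) 2 := by
  set A : ℂ := ((2 * Real.sqrt 2 : ℝ) : ℂ) * ξ.2.1 with hA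
  set B : ℂ := ((2 * Real.sqrt 2 : ℝ) : ℂ) * conj ξ.2.2.2 with hB
  set e : ℝ := Real.sqrt 2 * ξ.1 * α * r with he
  have hND : ¬ (B = 0 ∧ |e| = r * ‖A‖) := not_exc hG hP hM i
  have hD0 := hG.hD0
  have hev : ∀ y : ℂ × R3, ‖y.1‖ < 2 → y.2 ≠ 0 →
      (fun y => Hf A B e (nk m n (c i) y)) =ᶠ[nhds y]
        fun y => D0 * ht ξ (psi α β r D0 (nk m n (c i) y)) + (-(Real.sqrt 2 * ξ.1 * β)) := by
    intro y hy hy'
    filter_upwards [region_open.mem_nhds (show y ∈ {y : ℂ × R3 | ‖y.1‖ < 2 ∧ y.2 ≠ 0} from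
      ⟨hy, hy'⟩)] with y1 hy1
    have hx := nk_pos hP hN (c i) hy1.1 hy1.2
    rw [ht_psi hD0 α β r ξ hx, ← hA, ← hB, ← he]
    exact aux_div _ _ _ hD0.ne'
  have hsm : ∀ y : ℂ × R3, ‖y.1‖ < 2 → y.2 ≠ 0 →
      ContDiffAt ℝ 2 (fun y => ht ξ (psi α β r D0 (nk m n (c i) y))) y := by
    intro y hy hy'
    have h1 := ((smoothEmb hG hP hN).smooth_G i).contDiffAt (region_open.mem_nhds
      (show y ∈ {y : ℂ × R3 | ‖y.1‖ < 2 ∧ y.2 ≠ 0} from ⟨hy, hy'⟩))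
    have h2 : ContDiffAt ℝ ∞ (fun y => ht ξ (psi α β r D0 (nk m n (c i) y))) y :=
      (contDiff_ht ξ).contDiffAt.comp y h1
    exact h2.of_le (by norm_cast)
  have hcr : ∀ y : ℂ × R3, ‖y.1‖ < 2 → y.2 ≠ 0 →
      (Crit (fun y => Hf A B e (nk m n (c i) y)) y ↔
        Crit (fun y => ht ξ (psi α β r D0 (nk m n (c i) y))) y) := by
    intro y hy hy'
    rw [(hess_congr (hev y hy hy')).1, crit_affine hD0.ne']
  have hhs : ∀ y : ℂ × R3, ‖y.1‖ < 2 → y.2 ≠ 0 → ∀ v w',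
      hess (fun y => Hf A B e (nk m n (c i) y)) y v w' =
        D0 * hess (fun y => ht ξ (psi α β r D0 (nk m n (c i) y))) y v w' := by
    intro y hy hy' v w'
    rw [(hess_congr (hev y hy hy')).2, hess_affine (hsm y hy hy')]
  obtain ⟨u₁, u₂, v₁, v₂, a1, a2, a3, a4, a5, a6, a7, a8⟩ :=
    neck_crit hN hP.hr hP.hs hP.hs' (c i) A B e hND
  have hne : ∀ v : R3, len v = 1 → v ≠ 0 := by
    intro v hv h0
    subst h0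
    unfold len at hv
    simp at hv
  refine ⟨u₁, u₂, v₁, v₂, a1, a2, a3, a4, a5, (hcr (u₁, v₁) (by simp; linarith) (hne _ a3)).1 a6,
    (hcr (u₂, v₂) (by simp; linarith) (hne _ a4)).1 a7, ?_⟩
  intro y hy hy' hc
  have hc' := (hcr y hy hy').2 hc
  obtain ⟨b1, b2⟩ := a8 y hy hy' hc'
  refine ⟨b1, ?_⟩
  have hsm' : ContDiffAt ℝ 2 (fun y => Hf A B e (nk m n (c i) y)) y :=
    (((contDiffAt_const.mul (hsm y hy hy')).add contDiffAt_const)).congr_of_eventuallyEq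
      (hev y hy hy')
  have hidx : HasIdx (hess (fun y => Hf A B e (nk m n (c i) y)) y) 2 := by
    apply SadCrit3.idx hy' hsm' hc' _ b2
    intro v hv
    apply hM.2 i y hy hy' hc v
    intro w'
    have := hv w'
    rw [hhs y hy hy'] at this
    rcases mul_eq_zero.1 this with h | h
    · exact absurd h hD0.ne'
    · exact h
  exact (HasIdx.scale hD0 (hhs y hy hy') 2).1 hidx

end

end Pool.Agent.H63.TV
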