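import Pool.Agent.H63.TV.Defs

/-!
# TV-10, TV-11: functions of one variable

`S = Real.smoothTransition`.
`prof0`.  `σ r = 2 r S (2 r - 1)`, `A r = 1 - ∫ t in r..1, σ t`.  `A' = σ` is smooth, `σ = 0` for `r ≤ 1/2`, `σ r = 2 r` for `r ≥ 1`,
`0 ≤ σ r ≤ 2 r` for `r ≥ 0`, `σ` is nondecreasing on `[0, ∞)` (product of nonnegative nondecreasing functions).
So `A r = r²` for `r ≥ 1`, `A` constant for `r ≤ 1/2`, monotone and convex on `[0, ∞)`, `A 0 = 1 - ∫_0^1 σ ≥ 0`.
`C`: `σ' ≤ 2C` on `ℝ` (`σ'` is continuous, equal to `0` for `r ≤ 1/2` and to `2` for `r ≥ 1`) and `C ≥ 1`; then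
`2 C r - σ r` is nonnegative and nondecreasing on `[0, ∞)`, so `C r² - A r` is monotone and convex there.
`prof1`.  `σ r = S (4 r - 1) + (2 r - 1) S (4 r - 3)`: `0` for `r ≤ 1/4`, `1` on `[1/2, 3/4]`, `2 r` for `r ≥ 1`, nonnegative
and nondecreasing on `[0, ∞)` (for `r ≥ 3/4` the second summand is a product of nonnegative nondecreasing functions, for
`r ≤ 3/4` it vanishes), `∫_0^1 σ ≤ 1`.
`cutoff`.  `chi t = S (2 - t)`; `chi' ` and `chi''` are continuous and vanish outside `[1, 2]`, so `|chi''| ≤ M`; `L ≥ 1` with `2 L² ≥ M`.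
For `F r = A r - b chi (r / L)`, `|b| ≤ 1`: on `[0, L]` `F = A - b`; on `[1, ∞)`, `F' r = 2 r - (b / L) chi' (r / L)` has the
derivative `2 - (b / L²) chi'' ≥ 0`.  So `F'` is nondecreasing on `[0, L]` and on `[1, ∞)` (they overlap or touch at `L`, where
both formulas hold), hence on `[0, ∞)`, and `F' 0 = A' 0 ≥ 0` : monotone and convex.
(`convexOn_of_deriv...`: `MonotoneOn.convexOn_of_deriv`.)
-/

open scoped ContDiff

namespace Pool.Agent.H63.TV

noncomputable section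

/-- cut-off function, `1` for `t ≤ 1` and `0` for `t ≥ 2` -/
def chi (t : ℝ) : ℝ := Real.smoothTransition (2 - t)

theorem chi_one {t : ℝ} (h : t ≤ 1) : chi t = 1 :=
  Real.smoothTransition.one_of_one_le (by linarith)

theorem chi_zero {t : ℝ} (h : 2 ≤ t) : chi t = 0 :=
  Real.smoothTransition.zero_of_nonpos (by linarith)

theorem chi_mem (t : ℝ) : 0 ≤ chi t ∧ chi t ≤ 1 :=
  ⟨Real.smoothTransition.nonneg _, Real.smoothTransition.le_one _⟩

theorem contDiff_chi : ContDiff ℝ ∞ chi :=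
  Real.smoothTransition.contDiff.comp (contDiff_const.sub contDiff_id)

/-- the properties of the two profiles -/
structure IsProf (A : ℝ → ℝ) : Prop where
  smooth : ContDiff ℝ ∞ A
  big : ∀ r, 1 ≤ r → A r = r ^ 2
  small : ∀ r, r ≤ 1 / 4 → A r = A 0
  mono : MonotoneOn A (Set.Ici 0)
  conv : ConvexOn ℝ (Set.Ici 0) A
  nonneg : 0 ≤ A 0

end

end Pool.Agent.H63.TV
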