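import Pool.Agent.H63.TV.Defs
import Pool.Agent.H63.TV.ProfD

/-!
# TV-10, TV-11: functions of one variable

`S = Real.smoothTransition`.
`prof0`.  `σ r = 2 r S (2 r - 1)`, `A r = 1 - ∫ t in r..1, σ t`.  `A' = σ` is smooth, `σ = 0` for `r ≤ 1/2`, `σ r = 2 r` for `r ≥ 1`,
`0 ≤ σ r ≤ 2 r` for `r ≥ 0`, `σ` is nondecreasing on `[0, ∞)` (product of nonnegative nondecreasing functions).
So `A r = r²` for `r ≥ 1`, `A` constant for `r ≤ 1/2`, monotone and convex on `[0, ∞)`, `A 0 = 1 - ∫_0^1 σ ≥ 0`.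
`C`: `σ' ≤ 2C` on `ℝ` (`σ'` is continuous, equal to `0` for `r ≤ 1/2` and to `2` for `r ≥ 1`) and `C ≥ 1`; then
`2 C r - σ r` is nonnegative and nondecreasing on `[0, ∞)`, so `C r² - A r` is monotone and convex there.
`prof1`.  `σ r = S (4 r - 1) + (2 r - 1) S (4 r - 3)`: `0` for `r ≤ 1/4`, `1` on `[1/2, 3/4]`, `2 r` for `r ≥ 1`, nonnegative
and nondecreasing on `[0, ∞)` (for `r ≥ 3/4` the second summand is a product of nonnegative nondecreasing functions, for
`r ≤ 3/4` it vanishes), `∫_0^1 σ ≤ 1`.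
`cutoff`.  `chi t = S (2 - t)`; `chi' ` and `chi''` are continuous and vanish outside `[1, 2]`, so `|chi''| ≤ M`; `L ≥ 1` with `2 L² ≥ M`.
For `F r = A r - b chi (r / L)`, `|b| ≤ 1`: on `[0, L]` `F = A - b`; on `[1, ∞)`, `F' r = 2 r - (b / L) chi' (r / L)` has the
derivative `2 - (b / L²) chi'' ≥ 0`.  So `F'` is nondecreasing on `[0, L]` and on `[1, ∞)` (they overlap or touch at `L`, where
both formulas hold), hence on `[0, ∞)`, and `F' 0 = A' 0 ≥ 0` : monotone and convex.
(`convexOn_of_deriv...`: `MonotoneOn.convexOn_of_deriv`.)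
-/

open scoped ContDiff

namespace Pool.Agent.H63.TV

noncomputable section

theorem pf_const {σ A : ℝ → ℝ} (hA : ∀ r, HasDerivAt A (σ r) r) (hs : Continuous σ) {a c : ℝ}
    {r s : ℝ} (hr : r ∈ Set.Icc a c) (hs' : s ∈ Set.Icc a c) {k : ℝ}
    (h : ∀ t ∈ Set.Icc a c, σ t = k) : A s - A r = k * (s - r) := by
  have h1 : ∫ t in r..s, σ t = A s - A r :=
    intervalIntegral.integral_eq_sub_of_hasDerivAt (fun x _ => hA x)
      (hs.intervalIntegrable _ _)
  have h2 : ∫ t in r..s, σ t = ∫ _ in r..s, k := by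
    refine intervalIntegral.integral_congr fun t ht => h t ?_
    exact Set.uIcc_subset_Icc hr hs' ht
  rw [← h1, h2, intervalIntegral.integral_const, smul_eq_mul, mul_comm]

theorem pf_gen {σ : ℝ → ℝ} (hs : ContDiff ℝ ∞ σ) (h0 : ∀ r, r ≤ 1 / 4 → σ r = 0)
    (h1 : ∀ r, 1 ≤ r → σ r = 2 * r) (hm : MonotoneOn σ (Set.Ici 0))
    (hI : ∫ t in (0 : ℝ)..1, σ t ≤ 1) :
    ∃ A : ℝ → ℝ, IsProf A ∧ ∀ r, HasDerivAt A (σ r) r := by
  have hc : Continuous σ := hs.continuous
  have hd : ∀ r, HasDerivAt (fun r => 1 + ∫ t in (1 : ℝ)..r, σ t) (σ r) r := fun r =>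
    (hc.integral_hasStrictDerivAt 1 r).hasDerivAt.const_add 1
  have hderiv : deriv (fun r => 1 + ∫ t in (1 : ℝ)..r, σ t) = σ := funext fun r => (hd r).deriv
  have hnn : ∀ r, 0 ≤ r → 0 ≤ σ r := fun r hr => by
    have := hm (Set.mem_Ici.2 le_rfl) (Set.mem_Ici.2 hr) hr
    rwa [h0 0 (by norm_num)] at this
  refine ⟨fun r => 1 + ∫ t in (1 : ℝ)..r, σ t, ⟨?_, ?_, ?_, ?_, ?_, ?_⟩, hd⟩
  · rw [contDiff_infty_iff_deriv, hderiv]
    exact ⟨fun r => (hd r).differentiableAt, hs⟩
  · intro r hr
    have h2 : ∫ t in (1 : ℝ)..r, σ t = ∫ t in (1 : ℝ)..r, 2 * t := by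
      refine intervalIntegral.integral_congr fun t ht => h1 t ?_
      rw [Set.uIcc_of_le hr] at ht
      exact ht.1
    show 1 + ∫ t in (1 : ℝ)..r, σ t = r ^ 2
    rw [h2, intervalIntegral.integral_const_mul, integral_id]
    ring
  · intro r hr
    have := pf_const hd hc (a := min r 0) (c := 1 / 4) (r := 0) (s := r) (k := 0)
      ⟨min_le_right _ _, by norm_num⟩ ⟨min_le_left _ _, hr⟩ (fun t ht => h0 t ht.2)
    rw [zero_mul] at this
    exact sub_eq_zero.1 this
  · refine monotoneOn_of_deriv_nonneg (convex_Ici 0)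
      (fun r _ => (hd r).continuousAt.continuousWithinAt)
      (fun r _ => (hd r).differentiableAt.differentiableWithinAt) fun r hr => ?_
    rw [hderiv]
    exact hnn r (interior_subset hr)
  · refine MonotoneOn.convexOn_of_deriv (convex_Ici 0)
      (fun r _ => (hd r).continuousAt.continuousWithinAt)
      (fun r _ => (hd r).differentiableAt.differentiableWithinAt) ?_
    rw [hderiv]
    exact hm.mono interior_subset
  · show 0 ≤ 1 + ∫ t in (1 : ℝ)..0, σ t
    rw [intervalIntegral.integral_symm]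
    linarith

theorem pf_S_mono {a b : ℝ} (h : a ≤ b) : Real.smoothTransition a ≤ Real.smoothTransition b :=
  Real.smoothTransition.monotone h

theorem prof0 : ∃ (A : ℝ → ℝ) (C : ℝ), IsProf A ∧ (∀ r, r ≤ 1 / 2 → A r = A 0) ∧ 1 ≤ C ∧
    MonotoneOn (fun r => C * r ^ 2 - A r) (Set.Ici 0) ∧
    ConvexOn ℝ (Set.Ici 0) (fun r => C * r ^ 2 - A r) := by
  set σ : ℝ → ℝ := fun r => 2 * r * Real.smoothTransition (2 * r - 1) with hσ
  have hS : ContDiff ℝ ∞ (fun r : ℝ => Real.smoothTransition (2 * r - 1)) :=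
    Real.smoothTransition.contDiff.comp ((contDiff_const.mul contDiff_id).sub contDiff_const)
  have hs : ContDiff ℝ ∞ σ := (contDiff_const.mul contDiff_id).mul hS
  have h0 : ∀ r, r ≤ 1 / 2 → σ r = 0 := fun r hr => by
    rw [hσ]
    show 2 * r * Real.smoothTransition (2 * r - 1) = 0
    rw [Real.smoothTransition.zero_of_nonpos (by linarith), mul_zero]
  have h1 : ∀ r, 1 ≤ r → σ r = 2 * r := fun r hr => by
    show 2 * r * Real.smoothTransition (2 * r - 1) = 2 * r
    rw [Real.smoothTransition.one_of_one_le (by linarith), mul_one]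
  have hm : MonotoneOn σ (Set.Ici 0) := by
    intro x hx y hy hxy
    have hx' : (0 : ℝ) ≤ x := hx
    exact mul_le_mul (by linarith) (pf_S_mono (by linarith)) (Real.smoothTransition.nonneg _)
      (by linarith)
  have hI : ∫ t in (0 : ℝ)..1, σ t ≤ 1 := by
    have h2 : ∫ t in (0 : ℝ)..1, σ t ≤ ∫ t in (0 : ℝ)..1, 2 * t := by
      refine intervalIntegral.integral_mono_on zero_le_one
        (hs.continuous.intervalIntegrable _ _)
        ((continuous_const.mul continuous_id).intervalIntegrable _ _) fun t ht => ?_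
      exact mul_le_of_le_one_right (by linarith [ht.1]) (Real.smoothTransition.le_one _)
    refine h2.trans (le_of_eq ?_)
    rw [intervalIntegral.integral_const_mul, integral_id]
    norm_num
  obtain ⟨A, hA, hd⟩ := pf_gen hs (fun r hr => h0 r (by linarith)) h1 hm hI
  have hdσ : Continuous (deriv σ) := hs.continuous_deriv (by simp)
  obtain ⟨M, hM⟩ : ∃ M : ℝ, ∀ r, 0 ≤ r → deriv σ r ≤ M := by
    obtain ⟨M, hM⟩ := (isCompact_Icc (a := (0 : ℝ)) (b := 2)).exists_bound_of_continuousOn
      hdσ.continuousOn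
    refine ⟨max M 2, fun r hr => ?_⟩
    rcases le_or_gt r 2 with h | h
    · exact ((le_abs_self _).trans (hM r ⟨hr, h⟩)).trans (le_max_left _ _)
    · have h2 : HasDerivAt σ 2 r := by
        have h3 : HasDerivAt (fun r : ℝ => 2 * r) 2 r := by
          simpa using (hasDerivAt_id r).const_mul (2 : ℝ)
        refine h3.congr_of_eventuallyEq ?_
        filter_upwards [lt_mem_nhds (show (1 : ℝ) < r by linarith)] with t ht
        exact h1 t ht.le
      rw [h2.deriv]
      exact le_max_right _ _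
  set C : ℝ := max 1 (M / 2) with hC
  have hC1 : 1 ≤ C := le_max_left _ _
  have hC2 : M ≤ 2 * C := by
    have : M / 2 ≤ C := le_max_right _ _
    linarith
  have hdB : ∀ r, HasDerivAt (fun r => C * r ^ 2 - A r) (2 * C * r - σ r) r := fun r => by
    have h2 : HasDerivAt (fun r : ℝ => C * r ^ 2) (2 * C * r) r := by
      have := (hasDerivAt_pow 2 r).const_mul C
      refine this.congr_deriv ?_
      push_cast
      ring
    exact h2.sub (hd r)
  have hderiv : deriv (fun r => C * r ^ 2 - A r) = fun r => 2 * C * r - σ r :=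
    funext fun r => (hdB r).deriv
  have hdd : ∀ r, HasDerivAt (fun r => 2 * C * r - σ r) (2 * C - deriv σ r) r := fun r => by
    have h2 : HasDerivAt (fun r : ℝ => 2 * C * r) (2 * C) r := by
      simpa using (hasDerivAt_id r).const_mul (2 * C)
    exact h2.sub ((hs.differentiable (by simp)) r).hasDerivAt
  have hmono : MonotoneOn (fun r => 2 * C * r - σ r) (Set.Ici 0) := by
    refine monotoneOn_of_deriv_nonneg (convex_Ici 0)
      (fun r _ => (hdd r).continuousAt.continuousWithinAt)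
      (fun r _ => (hdd r).differentiableAt.differentiableWithinAt) fun r hr => ?_
    rw [(hdd r).deriv]
    have := hM r (interior_subset hr)
    linarith
  have hnn : ∀ r, 0 ≤ r → 0 ≤ 2 * C * r - σ r := fun r hr => by
    have := hmono (Set.mem_Ici.2 le_rfl) (Set.mem_Ici.2 hr) hr
    have h2 : σ 0 = 0 := h0 0 (by norm_num)
    simp only [mul_zero, h2, sub_zero] at this
    exact this
  refine ⟨A, C, hA, ?_, hC1, ?_, ?_⟩
  · intro r hr
    have := pf_const hd hs.continuous (a := min r 0) (c := 1 / 2) (r := 0) (s := r) (k := 0)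
      ⟨min_le_right _ _, by norm_num⟩ ⟨min_le_left _ _, hr⟩ (fun t ht => h0 t ht.2)
    rw [zero_mul] at this
    exact sub_eq_zero.1 this
  · refine monotoneOn_of_deriv_nonneg (convex_Ici 0)
      (fun r _ => (hdB r).continuousAt.continuousWithinAt)
      (fun r _ => (hdB r).differentiableAt.differentiableWithinAt) fun r hr => ?_
    rw [hderiv]
    exact hnn r (interior_subset hr)
  · refine MonotoneOn.convexOn_of_deriv (convex_Ici 0)
      (fun r _ => (hdB r).continuousAt.continuousWithinAt)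
      (fun r _ => (hdB r).differentiableAt.differentiableWithinAt) ?_
    rw [hderiv]
    exact hmono.mono interior_subset

theorem prof1 : ∃ (A : ℝ → ℝ) (β : ℝ), IsProf A ∧
    ∀ r, 1 / 2 ≤ r → r ≤ 3 / 4 → A r = r + β := by
  set σ : ℝ → ℝ := fun r => Real.smoothTransition (4 * r - 1) +
    (2 * r - 1) * Real.smoothTransition (4 * r - 3) with hσ
  have hS : ∀ c : ℝ, ContDiff ℝ ∞ (fun r : ℝ => Real.smoothTransition (4 * r - c)) := fun c =>
    Real.smoothTransition.contDiff.comp ((contDiff_const.mul contDiff_id).sub contDiff_const)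
  have hs : ContDiff ℝ ∞ σ :=
    (hS 1).add (((contDiff_const.mul contDiff_id).sub contDiff_const).mul (hS 3))
  have h2 : ∀ r, r ≤ 3 / 4 → σ r = Real.smoothTransition (4 * r - 1) := fun r hr => by
    show Real.smoothTransition (4 * r - 1) + (2 * r - 1) * Real.smoothTransition (4 * r - 3) = _
    rw [Real.smoothTransition.zero_of_nonpos (by linarith : 4 * r - 3 ≤ 0), mul_zero, add_zero]
  have h0 : ∀ r, r ≤ 1 / 4 → σ r = 0 := fun r hr => by
    rw [h2 r (by linarith), Real.smoothTransition.zero_of_nonpos (by linarith)]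
  have h1 : ∀ r, 1 ≤ r → σ r = 2 * r := fun r hr => by
    show Real.smoothTransition (4 * r - 1) + (2 * r - 1) * Real.smoothTransition (4 * r - 3) = _
    rw [Real.smoothTransition.one_of_one_le (by linarith),
      Real.smoothTransition.one_of_one_le (by linarith)]
    ring
  have hm : MonotoneOn σ (Set.Ici 0) := by
    intro x hx y hy hxy
    have hx' : (0 : ℝ) ≤ x := hx
    show Real.smoothTransition (4 * x - 1) + (2 * x - 1) * Real.smoothTransition (4 * x - 3) ≤
      Real.smoothTransition (4 * y - 1) + (2 * y - 1) * Real.smoothTransition (4 * y - 3)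
    refine add_le_add (pf_S_mono (by linarith)) ?_
    rcases le_or_gt x (3 / 4) with h | h
    · rw [Real.smoothTransition.zero_of_nonpos (by linarith : 4 * x - 3 ≤ 0), mul_zero]
      rcases le_or_gt y (3 / 4) with h' | h'
      · rw [Real.smoothTransition.zero_of_nonpos (by linarith : 4 * y - 3 ≤ 0), mul_zero]
      · exact mul_nonneg (by linarith) (Real.smoothTransition.nonneg _)
    · exact mul_le_mul (by linarith) (pf_S_mono (by linarith)) (Real.smoothTransition.nonneg _)
        (by linarith)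
  have hi : ∀ a b : ℝ, IntervalIntegrable σ MeasureTheory.volume a b := fun a b =>
    hs.continuous.intervalIntegrable _ _
  have hI : ∫ t in (0 : ℝ)..1, σ t ≤ 1 := by
    have e1 : ∫ t in (0 : ℝ)..(1 / 4), σ t ≤ ∫ _ in (0 : ℝ)..(1 / 4), (0 : ℝ) :=
      intervalIntegral.integral_mono_on (by norm_num) (hi _ _) (by simp) fun t ht =>
        le_of_eq (h0 t ht.2)
    have e2 : ∫ t in (1 / 4 : ℝ)..(3 / 4), σ t ≤ ∫ _ in (1 / 4 : ℝ)..(3 / 4), (1 : ℝ) :=
      intervalIntegral.integral_mono_on (by norm_num) (hi _ _) (by simp) fun t ht => by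
        rw [h2 t ht.2]
        exact Real.smoothTransition.le_one _
    have e3 : ∫ t in (3 / 4 : ℝ)..1, σ t ≤ ∫ _ in (3 / 4 : ℝ)..1, (2 : ℝ) :=
      intervalIntegral.integral_mono_on (by norm_num) (hi _ _) (by simp) fun t ht => by
        have h3 := hm (Set.mem_Ici.2 (by linarith [ht.1] : (0 : ℝ) ≤ t))
          (Set.mem_Ici.2 zero_le_one) ht.2
        rw [h1 1 le_rfl] at h3
        linarith
    rw [intervalIntegral.integral_const, smul_eq_mul] at e1 e2 e3
    rw [← intervalIntegral.integral_add_adjacent_intervals (hi 0 (1 / 4)) (hi (1 / 4) 1),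
      ← intervalIntegral.integral_add_adjacent_intervals (hi (1 / 4) (3 / 4)) (hi (3 / 4) 1)]
    linarith
  obtain ⟨A, hA, hd⟩ := pf_gen hs h0 h1 hm hI
  refine ⟨A, A (1 / 2) - 1 / 2, hA, fun r hr1 hr2 => ?_⟩
  have := pf_const hd hs.continuous (a := 1 / 2) (c := 3 / 4) (r := 1 / 2) (s := r) (k := 1)
    ⟨le_rfl, by norm_num⟩ ⟨hr1, hr2⟩ (fun t ht => by
      rw [h2 t ht.2, Real.smoothTransition.one_of_one_le (by linarith [ht.1])])
  linarith

end

end Pool.Agent.H63.TV
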