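import Pool.Agent.H63.TV.Defs
import Pool.Agent.H63.TV.ProfD
import Pool.Agent.H63.TV.Prof1

/-!
# TV-10, TV-11: functions of one variable

`S = Real.smoothTransition`.
`prof0`.  `σ r = 2 r S (2 r - 1)`, `A r = 1 - ∫ t in r..1, σ t`.  `A' = σ` is smooth, `σ = 0` for `r ≤ 1/2`, `σ r = 2 r` for `r ≥ 1`,
`0 ≤ σ r ≤ 2 r` for `r ≥ 0`, `σ` is nondecreasing on `[0, ∞)` (product of nonnegative nondecreasing functions).
So `A r = r²` for `r ≥ 1`, `A` constant for `r ≤ 1/2`, monotone and convex on `[0, ∞)`, `A 0 = 1 - ∫_0^1 σ ≥ 0`.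
`C`: `σ' ≤ 2C` on `ℝ` (`σ'` is continuous, equal to `0` for `r ≤ 1/2` and to `2` for `r ≥ 1`) and `C ≥ 1`; then
`2 C r - σ r` is nonnegative and nondecreasing on `[0, ∞)`, so `C r² - A r` is monotone and convex there.
`prof1`.  `σ r = S (4 r - 1) + (2 r - 1) S (4 r - 3)`: `0` for `r ≤ 1/4`, `1` on `[1/2, 3/4]`, `2 r` for `r ≥ 1`, nonnegative
and nondecreasing on `[0, ∞)` (for `r ≥ 3/4` the second summand is a product of nonnegative nondecreasing functions, for
`r ≤ 3/4` it vanishes), `∫_0^1 σ ≤ 1`.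
`cutoff`.  `chi t = S (2 - t)`; `chi' ` and `chi''` are continuous and vanish outside `[1, 2]`, so `|chi''| ≤ M`; `L ≥ 1` with `2 L² ≥ M`.
For `F r = A r - b chi (r / L)`, `|b| ≤ 1`: on `[0, L]` `F = A - b`; on `[1, ∞)`, `F' r = 2 r - (b / L) chi' (r / L)` has the
derivative `2 - (b / L²) chi'' ≥ 0`.  So `F'` is nondecreasing on `[0, L]` and on `[1, ∞)` (they overlap or touch at `L`, where
both formulas hold), hence on `[0, ∞)`, and `F' 0 = A' 0 ≥ 0` : monotone and convex.
(`convexOn_of_deriv...`: `MonotoneOn.convexOn_of_deriv`.)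
-/

open scoped ContDiff

namespace Pool.Agent.H63.TV

noncomputable section

theorem cutoff : ∃ L : ℝ, 1 ≤ L ∧ ∀ A : ℝ → ℝ, IsProf A → ∀ b : ℝ, |b| ≤ 1 →
    MonotoneOn (fun r => A r - b * chi (r / L)) (Set.Ici 0) ∧
    ConvexOn ℝ (Set.Ici 0) (fun r => A r - b * chi (r / L)) := by
  have hchi : ContDiff ℝ ∞ chi := contDiff_chi
  have hc1 : ContDiff ℝ ∞ (deriv chi) := (contDiff_infty_iff_deriv.1 hchi).2
  have hc2 : ContDiff ℝ ∞ (deriv (deriv chi)) := (contDiff_infty_iff_deriv.1 hc1).2
  have hd1 : ∀ t, HasDerivAt chi (deriv chi t) t := fun t =>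
    ((hchi.differentiable (by simp)) t).hasDerivAt
  have hd2 : ∀ t, HasDerivAt (deriv chi) (deriv (deriv chi) t) t := fun t =>
    ((hc1.differentiable (by simp)) t).hasDerivAt
  have e1 : ∀ t, t < 1 → deriv chi t = 0 := fun t ht => by
    have h : HasDerivAt chi 0 t := by
      refine (hasDerivAt_const t (1 : ℝ)).congr_of_eventuallyEq ?_
      filter_upwards [gt_mem_nhds ht] with x hx
      exact chi_one hx.le
    exact h.deriv
  have e1' : ∀ t, t ≤ 1 → deriv chi t = 0 := fun t ht => by
    rcases ht.lt_or_eq with h | h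
    · exact e1 t h
    · subst h
      have h2 : Set.Iic (1 : ℝ) ⊆ {t | deriv chi t = 0} := by
        rw [← closure_Iio (1 : ℝ)]
        exact closure_minimal (fun x hx => e1 x hx)
          (isClosed_eq hc1.continuous continuous_const)
      exact h2 (Set.mem_Iic.2 le_rfl)
  have e2 : ∀ t, 2 < t → deriv chi t = 0 := fun t ht => by
    have h : HasDerivAt chi 0 t := by
      refine (hasDerivAt_const t (0 : ℝ)).congr_of_eventuallyEq ?_
      filter_upwards [lt_mem_nhds ht] with x hx
      exact chi_zero hx.le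
    exact h.deriv
  have f1 : ∀ t, t < 1 → deriv (deriv chi) t = 0 := fun t ht => by
    have h : HasDerivAt (deriv chi) 0 t := by
      refine (hasDerivAt_const t (0 : ℝ)).congr_of_eventuallyEq ?_
      filter_upwards [gt_mem_nhds ht] with x hx
      exact e1 x hx
    exact h.deriv
  have f2 : ∀ t, 2 < t → deriv (deriv chi) t = 0 := fun t ht => by
    have h : HasDerivAt (deriv chi) 0 t := by
      refine (hasDerivAt_const t (0 : ℝ)).congr_of_eventuallyEq ?_
      filter_upwards [lt_mem_nhds ht] with x hx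
      exact e2 x hx
    exact h.deriv
  obtain ⟨M, hM⟩ := (isCompact_Icc (a := (1 : ℝ)) (b := 2)).exists_bound_of_continuousOn
    hc2.continuous.continuousOn
  have hM0 : 0 ≤ M := (norm_nonneg _).trans (hM 1 ⟨le_rfl, by norm_num⟩)
  have hM' : ∀ t, |deriv (deriv chi) t| ≤ M := fun t => by
    rcases lt_or_ge t 1 with h | h
    · rw [f1 t h, abs_zero]
      exact hM0
    · rcases lt_or_ge 2 t with h' | h'
      · rw [f2 t h', abs_zero]
        exact hM0
      · exact hM t ⟨h, h'⟩
  set L : ℝ := max 1 M with hL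
  have hL1 : 1 ≤ L := le_max_left _ _
  have hLM : M ≤ L := le_max_right _ _
  have hL0 : 0 < L := by linarith
  refine ⟨L, hL1, fun A hA b hb => ?_⟩
  have hA1 : ContDiff ℝ ∞ (deriv A) := (contDiff_infty_iff_deriv.1 hA.smooth).2
  have hdA : ∀ r, HasDerivAt A (deriv A r) r := fun r =>
    ((hA.smooth.differentiable (by simp)) r).hasDerivAt
  have hAbig : ∀ r, 1 < r → deriv A r = 2 * r := fun r hr => by
    have h : HasDerivAt A (2 * r) r := by
      have h3 : HasDerivAt (fun r : ℝ => r ^ 2) (2 * r) r := by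
        simpa using hasDerivAt_pow 2 r
      refine h3.congr_of_eventuallyEq ?_
      filter_upwards [lt_mem_nhds hr] with x hx
      exact hA.big x hx.le
    exact h.deriv
  have hA0 : deriv A 0 = 0 := by
    have h : HasDerivAt A 0 0 := by
      refine (hasDerivAt_const (0 : ℝ) (A 0)).congr_of_eventuallyEq ?_
      filter_upwards [gt_mem_nhds (show (0 : ℝ) < 1 / 4 by norm_num)] with x hx
      exact hA.small x hx.le
    exact h.deriv
  set G : ℝ → ℝ := fun r => deriv A r - b * (deriv chi (r / L) * (1 / L)) with hG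
  have hdF : ∀ r, HasDerivAt (fun r => A r - b * chi (r / L)) (G r) r := fun r => by
    have h1 : HasDerivAt (fun r : ℝ => r / L) (1 / L) r := (hasDerivAt_id r).div_const L
    have h2 : HasDerivAt (fun r : ℝ => chi (r / L)) (deriv chi (r / L) * (1 / L)) r :=
      HasDerivAt.comp (h₂ := chi) (h := fun r : ℝ => r / L) r (hd1 (r / L)) h1
    exact (hdA r).sub (h2.const_mul b)
  have hderiv : deriv (fun r => A r - b * chi (r / L)) = G := funext fun r => (hdF r).deriv
  have hdivc : Continuous (fun r : ℝ => r / L) := continuous_id.div_const L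
  have hGc : Continuous G :=
    hA1.continuous.sub (continuous_const.mul ((hc1.continuous.comp hdivc).mul continuous_const))
  have hG01 : ∀ r ∈ Set.Icc (0 : ℝ) 1, G r = deriv A r := fun r hr => by
    have h1 : r / L ≤ 1 := by
      rw [div_le_one hL0]
      exact hr.2.trans hL1
    show deriv A r - b * (deriv chi (r / L) * (1 / L)) = deriv A r
    rw [e1' _ h1]
    ring
  have hm1 : MonotoneOn G (Set.Icc 0 1) := by
    have h1 : MonotoneOn (deriv A) (Set.Ici 0) :=
      hA.conv.monotoneOn_deriv fun x _ => (hdA x).differentiableAt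
    intro x hx y hy hxy
    rw [hG01 x hx, hG01 y hy]
    exact h1 (Set.mem_Ici.2 hx.1) (Set.mem_Ici.2 hy.1) hxy
  have hm2 : MonotoneOn G (Set.Ici 1) := by
    have hdG : ∀ r, 1 < r →
        HasDerivAt G (2 - b * (deriv (deriv chi) (r / L) * (1 / L) * (1 / L))) r := fun r hr => by
      have h1 : HasDerivAt (fun r : ℝ => r / L) (1 / L) r := (hasDerivAt_id r).div_const L
      have h2 : HasDerivAt (fun r : ℝ => deriv A r) 2 r := by
        have h3 : HasDerivAt (fun r : ℝ => 2 * r) 2 r := by
          simpa using (hasDerivAt_id r).const_mul (2 : ℝ)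
        refine h3.congr_of_eventuallyEq ?_
        filter_upwards [lt_mem_nhds hr] with x hx
        exact hAbig x hx
      have h4 : HasDerivAt (fun r : ℝ => deriv chi (r / L))
          (deriv (deriv chi) (r / L) * (1 / L)) r :=
        HasDerivAt.comp (h₂ := deriv chi) (h := fun r : ℝ => r / L) r (hd2 (r / L)) h1
      exact h2.sub ((h4.mul_const (1 / L)).const_mul b)
    refine monotoneOn_of_deriv_nonneg (convex_Ici 1) hGc.continuousOn
      (fun r hr => ?_) fun r hr => ?_
    · rw [interior_Ici] at hr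
      exact (hdG r hr).differentiableAt.differentiableWithinAt
    · rw [interior_Ici] at hr
      rw [(hdG r hr).deriv]
      have h1 : |b * (deriv (deriv chi) (r / L) * (1 / L) * (1 / L))| ≤ 1 := by
        rw [abs_mul, abs_mul, abs_mul, abs_of_pos (show (0 : ℝ) < 1 / L by positivity)]
        have h2 : |deriv (deriv chi) (r / L)| * (1 / L) ≤ 1 := by
          rw [mul_one_div, div_le_one hL0]
          exact (hM' _).trans hLM
        have h3 : 1 / L ≤ 1 := by
          rw [div_le_one hL0]
          exact hL1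
        have h4 : |deriv (deriv chi) (r / L)| * (1 / L) * (1 / L) ≤ 1 :=
          mul_le_one₀ h2 (by positivity) h3
        exact mul_le_one₀ hb (by positivity) h4
      have h2 := (abs_le.1 h1).2
      linarith
  have hm : MonotoneOn G (Set.Ici 0) := by
    have h1 : Set.Icc (0 : ℝ) 1 ∪ Set.Ici 1 = Set.Ici 0 := Set.Icc_union_Ici_eq_Ici zero_le_one
    rw [← h1]
    exact hm1.union_right hm2 (isGreatest_Icc zero_le_one) isLeast_Ici
  have hG0 : G 0 = 0 := by rw [hG01 0 ⟨le_rfl, zero_le_one⟩, hA0]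
  have hGnn : ∀ r, 0 ≤ r → 0 ≤ G r := fun r hr => by
    have := hm (Set.mem_Ici.2 le_rfl) (Set.mem_Ici.2 hr) hr
    rwa [hG0] at this
  refine ⟨?_, ?_⟩
  · refine monotoneOn_of_deriv_nonneg (convex_Ici 0)
      (fun r _ => (hdF r).continuousAt.continuousWithinAt)
      (fun r _ => (hdF r).differentiableAt.differentiableWithinAt) fun r hr => ?_
    rw [hderiv]
    exact hGnn r (interior_subset hr)
  · refine MonotoneOn.convexOn_of_deriv (convex_Ici 0)
      (fun r _ => (hdF r).continuousAt.continuousWithinAt)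
      (fun r _ => (hdF r).differentiableAt.differentiableWithinAt) ?_
    rw [hderiv]
    exact hm.mono interior_subset

end

end Pool.Agent.H63.TV
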