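import Pool.Agent.H63.TV.Chart

/-!
# TV-08 (ver_inj), TV-09 (ver_imm): the projected Veronese embedding is an injective immersion

`ver_inj`.  Scale `z, z'` to `d z = d z' = 1` (`d z = 4|z 0|² + |z 1|² + |z 2|²`).  With `p = |z 0|²`, `q = |z 1|²`, `r = |z 2|²` and
`p', q', r'`: `q - r = q' - r'`, `4p + q + r = 4p' + q' + r'`, so `p' = p - ν`, `q' = q + 2ν`, `r' = r + 2ν`; and `z 0 conj (z 1) = z' 0 conj (z' 1)`
etc., so `p q = p' q'`, `q r = q' r'`, `r p = r' p'`.  If `ν ≠ 0`: `2p - q = 2ν`, `2p - r = 2ν`, `q + r = - 2ν`; so `4p - 4ν = -2ν`,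
`ν = 2p`, `q = r = -2p`, all three vanish, a contradiction to `d = 1`.  So `ν = 0`, `|z i| = |z' i|` and
`z i conj (z j) = z' i conj (z' j)`: choose `j` with `z j ≠ 0` and `μ = z' j / z j`, `|μ| = 1`; then `z' i = μ z i`.

`ver_imm`.  Let `D ver (z) w = 0`.  `z 0 ≠ 0`: WLOG by homogeneity we look at the chart: `ver (lift ζ) = theta (..)`, and it is enough that
`D (ver ∘ lift) (ζ)` is injective (`ver = ver ∘ lift ∘ pr` near `z`, kernel of `D pr`, see `fderiv_pr`): with `s = 4 + |ζ|²` the components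
are `conj ζ₁ / s`, `ζ₂ / s`, `ζ₁ conj ζ₂ / s`, `(|ζ₁|² - |ζ₂|²) / s` up to constants.  Derivative zero in the direction `η` of the first
two gives `η = t ζ`, `t = (2 Re <ζ, η>) / s = 2 t |ζ|² / s`, so `t = 0` or `|ζ|² = 4`.  In the second case the derivatives of the last
two in the direction `tζ` are `t (2 s - 2|ζ|²)/s² = 8t/s²` times `ζ₁ conj ζ₂`, `|ζ₁|² - |ζ₂|²`, not both zero.
`z 0 = 0`: `z 1 ≠ 0` or `z 2 ≠ 0`; the components `z 0 conj (z 1)/d`, `z 2 conj (z 0)/d` give `w 0 = 0` (product rule at `z 0 = 0`);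
the components `z 1 conj (z 2)/d` and `(|z 1|² - |z 2|²)/d` on the line `z 0 = 0` form the usual embedding of the sphere: with
`n = |z 1|² + |z 2|²`, `w = (0, w 1, w 2)`; subtract a multiple of `z` from `w` (the derivative vanishes on `ℂ z`) to get
`conj (z 1) w 1 + conj (z 2) w 2 = 0`, i.e. `w 1 = - κ conj (z 2)`, `w 2 = κ conj (z 1)`; then `Dn (w) = 0` and
`D (z 1 conj (z 2)) w = -κ conj (z 2)² + conj κ z 1²`, `D (|z 1|² - |z 2|²) w = -4 Re (κ conj (z 1) conj (z 2))`; both vanish only if `κ = 0`: with `A = κ conj (z 1) conj (z 2)` the first gives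
`A² = |κ|² |z 1|⁴` (multiply by `κ conj (z 1)²`), so `A` is real, and the second gives `Re A = 0`.
-/

open scoped ContDiff ComplexConjugate

namespace Pool.Agent.H63.TV

private lemma ver1_normSq (w : ℂ) : w * conj w = ((‖w‖ ^ 2 : ℝ) : ℂ) := by
  rw [Complex.mul_conj, Complex.normSq_eq_norm_sq]

private lemma ver1_scale (μ a b : ℂ) (d : ℝ) (hμ : μ ≠ 0) :
    ((2 * Real.sqrt 2 / (‖μ‖ ^ 2 * d) : ℝ) : ℂ) * ((μ * a) * conj (μ * b)) =
      ((2 * Real.sqrt 2 / d : ℝ) : ℂ) * (a * conj b) := by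
  have hN : (‖μ‖ ^ 2 : ℝ) ≠ 0 := by
    have : ‖μ‖ ≠ 0 := norm_ne_zero_iff.mpr hμ
    positivity
  have e1 : (μ * a) * conj (μ * b) = ((‖μ‖ ^ 2 : ℝ) : ℂ) * (a * conj b) := by
    rw [← ver1_normSq, map_mul]
    ring
  have e2 : (2 * Real.sqrt 2 / (‖μ‖ ^ 2 * d) : ℝ) * ‖μ‖ ^ 2 = 2 * Real.sqrt 2 / d := by
    by_cases hd : d = 0
    · simp [hd]
    · field_simp
  rw [e1, ← mul_assoc, ← Complex.ofReal_mul, e2]

theorem ver_hom (μ : ℂ) (z : C3) (hμ : μ ≠ 0) : ver (μ • z) = ver z := by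
  have hN : (‖μ‖ ^ 2 : ℝ) ≠ 0 := by
    have : ‖μ‖ ≠ 0 := norm_ne_zero_iff.mpr hμ
    positivity
  have hd : 4 * ‖μ * z 0‖ ^ 2 + ‖μ * z 1‖ ^ 2 + ‖μ * z 2‖ ^ 2 =
      ‖μ‖ ^ 2 * (4 * ‖z 0‖ ^ 2 + ‖z 1‖ ^ 2 + ‖z 2‖ ^ 2) := by
    simp only [norm_mul, mul_pow]
    ring
  have e0 : Real.sqrt 2 * (‖μ * z 1‖ ^ 2 - ‖μ * z 2‖ ^ 2) =
      ‖μ‖ ^ 2 * (Real.sqrt 2 * (‖z 1‖ ^ 2 - ‖z 2‖ ^ 2)) := by
    simp only [norm_mul, mul_pow]
    ring
  unfold ver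
  simp only [Pi.smul_apply, smul_eq_mul]
  rw [hd, e0, mul_div_mul_left _ _ hN, ver1_scale _ _ _ _ hμ, ver1_scale _ _ _ _ hμ,
    ver1_scale _ _ _ _ hμ]

private lemma ver1_nu {p q r p' q' r' : ℝ} (hp : 0 ≤ p) (hq : 0 ≤ q)
    (h1 : q - r = q' - r') (h2 : 4 * p + q + r = 4 * p' + q' + r')
    (h3 : p * q = p' * q') (h4 : q * r = q' * r') (h5 : r * p = r' * p') :
    p = p' ∧ q = q' ∧ r = r' := by
  by_cases hν : p = p'
  · have hq' : q = q' := by linarith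
    have hr' : r = r' := by linarith
    exact ⟨hν, hq', hr'⟩
  · exfalso
    obtain ⟨ν, hνd⟩ : ∃ ν, ν = p - p' := ⟨_, rfl⟩
    have hν0 : ν ≠ 0 := by
      rw [hνd]
      exact sub_ne_zero.mpr hν
    have ep : p' = p - ν := by linarith
    have eq' : q' = q + 2 * ν := by linarith
    have er : r' = r + 2 * ν := by linarith
    rw [ep, eq'] at h3
    rw [eq', er] at h4
    rw [er, ep] at h5
    have a1 : ν * (2 * p - q - 2 * ν) = 0 := by linarith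
    have a2 : ν * (2 * p - r - 2 * ν) = 0 := by linarith
    have a3 : ν * (q + r + 2 * ν) = 0 := by linarith
    have b1 := (mul_eq_zero.mp a1).resolve_left hν0
    have b2 := (mul_eq_zero.mp a2).resolve_left hν0
    have b3 := (mul_eq_zero.mp a3).resolve_left hν0
    exact hν0 (by linarith)

private lemma ver1_norm {a b a' b' : ℂ} (h : a * conj b = a' * conj b') :
    ‖a‖ ^ 2 * ‖b‖ ^ 2 = ‖a'‖ ^ 2 * ‖b'‖ ^ 2 := by
  have h1 := congrArg (fun w : ℂ => ‖w‖ ^ 2) h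
  simpa only [norm_mul, RCLike.norm_conj, mul_pow] using h1

private lemma ver1_core (z z' : C3) (hz : z ≠ 0)
    (hd : 4 * ‖z 0‖ ^ 2 + ‖z 1‖ ^ 2 + ‖z 2‖ ^ 2 = 4 * ‖z' 0‖ ^ 2 + ‖z' 1‖ ^ 2 + ‖z' 2‖ ^ 2)
    (hd0 : 0 < 4 * ‖z 0‖ ^ 2 + ‖z 1‖ ^ 2 + ‖z 2‖ ^ 2) (h : ver z = ver z') :
    ∃ μ : ℂ, z' = μ • z := by
  unfold ver at h
  rw [← hd] at h
  generalize hD : 4 * ‖z 0‖ ^ 2 + ‖z 1‖ ^ 2 + ‖z 2‖ ^ 2 = D at h hd hd0
  simp only [Prod.mk.injEq] at h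
  obtain ⟨h0, h01, h12, h20⟩ := h
  have hs : 0 < Real.sqrt 2 := Real.sqrt_pos.mpr (by norm_num)
  have hc : ((2 * Real.sqrt 2 / D : ℝ) : ℂ) ≠ 0 := by
    have : (2 * Real.sqrt 2 / D : ℝ) ≠ 0 := by positivity
    exact_mod_cast this
  replace h01 := mul_left_cancel₀ hc h01
  replace h12 := mul_left_cancel₀ hc h12
  replace h20 := mul_left_cancel₀ hc h20
  have k0 : ‖z 1‖ ^ 2 - ‖z 2‖ ^ 2 = ‖z' 1‖ ^ 2 - ‖z' 2‖ ^ 2 := by
    have := (div_left_inj' hd0.ne').mp h0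
    exact mul_left_cancel₀ hs.ne' this
  obtain ⟨n0, n1, n2⟩ := ver1_nu (sq_nonneg ‖z 0‖) (sq_nonneg ‖z 1‖) k0 (hD.trans hd)
    (ver1_norm h01) (ver1_norm h12) (ver1_norm h20)
  have H : ∀ i j, z i * conj (z j) = z' i * conj (z' j) := by
    have h10 : z 1 * conj (z 0) = z' 1 * conj (z' 0) := by
      have := congrArg (fun w : ℂ => conj w) h01
      simp only [map_mul, Complex.conj_conj] at this
      rw [mul_comm, this, mul_comm]
    have h21 : z 2 * conj (z 1) = z' 2 * conj (z' 1) := by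
      have := congrArg (fun w : ℂ => conj w) h12
      simp only [map_mul, Complex.conj_conj] at this
      rw [mul_comm, this, mul_comm]
    have h02 : z 0 * conj (z 2) = z' 0 * conj (z' 2) := by
      have := congrArg (fun w : ℂ => conj w) h20
      simp only [map_mul, Complex.conj_conj] at this
      rw [mul_comm, this, mul_comm]
    intro i j
    fin_cases i <;> fin_cases j
    · change z 0 * conj (z 0) = z' 0 * conj (z' 0)
      rw [ver1_normSq, ver1_normSq, n0]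
    · exact h01
    · exact h02
    · exact h10
    · change z 1 * conj (z 1) = z' 1 * conj (z' 1)
      rw [ver1_normSq, ver1_normSq, n1]
    · exact h12
    · exact h20
    · exact h21
    · change z 2 * conj (z 2) = z' 2 * conj (z' 2)
      rw [ver1_normSq, ver1_normSq, n2]
  obtain ⟨j, hj⟩ : ∃ j, z j ≠ 0 := by
    by_contra hcon
    push Not at hcon
    exact hz (funext hcon)
  refine ⟨z' j / z j, ?_⟩
  funext i
  rw [Pi.smul_apply, smul_eq_mul, div_mul_eq_mul_div, eq_div_iff hj]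
  have hcj : conj (z j) ≠ 0 := by
    rw [Ne, map_eq_zero]
    exact hj
  apply mul_right_cancel₀ hcj
  calc z' i * z j * conj (z j) = z' i * (z j * conj (z j)) := by ring
    _ = z' i * (z' j * conj (z' j)) := by rw [H j j]
    _ = z' j * (z' i * conj (z' j)) := by ring
    _ = z' j * (z i * conj (z j)) := by rw [H i j]
    _ = z' j * z i * conj (z j) := by ring

private lemma ver1_pos (z : C3) (hz : z ≠ 0) : 0 < 4 * ‖z 0‖ ^ 2 + ‖z 1‖ ^ 2 + ‖z 2‖ ^ 2 := by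
  obtain ⟨j, hj⟩ : ∃ j, z j ≠ 0 := by
    by_contra hcon
    push Not at hcon
    exact hz (funext hcon)
  have hj' : 0 < ‖z j‖ := norm_pos_iff.mpr hj
  fin_cases j
  · have : 0 < ‖z 0‖ := hj'
    positivity
  · have : 0 < ‖z 1‖ := hj'
    positivity
  · have : 0 < ‖z 2‖ := hj'
    positivity

theorem ver_inj (z z' : C3) (hz : z ≠ 0) (hz' : z' ≠ 0) (h : ver z = ver z') :
    ∃ μ : ℂ, z' = μ • z := by
  have hd := ver1_pos z hz
  have hd' := ver1_pos z' hz'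
  generalize hD : 4 * ‖z 0‖ ^ 2 + ‖z 1‖ ^ 2 + ‖z 2‖ ^ 2 = D at hd
  generalize hD' : 4 * ‖z' 0‖ ^ 2 + ‖z' 1‖ ^ 2 + ‖z' 2‖ ^ 2 = D' at hd'
  have ht : 0 < Real.sqrt (D / D') := Real.sqrt_pos.mpr (div_pos hd hd')
  have htc : ((Real.sqrt (D / D') : ℝ) : ℂ) ≠ 0 := by
    exact_mod_cast ht.ne'
  have ht2 : Real.sqrt (D / D') ^ 2 = D / D' := Real.sq_sqrt (div_pos hd hd').le
  have hnorm : ‖((Real.sqrt (D / D') : ℝ) : ℂ)‖ ^ 2 = D / D' := by
    rw [Complex.norm_real, Real.norm_eq_abs, abs_of_pos ht, ht2]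
  have hy : ver z = ver (((Real.sqrt (D / D') : ℝ) : ℂ) • z') := by
    rw [ver_hom _ _ htc]
    exact h
  have hdy : 4 * ‖z 0‖ ^ 2 + ‖z 1‖ ^ 2 + ‖z 2‖ ^ 2 =
      4 * ‖(((Real.sqrt (D / D') : ℝ) : ℂ) • z') 0‖ ^ 2 +
        ‖(((Real.sqrt (D / D') : ℝ) : ℂ) • z') 1‖ ^ 2 +
        ‖(((Real.sqrt (D / D') : ℝ) : ℂ) • z') 2‖ ^ 2 := by
    simp only [Pi.smul_apply, smul_eq_mul, norm_mul, mul_pow, hnorm]
    rw [hD]
    have : 4 * (D / D' * ‖z' 0‖ ^ 2) + D / D' * ‖z' 1‖ ^ 2 + D / D' * ‖z' 2‖ ^ 2 =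
        D / D' * (4 * ‖z' 0‖ ^ 2 + ‖z' 1‖ ^ 2 + ‖z' 2‖ ^ 2) := by ring
    rw [this, hD']
    field_simp
  obtain ⟨μ, hμ⟩ := ver1_core z _ hz hdy (by rw [hD]; exact hd) hy
  refine ⟨((Real.sqrt (D / D') : ℝ) : ℂ)⁻¹ * μ, ?_⟩
  rw [mul_smul, ← hμ, smul_smul, inv_mul_cancel₀ htc, one_smul]

end Pool.Agent.H63.TV
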