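import Pool.Agent.H63.TV.Chart
import Pool.Agent.H63.TV.Ver1

/-!
# TV-08 (ver_inj), TV-09 (ver_imm): the projected Veronese embedding is an injective immersion

`ver_inj`.  Scale `z, z'` to `d z = d z' = 1` (`d z = 4|z 0|² + |z 1|² + |z 2|²`).  With `p = |z 0|²`, `q = |z 1|²`, `r = |z 2|²` and
`p', q', r'`: `q - r = q' - r'`, `4p + q + r = 4p' + q' + r'`, so `p' = p - ν`, `q' = q + 2ν`, `r' = r + 2ν`; and `z 0 conj (z 1) = z' 0 conj (z' 1)`
etc., so `p q = p' q'`, `q r = q' r'`, `r p = r' p'`.  If `ν ≠ 0`: `2p - q = 2ν`, `2p - r = 2ν`, `q + r = - 2ν`; so `4p - 4ν = -2ν`,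
`ν = 2p`, `q = r = -2p`, all three vanish, a contradiction to `d = 1`.  So `ν = 0`, `|z i| = |z' i|` and
`z i conj (z j) = z' i conj (z' j)`: choose `j` with `z j ≠ 0` and `μ = z' j / z j`, `|μ| = 1`; then `z' i = μ z i`.

`ver_imm`.  Let `D ver (z) w = 0`.  `z 0 ≠ 0`: WLOG by homogeneity we look at the chart: `ver (lift ζ) = theta (..)`, and it is enough that
`D (ver ∘ lift) (ζ)` is injective (`ver = ver ∘ lift ∘ pr` near `z`, kernel of `D pr`, see `fderiv_pr`): with `s = 4 + |ζ|²` the components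
are `conj ζ₁ / s`, `ζ₂ / s`, `ζ₁ conj ζ₂ / s`, `(|ζ₁|² - |ζ₂|²) / s` up to constants.  Derivative zero in the direction `η` of the first
two gives `η = t ζ`, `t = (2 Re <ζ, η>) / s = 2 t |ζ|² / s`, so `t = 0` or `|ζ|² = 4`.  In the second case the derivatives of the last
two in the direction `tζ` are `t (2 s - 2|ζ|²)/s² = 8t/s²` times `ζ₁ conj ζ₂`, `|ζ₁|² - |ζ₂|²`, not both zero.
`z 0 = 0`: `z 1 ≠ 0` or `z 2 ≠ 0`; the components `z 0 conj (z 1)/d`, `z 2 conj (z 0)/d` give `w 0 = 0` (product rule at `z 0 = 0`);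
the components `z 1 conj (z 2)/d` and `(|z 1|² - |z 2|²)/d` on the line `z 0 = 0` form the usual embedding of the sphere: with
`n = |z 1|² + |z 2|²`, `w = (0, w 1, w 2)`; subtract a multiple of `z` from `w` (the derivative vanishes on `ℂ z`) to get
`conj (z 1) w 1 + conj (z 2) w 2 = 0`, i.e. `w 1 = - κ conj (z 2)`, `w 2 = κ conj (z 1)`; then `Dn (w) = 0` and
`D (z 1 conj (z 2)) w = -κ conj (z 2)² + conj κ z 1²`, `D (|z 1|² - |z 2|²) w = -4 Re (κ conj (z 1) conj (z 2))`; both vanish only if `κ = 0`: with `A = κ conj (z 1) conj (z 2)` the first gives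
`A² = |κ|² |z 1|⁴` (multiply by `κ conj (z 1)²`), so `A` is real, and the second gives `Re A = 0`.
-/

open scoped ContDiff ComplexConjugate

namespace Pool.Agent.H63.TV

/-- the algebraic part of the immersion proof -/
theorem ver_imm_alg (a b c x y t : ℂ)
    (h0 : a ≠ 0 ∨ b ≠ 0 ∨ c ≠ 0)
    (h1 : x * conj b + a * conj y = 0)
    (h2 : y * conj c + b * conj t = 0)
    (h3 : t * conj a + c * conj x = 0)
    (h4 : (conj b * y).re = (conj c * t).re)
    (h5 : 4 * (conj a * x).re + (conj b * y).re + (conj c * t).re = 0) :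
    ∃ μ : ℂ, x = μ * a ∧ y = μ * b ∧ t = μ * c := by
  -- purely imaginary multiples
  have key : ∀ p q r s : ℂ, p ≠ 0 → q ≠ 0 → r * conj q + p * conj s = 0 → (conj q * s).re = 0 →
      r = s / q * p := by
    intro p q r s hp hq h h'
    have e1 : conj q * s + q * conj s = 0 := by
      have : conj q * s + q * conj s = ((2 * (conj q * s).re : ℝ) : ℂ) := by
        have h6 : q * conj s = conj (conj q * s) := by
          rw [map_mul, Complex.conj_conj]
        rw [h6, Complex.add_conj]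
      rw [this, h', mul_zero, Complex.ofReal_zero]
    have hq' : conj q ≠ 0 := (map_ne_zero _).2 hq
    have e2 : q * (r * conj q) = p * (conj q * s) := by
      linear_combination q * h - p * e1
    have e3 : conj q * (q * r - p * s) = 0 := by linear_combination e2
    have e4 : q * r - p * s = 0 := (mul_eq_zero.1 e3).resolve_left hq'
    rw [div_mul_eq_mul_div, eq_div_iff hq]
    linear_combination e4
  by_cases ha : a = 0
  · subst ha
    by_cases hb : b = 0
    · subst hb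
      have hc : c ≠ 0 := by
        rcases h0 with h | h | h
        · exact absurd rfl h
        · exact absurd rfl h
        · exact h
      refine ⟨t / c, ?_, ?_, ?_⟩
      · have : c * conj x = 0 := by simpa using h3
        rcases mul_eq_zero.1 this with h | h
        · exact absurd h hc
        · simpa using h
      · have : y * conj c = 0 := by simpa using h2
        rcases mul_eq_zero.1 this with h | h
        · simpa using h
        · exact absurd ((map_eq_zero _).1 h) hc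
      · field_simp
    · have hx : x = 0 := by
        have : x * conj b = 0 := by simpa using h1
        rcases mul_eq_zero.1 this with h | h
        · exact h
        · exact absurd ((map_eq_zero _).1 h) hb
      by_cases hc : c = 0
      · subst hc
        refine ⟨y / b, ?_, ?_, ?_⟩
        · rw [hx]; ring
        · field_simp
        · have : b * conj t = 0 := by simpa using h2
          rcases mul_eq_zero.1 this with h | h
          · exact absurd h hb
          · simpa using h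
      · have r1 : (conj c * t).re = 0 := by
          rw [hx] at h5
          simp only [mul_zero, Complex.zero_re] at h5
          linarith
        refine ⟨t / c, ?_, key b c y t hb hc h2 r1, ?_⟩
        · rw [hx]; ring
        · field_simp
  · by_cases hb : b = 0
    · subst hb
      have hy : y = 0 := by
        have : a * conj y = 0 := by simpa using h1
        rcases mul_eq_zero.1 this with h | h
        · exact absurd h ha
        · simpa using h
      by_cases hc : c = 0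
      · subst hc
        refine ⟨x / a, ?_, ?_, ?_⟩
        · field_simp
        · rw [hy]; ring
        · have : t * conj a = 0 := by simpa using h3
          rcases mul_eq_zero.1 this with h | h
          · rw [h]; ring
          · exact absurd ((map_eq_zero _).1 h) ha
      · have r1 : (conj c * t).re = 0 := by
          rw [hy] at h4
          simp only [mul_zero, Complex.zero_re] at h4
          exact h4.symm
        have r2 : (conj a * x).re = 0 := by
          rw [h4, r1] at h5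
          linarith
        refine ⟨x / a, ?_, ?_, key c a t x hc ha h3 r2⟩
        · field_simp
        · rw [hy]; ring
    · by_cases hc : c = 0
      · subst hc
        have ht : t = 0 := by
          have : t * conj a = 0 := by simpa using h3
          rcases mul_eq_zero.1 this with h | h
          · exact h
          · exact absurd ((map_eq_zero _).1 h) ha
        have r1 : (conj b * y).re = 0 := by
          rw [ht] at h4
          simpa using h4
        refine ⟨y / b, key a b x y ha hb h1 r1, ?_, ?_⟩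
        · field_simp
        · rw [ht]; ring
      · -- all three nonzero
        have hb' : conj b ≠ 0 := (map_ne_zero _).2 hb
        have hc' : conj c ≠ 0 := (map_ne_zero _).2 hc
        have ha' : conj a ≠ 0 := (map_ne_zero _).2 ha
        have f1 : x / a + conj (y / b) = 0 := by
          rw [map_div₀]
          field_simp
          linear_combination h1
        have f2 : y / b + conj (t / c) = 0 := by
          rw [map_div₀]
          field_simp
          linear_combination h2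
        have f3 : t / c + conj (x / a) = 0 := by
          rw [map_div₀]
          field_simp
          linear_combination h3
        have f2' : conj (y / b) + t / c = 0 := by
          have := congrArg conj f2
          rw [map_add, Complex.conj_conj, map_zero] at this
          exact this
        have g1 : x / a = t / c := by linear_combination f1 - f2'
        have g2 : y / b = t / c := by
          have f3' : conj (t / c) + x / a = 0 := by
            have := congrArg conj f3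
            rw [map_add, Complex.conj_conj, map_zero] at this
            exact this
          rw [← g1]
          linear_combination f2 - f3'
        refine ⟨t / c, ?_, ?_, ?_⟩
        · rw [← g1]; field_simp
        · rw [← g2]; field_simp
        · field_simp

theorem ver_imm_nsq (a b : ℂ) :
    HasDerivAt (fun t : ℝ => ‖a + (t : ℂ) * b‖ ^ 2) (2 * (conj a * b).re) 0 := by
  have e : (fun t : ℝ => ‖a + (t : ℂ) * b‖ ^ 2) =
      fun t : ℝ => ‖a‖ ^ 2 + t * (2 * (conj a * b).re) + t ^ 2 * ‖b‖ ^ 2 := by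
    funext t
    simp only [← Complex.normSq_eq_norm_sq, Complex.normSq_apply, Complex.add_re, Complex.add_im,
      Complex.mul_re, Complex.mul_im, Complex.ofReal_re, Complex.ofReal_im, Complex.conj_re,
      Complex.conj_im]
    ring
  rw [e]
  have h1 : HasDerivAt (fun t : ℝ => ‖a‖ ^ 2 + t * (2 * (conj a * b).re) + t ^ 2 * ‖b‖ ^ 2)
      (0 + 1 * (2 * (conj a * b).re) + (2 * 0 ^ (2 - 1) * 1) * ‖b‖ ^ 2) 0 := by
    exact (((hasDerivAt_const _ _).add ((hasDerivAt_id (0 : ℝ)).mul_const _))).add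
      (((hasDerivAt_id (0 : ℝ)).pow 2).mul_const _)
  have h2 : (0 : ℝ) + 1 * (2 * (conj a * b).re) + (2 * 0 ^ (2 - 1) * 1) * ‖b‖ ^ 2 =
      2 * (conj a * b).re := by
    simp
  rw [h2] at h1
  exact h1

theorem ver_imm_lin (a b : ℂ) : HasDerivAt (fun t : ℝ => a + (t : ℂ) * b) b 0 := by
  have h1 : HasDerivAt (fun t : ℝ => (t : ℂ)) 1 0 := Complex.ofRealCLM.hasDerivAt
  have := (h1.mul_const b).const_add a
  rwa [one_mul] at this

theorem ver_imm_prod (a b c e : ℂ) :
    HasDerivAt (fun t : ℝ => (a + (t : ℂ) * b) * conj (c + (t : ℂ) * e)) (b * conj c + a * conj e) 0 := by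
  have h1 := ver_imm_lin a b
  have h2 : HasDerivAt (fun t : ℝ => conj (c + (t : ℂ) * e)) (conj e) 0 := by
    have h3 : (fun t : ℝ => conj (c + (t : ℂ) * e)) = fun t : ℝ => conj c + (t : ℂ) * conj e := by
      funext t
      rw [map_add, map_mul, Complex.conj_ofReal]
    rw [h3]
    exact ver_imm_lin _ _
  have h3 := h1.mul h2
  simp only [Complex.ofReal_zero, zero_mul, add_zero] at h3
  exact h3

theorem ver_imm_diff (z : C3) (hz : 4 * ‖z 0‖ ^ 2 + ‖z 1‖ ^ 2 + ‖z 2‖ ^ 2 ≠ 0) :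
    DifferentiableAt ℝ ver z := by
  have hp : ∀ i : Fin 3, DifferentiableAt ℝ (fun z : C3 => z i) z := fun i => differentiableAt_apply i z
  have hc : ∀ i : Fin 3, DifferentiableAt ℝ (fun z : C3 => conj (z i)) z := fun i =>
    (Complex.conjCLE.differentiableAt (x := z i)).comp z (hp i)
  have hn : ∀ i : Fin 3, DifferentiableAt ℝ (fun z : C3 => ‖z i‖ ^ 2) z := fun i =>
    (hp i).norm_sq ℝ
  have hd : DifferentiableAt ℝ (fun z : C3 => 4 * ‖z 0‖ ^ 2 + ‖z 1‖ ^ 2 + ‖z 2‖ ^ 2) z :=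
    (((hn 0).const_mul 4).add (hn 1)).add (hn 2)
  have hi : DifferentiableAt ℝ (fun z : C3 => (4 * ‖z 0‖ ^ 2 + ‖z 1‖ ^ 2 + ‖z 2‖ ^ 2)⁻¹) z :=
    (DifferentiableAt.inv (𝕜 := ℝ) (z := z)
      (h := fun z : C3 => 4 * ‖z 0‖ ^ 2 + ‖z 1‖ ^ 2 + ‖z 2‖ ^ 2) hd hz)
  have hq0 : DifferentiableAt ℝ (fun z : C3 =>
      (2 * Real.sqrt 2 / (4 * ‖z 0‖ ^ 2 + ‖z 1‖ ^ 2 + ‖z 2‖ ^ 2) : ℝ)) z := by
    simp only [div_eq_mul_inv]
    exact hi.const_mul _
  have hq1 := Complex.ofRealCLM.differentiableAt.comp z hq0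
  have hq : DifferentiableAt ℝ (fun z : C3 =>
      ((2 * Real.sqrt 2 / (4 * ‖z 0‖ ^ 2 + ‖z 1‖ ^ 2 + ‖z 2‖ ^ 2) : ℝ) : ℂ)) z := hq1
  have hf : DifferentiableAt ℝ (fun z : C3 =>
      Real.sqrt 2 * (‖z 1‖ ^ 2 - ‖z 2‖ ^ 2) / (4 * ‖z 0‖ ^ 2 + ‖z 1‖ ^ 2 + ‖z 2‖ ^ 2)) z := by
    simp only [div_eq_mul_inv]
    exact (((hn 1).sub (hn 2)).const_mul _).mul hi
  unfold ver
  exact hf.prodMk
    ((hq.mul ((hp 0).mul (hc 1))).prodMk
      ((hq.mul ((hp 1).mul (hc 2))).prodMk (hq.mul ((hp 2).mul (hc 0)))))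

theorem ver_imm (z : C3) (hz : z ≠ 0) (w : C3) (h : fderiv ℝ ver z w = 0) : ∃ μ : ℂ, w = μ • z := by
  have h0 : z 0 ≠ 0 ∨ z 1 ≠ 0 ∨ z 2 ≠ 0 := by
    by_contra hcon
    push Not at hcon
    apply hz
    funext i
    fin_cases i
    · exact hcon.1
    · exact hcon.2.1
    · exact hcon.2.2
  have hd0 : 0 < 4 * ‖z 0‖ ^ 2 + ‖z 1‖ ^ 2 + ‖z 2‖ ^ 2 := by
    rcases h0 with h | h | h
    · have := norm_pos_iff.2 h; positivity
    · have := norm_pos_iff.2 h; positivity
    · have := norm_pos_iff.2 h; positivity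
  -- the curve
  have hcurve : HasDerivAt (fun t : ℝ => z + t • w) w 0 := by
    have h1 : HasDerivAt (fun t : ℝ => t • w) ((1 : ℝ) • w) 0 := (hasDerivAt_id (0 : ℝ)).smul_const w
    rw [one_smul] at h1
    exact h1.const_add z
  have hver : HasDerivAt (fun t : ℝ => ver (z + t • w)) 0 0 := by
    have h1 : HasFDerivAt ver (fderiv ℝ ver z) (z + (0 : ℝ) • w) := by
      rw [zero_smul, add_zero]
      exact (ver_imm_diff z hd0.ne').hasFDerivAt
    have h2 := h1.comp_hasDerivAt (0 : ℝ) hcurve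
    rw [h] at h2
    exact h2
  have hcoord : ∀ (i : Fin 3) (t : ℝ), (z + t • w) i = z i + (t : ℂ) * w i := by
    intro i t
    rw [Pi.add_apply, Pi.smul_apply, Complex.real_smul]
  -- the denominator along the curve
  set d : ℝ → ℝ := fun t => 4 * ‖z 0 + (t : ℂ) * w 0‖ ^ 2 + ‖z 1 + (t : ℂ) * w 1‖ ^ 2 +
    ‖z 2 + (t : ℂ) * w 2‖ ^ 2 with hd
  set D : ℝ := 4 * (2 * (conj (z 0) * w 0).re) + 2 * (conj (z 1) * w 1).re +
    2 * (conj (z 2) * w 2).re with hD
  have hdd : HasDerivAt d D 0 :=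
    (((ver_imm_nsq (z 0) (w 0)).const_mul 4).add (ver_imm_nsq (z 1) (w 1))).add
      (ver_imm_nsq (z 2) (w 2))
  have hdval : d 0 = 4 * ‖z 0‖ ^ 2 + ‖z 1‖ ^ 2 + ‖z 2‖ ^ 2 := by
    simp [hd]
  have hd0' : d 0 ≠ 0 := by rw [hdval]; exact hd0.ne'
  have hdne : ∀ᶠ t in nhds (0 : ℝ), d t ≠ 0 := hdd.continuousAt.eventually_ne hd0'
  have hs2 : Real.sqrt 2 ≠ 0 := by positivity
  -- components
  have c1 : HasDerivAt (fun t : ℝ => (ver (z + t • w)).1) 0 0 := by
    have := (ContinuousLinearMap.fst ℝ ℝ (ℂ × ℂ × ℂ)).hasFDerivAt.comp_hasDerivAt (0 : ℝ) hver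
    rw [map_zero] at this
    exact this
  have c2 : HasDerivAt (fun t : ℝ => (ver (z + t • w)).2) 0 0 := by
    have := (ContinuousLinearMap.snd ℝ ℝ (ℂ × ℂ × ℂ)).hasFDerivAt.comp_hasDerivAt (0 : ℝ) hver
    rw [map_zero] at this
    exact this
  have c21 : HasDerivAt (fun t : ℝ => (ver (z + t • w)).2.1) 0 0 := by
    have := (ContinuousLinearMap.fst ℝ ℂ (ℂ × ℂ)).hasFDerivAt.comp_hasDerivAt (0 : ℝ) c2
    rw [map_zero] at this
    exact this
  have c22 : HasDerivAt (fun t : ℝ => (ver (z + t • w)).2.2) 0 0 := by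
    have := (ContinuousLinearMap.snd ℝ ℂ (ℂ × ℂ)).hasFDerivAt.comp_hasDerivAt (0 : ℝ) c2
    rw [map_zero] at this
    exact this
  have c221 : HasDerivAt (fun t : ℝ => (ver (z + t • w)).2.2.1) 0 0 := by
    have := (ContinuousLinearMap.fst ℝ ℂ ℂ).hasFDerivAt.comp_hasDerivAt (0 : ℝ) c22
    rw [map_zero] at this
    exact this
  have c222 : HasDerivAt (fun t : ℝ => (ver (z + t • w)).2.2.2) 0 0 := by
    have := (ContinuousLinearMap.snd ℝ ℂ ℂ).hasFDerivAt.comp_hasDerivAt (0 : ℝ) c22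
    rw [map_zero] at this
    exact this
  -- generic complex component
  have gen : ∀ (a b c e : ℂ) (u : ℝ → ℂ), HasDerivAt u 0 0 →
      (∀ t, u t = ((2 * Real.sqrt 2 / d t : ℝ) : ℂ) * ((a + (t : ℂ) * b) * conj (c + (t : ℂ) * e))) →
      b * conj c + a * conj e = ((D / d 0 : ℝ) : ℂ) * (a * conj c) := by
    intro a b c e u hu hut
    have e1 : HasDerivAt (fun t : ℝ => (d t : ℂ) * u t) ((D : ℂ) * u 0 + (d 0 : ℂ) * 0) 0 :=
      hdd.ofReal_comp.mul hu
    have e2 : HasDerivAt (fun t : ℝ => ((2 * Real.sqrt 2 : ℝ) : ℂ) *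
        ((a + (t : ℂ) * b) * conj (c + (t : ℂ) * e)))
        (((2 * Real.sqrt 2 : ℝ) : ℂ) * (b * conj c + a * conj e)) 0 :=
      (ver_imm_prod a b c e).const_mul _
    have e3 : (fun t : ℝ => (d t : ℂ) * u t) =ᶠ[nhds 0] (fun t : ℝ => ((2 * Real.sqrt 2 : ℝ) : ℂ) *
        ((a + (t : ℂ) * b) * conj (c + (t : ℂ) * e))) := by
      filter_upwards [hdne] with t ht
      rw [hut t]
      have ht' : (d t : ℂ) ≠ 0 := by exact_mod_cast ht
      push_cast
      field_simp
    have e4 := (e1.congr_of_eventuallyEq e3.symm).unique e2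
    rw [hut 0] at e4
    simp only [Complex.ofReal_zero, zero_mul, add_zero, mul_zero] at e4
    have hs : ((2 * Real.sqrt 2 : ℝ) : ℂ) ≠ 0 := by
      have : (2 * Real.sqrt 2 : ℝ) ≠ 0 := by positivity
      exact_mod_cast this
    have hd0c : (d 0 : ℂ) ≠ 0 := by exact_mod_cast hd0'
    apply mul_left_cancel₀ hs
    rw [← e4]
    push_cast
    field_simp
  have E1 := gen (z 0) (w 0) (z 1) (w 1) _ c21 (fun t => by
    show ((2 * Real.sqrt 2 / (4 * ‖(z + t • w) 0‖ ^ 2 + ‖(z + t • w) 1‖ ^ 2 + ‖(z + t • w) 2‖ ^ 2) : ℝ) : ℂ) *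
      ((z + t • w) 0 * conj ((z + t • w) 1)) = _
    rw [hcoord 0 t, hcoord 1 t, hcoord 2 t])
  have E2 := gen (z 1) (w 1) (z 2) (w 2) _ c221 (fun t => by
    show ((2 * Real.sqrt 2 / (4 * ‖(z + t • w) 0‖ ^ 2 + ‖(z + t • w) 1‖ ^ 2 + ‖(z + t • w) 2‖ ^ 2) : ℝ) : ℂ) *
      ((z + t • w) 1 * conj ((z + t • w) 2)) = _
    rw [hcoord 0 t, hcoord 1 t, hcoord 2 t])
  have E3 := gen (z 2) (w 2) (z 0) (w 0) _ c222 (fun t => by
    show ((2 * Real.sqrt 2 / (4 * ‖(z + t • w) 0‖ ^ 2 + ‖(z + t • w) 1‖ ^ 2 + ‖(z + t • w) 2‖ ^ 2) : ℝ) : ℂ) *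
      ((z + t • w) 2 * conj ((z + t • w) 0)) = _
    rw [hcoord 0 t, hcoord 1 t, hcoord 2 t])
  -- the real component
  have E4 : 2 * (conj (z 1) * w 1).re - 2 * (conj (z 2) * w 2).re =
      D / d 0 * (‖z 1‖ ^ 2 - ‖z 2‖ ^ 2) := by
    have e1 : HasDerivAt (fun t : ℝ => d t * (ver (z + t • w)).1)
        (D * (ver (z + (0 : ℝ) • w)).1 + d 0 * 0) 0 := hdd.mul c1
    have e2 : HasDerivAt (fun t : ℝ => Real.sqrt 2 * (‖z 1 + (t : ℂ) * w 1‖ ^ 2 - ‖z 2 + (t : ℂ) * w 2‖ ^ 2))
        (Real.sqrt 2 * (2 * (conj (z 1) * w 1).re - 2 * (conj (z 2) * w 2).re)) 0 :=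
      ((ver_imm_nsq (z 1) (w 1)).sub (ver_imm_nsq (z 2) (w 2))).const_mul _
    have e5 : ∀ t : ℝ, (ver (z + t • w)).1 =
        Real.sqrt 2 * (‖z 1 + (t : ℂ) * w 1‖ ^ 2 - ‖z 2 + (t : ℂ) * w 2‖ ^ 2) / d t := by
      intro t
      show Real.sqrt 2 * (‖(z + t • w) 1‖ ^ 2 - ‖(z + t • w) 2‖ ^ 2) /
        (4 * ‖(z + t • w) 0‖ ^ 2 + ‖(z + t • w) 1‖ ^ 2 + ‖(z + t • w) 2‖ ^ 2) = _
      rw [hcoord 0 t, hcoord 1 t, hcoord 2 t]
    have e3 : (fun t : ℝ => d t * (ver (z + t • w)).1) =ᶠ[nhds 0] (fun t : ℝ =>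
        Real.sqrt 2 * (‖z 1 + (t : ℂ) * w 1‖ ^ 2 - ‖z 2 + (t : ℂ) * w 2‖ ^ 2)) := by
      filter_upwards [hdne] with t ht
      rw [e5 t]
      field_simp
    have e4 := (e1.congr_of_eventuallyEq e3.symm).unique e2
    rw [e5 0] at e4
    simp only [Complex.ofReal_zero, zero_mul, add_zero, mul_zero] at e4
    apply mul_left_cancel₀ hs2
    rw [← e4]
    field_simp
  -- remove the radial part
  set τ : ℝ := D / d 0 with hτ
  have hD2 : D = τ * (4 * ‖z 0‖ ^ 2 + ‖z 1‖ ^ 2 + ‖z 2‖ ^ 2) := by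
    rw [hτ, ← hdval]
    field_simp
  have hre : ∀ a b : ℂ, (conj a * (b - ((τ / 2 : ℝ) : ℂ) * a)).re =
      (conj a * b).re - τ / 2 * ‖a‖ ^ 2 := by
    intro a b
    rw [← Complex.normSq_eq_norm_sq, Complex.normSq_apply]
    simp only [Complex.mul_re, Complex.sub_re, Complex.sub_im, Complex.mul_im, Complex.ofReal_re,
      Complex.ofReal_im, Complex.conj_re, Complex.conj_im]
    ring
  have hcj : ∀ a b : ℂ, conj (b - ((τ / 2 : ℝ) : ℂ) * a) = conj b - ((τ / 2 : ℝ) : ℂ) * conj a := by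
    intro a b
    rw [map_sub, map_mul, Complex.conj_ofReal]
  obtain ⟨μ, m0, m1, m2⟩ := ver_imm_alg (z 0) (z 1) (z 2) (w 0 - ((τ / 2 : ℝ) : ℂ) * z 0)
    (w 1 - ((τ / 2 : ℝ) : ℂ) * z 1) (w 2 - ((τ / 2 : ℝ) : ℂ) * z 2) h0
    (by rw [hcj]; push_cast; linear_combination E1)
    (by rw [hcj]; push_cast; linear_combination E2)
    (by rw [hcj]; push_cast; linear_combination E3)
    (by rw [hre, hre]; linarith)
    (by rw [hre, hre, hre]; rw [hD] at hD2; linarith)
  refine ⟨μ + ((τ / 2 : ℝ) : ℂ), ?_⟩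
  funext i
  rw [Pi.smul_apply, smul_eq_mul]
  fin_cases i
  · show w 0 = (μ + ((τ / 2 : ℝ) : ℂ)) * z 0
    linear_combination m0
  · show w 1 = (μ + ((τ / 2 : ℝ) : ℂ)) * z 1
    linear_combination m1
  · show w 2 = (μ + ((τ / 2 : ℝ) : ℂ)) * z 2
    linear_combination m2

end Pool.Agent.H63.TV
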